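import Pool.Agent.CVG.Defs

/-!
# CVG-ChB: change of basis and boundedness on basis vectors

PLAN.
* `GE_change`: `x = ∑ (b.repr x i) • b i`, so `b'.repr x j = ∑_i (b.repr x i) * b'.repr (b i) j`; the
  finitely many scalars `b'.repr (b i) j` have valuation at least `-C` for a suitable rational `C`
  (a nonzero element has valuation a rational number, zero has valuation `⊤`).
* `MBdd_change`: go from `b'` to `b`, apply the bound, come back.
* `mbdd_of_basis`: `T^k (f • x) = ∑_{j ≤ k} binom(k,j) D^(k-j) f • T^j x` (induction; or directly by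
  induction prove that `T^[k] (f • b i)` is a sum of terms `g • T^[j] (b i)` with `j ≤ k`, `Ge v c g`),
  then use `m * j ≤ m * k`.
* `mbdd_of_step`: one step loses at most `m`: `GE v b c x → GE v b (c - m) (T x)`, iterate.
-/

open scoped BigOperators

namespace Pool.Agent.CVG

variable {F : Type*} [Field F] {V : Type*} [AddCommGroup V] [Module F V]
variable {v : AddValuation F (WithTop ℚ)} {D : Derivation ℤ F F} {T : V → V}
variable {ι ι' : Type*} [Fintype ι] [Fintype ι']

private lemma exists_Ge_one (v : AddValuation F (WithTop ℚ)) (x : F) : ∃ C : ℚ, Ge v C x := by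
  cases h : v x with
  | top => exact ⟨0, by rw [Ge, h]; exact le_top⟩
  | coe q => exact ⟨q, by rw [Ge, h]⟩

theorem exists_Ge_finite (v : AddValuation F (WithTop ℚ)) {κ : Type*} [Finite κ] (f : κ → F) :
    ∃ C : ℚ, ∀ i, Ge v C (f i) := by
  classical
  haveI := Fintype.ofFinite κ
  choose c hc using fun i => exists_Ge_one v (f i)
  refine ⟨-∑ i, |c i|, fun i => (hc i).mono ?_⟩
  have h1 : |c i| ≤ ∑ i, |c i| :=
    Finset.single_le_sum (f := fun i => |c i|) (fun j _ => abs_nonneg _) (Finset.mem_univ i)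
  have h2 := neg_abs_le (c i)
  linarith

theorem exists_GE (v : AddValuation F (WithTop ℚ)) (b : Module.Basis ι F V) {κ : Type*} [Finite κ]
    (f : κ → V) : ∃ C : ℚ, ∀ i, GE v b C (f i) := by
  obtain ⟨C, hC⟩ := exists_Ge_finite v (fun q : κ × ι => b.repr (f q.1) q.2)
  exact ⟨C, fun i j => hC (i, j)⟩

theorem GE_change (v : AddValuation F (WithTop ℚ)) (b : Module.Basis ι F V)
    (b' : Module.Basis ι' F V) :
    ∃ C : ℚ, ∀ (c : ℚ) (x : V), GE v b c x → GE v b' (c - C) x := by
  obtain ⟨C, hC⟩ := exists_GE v b' (fun i => b i)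
  refine ⟨-C, fun c x hx => ?_⟩
  rw [← b.sum_repr x, sub_neg_eq_add]
  exact GE.sum _ _ fun i _ => GE.smul (hx i) (hC i)

theorem MBdd_change (b : Module.Basis ι F V) (b' : Module.Basis ι' F V) {m : ℚ}
    (h : MBdd v b m T) : MBdd v b' m T := by
  obtain ⟨C, hC⟩ := h
  obtain ⟨C1, hC1⟩ := GE_change v b' b
  obtain ⟨C2, hC2⟩ := GE_change v b b'
  refine ⟨C1 + C + C2, fun k x c hx => ?_⟩
  exact (hC2 _ _ (hC k x _ (hC1 c x hx))).mono (by linarith)

theorem mbdd_of_basis (b : Module.Basis ι F V) (hD : DerGe v D) (hT : IsConn D T) {m : ℚ}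
    (hm : 0 ≤ m) (C : ℚ) (h : ∀ (k : ℕ) (i : ι), GE v b (-(m * k) - C) (T^[k] (b i))) :
    MBdd v b m T := by
  have key : ∀ (k j : ℕ) (i : ι) (f : F) (c : ℚ), Ge v c f →
      GE v b (c - m * ((k : ℚ) + j) - C) (T^[k] (f • T^[j] (b i))) := by
    intro k
    induction k with
    | zero =>
      intro j i f c hf
      rw [Function.iterate_zero, id_eq]
      exact (GE.smul hf (h j i)).mono (by push_cast; linarith)
    | succ k ih =>
      intro j i f c hf
      rw [Function.iterate_succ_apply, hT.smul, hT.iter_add]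
      refine GE.add ?_ ?_
      · refine (ih j i (D f) c (hD c f hf)).mono ?_
        push_cast
        nlinarith
      · have h2 := ih (j + 1) i f c hf
        rw [Function.iterate_succ_apply'] at h2
        refine h2.mono ?_
        push_cast
        linarith
  refine ⟨C, fun k x c hx => ?_⟩
  rw [← b.sum_repr x, hT.iter_sum]
  refine GE.sum _ _ fun i _ => ?_
  have h3 := key k 0 i _ c (hx i)
  rw [Function.iterate_zero, id_eq] at h3
  refine h3.mono ?_
  push_cast
  linarith

theorem mbdd_of_step (b : Module.Basis ι F V) (hD : DerGe v D) (hT : IsConn D T) {m : ℚ}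
    (hm : 0 ≤ m) (h : ∀ i : ι, GE v b (-m) (T (b i))) : MBdd v b m T := by
  have step : ∀ (c : ℚ) (x : V), GE v b c x → GE v b (c - m) (T x) := by
    intro c x hx
    rw [← b.sum_repr x, hT.sum]
    refine GE.sum _ _ fun i _ => ?_
    rw [hT.smul]
    refine GE.add ?_ ?_
    · exact (GE.smul (hD c _ (hx i)) (GE.self i)).mono (by linarith)
    · exact (GE.smul (hx i) (h i)).mono (by linarith)
  refine ⟨0, fun k => ?_⟩
  induction k with
  | zero =>
    intro x c hx
    exact hx.mono (by push_cast; linarith)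
  | succ k ih =>
    intro x c hx
    rw [Function.iterate_succ_apply]
    exact (ih (T x) (c - m) (step c x hx)).mono (by push_cast; linarith)

/-- A strict improvement after `n` steps improves the slope. -/
theorem mbdd_of_iter (b : Module.Basis ι F V) {m : ℚ} (hm : 0 < m) {n : ℕ} (hn : 0 < n) {η : ℚ}
    (hη : 0 < η) (h1 : ∀ (x : V) (c : ℚ), GE v b c x → GE v b (c - m) (T x))
    (hn' : ∀ (x : V) (c : ℚ), GE v b c x → GE v b (c - m * n + η) (T^[n] x)) :
    ∃ m' : ℚ, 0 ≤ m' ∧ m' < m ∧ MBdd v b m' T := by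
  have hnq : (0 : ℚ) < n := Nat.cast_pos.2 hn
  have hr : ∀ (r : ℕ) (x : V) (c : ℚ), GE v b c x → GE v b (c - m * r) (T^[r] x) := by
    intro r
    induction r with
    | zero => intro x c hx; exact hx.mono (by push_cast; linarith)
    | succ r ih =>
      intro x c hx
      rw [Function.iterate_succ_apply]
      exact (ih (T x) (c - m) (h1 x c hx)).mono (by push_cast; linarith)
  have hq : ∀ (q : ℕ) (x : V) (c : ℚ), GE v b c x →
      GE v b (c - (m * n - η) * q) (T^[n * q] x) := by
    intro q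
    induction q with
    | zero => intro x c hx; exact hx.mono (by push_cast; linarith)
    | succ q ih =>
      intro x c hx
      rw [Nat.mul_succ, Function.iterate_add_apply]
      exact (ih (T^[n] x) _ (hn' x c hx)).mono (by push_cast; linarith)
  refine ⟨max 0 (m - η / n), le_max_left _ _, max_lt hm (by
    have := div_pos hη hnq
    linarith), m * n, fun k x c hx => ?_⟩
  have hk : T^[k] x = T^[n * (k / n)] (T^[k % n] x) := by
    rw [← Function.iterate_add_apply, Nat.div_add_mod]
  rw [hk]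
  refine (hq (k / n) _ _ (hr (k % n) x c hx)).mono ?_
  set M : ℚ := max 0 (m - η / n) with hM
  have hM0 : 0 ≤ M := le_max_left _ _
  have hM1 : m - η / n ≤ M := le_max_right _ _
  have e1 : m * n - η = (m - η / n) * n := by
    field_simp
  have e2 : (m * n - η) ≤ M * n := by
    rw [e1]; exact mul_le_mul_of_nonneg_right hM1 hnq.le
  have e3 : (m * n - η) * ((k / n : ℕ) : ℚ) ≤ M * n * ((k / n : ℕ) : ℚ) :=
    mul_le_mul_of_nonneg_right e2 (Nat.cast_nonneg _)
  have e4 : ((k % n : ℕ) : ℚ) ≤ n := by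
    exact_mod_cast (Nat.mod_lt k hn).le
  have e5 : m * ((k % n : ℕ) : ℚ) ≤ m * n := mul_le_mul_of_nonneg_left e4 hm.le
  have e6 : (k : ℚ) = n * ((k / n : ℕ) : ℚ) + ((k % n : ℕ) : ℚ) := by
    exact_mod_cast (Nat.div_add_mod k n).symm
  have e7 : 0 ≤ M * ((k % n : ℕ) : ℚ) := mul_nonneg hM0 (Nat.cast_nonneg _)
  have e8 : M * (k : ℚ) = M * n * ((k / n : ℕ) : ℚ) + M * ((k % n : ℕ) : ℚ) := by
    rw [e6]; ring
  linarith

end Pool.Agent.CVG
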