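import Pool.Agent.CVG.KApi

/-!
# CVG-GaussA: basic facts on the Gauss valuations

PLAN. `gv a q f = vL (gp a q f)`, `gp_CF`, `gp_lam`, `cofL_hmC`, `Ge_vL_iff`.
* `gv_CF`: the support of `hmC x` is that of `x`.
* `Ge_gv_poly`: with `P = ∑ p_n (X - a)^n`, `p_n = (taylor a P).coeff n`:
  `gp a q (pF P) = ∑ hmC p_n * sL (n q) (y^n)`, the coefficient at `r` is `∑_n cofK p_n (r - n q) y^n`,
  which is zero iff all `cofK p_n (r - n q)` are zero.
* `gv_lam_sub`: special case of the preceding (both inequalities), `lam - CF b = pF (X - C b)`.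
* `gv_center`: `gp a q lam = hmC a + s^q y`; `v (a - a') ≥ q` means `a = a' + z s^q + ..`. One way: by
  `Ge_gv_poly` (both centres; `taylor a P = taylor (a - a') (taylor a' P)`, binomial expansion) the
  valuations agree on polynomials (`Ge` for all rational `c` determines the value), hence on `FK`
  (`FK_surj`).
-/

open scoped BigOperators

namespace Pool.Agent.CVG

private theorem eq_of_le_iff {x y : WithTop ℚ} (h : ∀ c : ℚ, (c : WithTop ℚ) ≤ x ↔ (c : WithTop ℚ) ≤ y) :
    x = y := by
  induction x using WithTop.recTopCoe with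
  | top =>
    induction y using WithTop.recTopCoe with
    | top => rfl
    | coe y =>
      have h1 := (h (y + 1)).1 le_top
      rw [WithTop.coe_le_coe] at h1
      linarith
  | coe x =>
    induction y using WithTop.recTopCoe with
    | top =>
      have h1 := (h (x + 1)).2 le_top
      rw [WithTop.coe_le_coe] at h1
      linarith
    | coe y =>
      have h1 := (h x).1 le_rfl
      have h2 := (h y).2 le_rfl
      exact le_antisymm h1 h2

private theorem ga_Ge_hmC {c : ℚ} {x : KK} : Ge vL c (hmC x) ↔ Ge vK c x := by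
  rw [Ge_vL_iff, Ge_vK_iff]
  constructor
  · intro h r hr
    have h1 := h r hr
    rw [cofL_hmC] at h1
    exact (map_eq_zero RatFunc.C).1 h1
  · intro h r hr
    rw [cofL_hmC, h r hr, map_zero]

theorem gv_CF (a : KK) (q : ℚ) (x : KK) : gv a q (CF x) = vK x := by
  rw [gv_apply, gp_CF]
  exact eq_of_le_iff fun c => ga_Ge_hmC

theorem Ge_gv_CF {a : KK} {q c : ℚ} {x : KK} : Ge (gv a q) c (CF x) ↔ Ge vK c x := by
  rw [Ge, Ge, gv_CF]

private theorem sL_mul (p q : ℚ) (f g : RatFunc ℂ) : sL p f * sL q g = sL (p + q) (f * g) := by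
  apply LL_ext
  intro r
  rw [cofL_sL_mul, cofL_sL, cofL_sL]
  by_cases h : r - p = q
  · rw [if_pos h, if_pos (by linarith)]
  · rw [if_neg h, if_neg (fun h' => h (by linarith)), mul_zero]

private theorem sL_zero_one : sL 0 1 = 1 := rfl

private theorem sL_pow (q : ℚ) (f : RatFunc ℂ) (n : ℕ) : sL q f ^ n = sL (n * q) (f ^ n) := by
  induction n with
  | zero =>
    rw [pow_zero, pow_zero, Nat.cast_zero, zero_mul, sL_zero_one]
  | succ n ih =>
    rw [pow_succ, ih, sL_mul, pow_succ]
    congr 1
    push_cast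
    ring

private theorem cofL_sum {ι : Type*} (s : Finset ι) (f : ι → LL) (r : ℚ) :
    cofL (∑ i ∈ s, f i) r = ∑ i ∈ s, cofL (f i) r := by
  classical
  induction s using Finset.induction_on with
  | empty =>
    rw [Finset.sum_empty, Finset.sum_empty]
    have h := cofL_add 0 0 r
    rw [add_zero] at h
    exact left_eq_add.1 h
  | insert a s ha ih => rw [Finset.sum_insert ha, Finset.sum_insert ha, cofL_add, ih]

/-- expansion of a polynomial at the centre `a` -/
private theorem pF_expand (a : KK) (P : Polynomial KK) :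
    pF P = ∑ n ∈ (Polynomial.taylor a P).support,
      CF ((Polynomial.taylor a P).coeff n) * (lam - CF a) ^ n := by
  conv_lhs => rw [← Polynomial.sum_taylor_eq P a]
  rw [Polynomial.sum_def, map_sum]
  apply Finset.sum_congr rfl
  intro n _
  rw [map_mul, map_pow, map_sub, pF_X, pF_C, pF_C]

private theorem cof_gp (a : KK) (q r : ℚ) (P : Polynomial KK) :
    cofL (gp a q (pF P)) r = algebraMap (Polynomial ℂ) (RatFunc ℂ)
      (∑ n ∈ (Polynomial.taylor a P).support,
        Polynomial.C (cofK ((Polynomial.taylor a P).coeff n) (r - n * q)) * Polynomial.X ^ n) := by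
  rw [pF_expand a P, map_sum, cofL_sum, map_sum]
  apply Finset.sum_congr rfl
  intro n _
  rw [map_mul, map_pow, map_sub, gp_CF, gp_CF, gp_lam, add_sub_cancel_left, sL_pow,
    mul_comm (hmC _), cofL_sL_mul, cofL_hmC, map_mul, map_pow, RatFunc.algebraMap_C,
    RatFunc.algebraMap_X, mul_comm]

private theorem cofK_zero (r : ℚ) : cofK 0 r = 0 := by
  have h := cofK_add 0 0 r
  rw [add_zero] at h
  exact left_eq_add.1 h

private theorem cof_gp_eq_zero (a : KK) (q r : ℚ) (P : Polynomial KK) :
    cofL (gp a q (pF P)) r = 0 ↔ ∀ n : ℕ, cofK ((Polynomial.taylor a P).coeff n) (r - n * q) = 0 := by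
  rw [cof_gp]
  have h1 : ∀ n : ℕ, (∑ n ∈ (Polynomial.taylor a P).support,
        Polynomial.C (cofK ((Polynomial.taylor a P).coeff n) (r - n * q)) *
          (Polynomial.X : Polynomial ℂ) ^ n).coeff n =
      cofK ((Polynomial.taylor a P).coeff n) (r - n * q) := by
    intro n
    rw [Polynomial.finsetSum_coeff]
    simp only [Polynomial.coeff_C_mul, Polynomial.coeff_X_pow]
    by_cases hn : n ∈ (Polynomial.taylor a P).support
    · rw [Finset.sum_eq_single n]
      · rw [if_pos rfl, mul_one]
      · intro m _ hm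
        rw [if_neg (Ne.symm hm), mul_zero]
      · exact fun h => absurd hn h
    · rw [Finset.sum_eq_zero, Polynomial.notMem_support_iff.1 hn, cofK_zero]
      intro m hm
      rw [if_neg, mul_zero]
      rintro rfl
      exact hn hm
  constructor
  · intro h n
    have h2 := (map_eq_zero_iff _ (RatFunc.algebraMap_injective ℂ)).1 h
    rw [← h1 n, h2, Polynomial.coeff_zero]
  · intro h
    have h2 : (∑ n ∈ (Polynomial.taylor a P).support,
        Polynomial.C (cofK ((Polynomial.taylor a P).coeff n) (r - n * q)) *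
          (Polynomial.X : Polynomial ℂ) ^ n) = 0 := by
      ext n
      rw [h1 n, h n, Polynomial.coeff_zero]
    rw [h2, map_zero]

theorem Ge_gv_poly (a : KK) (q c : ℚ) (P : Polynomial KK) :
    Ge (gv a q) c (pF P) ↔ ∀ n : ℕ, Ge vK (c - n * q) ((Polynomial.taylor a P).coeff n) := by
  have h1 : Ge (gv a q) c (pF P) ↔ Ge vL c (gp a q (pF P)) := Iff.rfl
  rw [h1, Ge_vL_iff]
  constructor
  · intro h n
    rw [Ge_vK_iff]
    intro r hr
    have h2 := (cof_gp_eq_zero a q (r + n * q) P).1 (h (r + n * q) (by linarith)) n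
    rwa [add_sub_cancel_right] at h2
  · intro h r hr
    rw [cof_gp_eq_zero]
    intro n
    exact Ge_vK_iff.1 (h n) _ (by linarith)

theorem gv_lam_sub (a b : KK) (q : ℚ) :
    gv a q (lam - CF b) = min (q : WithTop ℚ) (vK (a - b)) := by
  apply eq_of_le_iff
  intro c
  have h1 : lam - CF b = pF (Polynomial.X - Polynomial.C b) := by
    rw [map_sub, pF_X, pF_C]
  have h2 : Polynomial.taylor a (Polynomial.X - Polynomial.C b) =
      Polynomial.X + Polynomial.C (a - b) := by
    rw [map_sub, Polynomial.taylor_X, Polynomial.taylor_C, Polynomial.C_sub]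
    ring
  have h3 : (c : WithTop ℚ) ≤ gv a q (lam - CF b) ↔ Ge (gv a q) c (lam - CF b) := Iff.rfl
  rw [h3, h1, Ge_gv_poly, h2, le_min_iff]
  constructor
  · intro h
    refine ⟨?_, ?_⟩
    · have h4 := h 1
      have h5 : (Polynomial.X + Polynomial.C (a - b)).coeff 1 = 1 := by
        rw [Polynomial.coeff_add, Polynomial.coeff_X_one, Polynomial.coeff_C_succ, add_zero]
      rw [h5, Ge, vK.map_one, Nat.cast_one, one_mul] at h4
      have h6 : ((c - q : ℚ) : WithTop ℚ) ≤ ((0 : ℚ) : WithTop ℚ) := h4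
      rw [WithTop.coe_le_coe] at h6
      rw [WithTop.coe_le_coe]
      linarith
    · have h4 := h 0
      have h5 : (Polynomial.X + Polynomial.C (a - b)).coeff 0 = a - b := by
        rw [Polynomial.coeff_add, Polynomial.coeff_X_zero, Polynomial.coeff_C_zero, zero_add]
      rw [h5, Nat.cast_zero, zero_mul, sub_zero] at h4
      exact h4
  · rintro ⟨h4, h5⟩ n
    rw [WithTop.coe_le_coe] at h4
    rcases n with _ | _ | n
    · have h6 : (Polynomial.X + Polynomial.C (a - b)).coeff 0 = a - b := by
        rw [Polynomial.coeff_add, Polynomial.coeff_X_zero, Polynomial.coeff_C_zero, zero_add]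
      rw [h6, Nat.cast_zero, zero_mul, sub_zero]
      exact h5
    · have h6 : (Polynomial.X + Polynomial.C (a - b)).coeff (0 + 1) = 1 := by
        rw [zero_add, Polynomial.coeff_add, Polynomial.coeff_X_one, Polynomial.coeff_C_succ,
          add_zero]
      rw [h6]
      refine Ge.one.mono ?_
      push_cast
      linarith
    · have h6 : (Polynomial.X + Polynomial.C (a - b)).coeff (n + 1 + 1) = 0 := by
        rw [Polynomial.coeff_add, Polynomial.coeff_C_succ, Polynomial.coeff_X_of_ne_one (by omega),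
          add_zero]
      rw [h6]
      exact Ge.zero

private theorem center_poly {a a' : KK} {q c : ℚ} (h : Ge vK q (a - a')) (P : Polynomial KK)
    (hP : Ge (gv a q) c (pF P)) : Ge (gv a' q) c (pF P) := by
  rw [Ge_gv_poly] at hP
  rw [pF_expand a P]
  apply Ge.sum
  intro n _
  have h1 : Ge (gv a' q) q (lam - CF a) := by
    rw [Ge, gv_lam_sub, le_min_iff]
    refine ⟨le_rfl, ?_⟩
    have h2 := h.neg
    rwa [neg_sub] at h2
  have h3 := (Ge_gv_CF (a := a') (q := q)).2 (hP n)
  have h4 := h3.mul (h1.pow' n)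
  rwa [sub_add_cancel] at h4

theorem gv_center {a a' : KK} {q : ℚ} (h : Ge vK q (a - a')) : gv a q = gv a' q := by
  have h' : Ge vK q (a' - a) := by
    have h2 := h.neg
    rwa [neg_sub] at h2
  have hpoly : ∀ P : Polynomial KK, gv a q (pF P) = gv a' q (pF P) := fun P =>
    eq_of_le_iff fun c => ⟨fun hh => center_poly h P hh, fun hh => center_poly h' P hh⟩
  apply AddValuation.ext
  intro f
  obtain ⟨P, Q, hQ, rfl⟩ := FK_surj f
  have hQ' : pF Q ≠ 0 := by
    intro h0
    exact hQ (pF_injective (by rw [h0, map_zero]))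
  have h1 : pF P / pF Q * pF Q = pF P := div_mul_cancel₀ _ hQ'
  have h2 := congrArg (gv a q) h1
  have h3 := congrArg (gv a' q) h1
  rw [AddValuation.map_mul] at h2 h3
  rw [hpoly P, ← h3, hpoly Q] at h2
  have h4 : gv a' q (pF Q) ≠ ⊤ := (AddValuation.ne_top_iff _).2 hQ'
  exact WithTop.add_right_cancel h4 h2

theorem gv_surj (a : KK) (q : ℚ) : ∀ r : ℚ, ∃ x : FK, gv a q x = (r : WithTop ℚ) := by
  intro r
  exact ⟨CF (sp r), by rw [gv_CF, vK_sp]⟩

theorem gv_natCast (a : KK) (q : ℚ) (k : ℕ) (hk : k ≠ 0) :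
    gv a q (k : FK) = ((0 : ℚ) : WithTop ℚ) := by
  rw [← map_natCast CF k, gv_CF, vK_natCast k hk]

theorem CF_ratCast (r : ℚ) : CF (r : KK) = (r : FK) := by
  exact map_ratCast CF r

theorem Ge_gv_ratCast (a : KK) (q : ℚ) (r : ℚ) : Ge (gv a q) 0 (r : FK) := by
  rw [← CF_ratCast]
  exact Ge_gv_CF.2 (Ge_ratCast r)

/-- a nonzero element has a rational Gauss valuation -/
theorem exists_gv (a : KK) (q : ℚ) {f : FK} (hf : f ≠ 0) :
    ∃ r : ℚ, gv a q f = (r : WithTop ℚ) := by
  obtain ⟨r, hr⟩ := WithTop.ne_top_iff_exists.1 ((AddValuation.ne_top_iff (gv a q)).2 hf)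
  exact ⟨r, hr.symm⟩

end Pool.Agent.CVG
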