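import Pool.Agent.CVG.RgDefs
import Pool.Agent.CVG.GaussA

/-!
# CVG-NR: functions without poles in an open disc are larger inside

PLAN. `f χ^M = pF P`. `gv a q' (lam - CF (u j)) = min q' (v (a - u j)) = v (a - u j)` for `q' ≥ q` when
`v (a - u j) ≤ q` (`gv_lam_sub`): the valuation of `χ` is the same (rational) number at `q` and `q'`. For
polynomials `Ge (gv a q) c (pF P) → Ge (gv a q') c (pF P)` by `Ge_gv_poly` (`c - n q' ≤ c - n q`).
The hypothesis `hJ` means: `v (u j - a) ≤ q`.
-/

open scoped BigOperators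

namespace Pool.Agent.CVG

theorem nr {n : ℕ} {u : Fin n → KK} {J : Finset (Fin n)} {a : KK} {q q' : ℚ} (hqq : q ≤ q')
    (hJ : ∀ j ∈ J, vK (u j - a) ≤ (q : WithTop ℚ)) {f : FK} (hf : Rg u J f) {c : ℚ}
    (h : Ge (gv a q) c f) : Ge (gv a q') c f := by
  classical
  obtain ⟨M, P, hP⟩ := hf
  have hv : ∀ j ∈ J, vK (a - u j) ≤ (q : WithTop ℚ) := by
    intro j hj
    have h1 := hJ j hj
    rw [← vK.map_neg, neg_sub] at h1
    exact h1
  have h1 : ∀ j ∈ J, gv a q (lam - CF (u j)) = gv a q' (lam - CF (u j)) := by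
    intro j hj
    have h2 : vK (a - u j) ≤ (q' : WithTop ℚ) := (hv j hj).trans (WithTop.coe_le_coe.2 hqq)
    rw [gv_lam_sub, gv_lam_sub, min_eq_right (hv j hj), min_eq_right h2]
  have h0 : ∀ j ∈ J, lam - CF (u j) ≠ 0 := by
    intro j hj h3
    have h4 := gv_lam_sub a (u j) q
    rw [h3, AddValuation.map_zero, min_eq_right (hv j hj)] at h4
    have h5 := hv j hj
    rw [← h4] at h5
    exact absurd h5 (not_le.2 (WithTop.coe_lt_top q))
  have h2 : ∀ s ⊆ J, gv a q (∏ j ∈ s, (lam - CF (u j))) = gv a q' (∏ j ∈ s, (lam - CF (u j))) := by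
    intro s
    induction s using Finset.induction_on with
    | empty =>
      intro _
      rw [Finset.prod_empty, AddValuation.map_one, AddValuation.map_one]
    | insert i s hi ih =>
      intro hs
      rw [Finset.prod_insert hi, AddValuation.map_mul, AddValuation.map_mul,
        ih ((Finset.subset_insert i s).trans hs), h1 i (hs (Finset.mem_insert_self i s))]
  have hχ : (∏ j ∈ J, (lam - CF (u j))) ≠ 0 := Finset.prod_ne_zero_iff.2 h0
  obtain ⟨r, hr⟩ := exists_gv a q (pow_ne_zero M hχ)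
  have hr' : gv a q' ((∏ j ∈ J, (lam - CF (u j))) ^ M) = (r : WithTop ℚ) := by
    rw [← hr, AddValuation.map_pow, AddValuation.map_pow, h2 J (Finset.Subset.refl J)]
  have h3 : Ge (gv a q) (c + r) (pF P) := by
    rw [← hP]
    exact h.mul (le_of_eq hr.symm)
  have h4 : Ge (gv a q') (c + r) (pF P) := by
    rw [Ge_gv_poly] at h3 ⊢
    intro n
    refine (h3 n).mono ?_
    have h5 : (n : ℚ) * q ≤ n * q' := mul_le_mul_of_nonneg_left hqq (Nat.cast_nonneg n)
    linarith
  rw [← hP, Ge, AddValuation.map_mul, hr', WithTop.coe_add] at h4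
  exact (WithTop.add_le_add_iff_right (WithTop.coe_ne_top (a := r))).1 h4

end Pool.Agent.CVG
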