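import Pool.Agent.CVG.DatC
import Pool.Agent.CVG.ChB
import Pool.Agent.CVG.NR

/-!
# CVG-ALeaf: beyond the last branching radius the slopes do not increase

PLAN. Let `J = Finset.univ.erase i`. The matrix `-RSB + CF (dK (u i)) • RB = ∑_j ((dK u_i - dK u_j)/(lam - u_j)) E_j B`
(`R_sum`, `S_sum`, `E_mul`; the term `j = i` vanishes) has entries `Rg u J`, and so has
`(lam - u_i) • RB = ∑_j ((lam - u_i)/(lam - u_j)) E_j B`. So all iterates `TD i^[k] (e_l)`, `Tth i^[k] (e_l)`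
have entries `Rg u J` (closure properties, `Rg.DD`, `Rg.dlam`, `Rg.mul`). With the bound `C` at `q₁` (applied
to `e_l`, `GE .. 0`), `nr` gives the same bound at `q₂` for the iterates of basis vectors (hypothesis
`hJ : v (u j - u i) ≤ q₁` for `j ≠ i`), and `mbdd_of_basis` concludes (`DerGe`: `derGe_DD` with
`g - g0 (u i) q₂ = -q₂ (lam - u_i)`, of Gauss valuation `≥ q₂`; `derGe_dlam`).
-/

open scoped BigOperators

namespace Pool.Agent.CVG

private theorem al_iter {n : ℕ} {u : Fin n → KK} {J : Finset (Fin n)} {T : (Fin n → FK) → Fin n → FK}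
    {D : Derivation ℤ FK FK} {M : Matrix (Fin n) (Fin n) FK}
    (hT : ∀ x, T x = (fun l => D (x l)) + M.mulVec x)
    (hD : ∀ f, Rg u J f → Rg u J (D f)) (hM : ∀ k l, Rg u J (M k l)) (k : ℕ) (l j : Fin n) :
    Rg u J ((T^[k] (Pi.basisFun FK (Fin n) l)) j) := by
  induction k generalizing j with
  | zero =>
    rw [Function.iterate_zero, id_eq, Pi.basisFun_apply, Pi.single_apply]
    split_ifs
    · exact Rg.one
    · exact Rg.zero
  | succ k ih =>
    rw [Function.iterate_succ_apply', hT, Pi.add_apply]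
    refine (hD _ (ih j)).add ?_
    rw [Matrix.mulVec, dotProduct]
    exact Rg.sum _ _ fun a _ => (hM j a).mul (ih a)

private theorem al_main {n : ℕ} {u : Fin n → KK} {J : Finset (Fin n)} {T : (Fin n → FK) → Fin n → FK}
    {D : Derivation ℤ FK FK} {M : Matrix (Fin n) (Fin n) FK}
    (hT : ∀ x, T x = (fun l => D (x l)) + M.mulVec x)
    (hD : ∀ f, Rg u J f → Rg u J (D f)) (hM : ∀ k l, Rg u J (M k l)) {a : KK} {q₁ q₂ : ℚ}
    (h12 : q₁ ≤ q₂) (hJ : ∀ j ∈ J, vK (u j - a) ≤ (q₁ : WithTop ℚ))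
    (hder : DerGe (gv a q₂) D) (hconn : IsConn D T) {m : ℚ} (hm : 0 ≤ m)
    (h : MBdd (gv a q₁) (Pi.basisFun FK (Fin n)) m T) :
    MBdd (gv a q₂) (Pi.basisFun FK (Fin n)) m T := by
  obtain ⟨C, hC⟩ := h
  refine mbdd_of_basis _ hder hconn hm C fun k l j => ?_
  have h1 := hC k _ 0 (GE.self l) j
  rw [Pi.basisFun_repr] at h1 ⊢
  refine nr h12 hJ (al_iter hT hD hM k l j) ?_
  exact h1.mono (by linarith)

private theorem al_map_smul {n : ℕ} (c : KK) (X : Matrix (Fin n) (Fin n) KK) :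
    (c • X).map CF = CF c • X.map CF := by
  ext i j
  simp only [Matrix.map_apply, Matrix.smul_apply, smul_eq_mul, map_mul]

namespace Dat

variable {n : ℕ} (Δ : Dat n)

private theorem gv_self (a : KK) (q : ℚ) : Ge (gv a q) q (lam - CF a) := by
  rw [Ge, gv_lam_sub, sub_self, AddValuation.map_zero]
  exact le_min le_rfl le_top

theorem derGe_TD (i : Fin n) (q : ℚ) : DerGe (gv (Δ.u i) q) (DD (CF (dK (Δ.u i)))) := by
  refine derGe_DD _ _ _ ?_
  have h : CF (dK (Δ.u i)) - g0 (Δ.u i) q = -((q : FK) * (lam - CF (Δ.u i))) := by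
    rw [g0]; ring
  rw [h]
  refine Ge.neg ?_
  have h1 := (Ge_gv_ratCast (Δ.u i) q q).mul (gv_self (Δ.u i) q)
  rw [zero_add] at h1
  exact h1

theorem derGe_Tth (i : Fin n) (q : ℚ) : DerGe (gv (Δ.u i) q) ((lam - CF (Δ.u i)) • dlam) :=
  derGe_dlam _ _ _ (gv_self _ _)

private theorem al_RB : Δ.RB = ∑ j, (lam - CF (Δ.u j))⁻¹ • (Δ.E j * Δ.B).map CF := by
  rw [RB, R_sum, Finset.sum_mul]
  refine Finset.sum_congr rfl fun j _ => ?_
  rw [Matrix.smul_mul, Matrix.map_mul]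

private theorem al_ES (j : Fin n) : Δ.E j * Δ.S = dK (Δ.u j) • Δ.E j := by
  rw [S_sum, Finset.mul_sum, Finset.sum_eq_single j]
  · rw [Matrix.mul_smul, E_mul, if_pos rfl]
  · intro k _ hk
    rw [Matrix.mul_smul, E_mul, if_neg (Ne.symm hk), smul_zero]
  · intro h
    exact absurd (Finset.mem_univ j) h

private theorem al_RSB : Δ.RSB =
    ∑ j, (lam - CF (Δ.u j))⁻¹ • CF (dK (Δ.u j)) • (Δ.E j * Δ.B).map CF := by
  rw [RSB, R_sum, Finset.sum_mul, Finset.sum_mul]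
  refine Finset.sum_congr rfl fun j _ => ?_
  rw [Matrix.smul_mul, Matrix.smul_mul, ← Matrix.map_mul, al_ES, ← Matrix.map_mul,
    Matrix.smul_mul, al_map_smul]

private theorem al_M1 (i : Fin n) (k l : Fin n) :
    Rg Δ.u (Finset.univ.erase i) ((-Δ.RSB + CF (dK (Δ.u i)) • Δ.RB) k l) := by
  classical
  have h : -Δ.RSB + CF (dK (Δ.u i)) • Δ.RB = ∑ j ∈ Finset.univ.erase i,
      ((lam - CF (Δ.u j))⁻¹ * (CF (dK (Δ.u i)) - CF (dK (Δ.u j)))) • (Δ.E j * Δ.B).map CF := by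
    rw [al_RSB, al_RB, Finset.smul_sum, ← Finset.sum_neg_distrib, ← Finset.sum_add_distrib,
      ← Finset.add_sum_erase _ _ (Finset.mem_univ i)]
    have h0 : -((lam - CF (Δ.u i))⁻¹ • CF (dK (Δ.u i)) • (Δ.E i * Δ.B).map CF) +
        CF (dK (Δ.u i)) • (lam - CF (Δ.u i))⁻¹ • (Δ.E i * Δ.B).map CF = 0 := by
      rw [smul_comm, neg_add_cancel]
    rw [h0, zero_add]
    refine Finset.sum_congr rfl fun j _ => ?_
    rw [smul_smul, smul_smul, ← neg_smul, ← add_smul]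
    congr 1
    ring
  rw [h, Matrix.sum_apply]
  refine Rg.sum _ _ fun j hj => ?_
  rw [Matrix.smul_apply, smul_eq_mul, Matrix.map_apply]
  exact ((Rg.inv_sub hj).mul ((Rg.CF _).sub (Rg.CF _))).mul (Rg.CF _)

private theorem al_ne (a : KK) : lam - CF a ≠ 0 := by
  rw [← pF_X, ← pF_C, ← map_sub]
  intro h
  rw [← map_zero pF] at h
  exact Polynomial.X_sub_C_ne_zero a (pF_injective h)

private theorem al_M2 (i : Fin n) (k l : Fin n) :
    Rg Δ.u (Finset.univ.erase i) (((lam - CF (Δ.u i)) • Δ.RB) k l) := by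
  classical
  rw [al_RB, Finset.smul_sum, Matrix.sum_apply]
  refine Rg.sum _ _ fun j _ => ?_
  rw [Matrix.smul_apply, Matrix.smul_apply, smul_eq_mul, smul_eq_mul, Matrix.map_apply]
  by_cases hj : j = i
  · subst hj
    rw [← mul_assoc, mul_inv_cancel₀ (al_ne _), one_mul]
    exact Rg.CF _
  · exact (Rg.lam.sub (Rg.CF _)).mul
      ((Rg.inv_sub (Finset.mem_erase.2 ⟨hj, Finset.mem_univ j⟩)).mul (Rg.CF _))

private theorem al_TD (i : Fin n) (x : Fin n → FK) : Δ.TD i x =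
    (fun l => DD (CF (dK (Δ.u i))) (x l)) + (-Δ.RSB + CF (dK (Δ.u i)) • Δ.RB).mulVec x := by
  rw [TD, T, T0, Td, Matrix.add_mulVec, Matrix.neg_mulVec, Matrix.smul_mulVec]
  funext l
  simp only [Pi.add_apply, Pi.sub_apply, Pi.smul_apply, Pi.neg_apply, smul_eq_mul, DD_apply]
  ring

private theorem al_Tth (i : Fin n) (x : Fin n → FK) : Δ.Tth i x =
    (fun l => ((lam - CF (Δ.u i)) • dlam) (x l)) + ((lam - CF (Δ.u i)) • Δ.RB).mulVec x := by
  rw [Tth, Td, Matrix.smul_mulVec]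
  funext l
  simp only [Pi.add_apply, Pi.smul_apply, smul_eq_mul, Derivation.smul_apply]
  ring

theorem leaf_mono (i : Fin n) {q₁ q₂ : ℚ} (h12 : q₁ ≤ q₂)
    (hJ : ∀ j, j ≠ i → vK (Δ.u j - Δ.u i) ≤ (q₁ : WithTop ℚ)) {m : ℚ} (hm : 0 ≤ m) :
    (MBdd (gv (Δ.u i) q₁) (Pi.basisFun FK (Fin n)) m (Δ.TD i) →
      MBdd (gv (Δ.u i) q₂) (Pi.basisFun FK (Fin n)) m (Δ.TD i)) ∧
    (MBdd (gv (Δ.u i) q₁) (Pi.basisFun FK (Fin n)) m (Δ.Tth i) →
      MBdd (gv (Δ.u i) q₂) (Pi.basisFun FK (Fin n)) m (Δ.Tth i)) := by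
  classical
  have hJ' : ∀ j ∈ Finset.univ.erase i, vK (Δ.u j - Δ.u i) ≤ (q₁ : WithTop ℚ) :=
    fun j hj => hJ j (Finset.ne_of_mem_erase hj)
  constructor
  · exact al_main (u := Δ.u) (J := Finset.univ.erase i) (Δ.al_TD i)
      (fun f hf => Rg.DD (Rg.CF _) hf) (Δ.al_M1 i) h12 hJ' (Δ.derGe_TD i q₂) (Δ.isConn_TD i) hm
  · exact al_main (u := Δ.u) (J := Finset.univ.erase i) (Δ.al_Tth i)
      (fun f hf => by
        rw [Derivation.smul_apply, smul_eq_mul]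
        exact (Rg.lam.sub (Rg.CF _)).mul hf.dlam) (Δ.al_M2 i) h12 hJ' (Δ.derGe_Tth i q₂)
      (Δ.isConn_Tth i) hm

end Dat

end Pool.Agent.CVG
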