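import Pool.Agent.CVG.Defs

/-!
# CVG-CV: the cyclic vector theorem

PLAN. Let `n = finrank F V`, `e_0, ..., e_{n-1}` a basis, `e_l = 0` for `l ≥ n`.
* Reduction: as `D ≠ 0` choose `f` with `D f ≠ 0`, put `g = (D f)⁻¹`, `D' = g • D`, `T' = g • T`
  (`IsConn.smul_right`). Then `D' f = 1`. For every `k`, `span {T'^i e : i < k} = span {T^i e : i < k}`
  (`T'^k e ≡ g^k T^k e` modulo the span of the lower ones), so `e` cyclic for `T'` iff cyclic for `T`.
* Katz: assume `D x = 1`. Put `c(i,j) = ∑_{k ≤ j} (-1)^k binom(j,k) T^k e_{i+j-k}`. Then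
  `T c(i,j) = c(i+1,j) - c(i,j+1)` (Pascal). For `y` with `D y = 1` let
  `E(y) = ∑_{j < n} y^j/j! • c(0,j)`. By induction `T^i E(y) = ∑_{j < n} y^j/j! • w(i,j)` with
  vectors `w(i,j)` not depending on `y` and `w(i,j) = c(i,j)` for `i + j < n`; in particular
  `w(i,0) = c(i,0) = e_i` for `i < n`. So the determinant of `(T^i E(y))_i` in the basis `e` is the
  value at `y` of a polynomial over `F` whose value at `0` is `1`. It has finitely many roots; the
  elements `x - a`, `a : ℕ`, are pairwise distinct (char 0) and satisfy `D (x - a) = 1`. Take `a` such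
  that the determinant does not vanish.
* `exists_cyc`: from linear independence of `n = finrank` vectors get span `⊤` and coefficients.
-/

open scoped BigOperators

namespace Pool.Agent.CVG

variable {F : Type*} [Field F] [CharZero F] {V : Type*} [AddCommGroup V] [Module F V]
variable {D : Derivation ℤ F F} {T : V → V}

/-- the coefficient vectors of the iterates -/
private def WW (T : V → V) (c : ℕ → V) : ℕ → ℕ → V
  | 0, j => c j
  | i + 1, j => WW T c i (j + 1) + T (WW T c i j)

omit [CharZero F] [Field F] [Module F V] in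
private theorem WW_zero_left (T : V → V) (c : ℕ → V) (j : ℕ) : WW T c 0 j = c j := rfl

omit [CharZero F] [Field F] [Module F V] in
private theorem WW_succ (T : V → V) (c : ℕ → V) (i j : ℕ) :
    WW T c (i + 1) j = WW T c i (j + 1) + T (WW T c i j) := rfl

omit [CharZero F] [Field F] [Module F V] in
private theorem WW_diff (T : V → V) (c c' : ℕ → V) :
    ∀ i j, (∀ l < i + j, c' l = c l) →
      WW T c' i j = WW T c i j + (c' (i + j) - c (i + j)) := by
  intro i
  induction i with
  | zero =>
    intro j _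
    rw [WW_zero_left, WW_zero_left, Nat.zero_add]
    abel
  | succ i ih =>
    intro j h
    have h1 := ih (j + 1) (fun l hl => h l (by omega))
    have h2 := ih j (fun l hl => h l (by omega))
    rw [h (i + j) (by omega), sub_self, add_zero] at h2
    have h3 : i + (j + 1) = i + 1 + j := by omega
    rw [h3] at h1
    rw [WW_succ, WW_succ, h1, h2]
    abel

omit [CharZero F] [Field F] [Module F V] in
private theorem exists_c (T : V → V) (e : ℕ → V) (m : ℕ) :
    ∃ c : ℕ → V, ∀ i < m, WW T c i 0 = e i := by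
  induction m with
  | zero => exact ⟨fun _ => 0, fun i hi => absurd hi (Nat.not_lt_zero i)⟩
  | succ m ih =>
    obtain ⟨c, hc⟩ := ih
    refine ⟨Function.update c m (c m + (e m - WW T c m 0)), fun i hi => ?_⟩
    have h1 := WW_diff T c (Function.update c m (c m + (e m - WW T c m 0))) i 0 (fun l hl =>
      Function.update_of_ne (by omega) _ _)
    rw [h1, add_zero]
    rcases Nat.lt_succ_iff_lt_or_eq.1 hi with h | h
    · rw [Function.update_of_ne (by omega), sub_self, add_zero]
      exact hc i h
    · rw [h, Function.update_self]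
      abel

omit [CharZero F] [Field F] [Module F V] in
private theorem WW_eq_zero (T : V → V) (h0 : T 0 = 0) (c : ℕ → V) (n : ℕ)
    (hc : ∀ j, n ≤ j → c j = 0) : ∀ i j, n ≤ j → WW T c i j = 0 := by
  intro i
  induction i with
  | zero =>
    intro j hj
    rw [WW_zero_left]
    exact hc j hj
  | succ i ih =>
    intro j hj
    rw [WW_succ, ih j hj, ih (j + 1) (by omega), h0, add_zero]

omit [CharZero F] [Field F] [Module F V] in
private theorem exists_c' (T : V → V) (e : ℕ → V) (n : ℕ) :
    ∃ c : ℕ → V, (∀ j, n ≤ j → c j = 0) ∧ ∀ i < n, WW T c i 0 = e i := by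
  obtain ⟨c, hc⟩ := exists_c T e n
  refine ⟨fun j => if j < n then c j else 0, fun j hj => if_neg (by omega), fun i hi => ?_⟩
  have h1 := WW_diff T c (fun j => if j < n then c j else 0) i 0 (fun l hl => if_pos (by omega))
  rw [h1, hc i hi]
  have h2 : (if i + 0 < n then c (i + 0) else 0) = c (i + 0) := if_pos (by omega)
  rw [h2, sub_self, add_zero]

/-- the divided power -/
private noncomputable def dp (y : F) (j : ℕ) : F := y ^ j * (j.factorial : F)⁻¹

private theorem D_dp {y : F} (hy : D y = 1) (j : ℕ) : D (dp y (j + 1)) = dp y j := by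
  have h1 : D ((((j + 1).factorial : ℕ) : F)⁻¹) = 0 := by
    rw [Derivation.leibniz_inv, Derivation.map_natCast, smul_zero]
  have h2 : ((j.factorial : ℕ) : F) ≠ 0 := Nat.cast_ne_zero.2 (Nat.factorial_ne_zero j)
  have h3 : ((j : F) + 1) ≠ 0 := by exact_mod_cast Nat.succ_ne_zero j
  unfold dp
  rw [Derivation.leibniz, h1, smul_zero, zero_add, Derivation.leibniz_pow, hy,
    Nat.factorial_succ, Nat.add_sub_cancel]
  simp only [smul_eq_mul, nsmul_eq_mul, mul_one]
  push_cast
  field_simp

omit [CharZero F] in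
private theorem D_dp_zero (y : F) : D (dp y 0) = 0 := by
  unfold dp
  rw [pow_zero, Nat.factorial_zero, Nat.cast_one, inv_one, mul_one, Derivation.map_one_eq_zero]

private theorem T_sum (hT : IsConn D T) {y : F} (hy : D y = 1) (n : ℕ) (w : ℕ → V)
    (hw : w n = 0) : T (∑ j ∈ Finset.range n, dp y j • w j) =
      ∑ j ∈ Finset.range n, dp y j • (w (j + 1) + T (w j)) := by
  rw [hT.sum]
  have h1 : ∑ j ∈ Finset.range n, D (dp y j) • w j =
      ∑ j ∈ Finset.range n, dp y j • w (j + 1) := by
    have h2 : ∑ j ∈ Finset.range (n + 1), D (dp y j) • w j =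
        ∑ j ∈ Finset.range n, D (dp y j) • w j := by
      rw [Finset.sum_range_succ, hw, smul_zero, add_zero]
    rw [← h2, Finset.sum_range_succ', D_dp_zero, zero_smul, add_zero]
    exact Finset.sum_congr rfl fun j _ => by rw [D_dp hy]
  rw [Finset.sum_congr rfl fun j _ => hT.smul (dp y j) (w j), Finset.sum_add_distrib, h1,
    ← Finset.sum_add_distrib]
  exact Finset.sum_congr rfl fun j _ => (smul_add _ _ _).symm

private theorem iter_E (hT : IsConn D T) {y : F} (hy : D y = 1) (n : ℕ) (c : ℕ → V)
    (hc : ∀ j, n ≤ j → c j = 0) (i : ℕ) :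
    T^[i] (∑ j ∈ Finset.range n, dp y j • c j) =
      ∑ j ∈ Finset.range n, dp y j • WW T c i j := by
  induction i with
  | zero => rfl
  | succ i ih =>
    rw [Function.iterate_succ_apply', ih,
      T_sum hT hy n (WW T c i) (WW_eq_zero T hT.zero c n hc i n le_rfl)]
    exact Finset.sum_congr rfl fun j _ => rfl

private theorem cyclic_one [FiniteDimensional F V] (hT : IsConn D T) {x : F} (hx : D x = 1) :
    ∃ e : V, LinearIndependent F (fun i : Fin (Module.finrank F V) => T^[(i : ℕ)] e) := by
  classical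
  set n := Module.finrank F V with hn
  let b : Module.Basis (Fin n) F V := Module.finBasis F V
  obtain ⟨c, hc0, hc⟩ := exists_c' T (fun l => if h : l < n then b ⟨l, h⟩ else 0) n
  -- the matrix of polynomials
  let M : Matrix (Fin n) (Fin n) (Polynomial F) := fun k i =>
    ∑ j ∈ Finset.range n, Polynomial.C ((j.factorial : F)⁻¹ * b.repr (WW T c i j) k) *
      Polynomial.X ^ j
  have hM : ∀ y : F, (Polynomial.evalRingHom y).mapMatrix M =
      b.toMatrix (fun i : Fin n => ∑ j ∈ Finset.range n, dp y j • WW T c i j) := by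
    intro y
    ext k i
    rw [RingHom.mapMatrix_apply, Matrix.map_apply, Module.Basis.toMatrix_apply]
    show (Polynomial.evalRingHom y) (∑ j ∈ Finset.range n,
      Polynomial.C ((j.factorial : F)⁻¹ * b.repr (WW T c i j) k) * Polynomial.X ^ j) = _
    rw [map_sum, map_sum, Finsupp.finsetSum_apply]
    refine Finset.sum_congr rfl fun j _ => ?_
    rw [map_smul, Finsupp.smul_apply, smul_eq_mul, Polynomial.coe_evalRingHom,
      Polynomial.eval_mul, Polynomial.eval_C, Polynomial.eval_pow, Polynomial.eval_X]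
    unfold dp
    ring
  have hP : ∀ y : F, M.det.eval y =
      b.det (fun i : Fin n => ∑ j ∈ Finset.range n, dp y j • WW T c i j) := by
    intro y
    rw [← Polynomial.coe_evalRingHom, RingHom.map_det, hM, Module.Basis.det_apply]
  have hP0 : M.det.eval 0 = 1 := by
    rw [hP]
    have h1 : (fun i : Fin n => ∑ j ∈ Finset.range n, dp (0 : F) j • WW T c i j) = b := by
      funext i
      have hpos : 0 < n := lt_of_le_of_lt (Nat.zero_le _) i.2
      rw [Finset.sum_eq_single_of_mem 0 (Finset.mem_range.2 hpos)]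
      · rw [hc i i.2, dif_pos i.2]
        unfold dp
        rw [pow_zero, Nat.factorial_zero, Nat.cast_one, inv_one, mul_one, one_smul]
      · intro j _ hj
        unfold dp
        rw [zero_pow hj, zero_mul, zero_smul]
    rw [h1, Module.Basis.det_self]
  have hne : M.det ≠ 0 := by
    intro h
    rw [h, Polynomial.eval_zero] at hP0
    exact zero_ne_one hP0
  have hex : ∃ a : ℕ, M.det.eval (x - a) ≠ 0 := by
    by_contra hcon
    have hall : ∀ a : ℕ, M.det.eval (x - a) = 0 := fun a => by_contra fun h => hcon ⟨a, h⟩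
    have hinj : Function.Injective (fun a : ℕ => x - (a : F)) := by
      intro a a' h
      exact Nat.cast_injective (R := F) (sub_right_injective h)
    have hsub : Set.range (fun a : ℕ => x - (a : F)) ⊆ (M.det.roots.toFinset : Set F) := by
      rintro _ ⟨a, rfl⟩
      rw [Finset.mem_coe, Multiset.mem_toFinset, Polynomial.mem_roots hne]
      exact hall a
    exact Set.infinite_range_of_injective hinj ((Finset.finite_toSet _).subset hsub)
  obtain ⟨a, ha⟩ := hex
  have hy : D (x - a) = 1 := by
    rw [map_sub, hx, Derivation.map_natCast, sub_zero]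
  refine ⟨∑ j ∈ Finset.range n, dp (x - a) j • c j, ?_⟩
  have h2 : (fun i : Fin n => T^[(i : ℕ)] (∑ j ∈ Finset.range n, dp (x - a) j • c j)) =
      fun i : Fin n => ∑ j ∈ Finset.range n, dp (x - a) j • WW T c i j := by
    funext i
    exact iter_E hT hy n c hc0 i
  rw [h2]
  have h3 : IsUnit (b.det (fun i : Fin n => ∑ j ∈ Finset.range n, dp (x - a) j • WW T c i j)) := by
    rw [← hP]
    exact isUnit_iff_ne_zero.2 ha
  exact ((Module.Basis.is_basis_iff_det b).2 h3).1

omit [CharZero F] in
private theorem T_mem (hT : IsConn D T) (e : V) (k : ℕ) {x : V}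
    (hx : x ∈ Submodule.span F {z | ∃ j ≤ k, z = T^[j] e}) :
    T x ∈ Submodule.span F {z | ∃ j ≤ k + 1, z = T^[j] e} ∧
      x ∈ Submodule.span F {z | ∃ j ≤ k + 1, z = T^[j] e} := by
  induction hx using Submodule.span_induction with
  | mem x hx =>
    obtain ⟨j, hj, rfl⟩ := hx
    refine ⟨Submodule.subset_span ⟨j + 1, by omega, ?_⟩,
      Submodule.subset_span ⟨j, by omega, rfl⟩⟩
    rw [Function.iterate_succ_apply']
  | zero =>
    rw [hT.zero]
    exact ⟨Submodule.zero_mem _, Submodule.zero_mem _⟩
  | add x y _ _ h1 h2 =>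
    rw [hT.add]
    exact ⟨Submodule.add_mem _ h1.1 h2.1, Submodule.add_mem _ h1.2 h2.2⟩
  | smul a x _ h1 =>
    rw [hT.smul]
    exact ⟨Submodule.add_mem _ (Submodule.smul_mem _ _ h1.2) (Submodule.smul_mem _ _ h1.1),
      Submodule.smul_mem _ _ h1.2⟩

omit [CharZero F] in
private theorem iter_mem (hT : IsConn D T) (g : F) (e : V) (k : ℕ) :
    (fun x => g • T x)^[k] e ∈ Submodule.span F {z | ∃ j ≤ k, z = T^[j] e} := by
  induction k with
  | zero => exact Submodule.subset_span ⟨0, le_rfl, rfl⟩
  | succ k ih =>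
    rw [Function.iterate_succ_apply']
    exact Submodule.smul_mem _ _ (T_mem hT e k ih).1

theorem exists_cyclic [FiniteDimensional F V] (hD : D ≠ 0) (hT : IsConn D T) :
    ∃ e : V, LinearIndependent F (fun i : Fin (Module.finrank F V) => T^[(i : ℕ)] e) := by
  have hf : ∃ f : F, D f ≠ 0 := by
    by_contra hcon
    exact hD (Derivation.ext fun f => by_contra fun h => hcon ⟨f, h⟩)
  obtain ⟨f, hf⟩ := hf
  obtain ⟨e, he⟩ := cyclic_one (hT.smul_right (D f)⁻¹) (x := f) (by
    rw [Derivation.smul_apply, smul_eq_mul, inv_mul_cancel₀ hf])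
  refine ⟨e, ?_⟩
  have htop := he.span_eq_top_of_card_eq_finrank' (Fintype.card_fin _)
  refine linearIndependent_of_top_le_span_of_card_eq_finrank ?_ (Fintype.card_fin _)
  rw [← htop, Submodule.span_le]
  rintro _ ⟨i, rfl⟩
  have h1 := iter_mem hT (D f)⁻¹ e i
  refine Submodule.span_mono ?_ h1
  rintro z ⟨j, hj, rfl⟩
  exact ⟨⟨j, lt_of_le_of_lt hj i.2⟩, rfl⟩

theorem exists_cyc [FiniteDimensional F V] (hD : D ≠ 0) (hT : IsConn D T) :
    ∃ (e : V) (a : Fin (Module.finrank F V) → F), IsCyc T (Module.finrank F V) e a := by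
  obtain ⟨e, he⟩ := exists_cyclic hD hT
  have htop := he.span_eq_top_of_card_eq_finrank' (Fintype.card_fin _)
  have hmem : T^[Module.finrank F V] e ∈ Submodule.span F
      (Set.range fun i : Fin (Module.finrank F V) => T^[(i : ℕ)] e) := by
    rw [htop]
    exact Submodule.mem_top
  rw [Submodule.mem_span_range_iff_exists_fun] at hmem
  obtain ⟨a, ha⟩ := hmem
  exact ⟨e, a, he, htop, ha.symm⟩

end Pool.Agent.CVG
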