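import Pool.Agent.CVG.Defs
import Pool.Agent.Helper17.Sign.Traces

/-!
# CVG-TrNil: an integral matrix with topologically nilpotent traces is topologically nilpotent

PLAN. Newton's identities: with `charpoly N = X^n + c_1 X^(n-1) + ... + c_n` one has
`k c_k = - ∑_{i=1}^{k} c_{k-i} tr (N^i)` for `1 ≤ k ≤ n`. As `v k = 0` and `v (tr N^i) > 0`, `v (c_j) ≥ 0`,
induction gives `v (c_k) > 0` for `1 ≤ k ≤ n`. By Cayley-Hamilton `N^n = - ∑ c_k N^(n-k)`, whose entries
have valuation `> 0`. (Alternatively pass to the residue field of the valuation ring, of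
characteristic zero, and use that a matrix all of whose powers have trace zero is nilpotent: over an
algebraic closure the eigenvalues satisfy `∑ λ_i^k = 0` for all `k ≥ 1`, Vandermonde.)
`(N : Matrix ι ι F)`, all statements in terms of `Ge`.
-/

open scoped BigOperators

namespace Pool.Agent.CVG

variable {F : Type*} [Field F]

private theorem exists_fn {K : Type*} (s : Multiset K) {n : ℕ} (h : Multiset.card s = n) :
    ∃ g : Fin n → K, Multiset.map g (Finset.univ : Finset (Fin n)).val = s := by
  subst h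
  induction s using Quotient.inductionOn with
  | h l =>
    refine ⟨fun i => l.get i, ?_⟩
    rw [Fin.univ_val_map]
    simp

private theorem newton {n : ℕ} (N : Matrix (Fin n) (Fin n) F) {k : ℕ} (hk : k ≤ n) :
    (k : F) * N.charpoly.coeff (n - k) =
      - ∑ a ∈ (Finset.HasAntidiagonal.antidiagonal k).filter (fun a => a.1 < k),
        N.charpoly.coeff (n - a.1) * (N ^ a.2).trace := by
  classical
  set f : Module.End F (Fin n → F) := Matrix.toLin' N with hf
  have hcard : Multiset.card (Pool.Agent.Helper17.Sign.eig f) = n := by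
    rw [Pool.Agent.Helper17.Sign.card_eig]
    simp
  obtain ⟨g, hg⟩ := exists_fn _ hcard
  have hco : ∀ a ≤ n, algebraMap F (AlgebraicClosure F) (N.charpoly.coeff (n - a)) =
      (-1) ^ a * MvPolynomial.aeval g (MvPolynomial.esymm (Fin n) F a) := by
    intro a ha
    have h1 := Pool.Agent.Helper17.Sign.prod_eig f
    have h2 := Multiset.prod_X_sub_C_coeff (Pool.Agent.Helper17.Sign.eig f) (k := n - a)
      (by rw [hcard]; omega)
    rw [h1, Polynomial.coeff_map, hf, Matrix.charpoly_toLin', ← hf, hcard,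
      show n - (n - a) = a by omega, ← hg] at h2
    rw [h2, MvPolynomial.aeval_esymm_eq_multiset_esymm]
  have htr : ∀ b, algebraMap F (AlgebraicClosure F) ((N ^ b).trace) =
      MvPolynomial.aeval g (MvPolynomial.psum (Fin n) F b) := by
    intro b
    have h1 := Pool.Agent.Helper17.Sign.trace_pow f b
    rw [hf, ← Matrix.toLin'_pow, Matrix.trace_toLin'_eq, ← hf, ← hg, Multiset.map_map] at h1
    rw [h1, MvPolynomial.psum, map_sum]
    simp only [map_pow, MvPolynomial.aeval_X]
    rfl
  have h0 := congrArg (MvPolynomial.aeval g) (MvPolynomial.mul_esymm_eq_sum (Fin n) F k)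
  apply (algebraMap F (AlgebraicClosure F)).injective
  rw [map_mul, map_natCast, hco k hk, map_neg, map_sum]
  rw [map_mul, map_natCast, map_mul, map_sum, map_pow, map_neg, map_one] at h0
  have h1 : (k : AlgebraicClosure F) * ((-1) ^ k * MvPolynomial.aeval g
      (MvPolynomial.esymm (Fin n) F k)) = (-1) ^ k * ((k : AlgebraicClosure F) *
      MvPolynomial.aeval g (MvPolynomial.esymm (Fin n) F k)) := by ring
  rw [h1, h0, pow_succ, ← mul_assoc, ← mul_assoc, ← mul_pow, neg_one_mul, neg_neg, one_pow,
    one_mul, neg_one_mul]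
  congr 1
  apply Finset.sum_congr rfl
  intro a ha
  rw [Finset.mem_filter, Finset.HasAntidiagonal.mem_antidiagonal] at ha
  rw [map_mul (algebraMap F (AlgebraicClosure F)), hco a.1 (by omega), htr]
  simp only [map_mul, map_pow, map_neg, map_one]

private theorem unif (v : AddValuation F (WithTop ℚ)) (u : ℕ → F)
    (hu : ∀ l : ℕ, ∃ η : ℚ, 0 < η ∧ Ge v η (u l)) (m : ℕ) :
    ∃ η : ℚ, 0 < η ∧ ∀ l < m, Ge v η (u l) := by
  induction m with
  | zero => exact ⟨1, one_pos, fun l hl => absurd hl (Nat.not_lt_zero l)⟩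
  | succ m ih =>
    obtain ⟨η, h1, h2⟩ := ih
    obtain ⟨η', h3, h4⟩ := hu m
    refine ⟨min η η', lt_min h1 h3, fun l hl => ?_⟩
    rcases Nat.lt_succ_iff_lt_or_eq.1 hl with h | h
    · exact (h2 l h).mono (min_le_left _ _)
    · subst h
      exact h4.mono (min_le_right _ _)

private theorem pow_ge (v : AddValuation F (WithTop ℚ)) {n : ℕ}
    (N : Matrix (Fin n) (Fin n) F) (hN : ∀ i j, Ge v 0 (N i j)) (k : ℕ) :
    ∀ i j, Ge v 0 ((N ^ k) i j) := by
  induction k with
  | zero =>
    intro i j
    rw [pow_zero, Matrix.one_apply]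
    split_ifs
    · exact Ge.one
    · exact Ge.zero
  | succ k ih =>
    intro i j
    rw [pow_succ, Matrix.mul_apply]
    exact Ge.sum _ _ fun l _ => by simpa using (ih i l).mul (hN l j)

theorem pow_pos_of_trace (v : AddValuation F (WithTop ℚ))
    (hnat : ∀ k : ℕ, k ≠ 0 → v (k : F) = ((0 : ℚ) : WithTop ℚ)) {n : ℕ}
    (N : Matrix (Fin n) (Fin n) F) (hN : ∀ i j, Ge v 0 (N i j))
    (htr : ∀ l : ℕ, ∃ η : ℚ, 0 < η ∧ Ge v η ((N ^ (l + 1)).trace)) :
    ∃ η : ℚ, 0 < η ∧ ∀ i j, Ge v η ((N ^ n) i j) := by
  obtain ⟨η, hη, hη2⟩ := unif v (fun l => (N ^ (l + 1)).trace) htr n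
  refine ⟨η, hη, ?_⟩
  have hdeg : N.charpoly.natDegree = n := by
    rw [Matrix.charpoly_natDegree_eq_dim, Fintype.card_fin]
  have hmon : N.charpoly.Monic := Matrix.charpoly_monic N
  have hc0 : N.charpoly.coeff n = 1 := by
    have := hmon.coeff_natDegree
    rwa [hdeg] at this
  have hc : ∀ k, 1 ≤ k → k ≤ n → Ge v η (N.charpoly.coeff (n - k)) := by
    intro k
    induction k using Nat.strong_induction_on with
    | _ k ih =>
      intro hk1 hkn
      have h1 := newton N hkn
      have h2 : Ge v η ((k : F) * N.charpoly.coeff (n - k)) := by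
        rw [h1]
        apply Ge.neg
        apply Ge.sum
        intro a ha
        rw [Finset.mem_filter, Finset.HasAntidiagonal.mem_antidiagonal] at ha
        have h3 : Ge v 0 (N.charpoly.coeff (n - a.1)) := by
          rcases Nat.eq_zero_or_pos a.1 with h | h
          · rw [h, Nat.sub_zero, hc0]
            exact Ge.one
          · exact (ih a.1 ha.2 h (by omega)).mono hη.le
        have h4 : Ge v η ((N ^ a.2).trace) := by
          have h5 := hη2 (a.2 - 1) (by omega)
          rwa [show a.2 - 1 + 1 = a.2 by omega] at h5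
        simpa using h3.mul h4
      rw [Ge, v.map_mul, hnat k (by omega)] at h2
      rw [Ge]
      have h6 : ((0 : ℚ) : WithTop ℚ) + v (N.charpoly.coeff (n - k)) =
          v (N.charpoly.coeff (n - k)) := by
        rw [WithTop.coe_zero, zero_add]
      rwa [h6] at h2
  have hCH := Matrix.aeval_self_charpoly N
  rw [hmon.as_sum, hdeg] at hCH
  simp only [map_add, map_pow, map_sum, map_mul, Polynomial.aeval_X, Polynomial.aeval_C] at hCH
  have h7 : N ^ n = - ∑ i ∈ Finset.range n,
      (algebraMap F (Matrix (Fin n) (Fin n) F)) (N.charpoly.coeff i) * N ^ i :=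
    eq_neg_of_add_eq_zero_left hCH
  intro i j
  rw [h7, Matrix.neg_apply, Matrix.sum_apply]
  apply Ge.neg
  apply Ge.sum
  intro l hl
  have hl' := Finset.mem_range.1 hl
  rw [← Algebra.smul_def, Matrix.smul_apply, smul_eq_mul]
  have h8 := hc (n - l) (by omega) (by omega)
  rw [show n - (n - l) = l by omega] at h8
  simpa using h8.mul (pow_ge v N hN l i j)

end Pool.Agent.CVG
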