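import Pool.Agent.CVG.DomDefs
import Pool.Agent.CVG.TrNil

/-!
# CVG-Dom3: the trace argument

PLAN. Let `A`, `B` be the matrices of `T1`, `T2` in the basis `b`: `T1 (b k) = ∑ A_{lk} • b l`,
`T2 (b k) = ∑ B_{lk} • b l`; `v (A) ≥ -m₂`, `v (B) ≥ -m₃`. Commutation gives
`D B + A B = dd A + B A` (entrywise derivatives), so
`D (tr B^(l+1)) = (l+1) tr (B^l (D B)) = (l+1) tr (B^l (dd A))` (`tr (B^l (B A - A B)) = 0`), whose
valuation is `≥ - l m₃ - m₂ > - (l+1) m₃`. If `v (tr B^(l+1)) = -(l+1) m₃` (a nonzero number) then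
`v (D (tr B^(l+1))) = -(l+1) m₃` by `D_eq`, a contradiction. Hence `v (tr B^(l+1)) > -(l+1) m₃` for all
`l`, and `N = s^m₃ B` satisfies the hypotheses of `pow_pos_of_trace`: `N^n` has entries of valuation
`≥ η > 0`. In coordinates `s^m₃ T2 = N + s^m₃ dd`, so for `GE v b c x`:
`(s^m₃ T2)^n x = N^n x +` (terms containing a factor `s^m₃ dd`), which is `≥ c + min(η, m₃)`; as `T2`
commutes with multiplication by `s^q`, `T2^n x ≥ c - n m₃ + min(η, m₃)`; conclude by `mbdd_of_iter`
(the case `n = 0` is trivial, `V = 0`).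
-/

open scoped BigOperators

namespace Pool.Agent.CVG

variable {F : Type*} [Field F] [CharZero F] {V : Type*} [AddCommGroup V] [Module F V]
variable {v : AddValuation F (WithTop ℚ)} {sp : ℚ → F} {D dd : Derivation ℤ F F} {T1 T2 : V → V}

omit [CharZero F] in
private theorem dt_map_mul (D : Derivation ℤ F F) {n : ℕ} (M N : Matrix (Fin n) (Fin n) F) :
    (M * N).map D = M.map D * N + M * N.map D := by
  ext i j
  simp only [Matrix.map_apply, Matrix.mul_apply, Matrix.add_apply, map_sum, Derivation.leibniz,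
    smul_eq_mul, Finset.sum_add_distrib]
  rw [add_comm]
  congr 1
  exact Finset.sum_congr rfl fun k _ => mul_comm _ _

omit [CharZero F] in
private theorem dt_trace_pow (D : Derivation ℤ F F) {n : ℕ} (B : Matrix (Fin n) (Fin n) F)
    (l : ℕ) : ∀ M : Matrix (Fin n) (Fin n) F, Commute B M →
      ((B ^ (l + 1)).map D * M).trace = ((l : F) + 1) * (B ^ l * B.map D * M).trace := by
  induction l with
  | zero =>
    intro M _
    simp
  | succ l ih =>
    intro M hM
    rw [pow_succ B (l + 1), dt_map_mul, add_mul, Matrix.trace_add]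
    have h1 : Commute B (B * M) := (Commute.refl B).mul_right hM
    rw [mul_assoc ((B ^ (l + 1)).map D) B M, ih (B * M) h1]
    have h2 : (B ^ l * B.map D * (B * M)).trace = (B ^ (l + 1) * B.map D * M).trace := by
      rw [hM.eq, ← mul_assoc, Matrix.trace_mul_comm, ← mul_assoc, ← mul_assoc, pow_succ']
    rw [h2, Nat.cast_succ]
    ring

omit [CharZero F] in
private theorem dt_repr {n : ℕ} (b : Module.Basis (Fin n) F V) {D' : Derivation ℤ F F} {T : V → V}
    (h : IsConn D' T) (x : V) (i : Fin n) :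
    b.repr (T x) i = D' (b.repr x i) + ∑ k, b.repr x k * b.repr (T (b k)) i := by
  conv_lhs => rw [← b.sum_repr x]
  rw [h.sum]
  simp only [h.smul]
  rw [map_sum, Finsupp.finsetSum_apply]
  simp only [map_add, map_smul, Finsupp.add_apply, Finsupp.smul_apply, smul_eq_mul,
    Finset.sum_add_distrib]
  congr 1
  simp only [Module.Basis.repr_self, Finsupp.single_apply]
  simp

omit [CharZero F] in
private theorem dt_mul_ge {n : ℕ} {c d : ℚ} {M N : Matrix (Fin n) (Fin n) F}
    (hM : ∀ i j, Ge v c (M i j)) (hN : ∀ i j, Ge v d (N i j)) (i j : Fin n) :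
    Ge v (c + d) ((M * N) i j) := by
  rw [Matrix.mul_apply]
  exact Ge.sum _ _ fun k _ => (hM i k).mul (hN k j)

omit [CharZero F] in
private theorem dt_pow_ge {n : ℕ} {c : ℚ} {M : Matrix (Fin n) (Fin n) F}
    (hM : ∀ i j, Ge v c (M i j)) (l : ℕ) (i j : Fin n) : Ge v (l * c) ((M ^ l) i j) := by
  induction l generalizing i j with
  | zero =>
    rw [pow_zero, Nat.cast_zero, zero_mul, Matrix.one_apply]
    split_ifs
    · exact Ge.one
    · exact Ge.zero
  | succ l ih =>
    rw [pow_succ, Nat.cast_succ, add_mul, one_mul]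
    exact dt_mul_ge (fun i j => ih i j) hM i j

theorem dom_trace (H : DomHyp v sp D dd) {n : ℕ} (b : Module.Basis (Fin n) F V) (h1 : IsConn D T1)
    (h2 : IsConn dd T2) (hc : ∀ x, T1 (T2 x) = T2 (T1 x)) {m₂ m₃ : ℚ} (h23 : m₂ < m₃)
    (hm₂ : 0 ≤ m₂) (hA : ∀ k, GE v b (-m₂) (T1 (b k))) (hB : ∀ k, GE v b (-m₃) (T2 (b k))) :
    ∃ m' : ℚ, 0 ≤ m' ∧ m' < m₃ ∧ MBdd v b m' T2 := by
  have hm₃ : 0 < m₃ := lt_of_le_of_lt hm₂ h23
  rcases Nat.eq_zero_or_pos n with hn | hn
  · subst hn
    exact ⟨0, le_refl _, hm₃, 0, fun k x c _ i => i.elim0⟩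
  set A : Matrix (Fin n) (Fin n) F := Matrix.of fun i k => b.repr (T1 (b k)) i with hAdef
  set B : Matrix (Fin n) (Fin n) F := Matrix.of fun i k => b.repr (T2 (b k)) i with hBdef
  have hAge : ∀ i j, Ge v (-m₂) (A i j) := fun i j => hA j i
  have hBge : ∀ i j, Ge v (-m₃) (B i j) := fun i j => hB j i
  -- commutation
  have hcomm : B.map D + A * B = A.map dd + B * A := by
    ext i k
    have e1 := dt_repr b h1 (T2 (b k)) i
    have e2 := dt_repr b h2 (T1 (b k)) i
    rw [hc, e2] at e1
    simp only [Matrix.add_apply, Matrix.map_apply, Matrix.mul_apply, hAdef, hBdef, Matrix.of_apply]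
    rw [Finset.sum_congr rfl fun l _ => mul_comm (b.repr (T1 (b l)) i) (b.repr (T2 (b k)) l),
      ← e1]
    congr 1
    exact Finset.sum_congr rfl fun l _ => mul_comm _ _
  have hDB : B.map D = A.map dd + (B * A - A * B) := by
    rw [← add_sub_assoc, ← hcomm, add_sub_cancel_right]
  -- traces
  have htr : ∀ l : ℕ, Ge v (-(((l : ℚ) + 1) * m₃) + (m₃ - m₂)) ((B ^ (l + 1)).trace) := by
    intro l
    have e1 : D ((B ^ (l + 1)).trace) = ((l : F) + 1) * (B ^ l * A.map dd).trace := by
      have e2 := dt_trace_pow D B l 1 (Commute.one_right B)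
      rw [mul_one, mul_one, hDB, mul_add, Matrix.trace_add, mul_sub, Matrix.trace_sub] at e2
      have e3 : (B ^ l * (B * A)).trace = (B ^ l * (A * B)).trace := by
        rw [← mul_assoc, ← pow_succ, ← mul_assoc, Matrix.trace_mul_comm (B ^ l * A) B, ← mul_assoc,
          ← pow_succ']
      rw [e3, sub_self, add_zero] at e2
      rw [← e2, Matrix.trace, Matrix.trace, map_sum]
      rfl
    have e4 : Ge v (-(((l : ℚ) + 1) * m₃) + (m₃ - m₂)) (D ((B ^ (l + 1)).trace)) := by
      rw [e1]
      have e5 : Ge v ((l : ℚ) * (-m₃) + (-m₂)) ((B ^ l * A.map dd).trace) := by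
        rw [Matrix.trace]
        refine Ge.sum _ _ fun i _ => ?_
        exact dt_mul_ge (fun i j => dt_pow_ge hBge l i j)
          (fun i j => H.dd_ge _ _ (hAge i j)) i i
      have e6 : Ge v 0 ((l : F) + 1) := by
        have := Ge.natCast (v := v) (l + 1)
        rwa [Nat.cast_succ] at this
      refine (e6.mul e5).mono (le_of_eq ?_)
      ring
    by_cases h0 : v ((B ^ (l + 1)).trace) = ((0 : ℚ) : WithTop ℚ)
    · rw [Ge, h0]
      refine WithTop.coe_le_coe.2 ?_
      have : 0 ≤ (l : ℚ) * m₃ := mul_nonneg (Nat.cast_nonneg l) hm₃.le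
      linarith
    · rw [Ge, ← H.D_eq _ h0]
      exact e4
  -- the integral matrix
  set N : Matrix (Fin n) (Fin n) F := sp m₃ • B with hNdef
  have hsp : Ge v m₃ (sp m₃) := by
    rw [Ge, H.v_sp]
  have hNge : ∀ i j, Ge v 0 (N i j) := by
    intro i j
    rw [hNdef, Matrix.smul_apply, smul_eq_mul]
    have := hsp.mul (hBge i j)
    rwa [add_neg_cancel] at this
  obtain ⟨η, hη, hNn⟩ := pow_pos_of_trace v H.v_nat N hNge (by
    intro l
    refine ⟨m₃ - m₂, by linarith, ?_⟩
    rw [hNdef, smul_pow, Matrix.trace_smul, smul_eq_mul]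
    have := (hsp.pow' (l + 1)).mul (htr l)
    refine this.mono (le_of_eq ?_)
    push_cast
    ring)
  -- coordinates
  let L : V → V := fun x => ∑ i, (∑ k, N i k * b.repr x k) • b i
  have hL : ∀ x i, b.repr (L x) i = ∑ k, N i k * b.repr x k := by
    intro x i
    simp only [L]
    rw [b.repr_sum_self]
  have hLit : ∀ (k : ℕ) (x : V) (i : Fin n), b.repr (L^[k] x) i = ∑ j, (N ^ k) i j * b.repr x j := by
    intro k
    induction k with
    | zero =>
      intro x i
      simp [Matrix.one_apply]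
    | succ k ih =>
      intro x i
      rw [Function.iterate_succ_apply', hL, pow_succ']
      simp only [ih, Matrix.mul_apply, Finset.mul_sum, Finset.sum_mul]
      rw [Finset.sum_comm]
      exact Finset.sum_congr rfl fun j _ => Finset.sum_congr rfl fun l _ => by ring
  let U : V → V := fun x => sp m₃ • T2 x
  have hU : IsConn (sp m₃ • dd) U := h2.smul_right (sp m₃)
  -- `U x = L x + small`
  have hUL : ∀ (x : V) (c : ℚ), GE v b c x → GE v b (c + m₃) (U x - L x) := by
    intro x c hx i
    rw [map_sub, Finsupp.sub_apply, hL, map_smul, Finsupp.smul_apply, smul_eq_mul, dt_repr b h2]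
    have e1 : sp m₃ * (dd (b.repr x i) + ∑ k, b.repr x k * b.repr (T2 (b k)) i) -
        ∑ k, N i k * b.repr x k = sp m₃ * dd (b.repr x i) := by
      rw [mul_add, Finset.mul_sum]
      have e2 : ∑ k, sp m₃ * (b.repr x k * b.repr (T2 (b k)) i) = ∑ k, N i k * b.repr x k := by
        refine Finset.sum_congr rfl fun k _ => ?_
        rw [hNdef, Matrix.smul_apply, smul_eq_mul, hBdef, Matrix.of_apply]
        ring
      rw [e2, add_sub_cancel_right]
    rw [e1]
    exact (hsp.mul (H.dd_ge _ _ (hx i))).mono (le_of_eq (add_comm _ _))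
  have hLge : ∀ (x : V) (c : ℚ), GE v b c x → GE v b c (L x) := by
    intro x c hx i
    rw [hL]
    refine Ge.sum _ _ fun k _ => ?_
    exact ((hNge i k).mul (hx k)).mono (by rw [zero_add])
  have hUge : ∀ (x : V) (c : ℚ), GE v b c x → GE v b c (U x) := by
    intro x c hx
    have e1 : U x = L x + (U x - L x) := by abel
    rw [e1]
    exact (hLge x c hx).add ((hUL x c hx).mono (by linarith))
  have hLitge : ∀ (k : ℕ) (x : V) (c : ℚ), GE v b c x → GE v b c (L^[k] x) := by
    intro k
    induction k with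
    | zero => intro x c hx; exact hx
    | succ k ih =>
      intro x c hx
      rw [Function.iterate_succ_apply']
      exact hLge _ _ (ih x c hx)
  have hUit : ∀ (k : ℕ) (x : V) (c : ℚ), GE v b c x → GE v b (c + m₃) (U^[k] x - L^[k] x) := by
    intro k
    induction k with
    | zero =>
      intro x c _
      simp only [Function.iterate_zero, id_eq, sub_self]
      exact GE.zero
    | succ k ih =>
      intro x c hx
      rw [Function.iterate_succ_apply', Function.iterate_succ_apply']
      have e1 : U (U^[k] x) - L (L^[k] x) =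
          U (U^[k] x - L^[k] x) + (U (L^[k] x) - L (L^[k] x)) := by
        rw [hU.sub]
        abel
      rw [e1]
      exact (hUge _ _ (ih x c hx)).add (hUL _ _ (hLitge k x c hx))
  -- commutation with the section
  have hspT : ∀ (q : ℚ) (x : V), T2 (sp q • x) = sp q • T2 x := by
    intro q x
    rw [h2.smul, H.dd_sp, zero_smul, zero_add]
  have hUT : ∀ (k : ℕ) (x : V), U^[k] x = sp (k * m₃) • T2^[k] x := by
    intro k
    induction k with
    | zero =>
      intro x
      simp [H.sp_zero]
    | succ k ih =>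
      intro x
      rw [Function.iterate_succ_apply', ih, Function.iterate_succ_apply' T2]
      simp only [U]
      rw [hspT, smul_smul, ← H.sp_add]
      congr 2
      push_cast
      ring
  have hstep : ∀ (x : V) (c : ℚ), GE v b c x → GE v b (c - m₃) (T2 x) := by
    intro x c hx i
    rw [dt_repr b h2]
    refine ((H.dd_ge _ _ (hx i)).mono (by linarith)).add (Ge.sum _ _ fun k _ => ?_)
    exact ((hx k).mul (hB k i)).mono (by rw [sub_eq_add_neg])
  refine mbdd_of_iter b hm₃ hn (η := min η m₃) (lt_min hη hm₃) hstep ?_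
  intro x c hx
  have e1 : GE v b (c + min η m₃) (U^[n] x) := by
    have e2 : U^[n] x = L^[n] x + (U^[n] x - L^[n] x) := by abel
    rw [e2]
    refine GE.add ?_ ((hUit n x c hx).mono (by linarith [min_le_right η m₃]))
    intro i
    rw [hLit]
    refine Ge.sum _ _ fun j _ => ?_
    exact ((hNn i j).mul (hx j)).mono (by linarith [min_le_left η m₃])
  have e3 : T2^[n] x = sp (-(n * m₃)) • U^[n] x := by
    rw [hUT, smul_smul, ← H.sp_add, neg_add_cancel, H.sp_zero, one_smul]
  rw [e3]
  have e4 : Ge v (-(n * m₃)) (sp (-(n * m₃))) := by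
    rw [Ge, H.v_sp]
  refine (GE.smul e4 e1).mono (le_of_eq ?_)
  ring

end Pool.Agent.CVG
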