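import Pool.Agent.CVG.ChB

/-!
# CVG-NS2: slopes and coefficients of a cyclic vector equation (converse)

PLAN. Let `T^n e = ∑ a_i T^i e`, `(T^i e)_{i<n}` a basis. Suppose `MBdd v b m T`, `m ≥ 0`, and some
`v (a_i) < -m (n-i)`. Let `m' = max_i (-v (a_i)/(n-i)) > m ≥ 0` (over the `a_i ≠ 0`), `v s = m'`,
`f_i = s^i • T^i e`. Then `(s • T) f_i ∈ f_{i+1} + 𝔪`, `(s • T) f_{n-1} ∈ ∑ α_j f_j + 𝔪`,
`α_j = a_j s^(n-j)`, `v (α_j) ≥ 0` with equality for some `j`; here `𝔪` means: coordinates (in the basis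
`f`) of positive valuation (use `m' > 0` and `DerGe`; `s D(s^i) / s^i` has valuation `≥ m'`). On the
other hand `MBdd m` (in the basis `f`, `MBdd_change`) gives `(s • T)^k x → ∞`, as
`(s • T)^k x = ∑_{j ≤ k} (element of valuation ≥ k m') • T^j x` and `m' > m`. Contradiction: over the
residue field `κ` of the valuation ring `{v ≥ 0}` (or modulo the ideal `{v > 0}`) the operator `s • T`
induces the companion matrix `N` of `P = X^n - ∑ ᾱ_j X^j`; `N^k e_0 = 0` for some `k`, so `P ∣ X^k`, but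
`P` has a nonzero coefficient `ᾱ_j`, `j < n`, so `P` is not a power of `X`.
-/

open scoped BigOperators

namespace Pool.Agent.CVG

variable {F : Type*} [Field F] {V : Type*} [AddCommGroup V] [Module F V]
variable {v : AddValuation F (WithTop ℚ)} {D : Derivation ℤ F F} {T : V → V}
variable {ι : Type*} [Fintype ι]

omit [Fintype ι] in
private theorem iter_smul (hD : DerGe v D) (hT : IsConn D T) (b : Module.Basis ι F V) {m : ℚ}
    (hm : 0 ≤ m) : ∀ (l : ℕ) (g : F) (y : V) (p d : ℚ), Ge v p g →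
      (∀ i : ℕ, GE v b (d - m * i) (T^[i] y)) → GE v b (p + d - m * l) (T^[l] (g • y)) := by
  intro l
  induction l with
  | zero =>
    intro g y p d hg hy
    have h0 := hy 0
    rw [Nat.cast_zero, mul_zero, sub_zero] at h0
    have h1 := GE.smul hg h0
    rw [Nat.cast_zero, mul_zero, sub_zero]
    exact h1
  | succ l ih =>
    intro g y p d hg hy
    rw [Function.iterate_succ_apply, hT.smul, hT.iter_add]
    have h1 := ih (D g) y p d (hD p g hg) hy
    have h2 := ih g (T y) p (d - m) hg (by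
      intro i
      have h3 := hy (i + 1)
      rw [Function.iterate_succ_apply] at h3
      refine h3.mono ?_
      push_cast
      linarith)
    push_cast
    exact (h1.mono (by linarith)).add (h2.mono (by linarith))

omit [Fintype ι] in
private theorem iter_N (hD : DerGe v D) (hT : IsConn D T) (b : Module.Basis ι F V) {m m' : ℚ}
    (hm : 0 ≤ m) {s : F} (hs : Ge v m' s) {C : ℚ}
    (hC : ∀ (k : ℕ) (x : V) (c : ℚ), GE v b c x → GE v b (c - m * k - C) (T^[k] x)) {x : V}
    {c : ℚ} (hx : GE v b c x) : ∀ k l : ℕ,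
      GE v b (c + k * m' - m * ((l : ℚ) + k) - C) (T^[l] ((fun y => s • T y)^[k] x)) := by
  intro k
  induction k with
  | zero =>
    intro l
    refine (hC l x c hx).mono ?_
    push_cast
    linarith
  | succ k ih =>
    intro l
    rw [Function.iterate_succ_apply']
    have h1 := iter_smul hD hT b hm l s (T ((fun y => s • T y)^[k] x)) m'
      (c + k * m' - m * (1 + (k : ℚ)) - C) hs (by
        intro i
        have h2 := ih (i + 1)
        rw [Function.iterate_succ_apply] at h2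
        refine h2.mono ?_
        push_cast
        linarith)
    refine h1.mono ?_
    push_cast
    linarith

/-- one step on a lattice spanned by `f` -/
private theorem step_N (hD : DerGe v D) (hT : IsConn D T) (f : Module.Basis ι F V) {m' : ℚ}
    (hm' : 0 ≤ m') {s : F} (hs : Ge v m' s) (hf : ∀ i, GE v f 0 (s • T (f i))) {r : ℚ} {x : V}
    (hx : GE v f r x) : GE v f r (s • T x) := by
  have e1 : s • T x = ∑ i, ((s * D (f.repr x i)) • f i + (f.repr x i) • (s • T (f i))) := by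
    conv_lhs => rw [← f.sum_repr x]
    rw [hT.sum, Finset.smul_sum]
    apply Finset.sum_congr rfl
    intro i _
    rw [hT.smul, smul_add, smul_smul, smul_comm s]
  rw [e1]
  apply GE.sum
  intro i _
  apply GE.add
  · have h1 := GE.smul (hs.mul (hD r _ (hx i))) (GE.self (v := v) (b := f) i)
    refine h1.mono ?_
    linarith
  · have h1 := GE.smul (hx i) (hf i)
    refine h1.mono ?_
    linarith

private theorem iter_step (hD : DerGe v D) (hT : IsConn D T) (f : Module.Basis ι F V) {m' : ℚ}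
    (hm' : 0 ≤ m') {s : F} (hs : Ge v m' s) (hf : ∀ i, GE v f 0 (s • T (f i))) {r : ℚ} {x : V}
    (hx : GE v f r x) (k : ℕ) : GE v f r ((fun y => s • T y)^[k] x) := by
  induction k with
  | zero => exact hx
  | succ k ih =>
    rw [Function.iterate_succ_apply']
    exact step_N hD hT f hm' hs hf ih

private theorem comm_step (hD : DerGe v D) (hT : IsConn D T) (f : Module.Basis ι F V) {m' δ : ℚ}
    (hm' : 0 ≤ m') (hδ : δ ≤ m') {s : F} (hs : Ge v m' s) (hf : ∀ i, GE v f 0 (s • T (f i)))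
    {g : F} (hg : Ge v 0 g) {x : V} (hx : GE v f 0 x) (k : ℕ) :
    GE v f δ ((fun y => s • T y)^[k] (g • x) - g • (fun y => s • T y)^[k] x) := by
  have hN := hT.smul_right s
  induction k with
  | zero =>
    have : (fun y => s • T y)^[0] (g • x) - g • (fun y => s • T y)^[0] x = 0 := by
      simp
    rw [this]
    exact GE.zero
  | succ k ih =>
    rw [Function.iterate_succ_apply', Function.iterate_succ_apply']
    have e1 : s • T ((fun y => s • T y)^[k] (g • x)) - g • (s • T ((fun y => s • T y)^[k] x)) =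
        s • T ((fun y => s • T y)^[k] (g • x) - g • (fun y => s • T y)^[k] x) +
          (s * D g) • ((fun y => s • T y)^[k] x) := by
      rw [hT.sub, hT.smul, smul_sub, smul_add, mul_smul, smul_comm g s]
      abel
    show GE v f δ (s • T ((fun y => s • T y)^[k] (g • x)) - g • (s • T ((fun y => s • T y)^[k] x)))
    rw [e1]
    apply GE.add
    · exact step_N hD hT f hm' hs hf ih
    · have h1 := GE.smul (hs.mul (hD 0 g hg)) (iter_step hD hT f hm' hs hf hx k)
      refine h1.mono ?_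
      linarith

/-- the extremal slope -/
private theorem exists_slope {n : ℕ} {a : Fin n → F} {m : ℚ} {i₀ : Fin n}
    (hi₀ : ¬ Ge v (-(m * ((n : ℚ) - (i₀ : ℕ)))) (a i₀)) :
    ∃ m' : ℚ, m < m' ∧ (∀ i : Fin n, Ge v (-(m' * ((n : ℚ) - (i : ℕ)))) (a i)) ∧
      ∃ j₀ : Fin n, v (a j₀) = ((-(m' * ((n : ℚ) - (j₀ : ℕ))) : ℚ) : WithTop ℚ) ∧
        ∃ δ : ℚ, 0 < δ ∧ ∀ j : Fin n, j < j₀ →
          Ge v (-(m' * ((n : ℚ) - (j : ℕ))) + δ) (a j) := by
  classical
  have hni : ∀ i : Fin n, (0 : ℚ) < (n : ℚ) - (i : ℕ) := by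
    intro i
    have h1 : ((i : ℕ) : ℚ) < n := by exact_mod_cast i.2
    linarith
  have hσ : ∀ i : Fin n, ∃ σ : ℚ, m ≤ σ ∧ Ge v (-(σ * ((n : ℚ) - (i : ℕ)))) (a i) ∧
      (m < σ → v (a i) = ((-(σ * ((n : ℚ) - (i : ℕ))) : ℚ) : WithTop ℚ)) ∧
      (¬ Ge v (-(m * ((n : ℚ) - (i : ℕ)))) (a i) → m < σ) := by
    intro i
    by_cases h : Ge v (-(m * ((n : ℚ) - (i : ℕ)))) (a i)
    · exact ⟨m, le_rfl, h, fun h' => absurd h' (lt_irrefl m), fun h' => absurd h h'⟩
    · have hne : v (a i) ≠ ⊤ := by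
        intro htop
        apply h
        rw [Ge, htop]
        exact le_top
      obtain ⟨q, hq⟩ := WithTop.ne_top_iff_exists.1 hne
      have hq' : q < -(m * ((n : ℚ) - (i : ℕ))) := by
        rw [Ge, ← hq, WithTop.coe_le_coe, not_le] at h
        exact h
      have hp := hni i
      have e1 : -(-q / ((n : ℚ) - (i : ℕ)) * ((n : ℚ) - (i : ℕ))) = q := by
        field_simp
      have e2 : m < -q / ((n : ℚ) - (i : ℕ)) := by
        rw [lt_div_iff₀ hp]
        linarith
      refine ⟨-q / ((n : ℚ) - (i : ℕ)), e2.le, ?_, ?_, fun _ => e2⟩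
      · rw [e1, Ge, hq]
      · intro _
        rw [e1, hq]
  choose σ hσ1 hσ2 hσ3 hσ4 using hσ
  obtain ⟨i₁, -, hi₁⟩ := Finset.exists_max_image (Finset.univ : Finset (Fin n)) σ
    ⟨i₀, Finset.mem_univ _⟩
  have hmm : m < σ i₁ := lt_of_lt_of_le (hσ4 i₀ hi₀) (hi₁ i₀ (Finset.mem_univ _))
  have hge : ∀ i : Fin n, Ge v (-(σ i₁ * ((n : ℚ) - (i : ℕ)))) (a i) := by
    intro i
    refine (hσ2 i).mono ?_
    have h1 := mul_le_mul_of_nonneg_right (hi₁ i (Finset.mem_univ _)) (hni i).le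
    linarith
  have hex : ∃ j : ℕ, ∃ hj : j < n, v (a ⟨j, hj⟩) =
      ((-(σ i₁ * ((n : ℚ) - (j : ℕ))) : ℚ) : WithTop ℚ) := ⟨i₁, i₁.2, hσ3 i₁ hmm⟩
  obtain ⟨hj, hjv⟩ := Nat.find_spec hex
  refine ⟨σ i₁, hmm, hge, ⟨Nat.find hex, hj⟩, hjv, ?_⟩
  have hδ : ∀ j : Fin n, ∃ δ : ℚ, 0 < δ ∧ ((j : ℕ) < Nat.find hex →
      Ge v (-(σ i₁ * ((n : ℚ) - (j : ℕ))) + δ) (a j)) := by
    intro j
    by_cases hjj : (j : ℕ) < Nat.find hex
    · have hnot := Nat.find_min hex hjj
      have hnot' : v (a j) ≠ ((-(σ i₁ * ((n : ℚ) - (j : ℕ))) : ℚ) : WithTop ℚ) :=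
        fun h => hnot ⟨j.2, h⟩
      by_cases htop : v (a j) = ⊤
      · refine ⟨1, one_pos, fun _ => ?_⟩
        rw [Ge, htop]
        exact le_top
      · obtain ⟨q, hq⟩ := WithTop.ne_top_iff_exists.1 htop
        have h1 := hge j
        rw [Ge, ← hq, WithTop.coe_le_coe] at h1
        rw [← hq] at hnot'
        have h2 : -(σ i₁ * ((n : ℚ) - (j : ℕ))) ≠ q := fun h => hnot' (by rw [h])
        have h3 := lt_of_le_of_ne h1 h2
        refine ⟨q + σ i₁ * ((n : ℚ) - (j : ℕ)), by linarith, fun _ => ?_⟩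
        rw [Ge, ← hq, WithTop.coe_le_coe]
        linarith
    · exact ⟨1, one_pos, fun h => absurd h hjj⟩
  choose δf hδ1 hδ2 using hδ
  obtain ⟨j1, -, hj1⟩ := Finset.exists_min_image (Finset.univ : Finset (Fin n)) δf
    ⟨i₀, Finset.mem_univ _⟩
  refine ⟨δf j1, hδ1 j1, fun j hjlt => (hδ2 j hjlt).mono ?_⟩
  have := hj1 j (Finset.mem_univ _)
  linarith

omit [Fintype ι] in
private theorem not_pos_basis (f : Module.Basis ι F V) {δ : ℚ} (hδ : 0 < δ) (i : ι) :
    ¬ GE v f δ (f i) := by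
  classical
  intro h
  have h1 := h i
  rw [Module.Basis.repr_self, Finsupp.single_eq_same, Ge, v.map_one] at h1
  have h2 : (δ : WithTop ℚ) ≤ ((0 : ℚ) : WithTop ℚ) := h1
  rw [WithTop.coe_le_coe] at h2
  linarith

private theorem v_pow {s : F} {m' : ℚ} (hs : v s = (m' : WithTop ℚ)) (i : ℕ) :
    v (s ^ i) = ((i * m' : ℚ) : WithTop ℚ) := by
  rw [AddValuation.map_pow, hs, ← WithTop.coe_nsmul, nsmul_eq_mul]

theorem ns_ge (hv : ∀ q : ℚ, ∃ x : F, v x = (q : WithTop ℚ)) (hD : DerGe v D) (hT : IsConn D T)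
    (b : Module.Basis ι F V) {n : ℕ} {e : V} {a : Fin n → F} (hc : IsCyc T n e a) {m : ℚ}
    (hm : 0 ≤ m) (h : MBdd v b m T) : ∀ i : Fin n, Ge v (-(m * ((n : ℚ) - (i : ℕ)))) (a i) := by
  classical
  by_contra hcon
  push Not at hcon
  obtain ⟨i₀, hi₀⟩ := hcon
  obtain ⟨m', hmm, hge, j₀, hj₀, δ', hδ', hδj⟩ := exists_slope hi₀
  have hm' : 0 < m' := lt_of_le_of_lt hm hmm
  set δ := min m' δ' with hδdef
  have hδ0 : 0 < δ := lt_min hm' hδ'
  have hδm : δ ≤ m' := min_le_left _ _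
  have hδδ : δ ≤ δ' := min_le_right _ _
  obtain ⟨s, hs⟩ := hv m'
  have hs0 : s ≠ 0 := by
    rintro rfl
    rw [v.map_zero] at hs
    exact WithTop.top_ne_coe hs
  have hsGe : Ge v m' s := by
    rw [Ge, hs]
  -- the scaled basis
  set E : Module.Basis (Fin n) F V := Module.Basis.mk hc.li hc.top.ge with hE
  have hEi : ∀ i : Fin n, E i = T^[(i : ℕ)] e := fun i => Module.Basis.mk_apply _ _ i
  set f : Module.Basis (Fin n) F V := E.unitsSMul (fun i => Units.mk0 (s ^ (i : ℕ))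
    (pow_ne_zero _ hs0)) with hf
  have hfi : ∀ i : Fin n, f i = s ^ (i : ℕ) • T^[(i : ℕ)] e := by
    intro i
    rw [hf, Module.Basis.unitsSMul_apply, hEi]
    rfl
  -- the coefficients
  set α : Fin n → F := fun j => a j * s ^ (n - (j : ℕ)) with hα
  have hvs : ∀ i : ℕ, v (s ^ i) = ((i * m' : ℚ) : WithTop ℚ) := v_pow hs
  have hcast : ∀ j : Fin n, ((n - (j : ℕ) : ℕ) : ℚ) = (n : ℚ) - (j : ℕ) := by
    intro j
    rw [Nat.cast_sub j.2.le]
  have hα0 : ∀ j, Ge v 0 (α j) := by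
    intro j
    have h1 := (hge j).mul (show Ge v (((n - (j : ℕ) : ℕ) : ℚ) * m') (s ^ (n - (j : ℕ))) by
      rw [Ge, hvs])
    refine h1.mono ?_
    rw [hcast]
    linarith
  have hαδ : ∀ j, j < j₀ → Ge v δ (α j) := by
    intro j hj
    have h1 := (hδj j hj).mul (show Ge v (((n - (j : ℕ) : ℕ) : ℚ) * m') (s ^ (n - (j : ℕ))) by
      rw [Ge, hvs])
    refine h1.mono ?_
    rw [hcast]
    linarith
  have hαj : v (α j₀) = ((0 : ℚ) : WithTop ℚ) := by
    rw [hα]
    show v (a j₀ * s ^ (n - (j₀ : ℕ))) = _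
    rw [v.map_mul, hj₀, hvs, ← WithTop.coe_add, hcast]
    congr 1
    ring
  -- powers
  have hhn : s ^ n • T^[n] e = ∑ j, α j • f j := by
    rw [hc.eq, Finset.smul_sum]
    apply Finset.sum_congr rfl
    intro j _
    rw [hfi, smul_smul, smul_smul, hα]
    congr 1
    show s ^ n * a j = a j * s ^ (n - (j : ℕ)) * s ^ (j : ℕ)
    rw [mul_assoc, ← pow_add, Nat.sub_add_cancel j.2.le, mul_comm]
  have hh0 : ∀ i : ℕ, i ≤ n → GE v f 0 (s ^ i • T^[i] e) := by
    intro i hi
    rcases hi.lt_or_eq with hi | hi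
    · have h1 := GE.self (v := v) (b := f) ⟨i, hi⟩
      rw [hfi] at h1
      exact h1
    · rw [hi, hhn]
      apply GE.sum
      intro j _
      exact GE.smul0 (hα0 j) (GE.self j)
  have herr : ∀ i : ℕ, i ≤ n → GE v f m' ((s * D (s ^ i)) • T^[i] e) := by
    intro i hi
    have hne : s ^ i ≠ 0 := pow_ne_zero _ hs0
    have e1 : (s * D (s ^ i)) • T^[i] e =
        (s * D (s ^ i) * (s ^ i)⁻¹) • (s ^ i • T^[i] e) := by
      rw [smul_smul, inv_mul_cancel_right₀ hne]
    rw [e1]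
    have h1 : Ge v (-(i * m')) ((s ^ i)⁻¹) := by
      rw [Ge, AddValuation.map_inv, hvs]
      exact le_of_eq rfl
    have h2 : Ge v (i * m') (D (s ^ i)) := hD _ _ (by rw [Ge, hvs])
    have h3 := GE.smul ((hsGe.mul h2).mul h1) (hh0 i hi)
    refine h3.mono ?_
    linarith
  have hNh : ∀ i : ℕ, s • T (s ^ i • T^[i] e) =
      (s * D (s ^ i)) • T^[i] e + s ^ (i + 1) • T^[i + 1] e := by
    intro i
    rw [hT.smul, smul_add, smul_smul, smul_smul, Function.iterate_succ_apply', pow_succ']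
  have hNf : ∀ i : Fin n, GE v f 0 (s • T (f i)) := by
    intro i
    rw [hfi, hNh]
    exact ((herr i i.2.le).mono hm'.le).add (hh0 (i + 1) i.2)
  -- iterates of `e`
  set N : V → V := fun y => s • T y with hNdef
  have hN : IsConn (s • D) N := hT.smul_right s
  have hNe : ∀ i : ℕ, i ≤ n → GE v f δ (N^[i] e - s ^ i • T^[i] e) := by
    intro i
    induction i with
    | zero =>
      intro _
      have : N^[0] e - s ^ 0 • T^[0] e = 0 := by simp
      rw [this]
      exact GE.zero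
    | succ i ih =>
      intro hi
      have h1 := ih (by omega)
      have e1 : N^[i + 1] e - s ^ (i + 1) • T^[i + 1] e =
          N (N^[i] e - s ^ i • T^[i] e) + (s * D (s ^ i)) • T^[i] e := by
        have h2 : N (s ^ i • T^[i] e) =
          (s * D (s ^ i)) • T^[i] e + s ^ (i + 1) • T^[i + 1] e := hNh i
        rw [hN.sub, h2, Function.iterate_succ_apply' N i e]
        abel
      rw [e1]
      exact (step_N hD hT f hm'.le hsGe hNf h1).add ((herr i (by omega)).mono hδm)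
  have hn0 : 0 < n := lt_of_le_of_lt (Nat.zero_le _) i₀.2
  have he0 : GE v f 0 e := by
    have h1 := hh0 0 (Nat.zero_le _)
    simpa using h1
  -- the iterates tend to infinity
  have hex : ∃ k : ℕ, GE v f δ (N^[k] e) := by
    obtain ⟨C, hC⟩ := MBdd_change b f h
    obtain ⟨k, hk⟩ := exists_nat_ge ((δ + C) / (m' - m))
    have hpos : 0 < m' - m := by linarith
    have hk' : δ + C ≤ k * (m' - m) := by
      rw [div_le_iff₀ hpos] at hk
      exact hk
    have h1 := iter_N hD hT f hm hsGe hC he0 k 0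
    refine ⟨k, ?_⟩
    refine GE.mono (c := 0 + k * m' - m * (((0 : ℕ) : ℚ) + k) - C) h1 ?_
    push_cast
    linarith
  have hKspec := Nat.find_spec hex
  set K := Nat.find hex with hK
  have hKn : n ≤ K := by
    by_contra hlt
    rw [not_le] at hlt
    have h1 := hNe K hlt.le
    have h2 := hKspec.sub h1
    rw [sub_sub_cancel] at h2
    apply not_pos_basis (v := v) f hδ0 ⟨K, hlt⟩
    rw [hfi]
    exact h2
  have hKge : ∀ t : ℕ, K ≤ t → GE v f δ (N^[t] e) := by
    intro t ht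
    have e1 : t = (t - K) + K := by omega
    rw [e1, Function.iterate_add_apply]
    exact iter_step hD hT f hm'.le hsGe hNf hKspec (t - K)
  have hKmin : ¬ GE v f δ (N^[K - 1] e) := Nat.find_min hex (by omega)
  -- the relation
  have hrel : GE v f δ (N^[n] e - ∑ j : Fin n, α j • N^[(j : ℕ)] e) := by
    have h1 := hNe n le_rfl
    rw [hhn] at h1
    have h2 : GE v f δ (∑ j : Fin n, α j • (N^[(j : ℕ)] e - f j)) := by
      apply GE.sum
      intro j _
      apply GE.smul0 (hα0 j)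
      have h3 := hNe j j.2.le
      rw [← hfi] at h3
      exact h3
    have h3 := h1.sub h2
    have e1 : N^[n] e - ∑ j : Fin n, α j • N^[(j : ℕ)] e =
        N^[n] e - ∑ j, α j • f j - ∑ j : Fin n, α j • (N^[(j : ℕ)] e - f j) := by
      simp only [smul_sub, Finset.sum_sub_distrib]
      abel
    rw [e1]
    exact h3
  have hj₀n : (j₀ : ℕ) < n := j₀.2
  set r := K - 1 - (j₀ : ℕ) with hr
  have hrel2 := iter_step hD hT f hm'.le hsGe hNf hrel r
  have hrel3 : GE v f δ (N^[r] (N^[n] e) - ∑ j : Fin n, N^[r] (α j • N^[(j : ℕ)] e)) := by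
    have e1 : N^[r] (N^[n] e - ∑ j : Fin n, α j • N^[(j : ℕ)] e) =
        N^[r] (N^[n] e) - ∑ j : Fin n, N^[r] (α j • N^[(j : ℕ)] e) := by
      rw [sub_eq_add_neg, hN.iter_add, hN.iter_neg, hN.iter_sum, ← sub_eq_add_neg]
    rw [← e1]
    exact hrel2
  have hrel4 : GE v f δ (∑ j : Fin n, (N^[r] (α j • N^[(j : ℕ)] e) -
      α j • N^[r] (N^[(j : ℕ)] e))) := by
    apply GE.sum
    intro j _
    exact comm_step hD hT f hm'.le hδm hsGe hNf (hα0 j)
      (iter_step hD hT f hm'.le hsGe hNf he0 j) r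
  have hrel5 : GE v f δ (N^[r] (N^[n] e)) := by
    rw [← Function.iterate_add_apply]
    exact hKge _ (by omega)
  have hrel6 : GE v f δ (∑ j : Fin n, α j • N^[r] (N^[(j : ℕ)] e)) := by
    have h1 := (hrel5.sub hrel3).sub hrel4
    have e1 : N^[r] (N^[n] e) - (N^[r] (N^[n] e) - ∑ j : Fin n, N^[r] (α j • N^[(j : ℕ)] e)) -
        ∑ j : Fin n, (N^[r] (α j • N^[(j : ℕ)] e) - α j • N^[r] (N^[(j : ℕ)] e)) =
        ∑ j : Fin n, α j • N^[r] (N^[(j : ℕ)] e) := by
      rw [Finset.sum_sub_distrib]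
      abel
    rw [e1] at h1
    exact h1
  have hrel7 : GE v f δ (∑ j ∈ Finset.univ.erase j₀, α j • N^[r] (N^[(j : ℕ)] e)) := by
    apply GE.sum
    intro j hj
    have hjne : j ≠ j₀ := (Finset.mem_erase.1 hj).1
    rcases lt_or_gt_of_ne hjne with hlt | hgt
    · have h1 := GE.smul (hαδ j hlt) (iter_step hD hT f hm'.le hsGe hNf
        (iter_step hD hT f hm'.le hsGe hNf he0 j) r)
      rw [add_zero] at h1
      exact h1
    · apply GE.smul0 (hα0 j)
      rw [← Function.iterate_add_apply]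
      apply hKge
      have h2 : (j₀ : ℕ) < (j : ℕ) := hgt
      omega
  have hrel8 : GE v f δ (α j₀ • N^[K - 1] e) := by
    rw [← Finset.add_sum_erase _ _ (Finset.mem_univ j₀)] at hrel6
    have h1 := hrel6.sub hrel7
    rw [add_sub_cancel_right, ← Function.iterate_add_apply] at h1
    have e1 : r + (j₀ : ℕ) = K - 1 := by omega
    rw [e1] at h1
    exact h1
  apply hKmin
  intro i
  have h1 := hrel8 i
  rw [map_smul, Finsupp.smul_apply, smul_eq_mul, Ge, v.map_mul, hαj] at h1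
  have h2 : ((0 : ℚ) : WithTop ℚ) = 0 := rfl
  rw [h2, zero_add] at h1
  exact h1

end Pool.Agent.CVG
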