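import Pool.Agent.CVG.Dom2
import Pool.Agent.CVG.Dom3
import Pool.Agent.CVG.CV
import Pool.Agent.CVG.NS2

/-!
# CVG-Dom: the domination lemma

PLAN. Let `n = finrank F V`, `e, a` a cyclic vector of `T2` (`exists_cyc`, `H.dd_ne`). If
`v (a_i) ≥ -m (n-i)` for all `i`, use `ns_le`. Otherwise let `m₃ = max (-v (a_i)/(n-i))` over the
`a_i ≠ 0`; then `m₃ > m`, `v (a_i) ≥ -m₃ (n-i)` for all `i`, with equality for some `i₀`. Apply
`dom_lattice` with `m₂ = m`, then `dom_trace`: there is `0 ≤ m' < m₃` with `MBdd v b m' T2`; `ns_ge`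
gives `v (a_{i₀}) ≥ -m' (n-i₀) > -m₃ (n-i₀)`, a contradiction.
-/

open scoped BigOperators

namespace Pool.Agent.CVG

variable {F : Type*} [Field F] [CharZero F] {V : Type*} [AddCommGroup V] [Module F V]
variable {v : AddValuation F (WithTop ℚ)} {sp : ℚ → F} {D dd : Derivation ℤ F F} {T1 T2 : V → V}
variable {ι : Type*} [Fintype ι]

/-- If an Euler type connection `T1` has slope `m₁`, every commuting `dd`-connection has slope
at most `m`, for every `m > m₁`. -/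
theorem dom (H : DomHyp v sp D dd) (b : Module.Basis ι F V)
    (h1 : IsConn D T1) (h2 : IsConn dd T2) (hc : ∀ x, T1 (T2 x) = T2 (T1 x)) {m₁ m : ℚ}
    (hm₁ : 0 ≤ m₁) (hlt : m₁ < m) (hm : MBdd v b m₁ T1) : MBdd v b m T2 := by
  classical
  have hfin : FiniteDimensional F V := Module.Finite.of_basis b
  have hv : ∀ q : ℚ, ∃ x : F, v x = (q : WithTop ℚ) := fun q => ⟨sp q, H.v_sp q⟩
  have hm0 : 0 ≤ m := hm₁.trans hlt.le
  obtain ⟨e, a, hcyc⟩ := exists_cyc H.dd_ne h2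
  by_cases hall : ∀ i : Fin (Module.finrank F V),
      Ge v (-(m * ((Module.finrank F V : ℚ) - (i : ℕ)))) (a i)
  · exact ns_le hv H.dd_ge h2 b hcyc hm0 hall
  exfalso
  push Not at hall
  obtain ⟨i₁, hi₁⟩ := hall
  have hval : ∀ x : F, x ≠ 0 → v x = (((v x).untopD 0 : ℚ) : WithTop ℚ) := by
    intro x hx
    have h1 : v x ≠ ⊤ := fun h => hx ((AddValuation.top_iff v).1 h)
    obtain ⟨q, hq⟩ := WithTop.ne_top_iff_exists.1 h1
    rw [← hq]
    rfl
  have hpos : ∀ i : Fin (Module.finrank F V), (0 : ℚ) < (Module.finrank F V : ℚ) - (i : ℕ) := by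
    intro i
    have : ((i : ℕ) : ℚ) < (Module.finrank F V : ℚ) := by exact_mod_cast i.2
    linarith
  have hai₁ : a i₁ ≠ 0 := by
    intro h
    apply hi₁
    rw [h]
    exact Ge.zero
  obtain ⟨i₀, hi₀, hmax⟩ := Finset.exists_max_image
    (Finset.univ.filter fun i : Fin (Module.finrank F V) => a i ≠ 0)
    (fun i => -((v (a i)).untopD 0) / ((Module.finrank F V : ℚ) - (i : ℕ)))
    ⟨i₁, Finset.mem_filter.2 ⟨Finset.mem_univ _, hai₁⟩⟩
  have hai₀ : a i₀ ≠ 0 := (Finset.mem_filter.1 hi₀).2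
  set m₃ : ℚ := -((v (a i₀)).untopD 0) / ((Module.finrank F V : ℚ) - (i₀ : ℕ)) with hm₃
  have ha : ∀ i : Fin (Module.finrank F V),
      Ge v (-(m₃ * ((Module.finrank F V : ℚ) - (i : ℕ)))) (a i) := by
    intro i
    by_cases h0 : a i = 0
    · rw [h0]; exact Ge.zero
    · have h1 := hmax i (Finset.mem_filter.2 ⟨Finset.mem_univ _, h0⟩)
      rw [Ge, hval _ h0, WithTop.coe_le_coe]
      have h2 := (div_le_iff₀ (hpos i)).1 h1
      linarith
  have hlt₃ : m < m₃ := by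
    have h1 := hmax i₁ (Finset.mem_filter.2 ⟨Finset.mem_univ _, hai₁⟩)
    have h2 : (v (a i₁)).untopD 0 < -(m * ((Module.finrank F V : ℚ) - (i₁ : ℕ))) := by
      by_contra hcon
      apply hi₁
      rw [Ge, hval _ hai₁, WithTop.coe_le_coe]
      exact not_lt.1 hcon
    refine lt_of_lt_of_le ?_ h1
    rw [lt_div_iff₀ (hpos i₁)]
    linarith
  obtain ⟨b', hA, hB⟩ := dom_lattice H b h1 h2 hc hm₁ hlt (hm0.trans hlt₃.le) hm hcyc ha
  obtain ⟨m', hm'0, hm'lt, hm'⟩ := dom_trace H b' h1 h2 hc hlt₃ hm0 hA hB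
  have h3 := ns_ge hv H.dd_ge h2 b' hcyc hm'0 hm' i₀
  rw [Ge, hval _ hai₀, WithTop.coe_le_coe] at h3
  have h4 : m₃ * ((Module.finrank F V : ℚ) - (i₀ : ℕ)) = -((v (a i₀)).untopD 0) := by
    rw [hm₃, div_mul_cancel₀ _ (hpos i₀).ne']
  have h5 := mul_lt_mul_of_pos_right hm'lt (hpos i₀)
  linarith

end Pool.Agent.CVG
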