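import Pool.Agent.CVG.ChB

/-!
# CVG-JB: joint boundedness of commuting connections

PLAN. `(T1 + g T2)^k x = ∑_{i+j ≤ k} c_{ij} • T1^i T2^j x` with `v (c_{ij}) ≥ 0` (induction on `k`; applying
`T1 + g T2` to `c • T1^i T2^j x` gives `D1 c • T1^i T2^j x + c • T1^(i+1) T2^j x + (g * D2 c) • T1^i T2^j x
+ (g * c) • T1^i T2^(j+1) x`, as `T2` commutes with `T1^i`). Then `T1^i T2^j x` is at least
`c - m j - C2 - m i - C1 ≥ c - m k - (C1 + C2)`.
A convenient way: the set of maps `x ↦ ∑ c_{ij} • T1^i T2^j x` (`i + j ≤ k`) is closed; or prove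
directly by induction the predicate `(T1+gT2)^[k] x` is a finite sum of `c • T1^[i] (T2^[j] x)` with
`i + j ≤ k`, `Ge v 0 c`.
-/

open scoped BigOperators

namespace Pool.Agent.CVG

variable {F : Type*} [Field F] {V : Type*} [AddCommGroup V] [Module F V]
variable {v : AddValuation F (WithTop ℚ)} {D1 D2 D : Derivation ℤ F F} {T1 T2 T : V → V}
variable {ι : Type*} [Fintype ι]

/-- the additive monoid generated by the terms `c • T1^i T2^j x`, `i + j ≤ k`, `v c ≥ 0` -/
private def jbS (v : AddValuation F (WithTop ℚ)) (T1 T2 : V → V) (x : V) (k : ℕ) :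
    AddSubmonoid V :=
  AddSubmonoid.closure {y | ∃ (c : F) (i j : ℕ), Ge v 0 c ∧ i + j ≤ k ∧
    y = c • T1^[i] (T2^[j] x)}

private theorem jbS_comm {T1 T2 : V → V} (hc : ∀ x, T1 (T2 x) = T2 (T1 x)) (i : ℕ) (z : V) :
    T2 (T1^[i] z) = T1^[i] (T2 z) := by
  induction i generalizing z with
  | zero => rfl
  | succ i ih => rw [Function.iterate_succ_apply, Function.iterate_succ_apply, ih, hc]

private theorem jbS_step {T1 T2 : V → V} (hD1 : DerGe v D1) (hD2 : DerGe v D2)
    (h1 : IsConn D1 T1) (h2 : IsConn D2 T2) (hc : ∀ x, T1 (T2 x) = T2 (T1 x)) (g : F)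
    (hg : Ge v 0 g) (x y : V) (k : ℕ) (hy : y ∈ jbS v T1 T2 x k) :
    T1 y + g • T2 y ∈ jbS v T1 T2 x (k + 1) := by
  refine AddSubmonoid.closure_induction (motive := fun y _ => T1 y + g • T2 y ∈
    jbS v T1 T2 x (k + 1)) ?_ ?_ ?_ hy
  · rintro y ⟨c, i, j, hcc, hij, rfl⟩
    have e1 : T1 (c • T1^[i] (T2^[j] x)) =
        D1 c • T1^[i] (T2^[j] x) + c • T1^[i + 1] (T2^[j] x) := by
      rw [h1.smul, Function.iterate_succ_apply']
    have e2 : T2 (c • T1^[i] (T2^[j] x)) =
        D2 c • T1^[i] (T2^[j] x) + c • T1^[i] (T2^[j + 1] x) := by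
      rw [h2.smul, jbS_comm hc, Function.iterate_succ_apply' T2]
    have m1 : D1 c • T1^[i] (T2^[j] x) ∈ jbS v T1 T2 x (k + 1) :=
      AddSubmonoid.subset_closure ⟨D1 c, i, j, hD1 0 c hcc, by omega, rfl⟩
    have m2 : c • T1^[i + 1] (T2^[j] x) ∈ jbS v T1 T2 x (k + 1) :=
      AddSubmonoid.subset_closure ⟨c, i + 1, j, hcc, by omega, rfl⟩
    have m3 : g • (D2 c • T1^[i] (T2^[j] x)) ∈ jbS v T1 T2 x (k + 1) := by
      refine AddSubmonoid.subset_closure ⟨g * D2 c, i, j, ?_, by omega, by rw [mul_smul]⟩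
      simpa using hg.mul (hD2 0 c hcc)
    have m4 : g • (c • T1^[i] (T2^[j + 1] x)) ∈ jbS v T1 T2 x (k + 1) := by
      refine AddSubmonoid.subset_closure ⟨g * c, i, j + 1, ?_, by omega, by rw [mul_smul]⟩
      simpa using hg.mul hcc
    rw [e1, e2, smul_add]
    exact add_mem (add_mem m1 m2) (add_mem m3 m4)
  · rw [h1.zero, h2.zero, smul_zero, add_zero]
    exact zero_mem _
  · intro y z _ _ hy hz
    rw [h1.add, h2.add, smul_add]
    have e : T1 y + T1 z + (g • T2 y + g • T2 z) = (T1 y + g • T2 y) + (T1 z + g • T2 z) := by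
      abel
    rw [e]
    exact add_mem hy hz

private theorem jbS_iter {T1 T2 : V → V} (hD1 : DerGe v D1) (hD2 : DerGe v D2)
    (h1 : IsConn D1 T1) (h2 : IsConn D2 T2) (hc : ∀ x, T1 (T2 x) = T2 (T1 x)) (g : F)
    (hg : Ge v 0 g) (x : V) (k : ℕ) :
    (fun x => T1 x + g • T2 x)^[k] x ∈ jbS v T1 T2 x k := by
  induction k with
  | zero =>
    refine AddSubmonoid.subset_closure ⟨1, 0, 0, Ge.one, le_rfl, ?_⟩
    rw [one_smul]; rfl
  | succ k ih =>
    rw [Function.iterate_succ_apply']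
    exact jbS_step hD1 hD2 h1 h2 hc g hg x _ k ih

theorem jb (b : Module.Basis ι F V) (hD1 : DerGe v D1) (hD2 : DerGe v D2) (h1 : IsConn D1 T1)
    (h2 : IsConn D2 T2) (hc : ∀ x, T1 (T2 x) = T2 (T1 x)) {m : ℚ} (hm : 0 ≤ m)
    (m1 : MBdd v b m T1) (m2 : MBdd v b m T2) (g : F) (hg : Ge v 0 g) :
    MBdd v b m (fun x => T1 x + g • T2 x) := by
  obtain ⟨C1, hC1⟩ := m1
  obtain ⟨C2, hC2⟩ := m2
  refine ⟨C1 + C2, fun k x c hx => ?_⟩
  have hmem := jbS_iter hD1 hD2 h1 h2 hc g hg x k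
  refine AddSubmonoid.closure_induction
    (motive := fun y _ => GE v b (c - m * k - (C1 + C2)) y) ?_ ?_ ?_ hmem
  · rintro y ⟨a, i, j, ha, hij, rfl⟩
    have e := hC1 i _ _ (hC2 j x c hx)
    refine GE.mono (GE.smul0 ha e) ?_
    have h3 : ((i : ℚ) + j) ≤ k := by exact_mod_cast hij
    have h4 : m * ((i : ℚ) + j) ≤ m * k := mul_le_mul_of_nonneg_left h3 hm
    linarith
  · exact GE.zero
  · intro y z _ _ hy hz
    exact hy.add hz

theorem jb_smul (b : Module.Basis ι F V) (hD : DerGe v D) (h : IsConn D T) {m : ℚ} (hm : 0 ≤ m)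
    (hb : MBdd v b m T) (g : F) (hg : Ge v 0 g) : MBdd v b m (fun x => g • T x) := by
  have h0 : IsConn (0 : Derivation ℤ F F) (fun _ : V => (0 : V)) :=
    { add := fun x y => by rw [add_zero]
      smul := fun f x => by rw [Derivation.zero_apply, zero_smul, smul_zero, add_zero] }
  have hD0 : DerGe v (0 : Derivation ℤ F F) := fun c f _ => by
    rw [Derivation.zero_apply]; exact Ge.zero
  have hb0 : MBdd v b m (fun _ : V => (0 : V)) := by
    refine ⟨0, fun k x c hx => ?_⟩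
    rcases k with _ | k
    · rw [Function.iterate_zero, id_eq]
      refine hx.mono ?_
      simp
    · rw [Function.iterate_succ_apply']
      exact GE.zero
  have h3 := jb b hD0 hD h0 h (fun x => by rw [h.zero]) hm hb0 hb g hg
  simpa only [zero_add] using h3

/-- adding a constant -/
theorem jb_const (b : Module.Basis ι F V) (hD : DerGe v D) (h : IsConn D T) {m : ℚ} (hm : 0 ≤ m)
    (hb : MBdd v b m T) (g : F) (hg : Ge v 0 g) : MBdd v b m (fun x => T x + g • x) := by
  have h0 : IsConn (0 : Derivation ℤ F F) (fun x : V => x) :=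
    { add := fun x y => rfl
      smul := fun f x => by rw [Derivation.zero_apply, zero_smul, zero_add] }
  have hD0 : DerGe v (0 : Derivation ℤ F F) := fun c f _ => by
    rw [Derivation.zero_apply]; exact Ge.zero
  have hb0 : MBdd v b m (fun x : V => x) := by
    refine ⟨0, fun k x c hx => ?_⟩
    have e : (fun x : V => x)^[k] x = x := by
      induction k with
      | zero => rfl
      | succ k ih => rw [Function.iterate_succ_apply]; exact ih
    rw [e]
    refine hx.mono ?_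
    have : 0 ≤ m * k := mul_nonneg hm (Nat.cast_nonneg k)
    linarith
  exact jb b hD hD0 h h0 (fun x => rfl) hm hb hb0 g hg

end Pool.Agent.CVG
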