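import Pool.Agent.CVG.DatC
import Pool.Agent.CVG.Dom
import Pool.Agent.CVG.JB
import Pool.Agent.CVG.ALeaf

/-!
# CVG-ADom: consequences of the domination lemma

PLAN. Let `g = g0 (u i) q`, `v = gv (u i) q`. `dom` with `domHyp_gv (u i) q`, `T1 = T g`, `T2 x = CF (sp q) • Td x`
(`isConn_T`, `isConn_Td.smul_right`, `T_comm`) gives `MBdd v m T2` for every `m > m₁`. Then
`Tth i x = y • T2 x`, `y = (lam - u_i)/s^q`, `v y = 0`: `jb_smul` (`DerGe` of `CF (sp q) • dlam`: `derGe_dlam`). And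
`TD i x = T g x + (-q) • Tth i x` (`T` is linear in `g`): `jb` with `T1 = T g`, `T2 = Tth i`; they commute:
`Tth i` commutes with `TD i` (`TD_Tth`), with itself, and `T g = TD i + q • Tth i`, `q` a rational constant
(killed by derivations).
-/

open scoped BigOperators

namespace Pool.Agent.CVG

private theorem ad_sp_ne (q : ℚ) : CF (sp q) ≠ 0 := by
  intro h
  have h1 : vK (sp q) = ⊤ := by
    have h2 : sp q = 0 := CF_injective (by rw [h, map_zero])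
    rw [h2, vK.map_zero]
  rw [vK_sp] at h1
  exact WithTop.coe_ne_top h1

private theorem ad_y (a : KK) (q : ℚ) : Ge (gv a q) 0 ((lam - CF a) / CF (sp q)) := by
  have h1 : (lam - CF a) / CF (sp q) * CF (sp q) = lam - CF a := div_mul_cancel₀ _ (ad_sp_ne q)
  have h2 := congrArg (gv a q) h1
  rw [(gv a q).map_mul, gv_CF, vK_sp, gv_lam_sub, sub_self, vK.map_zero, min_eq_left le_top] at h2
  have h3 : ((0 : ℚ) : WithTop ℚ) + (q : WithTop ℚ) ≤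
      gv a q ((lam - CF a) / CF (sp q)) + (q : WithTop ℚ) := by
    rw [h2, ← WithTop.coe_add, zero_add]
  exact (WithTop.add_le_add_iff_right WithTop.coe_ne_top).1 h3

private theorem ad_dlam_rat (r : ℚ) : dlam (r : FK) = 0 := by
  rw [← CF_ratCast, dlam_CF]

namespace Dat

variable {n : ℕ} (Δ : Dat n)

private theorem ad_Tth (i : Fin n) (q : ℚ) (x : Fin n → FK) :
    Δ.Tth i x = ((lam - CF (Δ.u i)) / CF (sp q)) • (CF (sp q) • Δ.Td x) := by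
  rw [smul_smul, div_mul_cancel₀ _ (ad_sp_ne q)]
  rfl

private theorem ad_T (i : Fin n) (q : ℚ) (x : Fin n → FK) :
    Δ.T (g0 (Δ.u i) q) x = Δ.TD i x + (q : FK) • Δ.Tth i x := by
  show Δ.T0 x + g0 (Δ.u i) q • Δ.Td x =
    (Δ.T0 x + CF (dK (Δ.u i)) • Δ.Td x) + (q : FK) • ((lam - CF (Δ.u i)) • Δ.Td x)
  rw [g0, smul_smul, add_assoc, ← add_smul]

private theorem ad_TD (i : Fin n) (q : ℚ) (x : Fin n → FK) :
    Δ.TD i x = Δ.T (g0 (Δ.u i) q) x + (-(q : FK)) • Δ.Tth i x := by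
  rw [Δ.ad_T i q x, neg_smul, add_neg_cancel_right]

private theorem ad_comm (i : Fin n) (q : ℚ) (x : Fin n → FK) :
    Δ.T (g0 (Δ.u i) q) (Δ.Tth i x) = Δ.Tth i (Δ.T (g0 (Δ.u i) q) x) := by
  rw [Δ.ad_T i q x, Δ.ad_T i q (Δ.Tth i x), Δ.TD_Tth, (Δ.isConn_Tth i).add,
    (Δ.isConn_Tth i).smul, Derivation.smul_apply, ad_dlam_rat, smul_zero, zero_smul, zero_add]

theorem dom_TD (i : Fin n) (q : ℚ) {m₁ m : ℚ} (hm₁ : 0 ≤ m₁) (hlt : m₁ < m)
    (h : MBdd (gv (Δ.u i) q) (Pi.basisFun FK (Fin n)) m₁ (Δ.T (g0 (Δ.u i) q))) :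
    MBdd (gv (Δ.u i) q) (Pi.basisFun FK (Fin n)) m (Δ.TD i) ∧
      MBdd (gv (Δ.u i) q) (Pi.basisFun FK (Fin n)) m (Δ.Tth i) := by
  have hm : 0 ≤ m := hm₁.trans hlt.le
  have H := domHyp_gv (Δ.u i) q
  have hconn : IsConn (CF (sp q) • dlam) (fun x => CF (sp q) • Δ.Td x) :=
    Δ.isConn_Td.smul_right (CF (sp q))
  have h2 : MBdd (gv (Δ.u i) q) (Pi.basisFun FK (Fin n)) m (fun x => CF (sp q) • Δ.Td x) :=
    dom H (Pi.basisFun FK (Fin n)) (Δ.isConn_T (g0 (Δ.u i) q)) hconn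
      (fun x => Δ.T_comm (Δ.u i) q x) hm₁ hlt h
  have h3 : MBdd (gv (Δ.u i) q) (Pi.basisFun FK (Fin n)) m (Δ.Tth i) := by
    have h4 := jb_smul (Pi.basisFun FK (Fin n)) H.dd_ge hconn hm h2 _ (ad_y (Δ.u i) q)
    have e : Δ.Tth i = fun x => ((lam - CF (Δ.u i)) / CF (sp q)) • (CF (sp q) • Δ.Td x) := by
      funext x
      exact Δ.ad_Tth i q x
    rw [e]
    exact h4
  refine ⟨?_, h3⟩
  have h1 : MBdd (gv (Δ.u i) q) (Pi.basisFun FK (Fin n)) m (Δ.T (g0 (Δ.u i) q)) := h.mono hlt.le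
  have h5 := jb (Pi.basisFun FK (Fin n)) H.D_ge (Δ.derGe_Tth i q) (Δ.isConn_T (g0 (Δ.u i) q))
    (Δ.isConn_Tth i) (Δ.ad_comm i q) hm h1 h3 (-(q : FK)) (Ge_gv_ratCast (Δ.u i) q q).neg
  have e : Δ.TD i = fun x => Δ.T (g0 (Δ.u i) q) x + (-(q : FK)) • Δ.Tth i x := by
    funext x
    exact Δ.ad_TD i q x
  rw [e]
  exact h5

end Dat

end Pool.Agent.CVG
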