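import Pool.Agent.CVG.DatC
import Pool.Agent.CVG.JB
import Pool.Agent.CVG.ALeaf

/-!
# CVG-AJB: connections in nearby directions

PLAN. `g = CF (dK (u j)) + (c + h/(lam - u_j)) (lam - u_j)`, so `T g x = TD j x + (c + h/(lam - u_j)) • Tth j x`
(`lam - u_j ≠ 0` in `FK`), the coefficient has Gauss valuation `≥ 0` at `gv (u j) r`: `v h - r ≥ 0`
(`gv_lam_sub` with `a = b`: `min r ⊤ = r`) and `Ge_gv_ratCast`. `TD j`, `Tth j` commute (`TD_Tth`). Apply `jb`.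
-/

open scoped BigOperators

namespace Pool.Agent.CVG

namespace Dat

variable {n : ℕ} (Δ : Dat n)

theorem jbT (j : Fin n) (r c : ℚ) (h : KK) (hh : Ge vK r h) {m : ℚ} (hm : 0 ≤ m)
    (h1 : MBdd (gv (Δ.u j) r) (Pi.basisFun FK (Fin n)) m (Δ.TD j))
    (h2 : MBdd (gv (Δ.u j) r) (Pi.basisFun FK (Fin n)) m (Δ.Tth j)) :
    MBdd (gv (Δ.u j) r) (Pi.basisFun FK (Fin n)) m
      (Δ.T (CF (dK (Δ.u j)) + (c : FK) * (lam - CF (Δ.u j)) + CF h)) := by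
  have hgl : gv (Δ.u j) r (lam - CF (Δ.u j)) = (r : WithTop ℚ) := by
    rw [gv_lam_sub, sub_self, vK.map_zero, min_eq_left le_top]
  have hlam : lam - CF (Δ.u j) ≠ 0 := by
    intro h0
    rw [h0, (gv (Δ.u j) r).map_zero] at hgl
    exact WithTop.coe_ne_top hgl.symm
  have hq : Ge (gv (Δ.u j) r) 0 (CF h / (lam - CF (Δ.u j))) := by
    have e1 : CF h = CF h / (lam - CF (Δ.u j)) * (lam - CF (Δ.u j)) :=
      (div_mul_cancel₀ _ hlam).symm
    have e2 : Ge (gv (Δ.u j) r) r (CF h) := Ge_gv_CF.2 hh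
    rw [Ge, e1, (gv (Δ.u j) r).map_mul, hgl] at e2
    have e3 : (r : WithTop ℚ) + ((0 : ℚ) : WithTop ℚ) ≤
        (r : WithTop ℚ) + gv (Δ.u j) r (CF h / (lam - CF (Δ.u j))) := by
      rw [← WithTop.coe_add, add_zero, add_comm]
      exact e2
    exact (WithTop.add_le_add_iff_left WithTop.coe_ne_top).1 e3
  have hg : Ge (gv (Δ.u j) r) 0 ((c : FK) + CF h / (lam - CF (Δ.u j))) :=
    (Ge_gv_ratCast _ _ _).add hq
  have key := jb (Pi.basisFun FK (Fin n)) (Δ.derGe_TD j r) (Δ.derGe_Tth j r) (Δ.isConn_TD j)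
    (Δ.isConn_Tth j) (Δ.TD_Tth j) hm h1 h2 _ hg
  have e : (fun x => Δ.TD j x + ((c : FK) + CF h / (lam - CF (Δ.u j))) • Δ.Tth j x) =
      Δ.T (CF (dK (Δ.u j)) + (c : FK) * (lam - CF (Δ.u j)) + CF h) := by
    funext x
    have e4 : CF (dK (Δ.u j)) + (c : FK) * (lam - CF (Δ.u j)) + CF h =
        CF (dK (Δ.u j)) + ((c : FK) + CF h / (lam - CF (Δ.u j))) * (lam - CF (Δ.u j)) := by
      rw [add_mul, div_mul_cancel₀ _ hlam, add_assoc]
    rw [e4]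
    show Δ.T0 x + CF (dK (Δ.u j)) • Δ.Td x +
      ((c : FK) + CF h / (lam - CF (Δ.u j))) • ((lam - CF (Δ.u j)) • Δ.Td x) =
      Δ.T0 x + (CF (dK (Δ.u j)) + ((c : FK) + CF h / (lam - CF (Δ.u j))) *
        (lam - CF (Δ.u j))) • Δ.Td x
    rw [smul_smul, add_assoc, ← add_smul]
  rw [← e]
  exact key

end Dat

end Pool.Agent.CVG
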