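import Pool.Agent.CVG.AJB

/-!
# CVG-ARoot: directions containing a root

PLAN. Put `a' = u_{i₀} + c s^q`, `w = u_i - a'`, `v w ≥ q'`. Then `gv a' q' = gv (u i) q'` (`gv_center`) and
`g0 (u i₀) q = CF (dK (u i)) + q (lam - u_i) + CF h` with
`h = dK (u i₀) - dK (u i) - q (u i₀ - u i) = -(dK w - q w)` since `dK (c s^q) = q c s^q`; `v h ≥ q'` by `dK_ge`.
Apply `jbT`.
-/

open scoped BigOperators

namespace Pool.Agent.CVG

namespace Dat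

variable {n : ℕ} (Δ : Dat n)

theorem root_dir (i₀ i : Fin n) (q q' : ℚ) (c : ℂ)
    (hw : Ge vK q' (Δ.u i - (Δ.u i₀ + cK c * sp q))) {m : ℚ} (hm : 0 ≤ m)
    (h1 : MBdd (gv (Δ.u i) q') (Pi.basisFun FK (Fin n)) m (Δ.TD i))
    (h2 : MBdd (gv (Δ.u i) q') (Pi.basisFun FK (Fin n)) m (Δ.Tth i)) :
    MBdd (gv (Δ.u i₀ + cK c * sp q) q') (Pi.basisFun FK (Fin n)) m (Δ.T (g0 (Δ.u i₀) q)) := by
  rw [← gv_center hw]
  have e1 : dK (cK c * sp q) = (q : KK) * (cK c * sp q) := by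
    rw [Derivation.leibniz, dK_sp, dK_cK, smul_zero, add_zero, smul_eq_mul]
    ring
  have e2 : dK (Δ.u i₀) - dK (Δ.u i) - (q : KK) * (Δ.u i₀ - Δ.u i) =
      -dK (Δ.u i - (Δ.u i₀ + cK c * sp q)) +
        (q : KK) * (Δ.u i - (Δ.u i₀ + cK c * sp q)) := by
    rw [map_sub, map_add, e1]
    ring
  have h3 : Ge vK q' (dK (Δ.u i₀) - dK (Δ.u i) - (q : KK) * (Δ.u i₀ - Δ.u i)) := by
    rw [e2]
    refine Ge.add (Ge.neg (dK_ge q' _ hw)) ?_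
    have h4 := (Ge_ratCast q).mul hw
    rwa [zero_add] at h4
  have h5 := Δ.jbT i q' q _ h3 hm h1 h2
  have e3 : g0 (Δ.u i₀) q = CF (dK (Δ.u i)) + (q : FK) * (lam - CF (Δ.u i)) +
      CF (dK (Δ.u i₀) - dK (Δ.u i) - (q : KK) * (Δ.u i₀ - Δ.u i)) := by
    unfold g0
    rw [map_sub, map_sub, map_mul, map_sub, CF_ratCast]
    ring
  rw [e3]
  exact h5

/-- the outward direction -/
theorem out_dir (i₀ : Fin n) (q q' : ℚ) {m : ℚ} (hm : 0 ≤ m)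
    (h1 : MBdd (gv (Δ.u i₀) q') (Pi.basisFun FK (Fin n)) m (Δ.TD i₀))
    (h2 : MBdd (gv (Δ.u i₀) q') (Pi.basisFun FK (Fin n)) m (Δ.Tth i₀)) :
    MBdd (gv (Δ.u i₀) q') (Pi.basisFun FK (Fin n)) m (Δ.T (g0 (Δ.u i₀) q)) := by
  have h5 := Δ.jbT i₀ q' q 0 Ge.zero hm h1 h2
  have e3 : g0 (Δ.u i₀) q = CF (dK (Δ.u i₀)) + (q : FK) * (lam - CF (Δ.u i₀)) + CF 0 := by
    unfold g0
    rw [map_zero, add_zero]
  rw [e3]
  exact h5

end Dat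

end Pool.Agent.CVG
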