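import Pool.Agent.CVG.GaussA

/-!
# CVG-Harm: slopes of a rational function in all directions (harmonicity)

PLAN. First for a nonzero polynomial `P`. Put `p_n = (taylor a P).coeff n`, `α = min_n (v p_n + n q)`
(rational, `= gv a q (pF P)` by `Ge_gv_poly`), and let `P̄ ∈ ℂ[y]` have coefficients
`cofK p_n (α - n q)`; `P̄ ≠ 0`.
* Outward: `gv a (q - ε) P = min (v p_n + n q - n ε)`; for `n = deg P̄` the value is `α - ε deg P̄`; for
  `n > deg P̄`, `v p_n + n q > α` (or `p_n = 0`), so the term is larger for small `ε`; for `n < deg P̄`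
  it is `≥ α - n ε`. So for small `ε`: `gv a (q-ε) P = α - ε deg P̄`.
* Direction `c`: let `a' = a + c s^q`. The Taylor coefficients at `a'` are
  `p'_k = ∑_{n ≥ k} binom(n,k) (c s^q)^(n-k) p_n`, so `v p'_k + k q ≥ α` and
  `cofK p'_k (α - k q) = ∑_n binom(n,k) c^(n-k) P̄_n` is the `k`-th Taylor coefficient of `P̄` at `c`. With
  `k₀ = rootMultiplicity c P̄` (the first nonzero Taylor coefficient) the same argument gives
  `gv a' (q + ε) P = α + ε k₀` for small `ε`.
* `∑_c rootMultiplicity c P̄ = deg P̄` (`ℂ` algebraically closed). For polynomials take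
  `d c = rootMultiplicity c P̄`; for `f = P/Q` the difference.
-/

open scoped BigOperators

namespace Pool.Agent.CVG

open Polynomial

private theorem cofK_zero' (q : ℚ) : cofK 0 q = 0 := HahnSeries.coeff_zero

private theorem cofK_sum' {ι : Type*} (s : Finset ι) (f : ι → KK) (q : ℚ) :
    cofK (∑ i ∈ s, f i) q = ∑ i ∈ s, cofK (f i) q := by
  classical
  induction s using Finset.induction_on with
  | empty => rw [Finset.sum_empty, Finset.sum_empty, cofK_zero']
  | insert a s ha ih => rw [Finset.sum_insert ha, Finset.sum_insert ha, cofK_add, ih]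

private theorem cofK_of_vK {x : KK} {r : ℚ} (h : vK x = (r : WithTop ℚ)) : cofK x r ≠ 0 := by
  have h' : HahnSeries.orderTop (Γ := ℚ) (R := ℂ) x = (r : WithTop ℚ) := by
    rw [← h]
    exact (HahnSeries.addVal_apply (Γ := ℚ) (R := ℂ) (x := x)).symm
  exact HahnSeries.coeff_orderTop_ne h'

private theorem Ge_gap {x : KK} {c : ℚ} (h : Ge vK c x) (h0 : cofK x c = 0) :
    ∃ δ : ℚ, 0 < δ ∧ Ge vK (c + δ) x := by
  by_cases hx : vK x = ⊤
  · refine ⟨1, one_pos, ?_⟩
    unfold Ge
    rw [hx]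
    exact le_top
  · obtain ⟨r, hr⟩ := WithTop.ne_top_iff_exists.1 hx
    have h1 := cofK_of_vK hr.symm
    have h2 : c ≤ r := by
      unfold Ge at h
      rw [← hr] at h
      exact WithTop.coe_le_coe.1 h
    have h3 : c ≠ r := fun h4 => h1 (h4 ▸ h0)
    refine ⟨r - c, sub_pos.2 (lt_of_le_of_ne h2 h3), ?_⟩
    unfold Ge
    rw [← hr, add_sub_cancel]

private theorem unif_gap (R : Polynomial KK) (q α : ℚ)
    (h : ∀ n : ℕ, Ge vK (α - n * q) (R.coeff n)) :
    ∃ δ : ℚ, 0 < δ ∧ ∀ n : ℕ, cofK (R.coeff n) (α - n * q) = 0 →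
      Ge vK (α - n * q + δ) (R.coeff n) := by
  have key : ∀ N : ℕ, ∃ δ : ℚ, 0 < δ ∧ ∀ n < N, cofK (R.coeff n) (α - n * q) = 0 →
      Ge vK (α - n * q + δ) (R.coeff n) := by
    intro N
    induction N with
    | zero => exact ⟨1, one_pos, fun n hn => absurd hn (Nat.not_lt_zero n)⟩
    | succ N ih =>
      obtain ⟨δ, hδ, h1⟩ := ih
      by_cases h0 : cofK (R.coeff N) (α - N * q) = 0
      · obtain ⟨δ', hδ', h2⟩ := Ge_gap (h N) h0
        refine ⟨min δ δ', lt_min hδ hδ', fun n hn h3 => ?_⟩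
        rcases Nat.lt_succ_iff_lt_or_eq.1 hn with h4 | h4
        · exact (h1 n h4 h3).mono (by linarith [min_le_left δ δ'])
        · subst h4
          exact h2.mono (by linarith [min_le_right δ δ'])
      · refine ⟨δ, hδ, fun n hn h3 => ?_⟩
        rcases Nat.lt_succ_iff_lt_or_eq.1 hn with h4 | h4
        · exact h1 n h4 h3
        · subst h4
          exact absurd h3 h0
  obtain ⟨δ, hδ, h1⟩ := key (R.natDegree + 1)
  refine ⟨δ, hδ, fun n hn => ?_⟩
  rcases lt_or_ge n (R.natDegree + 1) with h2 | h2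
  · exact h1 n h2 hn
  · rw [Polynomial.coeff_eq_zero_of_natDegree_lt (by omega)]
    exact Ge.zero

private theorem gv_eq {a : KK} {q β : ℚ} {P : Polynomial KK} (hP : P ≠ 0)
    (h : ∀ n : ℕ, Ge vK (β - n * q) ((taylor a P).coeff n)) (k : ℕ)
    (hk : cofK ((taylor a P).coeff k) (β - k * q) ≠ 0) : gv a q (pF P) = (β : WithTop ℚ) := by
  have h0 : pF P ≠ 0 := fun h1 => hP (pF_injective (h1.trans (map_zero pF).symm))
  obtain ⟨r, hr⟩ := exists_gv a q h0
  have h1 : Ge (gv a q) β (pF P) := (Ge_gv_poly a q β P).2 h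
  have h2 : β ≤ r := by
    unfold Ge at h1
    rw [hr] at h1
    exact WithTop.coe_le_coe.1 h1
  rcases h2.eq_or_lt with h3 | h3
  · rw [hr, h3]
  · exfalso
    have h4 : Ge (gv a q) r (pF P) := le_of_eq hr.symm
    have h5 := (Ge_gv_poly a q r P).1 h4 k
    exact hk (Ge_vK_iff.1 h5 _ (by linarith))

/-- the leading polynomial -/
private noncomputable def ld (q α : ℚ) (R : Polynomial KK) : Polynomial ℂ :=
  ∑ n ∈ Finset.range (R.natDegree + 1), Polynomial.monomial n (cofK (R.coeff n) (α - n * q))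

private theorem ld_coeff (q α : ℚ) (R : Polynomial KK) (n : ℕ) :
    (ld q α R).coeff n = cofK (R.coeff n) (α - n * q) := by
  unfold ld
  rw [Polynomial.finsetSum_coeff]
  simp only [Polynomial.coeff_monomial]
  rw [Finset.sum_ite_eq']
  split_ifs with h
  · rfl
  · rw [Finset.mem_range, not_lt] at h
    rw [Polynomial.coeff_eq_zero_of_natDegree_lt (by omega), cofK_zero']

private theorem cofK_mul_pow (c : ℂ) (q : ℚ) (x : KK) (j : ℕ) (r : ℚ) :
    cofK (x * (cK c * sp q) ^ j) r = cofK x (r - j * q) * c ^ j := by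
  induction j generalizing r with
  | zero => simp
  | succ j ih =>
    have h1 : x * (cK c * sp q) ^ (j + 1) = cK c * (sp q * (x * (cK c * sp q) ^ j)) := by ring
    rw [h1, cofK_cK_mul, cofK_sp_mul, ih]
    have h2 : r - q - j * q = r - ((j + 1 : ℕ) : ℚ) * q := by push_cast; ring
    rw [h2]
    ring

private theorem cofK_nat_mul (k : ℕ) (x : KK) (r : ℚ) :
    cofK ((k : KK) * x) r = (k : ℂ) * cofK x r := by
  rw [← map_natCast cK k, cofK_cK_mul]

private theorem ld_taylor (q α : ℚ) (R : Polynomial KK) (c : ℂ) :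
    ld q α (taylor (cK c * sp q) R) = taylor c (ld q α R) := by
  ext k
  rw [ld_coeff, taylor_coeff, taylor_coeff]
  have hN : ∀ N : ℕ, R.natDegree < N → (ld q α R).natDegree < N := by
    intro N h
    refine lt_of_le_of_lt (Polynomial.natDegree_le_iff_coeff_eq_zero.2 fun n hn => ?_) h
    rw [ld_coeff, Polynomial.coeff_eq_zero_of_natDegree_lt hn, cofK_zero']
  have h1 : (hasseDeriv k R).natDegree < R.natDegree + 1 :=
    lt_of_le_of_lt (natDegree_hasseDeriv_le R k) (by omega)
  have h2 : (hasseDeriv k (ld q α R)).natDegree < R.natDegree + 1 :=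
    lt_of_le_of_lt (natDegree_hasseDeriv_le _ k)
      (lt_of_le_of_lt (Nat.sub_le _ _) (hN _ (Nat.lt_succ_self _)))
  rw [Polynomial.eval_eq_sum_range' h1, Polynomial.eval_eq_sum_range' h2, cofK_sum']
  refine Finset.sum_congr rfl fun j _ => ?_
  rw [cofK_mul_pow, hasseDeriv_coeff, hasseDeriv_coeff, cofK_nat_mul, ld_coeff]
  have h3 : α - (k : ℚ) * q - (j : ℚ) * q = α - ((j + k : ℕ) : ℚ) * q := by push_cast; ring
  rw [h3]

private theorem harm_poly (P : Polynomial KK) (hP : P ≠ 0) (a : KK) (q : ℚ) :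
    ∃ (α : ℚ) (d : ℂ →₀ ℤ), gv a q (pF P) = (α : WithTop ℚ) ∧
      (∀ c : ℂ, ∃ ε₀ : ℚ, 0 < ε₀ ∧ ∀ ε : ℚ, 0 < ε → ε < ε₀ →
        gv (a + cK c * sp q) (q + ε) (pF P) = ((α + ε * (d c : ℚ) : ℚ) : WithTop ℚ)) ∧
      (∃ ε₀ : ℚ, 0 < ε₀ ∧ ∀ ε : ℚ, 0 < ε → ε < ε₀ →
        gv a (q - ε) (pF P) = ((α - ε * ((d.sum fun _ k => k : ℤ) : ℚ) : ℚ) : WithTop ℚ)) := by
  classical
  have h0 : pF P ≠ 0 := fun h1 => hP (pF_injective (h1.trans (map_zero pF).symm))
  obtain ⟨α, hα⟩ := exists_gv a q h0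
  have hge : ∀ n : ℕ, Ge vK (α - n * q) ((taylor a P).coeff n) :=
    (Ge_gv_poly a q α P).1 (le_of_eq hα.symm)
  set B := ld q α (taylor a P) with hB
  have hB0 : B ≠ 0 := by
    intro h1
    obtain ⟨δ, hδ, h2⟩ := unif_gap _ q α hge
    have h3 : Ge (gv a q) (α + δ) (pF P) := by
      refine (Ge_gv_poly a q _ P).2 fun n => ?_
      have h4 : cofK ((taylor a P).coeff n) (α - n * q) = 0 := by
        rw [← ld_coeff, ← hB, h1, coeff_zero]
      have h5 := h2 n h4
      have h6 : α - n * q + δ = α + δ - n * q := by ring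
      rwa [h6] at h5
    unfold Ge at h3
    rw [hα] at h3
    have := WithTop.coe_le_coe.1 h3
    linarith
  refine ⟨α, (Multiset.toFinsupp B.roots).mapRange (Nat.cast : ℕ → ℤ) Nat.cast_zero, hα, ?_, ?_⟩
  · intro c
    set a' := a + cK c * sp q with ha'
    have hc : gv a q = gv a' q := by
      refine gv_center ?_
      have h1 : a - a' = -(cK c * sp q) := by rw [ha']; ring
      rw [h1]
      refine Ge.neg (Ge_vK_iff.2 fun r hr => ?_)
      rw [cofK_cK_mul, cofK_sp, if_neg (ne_of_lt hr), mul_zero]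
    have hge' : ∀ n : ℕ, Ge vK (α - n * q) ((taylor a' P).coeff n) := by
      refine (Ge_gv_poly a' q α P).1 (le_of_eq ?_)
      rw [← hc]
      exact hα.symm
    have hB' : ld q α (taylor a' P) = taylor c B := by
      have h1 : taylor a' P = taylor (cK c * sp q) (taylor a P) := by
        rw [taylor_taylor, ha', add_comm]
      rw [h1, ld_taylor]
    have hB'0 : taylor c B ≠ 0 := fun h1 => hB0 (taylor_injective c (by rw [h1, map_zero]))
    obtain ⟨δ, hδ, h2⟩ := unif_gap _ q α hge'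
    set k := (taylor c B).natTrailingDegree with hk
    have hmult : Multiset.toFinsupp B.roots c = k := by
      rw [Multiset.toFinsupp_apply, count_roots, rootMultiplicity_eq_natTrailingDegree, hk,
        taylor_apply]
    refine ⟨δ / (k + 1), div_pos hδ (by positivity), fun ε he1 he2 => ?_⟩
    rw [Finsupp.mapRange_apply, hmult]
    have hek : ε * (k + 1) < δ := by
      rw [lt_div_iff₀ (by positivity)] at he2
      exact he2
    refine gv_eq hP ?_ k ?_
    · intro n
      rcases lt_or_ge n k with h3 | h3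
      · have h4 : cofK ((taylor a' P).coeff n) (α - n * q) = 0 := by
          rw [← ld_coeff, hB']
          exact coeff_eq_zero_of_lt_natTrailingDegree h3
        refine (h2 n h4).mono ?_
        push_cast
        have h5 : (0 : ℚ) ≤ ε * n := by positivity
        nlinarith
      · refine (hge' n).mono ?_
        push_cast
        have h5 : (k : ℚ) ≤ n := by exact_mod_cast h3
        nlinarith
    · have h3 : α + ε * (((k : ℕ) : ℤ) : ℚ) - k * (q + ε) = α - k * q := by push_cast; ring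
      rw [h3, ← ld_coeff, hB']
      exact trailingCoeff_nonzero_iff_nonzero.2 hB'0
  · have hsum : (((Multiset.toFinsupp B.roots).mapRange (Nat.cast : ℕ → ℤ) Nat.cast_zero).sum
        fun _ k => k) = (B.natDegree : ℤ) := by
      rw [Finsupp.sum_mapRange_index (fun _ => rfl)]
      have h1 : Multiset.card B.roots = B.natDegree :=
        Polynomial.splits_iff_card_roots.1 (IsAlgClosed.splits B)
      rw [← h1, ← Multiset.toFinsupp_sum_eq]
      unfold Finsupp.sum
      push_cast
      rfl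
    rw [hsum]
    obtain ⟨δ, hδ, h2⟩ := unif_gap _ q α hge
    set k := B.natDegree with hk
    refine ⟨δ / ((taylor a P).natDegree + 1), div_pos hδ (by positivity), fun ε he1 he2 => ?_⟩
    have hek : ε * ((taylor a P).natDegree + 1) < δ := by
      rw [lt_div_iff₀ (by positivity)] at he2
      exact he2
    refine gv_eq hP ?_ k ?_
    · intro n
      rcases lt_or_ge k n with h3 | h3
      · have h4 : cofK ((taylor a P).coeff n) (α - n * q) = 0 := by
          rw [← ld_coeff, ← hB]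
          exact coeff_eq_zero_of_natDegree_lt h3
        rcases le_or_gt n (taylor a P).natDegree with h5 | h5
        · refine (h2 n h4).mono ?_
          push_cast
          have h6 : (n : ℚ) ≤ (taylor a P).natDegree := by exact_mod_cast h5
          have h7 : (0 : ℚ) ≤ ε * k := by positivity
          nlinarith
        · rw [coeff_eq_zero_of_natDegree_lt h5]
          exact Ge.zero
      · refine (hge n).mono ?_
        push_cast
        have h5 : (n : ℚ) ≤ k := by exact_mod_cast h3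
        nlinarith
    · have h3 : α - ε * (((k : ℕ) : ℤ) : ℚ) - k * (q - ε) = α - k * q := by push_cast; ring
      rw [h3, ← ld_coeff, ← hB]
      exact leadingCoeff_ne_zero.2 hB0

private theorem gv_div {a : KK} {q x y : ℚ} {f g h : FK} (hf : f * h = g)
    (hg : gv a q g = (x : WithTop ℚ)) (hh : gv a q h = (y : WithTop ℚ)) :
    gv a q f = ((x - y : ℚ) : WithTop ℚ) := by
  have h1 : gv a q f + gv a q h = gv a q g := by rw [← hf, (gv a q).map_mul]
  rw [hg, hh] at h1
  cases h2 : gv a q f with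
  | top => rw [h2, WithTop.top_add] at h1; exact absurd h1 (WithTop.top_ne_coe)
  | coe z =>
    rw [h2, ← WithTop.coe_add, WithTop.coe_eq_coe] at h1
    rw [WithTop.coe_eq_coe]
    linarith

/-- For a nonzero rational function `f` and a disc `(a, q)`: there are integers `d c`, `c ∈ ℂ`, almost
all zero, such that `gv (a + c s^q) (q + ε) f = gv a q f + ε d c` and
`gv a (q - ε) f = gv a q f - ε ∑ d c` for small `ε > 0`. -/
theorem harm (f : FK) (hf : f ≠ 0) (a : KK) (q : ℚ) :
    ∃ (α : ℚ) (d : ℂ →₀ ℤ), gv a q f = (α : WithTop ℚ) ∧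
      (∀ c : ℂ, ∃ ε₀ : ℚ, 0 < ε₀ ∧ ∀ ε : ℚ, 0 < ε → ε < ε₀ →
        gv (a + cK c * sp q) (q + ε) f = ((α + ε * (d c : ℚ) : ℚ) : WithTop ℚ)) ∧
      (∃ ε₀ : ℚ, 0 < ε₀ ∧ ∀ ε : ℚ, 0 < ε → ε < ε₀ →
        gv a (q - ε) f = ((α - ε * ((d.sum fun _ k => k : ℤ) : ℚ) : ℚ) : WithTop ℚ)) := by
  classical
  obtain ⟨P, Q, hQ, rfl⟩ := FK_surj f
  have hP : P ≠ 0 := by
    rintro rfl
    exact hf (by rw [map_zero, zero_div])
  have hQ0 : pF Q ≠ 0 := fun h1 => hQ (pF_injective (h1.trans (map_zero pF).symm))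
  have hmul : pF P / pF Q * pF Q = pF P := div_mul_cancel₀ _ hQ0
  obtain ⟨α, d, h1, h2, h3⟩ := harm_poly P hP a q
  obtain ⟨β, e, g1, g2, g3⟩ := harm_poly Q hQ a q
  refine ⟨α - β, d - e, gv_div hmul h1 g1, fun c => ?_, ?_⟩
  · obtain ⟨δ, hδ, h4⟩ := h2 c
    obtain ⟨δ', hδ', g4⟩ := g2 c
    refine ⟨min δ δ', lt_min hδ hδ', fun ε he1 he2 => ?_⟩
    rw [gv_div hmul (h4 ε he1 (lt_of_lt_of_le he2 (min_le_left _ _)))
      (g4 ε he1 (lt_of_lt_of_le he2 (min_le_right _ _))), WithTop.coe_eq_coe,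
      Finsupp.sub_apply]
    push_cast
    ring
  · obtain ⟨δ, hδ, h4⟩ := h3
    obtain ⟨δ', hδ', g4⟩ := g3
    refine ⟨min δ δ', lt_min hδ hδ', fun ε he1 he2 => ?_⟩
    rw [gv_div hmul (h4 ε he1 (lt_of_lt_of_le he2 (min_le_left _ _)))
      (g4 ε he1 (lt_of_lt_of_le he2 (min_le_right _ _))), WithTop.coe_eq_coe,
      Finsupp.sum_sub_index (fun _ _ _ => rfl)]
    push_cast
    ring

end Pool.Agent.CVG
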