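import Pool.Agent.CVG.ChB

/-!
# CVG-NS: slopes and coefficients of a cyclic vector equation

PLAN. Let `T^n e = ∑ a_i T^i e`, `(T^i e)_{i<n}` a basis.
* `ns_le`: choose `s` with `v s = m`. The basis `f_i = s^i • T^i e` satisfies
  `T f_i = D(s^i) • T^i e + s^i • T^(i+1) e = (D(s^i)/s^i) • f_i + s⁻¹ • f_{i+1}` with
  `v (D(s^i)/s^i) ≥ 0`, and for `i = n-1` the last term is
  `s^(n-1) • ∑ a_j T^j e = s⁻¹ • ∑ (a_j s^(n-j)) • f_j`, `v (a_j s^(n-j)) ≥ 0`. So `mbdd_of_step` in the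
  basis `f`, then `MBdd_change`.
-/

open scoped BigOperators

namespace Pool.Agent.CVG

variable {F : Type*} [Field F] {V : Type*} [AddCommGroup V] [Module F V]
variable {v : AddValuation F (WithTop ℚ)} {D : Derivation ℤ F F} {T : V → V}
variable {ι : Type*} [Fintype ι]

omit [Fintype ι] in
private theorem ns_inv {x : F} {q : ℚ} (hx : v x = (q : WithTop ℚ)) : Ge v (-q) x⁻¹ := by
  have hx0 : x ≠ 0 := by
    rintro rfl
    rw [v.map_zero] at hx
    exact WithTop.coe_ne_top hx.symm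
  have h1 : v x + v x⁻¹ = 0 := by
    rw [← v.map_mul, mul_inv_cancel₀ hx0, v.map_one]
  rw [hx] at h1
  unfold Ge
  rcases h : v x⁻¹ with _ | r
  · exact le_top
  · rw [h] at h1
    have h2 : (((q + r : ℚ)) : WithTop ℚ) = ((0 : ℚ) : WithTop ℚ) := h1
    have h3 : q + r = 0 := WithTop.coe_injective h2
    have h4 : r = -q := by linarith
    rw [h4]
    exact le_refl _

private theorem ns_vpow {s : F} {m : ℚ} (hs : v s = (m : WithTop ℚ)) (k : ℕ) :
    v (s ^ k) = (((k : ℚ) * m : ℚ) : WithTop ℚ) := by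
  induction k with
  | zero =>
    rw [pow_zero, v.map_one, Nat.cast_zero, zero_mul]
    rfl
  | succ k ih =>
    rw [pow_succ, v.map_mul, ih, hs, ← WithTop.coe_add]
    congr 1
    push_cast
    ring

theorem ns_le (hv : ∀ q : ℚ, ∃ x : F, v x = (q : WithTop ℚ)) (hD : DerGe v D) (hT : IsConn D T)
    (b : Module.Basis ι F V) {n : ℕ} {e : V} {a : Fin n → F} (hc : IsCyc T n e a) {m : ℚ}
    (hm : 0 ≤ m) (h : ∀ i : Fin n, Ge v (-(m * ((n : ℚ) - (i : ℕ)))) (a i)) : MBdd v b m T := by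
  obtain ⟨s, hs⟩ := hv m
  have hs0 : s ≠ 0 := by
    rintro rfl
    rw [v.map_zero] at hs
    exact WithTop.coe_ne_top hs.symm
  let B : Module.Basis (Fin n) F V := Module.Basis.mk hc.li (le_of_eq hc.top.symm)
  have hB : ∀ i, B i = T^[(i : ℕ)] e := fun i => Module.Basis.mk_apply _ _ i
  have hu : ∀ i : Fin n, IsUnit (s ^ (i : ℕ)) := fun i => (pow_ne_zero _ hs0).isUnit
  let f : Module.Basis (Fin n) F V := B.isUnitSMul hu
  have hf : ∀ i, f i = s ^ (i : ℕ) • T^[(i : ℕ)] e := by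
    intro i
    rw [Module.Basis.isUnitSMul_apply, hB]
  have hfinv : ∀ i : Fin n, T^[(i : ℕ)] e = (s ^ (i : ℕ))⁻¹ • f i := by
    intro i
    rw [hf, smul_smul, inv_mul_cancel₀ (pow_ne_zero _ hs0), one_smul]
  apply MBdd_change f b
  apply mbdd_of_step f hD hT hm
  intro i
  rw [hf i, hT.smul]
  have hvi : v (s ^ (i : ℕ)) = (((i : ℕ) * m : ℚ) : WithTop ℚ) := ns_vpow hs i
  apply GE.add
  · -- derivative term
    rw [hfinv i, smul_smul]
    have h1 : Ge v ((i : ℕ) * m) (s ^ (i : ℕ)) := le_of_eq hvi.symm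
    have h2 := hD _ _ h1
    have h3 := h2.mul (ns_inv hvi)
    have h4 : Ge v 0 (D (s ^ (i : ℕ)) * (s ^ (i : ℕ))⁻¹) := by
      rw [show ((i : ℕ) : ℚ) * m + -(((i : ℕ) : ℚ) * m) = 0 by ring] at h3
      exact h3
    exact (GE.smul0 h4 (GE.self i)).mono (by linarith)
  · have hstep : T (T^[(i : ℕ)] e) = T^[(i : ℕ) + 1] e :=
      (Function.iterate_succ_apply' T (i : ℕ) e).symm
    rw [hstep]
    rcases lt_or_eq_of_le (Nat.succ_le_of_lt i.isLt) with hi | hi
    · have e1 := hfinv ⟨(i : ℕ) + 1, hi⟩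
      have e2 : T^[(i : ℕ) + 1] e = (s ^ ((i : ℕ) + 1))⁻¹ • f ⟨(i : ℕ) + 1, hi⟩ := e1
      rw [e2, smul_smul]
      have h1 : Ge v ((i : ℕ) * m) (s ^ (i : ℕ)) := le_of_eq hvi.symm
      have h3 := h1.mul (ns_inv (ns_vpow hs ((i : ℕ) + 1)))
      rw [show ((i : ℕ) : ℚ) * m + -((((i : ℕ) + 1 : ℕ) : ℚ) * m) = -m by
        push_cast; ring] at h3
      have h5 := GE.smul h3 (GE.self (v := v) (b := f) ⟨(i : ℕ) + 1, hi⟩)
      rw [add_zero] at h5
      exact h5
    · have hn : (i : ℕ) + 1 = n := hi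
      rw [hn, hc.eq, Finset.smul_sum]
      apply GE.sum
      intro j _
      rw [hfinv j, smul_smul, smul_smul, mul_assoc]
      have h1 : Ge v ((i : ℕ) * m) (s ^ (i : ℕ)) := le_of_eq hvi.symm
      have h3 := h1.mul ((h j).mul (ns_inv (ns_vpow hs (j : ℕ))))
      have hin : ((i : ℕ) : ℚ) = (n : ℚ) - 1 := by
        have : ((((i : ℕ) + 1 : ℕ)) : ℚ) = (n : ℚ) := by rw [hn]
        push_cast at this
        linarith
      rw [show ((i : ℕ) : ℚ) * m + (-(m * ((n : ℚ) - (j : ℕ))) + -(((j : ℕ) : ℚ) * m)) = -m by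
        rw [hin]; ring] at h3
      have h5 := GE.smul h3 (GE.self (v := v) (b := f) j)
      rw [add_zero] at h5
      exact h5

end Pool.Agent.CVG
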