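import Pool.Agent.CVG.ANon
import Pool.Agent.CVG.ARoot
import Pool.Agent.CVG.ADom
import Pool.Agent.CVG.Harm
import Pool.Agent.CVG.CV
import Pool.Agent.CVG.NS
import Pool.Agent.CVG.NS2

/-!
# CVG-AMax: contradiction at an outermost maximal point

PLAN. Let `a₀ = u i₀`, `T = T (g0 a₀ q₀)`, `e, a` a cyclic vector of `T` over `DD (g0 a₀ q₀)` (nonzero derivation).
1. At `gv a₀ q₀`: `MBdd m₀ T` (`out_dir` with `q' = q₀`), so `Ge (gv a₀ q₀) (-(m₀ (n-j))) (a_j)` (`ns_ge`, `derGe_out`).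
2. For some `j`, `gv a₀ q₀ (a_j) = -(m₀ (n-j))` exactly: otherwise all `gv (a_j) > -(m₀ (n-j))` and there is
   `m₁ < m₀`, `m₁ ≥ 0` with `Ge .. (-(m₁ (n-j))) (a_j)`, so `MBdd m₁ T` (`ns_le`) and `dom_TD` gives for
   `m ∈ (m₁, m₀)` `MBdd m` of `TD i₀`, `Tth i₀`, contradicting `hexact`.
3. `harm` for `f = a_j` (nonzero), with `α = -(m₀ (n-j))`. For every `c`: `d c ≥ 0`. Indeed for small `ε > 0`, with
   `a' = a₀ + c s^q₀`, `q' = q₀ + ε`: `MBdd (gv a' q') m₀ T`. Either some root `u i` has `v (u i - a') > q₀`,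
   then for small `ε`, `Ge vK q' (u i - a')`: `root_dir` with `hall i q'`. Or `v (u j - a') ≤ q₀` for all
   `j`: `nonroot`. Then `ns_ge` (`derGe_dir`) gives `gv a' q' (a_j) ≥ -(m₀ (n-j))`, i.e. `ε d c ≥ 0`.
4. Outward: for small `ε` with `0 ≤ q₀ - ε`: `hout` gives `m' < m₀`, `out_dir`, `ns_ge` (`derGe_out`):
   `gv a₀ (q₀-ε) (a_j) ≥ -(m' (n-j)) > -(m₀ (n-j))`, i.e. `-ε ∑ d c > 0`. Contradiction with 3
   (`n - j > 0`; `d.sum` of nonnegative numbers is nonnegative).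
-/

open scoped BigOperators

namespace Pool.Agent.CVG

private theorem max_gap {N : ℕ} {v : AddValuation FK (WithTop ℚ)} (a : Fin N → FK) {m₀ : ℚ}
    (hm₀ : 0 < m₀) (h : ∀ j : Fin N, Ge v (-(m₀ * ((N : ℚ) - (j : ℕ)))) (a j))
    (hne : ∀ j : Fin N, v (a j) ≠ ((-(m₀ * ((N : ℚ) - (j : ℕ))) : ℚ) : WithTop ℚ)) :
    ∃ m₁ : ℚ, 0 ≤ m₁ ∧ m₁ < m₀ ∧ ∀ j : Fin N, Ge v (-(m₁ * ((N : ℚ) - (j : ℕ)))) (a j) := by
  classical
  have hpos : ∀ j : Fin N, (0 : ℚ) < (N : ℚ) - (j : ℕ) := by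
    intro j
    have h1 : ((j : ℕ) : ℚ) < N := by exact_mod_cast j.2
    linarith
  have hone : ∀ j : Fin N, ∃ m₁ : ℚ, 0 ≤ m₁ ∧ m₁ < m₀ ∧
      Ge v (-(m₁ * ((N : ℚ) - (j : ℕ)))) (a j) := by
    intro j
    rcases eq_or_ne (v (a j)) ⊤ with h1 | h1
    · exact ⟨0, le_refl _, hm₀, by rw [Ge, h1]; exact le_top⟩
    · obtain ⟨r, hr⟩ := WithTop.ne_top_iff_exists.1 h1
      have h2 := h j
      rw [Ge, ← hr, WithTop.coe_le_coe] at h2
      have h3 : -(m₀ * ((N : ℚ) - (j : ℕ))) < r := by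
        rcases lt_or_eq_of_le h2 with h4 | h4
        · exact h4
        · exact absurd (by rw [← hr, h4]) (hne j)
      refine ⟨max 0 (-r / ((N : ℚ) - (j : ℕ))), le_max_left _ _, max_lt hm₀ ?_, ?_⟩
      · rw [div_lt_iff₀ (hpos j)]
        linarith
      · rw [Ge, ← hr, WithTop.coe_le_coe]
        have h5 : -r / ((N : ℚ) - (j : ℕ)) ≤ max 0 (-r / ((N : ℚ) - (j : ℕ))) := le_max_right _ _
        rw [div_le_iff₀ (hpos j)] at h5
        linarith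
  have hfin : ∀ s : Finset (Fin N), ∃ m₁ : ℚ, 0 ≤ m₁ ∧ m₁ < m₀ ∧
      ∀ j ∈ s, Ge v (-(m₁ * ((N : ℚ) - (j : ℕ)))) (a j) := by
    intro s
    induction s using Finset.induction_on with
    | empty => exact ⟨0, le_refl _, hm₀, fun j hj => absurd hj (Finset.notMem_empty j)⟩
    | insert i s _ ih =>
      obtain ⟨m₁, h1, h2, h3⟩ := ih
      obtain ⟨m₂, h4, h5, h6⟩ := hone i
      refine ⟨max m₁ m₂, le_max_of_le_left h1, max_lt h2 h5, fun j hj => ?_⟩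
      rcases Finset.mem_insert.1 hj with rfl | hj
      · refine h6.mono (neg_le_neg ?_)
        exact mul_le_mul_of_nonneg_right (le_max_right _ _) (hpos j).le
      · refine (h3 j hj).mono (neg_le_neg ?_)
        exact mul_le_mul_of_nonneg_right (le_max_left _ _) (hpos j).le
  obtain ⟨m₁, h1, h2, h3⟩ := hfin Finset.univ
  exact ⟨m₁, h1, h2, fun j => h3 j (Finset.mem_univ j)⟩

private theorem DD_ne_zero (g : FK) : DD g ≠ 0 := by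
  intro h
  have h1 : DD g (CF (sp 1)) = 0 := by rw [h]; rfl
  rw [DD_CF] at h1
  have h2 : dK (sp 1) = 0 := CF_injective (by rw [h1, map_zero])
  have h3 : cofK (dK (sp 1)) 1 = 0 := by
    rw [h2]
    exact HahnSeries.coeff_zero
  rw [cofK_dK, cofK_sp, if_pos rfl] at h3
  norm_num at h3

namespace Dat

variable {n : ℕ} (Δ : Dat n)

theorem max_contra (i₀ : Fin n) (q₀ m₀ : ℚ) (hq₀ : 0 < q₀) (hm₀ : 0 < m₀)
    (hall : ∀ (i : Fin n) (q : ℚ), 0 ≤ q →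
      MBdd (gv (Δ.u i) q) (Pi.basisFun FK (Fin n)) m₀ (Δ.TD i) ∧
        MBdd (gv (Δ.u i) q) (Pi.basisFun FK (Fin n)) m₀ (Δ.Tth i))
    (hout : ∀ q : ℚ, 0 ≤ q → q < q₀ → ∃ m : ℚ, 0 ≤ m ∧ m < m₀ ∧
      MBdd (gv (Δ.u i₀) q) (Pi.basisFun FK (Fin n)) m (Δ.TD i₀) ∧
        MBdd (gv (Δ.u i₀) q) (Pi.basisFun FK (Fin n)) m (Δ.Tth i₀))
    (hexact : ∀ m : ℚ, 0 ≤ m → m < m₀ →
      ¬ (MBdd (gv (Δ.u i₀) q₀) (Pi.basisFun FK (Fin n)) m (Δ.TD i₀) ∧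
        MBdd (gv (Δ.u i₀) q₀) (Pi.basisFun FK (Fin n)) m (Δ.Tth i₀))) : False := by
  have hT : IsConn (DD (g0 (Δ.u i₀) q₀)) (Δ.T (g0 (Δ.u i₀) q₀)) := Δ.isConn_T _
  obtain ⟨e, a, hc⟩ := exists_cyc (DD_ne_zero _) hT
  have hpos : ∀ j : Fin (Module.finrank FK (Fin n → FK)),
      (0 : ℚ) < (Module.finrank FK (Fin n → FK) : ℚ) - (j : ℕ) := by
    intro j
    have h1 : ((j : ℕ) : ℚ) < Module.finrank FK (Fin n → FK) := by exact_mod_cast j.2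
    linarith
  -- bound at the point itself
  have h0 : MBdd (gv (Δ.u i₀) q₀) (Pi.basisFun FK (Fin n)) m₀ (Δ.T (g0 (Δ.u i₀) q₀)) :=
    Δ.out_dir i₀ q₀ q₀ hm₀.le (hall i₀ q₀ hq₀.le).1 (hall i₀ q₀ hq₀.le).2
  have h1 := ns_ge (gv_surj (Δ.u i₀) q₀) (derGe_out (Δ.u i₀) q₀ q₀) hT
    (Pi.basisFun FK (Fin n)) hc hm₀.le h0
  -- some coefficient is extremal
  obtain ⟨j, hj⟩ : ∃ j, gv (Δ.u i₀) q₀ (a j) =
      ((-(m₀ * ((Module.finrank FK (Fin n → FK) : ℚ) - (j : ℕ))) : ℚ) : WithTop ℚ) := by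
    by_contra hcon
    push Not at hcon
    obtain ⟨m₁, h2, h3, h4⟩ := max_gap a hm₀ h1 hcon
    have h5 := ns_le (gv_surj (Δ.u i₀) q₀) (derGe_out (Δ.u i₀) q₀ q₀) hT
      (Pi.basisFun FK (Fin n)) hc h2 h4
    have h6 : m₁ < (m₁ + m₀) / 2 := by linarith
    have h7 : (m₁ + m₀) / 2 < m₀ := by linarith
    exact hexact _ (by linarith) h7 (Δ.dom_TD i₀ q₀ h2 h6 h5)
  have hf : a j ≠ 0 := by
    intro h2
    rw [h2, (gv (Δ.u i₀) q₀).map_zero] at hj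
    exact WithTop.top_ne_coe hj
  obtain ⟨α, d, h2, h3, ε₁, h4, h5⟩ := harm (a j) hf (Δ.u i₀) q₀
  have hα : α = -(m₀ * ((Module.finrank FK (Fin n → FK) : ℚ) - (j : ℕ))) := by
    rw [h2] at hj
    exact WithTop.coe_eq_coe.1 hj
  -- the slopes in the inner directions are nonnegative
  have hd : ∀ c : ℂ, 0 ≤ d c := by
    intro c
    obtain ⟨ε₀, h6, h7⟩ := h3 c
    obtain ⟨ε, h8, h9, h10⟩ : ∃ ε : ℚ, 0 < ε ∧ ε < ε₀ ∧
        MBdd (gv (Δ.u i₀ + cK c * sp q₀) (q₀ + ε)) (Pi.basisFun FK (Fin n)) m₀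
          (Δ.T (g0 (Δ.u i₀) q₀)) := by
      by_cases hr : ∃ i, (q₀ : WithTop ℚ) < vK (Δ.u i - (Δ.u i₀ + cK c * sp q₀))
      · obtain ⟨i, hi⟩ := hr
        obtain ⟨ε, h8, h9, h10⟩ : ∃ ε : ℚ, 0 < ε ∧ ε < ε₀ ∧
            Ge vK (q₀ + ε) (Δ.u i - (Δ.u i₀ + cK c * sp q₀)) := by
          rcases eq_or_ne (vK (Δ.u i - (Δ.u i₀ + cK c * sp q₀))) ⊤ with h11 | h11
          · exact ⟨ε₀ / 2, by linarith, by linarith, by rw [Ge, h11]; exact le_top⟩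
          · obtain ⟨r, hr⟩ := WithTop.ne_top_iff_exists.1 h11
            rw [← hr, WithTop.coe_lt_coe] at hi
            refine ⟨min (ε₀ / 2) (r - q₀), lt_min (by linarith) (by linarith),
              lt_of_le_of_lt (min_le_left _ _) (by linarith), ?_⟩
            rw [Ge, ← hr, WithTop.coe_le_coe]
            have h12 := min_le_right (ε₀ / 2) (r - q₀)
            linarith
        exact ⟨ε, h8, h9, Δ.root_dir i₀ i q₀ (q₀ + ε) c h10 hm₀.le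
          (hall i (q₀ + ε) (by linarith)).1 (hall i (q₀ + ε) (by linarith)).2⟩
      · push Not at hr
        exact ⟨ε₀ / 2, by linarith, by linarith,
          Δ.nonroot (Δ.u i₀) (by linarith) c hr hm₀.le h0⟩
    have h11 := ns_ge (gv_surj (Δ.u i₀ + cK c * sp q₀) (q₀ + ε))
      (derGe_dir (Δ.u i₀) q₀ (q₀ + ε) c) hT (Pi.basisFun FK (Fin n)) hc hm₀.le h10 j
    rw [Ge, h7 ε h8 h9, ← hα, WithTop.coe_le_coe] at h11
    have h12 : (0 : ℚ) ≤ ε * (d c : ℚ) := by linarith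
    have h13 : (0 : ℚ) ≤ (d c : ℚ) := nonneg_of_mul_nonneg_right h12 h8
    exact_mod_cast h13
  have hsum : (0 : ℤ) ≤ d.sum fun _ k => k := by
    rw [Finsupp.sum]
    exact Finset.sum_nonneg fun c _ => hd c
  -- the outward direction
  have h6 : 0 < min (ε₁ / 2) q₀ := lt_min (by linarith) hq₀
  have h7 : min (ε₁ / 2) q₀ < ε₁ := lt_of_le_of_lt (min_le_left _ _) (by linarith)
  have h8 : min (ε₁ / 2) q₀ ≤ q₀ := min_le_right _ _
  set ε : ℚ := min (ε₁ / 2) q₀ with hε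
  obtain ⟨m', h9, h10, h11, h12⟩ := hout (q₀ - ε) (by linarith) (by linarith)
  have h13 := ns_ge (gv_surj (Δ.u i₀) (q₀ - ε)) (derGe_out (Δ.u i₀) q₀ (q₀ - ε)) hT
    (Pi.basisFun FK (Fin n)) hc h9 (Δ.out_dir i₀ q₀ (q₀ - ε) h9 h11 h12) j
  rw [Ge, h5 ε h6 h7, hα, WithTop.coe_le_coe] at h13
  have h14 : m' * ((Module.finrank FK (Fin n → FK) : ℚ) - (j : ℕ)) <
      m₀ * ((Module.finrank FK (Fin n → FK) : ℚ) - (j : ℕ)) :=
    mul_lt_mul_of_pos_right h10 (hpos j)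
  have h15 : (0 : ℚ) ≤ ((d.sum fun _ k => k : ℤ) : ℚ) := by exact_mod_cast hsum
  have h16 : 0 ≤ ε * ((d.sum fun _ k => k : ℤ) : ℚ) := mul_nonneg h6.le h15
  linarith

end Dat

end Pool.Agent.CVG
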