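import Pool.Agent.CVG.DatC
import Pool.Agent.CVG.ChB
import Pool.Agent.CVG.NR

/-!
# CVG-ANon: directions without roots

PLAN. `a' = a + c s^q`, so `gv a q = gv a' q` (`gv_center`). The iterates `T (g0 a q)^[k] (e_l)` have entries
`Rg u univ`; by `nr` (hypothesis `v (u j - a') ≤ q` for all `j`) the bounds at `gv a' q` persist at `gv a' q'`;
`mbdd_of_basis` with `DerGe (gv a' q') (DD (g0 a q))`: `derGe_DD` as
`g0 a q - g0 a' q' = (q - q') (lam - a')` because `dK a' = dK a + q c s^q` (`dK_sp`, `dK_cK`).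
`derGe_dir` and `derGe_out` are the `DerGe` statements used here and in `AMax`.
-/

open scoped BigOperators

namespace Pool.Agent.CVG

private theorem anon_dK (a : KK) (q : ℚ) (c : ℂ) :
    dK (a + cK c * sp q) = dK a + (q : KK) * (cK c * sp q) := by
  rw [map_add, Derivation.leibniz, dK_cK, dK_sp, smul_zero, add_zero, smul_eq_mul]
  ring

private theorem anon_g0 (a : KK) (q q' : ℚ) (c : ℂ) :
    g0 a q - g0 (a + cK c * sp q) q' =
      ((q - q' : ℚ) : FK) * (lam - CF (a + cK c * sp q)) := by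
  rw [g0, g0, anon_dK, map_add, map_add, map_mul CF (q : KK), CF_ratCast, Rat.cast_sub]
  ring

private theorem anon_ge (a : KK) (q : ℚ) : Ge (gv a q) q (lam - CF a) := by
  rw [Ge, gv_lam_sub, sub_self, AddValuation.map_zero]
  exact le_min le_rfl le_top

theorem derGe_dir (a : KK) (q q' : ℚ) (c : ℂ) :
    DerGe (gv (a + cK c * sp q) q') (DD (g0 a q)) := by
  refine derGe_DD _ _ _ ?_
  rw [anon_g0]
  have h := (Ge_gv_ratCast (a + cK c * sp q) q' (q - q')).mul (anon_ge (a + cK c * sp q) q')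
  rw [zero_add] at h
  exact h

theorem derGe_out (a : KK) (q q' : ℚ) : DerGe (gv a q') (DD (g0 a q)) := by
  have h := derGe_dir a q q' 0
  rw [map_zero, zero_mul, add_zero] at h
  exact h

namespace Dat

variable {n : ℕ} (Δ : Dat n)

private theorem anon_mulVec {M : Matrix (Fin n) (Fin n) FK} {x : Fin n → FK}
    (hM : ∀ i j, Rg Δ.u Finset.univ (M i j)) (hx : ∀ i, Rg Δ.u Finset.univ (x i)) (i : Fin n) :
    Rg Δ.u Finset.univ (M.mulVec x i) := by
  rw [Matrix.mulVec, dotProduct]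
  exact Rg.sum _ _ fun j _ => (hM i j).mul (hx j)

private theorem anon_g0Rg (a : KK) (q : ℚ) : Rg Δ.u Finset.univ (g0 a q) := by
  rw [g0]
  exact (Rg.CF _).add ((Rg.ratCast q).mul (Rg.lam.sub (Rg.CF _)))

private theorem anon_T {g : FK} (hg : Rg Δ.u Finset.univ g) {x : Fin n → FK}
    (hx : ∀ i, Rg Δ.u Finset.univ (x i)) (i : Fin n) :
    Rg Δ.u Finset.univ (Δ.T g x i) := by
  rw [T, T0, Td, Pi.add_apply, Pi.sub_apply, Pi.smul_apply, Pi.add_apply, smul_eq_mul]
  exact ((hx i).dl.sub (Δ.anon_mulVec Δ.RSB_Rg hx i)).add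
    (hg.mul ((hx i).dlam.add (Δ.anon_mulVec Δ.RB_Rg hx i)))

private theorem anon_iter {g : FK} (hg : Rg Δ.u Finset.univ g) (k : ℕ) {x : Fin n → FK}
    (hx : ∀ i, Rg Δ.u Finset.univ (x i)) (i : Fin n) :
    Rg Δ.u Finset.univ ((Δ.T g)^[k] x i) := by
  induction k generalizing i with
  | zero => exact hx i
  | succ k ih =>
    rw [Function.iterate_succ_apply']
    exact Δ.anon_T hg ih i

private theorem anon_basis (l i : Fin n) :
    Rg Δ.u Finset.univ (Pi.basisFun FK (Fin n) l i) := by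
  rw [Pi.basisFun_apply, Pi.single_apply]
  split_ifs
  · exact Rg.one
  · exact Rg.zero

theorem nonroot (a : KK) {q q' : ℚ} (hqq : q ≤ q') (c : ℂ)
    (hJ : ∀ j, vK (Δ.u j - (a + cK c * sp q)) ≤ (q : WithTop ℚ)) {m : ℚ} (hm : 0 ≤ m)
    (h : MBdd (gv a q) (Pi.basisFun FK (Fin n)) m (Δ.T (g0 a q))) :
    MBdd (gv (a + cK c * sp q) q') (Pi.basisFun FK (Fin n)) m (Δ.T (g0 a q)) := by
  have hc : gv a q = gv (a + cK c * sp q) q := by
    refine gv_center ?_
    have h1 : Ge vK (0 + q) (cK c * sp q) := (Ge_cK c).mul (le_of_eq (vK_sp q).symm)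
    rw [zero_add] at h1
    have e : a - (a + cK c * sp q) = -(cK c * sp q) := by ring
    rw [e]
    exact h1.neg
  obtain ⟨C, hC⟩ := h
  refine mbdd_of_basis _ (derGe_dir a q q' c) (Δ.isConn_T (g0 a q)) hm C ?_
  intro k l i
  have h2 := hC k (Pi.basisFun FK (Fin n) l) 0 (GE.self l) i
  rw [zero_sub, hc, Pi.basisFun_repr] at h2
  rw [Pi.basisFun_repr]
  exact nr hqq (fun j _ => hJ j)
    (Δ.anon_iter (Δ.anon_g0Rg a q) k (Δ.anon_basis l) i) h2

end Dat

end Pool.Agent.CVG
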