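import Pool.Agent.CVG.PLDefs

/-!
# CVG-PLA: closure properties of piecewise linear functions

PLAN. Sums: union of the breakpoint sets. Maximum of two: let `B = B₁ ∪ B₂`; for each pair `x < y` of
consecutive elements of `B` (and for the two unbounded pieces, where the affine formulas do not depend
on the bounded subinterval) `φ - ψ` is affine on the piece; add its zero, if there is exactly one. On an
interval `[a, b]` without new breakpoints in its interior, `φ - ψ` is affine and has no sign change, so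
`max φ ψ` is `φ` or `ψ`. (For the unbounded pieces: two affine functions which agree at two points are
equal.) It may be simpler to show: a finite minimum of affine functions is PL and to do the max of two
PL functions as described.
-/

open scoped BigOperators

namespace Pool.Agent.CVG

theorem IsPL.affine (α β : ℚ) : IsPL (fun x => α * x + β) :=
  ⟨∅, fun _ _ _ _ => ⟨α, β, fun _ _ _ => rfl⟩⟩

theorem IsPL.add {φ ψ : ℚ → ℚ} (h1 : IsPL φ) (h2 : IsPL ψ) : IsPL (fun x => φ x + ψ x) := by
  classical
  obtain ⟨B, hB⟩ := h1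
  obtain ⟨B', hB'⟩ := h2
  refine ⟨B ∪ B', fun a b hab h => ?_⟩
  obtain ⟨α, β, h1⟩ := hB a b hab fun x hx => h x (Finset.mem_union_left _ hx)
  obtain ⟨α', β', h2⟩ := hB' a b hab fun x hx => h x (Finset.mem_union_right _ hx)
  refine ⟨α + α', β + β', fun x hx hx' => ?_⟩
  simp only
  rw [h1 x hx hx', h2 x hx hx']
  ring

theorem IsPL.const_mul {φ : ℚ → ℚ} (h : IsPL φ) (c : ℚ) : IsPL (fun x => c * φ x) := by
  obtain ⟨B, hB⟩ := h
  refine ⟨B, fun a b hab h => ?_⟩
  obtain ⟨α, β, h1⟩ := hB a b hab h
  refine ⟨c * α, c * β, fun x hx hx' => ?_⟩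
  simp only
  rw [h1 x hx hx']
  ring

/-- zeros of `δ` which are not followed by an interval of zeros -/
private theorem zeros_finite {δ : ℚ → ℚ} {B : Finset ℚ}
    (hB : ∀ a b : ℚ, a ≤ b → (∀ x ∈ B, x ≤ a ∨ b ≤ x) →
      ∃ α β : ℚ, ∀ x, a ≤ x → x ≤ b → δ x = α * x + β) :
    {z : ℚ | δ z = 0 ∧ ∀ w, z < w → ∃ u, z < u ∧ u < w ∧ δ u ≠ 0}.Finite := by
  classical
  have key : ∀ z z' : ℚ, δ z = 0 → δ z' = 0 →
      (∀ w, z < w → ∃ u, z < u ∧ u < w ∧ δ u ≠ 0) → z < z' →
      B.filter (fun x => x ≤ z) ≠ B.filter (fun x => x ≤ z') := by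
    intro z z' h1 h2 h3 h4 h5
    obtain ⟨α, β, h6⟩ := hB z z' h4.le (by
      intro x hx
      by_contra hcon
      push Not at hcon
      have h7 : x ∈ B.filter (fun x => x ≤ z') := Finset.mem_filter.2 ⟨hx, hcon.2.le⟩
      rw [← h5] at h7
      exact absurd (Finset.mem_filter.1 h7).2 (not_le.2 hcon.1))
    obtain ⟨u, h7, h8, h9⟩ := h3 z' h4
    have e1 := h6 z le_rfl h4.le
    have e2 := h6 z' h4.le le_rfl
    have e3 := h6 u h7.le h8.le
    rw [h1] at e1
    rw [h2] at e2
    have e4 : α * (z' - z) = 0 := by linarith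
    have e5 : α = 0 := by
      rcases mul_eq_zero.1 e4 with h | h
      · exact h
      · linarith
    rw [e5] at e1 e3
    apply h9
    linarith
  refine Set.Finite.of_injOn (f := fun z => B.filter (fun x => x ≤ z)) (t := ↑B.powerset) ?_ ?_
    (Finset.finite_toSet _)
  · intro z _
    rw [Finset.mem_coe, Finset.mem_powerset]
    exact Finset.filter_subset _ _
  · rintro z ⟨h1, h2⟩ z' ⟨h3, h4⟩ h5
    rcases lt_trichotomy z z' with h | h | h
    · exact absurd h5 (key z z' h1 h3 h2 h)
    · exact h
    · exact absurd h5.symm (key z' z h3 h1 h4 h)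

theorem IsPL.max {φ ψ : ℚ → ℚ} (h1 : IsPL φ) (h2 : IsPL ψ) :
    IsPL (fun x => max (φ x) (ψ x)) := by
  classical
  have h3 : IsPL (fun x => φ x + (-1) * ψ x) := h1.add (h2.const_mul (-1))
  obtain ⟨B₁, hB₁⟩ := h1
  obtain ⟨B₂, hB₂⟩ := h2
  obtain ⟨B₃, hB₃⟩ := h3
  have hfin := zeros_finite hB₃
  refine ⟨(B₁ ∪ B₂) ∪ (B₃ ∪ hfin.toFinset), fun a b hab h => ?_⟩
  obtain ⟨α₁, β₁, h1⟩ := hB₁ a b hab fun x hx =>
    h x (Finset.mem_union_left _ (Finset.mem_union_left _ hx))
  obtain ⟨α₂, β₂, h2⟩ := hB₂ a b hab fun x hx =>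
    h x (Finset.mem_union_left _ (Finset.mem_union_right _ hx))
  have hZ : ∀ z, a < z → z < b → φ z + (-1) * ψ z = 0 →
      (∀ w, z < w → ∃ u, z < u ∧ u < w ∧ φ u + (-1) * ψ u ≠ 0) → False := by
    intro z hz hz' h4 h5
    have h6 : z ∈ hfin.toFinset := by
      rw [Set.Finite.mem_toFinset]
      exact ⟨h4, h5⟩
    rcases h z (Finset.mem_union_right _ (Finset.mem_union_right _ h6)) with h7 | h7
    · linarith
    · linarith
  have hsign : (∀ x, a ≤ x → x ≤ b → ψ x ≤ φ x) ∨ (∀ x, a ≤ x → x ≤ b → φ x ≤ ψ x) := by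
    rcases eq_or_ne α₁ α₂ with he | hne
    · rcases le_total β₂ β₁ with hb | hb
      · left
        intro x hx hx'
        rw [h1 x hx hx', h2 x hx hx', he]
        linarith
      · right
        intro x hx hx'
        rw [h1 x hx hx', h2 x hx hx', he]
        linarith
    · have hd : α₁ - α₂ ≠ 0 := sub_ne_zero.2 hne
      set z := (β₂ - β₁) / (α₁ - α₂) with hz
      have hz1 : (α₁ - α₂) * z = β₂ - β₁ := by
        rw [hz]
        field_simp
      have hdiff : ∀ x, a ≤ x → x ≤ b → φ x - ψ x = (α₁ - α₂) * (x - z) := by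
        intro x hx hx'
        rw [h1 x hx hx', h2 x hx hx', mul_sub, hz1]
        ring
      have hz2 : z ≤ a ∨ b ≤ z := by
        by_contra hcon
        push Not at hcon
        refine hZ z hcon.1 hcon.2 ?_ ?_
        · have := hdiff z hcon.1.le hcon.2.le
          rw [sub_self, mul_zero] at this
          linarith
        · intro w hw
          refine ⟨(z + Min.min w b) / 2, ?_, ?_, ?_⟩
          · have := lt_min hw hcon.2
            linarith
          · have h6 := min_le_left w b
            linarith [lt_min hw hcon.2]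
          · have h6 := lt_min hw hcon.2
            have h7 := min_le_right w b
            have h8 := hdiff ((z + Min.min w b) / 2) (by linarith [hcon.1]) (by linarith)
            intro h9
            have h10 : (α₁ - α₂) * ((z + Min.min w b) / 2 - z) = 0 := by linarith
            rcases mul_eq_zero.1 h10 with h11 | h11
            · exact hd h11
            · linarith
      rcases hz2 with hz2 | hz2 <;> rcases lt_or_gt_of_ne hd with hs | hs
      · right
        intro x hx hx'
        have := hdiff x hx hx'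
        nlinarith [mul_nonneg (neg_nonneg.2 hs.le) (by linarith : (0 : ℚ) ≤ x - z)]
      · left
        intro x hx hx'
        have := hdiff x hx hx'
        nlinarith [mul_nonneg hs.le (by linarith : (0 : ℚ) ≤ x - z)]
      · left
        intro x hx hx'
        have := hdiff x hx hx'
        nlinarith [mul_nonneg (neg_nonneg.2 hs.le) (by linarith : (0 : ℚ) ≤ z - x)]
      · right
        intro x hx hx'
        have := hdiff x hx hx'
        nlinarith [mul_nonneg hs.le (by linarith : (0 : ℚ) ≤ z - x)]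
  rcases hsign with hs | hs
  · refine ⟨α₁, β₁, fun x hx hx' => ?_⟩
    simp only
    rw [max_eq_left (hs x hx hx'), h1 x hx hx']
  · refine ⟨α₂, β₂, fun x hx hx' => ?_⟩
    simp only
    rw [max_eq_right (hs x hx hx'), h2 x hx hx']

theorem IsPL.min {φ ψ : ℚ → ℚ} (h1 : IsPL φ) (h2 : IsPL ψ) :
    IsPL (fun x => min (φ x) (ψ x)) := by
  have h3 := ((h1.const_mul (-1)).max (h2.const_mul (-1))).const_mul (-1)
  have h4 : (fun x => Min.min (φ x) (ψ x)) = fun x => -1 * Max.max (-1 * φ x) (-1 * ψ x) := by
    funext x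
    rcases le_total (φ x) (ψ x) with h | h
    · rw [min_eq_left h, max_eq_left (by linarith)]
      ring
    · rw [min_eq_right h, max_eq_right (by linarith)]
      ring
  rw [h4]
  exact h3

end Pool.Agent.CVG
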