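import Pool.Agent.CVG.GaussA
import Pool.Agent.CVG.PLA

/-!
# CVG-GaussPL: Gauss valuations depend piecewise linearly on the radius

PLAN. For a nonzero polynomial `P`, with `p_n = (taylor a P).coeff n`:
`gv a q (pF P) = min_{n, p_n ≠ 0} (v p_n + n q)` (from `Ge_gv_poly`), a finite minimum of affine functions
of `q`. For `f = pF P / pF Q` the value is the difference (`AddValuation.map_div`..., or
`gv f + gv Q = gv P`).
-/

open scoped BigOperators

namespace Pool.Agent.CVG

private theorem min_affine (v : ℕ → ℚ) (s : Finset ℕ) (hs : s.Nonempty) :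
    ∃ φ : ℚ → ℚ, IsPL φ ∧ (∀ q, ∀ n ∈ s, φ q ≤ v n + n * q) ∧
      ∀ q, ∃ n ∈ s, φ q = v n + n * q := by
  classical
  induction hs using Finset.Nonempty.cons_induction with
  | singleton k =>
    refine ⟨fun q => (k : ℚ) * q + v k, IsPL.affine _ _, ?_, ?_⟩
    · intro q n hn
      rw [Finset.mem_singleton] at hn
      subst hn
      rw [add_comm]
    · intro q
      exact ⟨k, Finset.mem_singleton_self k, by rw [add_comm]⟩
  | cons k s hk hs ih =>
    obtain ⟨φ, h1, h2, h3⟩ := ih
    refine ⟨fun q => min ((k : ℚ) * q + v k) (φ q), (IsPL.affine _ _).min h1, ?_, ?_⟩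
    · intro q n hn
      rw [Finset.mem_cons] at hn
      rcases hn with hn | hn
      · subst hn
        exact (min_le_left _ _).trans (by rw [add_comm])
      · exact (min_le_right _ _).trans (h2 q n hn)
    · intro q
      rcases le_total ((k : ℚ) * q + v k) (φ q) with h | h
      · exact ⟨k, Finset.mem_cons_self k s, (min_eq_left h).trans (add_comm _ _)⟩
      · obtain ⟨n, hn, h4⟩ := h3 q
        exact ⟨n, Finset.mem_cons_of_mem hn, (min_eq_right h).trans h4⟩

private theorem gv_PL_poly (a : KK) (P : Polynomial KK) (hP : P ≠ 0) :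
    ∃ φ : ℚ → ℚ, IsPL φ ∧ ∀ q, gv a q (pF P) = (φ q : WithTop ℚ) := by
  classical
  have hT : Polynomial.taylor a P ≠ 0 := fun h1 =>
    hP (Polynomial.taylor_injective a (by rw [h1, map_zero]))
  have hv : ∀ n : ℕ, ∃ r : ℚ, n ∈ (Polynomial.taylor a P).support →
      vK ((Polynomial.taylor a P).coeff n) = (r : WithTop ℚ) := by
    intro n
    by_cases hn : n ∈ (Polynomial.taylor a P).support
    · have h1 : vK ((Polynomial.taylor a P).coeff n) ≠ ⊤ := by
        intro h2
        exact (Polynomial.mem_support_iff.1 hn) (vK.top_iff.1 h2)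
      obtain ⟨r, hr⟩ := WithTop.ne_top_iff_exists.1 h1
      exact ⟨r, fun _ => hr.symm⟩
    · exact ⟨0, fun h => absurd h hn⟩
  choose v hv using hv
  obtain ⟨φ, h1, h2, h3⟩ := min_affine v (Polynomial.taylor a P).support
    (Polynomial.support_nonempty.2 hT)
  refine ⟨φ, h1, fun q => ?_⟩
  have h0 : pF P ≠ 0 := fun h4 => hP (pF_injective (h4.trans (map_zero pF).symm))
  obtain ⟨r, hr⟩ := exists_gv a q h0
  have h4 : Ge (gv a q) (φ q) (pF P) := by
    refine (Ge_gv_poly a q _ P).2 fun n => ?_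
    by_cases hn : n ∈ (Polynomial.taylor a P).support
    · unfold Ge
      rw [hv n hn, WithTop.coe_le_coe]
      linarith [h2 q n hn]
    · rw [Polynomial.notMem_support_iff.1 hn]
      exact Ge.zero
  obtain ⟨k, hk, h5⟩ := h3 q
  have h6 : Ge vK (r - k * q) ((Polynomial.taylor a P).coeff k) :=
    (Ge_gv_poly a q r P).1 (le_of_eq hr.symm) k
  unfold Ge at h4 h6
  rw [hr, WithTop.coe_le_coe] at h4
  rw [hv k hk, WithTop.coe_le_coe] at h6
  rw [hr, WithTop.coe_eq_coe]
  linarith

theorem gv_PL (a : KK) (f : FK) (hf : f ≠ 0) :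
    ∃ φ : ℚ → ℚ, IsPL φ ∧ ∀ q, gv a q f = (φ q : WithTop ℚ) := by
  obtain ⟨P, Q, hQ, rfl⟩ := FK_surj f
  have hP : P ≠ 0 := by
    rintro rfl
    exact hf (by rw [map_zero, zero_div])
  have hQ0 : pF Q ≠ 0 := fun h1 => hQ (pF_injective (h1.trans (map_zero pF).symm))
  have hmul : pF P / pF Q * pF Q = pF P := div_mul_cancel₀ _ hQ0
  obtain ⟨φ, h1, h2⟩ := gv_PL_poly a P hP
  obtain ⟨ψ, g1, g2⟩ := gv_PL_poly a Q hQ
  refine ⟨fun q => φ q + (-1) * ψ q, h1.add (g1.const_mul (-1)), fun q => ?_⟩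
  have h3 : gv a q (pF P / pF Q) + gv a q (pF Q) = gv a q (pF P) := by
    rw [← (gv a q).map_mul, hmul]
  rw [h2, g2] at h3
  cases h4 : gv a q (pF P / pF Q) with
  | top => rw [h4, WithTop.top_add] at h3; exact absurd h3 (WithTop.top_ne_coe)
  | coe z =>
    rw [h4, ← WithTop.coe_add, WithTop.coe_eq_coe] at h3
    rw [WithTop.coe_eq_coe]
    linarith

end Pool.Agent.CVG
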