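import Pool.Agent.CVG.ALeaf
import Pool.Agent.CVG.CV
import Pool.Agent.CVG.NS
import Pool.Agent.CVG.NS2
import Pool.Agent.CVG.GaussPL

/-!
# CVG-APhi: the slope function of a root

PLAN. Cyclic vectors (`exists_cyc`) of `TD i` over `DD (CF (dK (u i)))` (nonzero: `CF (sp 1)` is not killed, `dK_sp`)
and of `Tth i` over `(lam - u_i) • dlam` (nonzero on `lam`), with coefficients `a_j`, `a'_j` (`j < n`,
`n = finrank`). By `ns_le`, `ns_ge` (`derGe_TD`, `derGe_Tth`, `gv_surj`), for `m ≥ 0`: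
`MBdd .. m (TD i) ↔ ∀ j, Ge (gv (u i) q) (-(m (n-j))) (a_j)`, i.e. for all `j` with `a_j ≠ 0`:
`-gv (u i) q (a_j)/(n-j) ≤ m`. By `gv_PL` the left sides are PL in `q`; `φ` = maximum of `0` and all of them
(`IsPL.max`, `IsPL.const_mul`, `IsPL.affine`; induction over a finite set).
-/

open scoped BigOperators

namespace Pool.Agent.CVG

/-- the condition of one coefficient -/
private theorem coef_phi (a : KK) (f : FK) {c : ℚ} (hc : 0 < c) :
    ∃ ψ : ℚ → ℚ, IsPL ψ ∧ (∀ q, 0 ≤ ψ q) ∧ ∀ q m : ℚ, 0 ≤ m →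
      (ψ q ≤ m ↔ Ge (gv a q) (-(m * c)) f) := by
  by_cases hf : f = 0
  · refine ⟨fun _ => 0, ?_, fun _ => le_refl _, fun q m hm => ?_⟩
    · have h := IsPL.affine 0 0
      have e : (fun x : ℚ => (0 : ℚ) * x + 0) = fun _ => 0 := by
        funext x
        ring
      rw [e] at h
      exact h
    · rw [hf]
      exact ⟨fun _ => Ge.zero, fun _ => hm⟩
  · obtain ⟨φ, h1, h2⟩ := gv_PL a f hf
    refine ⟨fun q => max 0 (-(1 / c) * φ q), ?_, fun q => le_max_left _ _, fun q m hm => ?_⟩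
    · have h := IsPL.affine 0 0
      have e : (fun x : ℚ => (0 : ℚ) * x + 0) = fun _ => 0 := by
        funext x
        ring
      rw [e] at h
      exact h.max (h1.const_mul (-(1 / c)))
    · unfold Ge
      rw [h2 q, WithTop.coe_le_coe]
      constructor
      · intro h
        have h3 : -(1 / c) * φ q ≤ m := (le_max_right _ _).trans h
        have h4 := mul_le_mul_of_nonneg_right h3 hc.le
        have h5 : -(1 / c) * φ q * c = - φ q := by
          field_simp
        rw [h5] at h4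
        linarith
      · intro h
        refine max_le hm ?_
        have h5 : -(1 / c) * φ q = (- φ q) / c := by
          field_simp
        rw [h5, div_le_iff₀ hc]
        linarith

/-- finite maxima -/
private theorem max_phi {ι : Type*} (ψ : ι → ℚ → ℚ) (h1 : ∀ j, IsPL (ψ j)) (s : Finset ι) :
    ∃ φ : ℚ → ℚ, IsPL φ ∧ (∀ q, 0 ≤ φ q) ∧ ∀ q m : ℚ, 0 ≤ m →
      (φ q ≤ m ↔ ∀ j ∈ s, ψ j q ≤ m) := by
  classical
  induction s using Finset.induction_on with
  | empty =>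
    refine ⟨fun _ => 0, ?_, fun _ => le_refl _, fun q m hm => ?_⟩
    · have h := IsPL.affine 0 0
      have e : (fun x : ℚ => (0 : ℚ) * x + 0) = fun _ => 0 := by
        funext x
        ring
      rw [e] at h
      exact h
    · exact ⟨fun _ j hj => absurd hj (Finset.notMem_empty j), fun _ => hm⟩
  | insert k s hk ih =>
    obtain ⟨φ, g1, g2, g3⟩ := ih
    refine ⟨fun q => max (ψ k q) (φ q), (h1 k).max g1, fun q => (g2 q).trans (le_max_right _ _),
      fun q m hm => ?_⟩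
    rw [max_le_iff, g3 q m hm]
    constructor
    · rintro ⟨h3, h4⟩ j hj
      rw [Finset.mem_insert] at hj
      rcases hj with rfl | hj
      · exact h3
      · exact h4 j hj
    · intro h
      exact ⟨h k (Finset.mem_insert_self k s), fun j hj => h j (Finset.mem_insert_of_mem hj)⟩

/-- the slope function of one connection -/
private theorem conn_phi (a : KK) {n : ℕ} {D : Derivation ℤ FK FK} {T : (Fin n → FK) → Fin n → FK}
    (hne : D ≠ 0) (hT : IsConn D T) (hD : ∀ q, DerGe (gv a q) D) :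
    ∃ φ : ℚ → ℚ, IsPL φ ∧ (∀ q, 0 ≤ φ q) ∧ ∀ q m : ℚ, 0 ≤ m →
      (φ q ≤ m ↔ MBdd (gv a q) (Pi.basisFun FK (Fin n)) m T) := by
  obtain ⟨e, c, hc⟩ := exists_cyc hne hT
  have hpos : ∀ j : Fin (Module.finrank FK (Fin n → FK)),
      (0 : ℚ) < ((Module.finrank FK (Fin n → FK) : ℕ) : ℚ) - ((j : ℕ) : ℚ) := by
    intro j
    have h : ((j : ℕ) : ℚ) < ((Module.finrank FK (Fin n → FK) : ℕ) : ℚ) := by
      exact_mod_cast j.2
    linarith
  choose ψ h1 h2 h3 using fun j => coef_phi a (c j) (hpos j)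
  obtain ⟨φ, g1, g2, g3⟩ := max_phi ψ h1 Finset.univ
  refine ⟨φ, g1, g2, fun q m hm => ?_⟩
  rw [g3 q m hm]
  constructor
  · intro h
    exact ns_le (gv_surj a q) (hD q) hT (Pi.basisFun FK (Fin n)) hc hm
      (fun j => (h3 j q m hm).1 (h j (Finset.mem_univ j)))
  · intro h j _
    exact (h3 j q m hm).2 (ns_ge (gv_surj a q) (hD q) hT (Pi.basisFun FK (Fin n)) hc hm h j)

namespace Dat

variable {n : ℕ} (Δ : Dat n)

theorem exists_phi (i : Fin n) :
    ∃ φ : ℚ → ℚ, IsPL φ ∧ (∀ q, 0 ≤ φ q) ∧ ∀ q m : ℚ, 0 ≤ m →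
      (φ q ≤ m ↔ MBdd (gv (Δ.u i) q) (Pi.basisFun FK (Fin n)) m (Δ.TD i) ∧
        MBdd (gv (Δ.u i) q) (Pi.basisFun FK (Fin n)) m (Δ.Tth i)) := by
  have hne1 : DD (CF (dK (Δ.u i))) ≠ 0 := by
    intro h
    have h1 : DD (CF (dK (Δ.u i))) (CF (sp 1)) = 0 := by
      rw [h]
      rfl
    rw [DD_CF, dK_sp, Rat.cast_one, one_mul] at h1
    have h2 : sp 1 = 0 := CF.injective (h1.trans (map_zero CF).symm)
    have h3 := vK_sp 1
    rw [h2, vK.map_zero] at h3
    exact WithTop.coe_ne_top h3.symm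
  have hne2 : (lam - CF (Δ.u i)) • dlam ≠ 0 := by
    intro h
    have h0 : lam - CF (Δ.u i) ≠ 0 := by
      intro h1
      have h2 : dlam (lam - CF (Δ.u i)) = 0 := by rw [h1, map_zero]
      rw [map_sub, dlam_lam, dlam_CF, sub_zero] at h2
      exact one_ne_zero h2
    have h1 : ((lam - CF (Δ.u i)) • dlam) lam = 0 := by
      rw [h]
      rfl
    rw [Derivation.smul_apply, dlam_lam, smul_eq_mul, mul_one] at h1
    exact h0 h1
  obtain ⟨φ₁, h1, h2, h3⟩ := conn_phi (Δ.u i) hne1 (Δ.isConn_TD i) (fun q => Δ.derGe_TD i q)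
  obtain ⟨φ₂, g1, g2, g3⟩ := conn_phi (Δ.u i) hne2 (Δ.isConn_Tth i) (fun q => Δ.derGe_Tth i q)
  refine ⟨fun q => max (φ₁ q) (φ₂ q), h1.max g1, fun q => (h2 q).trans (le_max_left _ _),
    fun q m hm => ?_⟩
  rw [max_le_iff, h3 q m hm, g3 q m hm]

end Dat

end Pool.Agent.CVG
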