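import Pool.Agent.CVG.PLDefs

/-!
# CVG-PLB: the outermost maximal point

PLAN. Put `B` = the union of the breakpoint sets with `0` and `Q`, restricted to `[0, Q]`. On the finite
set `B × Fin n` take the maximum `m₀` of `φ i q`; between consecutive points of `B` each `φ i` is affine,
so `φ i q ≤ m₀` on `[0, Q]`, and for `q ≥ Q` by hypothesis. `m₀ > 0` since some value is positive. Let
`q₀` be the smallest element of `B` at which some `φ i` equals `m₀`; `q₀ > 0` as `φ i 0 ≤ 0`. If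
`q < q₀`, `φ i q = m₀`, then `q` lies between consecutive points `b < b'` of `B`, `b' ≤ q₀`, `φ i` is affine
and `≤ m₀` on `[b, b']` with value `m₀` at `q`: if `q ≠ b` (and `q < b'`) it is constant there, so
`φ i b = m₀`, contradicting the choice of `q₀`.
-/

open scoped BigOperators

namespace Pool.Agent.CVG

private theorem affine_max {f : ℚ → ℚ} {b b' α β x m : ℚ} (h1 : b ≤ x) (h2 : x ≤ b')
    (hf : ∀ y, b ≤ y → y ≤ b' → f y = α * y + β) (hb : f b ≤ m) (hb' : f b' ≤ m) : f x ≤ m := by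
  rw [hf b le_rfl (h1.trans h2)] at hb
  rw [hf b' (h1.trans h2) le_rfl] at hb'
  rw [hf x h1 h2]
  rcases le_total 0 α with h | h <;> nlinarith

theorem outermost_max {ι : Type*} [Finite ι] (φ : ι → ℚ → ℚ) (hφ : ∀ i, IsPL (φ i)) (Q : ℚ)
    (hQ : 0 ≤ Q) (h0 : ∀ i, φ i 0 ≤ 0) (hQ' : ∀ i q, Q ≤ q → φ i q ≤ φ i Q)
    (hpos : ∃ i q, 0 ≤ q ∧ 0 < φ i q) :
    ∃ (i₀ : ι) (q₀ m₀ : ℚ), 0 < q₀ ∧ 0 < m₀ ∧ φ i₀ q₀ = m₀ ∧ (∀ i q, 0 ≤ q → φ i q ≤ m₀) ∧
      ∀ i q, 0 ≤ q → q < q₀ → φ i q < m₀ := by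
  classical
  have : Fintype ι := Fintype.ofFinite ι
  choose B hB using hφ
  set C : Finset ℚ := (Finset.univ.biUnion B ∪ {0, Q}).filter fun x => 0 ≤ x ∧ x ≤ Q with hC
  have h0C : (0 : ℚ) ∈ C := by
    rw [hC, Finset.mem_filter]
    exact ⟨Finset.mem_union_right _ (by simp), le_rfl, hQ⟩
  have hQC : Q ∈ C := by
    rw [hC, Finset.mem_filter]
    exact ⟨Finset.mem_union_right _ (by simp), hQ, le_rfl⟩
  have hCb : ∀ b ∈ C, 0 ≤ b ∧ b ≤ Q := fun b hb => (Finset.mem_filter.1 hb).2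
  have piece : ∀ x, 0 ≤ x → x ≤ Q → ∃ b ∈ C, ∃ b' ∈ C, b ≤ x ∧ x ≤ b' ∧
      ∀ i, ∃ α β : ℚ, ∀ y, b ≤ y → y ≤ b' → φ i y = α * y + β := by
    intro x hx hxQ
    have hne : (C.filter fun y => y ≤ x).Nonempty := ⟨0, Finset.mem_filter.2 ⟨h0C, hx⟩⟩
    have hne' : (C.filter fun y => x ≤ y).Nonempty := ⟨Q, Finset.mem_filter.2 ⟨hQC, hxQ⟩⟩
    obtain ⟨hb1, hb2⟩ := Finset.mem_filter.1 (Finset.max'_mem _ hne)
    obtain ⟨hb1', hb2'⟩ := Finset.mem_filter.1 (Finset.min'_mem _ hne')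
    refine ⟨_, hb1, _, hb1', hb2, hb2', fun i => ?_⟩
    refine hB i _ _ (hb2.trans hb2') fun y hy => ?_
    by_contra hcon
    rw [not_or, not_le, not_le] at hcon
    have hyC : y ∈ C := by
      rw [hC, Finset.mem_filter]
      refine ⟨Finset.mem_union_left _ (Finset.mem_biUnion.2 ⟨i, Finset.mem_univ i, hy⟩), ?_, ?_⟩
      · exact (hCb _ hb1).1.trans hcon.1.le
      · exact hcon.2.le.trans (hCb _ hb1').2
    rcases le_total y x with h | h
    · exact absurd (Finset.le_max' _ y (Finset.mem_filter.2 ⟨hyC, h⟩)) (not_le.2 hcon.1)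
    · exact absurd (Finset.min'_le _ y (Finset.mem_filter.2 ⟨hyC, h⟩)) (not_le.2 hcon.2)
  obtain ⟨i₁, q₁, hq₁, hpos₁⟩ := hpos
  have hprod : (Finset.univ ×ˢ C : Finset (ι × ℚ)).Nonempty :=
    ⟨(i₁, 0), Finset.mem_product.2 ⟨Finset.mem_univ _, h0C⟩⟩
  obtain ⟨⟨i₂, q₂⟩, hmem₂, hmax⟩ := Finset.exists_max_image (Finset.univ ×ˢ C : Finset (ι × ℚ))
    (fun p => φ p.1 p.2) hprod
  set m₀ := φ i₂ q₂ with hm₀
  have hmaxC : ∀ i, ∀ b ∈ C, φ i b ≤ m₀ := fun i b hb =>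
    hmax (i, b) (Finset.mem_product.2 ⟨Finset.mem_univ _, hb⟩)
  have hmaxall : ∀ i q, 0 ≤ q → φ i q ≤ m₀ := by
    intro i q hq
    rcases le_total q Q with h | h
    · obtain ⟨b, hb, b', hb', h1, h2, h3⟩ := piece q hq h
      obtain ⟨α, β, h4⟩ := h3 i
      exact affine_max h1 h2 h4 (hmaxC i b hb) (hmaxC i b' hb')
    · exact (hQ' i q h).trans (hmaxC i Q hQC)
  have hm₀pos : 0 < m₀ := lt_of_lt_of_le hpos₁ (hmaxall i₁ q₁ hq₁)
  have hne : (C.filter fun b => ∃ i, φ i b = m₀).Nonempty :=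
    ⟨q₂, Finset.mem_filter.2 ⟨(Finset.mem_product.1 hmem₂).2, i₂, rfl⟩⟩
  obtain ⟨hq₀C, i₀, hi₀⟩ := Finset.mem_filter.1 (Finset.min'_mem _ hne)
  set q₀ := (C.filter fun b => ∃ i, φ i b = m₀).min' hne with hq₀
  have hmin : ∀ b ∈ C, b < q₀ → ∀ i, φ i b ≠ m₀ := by
    intro b hb hlt i h
    exact absurd (Finset.min'_le _ b (Finset.mem_filter.2 ⟨hb, i, h⟩)) (not_le.2 hlt)
  refine ⟨i₀, q₀, m₀, ?_, hm₀pos, hi₀, hmaxall, ?_⟩
  · refine lt_of_le_of_ne (hCb _ hq₀C).1 fun h => ?_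
    rw [← h] at hi₀
    have := h0 i₀
    linarith
  · intro i q hq hlt
    refine lt_of_le_of_ne (hmaxall i q hq) fun h => ?_
    obtain ⟨b, hb, b', hb', h1, h2, h3⟩ := piece q hq (hlt.le.trans (hCb _ hq₀C).2)
    obtain ⟨α, β, h4⟩ := h3 i
    rcases h1.eq_or_lt with h5 | h5
    · exact hmin b hb (h5 ▸ hlt) i (h5 ▸ h)
    rcases h2.eq_or_lt with h6 | h6
    · exact hmin b' hb' (h6 ▸ hlt) i (h6 ▸ h)
    have h7 := hmaxC i b hb
    have h8 := hmaxC i b' hb'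
    rw [h4 b le_rfl (h1.trans h2)] at h7
    rw [h4 b' (h1.trans h2) le_rfl] at h8
    rw [h4 q h1 h2] at h
    have h9 : 0 ≤ α := by
      by_contra h10
      rw [not_le] at h10
      nlinarith
    have h10 : α ≤ 0 := by
      by_contra h11
      rw [not_le] at h11
      nlinarith
    have h11 : α = 0 := le_antisymm h10 h9
    refine hmin b hb (h5.trans hlt) i ?_
    rw [h4 b le_rfl (h1.trans h2), h11]
    rw [h11] at h
    linarith

end Pool.Agent.CVG
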