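import Pool.Agent.CVG.AZero
import Pool.Agent.CVG.APhi
import Pool.Agent.CVG.AMax
import Pool.Agent.CVG.PLB

/-!
# CVG-AReg: the connection is regular at all discs around roots

Suppose not. Take the functions `φ i` from `exists_phi`. `φ i 0 ≤ 0` by `reg_zero`. Let `Q ≥ 0` be a
rational number with `v (u j - u i) ≤ Q` for all `i ≠ j` (`exists_vK`); for `q ≥ Q`, `φ i q ≤ φ i Q` by
`leaf_mono` (with `m = φ i Q`). Some `φ i q > 0`, `q ≥ 0`, by assumption. `outermost_max` gives `i₀, q₀, m₀`;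
translate with the equivalence and apply `max_contra` (`hout` with `m = φ i₀ q`; `hexact`: `φ i₀ q₀ = m₀ ≤ m`
would follow).
-/

open scoped BigOperators

namespace Pool.Agent.CVG

namespace Dat

variable {n : ℕ} (Δ : Dat n)

private theorem AReg_exists_Q : ∃ Q : ℚ, 0 ≤ Q ∧
    ∀ i j, j ≠ i → vK (Δ.u j - Δ.u i) ≤ (Q : WithTop ℚ) := by
  classical
  have h : ∀ p : Fin n × Fin n, ∃ q : ℚ, p.2 ≠ p.1 →
      vK (Δ.u p.2 - Δ.u p.1) ≤ (q : WithTop ℚ) := by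
    intro p
    by_cases hp : p.2 = p.1
    · exact ⟨0, fun h => absurd hp h⟩
    · obtain ⟨q, hq⟩ := exists_vK (sub_ne_zero.2 fun h => hp (Δ.inj h))
      exact ⟨q, fun _ => hq.le⟩
  choose f hf using h
  obtain ⟨M, hM⟩ := Finset.exists_le (Finset.univ.image f)
  refine ⟨max M 0, le_max_right _ _, fun i j hij => ?_⟩
  refine (hf (i, j) hij).trans ?_
  exact WithTop.coe_le_coe.2 ((hM _ (Finset.mem_image_of_mem f (Finset.mem_univ (i, j)))).trans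
    (le_max_left _ _))

theorem reg (i : Fin n) (q : ℚ) (hq : 0 ≤ q) :
    MBdd (gv (Δ.u i) q) (Pi.basisFun FK (Fin n)) 0 (Δ.TD i) ∧
      MBdd (gv (Δ.u i) q) (Pi.basisFun FK (Fin n)) 0 (Δ.Tth i) := by
  have hex := fun i => Δ.exists_phi i
  choose φ hφ using hex
  by_contra hcon
  have hpos : 0 < φ i q := by
    by_contra h
    exact hcon (((hφ i).2.2 q 0 le_rfl).1 (not_lt.1 h))
  obtain ⟨Q, hQ, hQv⟩ := Δ.AReg_exists_Q
  have h0 : ∀ i, φ i 0 ≤ 0 := fun i => ((hφ i).2.2 0 0 le_rfl).2 (Δ.reg_zero i)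
  have hQ' : ∀ i q, Q ≤ q → φ i q ≤ φ i Q := by
    intro i q hq
    have hm := (hφ i).2.1 Q
    have h1 := ((hφ i).2.2 Q (φ i Q) hm).1 le_rfl
    have h2 := Δ.leaf_mono i hq (fun j hj => hQv i j hj) hm
    exact ((hφ i).2.2 q (φ i Q) hm).2 ⟨h2.1 h1.1, h2.2 h1.2⟩
  obtain ⟨i₀, q₀, m₀, hq₀, hm₀, heq, hall, hout⟩ :=
    outermost_max φ (fun i => (hφ i).1) Q hQ h0 hQ' ⟨i, q, hq, hpos⟩
  refine Δ.max_contra i₀ q₀ m₀ hq₀ hm₀ ?_ ?_ ?_
  · intro i q hq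
    exact ((hφ i).2.2 q m₀ hm₀.le).1 (hall i q hq)
  · intro q hq hlt
    exact ⟨φ i₀ q, (hφ i₀).2.1 q, hout i₀ q hq hlt,
      ((hφ i₀).2.2 q (φ i₀ q) ((hφ i₀).2.1 q)).1 le_rfl⟩
  · intro m hm hlt h
    have h1 := ((hφ i₀).2.2 q₀ m hm).2 h
    rw [heq] at h1
    exact absurd h1 (not_le.2 hlt)

end Dat

end Pool.Agent.CVG
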