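import Pool.Agent.CVG.DatC
import Pool.Agent.CVG.ChB

/-!
# CVG-AZero: regularity at the unit disc

PLAN. `gv (u i) 0 = gv 0 0` (`gv_center`, `u_ge`). `DerGe (gv 0 0) (DD (CF (dK (u i))))` and of
`(lam - CF (u i)) • dlam` (`derGe_DD`, `derGe_dlam`; `Ge (gv 0 0) 0 (lam - CF (u i))` by `gv_lam_sub`). The
matrices `RB`, `RSB` have entries `Ge (gv 0 0) 0` by `R_ge`, `B_ge`, `S_ge`; `CF (dK (u i))` too (`dK_ge`). So
`TD i (e_k) = (-RSB + CF (dK (u i)) RB) e_k` is `≥ 0`: `mbdd_of_step` with `m = 0`.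
-/

open scoped BigOperators

namespace Pool.Agent.CVG

namespace Dat

variable {n : ℕ} (Δ : Dat n)

private theorem az_mul {v : AddValuation FK (WithTop ℚ)} {X Y : Matrix (Fin n) (Fin n) FK}
    (hX : ∀ i j, Ge v 0 (X i j)) (hY : ∀ i j, Ge v 0 (Y i j)) (i j : Fin n) :
    Ge v 0 ((X * Y) i j) := by
  rw [Matrix.mul_apply]
  refine Ge.sum _ _ fun k _ => ?_
  have h := (hX i k).mul (hY k j)
  rwa [add_zero] at h

private theorem az_CF (a : KK) (q : ℚ) {X : Matrix (Fin n) (Fin n) KK}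
    (hX : ∀ i j, Ge vK 0 (X i j)) (i j : Fin n) : Ge (gv a q) 0 ((X.map CF) i j) := by
  rw [Matrix.map_apply]
  exact Ge_gv_CF.2 (hX i j)

private theorem az_RB (i j : Fin n) : Ge (gv 0 0) 0 (Δ.RB i j) :=
  az_mul Δ.R_ge (az_CF 0 0 Δ.B_ge) i j

private theorem az_RSB (i j : Fin n) : Ge (gv 0 0) 0 (Δ.RSB i j) :=
  az_mul (fun a b => az_mul Δ.R_ge (az_CF 0 0 Δ.S_ge) a b) (az_CF 0 0 Δ.B_ge) i j

private theorem az_gv (i : Fin n) : gv (Δ.u i) 0 = gv 0 0 :=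
  gv_center (by rw [sub_zero]; exact Δ.u_ge i)

private theorem az_bas (k j : Fin n) : (Pi.basisFun FK (Fin n)) k j = if j = k then 1 else 0 := by
  rw [Pi.basisFun_apply, Pi.single_apply]

private theorem az_der (D : Derivation ℤ FK FK) (k j : Fin n) :
    D ((Pi.basisFun FK (Fin n)) k j) = 0 := by
  rw [az_bas]
  split_ifs
  · exact D.map_one_eq_zero
  · exact map_zero D

private theorem az_mulVec {v : AddValuation FK (WithTop ℚ)} {X : Matrix (Fin n) (Fin n) FK}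
    (hX : ∀ i j, Ge v 0 (X i j)) (k j : Fin n) :
    Ge v 0 (X.mulVec ((Pi.basisFun FK (Fin n)) k) j) := by
  rw [Pi.basisFun_apply, Matrix.mulVec_single_one, Matrix.col_apply]
  exact hX j k

private theorem az_Td (k : Fin n) (j : Fin n) :
    Ge (gv 0 0) 0 (Δ.Td ((Pi.basisFun FK (Fin n)) k) j) := by
  rw [Td, Pi.add_apply, az_der, zero_add]
  exact az_mulVec Δ.az_RB k j

private theorem az_T0 (k : Fin n) (j : Fin n) :
    Ge (gv 0 0) 0 (Δ.T0 ((Pi.basisFun FK (Fin n)) k) j) := by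
  rw [T0, Pi.sub_apply, az_der, zero_sub]
  exact (az_mulVec Δ.az_RSB k j).neg

theorem reg_zero (i : Fin n) :
    MBdd (gv (Δ.u i) 0) (Pi.basisFun FK (Fin n)) 0 (Δ.TD i) ∧
      MBdd (gv (Δ.u i) 0) (Pi.basisFun FK (Fin n)) 0 (Δ.Tth i) := by
  constructor
  · refine mbdd_of_step _ (derGe_DD (Δ.u i) 0 (CF (dK (Δ.u i))) ?_) (Δ.isConn_TD i) le_rfl ?_
    · rw [g0, Rat.cast_zero, zero_mul, add_zero, sub_self]
      exact Ge.zero
    · intro k j
      rw [Pi.basisFun_repr, neg_zero, az_gv, TD, T, Pi.add_apply, Pi.smul_apply, smul_eq_mul]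
      refine (Δ.az_T0 k j).add ?_
      have h1 : Ge (gv 0 0) 0 (CF (dK (Δ.u i))) := Ge_gv_CF.2 (dK_ge _ _ (Δ.u_ge i))
      have h2 := h1.mul (Δ.az_Td k j)
      rwa [add_zero] at h2
  · have h0 : Ge (gv (Δ.u i) 0) 0 (lam - CF (Δ.u i)) := by
      rw [Ge, gv_lam_sub, sub_self, vK.map_zero]
      exact le_min le_rfl le_top
    refine mbdd_of_step _ (derGe_dlam (Δ.u i) 0 _ h0) (Δ.isConn_Tth i) le_rfl ?_
    intro k j
    rw [az_gv] at h0
    rw [Pi.basisFun_repr, neg_zero, az_gv, Tth, Pi.smul_apply, smul_eq_mul]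
    have h2 := h0.mul (Δ.az_Td k j)
    rwa [add_zero] at h2

end Dat

end Pool.Agent.CVG
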