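import Pool.Agent.CVG.WBMul

/-!
# CVG-BB: formal solutions of Briot-Bouquet systems converge

PLAN. Let `z_k ∈ ι → ℂ` be the coefficient vectors of `Z`, `z_0 = 0`, `d₀ = constantCoeff (coeff 0 Dp) ≠ 0`,
`L` the constant matrix `L_{ij} = constantCoeff (coeff (single j 1) (Fp i))`. Coefficient `k` of the
equation `i`:
  `(k d₀ - L) z_k = -[ (Dp(Z) - d₀) * X Z' ]_k + [ Fp(Z) - L Z ]_k`.
Here `Dp(Z) - d₀ = ∑_α (coeff α Dp - [α=0] d₀) Z^α`: all coefficient series have zero constant term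
(for `α ≠ 0` by `hD`), similarly `Fp(Z) - L Z = ∑_α (coeff α Fp - [|α|=1] const) Z^α`. Let
`K = max_{k < k₀} |z_k| (k+1)^2` (at least `1`), where for `k ≥ k₀` the matrix `k d₀ - L` is invertible
with `|(k d₀ - L)⁻¹ w| ≤ (2/(|d₀| k)) |w|` (sup norm; `k₀` large compared with `|L|`). Show by strong
induction `|z_k| ≤ K A^k/(k+1)^2` for a suitable large `A ≥ 1`: for `k < k₀` clear. For `k ≥ k₀`: `Z` satisfies
`WB K A (k-1)`; every coefficient series with zero constant term has `WB η A` with `η` as small as we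
want (`wb_small`), so `Q = Dp(Z) - d₀` satisfies `WB (C₁ η) A (k-1)` with `C₁` depending on `K` and the
degree only, `Q_0 = 0`, and `|[Q * X Z']_k| ≤ ∑_{0<j<k} |Q_{k-j}| j |z_j| ≤ k * c₀ C₁ η K A^k/(k+1)^2`;
`[Fp(Z) - L Z]_k` involves `z_k` itself only through coefficient series with zero constant term, i.e. not
at all (a monomial `g Z^α` with `g(0) = 0` or `|α| ≥ 2`... note `g(0) = 0` here always), so it only
involves `z_j`, `j < k`: replace `Z` by its truncation at `k`; it is `≤ C₂ η A^k/(k+1)^2`. Choose `η` with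
`(2/|d₀|) (c₀ C₁ η K + C₂ η) ≤ K`. Conclude with `convPS_of_wb`.
(`MvPolynomial.eval`/`aeval`: `MvPolynomial.eval_eq`, finite sums over the support.)
-/

open scoped BigOperators PowerSeries

namespace Pool.Agent.CVG

private theorem wb_mono {K K' A : ℝ} {n : ℕ} {f : ℂ⟦X⟧} (hA : 0 ≤ A) (h : K ≤ K')
    (hf : WB K A n f) : WB K' A n f := by
  intro k hk
  refine (hf k hk).trans ?_
  exact div_le_div_of_nonneg_right (mul_le_mul_of_nonneg_right h (pow_nonneg hA k)) (by positivity)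

private theorem wb_add {K K' A : ℝ} {n : ℕ} {f g : ℂ⟦X⟧} (hf : WB K A n f) (hg : WB K' A n g) :
    WB (K + K') A n (f + g) := by
  intro k hk
  rw [map_add]
  refine (norm_add_le _ _).trans ((add_le_add (hf k hk) (hg k hk)).trans (le_of_eq ?_))
  ring

private theorem wb_zero {A : ℝ} {n : ℕ} : WB 0 A n 0 := by
  intro k hk
  simp

private theorem wb_sum {κ : Type} {A : ℝ} {n : ℕ} (s : Finset κ) (K : κ → ℝ) (f : κ → ℂ⟦X⟧)
    (h : ∀ a ∈ s, WB (K a) A n (f a)) : WB (∑ a ∈ s, K a) A n (∑ a ∈ s, f a) := by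
  classical
  induction s using Finset.induction_on with
  | empty => simpa using wb_zero
  | insert a s ha ih =>
    rw [Finset.sum_insert ha, Finset.sum_insert ha]
    exact wb_add (h a (Finset.mem_insert_self a s))
      (ih fun b hb => h b (Finset.mem_insert_of_mem hb))

private theorem wb_one {A : ℝ} {n : ℕ} (hA : 0 ≤ A) : WB 1 A n 1 := by
  intro k hk
  rw [PowerSeries.coeff_one]
  split_ifs with h
  · subst h
    simp
  · rw [norm_zero]
    positivity

private theorem wb_pow {c₀ : ℝ} (hc₀ : 1 ≤ c₀)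
    (hmul : ∀ (K K' A : ℝ) (n : ℕ) (f g : ℂ⟦X⟧), 0 ≤ K → 0 ≤ K' → 0 ≤ A →
      WB K A n f → WB K' A n g → WB (c₀ * (K * K')) A n (f * g))
    {K A : ℝ} {n : ℕ} {f : ℂ⟦X⟧} (hK : 0 ≤ K) (hA : 0 ≤ A) (hf : WB K A n f) (m : ℕ) :
    WB ((c₀ * K) ^ m) A n (f ^ m) := by
  have hc : 0 ≤ c₀ := by linarith
  induction m with
  | zero => simpa using wb_one hA
  | succ m ih =>
    have h := hmul _ _ A n _ _ (pow_nonneg (mul_nonneg hc hK) m) hK hA ih hf
    rw [pow_succ f]
    refine wb_mono hA (le_of_eq ?_) h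
    ring

private theorem wb_prod {c₀ : ℝ} (hc₀ : 1 ≤ c₀)
    (hmul : ∀ (K K' A : ℝ) (n : ℕ) (f g : ℂ⟦X⟧), 0 ≤ K → 0 ≤ K' → 0 ≤ A →
      WB K A n f → WB K' A n g → WB (c₀ * (K * K')) A n (f * g))
    {κ : Type} {A : ℝ} {n : ℕ} (s : Finset κ) (K : κ → ℝ) (hK : ∀ a, 0 ≤ K a) (hA : 0 ≤ A)
    (f : κ → ℂ⟦X⟧) (h : ∀ a ∈ s, WB (K a) A n (f a)) :
    WB (∏ a ∈ s, (c₀ * K a)) A n (∏ a ∈ s, f a) := by
  classical
  have hc : 0 ≤ c₀ := by linarith
  induction s using Finset.induction_on with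
  | empty => simpa using wb_one hA
  | insert a s ha ih =>
    rw [Finset.prod_insert ha, Finset.prod_insert ha]
    have h1 := hmul _ _ A n _ _ (hK a) (Finset.prod_nonneg fun b _ => mul_nonneg hc (hK b)) hA
      (h a (Finset.mem_insert_self a s)) (ih fun b hb => h b (Finset.mem_insert_of_mem hb))
    refine wb_mono hA (le_of_eq ?_) h1
    ring

private theorem wb_shift {η A : ℝ} (hη : 0 ≤ η) (hA : 0 ≤ A) {f h : ℂ⟦X⟧}
    (hf : f = PowerSeries.X * h) (hw : ∀ n, WB η A n f) (n : ℕ) : WB (η * A) A n h := by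
  intro k _
  have h1 := hw (k + 1) (k + 1) le_rfl
  rw [hf, PowerSeries.coeff_succ_X_mul] at h1
  refine h1.trans ?_
  rw [pow_succ']
  have h2 : η * (A * A ^ k) = η * A * A ^ k := by ring
  rw [h2]
  push_cast
  refine div_le_div_of_nonneg_left (by positivity) (by positivity) ?_
  have h3 : (0 : ℝ) ≤ k := Nat.cast_nonneg _
  nlinarith

private theorem small_eval {ι : Type} [Fintype ι] (P : MvPolynomial ι ℂ⟦X⟧)
    (hc : ∀ α, ConvPS (MvPolynomial.coeff α P))
    (h0 : ∀ α, PowerSeries.constantCoeff (MvPolynomial.coeff α P) = 0) (K : ℝ) (hK : 0 ≤ K)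
    (η : ℝ) (hη : 0 < η) :
    ∃ A₀ : ℝ, 1 ≤ A₀ ∧ ∀ A, A₀ ≤ A → ∀ (n : ℕ) (Z : ι → ℂ⟦X⟧), (∀ j, WB K A n (Z j)) →
      ∃ H, MvPolynomial.eval Z P = PowerSeries.X * H ∧ WB (η * A) A n H := by
  classical
  obtain ⟨c₀, hc₀, hmul⟩ := wb_mul
  have hc0 : 0 ≤ c₀ := by linarith
  obtain ⟨M, hM⟩ : ∃ M : (ι →₀ ℕ) → ℝ, ∀ α, M α = ∏ j, (c₀ * (c₀ * K) ^ (α j)) := ⟨_, fun _ => rfl⟩
  have hM0 : ∀ α, 0 ≤ M α := fun α => by
    rw [hM]
    exact Finset.prod_nonneg fun j _ => mul_nonneg hc0 (pow_nonneg (mul_nonneg hc0 hK) _)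
  obtain ⟨N, hN⟩ : ∃ N : ℝ, N = P.support.card := ⟨_, rfl⟩
  have hN0 : 0 ≤ N := by rw [hN]; exact Nat.cast_nonneg _
  have hpos : ∀ α, 0 < (N + 1) * (c₀ * M α + 1) := fun α => by
    have := mul_nonneg hc0 (hM0 α)
    positivity
  have hsm : ∀ α, ∃ A₁ : ℝ, 1 ≤ A₁ ∧ ∀ A, A₁ ≤ A → ∀ n,
      WB (η / ((N + 1) * (c₀ * M α + 1))) A n (MvPolynomial.coeff α P) := fun α =>
    wb_small _ (hc α) (h0 α) _ (div_pos hη (hpos α))
  choose A₁ h1 h2 using hsm
  have hdv : ∀ α, ∃ h, MvPolynomial.coeff α P = PowerSeries.X * h := fun α =>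
    PowerSeries.X_dvd_iff.2 (h0 α)
  choose h hh using hdv
  refine ⟨1 + ∑ α ∈ P.support, A₁ α, ?_, ?_⟩
  · have : 0 ≤ ∑ α ∈ P.support, A₁ α :=
      Finset.sum_nonneg fun α _ => by linarith [h1 α]
    linarith
  intro A hA n Z hZ
  have hsum0 : 0 ≤ ∑ α ∈ P.support, A₁ α := Finset.sum_nonneg fun α _ => by linarith [h1 α]
  have hA0 : 0 ≤ A := by linarith
  refine ⟨∑ α ∈ P.support, h α * ∏ j, Z j ^ α j, ?_, ?_⟩
  · rw [MvPolynomial.eval_eq', Finset.mul_sum]
    refine Finset.sum_congr rfl fun α _ => ?_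
    rw [hh α, mul_assoc]
  · have hterm : ∀ α ∈ P.support, WB (η * A / (N + 1)) A n (h α * ∏ j, Z j ^ α j) := by
      intro α hα
      have hAα : A₁ α ≤ A := by
        have := Finset.single_le_sum (f := A₁) (fun β _ => by linarith [h1 β]) hα
        linarith
      have e1 := wb_shift (div_pos hη (hpos α)).le hA0 (hh α) (h2 α A hAα) n
      have e2 := wb_prod hc₀ hmul Finset.univ (fun j => (c₀ * K) ^ α j)
        (fun j => pow_nonneg (mul_nonneg hc0 hK) _) hA0 (fun j => Z j ^ α j)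
        (fun j _ => wb_pow hc₀ hmul hK hA0 (hZ j) (α j))
      rw [← hM] at e2
      have e3 := hmul _ _ A n _ _ (mul_nonneg (div_pos hη (hpos α)).le hA0) (hM0 α) hA0 e1 e2
      refine wb_mono hA0 ?_ e3
      have hN1 : 0 < N + 1 := by linarith
      have hcM : 0 < c₀ * M α + 1 := by
        have := mul_nonneg hc0 (hM0 α)
        linarith
      have e4 : c₀ * (η / ((N + 1) * (c₀ * M α + 1)) * A * M α) =
          η * A / (N + 1) * (c₀ * M α / (c₀ * M α + 1)) := by
        field_simp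
      rw [e4]
      have e5 : c₀ * M α / (c₀ * M α + 1) ≤ 1 := by
        rw [div_le_one hcM]
        linarith
      have e6 : 0 ≤ η * A / (N + 1) := by positivity
      calc η * A / (N + 1) * (c₀ * M α / (c₀ * M α + 1)) ≤ η * A / (N + 1) * 1 :=
            mul_le_mul_of_nonneg_left e5 e6
        _ = η * A / (N + 1) := mul_one _
    have e7 := wb_sum P.support (fun _ => η * A / (N + 1)) _ hterm
    refine wb_mono hA0 ?_ e7
    rw [Finset.sum_const, nsmul_eq_mul, ← hN]
    have hN1 : 0 < N + 1 := by linarith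
    rw [← mul_div_assoc, div_le_iff₀ hN1]
    nlinarith [mul_nonneg hη.le hA0]

private theorem conv_sub_C {f : ℂ⟦X⟧} (hf : ConvPS f) (c : ℂ) : ConvPS (f - PowerSeries.C c) := by
  obtain ⟨C, A, hC, hA, h⟩ := hf
  refine ⟨C + ‖c‖, A, by positivity, hA, fun k => ?_⟩
  rw [map_sub, PowerSeries.coeff_C]
  refine (norm_sub_le _ _).trans ?_
  rw [add_mul]
  refine add_le_add (h k) ?_
  split_ifs
  · exact le_mul_of_one_le_right (norm_nonneg _) (one_le_pow₀ hA)
  · rw [norm_zero]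
    positivity

private theorem deg_one {ι : Type} (α : ι →₀ ℕ) (h : α.degree = 1) : ∃ j, Finsupp.single j 1 = α := by
  classical
  have h0 : α ≠ 0 := by
    rintro rfl
    simp at h
  obtain ⟨j, hj⟩ := Finsupp.ne_iff.1 h0
  have hj' : 1 ≤ α j := Nat.one_le_iff_ne_zero.2 hj
  have hle : Finsupp.single j 1 ≤ α := Finsupp.single_le_iff.2 hj'
  have h1 : (α - Finsupp.single j 1) + Finsupp.single j 1 = α := tsub_add_cancel_of_le hle
  have h2 : (α - Finsupp.single j 1).degree = 0 := by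
    have h3 := congrArg Finsupp.degree h1
    rw [map_add, Finsupp.degree_single, h] at h3
    omega
  have h4 : α - Finsupp.single j 1 = 0 := (Finsupp.degree_eq_zero_iff _).1 h2
  refine ⟨j, ?_⟩
  rw [h4, zero_add] at h1
  exact h1

theorem briot_bouquet {ι : Type} [Fintype ι] [DecidableEq ι] (Z : ι → ℂ⟦X⟧)
    (hZ0 : ∀ i, PowerSeries.constantCoeff (Z i) = 0)
    (Dp : MvPolynomial ι ℂ⟦X⟧) (Fp : ι → MvPolynomial ι ℂ⟦X⟧)
    (hDc : ∀ α, ConvPS (MvPolynomial.coeff α Dp)) (hFc : ∀ i α, ConvPS (MvPolynomial.coeff α (Fp i)))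
    (hD0 : PowerSeries.constantCoeff (MvPolynomial.coeff 0 Dp) ≠ 0)
    (hD : ∀ α : ι →₀ ℕ, α ≠ 0 → PowerSeries.constantCoeff (MvPolynomial.coeff α Dp) = 0)
    (hF : ∀ (i : ι) (α : ι →₀ ℕ), α.degree ≠ 1 →
      PowerSeries.constantCoeff (MvPolynomial.coeff α (Fp i)) = 0)
    (hE : ∀ i, MvPolynomial.eval Z Dp * (PowerSeries.X * PowerSeries.derivative ℂ (Z i)) =
      MvPolynomial.eval Z (Fp i)) :
    ∀ i, ConvPS (Z i) := by
  classical
  obtain ⟨c₀, hc₀, hmul⟩ := wb_mul
  have hc0 : 0 < c₀ := by linarith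
  obtain ⟨d₀, hd₀⟩ : ∃ d₀, d₀ = PowerSeries.constantCoeff (MvPolynomial.coeff 0 Dp) := ⟨_, rfl⟩
  rw [← hd₀] at hD0
  obtain ⟨L, hL⟩ : ∃ L : ι → ι → ℂ, ∀ i j, L i j = PowerSeries.constantCoeff
      (MvPolynomial.coeff (Finsupp.single j 1) (Fp i)) := ⟨_, fun _ _ => rfl⟩
  obtain ⟨Dq, hDq⟩ : ∃ Dq, Dq = Dp - MvPolynomial.C (PowerSeries.C d₀) := ⟨_, rfl⟩
  obtain ⟨Fq, hFq⟩ : ∃ Fq : ι → MvPolynomial ι ℂ⟦X⟧, ∀ i, Fq i = Fp i -
      ∑ j, MvPolynomial.C (PowerSeries.C (L i j)) * MvPolynomial.X j := ⟨_, fun _ => rfl⟩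
  -- coefficients of `Dq`
  have hDqc : ∀ α, MvPolynomial.coeff α Dq =
      MvPolynomial.coeff α Dp - PowerSeries.C (if 0 = α then d₀ else 0) := by
    intro α
    rw [hDq, MvPolynomial.coeff_sub, MvPolynomial.coeff_C]
    split_ifs
    · rfl
    · rw [map_zero]
  have hDq1 : ∀ α, ConvPS (MvPolynomial.coeff α Dq) := fun α => by
    rw [hDqc]
    exact conv_sub_C (hDc α) _
  have hDq2 : ∀ α, PowerSeries.constantCoeff (MvPolynomial.coeff α Dq) = 0 := fun α => by
    rw [hDqc, map_sub, PowerSeries.constantCoeff_C]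
    split_ifs with h
    · rw [← h, ← hd₀, sub_self]
    · rw [hD α (fun h' => h h'.symm), sub_zero]
  -- coefficients of `Fq`
  have hFqc : ∀ i α, MvPolynomial.coeff α (Fq i) = MvPolynomial.coeff α (Fp i) -
      PowerSeries.C (∑ j, if Finsupp.single j 1 = α then L i j else 0) := by
    intro i α
    rw [hFq, MvPolynomial.coeff_sub, MvPolynomial.coeff_sum, map_sum]
    congr 1
    refine Finset.sum_congr rfl fun j _ => ?_
    rw [MvPolynomial.coeff_C_mul, MvPolynomial.coeff_X]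
    split_ifs
    · rw [mul_one]
    · rw [mul_zero, map_zero]
  have hFq1 : ∀ i α, ConvPS (MvPolynomial.coeff α (Fq i)) := fun i α => by
    rw [hFqc]
    exact conv_sub_C (hFc i α) _
  have hFq2 : ∀ i α, PowerSeries.constantCoeff (MvPolynomial.coeff α (Fq i)) = 0 := fun i α => by
    rw [hFqc, map_sub, PowerSeries.constantCoeff_C]
    by_cases h : ∃ j, Finsupp.single j 1 = α
    · obtain ⟨j₀, rfl⟩ := h
      rw [Finset.sum_eq_single j₀, if_pos rfl, hL, sub_self]
      · intro j _ hj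
        rw [if_neg]
        intro h'
        exact hj (Finsupp.single_left_injective one_ne_zero h')
      · intro h'
        exact absurd (Finset.mem_univ _) h'
    · rw [hF i α (fun h' => h (deg_one α h')), Finset.sum_eq_zero, sub_zero]
      intro j _
      rw [if_neg (fun h' => h ⟨j, h'⟩)]
  -- constants
  obtain ⟨Λ, hΛ⟩ : ∃ Λ : ℝ, Λ = ∑ i, ∑ j, ‖L i j‖ := ⟨_, rfl⟩
  have hdn : 0 < ‖d₀‖ := norm_pos_iff.2 hD0
  obtain ⟨k₀, hk₀⟩ := exists_nat_ge (2 * Λ / ‖d₀‖)
  rw [div_le_iff₀ hdn] at hk₀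
  obtain ⟨K, hKdef⟩ : ∃ K : ℝ, K = 1 + ∑ k ∈ Finset.range (k₀ + 1), ∑ i,
      ‖PowerSeries.coeff k (Z i)‖ * ((k : ℝ) + 1) ^ 2 := ⟨_, rfl⟩
  have hnn : ∀ k : ℕ, 0 ≤ ∑ i, ‖PowerSeries.coeff k (Z i)‖ * ((k : ℝ) + 1) ^ 2 := fun k =>
    Finset.sum_nonneg fun i _ => by positivity
  have hK1 : 1 ≤ K := by
    rw [hKdef]
    have := Finset.sum_nonneg (s := Finset.range (k₀ + 1)) (fun k _ => hnn k)
    linarith
  have hK0 : 0 ≤ K := by linarith
  have hKlow : ∀ k ≤ k₀, ∀ i, ‖PowerSeries.coeff k (Z i)‖ * ((k : ℝ) + 1) ^ 2 ≤ K := by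
    intro k hk i
    have e1 := Finset.single_le_sum (f := fun i => ‖PowerSeries.coeff k (Z i)‖ * ((k : ℝ) + 1) ^ 2)
      (fun i _ => by positivity) (Finset.mem_univ i)
    have e2 := Finset.single_le_sum (f := fun k : ℕ => ∑ i, ‖PowerSeries.coeff k (Z i)‖ *
      ((k : ℝ) + 1) ^ 2) (fun k _ => hnn k) (Finset.mem_range.2 (by omega : k < k₀ + 1))
    beta_reduce at e1 e2
    rw [hKdef]
    linarith
  obtain ⟨η, hη⟩ : ∃ η : ℝ, η = ‖d₀‖ / (16 * c₀) := ⟨_, rfl⟩
  have hη0 : 0 < η := by rw [hη]; positivity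
  obtain ⟨A₁, hA₁, hS₁⟩ := small_eval Dq hDq1 hDq2 K hK0 η hη0
  have hS : ∀ i, ∃ A₀ : ℝ, 1 ≤ A₀ ∧ ∀ A, A₀ ≤ A → ∀ (n : ℕ) (Z : ι → ℂ⟦X⟧),
      (∀ j, WB K A n (Z j)) →
      ∃ H, MvPolynomial.eval Z (Fq i) = PowerSeries.X * H ∧ WB (η * A) A n H := fun i =>
    small_eval (Fq i) (hFq1 i) (hFq2 i) K hK0 η hη0
  choose A₂ hA₂ hS₂ using hS
  obtain ⟨A, hAdef⟩ : ∃ A : ℝ, A = A₁ + ∑ i, A₂ i := ⟨_, rfl⟩
  have hsum0 : 0 ≤ ∑ i, A₂ i := Finset.sum_nonneg fun i _ => by linarith [hA₂ i]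
  have hA1 : A₁ ≤ A := by linarith
  have hA2 : ∀ i, A₂ i ≤ A := fun i => by
    have := Finset.single_le_sum (f := A₂) (fun j _ => by linarith [hA₂ j]) (Finset.mem_univ i)
    linarith
  have hAge : 1 ≤ A := by linarith
  have hA0 : 0 ≤ A := by linarith
  have claim : ∀ k : ℕ, ∀ i, ‖PowerSeries.coeff k (Z i)‖ ≤ K * A ^ k / ((k : ℝ) + 1) ^ 2 := by
    intro k
    induction k using Nat.strong_induction_on with
    | _ k ih =>
      by_cases hk : k ≤ k₀
      · intro i
        rw [le_div_iff₀ (by positivity)]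
        exact (hKlow k hk i).trans (le_mul_of_one_le_right hK0 (one_le_pow₀ hAge))
      · obtain ⟨k', rfl⟩ : ∃ k', k = k' + 1 := ⟨k - 1, by omega⟩
        have hWB : ∀ j, WB K A k' (Z j) := fun j m hm => ih m (by omega) j
        obtain ⟨H, hH1, hH2⟩ := hS₁ A hA1 k' Z hWB
        intro i
        have : Nonempty ι := ⟨i⟩
        obtain ⟨i₀, hi₀⟩ := Finite.exists_max (fun i => ‖PowerSeries.coeff (k' + 1) (Z i)‖)
        refine (hi₀ i).trans ?_
        obtain ⟨H', hH1', hH2'⟩ := hS₂ i₀ A (hA2 i₀) k' Z hWB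
        -- the equation
        have e1 : MvPolynomial.eval Z Dp = PowerSeries.C d₀ + PowerSeries.X * H := by
          rw [← hH1, hDq, map_sub, MvPolynomial.eval_C]
          ring
        have e2 : MvPolynomial.eval Z (Fp i₀) =
            (∑ j, PowerSeries.C (L i₀ j) * Z j) + PowerSeries.X * H' := by
          rw [← hH1', hFq, map_sub, map_sum]
          simp only [map_mul, MvPolynomial.eval_C, MvPolynomial.eval_X]
          ring
        have e3 := hE i₀
        rw [e1, e2] at e3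
        have e4 : (PowerSeries.C d₀ + PowerSeries.X * H) *
            (PowerSeries.X * PowerSeries.derivative ℂ (Z i₀)) =
            PowerSeries.C d₀ * (PowerSeries.X * PowerSeries.derivative ℂ (Z i₀)) +
            PowerSeries.X * (H * (PowerSeries.X * PowerSeries.derivative ℂ (Z i₀))) := by ring
        rw [e4] at e3
        have e5 := congrArg (PowerSeries.coeff (k' + 1)) e3
        rw [map_add, map_add, map_sum, PowerSeries.coeff_C_mul, PowerSeries.coeff_succ_X_mul,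
          PowerSeries.coeff_succ_X_mul, PowerSeries.coeff_succ_X_mul,
          PowerSeries.coeff_derivative] at e5
        simp only [PowerSeries.coeff_C_mul] at e5
        -- bounds
        have b1 : ‖PowerSeries.coeff k' H'‖ ≤ η * A * A ^ k' / ((k' : ℝ) + 1) ^ 2 :=
          hH2' k' le_rfl
        have b2 : WB (((k' : ℝ) + 1) * K) A k'
            (PowerSeries.X * PowerSeries.derivative ℂ (Z i₀)) := by
          intro m hm
          cases m with
          | zero =>
            rw [PowerSeries.coeff_zero_X_mul, norm_zero]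
            positivity
          | succ m =>
            rw [PowerSeries.coeff_succ_X_mul, PowerSeries.coeff_derivative, norm_mul]
            have c1 := hWB i₀ (m + 1) hm
            have c2 : ‖((m : ℂ) + 1)‖ ≤ (k' : ℝ) + 1 := by
              have c3 : ((m : ℂ) + 1) = ((m + 1 : ℕ) : ℂ) := by push_cast; ring
              rw [c3, Complex.norm_natCast]
              have c4 : ((m + 1 : ℕ) : ℝ) ≤ k' := by exact_mod_cast hm
              linarith
            calc ‖PowerSeries.coeff (m + 1) (Z i₀)‖ * ‖((m : ℂ) + 1)‖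
                ≤ (K * A ^ (m + 1) / (((m + 1 : ℕ) : ℝ) + 1) ^ 2) * ((k' : ℝ) + 1) :=
                  mul_le_mul c1 c2 (norm_nonneg _) (by positivity)
              _ = ((k' : ℝ) + 1) * K * A ^ (m + 1) / (((m + 1 : ℕ) : ℝ) + 1) ^ 2 := by ring
        have b3 := hmul (η * A) (((k' : ℝ) + 1) * K) A k' H _ (by positivity) (by positivity) hA0
          hH2 b2 k' le_rfl
        have b4 : ‖∑ j, L i₀ j * PowerSeries.coeff (k' + 1) (Z j)‖ ≤
            Λ * ‖PowerSeries.coeff (k' + 1) (Z i₀)‖ := by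
          refine (norm_sum_le _ _).trans ?_
          calc ∑ j, ‖L i₀ j * PowerSeries.coeff (k' + 1) (Z j)‖
              ≤ ∑ j, ‖L i₀ j‖ * ‖PowerSeries.coeff (k' + 1) (Z i₀)‖ := by
                refine Finset.sum_le_sum fun j _ => ?_
                rw [norm_mul]
                exact mul_le_mul_of_nonneg_left (hi₀ j) (norm_nonneg _)
            _ = (∑ j, ‖L i₀ j‖) * ‖PowerSeries.coeff (k' + 1) (Z i₀)‖ := by
                rw [Finset.sum_mul]
            _ ≤ Λ * ‖PowerSeries.coeff (k' + 1) (Z i₀)‖ := by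
                refine mul_le_mul_of_nonneg_right ?_ (norm_nonneg _)
                rw [hΛ]
                exact Finset.single_le_sum (f := fun i => ∑ j, ‖L i j‖)
                  (fun i _ => Finset.sum_nonneg fun j _ => norm_nonneg _) (Finset.mem_univ i₀)
        obtain ⟨M, hM⟩ : ∃ M, M = ‖PowerSeries.coeff (k' + 1) (Z i₀)‖ := ⟨_, rfl⟩
        have hM0 : 0 ≤ M := by rw [hM]; exact norm_nonneg _
        rw [← hM] at b4 ⊢
        obtain ⟨q, hq⟩ : ∃ q : ℝ, q = (k' : ℝ) + 1 := ⟨_, rfl⟩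
        have hq1 : 1 ≤ q := by
          rw [hq]
          have : (0 : ℝ) ≤ k' := Nat.cast_nonneg _
          linarith
        rw [← hq] at b1 b3
        obtain ⟨T, hT⟩ : ∃ T : ℝ, T = A ^ (k' + 1) := ⟨_, rfl⟩
        have hT0 : 0 ≤ T := by rw [hT]; positivity
        have hTA : A * A ^ k' = T := by rw [hT, pow_succ']
        have b1' : ‖PowerSeries.coeff k' H'‖ ≤ η * T / q ^ 2 := by
          rw [← hTA, ← mul_assoc]
          exact b1
        have b3' : ‖PowerSeries.coeff k' (H * (PowerSeries.X *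
            PowerSeries.derivative ℂ (Z i₀)))‖ ≤ c₀ * η * K * q * T / q ^ 2 := by
          refine b3.trans (le_of_eq ?_)
          rw [← hTA]
          ring
        have b5 : q * ‖d₀‖ * M ≤ Λ * M + η * T / q ^ 2 + c₀ * η * K * q * T / q ^ 2 := by
          have c1 : d₀ * (PowerSeries.coeff (k' + 1) (Z i₀) * ((k' : ℂ) + 1)) =
              (∑ j, L i₀ j * PowerSeries.coeff (k' + 1) (Z j)) + PowerSeries.coeff k' H' -
              PowerSeries.coeff k' (H * (PowerSeries.X * PowerSeries.derivative ℂ (Z i₀))) := by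
            linear_combination e5
          have c2 : q * ‖d₀‖ * M =
              ‖d₀ * (PowerSeries.coeff (k' + 1) (Z i₀) * ((k' : ℂ) + 1))‖ := by
            have c3 : ((k' : ℂ) + 1) = ((k' + 1 : ℕ) : ℂ) := by push_cast; ring
            rw [norm_mul, norm_mul, c3, Complex.norm_natCast, hM, hq]
            push_cast
            ring
          rw [c2, c1]
          refine (norm_sub_le _ _).trans ?_
          refine add_le_add ((norm_add_le _ _).trans (add_le_add b4 b1')) b3'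
        have hΛq : 2 * Λ ≤ q * ‖d₀‖ := by
          refine hk₀.trans (mul_le_mul_of_nonneg_right ?_ hdn.le)
          rw [hq]
          have : ((k₀ : ℕ) : ℝ) ≤ ((k' + 1 : ℕ) : ℝ) := by exact_mod_cast (by omega : k₀ ≤ k' + 1)
          push_cast at this
          exact this
        have b6 : η * T / q ^ 2 ≤ c₀ * η * K * q * T / q ^ 2 := by
          refine div_le_div_of_nonneg_right ?_ (by positivity)
          have c1 : 1 ≤ c₀ * K * q := by
            have := mul_le_mul hc₀ hK1 zero_le_one hc0.le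
            have := mul_le_mul (by linarith : (1 : ℝ) ≤ c₀ * K) hq1 zero_le_one (by positivity)
            linarith
          calc η * T = η * T * 1 := by ring
            _ ≤ η * T * (c₀ * K * q) := mul_le_mul_of_nonneg_left c1 (by positivity)
            _ = c₀ * η * K * q * T := by ring
        have hMΛ : Λ * M ≤ q * ‖d₀‖ * M / 2 := by nlinarith
        have b7 : q * ‖d₀‖ * M ≤ 4 * (c₀ * η * K * q * T / q ^ 2) := by linarith
        have b8 : 4 * (c₀ * η * K * q * T / q ^ 2) = q * ‖d₀‖ * (K * T / (4 * q ^ 2)) := by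
          rw [hη]
          have : q ≠ 0 := by positivity
          field_simp
          ring
        have b9 : M ≤ K * T / (4 * q ^ 2) := by
          have c1 : 0 < q * ‖d₀‖ := by positivity
          rw [b8] at b7
          exact le_of_mul_le_mul_left b7 c1
        refine b9.trans ?_
        rw [← hT]
        refine div_le_div_of_nonneg_left (by positivity) (by positivity) ?_
        push_cast
        rw [hq]
        have : (0 : ℝ) ≤ k' := Nat.cast_nonneg _
        nlinarith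
  intro i
  exact convPS_of_wb (Z i) K A (by linarith) hAge (fun n k _ => claim k i)

end Pool.Agent.CVG
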