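import Pool.Agent.CVG.ConvDefs

/-!
# CVG-ConvA: closure properties of convergent power series

PLAN. `mul`: `|∑_{i+j=k} f_i g_j| ≤ C C' (k+1) (max A A')^k ≤ C C' (2 max A A')^k`. `of_mul`: first
`d` with `d(0) ≠ 0`: `f = d⁻¹ g`; the inverse of a convergent series with nonzero constant term converges
(recursion `d_0 e_k = - ∑_{i ≥ 1} d_i e_{k-i}` and induction with a large `A`); in general `d = X^k d'`
(`PowerSeries.X_pow_order_dvd`...), `X^k (d' f) = g` so `d' f` is a shift of `g`.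
-/

open scoped BigOperators PowerSeries

namespace Pool.Agent.CVG

private lemma ConvPS.zero' : ConvPS (0 : ℂ⟦X⟧) := by
  refine ⟨1, 1, one_pos, le_refl _, fun k => ?_⟩
  simp

theorem ConvPS.C (z : ℂ) : ConvPS (PowerSeries.C z) := by
  refine ⟨‖z‖ + 1, 1, by positivity, le_refl _, fun k => ?_⟩
  rw [PowerSeries.coeff_C]
  split_ifs
  · simp
  · simp only [norm_zero, one_pow, mul_one]
    positivity

theorem ConvPS.X : ConvPS (PowerSeries.X : ℂ⟦X⟧) := by
  refine ⟨1, 1, one_pos, le_refl _, fun k => ?_⟩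
  rw [PowerSeries.coeff_X]
  split_ifs
  · simp
  · simp

theorem ConvPS.add {f g : ℂ⟦X⟧} (hf : ConvPS f) (hg : ConvPS g) : ConvPS (f + g) := by
  obtain ⟨C, A, hC, hA, h⟩ := hf
  obtain ⟨C', A', hC', hA', h'⟩ := hg
  refine ⟨C + C', max A A', by positivity, le_max_of_le_left hA, fun k => ?_⟩
  rw [map_add]
  have h1 : A ^ k ≤ (max A A') ^ k :=
    pow_le_pow_left₀ (by linarith) (le_max_left _ _) k
  have h2 : A' ^ k ≤ (max A A') ^ k :=
    pow_le_pow_left₀ (by linarith) (le_max_right _ _) k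
  calc ‖PowerSeries.coeff k f + PowerSeries.coeff k g‖
      ≤ ‖PowerSeries.coeff k f‖ + ‖PowerSeries.coeff k g‖ := norm_add_le _ _
    _ ≤ C * A ^ k + C' * A' ^ k := add_le_add (h k) (h' k)
    _ ≤ C * (max A A') ^ k + C' * (max A A') ^ k :=
        add_le_add (mul_le_mul_of_nonneg_left h1 hC.le) (mul_le_mul_of_nonneg_left h2 hC'.le)
    _ = (C + C') * (max A A') ^ k := by ring

theorem ConvPS.neg {f : ℂ⟦X⟧} (hf : ConvPS f) : ConvPS (-f) := by
  obtain ⟨C, A, hC, hA, h⟩ := hf
  refine ⟨C, A, hC, hA, fun k => ?_⟩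
  rw [map_neg, norm_neg]
  exact h k

theorem ConvPS.mul {f g : ℂ⟦X⟧} (hf : ConvPS f) (hg : ConvPS g) : ConvPS (f * g) := by
  obtain ⟨C, A, hC, hA, h⟩ := hf
  obtain ⟨C', A', hC', hA', h'⟩ := hg
  set M : ℝ := max A A' with hM
  have hM1 : 1 ≤ M := le_max_of_le_left hA
  refine ⟨C * C', 2 * M, by positivity, by linarith, fun k => ?_⟩
  rw [PowerSeries.coeff_mul]
  have hterm : ∀ p ∈ Finset.HasAntidiagonal.antidiagonal k,
      ‖PowerSeries.coeff p.1 f * PowerSeries.coeff p.2 g‖ ≤ C * C' * M ^ k := by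
    intro p hp
    rw [Finset.HasAntidiagonal.mem_antidiagonal] at hp
    have h1 : A ^ p.1 ≤ M ^ p.1 := pow_le_pow_left₀ (by linarith) (le_max_left _ _) _
    have h2 : A' ^ p.2 ≤ M ^ p.2 := pow_le_pow_left₀ (by linarith) (le_max_right _ _) _
    have h3 : ‖PowerSeries.coeff p.1 f‖ ≤ C * M ^ p.1 :=
      (h _).trans (mul_le_mul_of_nonneg_left h1 hC.le)
    have h4 : ‖PowerSeries.coeff p.2 g‖ ≤ C' * M ^ p.2 :=
      (h' _).trans (mul_le_mul_of_nonneg_left h2 hC'.le)
    rw [norm_mul]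
    calc ‖PowerSeries.coeff p.1 f‖ * ‖PowerSeries.coeff p.2 g‖
        ≤ (C * M ^ p.1) * (C' * M ^ p.2) :=
          mul_le_mul h3 h4 (norm_nonneg _) (by positivity)
      _ = C * C' * M ^ (p.1 + p.2) := by rw [pow_add]; ring
      _ = C * C' * M ^ k := by rw [hp]
  have hk : ((k : ℝ) + 1) ≤ 2 ^ k := by
    have h1 : k + 1 ≤ 2 ^ k := Nat.lt_two_pow_self
    exact_mod_cast h1
  calc ‖∑ p ∈ Finset.HasAntidiagonal.antidiagonal k, PowerSeries.coeff p.1 f * PowerSeries.coeff p.2 g‖
      ≤ ∑ p ∈ Finset.HasAntidiagonal.antidiagonal k,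
          ‖PowerSeries.coeff p.1 f * PowerSeries.coeff p.2 g‖ := norm_sum_le _ _
    _ ≤ ∑ _p ∈ Finset.HasAntidiagonal.antidiagonal k, C * C' * M ^ k := Finset.sum_le_sum hterm
    _ = ((k : ℝ) + 1) * (C * C' * M ^ k) := by
        rw [Finset.sum_const, Finset.Nat.card_antidiagonal, nsmul_eq_mul]
        push_cast
        ring
    _ ≤ 2 ^ k * (C * C' * M ^ k) :=
        mul_le_mul_of_nonneg_right hk (by positivity)
    _ = C * C' * (2 * M) ^ k := by rw [mul_pow]; ring

theorem ConvPS.sum {ι : Type*} (s : Finset ι) (f : ι → ℂ⟦X⟧) (h : ∀ i ∈ s, ConvPS (f i)) :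
    ConvPS (∑ i ∈ s, f i) := by
  classical
  induction s using Finset.induction_on with
  | empty => simpa using ConvPS.zero'
  | insert a s ha ih =>
    rw [Finset.sum_insert ha]
    exact (h a (Finset.mem_insert_self _ _)).add
      (ih (fun i hi => h i (Finset.mem_insert_of_mem hi)))

theorem ConvPS.poly (p : Polynomial ℂ) : ConvPS (p : ℂ⟦X⟧) := by
  induction p using Polynomial.induction_on with
  | C a =>
    rw [Polynomial.coe_C]
    exact ConvPS.C a
  | add p q hp hq =>
    rw [Polynomial.coe_add]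
    exact hp.add hq
  | monomial n a hp =>
    rw [pow_succ, ← mul_assoc, Polynomial.coe_mul, Polynomial.coe_X]
    exact hp.mul ConvPS.X

theorem ConvPS.aeval {ι : Type*} {Y : ι → ℂ⟦X⟧} (h : ∀ i, ConvPS (Y i))
    (d : MvPolynomial ι ℂ) : ConvPS (MvPolynomial.aeval Y d) := by
  induction d using MvPolynomial.induction_on with
  | C a =>
    rw [MvPolynomial.aeval_C]
    exact ConvPS.C a
  | add p q hp hq =>
    rw [map_add]
    exact hp.add hq
  | mul_X p n hp =>
    rw [map_mul, MvPolynomial.aeval_X]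
    exact hp.mul (h n)

private lemma geom_aux (r : ℝ) (h0 : 0 ≤ r) (h1 : r ≤ 1 / 2) (k : ℕ) :
    ∑ i ∈ Finset.range k, r ^ (i + 1) ≤ 2 * r := by
  have h2 : (∑ i ∈ Finset.range k, r ^ i) * (1 - r) = 1 - r ^ k := by
    have := geom_sum_mul_neg r k
    exact this
  have h3 : (0 : ℝ) ≤ r ^ k := by positivity
  have h4 : 0 ≤ ∑ i ∈ Finset.range k, r ^ i := Finset.sum_nonneg (fun i _ => by positivity)
  have h5 : ∑ i ∈ Finset.range k, r ^ i ≤ 2 := by nlinarith
  have h6 : ∑ i ∈ Finset.range k, r ^ (i + 1) = (∑ i ∈ Finset.range k, r ^ i) * r := by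
    rw [Finset.sum_mul]
    exact Finset.sum_congr rfl (fun i _ => by rw [pow_succ])
  rw [h6]
  nlinarith

private lemma ConvPS.of_mul_unit {d f : ℂ⟦X⟧} (hd : ConvPS d)
    (h0 : PowerSeries.coeff 0 d ≠ 0) (h : ConvPS (d * f)) : ConvPS f := by
  obtain ⟨C, A, hC, hA, hd⟩ := hd
  obtain ⟨C', A', hC', hA', h⟩ := h
  set c : ℝ := ‖PowerSeries.coeff 0 d‖ with hc
  have hc0 : 0 < c := norm_pos_iff.mpr h0
  set L : ℝ := 4 * C / c + 2 with hL
  have hL2 : 2 ≤ L := by
    have : 0 ≤ 4 * C / c := by positivity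
    linarith
  have hLC : 4 * C / c ≤ L := by linarith
  set B : ℝ := max A' (A * L) with hB
  have hB1 : 1 ≤ B := le_max_of_le_left hA'
  have hBA : A * L ≤ B := le_max_right _ _
  have hB0 : 0 < B := by linarith
  refine ⟨2 * C' / c, B, by positivity, hB1, ?_⟩
  set D : ℝ := 2 * C' / c with hD
  have hD0 : 0 < D := by positivity
  intro k
  induction k using Nat.strong_induction_on with
  | _ k ih =>
    have hrec : PowerSeries.coeff 0 d * PowerSeries.coeff k f =
        PowerSeries.coeff k (d * f) - ∑ i ∈ Finset.range k,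
          PowerSeries.coeff (i + 1) d * PowerSeries.coeff (k - (i + 1)) f := by
      rw [PowerSeries.coeff_mul,
        Finset.Nat.sum_antidiagonal_eq_sum_range_succ
          (fun i j => PowerSeries.coeff i d * PowerSeries.coeff j f) k,
        Finset.sum_range_succ']
      simp only [Nat.sub_zero]
      ring
    set r : ℝ := A / B with hr
    have hr0 : 0 ≤ r := by positivity
    have hrL : r * L ≤ 1 := by
      rw [hr, div_mul_eq_mul_div, div_le_one hB0]
      exact hBA
    have hr2 : r ≤ 1 / 2 := by nlinarith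
    have hterm : ∀ i ∈ Finset.range k,
        ‖PowerSeries.coeff (i + 1) d * PowerSeries.coeff (k - (i + 1)) f‖ ≤
          C * D * B ^ k * r ^ (i + 1) := by
      intro i hi
      rw [Finset.mem_range] at hi
      have h1 := hd (i + 1)
      have h2 := ih (k - (i + 1)) (by omega)
      rw [norm_mul]
      have h3 : B ^ k = B ^ (k - (i + 1)) * B ^ (i + 1) := by
        rw [← pow_add]
        congr 1
        omega
      have h4 : B ^ (i + 1) * r ^ (i + 1) = A ^ (i + 1) := by
        rw [← mul_pow, hr, mul_div_cancel₀ _ hB0.ne']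
      calc ‖PowerSeries.coeff (i + 1) d‖ * ‖PowerSeries.coeff (k - (i + 1)) f‖
          ≤ (C * A ^ (i + 1)) * (D * B ^ (k - (i + 1))) :=
            mul_le_mul h1 h2 (norm_nonneg _) (by positivity)
        _ = C * D * (B ^ (k - (i + 1)) * (B ^ (i + 1) * r ^ (i + 1))) := by
            rw [h4]; ring
        _ = C * D * B ^ k * r ^ (i + 1) := by rw [h3]; ring
    have hsum : ‖∑ i ∈ Finset.range k,
        PowerSeries.coeff (i + 1) d * PowerSeries.coeff (k - (i + 1)) f‖ ≤
          C * D * B ^ k * (2 * r) := by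
      refine (norm_sum_le _ _).trans ((Finset.sum_le_sum hterm).trans ?_)
      rw [← Finset.mul_sum]
      exact mul_le_mul_of_nonneg_left (geom_aux r hr0 hr2 k) (by positivity)
    have hg : ‖PowerSeries.coeff k (d * f)‖ ≤ C' * B ^ k :=
      (h k).trans (mul_le_mul_of_nonneg_left
        (pow_le_pow_left₀ (by linarith) (le_max_left _ _) k) hC'.le)
    have hmain : c * ‖PowerSeries.coeff k f‖ ≤ C' * B ^ k + C * D * B ^ k * (2 * r) := by
      rw [hc, ← norm_mul, hrec]
      exact (norm_sub_le _ _).trans (add_le_add hg hsum)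
    have h5 : C * (2 * r) ≤ c / 2 := by
      have h6 : 4 * C / c * r ≤ 1 :=
        (mul_le_mul_of_nonneg_right hLC hr0).trans (by linarith [mul_comm r L])
      have h7 : 4 * C * r ≤ c := by
        have h8 : 4 * C / c * r = 4 * C * r / c := by ring
        rw [h8, div_le_one hc0] at h6
        exact h6
      linarith
    have h9 : C * D * B ^ k * (2 * r) ≤ c / 2 * (D * B ^ k) := by
      have h10 : C * D * B ^ k * (2 * r) = C * (2 * r) * (D * B ^ k) := by ring
      rw [h10]
      exact mul_le_mul_of_nonneg_right h5 (by positivity)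
    have h11 : C' * B ^ k = c / 2 * (D * B ^ k) := by
      rw [hD]
      field_simp
    have h12 : c * ‖PowerSeries.coeff k f‖ ≤ c * (D * B ^ k) := by
      linarith
    exact le_of_mul_le_mul_left h12 hc0

private lemma ConvPS.of_X_mul {f : ℂ⟦X⟧} (h : ConvPS (PowerSeries.X * f)) : ConvPS f := by
  obtain ⟨C, A, hC, hA, h⟩ := h
  refine ⟨C * A, A, by positivity, hA, fun k => ?_⟩
  have h1 := h (k + 1)
  rw [PowerSeries.coeff_succ_X_mul] at h1
  calc ‖PowerSeries.coeff k f‖ ≤ C * A ^ (k + 1) := h1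
    _ = C * A * A ^ k := by ring

private lemma ConvPS.shift {d : ℂ⟦X⟧} (hd : ConvPS (PowerSeries.X * d)) : ConvPS d :=
  hd.of_X_mul

theorem ConvPS.of_mul {d f : ℂ⟦X⟧} (hd : ConvPS d) (h0 : d ≠ 0) (h : ConvPS (d * f)) :
    ConvPS f := by
  have key : ∀ n : ℕ, ∀ d : ℂ⟦X⟧, ConvPS d → PowerSeries.coeff n d ≠ 0 →
      ConvPS (d * f) → ConvPS f := by
    intro n
    induction n with
    | zero =>
      intro d hd h0 h
      exact hd.of_mul_unit h0 h
    | succ n ih =>
      intro d hd h0 h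
      by_cases hz : PowerSeries.coeff 0 d = 0
      · have hX : (PowerSeries.X : ℂ⟦X⟧) ∣ d := by
          rw [PowerSeries.X_dvd_iff, ← PowerSeries.coeff_zero_eq_constantCoeff_apply]
          exact hz
        obtain ⟨d', rfl⟩ := hX
        rw [PowerSeries.coeff_succ_X_mul] at h0
        rw [mul_assoc] at h
        exact ih d' hd.of_X_mul h0 h.of_X_mul
      · exact hd.of_mul_unit hz h
  obtain ⟨n, hn⟩ : ∃ n, PowerSeries.coeff n d ≠ 0 := by
    by_contra hcon
    push Not at hcon
    exact h0 (PowerSeries.ext (fun n => by rw [hcon n, map_zero]))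
  exact key n d hd hn h

end Pool.Agent.CVG
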