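import Mathlib

/-!
# CVG: convergent power series (no sorry)
-/

open scoped BigOperators PowerSeries

namespace Pool.Agent.CVG

/-- The power series has positive radius of convergence. -/
def ConvPS (f : ℂ⟦X⟧) : Prop :=
  ∃ C A : ℝ, 0 < C ∧ 1 ≤ A ∧ ∀ k : ℕ, ‖PowerSeries.coeff k f‖ ≤ C * A ^ k

/-- The power series in several variables converges near the origin. -/
def ConvMv {κ : Type} (f : MvPowerSeries κ ℂ) : Prop :=
  ∃ C A : ℝ, 0 < C ∧ 1 ≤ A ∧ ∀ m : κ →₀ ℕ, ‖MvPowerSeries.coeff m f‖ ≤ C * A ^ m.degree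

/-- weighted bound of the coefficients up to order `n` -/
def WB (K A : ℝ) (n : ℕ) (f : ℂ⟦X⟧) : Prop :=
  ∀ k ≤ n, ‖PowerSeries.coeff k f‖ ≤ K * A ^ k / ((k : ℝ) + 1) ^ 2

end Pool.Agent.CVG
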