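import Pool.Agent.CVG.GaussD

/-!
# CVG: the data of an isomonodromic curve and its operators (no sorry)
-/

open scoped BigOperators

namespace Pool.Agent.CVG

/-- A diagonalisable matrix `U` with simple spectrum over `KK`, together with `S`, `θ` such that
`δ U = S + [S, θ]`, `S` commuting with `U`, and a constant cyclic vector `one`. -/
structure Dat (n : ℕ) where
  /-- eigenvector matrix -/
  G : Matrix (Fin n) (Fin n) KK
  /-- eigenvalues -/
  u : Fin n → KK
  /-- the constant matrix `θ` -/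
  th : Matrix (Fin n) (Fin n) ℂ
  /-- the unit vector -/
  one : Fin n → ℂ
  /-- the shift -/
  mu : ℂ
  U : Matrix (Fin n) (Fin n) KK
  S : Matrix (Fin n) (Fin n) KK
  hG : IsUnit G.det
  hU : U = G * Matrix.diagonal u * G⁻¹
  hS : S = G * Matrix.diagonal (fun i => dK (u i)) * G⁻¹
  inj : Function.Injective u
  u_ge : ∀ i, Ge vK 0 (u i)
  U_ge : ∀ i j, Ge vK 0 (U i j)
  S_ge : ∀ i j, Ge vK 0 (S i j)
  flat : U.map dK = S + (S * th.map cK - th.map cK * S)
  hone : ∀ i, (G⁻¹.mulVec (fun k => cK (one k))) i ≠ 0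
  hB : IsUnit (th + Matrix.scalar (Fin n) mu).det
  hmu : ∀ i, (G * Matrix.diagonal (Pi.single i 1) * G⁻¹ *
    (th + Matrix.scalar (Fin n) mu).map cK).trace ^ 2 ≠ 1

/-- All entries have valuation at least `c`. -/
def GM {F : Type*} [Field F] (v : AddValuation F (WithTop ℚ)) {n m : ℕ} (c : ℚ)
    (X : Matrix (Fin n) (Fin m) F) : Prop := ∀ i j, Ge v c (X i j)

namespace Dat

variable {n : ℕ} (Δ : Dat n)

/-- `θ` over `KK` -/
noncomputable def thK : Matrix (Fin n) (Fin n) KK := Δ.th.map cK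

/-- `B = θ + μ` over `KK` -/
noncomputable def B : Matrix (Fin n) (Fin n) KK :=
  (Δ.th + Matrix.scalar (Fin n) Δ.mu).map cK

/-- spectral projector of `U` -/
noncomputable def E (i : Fin n) : Matrix (Fin n) (Fin n) KK :=
  Δ.G * Matrix.diagonal (Pi.single i 1) * Δ.G⁻¹

/-- `A_i = E_i B` -/
noncomputable def A (i : Fin n) : Matrix (Fin n) (Fin n) KK := Δ.E i * Δ.B

/-- the unit vector over `KK` -/
noncomputable def oneK : Fin n → KK := fun k => cK (Δ.one k)

/-- coordinates of the unit vector in the eigenbasis -/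
noncomputable def o : Fin n → KK := Δ.G⁻¹.mulVec Δ.oneK

/-- the matrix of `W` in the eigenbasis -/
noncomputable def cj (W : Matrix (Fin n) (Fin n) KK) : Matrix (Fin n) (Fin n) KK :=
  Δ.G⁻¹ * W * Δ.G

/-- diagonal entry in the eigenbasis -/
noncomputable def w (i : Fin n) (W : Matrix (Fin n) (Fin n) KK) : KK := Δ.cj W i i

/-- off-diagonal part of the variation of `S`, in the eigenbasis -/
noncomputable def sdOff (W : Matrix (Fin n) (Fin n) KK) : Matrix (Fin n) (Fin n) KK :=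
  Matrix.of fun i j => if i = j then 0 else
    (dK (Δ.u i) - dK (Δ.u j)) / (Δ.u i - Δ.u j) * Δ.cj W i j

/-- The variation of `S` caused by the variation `W` of `U`: the solution of
`[W, S] + [U, Sd W] = 0`, `(Sd W) 1 = 0`. -/
noncomputable def Sd (W : Matrix (Fin n) (Fin n) KK) : Matrix (Fin n) (Fin n) KK :=
  Δ.G * (Δ.sdOff W - Matrix.diagonal (fun i => (Δ.sdOff W).mulVec Δ.o i / Δ.o i)) * Δ.G⁻¹

/-- The linearisation `∇ W = δ W - Sd W - [Sd W, θ]` of `δ U = S + [S, θ]`. -/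
noncomputable def na (W : Matrix (Fin n) (Fin n) KK) : Matrix (Fin n) (Fin n) KK :=
  W.map dK - Δ.Sd W - (Δ.Sd W * Δ.thK - Δ.thK * Δ.Sd W)

/-- the resolvent `(λ - U)⁻¹` -/
noncomputable def R : Matrix (Fin n) (Fin n) FK :=
  Δ.G.map CF * Matrix.diagonal (fun i => (lam - CF (Δ.u i))⁻¹) * Δ.G⁻¹.map CF

/-- `R B` -/
noncomputable def RB : Matrix (Fin n) (Fin n) FK := Δ.R * Δ.B.map CF

/-- `R S B` -/
noncomputable def RSB : Matrix (Fin n) (Fin n) FK := Δ.R * Δ.S.map CF * Δ.B.map CF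

/-- the connection in the direction `δ`: `δ x - R S B x` -/
noncomputable def T0 (x : Fin n → FK) : Fin n → FK := (fun i => dl (x i)) - Δ.RSB.mulVec x

/-- the connection in the direction `∂/∂λ`: `∂x/∂λ + R B x` -/
noncomputable def Td (x : Fin n → FK) : Fin n → FK := (fun i => dlam (x i)) + Δ.RB.mulVec x

/-- the connection in the direction `δ + g ∂/∂λ` -/
noncomputable def T (g : FK) (x : Fin n → FK) : Fin n → FK := Δ.T0 x + g • Δ.Td x

/-- the connection in the direction of the root `i` -/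
noncomputable def TD (i : Fin n) : (Fin n → FK) → Fin n → FK := Δ.T (CF (dK (Δ.u i)))

/-- the connection in the direction `(λ - u_i) ∂/∂λ` -/
noncomputable def Tth (i : Fin n) (x : Fin n → FK) : Fin n → FK := (lam - CF (Δ.u i)) • Δ.Td x

/-- induced connection on matrices, direction `δ` -/
noncomputable def TE0 (X : Matrix (Fin n) (Fin n) FK) : Matrix (Fin n) (Fin n) FK :=
  X.map dl - (Δ.RSB * X - X * Δ.RSB)

/-- induced connection on matrices, direction `∂/∂λ` -/
noncomputable def TEd (X : Matrix (Fin n) (Fin n) FK) : Matrix (Fin n) (Fin n) FK :=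
  X.map dlam + (Δ.RB * X - X * Δ.RB)

/-- induced connection on matrices, direction `δ + g ∂/∂λ` -/
noncomputable def TE (g : FK) (X : Matrix (Fin n) (Fin n) FK) : Matrix (Fin n) (Fin n) FK :=
  Δ.TE0 X + g • Δ.TEd X

/-- `R W R B` -/
noncomputable def bl (W : Matrix (Fin n) (Fin n) KK) : Matrix (Fin n) (Fin n) FK :=
  Δ.R * W.map CF * Δ.RB

/-- `- R W R S B - R (Sd W) B` -/
noncomputable def b0 (W : Matrix (Fin n) (Fin n) KK) : Matrix (Fin n) (Fin n) FK :=
  -(Δ.R * W.map CF * Δ.RSB) - Δ.R * (Δ.Sd W).map CF * Δ.B.map CF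

/-- `R W R (g - S) B - R (Sd W) B` -/
noncomputable def bD (g : FK) (W : Matrix (Fin n) (Fin n) KK) : Matrix (Fin n) (Fin n) FK :=
  Δ.b0 W + g • Δ.bl W

/-- `γ_0 = 0`, `γ_{k+1} = TE_g γ_k - β_g (∇^k W)` -/
noncomputable def gam (g : FK) (W : Matrix (Fin n) (Fin n) KK) : ℕ → Matrix (Fin n) (Fin n) FK
  | 0 => 0
  | k + 1 => Δ.TE g (gam g W k) - Δ.bD g (Δ.na^[k] W)

/-- diagonal part: `∑ w_j(W) E_j` -/
noncomputable def PP (W : Matrix (Fin n) (Fin n) KK) : Matrix (Fin n) (Fin n) KK :=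
  ∑ j, Δ.w j W • Δ.E j

open Classical in
/-- the roots in the closed disc of radius exponent `q` around `u_i` -/
noncomputable def clus (i : Fin n) (q : ℚ) : Finset (Fin n) :=
  Finset.univ.filter fun j => (q : WithTop ℚ) ≤ vK (Δ.u j - Δ.u i)

/-- `∑_{j ∈ J} w_j(W) A_j` -/
noncomputable def pS (J : Finset (Fin n)) (W : Matrix (Fin n) (Fin n) KK) :
    Matrix (Fin n) (Fin n) KK := ∑ j ∈ J, Δ.w j W • Δ.A j

end Dat

end Pool.Agent.CVG
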