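import Pool.Agent.CVG.PSK
import Pool.Agent.CVG.Dat

/-!
# CVG: the data of a formal curve (no sorry)
-/

open scoped BigOperators PowerSeries

namespace Pool.Agent.CVG

/-- Formal solution `U` of `U' = C + [C, θ]`, `[U, C] = 0`, `C 1 = v` constant, with generically simple
spectrum and generically cyclic vector `1`. -/
structure CurveData (N : ℕ) where
  U : Matrix (Fin N) (Fin N) ℂ⟦X⟧
  Cv : Matrix (Fin N) (Fin N) ℂ⟦X⟧
  th : Matrix (Fin N) (Fin N) ℂ
  one : Fin N → ℂ
  v : Fin N → ℂ
  hU : U.map (PowerSeries.derivative ℂ) =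
    Cv + (Cv * th.map (PowerSeries.C : ℂ → ℂ⟦X⟧) - th.map (PowerSeries.C : ℂ → ℂ⟦X⟧) * Cv)
  hc : U * Cv = Cv * U
  h1 : Cv.mulVec (fun k => PowerSeries.C (one k)) = fun k => PowerSeries.C (v k)
  hsep : ∃ (d : ℂ⟦X⟧) (a b : Polynomial ℂ⟦X⟧), d ≠ 0 ∧
    a * U.charpoly + b * Polynomial.derivative U.charpoly = Polynomial.C d
  hcyc : (Matrix.of fun i k : Fin N =>
    (U ^ (k : ℕ)).mulVec (fun k => PowerSeries.C (one k)) i).det ≠ 0

section poly

variable {N : ℕ} (th : Matrix (Fin N) (Fin N) ℂ) (one v : Fin N → ℂ)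

/-- polynomial ring in the entries of a matrix -/
abbrev PR (N : ℕ) : Type := MvPolynomial (Fin N × Fin N) ℂ

/-- the generic matrix -/
noncomputable def gU (N : ℕ) : Matrix (Fin N) (Fin N) (PR N) :=
  Matrix.of fun i j => MvPolynomial.X (i, j)

/-- the matrix `(1, U 1, ..., U^(N-1) 1)` -/
noncomputable def gK : Matrix (Fin N) (Fin N) (PR N) :=
  Matrix.of fun i k => ((gU N) ^ (k : ℕ)).mulVec (fun l => MvPolynomial.C (one l)) i

/-- its determinant -/
noncomputable def gd : PR N := (gK one).det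

/-- `adj(K) v` -/
noncomputable def gc : Fin N → PR N :=
  (gK one).adjugate.mulVec (fun l => MvPolynomial.C (v l))

/-- the polynomial in `U` mapping `1` to `det K v` -/
noncomputable def gC : Matrix (Fin N) (Fin N) (PR N) := ∑ k : Fin N, gc one v k • (gU N) ^ (k : ℕ)

/-- the numerator of the vector field -/
noncomputable def gH : Matrix (Fin N) (Fin N) (PR N) :=
  gC one v + (gC one v * th.map (MvPolynomial.C : ℂ → PR N) -
    th.map (MvPolynomial.C : ℂ → PR N) * gC one v)

end poly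

namespace CurveData

variable {N : ℕ} (D : CurveData N)

/-- the entries of `U` as a vector -/
noncomputable def Y : Fin N × Fin N → ℂ⟦X⟧ := fun p => D.U p.1 p.2

/-- evaluation of polynomials at `U` -/
noncomputable def ev : PR N →+* ℂ⟦X⟧ := (MvPolynomial.aeval D.Y).toRingHom

/-- the denominator along the curve -/
noncomputable def d : ℂ⟦X⟧ := MvPolynomial.aeval D.Y (gd D.one)

/-- the matrix of the linearised equation:
`L_{p l} = X ∂_l H_p(Y) - ∂_l d(Y) X Y_p'` -/
noncomputable def L : Matrix (Fin N × Fin N) (Fin N × Fin N) ℂ⟦X⟧ := Matrix.of fun p l =>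
  PowerSeries.X * MvPolynomial.aeval D.Y (MvPolynomial.pderiv l (gH D.th D.one D.v p.1 p.2)) -
    MvPolynomial.aeval D.Y (MvPolynomial.pderiv l (gd D.one)) *
      (PowerSeries.X * PowerSeries.derivative ℂ (D.Y p))

end CurveData

end Pool.Agent.CVG
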