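import Pool.Agent.CVG.MalS
import Pool.Agent.CVG.ConvDefs

/-!
# CVG-MalB: reduction to a Briot-Bouquet system

PLAN. Notation `δ = X d/dX`, `D = d(Y) = X^w ε` (`w` its order), `P` the matrix of power series with polynomial
entries `P₁`, `det P = X^p ε'`. Choose `m = p + w + 1` and `T = 2 (p + m + w) + 2`. Let `Y0 = trunc T Y`. As
`adj(P) (Y - Y0)` is divisible by `X^T` and `T ≥ m + p + 1`, there is `Z` with `Z(0) = 0` and
`Y = Y0 + X^m P Z` (`Z = X^(-m-p) ε'⁻¹ adj(P) (Y - Y0)`). Put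
 `D̃ = aeval (affSub Y0 P m) d`, `H̃_j = aeval (affSub Y0 P m) (H j)`, and
 `𝓕_i = ∑_j C adj(P)_{ij} * (C X * H̃_j - D̃ * (C (δ Y0_j) + ∑_k C (X^m (m P_{jk} + δ P_{jk})) * Z_k))`.
From `D δY_j = X H_j(Y)` and `δY_j = δY0_j + X^m ∑_k (m P_{jk} + δP_{jk}) Z_k + X^m ∑_k P_{jk} δZ_k`,
 `det P * X^m * D̃(Z) * δZ_i = 𝓕_i(Z)`.
Divisibility of coefficients (`coeff_sub_dvd`, `coeff_sub_zero`, `coeff_sub_single`):
 - `coeff 0 D̃ = d(Y0) ≡ d(Y) mod X^T`: order exactly `w`; `coeff α D̃` divisible by `X^(m |α|)`, so by `X^(w+1)`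
   for `α ≠ 0`: `D̃ = C (X^w) * D'` with `D'` having nonzero constant term at `α = 0` and zero constant
   term for `α ≠ 0`.
 - `|α| ≥ 2`: `coeff α 𝓕_i` divisible by `X^(m |α|)`, and `2 m ≥ p + m + w + 1`.
 - `α = 0`: `∑_j adj_{ij} (X H_j(Y0) - d(Y0) δY0_j)` is divisible by `X^T`, as `X H(Y) - d(Y) δY = 0` and
   `Y0 ≡ Y mod X^T`.
 - `α = single k 1`: equals `X^m [adj(P) (X DH(Y0) P - δY0 ⊗ (Dd(Y0) P) - d(Y0) (m P + δP))]_{ik}`, modulo
   `X^(m+T)` the same with `Y` instead of `Y0`, and by `hM` this is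
   `- X^m [adj(P) D (P M + m P)]_{ik} = - X^m D det P [M + m]_{ik}`, divisible by `X^(m + w + p)`.
So `𝓕_i = C (X^(p+m+w)) * F'_i`, with constant terms zero for `|α| ≠ 1`. Cancel `X^(p+m+w)`:
`ε' D'(Z) δZ_i = F'_i(Z)`; take `Dp = C ε' * D'`, `Fp = F'`. All coefficients are polynomials in `X`
(`coeff_sub_poly`; quotient of a polynomial by a power of `X`), hence convergent: here only stated as
is a polynomial.
-/

open scoped BigOperators PowerSeries

namespace Pool.Agent.CVG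

private theorem mb_coeff_delta (f : ℂ⟦X⟧) (n : ℕ) :
    PowerSeries.coeff n (PowerSeries.X * PowerSeries.derivative ℂ f) = n * PowerSeries.coeff n f := by
  cases n with
  | zero => rw [PowerSeries.coeff_zero_X_mul]; simp
  | succ n =>
    rw [PowerSeries.coeff_succ_X_mul, PowerSeries.coeff_derivative]
    push_cast
    ring

private theorem mb_delta_X_pow (m : ℕ) (f : ℂ⟦X⟧) :
    PowerSeries.X * PowerSeries.derivative ℂ (PowerSeries.X ^ m * f) =
      PowerSeries.X ^ m * ((m : ℂ⟦X⟧) * f + PowerSeries.X * PowerSeries.derivative ℂ f) := by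
  have h0 : (m : ℂ⟦X⟧) = PowerSeries.C (m : ℂ) := (map_natCast (PowerSeries.C (R := ℂ)) m).symm
  ext n
  rw [mb_coeff_delta, PowerSeries.coeff_X_pow_mul', PowerSeries.coeff_X_pow_mul']
  split_ifs with h
  · rw [map_add, mb_coeff_delta, h0, PowerSeries.coeff_C_mul, Nat.cast_sub h]
    ring
  · rw [mul_zero]

private theorem mb_delta_dvd {T : ℕ} {f : ℂ⟦X⟧} (h : PowerSeries.X ^ T ∣ f) :
    PowerSeries.X ^ T ∣ PowerSeries.X * PowerSeries.derivative ℂ f := by
  obtain ⟨g, rfl⟩ := h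
  rw [mb_delta_X_pow]
  exact dvd_mul_right _ _

private theorem mb_delta_mul (f g : ℂ⟦X⟧) :
    PowerSeries.X * PowerSeries.derivative ℂ (f * g) =
      (PowerSeries.X * PowerSeries.derivative ℂ f) * g +
        f * (PowerSeries.X * PowerSeries.derivative ℂ g) := by
  rw [Derivation.leibniz, smul_eq_mul, smul_eq_mul]
  ring

private theorem mb_split {f : ℂ⟦X⟧} (hf : f ≠ 0) : ∃ (w : ℕ) (g : ℂ⟦X⟧),
    f = PowerSeries.X ^ w * g ∧ PowerSeries.constantCoeff g ≠ 0 := by
  have h1 : FiniteMultiplicity (PowerSeries.X : ℂ⟦X⟧) f :=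
    FiniteMultiplicity.of_prime_left PowerSeries.X_prime hf
  obtain ⟨g, hg1, hg2⟩ := h1.exists_eq_pow_mul_and_not_dvd
  exact ⟨_, g, hg1, fun h => hg2 (PowerSeries.X_dvd_iff.2 h)⟩

private theorem mb_aeval_dvd {ι : Type} {T : ℕ} {Y Y0 : ι → ℂ⟦X⟧}
    (h : ∀ i, PowerSeries.X ^ T ∣ Y i - Y0 i) (g : MvPolynomial ι ℂ) :
    PowerSeries.X ^ T ∣ MvPolynomial.aeval Y g - MvPolynomial.aeval Y0 g := by
  induction g using MvPolynomial.induction_on with
  | C a => simp
  | add p q hp hq =>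
    rw [map_add, map_add, add_sub_add_comm]
    exact dvd_add hp hq
  | mul_X p i hp =>
    rw [map_mul, map_mul, MvPolynomial.aeval_X, MvPolynomial.aeval_X]
    have h1 : MvPolynomial.aeval Y p * Y i - MvPolynomial.aeval Y0 p * Y0 i =
        (MvPolynomial.aeval Y p - MvPolynomial.aeval Y0 p) * Y i +
          MvPolynomial.aeval Y0 p * (Y i - Y0 i) := by ring
    rw [h1]
    exact dvd_add (Dvd.dvd.mul_right hp _) (Dvd.dvd.mul_left (h i) _)

private def IsP (f : ℂ⟦X⟧) : Prop := ∃ p : Polynomial ℂ, f = (p : ℂ⟦X⟧)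

private theorem IsP.add {f g : ℂ⟦X⟧} (hf : IsP f) (hg : IsP g) : IsP (f + g) := by
  obtain ⟨p, rfl⟩ := hf
  obtain ⟨q, rfl⟩ := hg
  exact ⟨p + q, by simp⟩

private theorem IsP.mul {f g : ℂ⟦X⟧} (hf : IsP f) (hg : IsP g) : IsP (f * g) := by
  obtain ⟨p, rfl⟩ := hf
  obtain ⟨q, rfl⟩ := hg
  exact ⟨p * q, by simp⟩

private theorem IsP.neg {f : ℂ⟦X⟧} (hf : IsP f) : IsP (-f) := by
  obtain ⟨p, rfl⟩ := hf
  exact ⟨-p, by rw [← Polynomial.coeToPowerSeries.ringHom_apply, ← Polynomial.coeToPowerSeries.ringHom_apply, map_neg]⟩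

private theorem IsP.sub {f g : ℂ⟦X⟧} (hf : IsP f) (hg : IsP g) : IsP (f - g) := by
  rw [sub_eq_add_neg]
  exact hf.add hg.neg

private theorem IsP_X : IsP (PowerSeries.X : ℂ⟦X⟧) := ⟨Polynomial.X, by simp⟩

private theorem IsP_zero : IsP (0 : ℂ⟦X⟧) := ⟨0, by simp⟩

private theorem IsP_one : IsP (1 : ℂ⟦X⟧) := ⟨1, by simp⟩

private theorem IsP_natCast (m : ℕ) : IsP (m : ℂ⟦X⟧) := ⟨(m : Polynomial ℂ), by
  rw [← Polynomial.coeToPowerSeries.ringHom_apply, map_natCast]⟩

private theorem IsP.pow {f : ℂ⟦X⟧} (hf : IsP f) (n : ℕ) : IsP (f ^ n) := by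
  obtain ⟨p, rfl⟩ := hf
  exact ⟨p ^ n, by simp⟩

private theorem IsP.sum {α : Type} (s : Finset α) (f : α → ℂ⟦X⟧) (h : ∀ i ∈ s, IsP (f i)) :
    IsP (∑ i ∈ s, f i) := by
  classical
  induction s using Finset.induction_on with
  | empty => rw [Finset.sum_empty]; exact IsP_zero
  | insert a s ha ih =>
    rw [Finset.sum_insert ha]
    exact (h a (Finset.mem_insert_self a s)).add (ih fun i hi => h i (Finset.mem_insert_of_mem hi))

private theorem IsP_of_bdd {f : ℂ⟦X⟧} (N : ℕ) (h : ∀ n, N ≤ n → PowerSeries.coeff n f = 0) :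
    IsP f := by
  refine ⟨PowerSeries.trunc N f, ?_⟩
  ext n
  rw [Polynomial.coeff_coe, PowerSeries.coeff_trunc]
  split_ifs with h1
  · rfl
  · exact h n (not_lt.1 h1)

private theorem IsP.bdd {f : ℂ⟦X⟧} (hf : IsP f) : ∃ N : ℕ, ∀ n, N ≤ n → PowerSeries.coeff n f = 0 := by
  obtain ⟨p, rfl⟩ := hf
  refine ⟨p.natDegree + 1, fun n hn => ?_⟩
  rw [Polynomial.coeff_coe]
  exact Polynomial.coeff_eq_zero_of_natDegree_lt (by omega)

private theorem IsP.delta {f : ℂ⟦X⟧} (hf : IsP f) : IsP (PowerSeries.X * PowerSeries.derivative ℂ f) := by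
  obtain ⟨N, hN⟩ := hf.bdd
  refine IsP_of_bdd N (fun n hn => ?_)
  rw [mb_coeff_delta, hN n hn, mul_zero]

private theorem IsP.of_X_pow_mul {f : ℂ⟦X⟧} {a : ℕ} (hf : IsP (PowerSeries.X ^ a * f)) : IsP f := by
  obtain ⟨N, hN⟩ := hf.bdd
  refine IsP_of_bdd N (fun n hn => ?_)
  have h := hN (n + a) (by omega)
  rwa [PowerSeries.coeff_X_pow_mul', if_pos (by omega), Nat.add_sub_cancel] at h

private theorem mb_cancel {a : ℕ} {f g : ℂ⟦X⟧} (h : PowerSeries.X ^ a * f = PowerSeries.X ^ a * g) :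
    f = g := by
  exact mul_left_cancel₀ (pow_ne_zero _ PowerSeries.X_ne_zero) h

private theorem mb_X_dvd {a : ℕ} {f : ℂ⟦X⟧} (h : PowerSeries.X ^ (a + 1) ∣ PowerSeries.X ^ a * f) :
    PowerSeries.constantCoeff f = 0 := by
  rw [pow_succ, mul_dvd_mul_iff_left (pow_ne_zero _ PowerSeries.X_ne_zero)] at h
  exact PowerSeries.X_dvd_iff.1 h

private theorem mb_Z {ι : Type} [Fintype ι] [DecidableEq ι] (Y Y0 : ι → ℂ⟦X⟧)
    (P : Matrix ι ι ℂ⟦X⟧) (p m T : ℕ) (e : ℂ⟦X⟧) (he : PowerSeries.constantCoeff e ≠ 0)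
    (hdet : P.det = PowerSeries.X ^ p * e) (hT : m + p < T)
    (h : ∀ i, PowerSeries.X ^ T ∣ Y i - Y0 i) :
    ∃ Z : ι → ℂ⟦X⟧, (∀ i, Y i = Y0 i + PowerSeries.X ^ m * ∑ j, P i j * Z j) ∧
      ∀ i, PowerSeries.constantCoeff (Z i) = 0 := by
  choose R hR using h
  refine ⟨fun i => PowerSeries.X ^ (T - m - p) * (e⁻¹ * ∑ j, P.adjugate i j * R j), ?_, ?_⟩
  · intro i
    have h1 : ∑ j, P i j * (∑ l, P.adjugate j l * R l) = P.det * R i := by
      have h2 : P.mulVec (P.adjugate.mulVec R) = P.det • R := by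
        rw [Matrix.mulVec_mulVec, Matrix.mul_adjugate, Matrix.smul_mulVec, Matrix.one_mulVec]
      exact congrFun h2 i
    have h3 : ∑ j, P i j * (PowerSeries.X ^ (T - m - p) * (e⁻¹ * ∑ l, P.adjugate j l * R l)) =
        PowerSeries.X ^ (T - m - p) * (e⁻¹ * (P.det * R i)) := by
      rw [← h1, Finset.mul_sum, Finset.mul_sum]
      exact Finset.sum_congr rfl (fun j _ => by ring)
    have h4 : e * e⁻¹ = 1 := PowerSeries.mul_inv_cancel e he
    have h5 : PowerSeries.X ^ m * (PowerSeries.X ^ (T - m - p) *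
        (e⁻¹ * (PowerSeries.X ^ p * e * R i))) = PowerSeries.X ^ T * R i := by
      calc _ = (PowerSeries.X ^ m * PowerSeries.X ^ (T - m - p) * PowerSeries.X ^ p) *
            (e * e⁻¹) * R i := by ring
        _ = _ := by
          rw [h4, mul_one, ← pow_add, ← pow_add]
          congr 2
          omega
    rw [h3, hdet, h5, ← hR i]
    ring
  · intro i
    rw [map_mul, map_pow, PowerSeries.constantCoeff_X, zero_pow (by omega), zero_mul]

private theorem mb_eval {ι : Type} [Fintype ι] [DecidableEq ι] (Y Y0 Z : ι → ℂ⟦X⟧)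
    (P : Matrix ι ι ℂ⟦X⟧) (m : ℕ) (D : ℂ⟦X⟧)
    (hY : ∀ i, Y i = Y0 i + PowerSeries.X ^ m * ∑ j, P i j * Z j) (i : ι) :
    ∑ j, P.adjugate i j * (D * (PowerSeries.X * PowerSeries.derivative ℂ (Y j)) -
      D * (PowerSeries.X * PowerSeries.derivative ℂ (Y0 j) + ∑ k, (PowerSeries.X ^ m *
        ((m : ℂ⟦X⟧) * P j k + PowerSeries.X * PowerSeries.derivative ℂ (P j k))) * Z k)) =
      P.det * PowerSeries.X ^ m * D * (PowerSeries.X * PowerSeries.derivative ℂ (Z i)) := by
  have h1 : ∀ j, D * (PowerSeries.X * PowerSeries.derivative ℂ (Y j)) -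
      D * (PowerSeries.X * PowerSeries.derivative ℂ (Y0 j) + ∑ k, (PowerSeries.X ^ m *
        ((m : ℂ⟦X⟧) * P j k + PowerSeries.X * PowerSeries.derivative ℂ (P j k))) * Z k) =
      D * PowerSeries.X ^ m * ∑ k, P j k * (PowerSeries.X * PowerSeries.derivative ℂ (Z k)) := by
    intro j
    have h2 : PowerSeries.X * PowerSeries.derivative ℂ (Y j) =
        PowerSeries.X * PowerSeries.derivative ℂ (Y0 j) + PowerSeries.X ^ m *
          ((m : ℂ⟦X⟧) * (∑ k, P j k * Z k) +
            ∑ k, ((PowerSeries.X * PowerSeries.derivative ℂ (P j k)) * Z k +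
              P j k * (PowerSeries.X * PowerSeries.derivative ℂ (Z k)))) := by
      rw [hY j, map_add, mul_add, mb_delta_X_pow, map_sum, Finset.mul_sum (s := Finset.univ)
        (a := PowerSeries.X)]
      congr 3
      exact Finset.sum_congr rfl (fun k _ => mb_delta_mul _ _)
    rw [h2, Finset.sum_add_distrib]
    have h3 : ∑ k, (PowerSeries.X ^ m * ((m : ℂ⟦X⟧) * P j k +
        PowerSeries.X * PowerSeries.derivative ℂ (P j k))) * Z k =
        PowerSeries.X ^ m * ((m : ℂ⟦X⟧) * (∑ k, P j k * Z k) +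
          ∑ k, (PowerSeries.X * PowerSeries.derivative ℂ (P j k)) * Z k) := by
      rw [Finset.mul_sum, ← Finset.sum_add_distrib, Finset.mul_sum]
      exact Finset.sum_congr rfl (fun k _ => by ring)
    rw [h3]
    ring
  rw [Finset.sum_congr rfl (fun j _ => by rw [h1 j])]
  have h4 : P.adjugate.mulVec (P.mulVec fun k => PowerSeries.X * PowerSeries.derivative ℂ (Z k)) =
      P.det • fun k => PowerSeries.X * PowerSeries.derivative ℂ (Z k) := by
    rw [Matrix.mulVec_mulVec, Matrix.adjugate_mul, Matrix.smul_mulVec, Matrix.one_mulVec]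
  have h5 : ∑ j, P.adjugate i j * ∑ k, P j k *
      (PowerSeries.X * PowerSeries.derivative ℂ (Z k)) =
      P.det * (PowerSeries.X * PowerSeries.derivative ℂ (Z i)) := congrFun h4 i
  calc _ = D * PowerSeries.X ^ m * ∑ j, P.adjugate i j * ∑ k, P j k *
        (PowerSeries.X * PowerSeries.derivative ℂ (Z k)) := by
        rw [Finset.mul_sum]
        exact Finset.sum_congr rfl (fun j _ => by ring)
    _ = _ := by rw [h5]; ring

private theorem mb_coeffG {ι : Type} [Fintype ι] [DecidableEq ι] (Ht Dt : MvPolynomial ι ℂ⟦X⟧)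
    (a0 : ℂ⟦X⟧) (b : ι → ℂ⟦X⟧) (α : ι →₀ ℕ) :
    MvPolynomial.coeff α (MvPolynomial.C PowerSeries.X * Ht -
      Dt * (MvPolynomial.C a0 + ∑ k, MvPolynomial.C (b k) * MvPolynomial.X k)) =
      PowerSeries.X * MvPolynomial.coeff α Ht - (MvPolynomial.coeff α Dt * a0 +
        ∑ k, b k * (if k ∈ α.support then MvPolynomial.coeff (α - Finsupp.single k 1) Dt
          else 0)) := by
  rw [MvPolynomial.coeff_sub, MvPolynomial.coeff_C_mul, mul_add, MvPolynomial.coeff_add,
    mul_comm Dt (MvPolynomial.C a0), MvPolynomial.coeff_C_mul, mul_comm a0, Finset.mul_sum,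
    MvPolynomial.coeff_sum]
  congr 2
  refine Finset.sum_congr rfl (fun k _ => ?_)
  have h1 : Dt * (MvPolynomial.C (b k) * MvPolynomial.X k) =
      MvPolynomial.C (b k) * (Dt * MvPolynomial.X k) := by ring
  rw [h1, MvPolynomial.coeff_C_mul, MvPolynomial.coeff_mul_X']

private theorem mb_adj {ι : Type} [Fintype ι] [DecidableEq ι] (P M : Matrix ι ι ℂ⟦X⟧) (m : ℕ)
    (i k : ι) : ∑ j, P.adjugate i j * (∑ l, P j l * M l k + (m : ℂ⟦X⟧) * P j k) =
      P.det * (M i k + (m : ℂ⟦X⟧) * (1 : Matrix ι ι ℂ⟦X⟧) i k) := by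
  have h1 : P.adjugate * (P * M) = P.det • M := by
    rw [← Matrix.mul_assoc, Matrix.adjugate_mul, Matrix.smul_mul, Matrix.one_mul]
  have h2 : ∑ j, P.adjugate i j * ∑ l, P j l * M l k = P.det * M i k :=
    congrFun (congrFun h1 i) k
  have h3 : ∑ j, P.adjugate i j * P j k = P.det * (1 : Matrix ι ι ℂ⟦X⟧) i k :=
    congrFun (congrFun (Matrix.adjugate_mul P) i) k
  calc _ = ∑ j, P.adjugate i j * ∑ l, P j l * M l k +
        (m : ℂ⟦X⟧) * ∑ j, P.adjugate i j * P j k := by
        rw [Finset.mul_sum, ← Finset.sum_add_distrib]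
        exact Finset.sum_congr rfl (fun j _ => by ring)
    _ = _ := by rw [h2, h3]; ring

private theorem mb_degree_one {ι : Type} [DecidableEq ι] {α : ι →₀ ℕ} (h : α.degree = 1) :
    ∃ k, α = Finsupp.single k 1 := by
  have h0 : α ≠ 0 := by
    rintro rfl
    rw [map_zero] at h
    exact zero_ne_one h
  obtain ⟨k, hk⟩ := Finsupp.ne_iff.1 h0
  refine ⟨k, ?_⟩
  have h1 : Finsupp.single k 1 ≤ α := by
    rw [Finsupp.single_le_iff]
    exact Nat.one_le_iff_ne_zero.2 hk
  obtain ⟨β, rfl⟩ := exists_add_of_le h1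
  rw [map_add, Finsupp.degree_single] at h
  have h2 : β.degree = 0 := by omega
  rw [Finsupp.degree_eq_zero_iff] at h2
  rw [h2, add_zero]

theorem exists_bb_system {ι : Type} [Fintype ι] [DecidableEq ι] (Y : ι → ℂ⟦X⟧)
    (d : MvPolynomial ι ℂ) (H : ι → MvPolynomial ι ℂ) (hd : MvPolynomial.aeval Y d ≠ 0)
    (hY : ∀ i, MvPolynomial.aeval Y d * PowerSeries.derivative ℂ (Y i) = MvPolynomial.aeval Y (H i))
    (P₁ : Matrix ι ι (Polynomial ℂ)) (P M : Matrix ι ι ℂ⟦X⟧)
    (hPP : P = P₁.map (fun p => (p : ℂ⟦X⟧))) (hP : P.det ≠ 0)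
    (hM : ∀ i j, MvPolynomial.aeval Y d * (PowerSeries.X * PowerSeries.derivative ℂ (P i j)) -
      ∑ l, (PowerSeries.X * MvPolynomial.aeval Y (MvPolynomial.pderiv l (H i)) -
        MvPolynomial.aeval Y (MvPolynomial.pderiv l d) *
          (PowerSeries.X * PowerSeries.derivative ℂ (Y i))) * P l j =
      MvPolynomial.aeval Y d * ∑ l, P i l * M l j) :
    ∃ (Y0 Z : ι → ℂ⟦X⟧) (m : ℕ) (Dp : MvPolynomial ι ℂ⟦X⟧) (Fp : ι → MvPolynomial ι ℂ⟦X⟧),
      (∀ i, ∃ p : Polynomial ℂ, Y0 i = (p : ℂ⟦X⟧)) ∧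
      (∀ i, Y i = Y0 i + PowerSeries.X ^ m * ∑ j, P i j * Z j) ∧
      (∀ i, PowerSeries.constantCoeff (Z i) = 0) ∧
      (∀ α, ∃ p : Polynomial ℂ, MvPolynomial.coeff α Dp = (p : ℂ⟦X⟧)) ∧
      (∀ i α, ∃ p : Polynomial ℂ, MvPolynomial.coeff α (Fp i) = (p : ℂ⟦X⟧)) ∧
      PowerSeries.constantCoeff (MvPolynomial.coeff 0 Dp) ≠ 0 ∧
      (∀ α : ι →₀ ℕ, α ≠ 0 → PowerSeries.constantCoeff (MvPolynomial.coeff α Dp) = 0) ∧
      (∀ (i : ι) (α : ι →₀ ℕ), α.degree ≠ 1 →
        PowerSeries.constantCoeff (MvPolynomial.coeff α (Fp i)) = 0) ∧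
      (∀ i, MvPolynomial.eval Z Dp * (PowerSeries.X * PowerSeries.derivative ℂ (Z i)) =
        MvPolynomial.eval Z (Fp i)) := by
  obtain ⟨w, u, hu1, hu2⟩ := mb_split hd
  obtain ⟨p, e, he1, he2⟩ := mb_split hP
  -- polynomials
  have hPpoly : ∀ i j, IsP (P i j) := fun i j => ⟨P₁ i j, by rw [hPP]; rfl⟩
  have hPP' : P = (Polynomial.coeToPowerSeries.ringHom (R := ℂ)).mapMatrix P₁ := hPP
  have hdetpoly : IsP P.det := ⟨P₁.det, by
    rw [hPP', ← RingHom.map_det]
    rfl⟩
  have hadjpoly : ∀ i j, IsP (P.adjugate i j) := fun i j => ⟨P₁.adjugate i j, by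
    rw [hPP', ← RingHom.map_adjugate]
    rfl⟩
  have hepoly : IsP e := IsP.of_X_pow_mul (a := p) (he1 ▸ hdetpoly)
  obtain ⟨m, hm⟩ : ∃ m, m = p + w + 1 := ⟨_, rfl⟩
  obtain ⟨T, hT⟩ : ∃ T, T = 2 * (p + m + w) + 2 := ⟨_, rfl⟩
  obtain ⟨Y0, hY0⟩ : ∃ Y0 : ι → ℂ⟦X⟧, ∀ i, Y0 i = (PowerSeries.trunc T (Y i) : Polynomial ℂ) :=
    ⟨_, fun i => rfl⟩
  have hY0poly : ∀ i, IsP (Y0 i) := fun i => ⟨_, hY0 i⟩
  have hY0dvd : ∀ i, PowerSeries.X ^ T ∣ Y i - Y0 i := by
    intro i
    rw [PowerSeries.X_pow_dvd_iff]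
    intro n hn
    rw [map_sub, hY0, Polynomial.coeff_coe, PowerSeries.coeff_trunc, if_pos hn, sub_self]
  obtain ⟨Z, hZ1, hZ2⟩ := mb_Z Y Y0 P p m T e he2 he1 (by omega) hY0dvd
  have hYeq : (fun i => Y0 i + PowerSeries.X ^ m * ∑ j, P i j * Z j) = Y :=
    funext fun i => (hZ1 i).symm
  -- the substituted polynomials
  obtain ⟨Dt, hDt⟩ : ∃ Dt, Dt = MvPolynomial.aeval (affSub Y0 P m) d := ⟨_, rfl⟩
  obtain ⟨Ht, hHt⟩ : ∃ Ht : ι → MvPolynomial ι ℂ⟦X⟧,
      ∀ j, Ht j = MvPolynomial.aeval (affSub Y0 P m) (H j) := ⟨_, fun _ => rfl⟩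
  have hDt0 : MvPolynomial.coeff 0 Dt = MvPolynomial.aeval Y0 d := by
    rw [hDt, coeff_sub_zero]
  have hDtα : ∀ α : ι →₀ ℕ, PowerSeries.X ^ (m * α.degree) ∣ MvPolynomial.coeff α Dt := by
    intro α
    rw [hDt]
    exact coeff_sub_dvd Y0 P m d α
  have hDt1 : ∀ k, MvPolynomial.coeff (Finsupp.single k 1) Dt =
      PowerSeries.X ^ m * ∑ l, MvPolynomial.aeval Y0 (MvPolynomial.pderiv l d) * P l k := by
    intro k
    rw [hDt, coeff_sub_single]
  have hDte : MvPolynomial.eval Z Dt = MvPolynomial.aeval Y d := by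
    rw [hDt, eval_sub, hYeq]
  have hHt0 : ∀ j, MvPolynomial.coeff 0 (Ht j) = MvPolynomial.aeval Y0 (H j) := by
    intro j
    rw [hHt, coeff_sub_zero]
  have hHtα : ∀ j, ∀ α : ι →₀ ℕ, PowerSeries.X ^ (m * α.degree) ∣
      MvPolynomial.coeff α (Ht j) := by
    intro j α
    rw [hHt]
    exact coeff_sub_dvd Y0 P m (H j) α
  have hHt1 : ∀ j k, MvPolynomial.coeff (Finsupp.single k 1) (Ht j) =
      PowerSeries.X ^ m * ∑ l, MvPolynomial.aeval Y0 (MvPolynomial.pderiv l (H j)) * P l k := by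
    intro j k
    rw [hHt, coeff_sub_single]
  have hHte : ∀ j, MvPolynomial.eval Z (Ht j) = MvPolynomial.aeval Y (H j) := by
    intro j
    rw [hHt, eval_sub, hYeq]
  have hDtpoly : ∀ α, IsP (MvPolynomial.coeff α Dt) := by
    intro α
    rw [hDt]
    exact coeff_sub_poly Y0 P m hY0poly hPpoly d α
  have hHtpoly : ∀ j α, IsP (MvPolynomial.coeff α (Ht j)) := by
    intro j α
    rw [hHt]
    exact coeff_sub_poly Y0 P m hY0poly hPpoly (H j) α
  -- the coefficients of `Dt`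
  obtain ⟨r, hr⟩ := mb_aeval_dvd hY0dvd d
  have hd0 : MvPolynomial.aeval Y0 d = PowerSeries.X ^ w *
      (u - PowerSeries.X ^ (T - w) * r) := by
    have h1 : (PowerSeries.X : ℂ⟦X⟧) ^ T = PowerSeries.X ^ w * PowerSeries.X ^ (T - w) := by
      rw [← pow_add]
      congr 1
      omega
    have h2 : MvPolynomial.aeval Y0 d = MvPolynomial.aeval Y d - PowerSeries.X ^ T * r := by
      rw [← hr]
      ring
    rw [h2, hu1, h1]
    ring
  have hdeg : ∀ α : ι →₀ ℕ, α ≠ 0 → 1 ≤ α.degree := by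
    intro α hα
    rw [Nat.one_le_iff_ne_zero]
    exact fun h => hα ((Finsupp.degree_eq_zero_iff α).1 h)
  have hDtw1 : ∀ α : ι →₀ ℕ, α ≠ 0 → PowerSeries.X ^ (w + 1) ∣ MvPolynomial.coeff α Dt := by
    intro α hα
    refine dvd_trans (pow_dvd_pow _ ?_) (hDtα α)
    calc w + 1 ≤ m * 1 := by omega
      _ ≤ m * α.degree := Nat.mul_le_mul_left _ (hdeg α hα)
  have hDtw : ∀ α : ι →₀ ℕ, PowerSeries.X ^ w ∣ MvPolynomial.coeff α Dt := by
    intro α
    by_cases hα : α = 0
    · rw [hα, hDt0, hd0]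
      exact dvd_mul_right _ _
    · exact dvd_trans (pow_dvd_pow _ (Nat.le_succ w)) (hDtw1 α hα)
  obtain ⟨D', hD'⟩ := (MvPolynomial.C_dvd_iff_dvd_coeff _ _).2 hDtw
  have hD'c : ∀ α, MvPolynomial.coeff α Dt = PowerSeries.X ^ w * MvPolynomial.coeff α D' := by
    intro α
    rw [hD', MvPolynomial.coeff_C_mul]
  -- the right hand side
  obtain ⟨F, hF⟩ : ∃ F : ι → MvPolynomial ι ℂ⟦X⟧, ∀ i, F i =
      ∑ j, MvPolynomial.C (P.adjugate i j) * (MvPolynomial.C PowerSeries.X * Ht j -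
        Dt * (MvPolynomial.C (PowerSeries.X * PowerSeries.derivative ℂ (Y0 j)) +
          ∑ k, MvPolynomial.C (PowerSeries.X ^ m * ((m : ℂ⟦X⟧) * P j k +
            PowerSeries.X * PowerSeries.derivative ℂ (P j k))) * MvPolynomial.X k)) :=
    ⟨_, fun _ => rfl⟩
  have hFc : ∀ i α, MvPolynomial.coeff α (F i) = ∑ j, P.adjugate i j *
      (PowerSeries.X * MvPolynomial.coeff α (Ht j) - (MvPolynomial.coeff α Dt *
        (PowerSeries.X * PowerSeries.derivative ℂ (Y0 j)) +
        ∑ k, (PowerSeries.X ^ m * ((m : ℂ⟦X⟧) * P j k +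
            PowerSeries.X * PowerSeries.derivative ℂ (P j k))) *
          (if k ∈ α.support then MvPolynomial.coeff (α - Finsupp.single k 1) Dt else 0))) := by
    intro i α
    rw [hF, MvPolynomial.coeff_sum]
    refine Finset.sum_congr rfl (fun j _ => ?_)
    rw [MvPolynomial.coeff_C_mul, mb_coeffG]
  have hFe : ∀ i, MvPolynomial.eval Z (F i) = P.det * PowerSeries.X ^ m *
      MvPolynomial.aeval Y d * (PowerSeries.X * PowerSeries.derivative ℂ (Z i)) := by
    intro i
    rw [← mb_eval Y Y0 Z P m (MvPolynomial.aeval Y d) hZ1 i, hF, map_sum]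
    refine Finset.sum_congr rfl (fun j _ => ?_)
    rw [map_mul, MvPolynomial.eval_C, map_sub, map_mul, map_mul, MvPolynomial.eval_C, hHte, hDte,
      map_add, MvPolynomial.eval_C, map_sum, ← hY j]
    congr 2
    · ring
    · congr 2
      refine Finset.sum_congr rfl (fun k _ => ?_)
      rw [map_mul, MvPolynomial.eval_C, MvPolynomial.eval_X]
  have hFpoly : ∀ i α, IsP (MvPolynomial.coeff α (F i)) := by
    intro i α
    rw [hFc]
    refine IsP.sum _ _ (fun j _ => (hadjpoly i j).mul ?_)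
    refine (IsP_X.mul (hHtpoly j α)).sub (((hDtpoly α).mul (hY0poly j).delta).add ?_)
    refine IsP.sum _ _ (fun k _ => ?_)
    refine ((IsP_X.pow m).mul (((IsP_natCast m).mul (hPpoly j k)).add (hPpoly j k).delta)).mul ?_
    split_ifs
    · exact hDtpoly _
    · exact IsP_zero
  -- divisibility
  have hF2 : ∀ i (α : ι →₀ ℕ), 2 ≤ α.degree →
      PowerSeries.X ^ (p + m + w + 1) ∣ MvPolynomial.coeff α (F i) := by
    intro i α hα
    have h1 : PowerSeries.X ^ (m * α.degree) ∣ MvPolynomial.coeff α (F i) := by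
      rw [hFc]
      refine Finset.dvd_sum (fun j _ => Dvd.dvd.mul_left ?_ _)
      refine dvd_sub (Dvd.dvd.mul_left (hHtα j α) _) (dvd_add (Dvd.dvd.mul_right (hDtα α) _) ?_)
      refine Finset.dvd_sum (fun k _ => ?_)
      split_ifs with hk
      · have h2 : α.degree = (α - Finsupp.single k 1).degree + 1 := by
          have h3 : α - Finsupp.single k 1 + Finsupp.single k 1 = α := by
            refine tsub_add_cancel_of_le ?_
            rw [Finsupp.single_le_iff]
            exact Nat.one_le_iff_ne_zero.2 (Finsupp.mem_support_iff.1 hk)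
          conv_lhs => rw [← h3, map_add, Finsupp.degree_single]
        rw [h2, mul_add, mul_one, pow_add, mul_comm (PowerSeries.X ^ (m * _))]
        exact mul_dvd_mul (dvd_mul_right _ _) (hDtα _)
      · rw [mul_zero]
        exact dvd_zero _
    refine dvd_trans (pow_dvd_pow _ ?_) h1
    calc p + m + w + 1 ≤ m * 2 := by omega
      _ ≤ m * α.degree := Nat.mul_le_mul_left _ hα
  have hF0 : ∀ i, PowerSeries.X ^ (p + m + w + 1) ∣ MvPolynomial.coeff 0 (F i) := by
    intro i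
    refine dvd_trans (pow_dvd_pow _ (show p + m + w + 1 ≤ T by omega)) ?_
    rw [hFc]
    refine Finset.dvd_sum (fun j _ => Dvd.dvd.mul_left ?_ _)
    rw [Finset.sum_eq_zero (fun k _ => by rw [if_neg (by simp), mul_zero]), add_zero, hHt0, hDt0]
    have h1 := mb_aeval_dvd hY0dvd (H j)
    have h2 := mb_aeval_dvd hY0dvd d
    have h3 : PowerSeries.X ^ T ∣ PowerSeries.X * PowerSeries.derivative ℂ (Y j) -
        PowerSeries.X * PowerSeries.derivative ℂ (Y0 j) := by
      have := mb_delta_dvd (hY0dvd j)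
      rwa [map_sub, mul_sub] at this
    have h4 : PowerSeries.X * MvPolynomial.aeval Y0 (H j) - MvPolynomial.aeval Y0 d *
        (PowerSeries.X * PowerSeries.derivative ℂ (Y0 j)) =
        (MvPolynomial.aeval Y d - MvPolynomial.aeval Y0 d) *
          (PowerSeries.X * PowerSeries.derivative ℂ (Y j)) +
        MvPolynomial.aeval Y0 d * (PowerSeries.X * PowerSeries.derivative ℂ (Y j) -
          PowerSeries.X * PowerSeries.derivative ℂ (Y0 j)) -
        PowerSeries.X * (MvPolynomial.aeval Y (H j) - MvPolynomial.aeval Y0 (H j)) := by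
      rw [← hY j]
      ring
    rw [h4]
    exact dvd_sub (dvd_add (Dvd.dvd.mul_right h2 _) (Dvd.dvd.mul_left h3 _))
      (Dvd.dvd.mul_left h1 _)
  have hF1 : ∀ i k, PowerSeries.X ^ (p + m + w) ∣
      MvPolynomial.coeff (Finsupp.single k 1) (F i) := by
    intro i k
    have h0 : MvPolynomial.coeff (Finsupp.single k 1) (F i) = PowerSeries.X ^ m *
        ∑ j, P.adjugate i j * (PowerSeries.X *
          (∑ l, MvPolynomial.aeval Y0 (MvPolynomial.pderiv l (H j)) * P l k) -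
          ((∑ l, MvPolynomial.aeval Y0 (MvPolynomial.pderiv l d) * P l k) *
            (PowerSeries.X * PowerSeries.derivative ℂ (Y0 j)) +
            ((m : ℂ⟦X⟧) * P j k + PowerSeries.X * PowerSeries.derivative ℂ (P j k)) *
              MvPolynomial.aeval Y0 d)) := by
      rw [hFc, Finset.mul_sum]
      refine Finset.sum_congr rfl (fun j _ => ?_)
      rw [Finset.sum_eq_single k, if_pos, tsub_self, hDt0, hDt1, hHt1]
      · ring
      · rw [Finsupp.mem_support_iff, Finsupp.single_eq_same]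
        exact one_ne_zero
      · intro k' _ hk'
        rw [if_neg, mul_zero]
        rw [Finsupp.mem_support_iff, not_not, Finsupp.single_eq_of_ne hk']
      · exact fun h => absurd (Finset.mem_univ _) h
    have h5 : ∀ j, PowerSeries.X ^ T ∣ (PowerSeries.X *
          (∑ l, MvPolynomial.aeval Y (MvPolynomial.pderiv l (H j)) * P l k) -
          ((∑ l, MvPolynomial.aeval Y (MvPolynomial.pderiv l d) * P l k) *
            (PowerSeries.X * PowerSeries.derivative ℂ (Y j)) +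
            ((m : ℂ⟦X⟧) * P j k + PowerSeries.X * PowerSeries.derivative ℂ (P j k)) *
              MvPolynomial.aeval Y d)) - (PowerSeries.X *
          (∑ l, MvPolynomial.aeval Y0 (MvPolynomial.pderiv l (H j)) * P l k) -
          ((∑ l, MvPolynomial.aeval Y0 (MvPolynomial.pderiv l d) * P l k) *
            (PowerSeries.X * PowerSeries.derivative ℂ (Y0 j)) +
            ((m : ℂ⟦X⟧) * P j k + PowerSeries.X * PowerSeries.derivative ℂ (P j k)) *
              MvPolynomial.aeval Y0 d)) := by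
      intro j
      have e1 : PowerSeries.X ^ T ∣
          (∑ l, MvPolynomial.aeval Y (MvPolynomial.pderiv l (H j)) * P l k) -
          ∑ l, MvPolynomial.aeval Y0 (MvPolynomial.pderiv l (H j)) * P l k := by
        rw [← Finset.sum_sub_distrib]
        refine Finset.dvd_sum (fun l _ => ?_)
        rw [← sub_mul]
        exact Dvd.dvd.mul_right (mb_aeval_dvd hY0dvd _) _
      have e2 : PowerSeries.X ^ T ∣
          (∑ l, MvPolynomial.aeval Y (MvPolynomial.pderiv l d) * P l k) -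
          ∑ l, MvPolynomial.aeval Y0 (MvPolynomial.pderiv l d) * P l k := by
        rw [← Finset.sum_sub_distrib]
        refine Finset.dvd_sum (fun l _ => ?_)
        rw [← sub_mul]
        exact Dvd.dvd.mul_right (mb_aeval_dvd hY0dvd _) _
      have e3 : PowerSeries.X ^ T ∣ PowerSeries.X * PowerSeries.derivative ℂ (Y j) -
          PowerSeries.X * PowerSeries.derivative ℂ (Y0 j) := by
        have := mb_delta_dvd (hY0dvd j)
        rwa [map_sub, mul_sub] at this
      have e4 := mb_aeval_dvd hY0dvd d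
      generalize (∑ l, MvPolynomial.aeval Y (MvPolynomial.pderiv l (H j)) * P l k) = a1 at e1 ⊢
      generalize (∑ l, MvPolynomial.aeval Y0 (MvPolynomial.pderiv l (H j)) * P l k) = a2 at e1 ⊢
      generalize (∑ l, MvPolynomial.aeval Y (MvPolynomial.pderiv l d) * P l k) = b1 at e2 ⊢
      generalize (∑ l, MvPolynomial.aeval Y0 (MvPolynomial.pderiv l d) * P l k) = b2 at e2 ⊢
      generalize PowerSeries.X * PowerSeries.derivative ℂ (Y j) = c1 at e3 ⊢
      generalize PowerSeries.X * PowerSeries.derivative ℂ (Y0 j) = c2 at e3 ⊢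
      generalize MvPolynomial.aeval Y d = d1 at e4 ⊢
      generalize MvPolynomial.aeval Y0 d = d2 at e4 ⊢
      generalize ((m : ℂ⟦X⟧) * P j k + PowerSeries.X * PowerSeries.derivative ℂ (P j k)) = q
      have e5 : PowerSeries.X * a1 - (b1 * c1 + q * d1) - (PowerSeries.X * a2 -
          (b2 * c2 + q * d2)) = PowerSeries.X * (a1 - a2) - ((b1 - b2) * c1 + b2 * (c1 - c2) +
          q * (d1 - d2)) := by ring
      rw [e5]
      exact dvd_sub (Dvd.dvd.mul_left e1 _) (dvd_add (dvd_add (Dvd.dvd.mul_right e2 _)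
        (Dvd.dvd.mul_left e3 _)) (Dvd.dvd.mul_left e4 _))
    have h6 : ∀ j, PowerSeries.X *
          (∑ l, MvPolynomial.aeval Y (MvPolynomial.pderiv l (H j)) * P l k) -
          ((∑ l, MvPolynomial.aeval Y (MvPolynomial.pderiv l d) * P l k) *
            (PowerSeries.X * PowerSeries.derivative ℂ (Y j)) +
            ((m : ℂ⟦X⟧) * P j k + PowerSeries.X * PowerSeries.derivative ℂ (P j k)) *
              MvPolynomial.aeval Y d) =
          - (MvPolynomial.aeval Y d * (∑ l, P j l * M l k + (m : ℂ⟦X⟧) * P j k)) := by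
      intro j
      have h7 := hM j k
      have h8 : ∑ l, (PowerSeries.X * MvPolynomial.aeval Y (MvPolynomial.pderiv l (H j)) -
          MvPolynomial.aeval Y (MvPolynomial.pderiv l d) *
            (PowerSeries.X * PowerSeries.derivative ℂ (Y j))) * P l k =
          PowerSeries.X * (∑ l, MvPolynomial.aeval Y (MvPolynomial.pderiv l (H j)) * P l k) -
          (∑ l, MvPolynomial.aeval Y (MvPolynomial.pderiv l d) * P l k) *
            (PowerSeries.X * PowerSeries.derivative ℂ (Y j)) := by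
        rw [Finset.mul_sum, Finset.sum_mul, ← Finset.sum_sub_distrib]
        exact Finset.sum_congr rfl (fun l _ => by ring)
      rw [h8] at h7
      rw [mul_add, ← h7]
      ring
    rw [h0]
    have h9 : p + m + w = m + (p + w) := by omega
    rw [h9, pow_add]
    refine mul_dvd_mul_left _ ?_
    have h10 : PowerSeries.X ^ (p + w) ∣ ∑ j, P.adjugate i j * (PowerSeries.X *
          (∑ l, MvPolynomial.aeval Y (MvPolynomial.pderiv l (H j)) * P l k) -
          ((∑ l, MvPolynomial.aeval Y (MvPolynomial.pderiv l d) * P l k) *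
            (PowerSeries.X * PowerSeries.derivative ℂ (Y j)) +
            ((m : ℂ⟦X⟧) * P j k + PowerSeries.X * PowerSeries.derivative ℂ (P j k)) *
              MvPolynomial.aeval Y d)) := by
      have h11 : ∑ j, P.adjugate i j * (PowerSeries.X *
          (∑ l, MvPolynomial.aeval Y (MvPolynomial.pderiv l (H j)) * P l k) -
          ((∑ l, MvPolynomial.aeval Y (MvPolynomial.pderiv l d) * P l k) *
            (PowerSeries.X * PowerSeries.derivative ℂ (Y j)) +
            ((m : ℂ⟦X⟧) * P j k + PowerSeries.X * PowerSeries.derivative ℂ (P j k)) *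
              MvPolynomial.aeval Y d)) =
          - (MvPolynomial.aeval Y d *
            ∑ j, P.adjugate i j * (∑ l, P j l * M l k + (m : ℂ⟦X⟧) * P j k)) := by
        rw [Finset.mul_sum, ← Finset.sum_neg_distrib]
        refine Finset.sum_congr rfl (fun j _ => ?_)
        rw [h6 j]
        ring
      rw [h11, mb_adj, dvd_neg, hu1, he1, add_comm p w, pow_add]
      refine mul_dvd_mul (dvd_mul_right _ _) ?_
      exact Dvd.dvd.mul_right (dvd_mul_right _ _) _
    have h12 : PowerSeries.X ^ (p + w) ∣ ∑ j, P.adjugate i j * ((PowerSeries.X *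
          (∑ l, MvPolynomial.aeval Y (MvPolynomial.pderiv l (H j)) * P l k) -
          ((∑ l, MvPolynomial.aeval Y (MvPolynomial.pderiv l d) * P l k) *
            (PowerSeries.X * PowerSeries.derivative ℂ (Y j)) +
            ((m : ℂ⟦X⟧) * P j k + PowerSeries.X * PowerSeries.derivative ℂ (P j k)) *
              MvPolynomial.aeval Y d)) - (PowerSeries.X *
          (∑ l, MvPolynomial.aeval Y0 (MvPolynomial.pderiv l (H j)) * P l k) -
          ((∑ l, MvPolynomial.aeval Y0 (MvPolynomial.pderiv l d) * P l k) *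
            (PowerSeries.X * PowerSeries.derivative ℂ (Y0 j)) +
            ((m : ℂ⟦X⟧) * P j k + PowerSeries.X * PowerSeries.derivative ℂ (P j k)) *
              MvPolynomial.aeval Y0 d))) :=
      Finset.dvd_sum (fun j _ => Dvd.dvd.mul_left
        (dvd_trans (pow_dvd_pow _ (by omega)) (h5 j)) _)
    simp only [mul_sub (P.adjugate i _), Finset.sum_sub_distrib] at h10 h12 ⊢
    exact (dvd_sub_right h10).1 h12
  have hFd : ∀ i (α : ι →₀ ℕ), α.degree ≠ 1 →
      PowerSeries.X ^ (p + m + w + 1) ∣ MvPolynomial.coeff α (F i) := by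
    intro i α hα
    by_cases h0 : α = 0
    · rw [h0]
      exact hF0 i
    · have h1 := hdeg α h0
      exact hF2 i α (by omega)
  have hFd' : ∀ i (α : ι →₀ ℕ), PowerSeries.X ^ (p + m + w) ∣ MvPolynomial.coeff α (F i) := by
    intro i α
    by_cases h1 : α.degree = 1
    · obtain ⟨k, rfl⟩ := mb_degree_one h1
      exact hF1 i k
    · exact dvd_trans (pow_dvd_pow _ (Nat.le_succ _)) (hFd i α h1)
  choose F' hF' using fun i => (MvPolynomial.C_dvd_iff_dvd_coeff _ _).2 (hFd' i)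
  have hF'c : ∀ i α, MvPolynomial.coeff α (F i) =
      PowerSeries.X ^ (p + m + w) * MvPolynomial.coeff α (F' i) := by
    intro i α
    rw [hF' i, MvPolynomial.coeff_C_mul]
  refine ⟨Y0, Z, m, MvPolynomial.C e * D', F', hY0poly, hZ1, hZ2, ?_, ?_, ?_, ?_, ?_, ?_⟩
  · intro α
    rw [MvPolynomial.coeff_C_mul]
    refine hepoly.mul (IsP.of_X_pow_mul (a := w) ?_)
    rw [← hD'c]
    exact hDtpoly α
  · intro i α
    refine IsP.of_X_pow_mul (a := p + m + w) ?_
    rw [← hF'c]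
    exact hFpoly i α
  · rw [MvPolynomial.coeff_C_mul, map_mul]
    refine mul_ne_zero he2 ?_
    have h1 : MvPolynomial.coeff 0 D' = u - PowerSeries.X ^ (T - w) * r := by
      refine mb_cancel (a := w) ?_
      rw [← hD'c, hDt0, hd0]
    rw [h1, map_sub, map_mul, map_pow, PowerSeries.constantCoeff_X, zero_pow (by omega), zero_mul,
      sub_zero]
    exact hu2
  · intro α hα
    have h1 : PowerSeries.constantCoeff (MvPolynomial.coeff α D') = 0 :=
      mb_X_dvd (a := w) (by rw [← hD'c]; exact hDtw1 α hα)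
    rw [MvPolynomial.coeff_C_mul, map_mul, h1, mul_zero]
  · intro i α hα
    exact mb_X_dvd (a := p + m + w) (by rw [← hF'c]; exact hFd i α hα)
  · intro i
    refine mb_cancel (a := p + m + w) ?_
    have h1 : PowerSeries.X ^ (p + m + w) * MvPolynomial.eval Z (F' i) =
        MvPolynomial.eval Z (F i) := by
      rw [hF' i, map_mul, MvPolynomial.eval_C]
    have h2 : MvPolynomial.aeval Y d = PowerSeries.X ^ w * MvPolynomial.eval Z D' := by
      rw [← hDte, hD', map_mul, MvPolynomial.eval_C]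
    rw [h1, hFe, h2, he1, map_mul, MvPolynomial.eval_C, pow_add, pow_add]
    ring

end Pool.Agent.CVG
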