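import Pool.Agent.CVG.MalA
import Pool.Agent.CVG.MalB
import Pool.Agent.CVG.BB
import Pool.Agent.CVG.ConvA

/-!
# CVG-Mal: formal solutions with regular singular linearisation converge

PLAN. `exists_poly_gauge` (with `D = aeval Y d`, `L i l = X ∂_l H_i(Y) - ∂_l d(Y) X Y_i'`), then
`exists_bb_system`, then `briot_bouquet` (polynomials are convergent, `ConvPS.poly`), so `Z` and hence
`Y i = Y0 i + X^m ∑ P i j * Z j` converge (`ConvPS.add`, `mul`, `sum`).
-/

open scoped BigOperators PowerSeries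

namespace Pool.Agent.CVG

/-- Let `Y` be a formal solution of `d(Y) Y' = H(Y)`, `d(Y) ≠ 0`, such that the linearised equation
`d(Y) δy = X DH(Y)[y] - Dd(Y)[y] δY`, `δ = X d/dX`, takes the form `δz = - M z`, `M` without pole, in the
basis given by the columns of `P` (`det P ≠ 0`). Then `Y` converges. -/
theorem malgrange {ι : Type} [Fintype ι] [DecidableEq ι] (Y : ι → ℂ⟦X⟧)
    (d : MvPolynomial ι ℂ) (H : ι → MvPolynomial ι ℂ) (hd : MvPolynomial.aeval Y d ≠ 0)
    (hY : ∀ i, MvPolynomial.aeval Y d * PowerSeries.derivative ℂ (Y i) = MvPolynomial.aeval Y (H i))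
    (P M : Matrix ι ι ℂ⟦X⟧) (hP : P.det ≠ 0)
    (hM : ∀ i j, MvPolynomial.aeval Y d * (PowerSeries.X * PowerSeries.derivative ℂ (P i j)) -
      ∑ l, (PowerSeries.X * MvPolynomial.aeval Y (MvPolynomial.pderiv l (H i)) -
        MvPolynomial.aeval Y (MvPolynomial.pderiv l d) *
          (PowerSeries.X * PowerSeries.derivative ℂ (Y i))) * P l j =
      MvPolynomial.aeval Y d * ∑ l, P i l * M l j) :
    ∀ i, ConvPS (Y i) := by

  set D : ℂ⟦X⟧ := MvPolynomial.aeval Y d with hD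
  set L : Matrix ι ι ℂ⟦X⟧ := Matrix.of fun i l =>
    PowerSeries.X * MvPolynomial.aeval Y (MvPolynomial.pderiv l (H i)) -
        MvPolynomial.aeval Y (MvPolynomial.pderiv l d) *
          (PowerSeries.X * PowerSeries.derivative ℂ (Y i)) with hL
  have hM' : D • P.map (fun f => PowerSeries.X * PowerSeries.derivative ℂ f) - L * P =
      D • (P * M) := by
    ext1 i j
    rw [Matrix.sub_apply, Matrix.smul_apply, Matrix.smul_apply, Matrix.map_apply,
      Matrix.mul_apply, Matrix.mul_apply, smul_eq_mul, smul_eq_mul]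
    exact hM i j
  obtain ⟨P₁, M₁, hdet, hM₁⟩ := exists_poly_gauge D L P M hP hM'
  have hM₂ : ∀ i j, MvPolynomial.aeval Y d * (PowerSeries.X * PowerSeries.derivative ℂ
        ((P₁.map (fun p => (p : ℂ⟦X⟧))) i j)) -
      ∑ l, (PowerSeries.X * MvPolynomial.aeval Y (MvPolynomial.pderiv l (H i)) -
        MvPolynomial.aeval Y (MvPolynomial.pderiv l d) *
          (PowerSeries.X * PowerSeries.derivative ℂ (Y i))) * (P₁.map (fun p => (p : ℂ⟦X⟧))) l j =
      MvPolynomial.aeval Y d * ∑ l, (P₁.map (fun p => (p : ℂ⟦X⟧))) i l * M₁ l j := by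
    intro i j
    have h := congrFun (congrFun hM₁ i) j
    rw [Matrix.sub_apply, Matrix.smul_apply, Matrix.smul_apply, Matrix.map_apply,
      Matrix.mul_apply, Matrix.mul_apply, smul_eq_mul, smul_eq_mul] at h
    exact h
  obtain ⟨Y0, Z, m, Dp, Fp, h1, h2, h3, h4, h5, h6, h7, h8, h9⟩ :=
    exists_bb_system Y d H hd hY P₁ (P₁.map (fun p => (p : ℂ⟦X⟧))) M₁ rfl hdet hM₂
  have hZ : ∀ i, ConvPS (Z i) := by
    refine briot_bouquet Z h3 Dp Fp (fun α => ?_) (fun i α => ?_) h6 h7 h8 h9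
    · obtain ⟨p, hp⟩ := h4 α
      rw [hp]
      exact ConvPS.poly p
    · obtain ⟨p, hp⟩ := h5 i α
      rw [hp]
      exact ConvPS.poly p
  intro i
  rw [h2 i]
  obtain ⟨p, hp⟩ := h1 i
  refine ConvPS.add ?_ (ConvPS.mul ?_ (ConvPS.sum _ _ fun j _ => ConvPS.mul ?_ (hZ j)))
  · rw [hp]
    exact ConvPS.poly p
  · have h := ConvPS.poly (Polynomial.X ^ m)
    rwa [Polynomial.coe_pow, Polynomial.coe_X] at h
  · exact ConvPS.poly (P₁ i j)


end Pool.Agent.CVG
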