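import Pool.Agent.CVG.Curve
import Pool.Agent.CVG.ConvA
import Pool.Agent.Helper84.CV.Line

/-!
# CVG-DGauge: convergence of a formal curve (from `line_converges`)
-/

open scoped BigOperators PowerSeries

namespace Pool.Agent.CVG

namespace CurveData

open Pool.Agent.Helper84.CV

variable {N : ℕ} (D : CurveData N)

theorem curve_conv (i j : Fin N) : ConvPS (D.U i j) := by
  have hode : ∀ i j, PowerSeries.derivative ℂ (D.U i j) =
      (D.Cv + (D.Cv * D.th.map PowerSeries.C - D.th.map PowerSeries.C * D.Cv)) i j := by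
    intro i j
    have h := congrFun (congrFun D.hU i) j
    rw [Matrix.map_apply] at h
    exact h
  exact (line_converges D.U D.Cv D.th D.one D.v hode D.hc D.h1 D.hcyc D.hsep).1 i j

private noncomputable def phi : MvPolynomial (Fin (N * N)) ℂ →+* ℂ⟦X⟧ :=
  (MvPolynomial.aeval (vec D.U)).toRingHom

private theorem phi_C (a : ℂ) : D.phi (MvPolynomial.C a) = PowerSeries.C a := by
  show MvPolynomial.aeval (vec D.U) (MvPolynomial.C a) = _
  rw [MvPolynomial.aeval_C]
  rfl

private theorem phi_Ug : (Ug N).map D.phi = D.U := by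
  refine Matrix.ext fun i j => ?_
  show MvPolynomial.aeval (vec D.U) (MvPolynomial.X (finProdFinEquiv (i, j))) = D.U i j
  rw [MvPolynomial.aeval_X, vec, Equiv.symm_apply_apply]

private theorem phi_d : D.phi (dpol D.one) = (kry D.U (fun i => PowerSeries.C (D.one i))).det := by
  unfold dpol
  rw [RingHom.map_det, RingHom.mapMatrix_apply, kry_map, phi_Ug]
  simp only [phi_C]

private theorem phi_chat (w : Fin N → ℂ) (i j : Fin N) : D.phi (Cpol D.one w i j) =
      chat D.U (fun i => PowerSeries.C (D.one i)) (fun i => PowerSeries.C (w i)) i j := by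
  have h := congrFun (congrFun (chat_map D.phi (Ug N) (fun i => MvPolynomial.C (D.one i))
    (fun i => MvPolynomial.C (w i))) i) j
  rw [phi_Ug] at h
  simp only [phi_C] at h
  exact h

/-- matrices commuting with `U` and mapping `1` to a constant vector converge too -/
theorem comm_conv (M : Matrix (Fin N) (Fin N) ℂ⟦X⟧) (h1 : D.U * M = M * D.U) (w : Fin N → ℂ)
    (h2 : M.mulVec (fun k => PowerSeries.C (D.one k)) = fun k => PowerSeries.C (w k))
    (i j : Fin N) : ConvPS (M i j) := by
  have hY : ∀ l, ConvPS (vec D.U l) := fun l => D.curve_conv _ _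
  have h3 : ConvPS (kry D.U (fun i => PowerSeries.C (D.one i))).det := by
    rw [← phi_d]
    exact ConvPS.aeval hY (dpol D.one)
  have h4 : ConvPS (chat D.U (fun i => PowerSeries.C (D.one i))
      (fun i => PowerSeries.C (w i)) i j) := by
    rw [← phi_chat]
    exact ConvPS.aeval hY (Cpol D.one w i j)
  refine ConvPS.of_mul h3 D.hcyc ?_
  have h5 := congrFun (congrFun (chat_eq D.U M (fun i => PowerSeries.C (D.one i))
    (fun i => PowerSeries.C (w i)) h1 h2 D.hcyc) i) j
  rw [← h5] at h4
  exact h4

end CurveData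

end Pool.Agent.CVG
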