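import Pool.Agent.CVG.DatR

/-!
# CVG-DatC: connections and flatness

PLAN. `isConn_*`: direct. Flatness: with `M0 = -RSB`, `Md = RB`: `T0 Td x - Td T0 x = (dl Md - dlam M0 + [M0, Md]) x`
(dl and dlam commute on `FK`: the commutator is a derivation vanishing on `CF x` and `lam`, `ratDer_ext`
applied to ... or prove `dl (dlam f) = dlam (dl f)` by the Lie bracket of derivations). The matrix identity
`dl (RB) + dlam (RSB) - (RSB RB - RB RSB) = 0` (matrices): by `R_dl`, `R_dlam`, `flat` (`δU = S + [S, B]` since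
scalars commute): `dl (R B) = R (δU) R B`, `dlam (R S B) = -R R S B`,
`R (S + S B - B S) R B - R R S B - R S B R B + R B R S B = 0` as `R` commutes with `S`.
-/

open scoped BigOperators

namespace Pool.Agent.CVG

private theorem ratCast_der (D : Derivation ℤ FK FK) (q : ℚ) : D (q : FK) = 0 := by
  have h1 : (q : FK) = (q.num : FK) / (q.den : FK) := Rat.cast_def q
  have hd : (q.den : FK) ≠ 0 := Nat.cast_ne_zero.2 q.den_nz
  have h2 : (q : FK) * (q.den : FK) = (q.num : FK) := by
    rw [h1, div_mul_cancel₀ _ hd]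
  have h3 : D ((q : FK) * (q.den : FK)) = 0 := by
    rw [h2, Derivation.map_intCast]
  rw [D.leibniz, Derivation.map_natCast, smul_zero, zero_add, smul_eq_mul] at h3
  exact (mul_eq_zero.1 h3).resolve_left hd

theorem dl_dlam (f : FK) : dl (dlam f) = dlam (dl f) := by
  have h : ⁅dl, dlam⁆ = 0 := by
    apply ratDer_ext
    · intro a
      rw [Derivation.commutator_apply, dlam_CF, dl_CF, dlam_CF, map_zero, sub_zero,
        Derivation.zero_apply]
    · rw [Derivation.commutator_apply, dlam_lam, dl_lam, map_zero, Derivation.map_one_eq_zero,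
        sub_zero, Derivation.zero_apply]
  have h2 := congrArg (fun D : Derivation ℤ FK FK => D f) h
  simp only [Derivation.commutator_apply, Derivation.zero_apply] at h2
  exact sub_eq_zero.1 h2

private theorem map_mul_der (D : Derivation ℤ FK FK) {l m k : ℕ} (M : Matrix (Fin l) (Fin m) FK)
    (N : Matrix (Fin m) (Fin k) FK) :
    (M * N).map D = M.map D * N + M * N.map D := by
  ext i j
  simp only [Matrix.map_apply, Matrix.mul_apply, Matrix.add_apply, map_sum, Derivation.leibniz,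
    smul_eq_mul, ← Finset.sum_add_distrib]
  refine Finset.sum_congr rfl fun a _ => ?_
  ring

private theorem mulVec_der (D : Derivation ℤ FK FK) {l m : ℕ} (M : Matrix (Fin l) (Fin m) FK)
    (x : Fin m → FK) :
    (fun i => D (M.mulVec x i)) = (M.map D).mulVec x + M.mulVec (fun i => D (x i)) := by
  ext i
  simp only [Matrix.map_apply, Matrix.mulVec, dotProduct, Pi.add_apply, map_sum,
    Derivation.leibniz, smul_eq_mul, ← Finset.sum_add_distrib]
  refine Finset.sum_congr rfl fun a _ => ?_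
  ring

private theorem map_add_der (D : Derivation ℤ FK FK) {l m : ℕ} (M N : Matrix (Fin l) (Fin m) FK) :
    (M + N).map D = M.map D + N.map D := by
  ext i j
  simp only [Matrix.map_apply, Matrix.add_apply, map_add]

private theorem map_sub_der (D : Derivation ℤ FK FK) {l m : ℕ} (M N : Matrix (Fin l) (Fin m) FK) :
    (M - N).map D = M.map D - N.map D := by
  ext i j
  simp only [Matrix.map_apply, Matrix.sub_apply, map_sub]

namespace Dat

variable {n : ℕ} (Δ : Dat n)

theorem isConn_T0 : IsConn dl Δ.T0 where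
  add x y := by
    ext i
    simp only [T0, Pi.sub_apply, Pi.add_apply, map_add, Matrix.mulVec_add]
    ring
  smul f x := by
    ext i
    simp only [T0, Pi.sub_apply, Pi.add_apply, Pi.smul_apply, smul_eq_mul, Derivation.leibniz,
      Matrix.mulVec_smul]
    ring

theorem isConn_Td : IsConn dlam Δ.Td where
  add x y := by
    ext i
    simp only [Td, Pi.add_apply, map_add, Matrix.mulVec_add]
    ring
  smul f x := by
    ext i
    simp only [Td, Pi.add_apply, Pi.smul_apply, smul_eq_mul, Derivation.leibniz,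
      Matrix.mulVec_smul]
    ring

theorem isConn_T (g : FK) : IsConn (DD g) (Δ.T g) :=
  Δ.isConn_T0.add_conn (Δ.isConn_Td.smul_right g)

theorem isConn_TD (i : Fin n) : IsConn (DD (CF (dK (Δ.u i)))) (Δ.TD i) :=
  Δ.isConn_T _

theorem isConn_Tth (i : Fin n) : IsConn ((lam - CF (Δ.u i)) • dlam) (Δ.Tth i) :=
  Δ.isConn_Td.smul_right _

theorem isConn_TE0 : IsConn dl Δ.TE0 where
  add x y := by
    simp only [TE0, map_add_der, mul_add, add_mul]
    abel
  smul f x := by
    ext i j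
    simp only [TE0, Matrix.sub_apply, Matrix.add_apply, Matrix.map_apply, Matrix.smul_apply,
      smul_eq_mul, Derivation.leibniz, mul_smul_comm, smul_mul_assoc]
    ring

theorem isConn_TEd : IsConn dlam Δ.TEd where
  add x y := by
    simp only [TEd, map_add_der, mul_add, add_mul]
    abel
  smul f x := by
    ext i j
    simp only [TEd, Matrix.sub_apply, Matrix.add_apply, Matrix.map_apply, Matrix.smul_apply,
      smul_eq_mul, Derivation.leibniz, mul_smul_comm, smul_mul_assoc]
    ring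

theorem isConn_TE (g : FK) : IsConn (DD g) (Δ.TE g) :=
  Δ.isConn_TE0.add_conn (Δ.isConn_TEd.smul_right g)

/-- zero curvature -/
theorem flat_mat : Δ.RB.map dl + Δ.RSB.map dlam - (Δ.RSB * Δ.RB - Δ.RB * Δ.RSB) = 0 := by
  have hB : Δ.B.map CF = (Δ.th.map cK).map CF + Matrix.scalar (Fin n) (CF (cK Δ.mu)) := by
    ext i j
    by_cases hij : i = j
    · subst hij
      simp [B]
    · simp [B, hij]
  have hU : (Δ.U.map dK).map CF = Δ.S.map CF +
      (Δ.S.map CF * Δ.B.map CF - Δ.B.map CF * Δ.S.map CF) := by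
    have hc : Δ.S.map CF * Matrix.scalar (Fin n) (CF (cK Δ.mu)) =
        Matrix.scalar (Fin n) (CF (cK Δ.mu)) * Δ.S.map CF :=
      (Matrix.scalar_commute _ (fun r => Commute.all _ r) _).symm
    rw [hB, mul_add, add_mul, hc, Δ.flat]
    have e1 : (Δ.S + (Δ.S * Δ.th.map cK - Δ.th.map cK * Δ.S)).map CF =
        Δ.S.map CF + (Δ.S.map CF * (Δ.th.map cK).map CF - (Δ.th.map cK).map CF * Δ.S.map CF) := by
      rw [← Matrix.map_mul, ← Matrix.map_mul]
      ext i j
      simp only [Matrix.map_apply, Matrix.add_apply, Matrix.sub_apply, map_add, map_sub]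
    rw [e1]
    abel
  have h1 : Δ.RB.map dl = Δ.R * (Δ.U.map dK).map CF * Δ.R * Δ.B.map CF := by
    rw [RB, map_mul_der, Δ.R_dl, Δ.B_dl, mul_zero, add_zero]
  have h2 : Δ.RSB.map dlam = -(Δ.R * Δ.R) * Δ.S.map CF * Δ.B.map CF := by
    rw [RSB, map_mul_der, map_mul_der, Δ.R_dlam, map_dlam, map_dlam, mul_zero, mul_zero,
      add_zero, add_zero]
  rw [h1, h2, hU, RB, RSB]
  have hRS := Δ.R_S
  generalize Δ.R = R at *
  generalize Δ.S.map CF = S at *
  generalize Δ.B.map CF = B at *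
  have e1 : R * S * R * B = R * R * S * B := by
    rw [mul_assoc R S R, ← hRS, ← mul_assoc R R S]
  have e2 : R * B * S * R * B = R * B * R * S * B := by
    rw [mul_assoc (R * B) S R, ← hRS, ← mul_assoc (R * B) R S]
  have e3 : R * (S + (S * B - B * S)) * R * B + -(R * R) * S * B -
      (R * S * B * (R * B) - R * B * (R * S * B)) =
      (R * S * R * B - R * R * S * B) - (R * B * S * R * B - R * B * R * S * B) := by
    noncomm_ring
  rw [e3, e1, e2, sub_self, sub_self, sub_self]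

theorem T0_Td (x : Fin n → FK) : Δ.T0 (Δ.Td x) = Δ.Td (Δ.T0 x) := by
  have hf := congrArg (fun M => M.mulVec x) Δ.flat_mat
  simp only [Matrix.sub_mulVec, Matrix.add_mulVec, Matrix.zero_mulVec, ← Matrix.mulVec_mulVec]
    at hf
  have h1 : Δ.T0 (Δ.Td x) = (fun i => dl (dlam (x i))) + ((Δ.RB.map dl).mulVec x +
      Δ.RB.mulVec (fun i => dl (x i))) - (Δ.RSB.mulVec (fun i => dlam (x i)) +
      Δ.RSB.mulVec (Δ.RB.mulVec x)) := by
    rw [← mulVec_der, ← Matrix.mulVec_add]
    ext i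
    simp only [T0, Td, Pi.sub_apply, Pi.add_apply, map_add]
  have h2 : Δ.Td (Δ.T0 x) = (fun i => dl (dlam (x i))) - ((Δ.RSB.map dlam).mulVec x +
      Δ.RSB.mulVec (fun i => dlam (x i))) + (Δ.RB.mulVec (fun i => dl (x i)) -
      Δ.RB.mulVec (Δ.RSB.mulVec x)) := by
    rw [← mulVec_der, ← Matrix.mulVec_sub]
    ext i
    simp only [T0, Td, Pi.sub_apply, Pi.add_apply, map_sub, dl_dlam]
  rw [h1, h2, ← sub_eq_zero, ← hf]
  abel

theorem TE0_TEd (X : Matrix (Fin n) (Fin n) FK) : Δ.TE0 (Δ.TEd X) = Δ.TEd (Δ.TE0 X) := by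
  have hf := Δ.flat_mat
  have hd : (X.map dlam).map dl = (X.map dl).map dlam := by
    ext i j
    simp only [Matrix.map_apply, dl_dlam]
  simp only [TE0, TEd, map_add_der, map_sub_der, map_mul_der, hd]
  rw [← sub_eq_zero]
  have e : (Δ.RB.map dl + Δ.RSB.map dlam - (Δ.RSB * Δ.RB - Δ.RB * Δ.RSB)) * X -
      X * (Δ.RB.map dl + Δ.RSB.map dlam - (Δ.RSB * Δ.RB - Δ.RB * Δ.RSB)) = 0 := by
    rw [hf, zero_mul, mul_zero, sub_self]
  rw [← e]
  noncomm_ring

theorem TD_Tth (i : Fin n) (x : Fin n → FK) : Δ.TD i (Δ.Tth i x) = Δ.Tth i (Δ.TD i x) := by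
  rw [Tth, Δ.isConn_TD i |>.smul, map_sub, DD_CF, DD_lam, sub_self, zero_smul, zero_add, Tth, TD, T,
    T, Δ.isConn_Td.add, Δ.isConn_Td.smul, dlam_CF, zero_smul, zero_add, Δ.T0_Td]

/-- In the chart with centre `a` and exponent `q`: `T_g` commutes with `s^q T_∂`. -/
theorem T_comm (a : KK) (q : ℚ) (x : Fin n → FK) :
    Δ.T (g0 a q) (CF (sp q) • Δ.Td x) = CF (sp q) • Δ.Td (Δ.T (g0 a q) x) := by
  have hg : dlam (g0 a q) = (q : FK) := by
    rw [g0, map_add, dlam_CF, zero_add, Derivation.leibniz, ratCast_der, smul_zero, add_zero,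
      map_sub, dlam_lam, dlam_CF, sub_zero, smul_eq_mul, mul_one]
  rw [(Δ.isConn_T (g0 a q)).smul, DD_CF, dK_sp, map_mul, map_ratCast, T, T, Δ.isConn_Td.add,
    Δ.isConn_Td.smul, hg, Δ.T0_Td, mul_comm, mul_smul, ← smul_add]
  congr 1
  abel

/-- `(TE_g + κ) TE_∂ = TE_∂ TE_g` if `∂g/∂λ = κ` -/
theorem TE_comm (g : FK) (κ : ℚ) (hg : dlam g = (κ : FK)) (X : Matrix (Fin n) (Fin n) FK) :
    Δ.TE g (Δ.TEd X) + (κ : FK) • Δ.TEd X = Δ.TEd (Δ.TE g X) := by
  rw [TE, TE, Δ.isConn_TEd.add, Δ.isConn_TEd.smul, hg, Δ.TE0_TEd]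
  abel

theorem dlam_g0 (a : KK) (q : ℚ) : dlam (g0 a q) = (q : FK) := by
  rw [g0, map_add, dlam_CF, zero_add, Derivation.leibniz, ratCast_der, smul_zero, add_zero,
    map_sub, dlam_lam, dlam_CF, sub_zero, smul_eq_mul, mul_one]

end Dat

end Pool.Agent.CVG
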