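import Pool.Agent.CVG.RgDefs

/-!
# CVG-Rg: closure properties of `Rg`

PLAN. Put `χ = ∏ (lam - CF (u j)) = pF (∏ (X - C (u j)))`. Common exponents for sums; products add
exponents; derivations: `f χ^M = pF P` gives `D f χ^M + f M χ^(M-1) D χ = D (pF P)`, and `dl`, `dlam` map
polynomials to polynomials; multiply by `χ`. `Rg_induction` (partial fractions): the `KK`-span of the
`lam^n` and `((lam - CF (u j))⁻¹)^(n+1)` is closed under multiplication by `lam` and by
`(lam - CF (u j))⁻¹` (for `j ≠ k` use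
`(lam - a)⁻¹ (lam - b)⁻¹ = (a-b)⁻¹ ((lam - a)⁻¹ - (lam - b)⁻¹)`, induction on exponents), and `f` is obtained
from a polynomial by dividing `M |J|` times.
-/

open scoped BigOperators

namespace Pool.Agent.CVG

variable {n : ℕ} {u : Fin n → KK} {J : Finset (Fin n)}

private theorem rg_chi (u : Fin n → KK) (J : Finset (Fin n)) :
    ∏ j ∈ J, (Pool.Agent.CVG.lam - Pool.Agent.CVG.CF (u j)) =
      pF (∏ j ∈ J, (Polynomial.X - Polynomial.C (u j))) := by
  rw [map_prod]
  refine Finset.prod_congr rfl fun j _ => ?_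
  rw [map_sub, pF_X, pF_C]

private theorem rg_ne (a : KK) : Pool.Agent.CVG.lam - Pool.Agent.CVG.CF a ≠ 0 := by
  rw [← pF_X, ← pF_C, ← map_sub]
  intro h
  rw [← map_zero pF] at h
  exact Polynomial.X_sub_C_ne_zero a (pF_injective h)

theorem Rg.poly (P : Polynomial KK) : Rg u J (pF P) :=
  ⟨0, P, by rw [pow_zero, mul_one]⟩

theorem Rg.CF (x : KK) : Rg u J (CF x) := by
  rw [← pF_C]
  exact Rg.poly _

theorem Rg.lam : Rg u J lam := by
  rw [← pF_X]
  exact Rg.poly _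

theorem Rg.zero : Rg u J 0 := by
  rw [← map_zero pF]
  exact Rg.poly _

theorem Rg.one : Rg u J 1 := by
  rw [← map_one pF]
  exact Rg.poly _

theorem Rg.ratCast (r : ℚ) : Rg u J (r : FK) := by
  have h : (r : FK) = Pool.Agent.CVG.CF (r : KK) := by rw [map_ratCast]
  rw [h]
  exact Rg.CF _

theorem Rg.add {f g : FK} (hf : Rg u J f) (hg : Rg u J g) : Rg u J (f + g) := by
  obtain ⟨M, P, hP⟩ := hf
  obtain ⟨N, Q, hQ⟩ := hg
  rw [rg_chi] at hP hQ
  refine ⟨M + N, P * (∏ j ∈ J, (Polynomial.X - Polynomial.C (u j))) ^ N +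
    Q * (∏ j ∈ J, (Polynomial.X - Polynomial.C (u j))) ^ M, ?_⟩
  rw [rg_chi, map_add, map_mul, map_mul, map_pow, map_pow, ← hP, ← hQ, pow_add]
  ring

theorem Rg.neg {f : FK} (hf : Rg u J f) : Rg u J (-f) := by
  obtain ⟨M, P, hP⟩ := hf
  exact ⟨M, -P, by rw [map_neg, ← hP, neg_mul]⟩

theorem Rg.sub {f g : FK} (hf : Rg u J f) (hg : Rg u J g) : Rg u J (f - g) := by
  rw [sub_eq_add_neg]
  exact hf.add hg.neg

theorem Rg.mul {f g : FK} (hf : Rg u J f) (hg : Rg u J g) : Rg u J (f * g) := by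
  obtain ⟨M, P, hP⟩ := hf
  obtain ⟨N, Q, hQ⟩ := hg
  refine ⟨M + N, P * Q, ?_⟩
  rw [map_mul, ← hP, ← hQ, pow_add]
  ring

theorem Rg.sum {ι : Type*} (s : Finset ι) (f : ι → FK) (h : ∀ i ∈ s, Rg u J (f i)) :
    Rg u J (∑ i ∈ s, f i) := by
  classical
  induction s using Finset.induction_on with
  | empty =>
    rw [Finset.sum_empty]
    exact Rg.zero
  | insert i s hi ih =>
    rw [Finset.sum_insert hi]
    exact (h i (Finset.mem_insert_self i s)).add
      (ih fun j hj => h j (Finset.mem_insert_of_mem hj))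

theorem Rg.inv_sub {j : Fin n} (hj : j ∈ J) : Rg u J (Pool.Agent.CVG.lam - Pool.Agent.CVG.CF (u j))⁻¹ := by
  classical
  refine ⟨1, ∏ i ∈ J.erase j, (Polynomial.X - Polynomial.C (u i)), ?_⟩
  rw [pow_one, ← Finset.mul_prod_erase J _ hj, ← mul_assoc, inv_mul_cancel₀ (rg_ne (u j)), one_mul,
    rg_chi]

private theorem rg_der_poly (D : Derivation ℤ FK FK)
    (h1 : ∀ a : KK, ∃ Q, D (Pool.Agent.CVG.CF a) = pF Q)
    (h2 : ∃ Q, D Pool.Agent.CVG.lam = pF Q) (P : Polynomial KK) : ∃ Q, D (pF P) = pF Q := by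
  induction P using Polynomial.induction_on' with
  | add p q hp hq =>
    obtain ⟨P', hP'⟩ := hp
    obtain ⟨Q', hQ'⟩ := hq
    exact ⟨P' + Q', by rw [map_add, map_add, hP', hQ', map_add]⟩
  | monomial k a =>
    have e : pF (Polynomial.monomial k a) = Pool.Agent.CVG.CF a * Pool.Agent.CVG.lam ^ k := by
      rw [← Polynomial.C_mul_X_pow_eq_monomial, map_mul, map_pow, pF_C, pF_X]
    obtain ⟨Q1, hQ1⟩ := h1 a
    obtain ⟨Q2, hQ2⟩ := h2
    refine ⟨Polynomial.C a * ((k : Polynomial KK) * Polynomial.X ^ (k - 1) * Q2) +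
      Polynomial.X ^ k * Q1, ?_⟩
    rw [e, D.leibniz, D.leibniz_pow, hQ1, hQ2]
    simp only [smul_eq_mul, nsmul_eq_mul, map_add, map_mul, map_pow, pF_X, pF_C, map_natCast]
    ring

private theorem rg_der (D : Derivation ℤ FK FK)
    (h : ∀ P : Polynomial KK, ∃ Q, D (pF P) = pF Q) {f : FK} (hf : Rg u J f) : Rg u J (D f) := by
  obtain ⟨M, P, hP⟩ := hf
  rw [rg_chi, ← map_pow] at hP
  set X := (∏ j ∈ J, (Polynomial.X - Polynomial.C (u j))) ^ M with hX
  obtain ⟨Q, hQ⟩ := h P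
  obtain ⟨R, hR⟩ := h X
  refine ⟨M + M, Q * X - P * R, ?_⟩
  have e1 : D (f * pF X) = f * pF R + pF X * D f := by
    rw [D.leibniz, hR, smul_eq_mul, smul_eq_mul]
  rw [hP, hQ] at e1
  rw [rg_chi, pow_add, ← map_pow, ← hX, map_sub, map_mul, map_mul, e1, ← hP]
  ring

theorem Rg.dl {f : FK} (hf : Rg u J f) : Rg u J (Pool.Agent.CVG.dl f) := by
  refine rg_der _ (rg_der_poly _ ?_ ?_) hf
  · intro a
    exact ⟨Polynomial.C (dK a), by rw [dl_CF, pF_C]⟩
  · exact ⟨0, by rw [dl_lam, map_zero]⟩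

theorem Rg.dlam {f : FK} (hf : Rg u J f) : Rg u J (Pool.Agent.CVG.dlam f) := by
  refine rg_der _ (rg_der_poly _ ?_ ?_) hf
  · intro a
    exact ⟨0, by rw [dlam_CF, map_zero]⟩
  · exact ⟨1, by rw [dlam_lam, map_one]⟩

theorem Rg.DD {f g : FK} (hg : Rg u J g) (hf : Rg u J f) : Rg u J (Pool.Agent.CVG.DD g f) := by
  rw [DD_apply]
  exact hf.dl.add (hg.mul hf.dlam)

theorem Rg.mono {J' : Finset (Fin n)} (h : J ⊆ J') {f : FK} (hf : Rg u J f) : Rg u J' f := by
  classical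
  obtain ⟨M, P, hP⟩ := hf
  refine ⟨M, P * (∏ j ∈ J' \ J, (Polynomial.X - Polynomial.C (u j))) ^ M, ?_⟩
  rw [map_mul, map_pow, ← rg_chi, ← hP, ← Finset.prod_sdiff h, mul_pow]
  ring

/-- the smallest class with the closure properties -/
private def Sp (u : Fin n → KK) (J : Finset (Fin n)) (f : FK) : Prop :=
  ∀ p : FK → Prop, (∀ f g, p f → p g → p (f + g)) →
    (∀ (x : KK) f, p f → p (Pool.Agent.CVG.CF x * f)) →
    (∀ k : ℕ, p (Pool.Agent.CVG.lam ^ k)) →
    (∀ j ∈ J, ∀ k : ℕ, p ((Pool.Agent.CVG.lam - Pool.Agent.CVG.CF (u j))⁻¹ ^ (k + 1))) → p f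

private theorem Sp.add {f g : FK} (hf : Sp u J f) (hg : Sp u J g) : Sp u J (f + g) :=
  fun p h1 h2 h3 h4 => h1 f g (hf p h1 h2 h3 h4) (hg p h1 h2 h3 h4)

private theorem Sp.smul (x : KK) {f : FK} (hf : Sp u J f) : Sp u J (Pool.Agent.CVG.CF x * f) :=
  fun p h1 h2 h3 h4 => h2 x f (hf p h1 h2 h3 h4)

private theorem Sp.pow (k : ℕ) : Sp u J (Pool.Agent.CVG.lam ^ k) :=
  fun _ _ _ h3 _ => h3 k

private theorem Sp.inv {j : Fin n} (hj : j ∈ J) (k : ℕ) :
    Sp u J ((Pool.Agent.CVG.lam - Pool.Agent.CVG.CF (u j))⁻¹ ^ (k + 1)) :=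
  fun _ _ _ _ h4 => h4 j hj k

private theorem Sp.neg {f : FK} (hf : Sp u J f) : Sp u J (-f) := by
  have h := Sp.smul (-1) hf
  rw [map_neg, map_one, neg_one_mul] at h
  exact h

private theorem Sp.sub {f g : FK} (hf : Sp u J f) (hg : Sp u J g) : Sp u J (f - g) := by
  rw [sub_eq_add_neg]
  exact hf.add hg.neg

private theorem Sp.zero : Sp u J 0 := by
  have h := Sp.smul (u := u) (J := J) 0 (Sp.pow 0)
  rw [map_zero, zero_mul] at h
  exact h

/-- closure under the multiplication by an element -/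
private theorem Sp.mul_of (g : FK) (h1 : ∀ k : ℕ, Sp u J (g * Pool.Agent.CVG.lam ^ k))
    (h2 : ∀ j ∈ J, ∀ k : ℕ,
      Sp u J (g * (Pool.Agent.CVG.lam - Pool.Agent.CVG.CF (u j))⁻¹ ^ (k + 1)))
    {f : FK} (hf : Sp u J f) : Sp u J (g * f) := by
  refine hf (fun f => Sp u J (g * f)) ?_ ?_ h1 h2
  · intro f g' hf hg'
    show Sp u J (g * (f + g'))
    rw [mul_add]
    exact Sp.add hf hg'
  · intro x f hf
    show Sp u J (g * (Pool.Agent.CVG.CF x * f))
    rw [mul_left_comm]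
    exact Sp.smul x hf

private theorem Sp.mul_inv (hu : Function.Injective u) {j : Fin n} (hj : j ∈ J) {f : FK}
    (hf : Sp u J f) : Sp u J ((Pool.Agent.CVG.lam - Pool.Agent.CVG.CF (u j))⁻¹ * f) := by
  refine Sp.mul_of _ ?_ ?_ hf
  · intro k
    induction k with
    | zero =>
      have h := Sp.inv (u := u) hj 0
      rw [zero_add, pow_one] at h
      rw [pow_zero, mul_one]
      exact h
    | succ k ih =>
      have e : (Pool.Agent.CVG.lam - Pool.Agent.CVG.CF (u j))⁻¹ * Pool.Agent.CVG.lam ^ (k + 1) =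
          Pool.Agent.CVG.lam ^ k + Pool.Agent.CVG.CF (u j) *
            ((Pool.Agent.CVG.lam - Pool.Agent.CVG.CF (u j))⁻¹ * Pool.Agent.CVG.lam ^ k) := by
        have h := rg_ne (u j)
        field_simp
        ring
      rw [e]
      exact (Sp.pow k).add (Sp.smul _ ih)
  · intro i hi k
    by_cases hij : i = j
    · subst hij
      rw [← pow_succ']
      exact Sp.inv hi (k + 1)
    · have hne : Pool.Agent.CVG.CF (u j) - Pool.Agent.CVG.CF (u i) ≠ 0 := by
        intro h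
        exact hij (hu (CF_injective (sub_eq_zero.1 h))).symm
      have hne' : u j - u i ≠ 0 := by
        intro h
        exact hij (hu (sub_eq_zero.1 h)).symm
      have e0 : (Pool.Agent.CVG.lam - Pool.Agent.CVG.CF (u j))⁻¹ *
          (Pool.Agent.CVG.lam - Pool.Agent.CVG.CF (u i))⁻¹ =
          Pool.Agent.CVG.CF (u j - u i)⁻¹ *
            ((Pool.Agent.CVG.lam - Pool.Agent.CVG.CF (u j))⁻¹ -
              (Pool.Agent.CVG.lam - Pool.Agent.CVG.CF (u i))⁻¹) := by
        have h1 := rg_ne (u j)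
        have h2 := rg_ne (u i)
        rw [map_inv₀, map_sub]
        field_simp
        ring
      induction k with
      | zero =>
        rw [zero_add, pow_one, e0]
        have h3 := Sp.inv (u := u) hj 0
        have h4 := Sp.inv (u := u) hi 0
        rw [zero_add, pow_one] at h3 h4
        exact Sp.smul _ (h3.sub h4)
      | succ k ih =>
        have e : (Pool.Agent.CVG.lam - Pool.Agent.CVG.CF (u j))⁻¹ *
            (Pool.Agent.CVG.lam - Pool.Agent.CVG.CF (u i))⁻¹ ^ (k + 1 + 1) =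
            Pool.Agent.CVG.CF (u j - u i)⁻¹ *
            ((Pool.Agent.CVG.lam - Pool.Agent.CVG.CF (u j))⁻¹ *
                (Pool.Agent.CVG.lam - Pool.Agent.CVG.CF (u i))⁻¹ ^ (k + 1) -
              (Pool.Agent.CVG.lam - Pool.Agent.CVG.CF (u i))⁻¹ ^ (k + 1 + 1)) := by
          rw [pow_succ _ (k + 1)]
          calc (Pool.Agent.CVG.lam - Pool.Agent.CVG.CF (u j))⁻¹ *
              ((Pool.Agent.CVG.lam - Pool.Agent.CVG.CF (u i))⁻¹ ^ (k + 1) *
                (Pool.Agent.CVG.lam - Pool.Agent.CVG.CF (u i))⁻¹)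
              = ((Pool.Agent.CVG.lam - Pool.Agent.CVG.CF (u j))⁻¹ *
                (Pool.Agent.CVG.lam - Pool.Agent.CVG.CF (u i))⁻¹) *
                (Pool.Agent.CVG.lam - Pool.Agent.CVG.CF (u i))⁻¹ ^ (k + 1) := by ring
            _ = _ := by
              rw [e0]
              ring
        rw [e]
        exact Sp.smul _ (ih.sub (Sp.inv hi (k + 1)))

private theorem Sp.poly (P : Polynomial KK) : Sp u J (pF P) := by
  induction P using Polynomial.induction_on' with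
  | add p q hp hq =>
    rw [map_add]
    exact hp.add hq
  | monomial k a =>
    have e : pF (Polynomial.monomial k a) = Pool.Agent.CVG.CF a * Pool.Agent.CVG.lam ^ k := by
      rw [← Polynomial.C_mul_X_pow_eq_monomial, map_mul, map_pow, pF_C, pF_X]
    rw [e]
    exact Sp.smul _ (Sp.pow k)

private theorem Sp.mul_prod (hu : Function.Injective u) (J' : Finset (Fin n)) (hJ : J' ⊆ J)
    {f : FK} (hf : Sp u J f) :
    Sp u J ((∏ j ∈ J', (Pool.Agent.CVG.lam - Pool.Agent.CVG.CF (u j)))⁻¹ * f) := by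
  classical
  induction J' using Finset.induction_on with
  | empty =>
    rw [Finset.prod_empty, inv_one, one_mul]
    exact hf
  | insert i s hi ih =>
    rw [Finset.prod_insert hi, _root_.mul_inv, mul_assoc]
    exact Sp.mul_inv hu (hJ (Finset.mem_insert_self i s))
      (ih ((Finset.subset_insert i s).trans hJ))

/-- partial fractions -/
theorem Rg_induction (hu : Function.Injective u) {f : FK} (hf : Rg u J f) (p : FK → Prop)
    (hadd : ∀ f g, p f → p g → p (f + g)) (hsmul : ∀ (x : KK) f, p f → p (Pool.Agent.CVG.CF x * f))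
    (hpow : ∀ k : ℕ, p (Pool.Agent.CVG.lam ^ k))
    (hinv : ∀ j ∈ J, ∀ k : ℕ, p ((Pool.Agent.CVG.lam - Pool.Agent.CVG.CF (u j))⁻¹ ^ (k + 1))) :
    p f := by
  obtain ⟨M, P, hP⟩ := hf
  have hne : ∏ j ∈ J, (Pool.Agent.CVG.lam - Pool.Agent.CVG.CF (u j)) ≠ 0 :=
    Finset.prod_ne_zero_iff.2 fun j _ => rg_ne (u j)
  have key : ∀ (M : ℕ) (g : FK), Sp u J g →
      Sp u J ((∏ j ∈ J, (Pool.Agent.CVG.lam - Pool.Agent.CVG.CF (u j)))⁻¹ ^ M * g) := by
    intro M
    induction M with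
    | zero =>
      intro g hg
      rw [pow_zero, one_mul]
      exact hg
    | succ M ih =>
      intro g hg
      rw [pow_succ, mul_assoc]
      exact ih _ (Sp.mul_prod hu J subset_rfl hg)
  have e : f = (∏ j ∈ J, (Pool.Agent.CVG.lam - Pool.Agent.CVG.CF (u j)))⁻¹ ^ M * pF P := by
    rw [← hP, inv_pow, mul_comm f, ← mul_assoc, inv_mul_cancel₀ (pow_ne_zero M hne), one_mul]
  rw [e]
  exact key M _ (Sp.poly P) p hadd hsmul hpow hinv

end Pool.Agent.CVG
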