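import Pool.Agent.CVG.Dat
import Pool.Agent.CVG.Rg

/-!
# CVG-DatR: the resolvent

PLAN. `G.map CF` is invertible with inverse `G⁻¹.map CF` (map of `G * G⁻¹ = 1`, `Matrix.mul_nonsing_inv`,
`hG`). `U.map CF = (G.map CF) * diagonal (CF ∘ u) * (G⁻¹.map CF)`, so `(lam • 1 - U.map CF) * R = 1`;
everything commutes (diagonal matrices). `R_dlam`: differentiate `(lam • 1 - U) R = 1` entrywise:
`R + (lam - U) R' = 0`. `R_dl`: `-(dl U) R + (lam - U) (dl R) = 0`. `R_Rg`: entries are sums of constants times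
`(lam - CF (u j))⁻¹`. `adj`: `R = (∏ (lam - u_j))⁻¹ • adjugate`; entries of the adjugate of
`lam • 1 - U.map CF` are polynomials in `lam` with coefficients in the subring generated by the
entries of `U`, so `Ge (gv 0 0) 0`; the valuation of `∏ (lam - u_j)` at `gv 0 0` is `0` (`gv_lam_sub`,
`min 0 (v (u_j)) = 0`).
-/

open scoped BigOperators

namespace Pool.Agent.CVG

section aux

variable {n : ℕ} {F : Type*} [Field F]

private theorem datR_conj_mul {P Q : Matrix (Fin n) (Fin n) F} (h : Q * P = 1) (d d' : Fin n → F) :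
    (P * Matrix.diagonal d * Q) * (P * Matrix.diagonal d' * Q) =
      P * Matrix.diagonal (fun i => d i * d' i) * Q := by
  calc (P * Matrix.diagonal d * Q) * (P * Matrix.diagonal d' * Q)
      = P * Matrix.diagonal d * (Q * P) * Matrix.diagonal d' * Q := by
        simp only [Matrix.mul_assoc]
    _ = P * (Matrix.diagonal d * Matrix.diagonal d') * Q := by
        rw [h, Matrix.mul_one, Matrix.mul_assoc P]
    _ = P * Matrix.diagonal (fun i => d i * d' i) * Q := by
        rw [Matrix.diagonal_mul_diagonal]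

private theorem datR_diag (d : Fin n → F) :
    Matrix.diagonal d = ∑ j, d j • Matrix.diagonal (Pi.single j (1 : F)) := by
  ext a b
  rw [Matrix.sum_apply]
  by_cases hab : a = b
  · subst hab
    rw [Matrix.diagonal_apply_eq, Finset.sum_eq_single a]
    · rw [Matrix.smul_apply, Matrix.diagonal_apply_eq, Pi.single_eq_same, smul_eq_mul, mul_one]
    · intro j _ hj
      rw [Matrix.smul_apply, Matrix.diagonal_apply_eq, Pi.single_eq_of_ne (Ne.symm hj), smul_zero]
    · intro h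
      exact absurd (Finset.mem_univ a) h
  · rw [Matrix.diagonal_apply_ne _ hab]
    refine (Finset.sum_eq_zero fun j _ => ?_).symm
    rw [Matrix.smul_apply, Matrix.diagonal_apply_ne _ hab, smul_zero]

private theorem datR_sum (P Q : Matrix (Fin n) (Fin n) F) (d : Fin n → F) :
    P * Matrix.diagonal d * Q = ∑ j, d j • (P * Matrix.diagonal (Pi.single j (1 : F)) * Q) := by
  conv_lhs => rw [datR_diag d]
  rw [Matrix.mul_sum, Matrix.sum_mul]
  refine Finset.sum_congr rfl fun j _ => ?_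
  rw [Matrix.mul_smul, Matrix.smul_mul]

private theorem datR_der_mul (D : Derivation ℤ F F) (M N : Matrix (Fin n) (Fin n) F) :
    (M * N).map D = M.map D * N + M * N.map D := by
  ext i j
  rw [Matrix.map_apply, Matrix.mul_apply, map_sum, Matrix.add_apply, Matrix.mul_apply,
    Matrix.mul_apply, ← Finset.sum_add_distrib]
  refine Finset.sum_congr rfl fun k _ => ?_
  rw [Derivation.leibniz, Matrix.map_apply, Matrix.map_apply, smul_eq_mul, smul_eq_mul]
  ring

private theorem datR_der_inv (D : Derivation ℤ F F) {A R : Matrix (Fin n) (Fin n) F}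
    (h1 : A * R = 1) (h2 : R * A = 1) : R.map D = -(R * A.map D * R) := by
  have h3 : (A * R).map D = 0 := by
    rw [h1]
    ext i j
    rw [Matrix.map_apply, Matrix.zero_apply]
    by_cases hij : i = j
    · rw [hij, Matrix.one_apply_eq, Derivation.map_one_eq_zero]
    · rw [Matrix.one_apply_ne hij, map_zero]
  rw [datR_der_mul] at h3
  have h4 : R * (A.map D * R + A * R.map D) = 0 := by rw [h3, Matrix.mul_zero]
  rw [Matrix.mul_add, ← Matrix.mul_assoc, ← Matrix.mul_assoc, h2, Matrix.one_mul] at h4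
  rw [eq_neg_iff_add_eq_zero, add_comm]
  exact h4

variable {v : AddValuation F (WithTop ℚ)}

private theorem datR_prod {ι : Type*} (s : Finset ι) (f : ι → F) (h : ∀ i ∈ s, Ge v 0 (f i)) :
    Ge v 0 (∏ i ∈ s, f i) := by
  classical
  induction s using Finset.induction_on with
  | empty => rw [Finset.prod_empty]; exact Ge.one
  | insert a s ha ih =>
    rw [Finset.prod_insert ha]
    have := (h a (Finset.mem_insert_self a s)).mul
      (ih fun i hi => h i (Finset.mem_insert_of_mem hi))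
    rwa [add_zero] at this

private theorem datR_det {M : Matrix (Fin n) (Fin n) F} (h : ∀ i j, Ge v 0 (M i j)) :
    Ge v 0 M.det := by
  rw [Matrix.det_apply']
  refine Ge.sum _ _ fun σ _ => ?_
  have h1 := (Ge.intCast (v := v) (Equiv.Perm.sign σ : ℤ)).mul
    (datR_prod (v := v) Finset.univ (fun i => M (σ i) i) fun i _ => h (σ i) i)
  rwa [add_zero] at h1

private theorem datR_adj {M : Matrix (Fin n) (Fin n) F} (h : ∀ i j, Ge v 0 (M i j)) (i j : Fin n) :
    Ge v 0 (M.adjugate i j) := by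
  rw [Matrix.adjugate_apply]
  refine datR_det fun a b => ?_
  by_cases ha : a = j
  · rw [ha, Matrix.updateRow_self]
    by_cases hb : b = i
    · rw [hb, Pi.single_eq_same]
      exact Ge.one
    · rw [Pi.single_eq_of_ne hb]
      exact Ge.zero
  · rw [Matrix.updateRow_ne ha]
    exact h a b

private theorem datR_vprod {ι : Type*} (s : Finset ι) (f : ι → F)
    (h : ∀ i ∈ s, v (f i) = ((0 : ℚ) : WithTop ℚ)) :
    v (∏ i ∈ s, f i) = ((0 : ℚ) : WithTop ℚ) := by
  classical
  induction s using Finset.induction_on with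
  | empty => rw [Finset.prod_empty, v.map_one]; rfl
  | insert a s ha ih =>
    rw [Finset.prod_insert ha, v.map_mul, h a (Finset.mem_insert_self a s),
      ih fun i hi => h i (Finset.mem_insert_of_mem hi), ← WithTop.coe_add, add_zero]

end aux

namespace Dat

variable {n : ℕ} (Δ : Dat n)

theorem GG_inv : Δ.G.map CF * Δ.G⁻¹.map CF = 1 := by
  rw [← Matrix.map_mul, Matrix.mul_nonsing_inv _ Δ.hG, Matrix.map_one _ (map_zero CF) (map_one CF)]

theorem inv_GG : Δ.G⁻¹.map CF * Δ.G.map CF = 1 := by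
  rw [← Matrix.map_mul, Matrix.nonsing_inv_mul _ Δ.hG, Matrix.map_one _ (map_zero CF) (map_one CF)]

private theorem datR_mapconj (d : Fin n → KK) :
    (Δ.G * Matrix.diagonal d * Δ.G⁻¹).map CF =
      Δ.G.map CF * Matrix.diagonal (fun i => CF (d i)) * Δ.G⁻¹.map CF := by
  rw [Matrix.map_mul, Matrix.map_mul, Matrix.diagonal_map (map_zero CF)]

private theorem datR_one (c : FK) :
    c • (1 : Matrix (Fin n) (Fin n) FK) =
      Δ.G.map CF * Matrix.diagonal (fun _ => c) * Δ.G⁻¹.map CF := by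
  have h : Matrix.diagonal (fun _ : Fin n => c) = c • (1 : Matrix (Fin n) (Fin n) FK) := by
    ext a b
    rw [Matrix.smul_apply, smul_eq_mul]
    by_cases hab : a = b
    · rw [hab, Matrix.diagonal_apply_eq, Matrix.one_apply_eq, mul_one]
    · rw [Matrix.diagonal_apply_ne _ hab, Matrix.one_apply_ne hab, mul_zero]
  rw [h, Matrix.mul_smul, Matrix.smul_mul, Matrix.mul_one, Δ.GG_inv]

private theorem datR_A : lam • (1 : Matrix (Fin n) (Fin n) FK) - Δ.U.map CF =
    Δ.G.map CF * Matrix.diagonal (fun i => lam - CF (Δ.u i)) * Δ.G⁻¹.map CF := by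
  rw [Δ.hU, Δ.datR_mapconj, Δ.datR_one lam, ← Matrix.sub_mul, ← Matrix.mul_sub,
    Matrix.diagonal_sub]

private theorem datR_ne (a : KK) : lam - CF a ≠ 0 := by
  intro h
  rw [← pF_X, ← pF_C, ← map_sub] at h
  exact Polynomial.X_sub_C_ne_zero a (pF_injective (by rw [h, map_zero]))

theorem res_mul : (lam • (1 : Matrix (Fin n) (Fin n) FK) - Δ.U.map CF) * Δ.R = 1 := by
  rw [Δ.datR_A, R, datR_conj_mul Δ.inv_GG]
  have h : (fun i => (lam - CF (Δ.u i)) * (lam - CF (Δ.u i))⁻¹) = fun _ => (1 : FK) := by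
    funext i
    exact mul_inv_cancel₀ (datR_ne _)
  rw [h, ← Δ.datR_one 1, one_smul]

theorem mul_res : Δ.R * (lam • (1 : Matrix (Fin n) (Fin n) FK) - Δ.U.map CF) = 1 := by
  rw [Δ.datR_A, R, datR_conj_mul Δ.inv_GG]
  have h : (fun i => (lam - CF (Δ.u i))⁻¹ * (lam - CF (Δ.u i))) = fun _ => (1 : FK) := by
    funext i
    exact inv_mul_cancel₀ (datR_ne _)
  rw [h, ← Δ.datR_one 1, one_smul]

theorem R_U : Δ.R * Δ.U.map CF = Δ.U.map CF * Δ.R := by
  rw [Δ.hU, Δ.datR_mapconj, R, datR_conj_mul Δ.inv_GG, datR_conj_mul Δ.inv_GG]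
  congr 3
  funext i
  exact mul_comm _ _

theorem R_S : Δ.R * Δ.S.map CF = Δ.S.map CF * Δ.R := by
  rw [Δ.hS, Δ.datR_mapconj, R, datR_conj_mul Δ.inv_GG, datR_conj_mul Δ.inv_GG]
  congr 3
  funext i
  exact mul_comm _ _

theorem U_S : Δ.U * Δ.S = Δ.S * Δ.U := by
  have h : Δ.G⁻¹ * Δ.G = 1 := Matrix.nonsing_inv_mul _ Δ.hG
  rw [Δ.hU, Δ.hS, datR_conj_mul h, datR_conj_mul h]
  congr 3
  funext i
  exact mul_comm _ _

theorem map_dl (M : Matrix (Fin n) (Fin n) KK) : (M.map CF).map dl = (M.map dK).map CF := by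
  ext i j
  rw [Matrix.map_apply, Matrix.map_apply, Matrix.map_apply, Matrix.map_apply, dl_CF]

theorem map_dlam (M : Matrix (Fin n) (Fin n) KK) : (M.map CF).map dlam = 0 := by
  ext i j
  rw [Matrix.map_apply, Matrix.map_apply, dlam_CF, Matrix.zero_apply]

private theorem datR_lam (D : Derivation ℤ FK FK) (M : Matrix (Fin n) (Fin n) FK) :
    (lam • (1 : Matrix (Fin n) (Fin n) FK) - M).map D =
      D lam • (1 : Matrix (Fin n) (Fin n) FK) - M.map D := by
  ext i j
  rw [Matrix.map_apply, Matrix.sub_apply, map_sub, Matrix.sub_apply, Matrix.map_apply,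
    Matrix.smul_apply, Matrix.smul_apply]
  by_cases hij : i = j
  · rw [hij, Matrix.one_apply_eq, smul_eq_mul, smul_eq_mul, mul_one, mul_one]
  · rw [Matrix.one_apply_ne hij, smul_zero, smul_zero, map_zero]

theorem R_dlam : Δ.R.map dlam = -(Δ.R * Δ.R) := by
  rw [datR_der_inv dlam Δ.res_mul Δ.mul_res, datR_lam, map_dlam, dlam_lam, one_smul, sub_zero,
    Matrix.mul_one]

theorem R_dl : Δ.R.map dl = Δ.R * (Δ.U.map dK).map CF * Δ.R := by
  rw [datR_der_inv dl Δ.res_mul Δ.mul_res, datR_lam, map_dl, dl_lam, zero_smul, zero_sub,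
    Matrix.mul_neg, Matrix.neg_mul, neg_neg]

theorem B_dl : (Δ.B.map CF).map dl = 0 := by
  ext i j
  rw [map_dl, Matrix.map_apply, Matrix.map_apply, B, Matrix.map_apply, dK_cK, map_zero,
    Matrix.zero_apply]

private theorem datR_E (j : Fin n) : (Δ.E j).map CF =
    Δ.G.map CF * Matrix.diagonal (Pi.single j (1 : FK)) * Δ.G⁻¹.map CF := by
  rw [E, Δ.datR_mapconj]
  congr 3
  funext i
  by_cases h : i = j
  · rw [h, Pi.single_eq_same, Pi.single_eq_same, map_one]
  · rw [Pi.single_eq_of_ne h, Pi.single_eq_of_ne h, map_zero]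

/-- `R = ∑ E_j / (λ - u_j)` -/
theorem R_sum : Δ.R = ∑ j, (lam - CF (Δ.u j))⁻¹ • (Δ.E j).map CF := by
  rw [R, datR_sum]
  refine Finset.sum_congr rfl fun j _ => ?_
  rw [Δ.datR_E]

theorem S_sum : Δ.S = ∑ j, dK (Δ.u j) • Δ.E j := by
  rw [Δ.hS, datR_sum]
  rfl

theorem U_sum : Δ.U = ∑ j, Δ.u j • Δ.E j := by
  rw [Δ.hU, datR_sum]
  rfl

theorem E_mul (i j : Fin n) : Δ.E i * Δ.E j = if i = j then Δ.E i else 0 := by
  have h : Δ.G⁻¹ * Δ.G = 1 := Matrix.nonsing_inv_mul _ Δ.hG
  rw [E, E, datR_conj_mul h]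
  by_cases hij : i = j
  · rw [if_pos hij, ← hij]
    congr 3
    funext k
    by_cases hk : k = i
    · rw [hk, Pi.single_eq_same, mul_one]
    · rw [Pi.single_eq_of_ne hk, mul_zero]
  · rw [if_neg hij]
    have e : (fun k => (Pi.single i (1 : KK) : Fin n → KK) k * (Pi.single j (1 : KK) : Fin n → KK) k) =
        fun _ => (0 : KK) := by
      funext k
      by_cases hk : k = i
      · rw [Pi.single_eq_of_ne (M := fun _ => KK) (i := j) (by rw [hk]; exact hij), mul_zero]
      · rw [Pi.single_eq_of_ne (M := fun _ => KK) (i := i) hk, zero_mul]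
    rw [e, Matrix.diagonal_zero, Matrix.mul_zero, Matrix.zero_mul]

theorem E_sum : ∑ j, Δ.E j = 1 := by
  have h : Δ.G * Δ.G⁻¹ = 1 := Matrix.mul_nonsing_inv _ Δ.hG
  have h1 := datR_sum Δ.G Δ.G⁻¹ (fun _ => (1 : KK))
  rw [Matrix.diagonal_one, Matrix.mul_one, h] at h1
  rw [h1]
  refine Finset.sum_congr rfl fun j _ => ?_
  rw [one_smul]
  rfl

/-- `E_i W E_i = w_i(W) E_i` -/
theorem E_W_E (i : Fin n) (W : Matrix (Fin n) (Fin n) KK) :
    Δ.E i * W * Δ.E i = Δ.w i W • Δ.E i := by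
  have h : ∀ X : Matrix (Fin n) (Fin n) KK, Matrix.diagonal (Pi.single i (1 : KK)) * X *
      Matrix.diagonal (Pi.single i (1 : KK)) = X i i • Matrix.diagonal (Pi.single i (1 : KK)) := by
    intro X
    ext a b
    rw [Matrix.mul_diagonal, Matrix.diagonal_mul, Matrix.smul_apply, smul_eq_mul]
    by_cases ha : a = i
    · rw [ha, Pi.single_eq_same, one_mul]
      by_cases hb : b = i
      · rw [hb, Pi.single_eq_same, Matrix.diagonal_apply_eq, Pi.single_eq_same]
      · rw [Pi.single_eq_of_ne hb, Matrix.diagonal_apply_ne _ (Ne.symm hb), mul_zero, mul_zero]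
    · rw [Pi.single_eq_of_ne ha, zero_mul, zero_mul]
      by_cases hab : a = b
      · rw [← hab, Matrix.diagonal_apply_eq, Pi.single_eq_of_ne ha, mul_zero]
      · rw [Matrix.diagonal_apply_ne _ hab, mul_zero]
  calc Δ.E i * W * Δ.E i = Δ.G * (Matrix.diagonal (Pi.single i (1 : KK)) * (Δ.G⁻¹ * W * Δ.G) *
        Matrix.diagonal (Pi.single i (1 : KK))) * Δ.G⁻¹ := by
        rw [E]
        simp only [Matrix.mul_assoc]
    _ = Δ.w i W • Δ.E i := by
        rw [h, Matrix.mul_smul, Matrix.smul_mul]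
        rfl

theorem R_Rg (i j : Fin n) : Rg Δ.u Finset.univ (Δ.R i j) := by
  rw [Δ.R_sum, Matrix.sum_apply]
  refine Rg.sum _ _ fun k _ => ?_
  rw [Matrix.smul_apply, smul_eq_mul, Matrix.map_apply]
  exact (Rg.inv_sub (Finset.mem_univ k)).mul (Rg.CF _)

private theorem datR_mulRg {M N : Matrix (Fin n) (Fin n) FK}
    (h1 : ∀ i j, Rg Δ.u Finset.univ (M i j)) (h2 : ∀ i j, Rg Δ.u Finset.univ (N i j)) (i j : Fin n) :
    Rg Δ.u Finset.univ ((M * N) i j) := by
  rw [Matrix.mul_apply]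
  exact Rg.sum _ _ fun k _ => (h1 i k).mul (h2 k j)

private theorem datR_CFRg (M : Matrix (Fin n) (Fin n) KK) (i j : Fin n) :
    Rg Δ.u Finset.univ ((M.map CF) i j) := by
  rw [Matrix.map_apply]
  exact Rg.CF _

theorem RB_Rg (i j : Fin n) : Rg Δ.u Finset.univ (Δ.RB i j) :=
  Δ.datR_mulRg Δ.R_Rg (Δ.datR_CFRg _) i j

theorem RSB_Rg (i j : Fin n) : Rg Δ.u Finset.univ (Δ.RSB i j) :=
  Δ.datR_mulRg (Δ.datR_mulRg Δ.R_Rg (Δ.datR_CFRg _)) (Δ.datR_CFRg _) i j

/-- the resolvent is integral at the unit disc -/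
theorem R_ge (i j : Fin n) : Ge (gv 0 0) 0 (Δ.R i j) := by
  have hdet : (lam • (1 : Matrix (Fin n) (Fin n) FK) - Δ.U.map CF).det =
      ∏ k, (lam - CF (Δ.u k)) := by
    rw [Δ.datR_A, Matrix.det_mul, Matrix.det_mul, Matrix.det_diagonal, mul_right_comm,
      ← Matrix.det_mul, Δ.GG_inv, Matrix.det_one, one_mul]
  have hlam : Ge (gv 0 0) 0 lam := by
    have h := gv_lam_sub 0 0 0
    rw [map_zero, sub_zero, sub_zero, vK.map_zero, min_eq_left le_top] at h
    exact h.ge
  have hA : ∀ a b, Ge (gv 0 0) 0 ((lam • (1 : Matrix (Fin n) (Fin n) FK) - Δ.U.map CF) a b) := by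
    intro a b
    rw [Matrix.sub_apply, Matrix.smul_apply, Matrix.map_apply, smul_eq_mul]
    refine Ge.sub ?_ (Ge_gv_CF.2 (Δ.U_ge a b))
    by_cases hab : a = b
    · rw [hab, Matrix.one_apply_eq, mul_one]
      exact hlam
    · rw [Matrix.one_apply_ne hab, mul_zero]
      exact Ge.zero
  have hadj := datR_adj hA i j
  have e : (lam • (1 : Matrix (Fin n) (Fin n) FK) - Δ.U.map CF).adjugate =
      (lam • (1 : Matrix (Fin n) (Fin n) FK) - Δ.U.map CF).det • Δ.R := by
    calc (lam • (1 : Matrix (Fin n) (Fin n) FK) - Δ.U.map CF).adjugate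
        = (lam • (1 : Matrix (Fin n) (Fin n) FK) - Δ.U.map CF).adjugate *
          ((lam • (1 : Matrix (Fin n) (Fin n) FK) - Δ.U.map CF) * Δ.R) := by
          rw [Δ.res_mul, Matrix.mul_one]
      _ = _ := by
          rw [← Matrix.mul_assoc, Matrix.adjugate_mul, Matrix.smul_mul, Matrix.one_mul]
  rw [e, Matrix.smul_apply, smul_eq_mul, hdet] at hadj
  have hv : gv 0 0 (∏ k, (lam - CF (Δ.u k))) = ((0 : ℚ) : WithTop ℚ) := by
    refine datR_vprod _ _ fun k _ => ?_
    rw [gv_lam_sub, zero_sub]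
    exact min_eq_left (Δ.u_ge k).neg
  unfold Ge at hadj ⊢
  rw [AddValuation.map_mul, hv] at hadj
  have h0 : ((0 : ℚ) : WithTop ℚ) = 0 := rfl
  rw [h0, zero_add] at hadj
  exact hadj

theorem B_ge (i j : Fin n) : Ge vK 0 (Δ.B i j) := by
  rw [B, Matrix.map_apply]
  exact Ge_cK _

end Dat

end Pool.Agent.CVG
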