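import Mathlib

/-!
# Convergence of generically semisimple quantum cohomology: basic definitions

Valuations with values in `WithTop ℚ`, derivations, connections and bounds for their iterates.
-/

open scoped BigOperators

namespace Pool.Agent.CVG

section val

variable {F : Type*} [Field F] (v : AddValuation F (WithTop ℚ))

/-- `Ge v c x`: the valuation of `x` is at least `c`. -/
def Ge (c : ℚ) (x : F) : Prop := (c : WithTop ℚ) ≤ v x

variable {v}

theorem Ge.mono {c c' : ℚ} {x : F} (h : Ge v c x) (hc : c' ≤ c) : Ge v c' x :=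
  le_trans (WithTop.coe_le_coe.2 hc) h

theorem Ge.zero {c : ℚ} : Ge v c (0 : F) := by
  rw [Ge, v.map_zero]; exact le_top

theorem Ge.add {c : ℚ} {x y : F} (hx : Ge v c x) (hy : Ge v c y) : Ge v c (x + y) :=
  le_trans (le_min hx hy) (v.map_add x y)

theorem Ge.neg {c : ℚ} {x : F} (hx : Ge v c x) : Ge v c (-x) := by
  rw [Ge, v.map_neg]; exact hx

theorem Ge.sub {c : ℚ} {x y : F} (hx : Ge v c x) (hy : Ge v c y) : Ge v c (x - y) := by
  rw [sub_eq_add_neg]; exact hx.add hy.neg

theorem Ge.mul {c d : ℚ} {x y : F} (hx : Ge v c x) (hy : Ge v d y) : Ge v (c + d) (x * y) := by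
  rw [Ge, v.map_mul, WithTop.coe_add]
  exact add_le_add hx hy

theorem Ge.one : Ge v 0 (1 : F) := by
  rw [Ge, v.map_one]; exact le_of_eq rfl

theorem Ge.sum {c : ℚ} {ι : Type*} (s : Finset ι) (f : ι → F) (h : ∀ i ∈ s, Ge v c (f i)) :
    Ge v c (∑ i ∈ s, f i) := by
  classical
  induction s using Finset.induction_on with
  | empty => rw [Finset.sum_empty]; exact Ge.zero
  | insert a s ha ih =>
    rw [Finset.sum_insert ha]
    exact (h a (Finset.mem_insert_self a s)).add
      (ih fun i hi => h i (Finset.mem_insert_of_mem hi))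

theorem Ge.natCast (n : ℕ) : Ge v 0 (n : F) := by
  induction n with
  | zero => rw [Nat.cast_zero]; exact Ge.zero
  | succ n ih => rw [Nat.cast_succ]; exact ih.add Ge.one

theorem Ge.intCast (n : ℤ) : Ge v 0 (n : F) := by
  rcases n with n | n
  · rw [Int.ofNat_eq_natCast, Int.cast_natCast]; exact Ge.natCast n
  · rw [Int.cast_negSucc]; exact (Ge.natCast (n + 1)).neg

theorem Ge.pow {x : F} (hx : Ge v 0 x) (n : ℕ) : Ge v 0 (x ^ n) := by
  induction n with
  | zero => rw [pow_zero]; exact Ge.one
  | succ n ih => rw [pow_succ]; simpa using ih.mul hx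

theorem Ge.pow' {c : ℚ} {x : F} (hx : Ge v c x) (n : ℕ) : Ge v (n * c) (x ^ n) := by
  induction n with
  | zero => rw [pow_zero, Nat.cast_zero, zero_mul]; exact Ge.one
  | succ n ih =>
    rw [pow_succ, Nat.cast_succ, add_mul, one_mul]
    exact ih.mul hx

variable (v)

/-- The derivation `D` does not decrease the valuation `v`. -/
def DerGe (D : Derivation ℤ F F) : Prop := ∀ (c : ℚ) (f : F), Ge v c f → Ge v c (D f)

end val

section conn

variable {F : Type*} [Field F] {V : Type*} [AddCommGroup V] [Module F V]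

/-- `T` is a connection with respect to the derivation `D`. -/
structure IsConn (D : Derivation ℤ F F) (T : V → V) : Prop where
  add : ∀ x y, T (x + y) = T x + T y
  smul : ∀ (f : F) (x : V), T (f • x) = D f • x + f • T x

variable {D : Derivation ℤ F F} {T : V → V}

theorem IsConn.zero (h : IsConn D T) : T 0 = 0 := by
  have := h.add 0 0
  rw [add_zero] at this
  exact left_eq_add.1 this

theorem IsConn.neg (h : IsConn D T) (x : V) : T (-x) = -T x := by
  have := h.add x (-x)
  rw [add_neg_cancel, h.zero] at this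
  exact (neg_eq_of_add_eq_zero_right this.symm).symm

theorem IsConn.sub (h : IsConn D T) (x y : V) : T (x - y) = T x - T y := by
  rw [sub_eq_add_neg, h.add, h.neg, ← sub_eq_add_neg]

theorem IsConn.sum (h : IsConn D T) {ι : Type*} (s : Finset ι) (f : ι → V) :
    T (∑ i ∈ s, f i) = ∑ i ∈ s, T (f i) := by
  classical
  induction s using Finset.induction_on with
  | empty => rw [Finset.sum_empty, Finset.sum_empty, h.zero]
  | insert a s ha ih => rw [Finset.sum_insert ha, Finset.sum_insert ha, h.add, ih]

theorem IsConn.iter_add (h : IsConn D T) (k : ℕ) (x y : V) :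
    T^[k] (x + y) = T^[k] x + T^[k] y := by
  induction k generalizing x y with
  | zero => rfl
  | succ k ih => rw [Function.iterate_succ_apply, h.add, ih]; rfl

theorem IsConn.iter_zero (h : IsConn D T) (k : ℕ) : T^[k] 0 = 0 := by
  induction k with
  | zero => rfl
  | succ k ih => rw [Function.iterate_succ_apply', ih, h.zero]

theorem IsConn.iter_neg (h : IsConn D T) (k : ℕ) (x : V) : T^[k] (-x) = -T^[k] x := by
  induction k generalizing x with
  | zero => rfl
  | succ k ih => rw [Function.iterate_succ_apply, h.neg, ih]; rfl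

theorem IsConn.iter_sum (h : IsConn D T) (k : ℕ) {ι : Type*} (s : Finset ι) (f : ι → V) :
    T^[k] (∑ i ∈ s, f i) = ∑ i ∈ s, T^[k] (f i) := by
  classical
  induction s using Finset.induction_on with
  | empty => rw [Finset.sum_empty, Finset.sum_empty, h.iter_zero]
  | insert a s ha ih => rw [Finset.sum_insert ha, Finset.sum_insert ha, h.iter_add, ih]

theorem IsConn.smul_right (h : IsConn D T) (g : F) : IsConn (g • D) (fun x => g • T x) where
  add x y := by simp only [h.add, smul_add]
  smul f x := by
    simp only [h.smul, smul_add, Derivation.smul_apply, smul_smul, smul_eq_mul]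
    rw [mul_comm f g]

theorem IsConn.add_conn {D' : Derivation ℤ F F} {T' : V → V} (h : IsConn D T)
    (h' : IsConn D' T') : IsConn (D + D') (fun x => T x + T' x) where
  add x y := by simp only [h.add, h'.add]; abel
  smul f x := by
    simp only [h.smul, h'.smul, Derivation.add_apply, add_smul, smul_add]; abel

/-- `e` is a cyclic vector of `T`, with `T^n e = ∑ a_i T^i e`. -/
structure IsCyc (T : V → V) (n : ℕ) (e : V) (a : Fin n → F) : Prop where
  li : LinearIndependent F (fun i : Fin n => T^[(i : ℕ)] e)
  top : Submodule.span F (Set.range fun i : Fin n => T^[(i : ℕ)] e) = ⊤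
  eq : T^[n] e = ∑ i, a i • T^[(i : ℕ)] e

variable {ι : Type*}

/-- All coordinates of `x` in the basis `b` have valuation at least `c`. -/
def GE (v : AddValuation F (WithTop ℚ)) (b : Module.Basis ι F V) (c : ℚ) (x : V) : Prop :=
  ∀ i, Ge v c (b.repr x i)

variable {v : AddValuation F (WithTop ℚ)} {b : Module.Basis ι F V}

theorem GE.mono {c c' : ℚ} {x : V} (h : GE v b c x) (hc : c' ≤ c) : GE v b c' x :=
  fun i => (h i).mono hc

theorem GE.zero {c : ℚ} : GE v b c 0 := fun i => by
  rw [map_zero, Finsupp.zero_apply]; exact Ge.zero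

theorem GE.add {c : ℚ} {x y : V} (hx : GE v b c x) (hy : GE v b c y) : GE v b c (x + y) :=
  fun i => by rw [map_add, Finsupp.add_apply]; exact (hx i).add (hy i)

theorem GE.neg {c : ℚ} {x : V} (hx : GE v b c x) : GE v b c (-x) :=
  fun i => by rw [map_neg, Finsupp.neg_apply]; exact (hx i).neg

theorem GE.sub {c : ℚ} {x y : V} (hx : GE v b c x) (hy : GE v b c y) : GE v b c (x - y) := by
  rw [sub_eq_add_neg]; exact hx.add hy.neg

theorem GE.smul {c d : ℚ} {f : F} {x : V} (hf : Ge v c f) (hx : GE v b d x) :
    GE v b (c + d) (f • x) :=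
  fun i => by rw [map_smul, Finsupp.smul_apply, smul_eq_mul]; exact hf.mul (hx i)

theorem GE.smul0 {d : ℚ} {f : F} {x : V} (hf : Ge v 0 f) (hx : GE v b d x) :
    GE v b d (f • x) := by
  simpa using GE.smul hf hx

theorem GE.sum {c : ℚ} {κ : Type*} (s : Finset κ) (f : κ → V) (h : ∀ i ∈ s, GE v b c (f i)) :
    GE v b c (∑ i ∈ s, f i) := by
  classical
  induction s using Finset.induction_on with
  | empty => rw [Finset.sum_empty]; exact GE.zero
  | insert a s ha ih =>
    rw [Finset.sum_insert ha]
    exact (h a (Finset.mem_insert_self a s)).add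
      (ih fun i hi => h i (Finset.mem_insert_of_mem hi))

theorem GE.self (i : ι) : GE v b 0 (b i) := by
  classical
  intro j
  rw [Module.Basis.repr_self, Finsupp.single_apply]
  split_ifs
  · exact Ge.one
  · exact Ge.zero

variable (v b)

/-- `MBdd v b m T`: the iterates of `T` satisfy `v (T^k x) ≥ v x - m k - C` for a constant `C`. -/
def MBdd (m : ℚ) (T : V → V) : Prop :=
  ∃ C : ℚ, ∀ (k : ℕ) (x : V) (c : ℚ), GE v b c x → GE v b (c - m * k - C) (T^[k] x)

variable {v b}

theorem MBdd.mono {m m' : ℚ} (h : MBdd v b m T) (hm : m ≤ m') : MBdd v b m' T := by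
  obtain ⟨C, hC⟩ := h
  refine ⟨C, fun k x c hx => (hC k x c hx).mono ?_⟩
  have : m * k ≤ m' * k := mul_le_mul_of_nonneg_right hm (Nat.cast_nonneg k)
  linarith

end conn

end Pool.Agent.CVG
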