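import Mathlib

/-!
# CVG-LineEx: restriction of a power series to a line through the origin

PLAN. Restriction to the line `t = s v`: coefficient of `s^k` is `∑_{|m| = k} f_m v^m`
(`Finset.finsuppAntidiag Finset.univ k` is the finite set of exponents of degree `k`). Multiplicativity:
`MvPowerSeries.coeff_mul` and `PowerSeries.coeff_mul`, regrouping of the double sums; or use
`MvPowerSeries.subst`/`substAlgHom` with `HasSubst` (finitely many variables mapped to `C (v i) * X`) and
compute coefficients. `line_pderiv`: coefficientwise (`MvPowerSeries.coeff_pderiv`,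
`PowerSeries.coeff_derivative`): `(k+1) ∑_{|m|=k+1} f_m v^m = ∑_i v_i ∑_{|m|=k} (m_i+1) f_{m+e_i} v^m`.
-/

open scoped BigOperators PowerSeries

namespace Pool.Agent.CVG

private noncomputable def mw {κ : Type} [Fintype κ] (v : κ → ℂ) (m : κ →₀ ℕ) : ℂ := ∏ i, v i ^ m i

private theorem mw_zero {κ : Type} [Fintype κ] (v : κ → ℂ) : mw v 0 = 1 := by
  unfold mw
  exact Finset.prod_eq_one fun i _ => by rw [Finsupp.zero_apply, pow_zero]

private theorem mw_add {κ : Type} [Fintype κ] (v : κ → ℂ) (m m' : κ →₀ ℕ) :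
    mw v (m + m') = mw v m * mw v m' := by
  unfold mw
  rw [← Finset.prod_mul_distrib]
  exact Finset.prod_congr rfl fun i _ => by rw [Finsupp.add_apply, pow_add]

private theorem mem_fa {κ : Type} [Fintype κ] [DecidableEq κ] (m : κ →₀ ℕ) (k : ℕ) :
    m ∈ Finset.finsuppAntidiag Finset.univ k ↔ ∑ i, m i = k := by
  rw [Finset.mem_finsuppAntidiag]
  exact ⟨fun h => h.1, fun h => ⟨h, Finset.subset_univ _⟩⟩

private theorem mul_aux {κ : Type} [Fintype κ] [DecidableEq κ] (v : κ → ℂ)
    (f g : MvPowerSeries κ ℂ) (k : ℕ) :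
    ∑ m ∈ Finset.finsuppAntidiag Finset.univ k, MvPowerSeries.coeff m (f * g) * mw v m =
      ∑ p ∈ Finset.HasAntidiagonal.antidiagonal k,
        (∑ m ∈ Finset.finsuppAntidiag Finset.univ p.1, MvPowerSeries.coeff m f * mw v m) *
        (∑ m ∈ Finset.finsuppAntidiag Finset.univ p.2, MvPowerSeries.coeff m g * mw v m) := by
  have h1 : ∀ m : κ →₀ ℕ, MvPowerSeries.coeff m (f * g) * mw v m =
      ∑ p ∈ Finset.HasAntidiagonal.antidiagonal m, (MvPowerSeries.coeff p.1 f * mw v p.1) *
        (MvPowerSeries.coeff p.2 g * mw v p.2) := by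
    intro m
    rw [MvPowerSeries.coeff_mul, Finset.sum_mul]
    refine Finset.sum_congr rfl fun p hp => ?_
    rw [← Finset.HasAntidiagonal.mem_antidiagonal.1 hp, mw_add]
    ring
  have h2 : ∀ p : ℕ × ℕ,
      (∑ m ∈ Finset.finsuppAntidiag Finset.univ p.1, MvPowerSeries.coeff m f * mw v m) *
        (∑ m ∈ Finset.finsuppAntidiag Finset.univ p.2, MvPowerSeries.coeff m g * mw v m) =
      ∑ q ∈ (Finset.finsuppAntidiag Finset.univ p.1 : Finset (κ →₀ ℕ)) ×ˢ
        (Finset.finsuppAntidiag Finset.univ p.2 : Finset (κ →₀ ℕ)),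
        (MvPowerSeries.coeff q.1 f * mw v q.1) * (MvPowerSeries.coeff q.2 g * mw v q.2) := by
    intro p
    rw [Finset.sum_mul_sum, Finset.sum_product]
  simp only [h1, h2]
  rw [Finset.sum_sigma', Finset.sum_sigma']
  refine Finset.sum_nbij' (fun x => ⟨(∑ i, x.2.1 i, ∑ i, x.2.2 i), x.2⟩)
    (fun x => ⟨x.2.1 + x.2.2, x.2⟩) ?_ ?_ ?_ ?_ ?_
  · rintro ⟨m, a, b⟩ h
    rw [Finset.mem_sigma] at h ⊢
    have h3 := Finset.HasAntidiagonal.mem_antidiagonal.1 h.2
    have h4 := (mem_fa m k).1 h.1
    refine ⟨Finset.HasAntidiagonal.mem_antidiagonal.2 ?_, Finset.mem_product.2 ⟨(mem_fa _ _).2 rfl,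
      (mem_fa _ _).2 rfl⟩⟩
    show ∑ i, a i + ∑ i, b i = k
    rw [← Finset.sum_add_distrib, ← h4]
    exact Finset.sum_congr rfl fun i _ => by
      rw [← Finsupp.add_apply]
      exact congrArg (fun z : κ →₀ ℕ => z i) h3
  · rintro ⟨p, a, b⟩ h
    rw [Finset.mem_sigma] at h ⊢
    have h3 := Finset.mem_product.1 h.2
    have h4 := (mem_fa _ _).1 h3.1
    have h5 := (mem_fa _ _).1 h3.2
    have h6 := Finset.HasAntidiagonal.mem_antidiagonal.1 h.1
    refine ⟨(mem_fa _ _).2 ?_, Finset.HasAntidiagonal.mem_antidiagonal.2 rfl⟩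
    show ∑ i, (a + b) i = k
    rw [← h6]
    show ∑ i, (a + b) i = p.1 + p.2
    rw [← h4, ← h5, ← Finset.sum_add_distrib]
    exact Finset.sum_congr rfl fun i _ => by rw [Finsupp.add_apply]
  · rintro ⟨m, a, b⟩ h
    rw [Finset.mem_sigma] at h
    have h3 : a + b = m := Finset.HasAntidiagonal.mem_antidiagonal.1 h.2
    subst h3
    rfl
  · rintro ⟨⟨p, q⟩, a, b⟩ h
    rw [Finset.mem_sigma] at h
    have h3 := Finset.mem_product.1 h.2
    have h4 : ∑ i, a i = p := (mem_fa _ _).1 h3.1
    have h5 : ∑ i, b i = q := (mem_fa _ _).1 h3.2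
    subst h4
    subst h5
    rfl
  · rintro ⟨m, a, b⟩ h
    rfl

theorem exists_line {κ : Type} [Fintype κ] [DecidableEq κ] (v : κ → ℂ) :
    ∃ φ : MvPowerSeries κ ℂ →+* ℂ⟦X⟧, ∀ (f : MvPowerSeries κ ℂ) (k : ℕ),
      PowerSeries.coeff k (φ f) =
        ∑ m ∈ Finset.finsuppAntidiag Finset.univ k, MvPowerSeries.coeff m f * ∏ i, v i ^ m i := by
  let φ : MvPowerSeries κ ℂ →+* ℂ⟦X⟧ :=
    { toFun := fun f => PowerSeries.mk fun k =>
        ∑ m ∈ Finset.finsuppAntidiag Finset.univ k, MvPowerSeries.coeff m f * mw v m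
      map_zero' := by
        ext k
        rw [PowerSeries.coeff_mk, map_zero]
        exact Finset.sum_eq_zero fun m _ => by rw [map_zero, zero_mul]
      map_one' := by
        ext k
        rw [PowerSeries.coeff_mk, PowerSeries.coeff_one]
        by_cases hk : k = 0
        · subst hk
          rw [if_pos rfl, Finset.sum_eq_single 0]
          · rw [MvPowerSeries.coeff_one, if_pos rfl, mw_zero, one_mul]
          · intro m hm hm0
            rw [MvPowerSeries.coeff_one, if_neg hm0, zero_mul]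
          · intro h
            exact absurd ((mem_fa _ _).2 (by simp)) h
        · rw [if_neg hk]
          refine Finset.sum_eq_zero fun m hm => ?_
          rw [MvPowerSeries.coeff_one, if_neg, zero_mul]
          rintro rfl
          exact hk (by rw [← (mem_fa _ _).1 hm]; simp)
      map_add' := by
        intro f g
        ext k
        rw [map_add, PowerSeries.coeff_mk, PowerSeries.coeff_mk, PowerSeries.coeff_mk,
          ← Finset.sum_add_distrib]
        exact Finset.sum_congr rfl fun m _ => by rw [map_add, add_mul]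
      map_mul' := by
        intro f g
        ext k
        rw [PowerSeries.coeff_mul, PowerSeries.coeff_mk, mul_aux]
        exact Finset.sum_congr rfl fun p _ => by
          rw [PowerSeries.coeff_mk, PowerSeries.coeff_mk] }
  refine ⟨φ, fun f k => ?_⟩
  exact PowerSeries.coeff_mk k (fun k =>
    ∑ m ∈ Finset.finsuppAntidiag Finset.univ k, MvPowerSeries.coeff m f * mw v m)

/-- restriction to the line `t = s v` -/
noncomputable def line {κ : Type} [Fintype κ] [DecidableEq κ] (v : κ → ℂ) :
    MvPowerSeries κ ℂ →+* ℂ⟦X⟧ := (exists_line v).choose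

theorem coeff_line {κ : Type} [Fintype κ] [DecidableEq κ] (v : κ → ℂ) (f : MvPowerSeries κ ℂ)
    (k : ℕ) : PowerSeries.coeff k (line v f) =
      ∑ m ∈ Finset.finsuppAntidiag Finset.univ k, MvPowerSeries.coeff m f * ∏ i, v i ^ m i :=
  (exists_line v).choose_spec f k

private theorem coeff_line' {κ : Type} [Fintype κ] [DecidableEq κ] (v : κ → ℂ)
    (f : MvPowerSeries κ ℂ) (k : ℕ) : PowerSeries.coeff k (line v f) =
      ∑ m ∈ Finset.finsuppAntidiag Finset.univ k, MvPowerSeries.coeff m f * mw v m :=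
  coeff_line v f k

theorem line_C {κ : Type} [Fintype κ] [DecidableEq κ] (v : κ → ℂ) (z : ℂ) :
    line v (MvPowerSeries.C z) = PowerSeries.C z := by
  ext k
  rw [coeff_line', PowerSeries.coeff_C]
  by_cases hk : k = 0
  · subst hk
    rw [if_pos rfl, Finset.sum_eq_single 0]
    · rw [MvPowerSeries.coeff_C, if_pos rfl, mw_zero, mul_one]
    · intro m hm hm0
      rw [MvPowerSeries.coeff_C, if_neg hm0, zero_mul]
    · intro h
      exact absurd ((mem_fa _ _).2 (by simp)) h
  · rw [if_neg hk]
    refine Finset.sum_eq_zero fun m hm => ?_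
    rw [MvPowerSeries.coeff_C, if_neg, zero_mul]
    rintro rfl
    exact hk (by rw [← (mem_fa _ _).1 hm]; simp)

private theorem shift_aux {κ : Type} [Fintype κ] [DecidableEq κ] (F : (κ →₀ ℕ) → ℂ) (i : κ)
    (k : ℕ) :
    ∑ m ∈ Finset.finsuppAntidiag Finset.univ (k + 1), (m i : ℂ) * F m =
      ∑ m ∈ Finset.finsuppAntidiag Finset.univ k,
        ((m i : ℂ) + 1) * F (m + Finsupp.single i 1) := by
  classical
  have h1 : ∑ m ∈ Finset.finsuppAntidiag Finset.univ (k + 1), (m i : ℂ) * F m =
      ∑ m ∈ (Finset.finsuppAntidiag Finset.univ (k + 1)).filter (fun m : κ →₀ ℕ => m i ≠ 0),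
        (m i : ℂ) * F m := by
    rw [Finset.sum_filter]
    refine Finset.sum_congr rfl fun m _ => ?_
    by_cases h : m i = 0
    · rw [if_neg (not_not.2 h), h, Nat.cast_zero, zero_mul]
    · rw [if_pos h]
  rw [h1]
  symm
  have hs : ∀ m : κ →₀ ℕ, ∑ j, (m + Finsupp.single i 1 : κ →₀ ℕ) j = ∑ j, m j + 1 := by
    intro m
    have h2 : ∀ j, (m + Finsupp.single i 1 : κ →₀ ℕ) j = m j + if j = i then 1 else 0 := by
      intro j
      rw [Finsupp.add_apply, Finsupp.single_apply]
      by_cases h : i = j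
      · rw [if_pos h, if_pos h.symm]
      · rw [if_neg h, if_neg (fun h' => h h'.symm)]
    rw [Finset.sum_congr rfl (fun j _ => h2 j), Finset.sum_add_distrib, Finset.sum_ite_eq',
      if_pos (Finset.mem_univ i)]
  refine Finset.sum_nbij' (fun m => m + Finsupp.single i 1) (fun m => m - Finsupp.single i 1)
    ?_ ?_ ?_ ?_ ?_
  · intro m hm
    rw [Finset.mem_filter]
    refine ⟨(mem_fa _ _).2 ?_, ?_⟩
    · rw [hs, (mem_fa _ _).1 hm]
    · rw [Finsupp.add_apply, Finsupp.single_eq_same]
      exact Nat.succ_ne_zero _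
  · intro m hm
    rw [Finset.mem_filter] at hm
    have h2 : m - Finsupp.single i 1 + Finsupp.single i 1 = m := by
      apply tsub_add_cancel_of_le
      rw [Finsupp.single_le_iff]
      exact Nat.one_le_iff_ne_zero.2 hm.2
    refine (mem_fa _ _).2 ?_
    have h3 := hs (m - Finsupp.single i 1)
    rw [h2, (mem_fa _ _).1 hm.1] at h3
    omega
  · intro m _
    exact add_tsub_cancel_right _ _
  · intro m hm
    rw [Finset.mem_filter] at hm
    apply tsub_add_cancel_of_le
    rw [Finsupp.single_le_iff]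
    exact Nat.one_le_iff_ne_zero.2 hm.2
  · intro m _
    show _ = (((m + Finsupp.single i 1 : κ →₀ ℕ) i : ℕ) : ℂ) * _
    rw [Finsupp.add_apply, Finsupp.single_eq_same, Nat.cast_add, Nat.cast_one]

theorem line_pderiv {κ : Type} [Fintype κ] [DecidableEq κ] (v : κ → ℂ) (f : MvPowerSeries κ ℂ) :
    PowerSeries.derivative ℂ (line v f) =
      ∑ i, PowerSeries.C (v i) * line v (MvPowerSeries.pderiv ℂ i f) := by
  ext k
  rw [PowerSeries.coeff_derivative, coeff_line', map_sum]
  have h1 : ∀ i, PowerSeries.coeff k (PowerSeries.C (v i) * line v (MvPowerSeries.pderiv ℂ i f)) =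
      ∑ m ∈ Finset.finsuppAntidiag Finset.univ (k + 1),
        (m i : ℂ) * (MvPowerSeries.coeff m f * mw v m) := by
    intro i
    rw [PowerSeries.coeff_C_mul, coeff_line', shift_aux, Finset.mul_sum]
    refine Finset.sum_congr rfl fun m _ => ?_
    have h2 : mw v (Finsupp.single i 1) = v i := by
      unfold mw
      rw [Finset.prod_eq_single i]
      · rw [Finsupp.single_eq_same, pow_one]
      · intro j _ hj
        rw [Finsupp.single_eq_of_ne hj, pow_zero]
      · intro h
        exact absurd (Finset.mem_univ i) h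
    rw [MvPowerSeries.coeff_pderiv, mw_add, h2]
    ring
  rw [Finset.sum_congr rfl (fun i _ => h1 i), Finset.sum_comm, Finset.sum_mul]
  refine Finset.sum_congr rfl fun m hm => ?_
  rw [← Finset.sum_mul, ← Nat.cast_sum, (mem_fa _ _).1 hm, Nat.cast_add, Nat.cast_one]
  ring

/-- For a nonzero power series the lines on which it does not vanish contain a nonempty open set. -/
theorem exists_open_lines {κ : Type} [Fintype κ] [DecidableEq κ] (f : MvPowerSeries κ ℂ)
    (hf : f ≠ 0) : ∃ Ω : Set (κ → ℂ), IsOpen Ω ∧ Ω.Nonempty ∧ ∀ v ∈ Ω, line v f ≠ 0 := by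
  obtain ⟨m0, hm0⟩ : ∃ m, MvPowerSeries.coeff m f ≠ 0 := by
    by_contra hcon
    push Not at hcon
    exact hf (MvPowerSeries.ext fun m => by rw [hcon m, map_zero])
  set k : ℕ := ∑ i, m0 i with hk
  let P : MvPolynomial κ ℂ := ∑ m ∈ Finset.finsuppAntidiag Finset.univ k,
    MvPolynomial.monomial m (MvPowerSeries.coeff m f)
  have hP : P ≠ 0 := by
    intro h0
    apply hm0
    have h1 : MvPolynomial.coeff m0 P = MvPowerSeries.coeff m0 f := by
      show MvPolynomial.coeff m0 (∑ m ∈ Finset.finsuppAntidiag Finset.univ k,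
        MvPolynomial.monomial m (MvPowerSeries.coeff m f)) = _
      rw [MvPolynomial.coeff_sum, Finset.sum_eq_single m0]
      · rw [MvPolynomial.coeff_monomial, if_pos rfl]
      · intro m _ hm
        rw [MvPolynomial.coeff_monomial, if_neg hm]
      · intro h
        exact absurd ((mem_fa _ _).2 hk.symm) h
    rw [← h1, h0, MvPolynomial.coeff_zero]
  have hev : ∀ v : κ → ℂ, MvPolynomial.eval v P = PowerSeries.coeff k (line v f) := by
    intro v
    rw [coeff_line']
    show MvPolynomial.eval v (∑ m ∈ Finset.finsuppAntidiag Finset.univ k,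
        MvPolynomial.monomial m (MvPowerSeries.coeff m f)) = _
    rw [map_sum]
    refine Finset.sum_congr rfl fun m _ => ?_
    rw [MvPolynomial.eval_monomial, Finsupp.prod_fintype]
    · rfl
    · intro i
      exact pow_zero _
  refine ⟨{v | MvPolynomial.eval v P ≠ 0}, ?_, ?_, ?_⟩
  · exact isOpen_ne_fun (MvPolynomial.continuous_eval P) continuous_const
  · by_contra hcon
    rw [Set.not_nonempty_iff_eq_empty] at hcon
    apply hP
    apply MvPolynomial.funext
    intro v
    rw [map_zero]
    by_contra h1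
    have h2 : v ∈ {v : κ → ℂ | MvPolynomial.eval v P ≠ 0} := h1
    rw [hcon] at h2
    exact h2
  · intro v hv h0
    apply hv
    rw [hev, h0, map_zero]

end Pool.Agent.CVG
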