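import Pool.Agent.CVG.EvM
import Pool.Agent.CVG.LineEx

/-!
# CVG-Dens: a nonzero convergent power series does not vanish on open sets

PLAN. Suppose `ev t f = 0` for all `t` in an open set `V` meeting the open polydisc; shrink: `V` a ball around `t₀`
inside the open polydisc, `|t_i| < ρ`. For `t₁ ∈ V` the function `g(z) = ev (z t₁) f = ∑_k F_k(t₁) z^k`,
`F_k(t₁) = coeff k (line t₁ f)` (group the absolutely convergent series by degree; `coeff_line`), converges for
`|z| ≤ R` with some `R > 1` (`R max |t₁ i| ≤ ρ`) and vanishes for `z` near `1`. By the identity theorem in one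
variable (`AnalyticOnNhd.eqOn_zero_of_preconnected_of_eventuallyEq_zero` on the ball of radius `R`) `g = 0`, so all
its Taylor coefficients vanish: `line t₁ f = 0` for all `t₁ ∈ V`. Since `F_k` is a polynomial map vanishing on a
nonempty open set it vanishes identically, so all coefficients of `f` are zero (or scale: use
`exists_open_lines` in the form: the polynomials `F_k`, not all zero; a nonzero polynomial does not vanish on an
open set).
-/

open scoped BigOperators PowerSeries

namespace Pool.Agent.CVG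

variable {κ : Type} [Fintype κ] [DecidableEq κ]

private theorem dens_deg (m : κ →₀ ℕ) : m.degree = ∑ i, m i := by
  rw [Finsupp.degree_eq_sum]

private theorem dens_hom (f : MvPowerSeries κ ℂ) (t : κ → ℂ) (z : ℂ) (m : κ →₀ ℕ) :
    MvPowerSeries.coeff m f * ∏ i, (z • t) i ^ m i =
      (MvPowerSeries.coeff m f * ∏ i, t i ^ m i) * z ^ m.degree := by
  rw [dens_deg, ← Finset.prod_pow_eq_pow_sum, mul_assoc, ← Finset.prod_mul_distrib]
  congr 1
  refine Finset.prod_congr rfl fun i _ => ?_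
  rw [Pi.smul_apply, smul_eq_mul, mul_pow, mul_comm]

private theorem dens_bd {ρ : ℝ} (f : MvPowerSeries κ ℂ) {t : κ → ℂ} (ht : ∀ i, ‖t i‖ ≤ ρ)
    (m : κ →₀ ℕ) : ‖MvPowerSeries.coeff m f * ∏ i, t i ^ m i‖ ≤
      ‖MvPowerSeries.coeff m f‖ * ρ ^ m.degree := by
  rw [norm_mul, dens_deg, ← Finset.prod_pow_eq_pow_sum, norm_prod]
  refine mul_le_mul_of_nonneg_left ?_ (norm_nonneg _)
  refine Finset.prod_le_prod (fun i _ => norm_nonneg _) fun i _ => ?_
  rw [norm_pow]
  exact pow_le_pow_left₀ (norm_nonneg _) (ht i) _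

private theorem dens_sum {ρ : ℝ} {f : MvPowerSeries κ ℂ} (hf : AbsC ρ f) {t : κ → ℂ}
    (ht : ∀ i, ‖t i‖ ≤ ρ) :
    HasSum (fun k => PowerSeries.coeff k (line t f)) (ev t f) := by
  have h1 : HasSum (fun m : κ →₀ ℕ => MvPowerSeries.coeff m f * ∏ i, t i ^ m i) (ev t f) :=
    (hf.summable ht).hasSum
  have h2 := h1.tsum_fiberwise (fun m : κ →₀ ℕ => ∑ i, m i)
  have h3 : (fun k : ℕ => ∑' b : (fun m : κ →₀ ℕ => ∑ i, m i) ⁻¹' {k},
      MvPowerSeries.coeff (b : κ →₀ ℕ) f * ∏ i, t i ^ (b : κ →₀ ℕ) i) =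
      fun k => PowerSeries.coeff k (line t f) := by
    funext k
    have h4 : (fun m : κ →₀ ℕ => ∑ i, m i) ⁻¹' {k} =
        ((Finset.finsuppAntidiag Finset.univ k : Finset (κ →₀ ℕ)) : Set (κ →₀ ℕ)) := by
      ext m
      rw [Set.mem_preimage, Set.mem_singleton_iff, Finset.mem_coe, Finset.mem_finsuppAntidiag]
      exact ⟨fun h => ⟨h, Finset.subset_univ _⟩, fun h => h.1⟩
    rw [coeff_line, h4]
    exact Finset.tsum_subtype' (Finset.finsuppAntidiag Finset.univ k : Finset (κ →₀ ℕ))
      (fun m => MvPowerSeries.coeff m f * ∏ i, t i ^ m i)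
  rw [h3] at h2
  exact h2

private theorem dens_coeff (f : MvPowerSeries κ ℂ) (t : κ → ℂ) (z : ℂ) (k : ℕ) :
    PowerSeries.coeff k (line (z • t) f) = PowerSeries.coeff k (line t f) * z ^ k := by
  rw [coeff_line, coeff_line, Finset.sum_mul]
  refine Finset.sum_congr rfl fun m hm => ?_
  rw [dens_hom, dens_deg]
  rw [Finset.mem_finsuppAntidiag] at hm
  rw [hm.1]

/-- the identity theorem on a line -/
private theorem dens_line {ρ : ℝ} {f : MvPowerSeries κ ℂ} (hf : AbsC ρ f) {V : Set (κ → ℂ)}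
    (hV : IsOpen V) (hV0 : ∀ t ∈ V, ev t f = 0) {t : κ → ℂ} (htV : t ∈ V)
    (ht : ∀ i, ‖t i‖ < ρ) (k : ℕ) : PowerSeries.coeff k (line t f) = 0 := by
  -- a radius greater than one
  obtain ⟨R, hR1, hR⟩ : ∃ R : ℝ, 1 < R ∧ ∀ i, R * ‖t i‖ < ρ := by
    have h1 : ∀ i, ∀ᶠ R : ℝ in nhdsWithin 1 (Set.Ioi 1), R * ‖t i‖ < ρ := by
      intro i
      have h2 : Filter.Tendsto (fun R : ℝ => R * ‖t i‖) (nhdsWithin 1 (Set.Ioi 1))
          (nhds (1 * ‖t i‖)) :=
        ((continuous_id.mul continuous_const).tendsto 1).mono_left nhdsWithin_le_nhds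
      rw [one_mul] at h2
      exact h2.eventually_lt_const (ht i)
    have h3 : ∀ᶠ R : ℝ in nhdsWithin 1 (Set.Ioi 1), ∀ i, R * ‖t i‖ < ρ :=
      Filter.eventually_all.2 h1
    obtain ⟨R, hR, hR'⟩ := (h3.and self_mem_nhdsWithin).exists
    exact ⟨R, hR', hR⟩
  have hzt : ∀ z : ℂ, ‖z‖ < R → ∀ i, ‖(z • t) i‖ ≤ ρ := by
    intro z hz i
    rw [Pi.smul_apply, smul_eq_mul, norm_mul]
    exact (mul_le_mul_of_nonneg_right hz.le (norm_nonneg _)).trans (hR i).le
  -- the function on the line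
  have hdiff : DifferentiableOn ℂ (fun z : ℂ => ev (z • t) f) (Metric.ball 0 R) := by
    have h1 : (fun z : ℂ => ev (z • t) f) = fun z : ℂ => ∑' m : κ →₀ ℕ,
        (MvPowerSeries.coeff m f * ∏ i, t i ^ m i) * z ^ m.degree := by
      funext z
      unfold ev
      exact tsum_congr fun m => dens_hom f t z m
    rw [h1]
    refine Complex.differentiableOn_tsum_of_summable_norm (u := fun m : κ →₀ ℕ =>
      ‖MvPowerSeries.coeff m f‖ * ρ ^ m.degree) hf (fun m => ?_) Metric.isOpen_ball
      (fun m z hz => ?_)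
    · exact ((differentiable_id.pow _).const_mul _).differentiableOn
    · rw [← dens_hom]
      exact dens_bd f (hzt z (by rwa [mem_ball_zero_iff] at hz)) m
  have hev1 : ∀ᶠ z : ℂ in nhds 1, ev (z • t) f = 0 := by
    have h1 : Filter.Tendsto (fun z : ℂ => z • t) (nhds 1) (nhds ((1 : ℂ) • t)) :=
      (continuous_id.smul continuous_const).tendsto 1
    rw [one_smul] at h1
    filter_upwards [h1 (hV.mem_nhds htV)] with z hz
    exact hV0 _ hz
  have hzero := (hdiff.analyticOnNhd Metric.isOpen_ball).eqOn_zero_of_preconnected_of_eventuallyEq_zero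
    (convex_ball (0 : ℂ) R).isPreconnected (z₀ := 1) (by
      rw [mem_ball_zero_iff, norm_one]
      exact hR1) hev1
  -- the power series
  have hps : HasFPowerSeriesOnBall (fun z : ℂ => ev (z • t) f)
      (FormalMultilinearSeries.ofScalars ℂ (fun k => PowerSeries.coeff k (line t f))) 0 1 := by
    refine ⟨?_, one_pos, ?_⟩
    · have h1 : Summable (fun k => PowerSeries.coeff k (line t f)) :=
        (dens_sum hf fun i => (ht i).le).summable
      have h2 : Filter.Tendsto (fun k => ‖FormalMultilinearSeries.ofScalars ℂ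
          (fun k => PowerSeries.coeff k (line t f)) k‖ * ((1 : NNReal) : ℝ) ^ k)
          Filter.atTop (nhds 0) := by
        have h3 := h1.tendsto_atTop_zero.norm
        rw [norm_zero] at h3
        refine h3.congr fun k => ?_
        rw [FormalMultilinearSeries.ofScalars_norm, NNReal.coe_one, one_pow, mul_one]
      exact FormalMultilinearSeries.le_radius_of_tendsto _ h2
    · intro y hy
      have hy1 : ‖y‖ < 1 := by
        rw [← ENNReal.ofReal_one, Metric.eball_ofReal, mem_ball_zero_iff] at hy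
        exact hy
      have h1 := dens_sum hf (hzt y (hy1.trans hR1))
      rw [zero_add]
      have h2 : (fun k => PowerSeries.coeff k (line (y • t) f)) = fun k =>
          FormalMultilinearSeries.ofScalars ℂ (fun k => PowerSeries.coeff k (line t f)) k
            (fun _ => y) := by
        funext k
        rw [dens_coeff, FormalMultilinearSeries.ofScalars_apply_eq, smul_eq_mul]
      rw [h2] at h1
      exact h1
  have hzero0 : ∀ᶠ z : ℂ in nhds 0, ev (z • t) f = 0 := by
    filter_upwards [Metric.ball_mem_nhds (0 : ℂ) (lt_trans zero_lt_one hR1)] with z hz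
    exact hzero hz
  have hp0 := hps.hasFPowerSeriesAt.eq_zero_of_eventually hzero0
  have h5 : FormalMultilinearSeries.ofScalars ℂ (fun k => PowerSeries.coeff k (line t f)) k
      (fun _ => (1 : ℂ)) = 0 := by
    rw [hp0]
    rfl
  rw [FormalMultilinearSeries.ofScalars_apply_eq, one_pow, smul_eq_mul, mul_one] at h5
  exact h5

theorem ev_dense {ρ : ℝ} (hρ : 0 < ρ) {f : MvPowerSeries κ ℂ} (hf : AbsC ρ f) (h0 : f ≠ 0)
    (t₀ : κ → ℂ) (ht₀ : ∀ i, ‖t₀ i‖ < ρ) :
    t₀ ∈ closure {t : κ → ℂ | (∀ i, ‖t i‖ < ρ) ∧ ev t f ≠ 0} := by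
  rw [mem_closure_iff]
  intro V hV htV
  by_contra hcon
  rw [Set.not_nonempty_iff_eq_empty] at hcon
  have hW : IsOpen (V ∩ {t : κ → ℂ | ∀ i, ‖t i‖ < ρ}) := by
    refine hV.inter ?_
    rw [Set.ofPred_forall]
    exact isOpen_iInter_of_finite fun i =>
      isOpen_lt (continuous_norm.comp (continuous_apply i)) continuous_const
  have hW0 : ∀ t ∈ V ∩ {t : κ → ℂ | ∀ i, ‖t i‖ < ρ}, ev t f = 0 := by
    intro t ht
    by_contra h1
    have h2 : t ∈ V ∩ {t : κ → ℂ | (∀ i, ‖t i‖ < ρ) ∧ ev t f ≠ 0} := ⟨ht.1, ht.2, h1⟩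
    rw [hcon] at h2
    exact h2
  -- a box
  obtain ⟨ε, hε, hball⟩ := Metric.isOpen_iff.1 hW t₀ ⟨htV, ht₀⟩
  have hbox : ∀ t ∈ Set.pi Set.univ (fun i => Metric.ball (t₀ i) ε),
      t ∈ V ∩ {t : κ → ℂ | ∀ i, ‖t i‖ < ρ} := by
    intro t ht
    apply hball
    rw [Metric.mem_ball, dist_pi_lt_iff hε]
    exact fun i => ht i (Set.mem_univ i)
  apply h0
  ext m0
  rw [map_zero]
  obtain ⟨k, hk⟩ : ∃ k, k = ∑ i, m0 i := ⟨_, rfl⟩
  let P : MvPolynomial κ ℂ := ∑ m ∈ Finset.finsuppAntidiag Finset.univ k,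
    MvPolynomial.monomial m (MvPowerSeries.coeff m f)
  have hev : ∀ v : κ → ℂ, MvPolynomial.eval v P = PowerSeries.coeff k (line v f) := by
    intro v
    rw [coeff_line]
    show MvPolynomial.eval v (∑ m ∈ Finset.finsuppAntidiag Finset.univ k,
        MvPolynomial.monomial m (MvPowerSeries.coeff m f)) = _
    rw [map_sum]
    refine Finset.sum_congr rfl fun m _ => ?_
    rw [MvPolynomial.eval_monomial, Finsupp.prod_fintype]
    intro i
    exact pow_zero _
  have hP : P = 0 := by
    refine MvPolynomial.funext_set (fun i => Metric.ball (t₀ i) ε) (fun i => ?_) fun t ht => ?_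
    · have h1 : (Metric.ball (t₀ i) ε) ∈ nhds (t₀ i) := Metric.ball_mem_nhds _ hε
      exact infinite_of_mem_nhds (t₀ i) h1
    · rw [hev, map_zero]
      have h1 := hbox t ht
      exact dens_line hf hW hW0 h1 h1.2 k
  have h1 : MvPolynomial.coeff m0 P = MvPowerSeries.coeff m0 f := by
    show MvPolynomial.coeff m0 (∑ m ∈ Finset.finsuppAntidiag Finset.univ k,
      MvPolynomial.monomial m (MvPowerSeries.coeff m f)) = _
    rw [MvPolynomial.coeff_sum, Finset.sum_eq_single m0]
    · rw [MvPolynomial.coeff_monomial, if_pos rfl]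
    · intro m _ hm
      rw [MvPolynomial.coeff_monomial, if_neg hm]
    · intro h
      refine absurd ?_ h
      rw [Finset.mem_finsuppAntidiag]
      exact ⟨hk.symm, Finset.subset_univ _⟩
  rw [← h1, hP, MvPolynomial.coeff_zero]

end Pool.Agent.CVG
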