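import Pool.Agent.Helper18.Dub.Small

/-!
# CVG-Distinct: generic semisimplicity implies that `E •` has simple spectrum generically

PLAN. Let `R = ℂ[[t]]`, `Q` its field of fractions, `A` the algebra, `N` its rank. Let `Ω` be an algebraic
closure of `Q`. As `disc ≠ 0` the algebra `A_Ω` is reduced (`AlgStr.isReduced_iff`, `disc_map`), so it has `N`
distinct characters `χ_i : A_Ω → Ω` and the matrix `m = (χ_i (e_b))_{i,b}` is invertible. All entries lie in
a finite extension `Q'/Q`, to which each derivation `∂_a` of `Q` extends (Mathlib: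
`Mathlib/FieldTheory/Differential/Basic.lean`, `differentialFiniteDimensional`; or extend to `Ω` directly).
`m C_a = diag(χ_i(e_a)) m`, `m U = diag(u_i) m`, `u_i = χ_i(E)`. Apply `∂_a` to `m U m⁻¹ = diag(u_i)`:
`diag(∂_a u_i) = m (∂_a U) m⁻¹ + [∂_a(m) m⁻¹, diag(u)]`; as `∂_a U = C_a + [C_a, P]` (`FlatAlg.map_pderiv_U`),
`m (∂_a U) m⁻¹ = diag(χ_i(e_a)) + [diag(χ_i(e_a)), m P m⁻¹]`. Diagonal entries of commutators with diagonal
matrices vanish: `∂_a u_i = χ_i(e_a)` for all `a`. If `u_i = u_j` then `χ_i = χ_j`, so `i = j`. So the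
characteristic polynomial `∏ (X - u_i)` of `U` is separable over `Q`; clear denominators in a Bezout
relation.
(ALTERNATIVE without characters: the derivation `∂_a` extends uniquely to the etale algebra `A_Q`, `D̃_a y =
∂_a y + Γ_a y`; `L_{D̃_a E} = ∂_a U + [Γ_a, U]`, and `Tr (L_y (D̃_a E - e_a)) = 0` for all `y` since
`tr (L_y [Γ_a, U]) = 0 = tr (L_y [C_a, P])`; the trace form is nondegenerate, so `D̃_a E = e_a`; the
subalgebra `Q[E]` is stable under `D̃_a` (it is etale too), hence contains all `e_a`, so `Q[E] = A_Q`.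
See also `FlatAlg.pderiv_trace_pow` and `eq_zero_of_trace_pow` in `Helper18/Dub`.)



-/

open scoped BigOperators
open MvPowerSeries

namespace Pool.Agent.CVG

open Pool.Agent.Helper18.Dub

/-! ### nondegeneracy of the trace form -/

private theorem eq_zero_of_trace {κ : Type} [Fintype κ] [DecidableEq κ] (F : FlatAlg κ)
    (h : F.A.disc ≠ 0) (x : F.A.Carrier)
    (hx : ∀ y : F.A.Carrier, Algebra.trace (MvPowerSeries κ ℂ) F.A.Carrier (y * x) = 0) :
    x = 0 := by
  have hv : (Algebra.traceMatrix (MvPowerSeries κ ℂ) F.A.basis).mulVec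
      (fun i => F.A.basis.repr x i) = 0 := by
    funext j
    rw [Matrix.mulVec, dotProduct]
    simp only [Algebra.traceMatrix_apply, Algebra.traceForm_apply, Pi.zero_apply]
    have h2 := hx (F.A.basis j)
    rw [← F.A.basis.sum_repr x, Finset.mul_sum, map_sum] at h2
    rw [← h2]
    refine Finset.sum_congr rfl fun i _ => ?_
    rw [mul_smul_comm, map_smul, smul_eq_mul, mul_comm]
  have hdet : (Algebra.traceMatrix (MvPowerSeries κ ℂ) F.A.basis).det ≠ 0 := h
  have h3 := Matrix.eq_zero_of_mulVec_eq_zero hdet hv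
  have h4 : F.A.basis.repr x = 0 := by
    ext1 i
    exact congrFun h3 i
  exact (LinearEquiv.map_eq_zero_iff _).1 h4

/-! ### differentiation of a relation -/

private theorem trace_comm_zero {κ : Type} [Fintype κ] [DecidableEq κ] (F : FlatAlg κ) (a : κ)
    (M : Matrix κ κ (MvPowerSeries κ ℂ))
    (hMC : M * F.Cm a = F.Cm a * M) (n : ℕ) :
    (M * F.U ^ n * F.U.map (pderiv ℂ a)).trace = (M * F.U ^ n * F.Cm a).trace := by
  rw [F.map_pderiv_U a, Matrix.mul_sub, Matrix.mul_add, Matrix.trace_sub, Matrix.trace_add]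
  have hc' : F.U ^ n * F.Cm a = F.Cm a * F.U ^ n :=
    ((show Commute F.U (F.Cm a) from F.U_comm a).pow_left n)
  have h1 : (M * F.U ^ n) * F.Cm a = F.Cm a * (M * F.U ^ n) := by
    rw [Matrix.mul_assoc, hc', ← Matrix.mul_assoc, hMC, Matrix.mul_assoc]
  have h4 : (M * F.U ^ n * (F.P * F.Cm a)).trace = (M * F.U ^ n * (F.Cm a * F.P)).trace := by
    rw [← Matrix.mul_assoc (M * F.U ^ n) (F.Cm a), h1, Matrix.mul_assoc (F.Cm a),
      Matrix.trace_mul_comm (F.Cm a), Matrix.mul_assoc (M * F.U ^ n)]
  rw [h4, add_sub_cancel_right]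

private theorem deriv_rel {κ : Type} [Fintype κ] [DecidableEq κ] (F : FlatAlg κ) (a : κ)
    (f : Polynomial (MvPowerSeries κ ℂ)) :
    ∃ g : Polynomial (MvPowerSeries κ ℂ), ∀ M : Matrix κ κ (MvPowerSeries κ ℂ),
      M * F.U = F.U * M → M * F.Cm a = F.Cm a * M →
      (M * (Polynomial.aeval F.U f).map (pderiv ℂ a)).trace =
        (M * Polynomial.aeval F.U g).trace +
          (M * Polynomial.aeval F.U (Polynomial.derivative f) * F.Cm a).trace := by
  induction f using Polynomial.induction_on' with
  | add f1 f2 ih1 ih2 =>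
    obtain ⟨g1, h1⟩ := ih1
    obtain ⟨g2, h2⟩ := ih2
    refine ⟨g1 + g2, fun M hMU hMC => ?_⟩
    have e1 := h1 M hMU hMC
    have e2 := h2 M hMU hMC
    have e3 : (Polynomial.aeval F.U (f1 + f2)).map (pderiv ℂ a) =
        (Polynomial.aeval F.U f1).map (pderiv ℂ a) +
          (Polynomial.aeval F.U f2).map (pderiv ℂ a) := by
      ext1 i j
      rw [map_add, Matrix.map_apply, Matrix.add_apply, map_add, Matrix.add_apply,
        Matrix.map_apply, Matrix.map_apply]
    rw [e3, Polynomial.derivative_add, map_add, map_add, Matrix.mul_add, Matrix.mul_add,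
      Matrix.mul_add, Matrix.add_mul, Matrix.trace_add, Matrix.trace_add, Matrix.trace_add,
      e1, e2]
    ring
  | monomial n c =>
    refine ⟨Polynomial.monomial n (pderiv ℂ a c), fun M hMU hMC => ?_⟩
    have e1 : Polynomial.aeval F.U (Polynomial.monomial n c) = c • F.U ^ n := by
      rw [Polynomial.aeval_monomial, Algebra.algebraMap_eq_smul_one, smul_mul_assoc, one_mul]
    have e2 : Polynomial.aeval F.U (Polynomial.monomial n (pderiv ℂ a c)) =
        (pderiv ℂ a c) • F.U ^ n := by
      rw [Polynomial.aeval_monomial, Algebra.algebraMap_eq_smul_one, smul_mul_assoc, one_mul]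
    have e3 : Polynomial.aeval F.U (Polynomial.derivative (Polynomial.monomial n c)) =
        (c * (n : MvPowerSeries κ ℂ)) • F.U ^ (n - 1) := by
      rw [Polynomial.derivative_monomial, Polynomial.aeval_monomial,
        Algebra.algebraMap_eq_smul_one, smul_mul_assoc, one_mul]
    have e4 : (c • F.U ^ n).map (pderiv ℂ a) =
        (pderiv ℂ a c) • F.U ^ n + c • (F.U ^ n).map (pderiv ℂ a) := by
      ext1 i j
      rw [Matrix.map_apply, Matrix.smul_apply, smul_eq_mul, Derivation.leibniz, Matrix.add_apply,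
        Matrix.smul_apply, Matrix.smul_apply, Matrix.map_apply]
      simp only [smul_eq_mul]
      ring
    rw [e1, e2, e3, e4, Matrix.mul_add, Matrix.trace_add]
    congr 1
    rw [Matrix.mul_smul, Matrix.trace_smul, Matrix.mul_smul, Matrix.smul_mul, Matrix.trace_smul,
      smul_eq_mul, smul_eq_mul]
    cases n with
    | zero =>
      have : ((F.U ^ 0).map (pderiv ℂ a)) = 0 := by
        ext1 i j
        rw [pow_zero, Matrix.map_apply, Matrix.one_apply]
        split_ifs <;> simp
      rw [this]
      simp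
    | succ n =>
      rw [trace_mul_map_pow (pderiv ℂ a) F.U n M hMU, trace_comm_zero F a M hMC n,
        Nat.add_sub_cancel]
      push_cast
      ring

/-- the relation `g(E) + f'(E) e_a = 0` obtained by differentiation of `f(E) = 0` -/
private theorem deriv_rel_elt {κ : Type} [Fintype κ] [DecidableEq κ] (F : FlatAlg κ)
    (h : F.A.disc ≠ 0) (a : κ) (f : Polynomial (MvPowerSeries κ ℂ))
    (hf : Polynomial.aeval F.E f = 0) :
    ∃ g : Polynomial (MvPowerSeries κ ℂ), Polynomial.aeval F.E g +
      Polynomial.aeval F.E (Polynomial.derivative f) * F.A.basis a = 0 := by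
  obtain ⟨g, hg⟩ := deriv_rel F a f
  have hae : ∀ p : Polynomial (MvPowerSeries κ ℂ), Polynomial.aeval F.U p =
      Algebra.leftMulMatrix F.A.basis (Polynomial.aeval F.E p) := by
    intro p
    rw [FlatAlg.U, Polynomial.aeval_algHom_apply]
  refine ⟨g, eq_zero_of_trace F h _ fun y => ?_⟩
  have h1 := hg (Algebra.leftMulMatrix F.A.basis y)
    (by rw [FlatAlg.U, ← map_mul, ← map_mul, mul_comm])
    (by rw [FlatAlg.Cm, ← map_mul, ← map_mul, mul_comm])
  rw [hae, hae, hae, hf, map_zero] at h1
  have h2 : ((0 : Matrix κ κ (MvPowerSeries κ ℂ)).map (pderiv ℂ a)) = 0 := by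
    ext1 i j
    simp
  rw [h2, Matrix.mul_zero, Matrix.trace_zero] at h1
  rw [Algebra.trace_eq_matrix_trace F.A.basis, mul_add, map_add, map_mul, map_mul, map_mul,
    Matrix.trace_add, ← Matrix.mul_assoc]
  exact h1.symm

/-! ### the generic algebra -/

private theorem mapHom_aeval {κ : Type} [Fintype κ] [DecidableEq κ] {R K : Type} [CommRing R]
    [CommRing K] (A : AlgStr R κ) (φ : R →+* K) (x : A.Carrier) (p : Polynomial R) :
    A.mapHom φ (Polynomial.aeval x p) = Polynomial.aeval (A.mapHom φ x) (p.map φ) := by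
  rw [Polynomial.aeval_def, Polynomial.hom_eval₂, Polynomial.aeval_def, Polynomial.eval₂_map]
  congr 1
  ext1 r
  funext k
  rw [RingHom.comp_apply, RingHom.comp_apply, AlgStr.mapHom_apply, Algebra.algebraMap_eq_smul_one,
    AlgStr.smul_apply, Algebra.algebraMap_eq_smul_one, AlgStr.smul_apply, map_mul]
  congr 1
  have := congrFun (map_one (A.mapHom φ)) k
  rw [AlgStr.mapHom_apply] at this
  exact this

private theorem mapHom_basis {κ : Type} [Fintype κ] [DecidableEq κ] {R K : Type} [CommRing R]
    [CommRing K] (A : AlgStr R κ) (φ : R →+* K) (b : κ) :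
    A.mapHom φ (A.basis b) = (A.map φ).basis b := by
  funext k
  rw [AlgStr.mapHom_apply, AlgStr.basis_apply, AlgStr.basis_apply]
  split_ifs <;> simp

private theorem charpoly_map {κ : Type} [Fintype κ] [DecidableEq κ] (F : FlatAlg κ) {K : Type}
    [CommRing K] (φ : MvPowerSeries κ ℂ →+* K) :
    F.U.charpoly.map φ =
      (Algebra.leftMulMatrix (F.A.map φ).basis (F.A.mapHom φ F.E)).charpoly := by
  rw [← Matrix.charpoly_map]
  congr 1
  ext1 k b
  rw [Matrix.map_apply, FlatAlg.U, Algebra.leftMulMatrix_eq_repr_mul, AlgStr.basis_repr,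
    Algebra.leftMulMatrix_eq_repr_mul, AlgStr.basis_repr, ← mapHom_basis, ← map_mul,
    AlgStr.mapHom_apply]

private theorem separable_charpoly {κ : Type} [Fintype κ] [DecidableEq κ] (F : FlatAlg κ)
    (h : F.A.disc ≠ 0) :
    (F.U.charpoly.map (algebraMap (MvPowerSeries κ ℂ)
      (FractionRing (MvPowerSeries κ ℂ)))).Separable := by
  set R := MvPowerSeries κ ℂ with hR
  set K := FractionRing R with hK
  set φ : R →+* K := algebraMap R K with hφ
  have hφi : Function.Injective φ := IsFractionRing.injective R K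
  have hchar : CharZero K := charZero_of_injective_algebraMap hφi
  set x : (F.A.map φ).Carrier := F.A.mapHom φ F.E with hx
  have hred : IsReduced (F.A.map φ).Carrier := by
    rw [AlgStr.isReduced_iff, AlgStr.disc_map]
    exact fun h0 => h ((map_eq_zero_iff _ hφi).1 h0)
  have hint : IsIntegral K x := Algebra.IsIntegral.isIntegral x
  have hsep : (minpoly K x).Separable := by
    rw [PerfectField.separable_iff_squarefree]
    exact IsRadical.squarefree (minpoly.ne_zero hint) (minpoly.isRadical K x)
  obtain ⟨u, v, huv⟩ := (Polynomial.separable_def' _).1 hsep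
  obtain ⟨c, hc, hfc⟩ := IsLocalization.integerNormalization_spec (nonZeroDivisors R)
    (minpoly K x)
  set f := IsLocalization.integerNormalization (nonZeroDivisors R) (minpoly K x) with hf
  have hc0 : φ c ≠ 0 := by
    intro h0
    exact nonZeroDivisors.ne_zero hc ((map_eq_zero_iff φ hφi).1 h0)
  have hfc' : f.map φ = Polynomial.C (φ c) * minpoly K x := by
    rw [hfc, Algebra.smul_def]
    rfl
  have hfE : Polynomial.aeval F.E f = 0 := by
    apply F.A.mapHom_injective φ hφi
    rw [mapHom_aeval, map_zero, hfc', map_mul, minpoly.aeval, mul_zero]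
  have hv : Polynomial.aeval x v * Polynomial.aeval x (Polynomial.derivative (minpoly K x)) = 1 := by
    have h1 := congrArg (Polynomial.aeval x) huv
    rw [map_add, map_mul, map_mul, minpoly.aeval, mul_zero, zero_add, map_one] at h1
    exact h1
  have hmem : ∀ a, (F.A.map φ).basis a ∈ Algebra.adjoin K {x} := by
    intro a
    obtain ⟨g, hg⟩ := deriv_rel_elt F h a f hfE
    have h1 := congrArg (F.A.mapHom φ) hg
    rw [map_add, map_mul, map_zero, mapHom_aeval, mapHom_aeval, mapHom_basis,
      ← Polynomial.derivative_map, hfc', Polynomial.derivative_C_mul, map_mul,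
      Polynomial.aeval_C] at h1
    have h2 : (F.A.map φ).basis a = -((φ c)⁻¹ •
        (Polynomial.aeval x v * Polynomial.aeval x (g.map φ))) := by
      have h3 : algebraMap K (F.A.map φ).Carrier (φ c) * (F.A.map φ).basis a =
          -(Polynomial.aeval x v * Polynomial.aeval x (g.map φ)) := by
        linear_combination (Polynomial.aeval x v) * h1 -
          (algebraMap K (F.A.map φ).Carrier (φ c) * (F.A.map φ).basis a) * hv
      rw [← smul_neg, ← h3, ← Algebra.smul_def, smul_smul, inv_mul_cancel₀ hc0, one_smul]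
    rw [h2]
    refine Subalgebra.neg_mem _ (Subalgebra.smul_mem _ (Subalgebra.mul_mem _ ?_ ?_) _)
    · exact Polynomial.aeval_mem_adjoin_singleton K x
    · exact Polynomial.aeval_mem_adjoin_singleton K x
  have htop : Algebra.adjoin K {x} = ⊤ := by
    rw [eq_top_iff]
    intro y _
    rw [← (F.A.map φ).basis.sum_repr y]
    exact Subalgebra.sum_mem _ fun a _ => Subalgebra.smul_mem _ (hmem a) _
  have hq : (Algebra.leftMulMatrix (F.A.map φ).basis x).charpoly = minpoly K x := by
    have h1 := charpoly_leftMulMatrix (PowerBasis.ofAdjoinEqTop hint htop)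
    rw [PowerBasis.ofAdjoinEqTop_gen] at h1
    rw [← h1, Algebra.leftMulMatrix_apply, Algebra.leftMulMatrix_apply,
      LinearMap.charpoly_toMatrix, LinearMap.charpoly_toMatrix]
  rw [charpoly_map, hq]
  exact hsep

theorem exists_bezout {κ : Type} [Fintype κ] [DecidableEq κ] (F : FlatAlg κ) (h : F.A.disc ≠ 0) :
    ∃ (d : MvPowerSeries κ ℂ) (a b : Polynomial (MvPowerSeries κ ℂ)), d ≠ 0 ∧
      a * F.U.charpoly + b * Polynomial.derivative F.U.charpoly = Polynomial.C d := by
  set R := MvPowerSeries κ ℂ with hR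
  set K := FractionRing R with hK
  set φ : R →+* K := algebraMap R K with hφ
  have hφi : Function.Injective φ := IsFractionRing.injective R K
  obtain ⟨u, v, huv⟩ := (Polynomial.separable_def' _).1 (separable_charpoly F h)
  obtain ⟨c1, hc1, hu⟩ := IsLocalization.integerNormalization_spec (nonZeroDivisors R) u
  obtain ⟨c2, hc2, hv⟩ := IsLocalization.integerNormalization_spec (nonZeroDivisors R) v
  set U1 := IsLocalization.integerNormalization (nonZeroDivisors R) u with hU1
  set V1 := IsLocalization.integerNormalization (nonZeroDivisors R) v with hV1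
  refine ⟨c1 * c2, Polynomial.C c2 * U1, Polynomial.C c1 * V1,
    mul_ne_zero (nonZeroDivisors.ne_zero hc1) (nonZeroDivisors.ne_zero hc2), ?_⟩
  apply Polynomial.map_injective φ hφi
  have hu' : U1.map φ = Polynomial.C (φ c1) * u := by
    rw [hu, Algebra.smul_def]
    rfl
  have hv' : V1.map φ = Polynomial.C (φ c2) * v := by
    rw [hv, Algebra.smul_def]
    rfl
  rw [Polynomial.map_add, Polynomial.map_mul, Polynomial.map_mul, Polynomial.map_mul,
    Polynomial.map_mul, Polynomial.map_C, Polynomial.map_C, hu', hv', Polynomial.map_C,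
    ← Polynomial.derivative_map, map_mul, Polynomial.C_mul]
  linear_combination (Polynomial.C (φ c1) * Polynomial.C (φ c2)) * huv

end Pool.Agent.CVG
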