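import Pool.Agent.CVG.DomDefs

/-!
# CVG-Dom1: a connection of slope `m₁` multiplied by `s^m₂`, `m₂ > m₁`, is topologically nilpotent

PLAN. `(s^m₂ T)^j x = s^(j m₂) (T + (j-1) m₂) ⋯ (T + m₂) T x` since `T (s^q x) = s^q (T x + q x)`; so it is
`s^(j m₂) • ∑_{i ≤ j} c_i • T^i x` with rational constants `c_i` (valuation `≥ 0`: `v` of a nonzero
rational number is `0` by `v_nat`). As `m₁ ≥ 0`, each term is `≥ c - m₁ j - C`. Hence the bound
`c + (m₂ - m₁) j - C`.
-/

open scoped BigOperators

namespace Pool.Agent.CVG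

variable {F : Type*} [Field F] [CharZero F] {V : Type*} [AddCommGroup V] [Module F V]
variable {v : AddValuation F (WithTop ℚ)} {sp : ℚ → F} {D dd : Derivation ℤ F F} {T1 : V → V}
variable {ι : Type*} [Fintype ι]

omit [CharZero F] in
private theorem GE_of_Ge_sum {κ : Type*} (b : Module.Basis ι F V) {c : ℚ} (s : Finset κ) (f : κ → F)
    (x : κ → V) (hf : ∀ i ∈ s, Ge v 0 (f i)) (hx : ∀ i ∈ s, GE v b c (x i)) :
    GE v b c (∑ i ∈ s, f i • x i) :=
  GE.sum s _ fun i hi => GE.smul0 (hf i hi) (hx i hi)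

private theorem Ge_ratCast (H : DomHyp v sp D dd) (q : ℚ) : Ge v 0 (q : F) := by
  have h1 : (q : F) * (q.den : F) = (q.num : F) := by
    exact_mod_cast Rat.mul_den_eq_num q
  have h2 := congrArg v h1
  rw [v.map_mul, H.v_nat q.den q.den_nz] at h2
  have h3 : v (q : F) = v (q.num : F) := by
    rw [← h2]
    exact (add_zero _).symm
  rw [Ge, h3]
  exact Ge.intCast q.num

private theorem pow_form (H : DomHyp v sp D dd) (h1 : IsConn D T1) (m : ℚ) (j : ℕ) (x : V) :
    ∃ c : ℕ → F, (∀ i, Ge v 0 (c i)) ∧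
      (fun y => sp m • T1 y)^[j] x = sp (j * m) • ∑ i ∈ Finset.range (j + 1), c i • T1^[i] x := by
  induction j with
  | zero =>
    refine ⟨fun _ => 1, fun _ => Ge.one, ?_⟩
    rw [Nat.cast_zero, zero_mul, H.sp_zero, one_smul, zero_add, Finset.sum_range_one, one_smul]
    rfl
  | succ j ih =>
    obtain ⟨c, hc, hj⟩ := ih
    refine ⟨fun i => ((j * m : ℚ) : F) * (if i < j + 1 then c i else 0) +
      (if i < j + 1 then D (c i) else 0) + (if i = 0 then 0 else c (i - 1)), fun i => ?_, ?_⟩
    · have e1 : Ge v 0 (((j * m : ℚ) : F) * (if i < j + 1 then c i else 0)) := by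
        split_ifs
        · simpa using (Ge_ratCast H (j * m)).mul (hc i)
        · rw [mul_zero]; exact Ge.zero
      have e2 : Ge v 0 (if i < j + 1 then D (c i) else 0) := by
        split_ifs
        · exact H.D_ge 0 _ (hc i)
        · exact Ge.zero
      have e3 : Ge v 0 (if i = 0 then 0 else c (i - 1)) := by
        split_ifs
        · exact Ge.zero
        · exact hc _
      exact (e1.add e2).add e3
    · rw [Function.iterate_succ_apply', hj]
      have hsp : sp ((j + 1 : ℕ) * m) = sp m * sp (j * m) := by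
        rw [← H.sp_add]
        congr 1
        push_cast
        ring
      rw [hsp, mul_smul]
      congr 1
      rw [h1.smul, H.D_sp, h1.sum]
      have hR : ∑ i ∈ Finset.range (j + 1 + 1), (((j * m : ℚ) : F) * (if i < j + 1 then c i else 0) +
          (if i < j + 1 then D (c i) else 0) + (if i = 0 then 0 else c (i - 1))) • T1^[i] x =
          ((j * m : ℚ) : F) • ∑ i ∈ Finset.range (j + 1), c i • T1^[i] x +
            ∑ i ∈ Finset.range (j + 1), T1 (c i • T1^[i] x) := by
        have r1 : ∑ i ∈ Finset.range (j + 1 + 1),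
            (((j * m : ℚ) : F) * (if i < j + 1 then c i else 0)) • T1^[i] x =
            ((j * m : ℚ) : F) • ∑ i ∈ Finset.range (j + 1), c i • T1^[i] x := by
          rw [Finset.sum_range_succ, if_neg (lt_irrefl _), mul_zero, zero_smul, add_zero,
            Finset.smul_sum]
          refine Finset.sum_congr rfl fun i hi => ?_
          rw [if_pos (Finset.mem_range.1 hi), mul_smul]
        have r2 : ∑ i ∈ Finset.range (j + 1 + 1), (if i < j + 1 then D (c i) else 0) • T1^[i] x =
            ∑ i ∈ Finset.range (j + 1), D (c i) • T1^[i] x := by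
          rw [Finset.sum_range_succ, if_neg (lt_irrefl _), zero_smul, add_zero]
          refine Finset.sum_congr rfl fun i hi => ?_
          rw [if_pos (Finset.mem_range.1 hi)]
        have r3 : ∑ i ∈ Finset.range (j + 1 + 1), (if i = 0 then 0 else c (i - 1)) • T1^[i] x =
            ∑ i ∈ Finset.range (j + 1), c i • T1^[i + 1] x := by
          rw [Finset.sum_range_succ', if_pos rfl, zero_smul, add_zero]
          refine Finset.sum_congr rfl fun i hi => ?_
          rw [if_neg (Nat.succ_ne_zero i), Nat.add_sub_cancel]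
        have r4 : ∀ i, T1 (c i • T1^[i] x) = D (c i) • T1^[i] x + c i • T1^[i + 1] x := by
          intro i
          rw [h1.smul, Function.iterate_succ_apply']
        simp only [add_smul, Finset.sum_add_distrib, r1, r2, r3, r4]
        abel
      rw [hR, smul_add, smul_smul, mul_comm (sp (j * m))]

theorem dom_pow (H : DomHyp v sp D dd) (b : Module.Basis ι F V) (h1 : IsConn D T1) {m₁ m₂ : ℚ}
    (hm₁ : 0 ≤ m₁) (hm : MBdd v b m₁ T1) :
    ∃ C : ℚ, ∀ (j : ℕ) (x : V) (c : ℚ), GE v b c x →
      GE v b (c + (m₂ - m₁) * j - C) ((fun y => sp m₂ • T1 y)^[j] x) := by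
  obtain ⟨C, hC⟩ := hm
  refine ⟨C, fun j x c hx => ?_⟩
  obtain ⟨a, ha, hj⟩ := pow_form H h1 m₂ j x
  rw [hj]
  have e1 : GE v b (c - m₁ * j - C) (∑ i ∈ Finset.range (j + 1), a i • T1^[i] x) := by
    refine GE_of_Ge_sum b _ _ _ (fun i _ => ha i) fun i hi => (hC i x c hx).mono ?_
    have h2 : (i : ℚ) ≤ (j : ℚ) := by
      exact_mod_cast Nat.lt_succ_iff.1 (Finset.mem_range.1 hi)
    have h3 := mul_le_mul_of_nonneg_left h2 hm₁
    linarith
  have e2 : Ge v (j * m₂) (sp (j * m₂)) := by
    rw [Ge, H.v_sp]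
  exact (GE.smul e2 e1).mono (by linarith)

end Pool.Agent.CVG
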