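import Pool.Agent.CVG.Defs

/-!
# CVG-Lat: a finite spanning family of a lattice over a valuation ring contains a basis

PLAN. Fix a basis `b₀` of `V`. Among the maps `σ : Fin n → κ` (`n = finrank`) with
`det_{b₀} (w ∘ σ) ≠ 0` (there is one, as `w` spans `V`) choose one for which `v (det)` is smallest. Then
`w ∘ σ` is a basis, and the coordinates of `w k` are quotients `det (w ∘ σ with one entry replaced by
w k) / det (w ∘ σ)` (Cramer; `Module.Basis.det`, `Module.Basis.det_self`, `AlternatingMap.map_update...`),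
of valuation `≥ 0` by minimality.
-/

open scoped BigOperators

namespace Pool.Agent.CVG

variable {F : Type*} [Field F] {V : Type*} [AddCommGroup V] [Module F V]

private theorem det_update_eq {n : ℕ} (b : Module.Basis (Fin n) F V) (i : Fin n) (x : V) :
    b.det (Function.update b i x) = b.repr x i := by
  rw [Module.Basis.det_apply, Module.Basis.toMatrix_update, Module.Basis.toMatrix_self,
    ← Matrix.cramer_apply, Matrix.cramer_one]
  rfl

private theorem exists_sel [FiniteDimensional F V] {κ : Type*} (w : κ → V)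
    (hw : Submodule.span F (Set.range w) = ⊤) (b₀ : Module.Basis (Fin (Module.finrank F V)) F V) :
    ∃ σ : Fin (Module.finrank F V) → κ, b₀.det (w ∘ σ) ≠ 0 := by
  obtain ⟨κ', a, _, hsp, hli⟩ := exists_linearIndependent' F w
  have hsp' : ⊤ ≤ Submodule.span F (Set.range (w ∘ a)) := by rw [hsp, hw]
  let b₁ := Module.Basis.mk hli hsp'
  let e := b₁.indexEquiv b₀
  refine ⟨a ∘ e.symm, ?_⟩
  have h1 : (w ∘ (a ∘ e.symm)) = (b₁.reindex e : Fin (Module.finrank F V) → V) := by
    funext i
    rw [Module.Basis.reindex_apply, Module.Basis.mk_apply]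
    rfl
  rw [h1]
  exact (b₀.isUnit_det (b₁.reindex e)).ne_zero

theorem exists_lattice_basis (v : AddValuation F (WithTop ℚ)) [FiniteDimensional F V] {κ : Type*}
    [Finite κ] (w : κ → V) (hw : Submodule.span F (Set.range w) = ⊤) :
    ∃ b : Module.Basis (Fin (Module.finrank F V)) F V, (∀ i, ∃ k, b i = w k) ∧
      ∀ k, GE v b 0 (w k) := by
  classical
  have := Fintype.ofFinite κ
  let b₀ : Module.Basis (Fin (Module.finrank F V)) F V := Module.finBasis F V
  obtain ⟨σ₀, hσ₀⟩ := exists_sel w hw b₀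
  obtain ⟨σ, hσ, hmin⟩ := Finset.exists_min_image
    (Finset.univ.filter fun σ : Fin (Module.finrank F V) → κ => b₀.det (w ∘ σ) ≠ 0)
    (fun σ => v (b₀.det (w ∘ σ))) ⟨σ₀, Finset.mem_filter.2 ⟨Finset.mem_univ _, hσ₀⟩⟩
  have hσ' : b₀.det (w ∘ σ) ≠ 0 := (Finset.mem_filter.1 hσ).2
  obtain ⟨hli, hsp⟩ := (Module.Basis.is_basis_iff_det b₀).2 (isUnit_iff_ne_zero.2 hσ')
  let b := Module.Basis.mk hli hsp.ge
  have hb : (b : Fin (Module.finrank F V) → V) = w ∘ σ := by
    funext i
    rw [Module.Basis.mk_apply]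
  refine ⟨b, fun i => ⟨σ i, by rw [hb]; rfl⟩, fun k i => ?_⟩
  have h1 : b₀.det (w ∘ Function.update σ i k) = b₀.det (w ∘ σ) * b.repr (w k) i := by
    have h2 : (w ∘ Function.update σ i k) = Function.update b i (w k) := by
      rw [hb, Function.comp_update]
    have h3 := congrArg (fun f : V [⋀^Fin (Module.finrank F V)]→ₗ[F] F => f (Function.update b i (w k)))
      (AlternatingMap.eq_smul_basis_det b b₀.det)
    simp only [AlternatingMap.smul_apply, smul_eq_mul] at h3
    rw [h2, h3, det_update_eq, hb]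
  by_cases h0 : b.repr (w k) i = 0
  · rw [h0]
    exact Ge.zero
  · have h2 : b₀.det (w ∘ Function.update σ i k) ≠ 0 := by
      rw [h1]
      exact mul_ne_zero hσ' h0
    have h3 := hmin _ (Finset.mem_filter.2 ⟨Finset.mem_univ _, h2⟩)
    rw [h1, v.map_mul] at h3
    have h4 : v (b₀.det (w ∘ σ)) ≠ ⊤ := fun h => hσ' ((AddValuation.top_iff v).1 h)
    obtain ⟨q, hq⟩ := WithTop.ne_top_iff_exists.1 h4
    rw [← hq] at h3
    rw [Ge]
    have h5 : (q : WithTop ℚ) + ((0 : ℚ) : WithTop ℚ) ≤ (q : WithTop ℚ) + v (b.repr (w k) i) := by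
      rw [← WithTop.coe_add, add_zero]
      exact h3
    exact (WithTop.add_le_add_iff_left WithTop.coe_ne_top).1 h5

end Pool.Agent.CVG
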