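import Pool.Agent.CVG.Dom1
import Pool.Agent.CVG.Lat

/-!
# CVG-Dom2: a lattice adapted to two commuting connections

PLAN. Let `f_i = s^(m₃ i) • T2^i e`, `i < n` (a basis of `V`). As `dd s^q = 0`,
`(s^m₃ T2) f_i = f_{i+1}` for `i + 1 < n` and `(s^m₃ T2) f_{n-1} = ∑ (a_i s^(m₃ (n-i))) • f_i`, with
coefficients of valuation `≥ 0`: the lattice `Λ_e` spanned by `f` is stable under `s^m₃ T2`. By `dom_pow`
(in the basis `f`, use `MBdd_change`) there is `M ≥ 1` with `(s^m₂ T1)^M f_i ∈ Λ_e` for all `i`. Let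
`w (j, i) = (s^m₂ T1)^j f_i`, `j < M`, and `Λ` the lattice spanned by the `w (j, i)`; take the basis `b`
from `exists_lattice_basis`. `Λ` (= vectors with `GE v b 0`) is stable under `s^m₂ T1` because
`s^m₂ D` preserves the valuation ring, and under `s^m₃ T2`:
`s^m₃ T2 ((s^m₂ T1)^j f) = (s^m₂ T1 - m₃ s^m₂)^j (s^m₃ T2 f)`, since `T2` commutes with `T1` and with
`s^q`, and `s^m₃ T1 = (T1 - m₃) s^m₃`. Finally `GE v b 0 (s^m₂ T1 (b k))` gives
`GE v b (-m₂) (T1 (b k))` (`v (sp (-m₂)) = -m₂`, `sp (-m₂) * sp m₂ = 1`).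
-/

open scoped BigOperators

namespace Pool.Agent.CVG

variable {F : Type*} [Field F] [CharZero F] {V : Type*} [AddCommGroup V] [Module F V]
variable {v : AddValuation F (WithTop ℚ)} {sp : ℚ → F} {D dd : Derivation ℤ F F} {T1 T2 : V → V}
variable {ι : Type*} [Fintype ι]

omit [CharZero F] in
private theorem d2_transfer {κ : Type*} [Fintype κ] {ι' : Type*} (b : Module.Basis ι' F V)
    (f : Module.Basis κ F V) (h : ∀ i, GE v b 0 (f i)) {x : V} (hx : GE v f 0 x) :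
    GE v b 0 x := by
  rw [← f.sum_repr x]
  exact GE.sum _ _ fun i _ => GE.smul0 (hx i) (h i)

omit [CharZero F] in
private theorem d2_Ge_sp (H : DomHyp v sp D dd) (q : ℚ) : Ge v q (sp q) := by
  rw [Ge, H.v_sp]

omit [CharZero F] in
private theorem d2_stable {κ : Type*} [Fintype κ] (H : DomHyp v sp D dd) (b : Module.Basis κ F V)
    {E : Derivation ℤ F F} {T : V → V} (hT : IsConn E T) (hE : DerGe v E) {m : ℚ} (hm : 0 ≤ m)
    (h : ∀ k, GE v b 0 (sp m • T (b k))) {x : V} (hx : GE v b 0 x) :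
    GE v b 0 (sp m • T x) := by
  have e1 : sp m • T x = ∑ k, ((sp m * E (b.repr x k)) • b k +
      b.repr x k • (sp m • T (b k))) := by
    conv_lhs => rw [← b.sum_repr x]
    rw [hT.sum, Finset.smul_sum]
    refine Finset.sum_congr rfl fun k _ => ?_
    rw [hT.smul, smul_add, smul_smul, smul_smul, smul_smul, mul_comm (b.repr x k) (sp m)]
  rw [e1]
  refine GE.sum _ _ fun k _ => GE.add ?_ (GE.smul0 (hx k) (h k))
  have h2 : Ge v 0 (sp m * E (b.repr x k)) :=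
    ((d2_Ge_sp H m).mul (hE 0 _ (hx k))).mono (by linarith)
  exact GE.smul0 h2 (GE.self k)

omit [CharZero F] in
private theorem d2_sp_ne (H : DomHyp v sp D dd) (q : ℚ) : sp q ≠ 0 := by
  intro h
  have h1 := H.v_sp q
  rw [h, v.map_zero] at h1
  exact WithTop.coe_ne_top h1.symm

omit [CharZero F] in
private theorem d2_unscale {κ : Type*} (H : DomHyp v sp D dd) (b : Module.Basis κ F V)
    {m : ℚ} {x : V} (h : GE v b 0 (sp m • x)) : GE v b (-m) x := by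
  have h1 : sp (-m) * sp m = 1 := by
    rw [← H.sp_add, neg_add_cancel, H.sp_zero]
  have h2 : x = sp (-m) • (sp m • x) := by
    rw [smul_smul, h1, one_smul]
  rw [h2]
  have h3 := GE.smul (d2_Ge_sp H (-m)) h
  rwa [add_zero] at h3

private theorem d2_Ge_ratCast (H : DomHyp v sp D dd) (q : ℚ) : Ge v 0 (q : F) := by
  have h1 : (q : F) * (q.den : F) = (q.num : F) := by
    exact_mod_cast Rat.mul_den_eq_num q
  have h2 := congrArg v h1
  rw [v.map_mul, H.v_nat q.den q.den_nz] at h2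
  have h3 : v (q : F) = v (q.num : F) := by
    rw [← h2]
    exact (add_zero _).symm
  rw [Ge, h3]
  exact Ge.intCast q.num

omit [CharZero F] in
/-- the basis `f` and its stability under `s^m₃ T2` -/
private theorem d2_basis (H : DomHyp v sp D dd) (h2 : IsConn dd T2) {m₃ : ℚ} {n : ℕ} {e : V}
    {a : Fin n → F} (hcyc : IsCyc T2 n e a)
    (ha : ∀ i : Fin n, Ge v (-(m₃ * ((n : ℚ) - (i : ℕ)))) (a i)) :
    ∃ f : Module.Basis (Fin n) F V, ∀ i, GE v f 0 (sp m₃ • T2 (f i)) := by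
  let B : Module.Basis (Fin n) F V := Module.Basis.mk hcyc.li (le_of_eq hcyc.top.symm)
  have hB : ∀ i, B i = T2^[(i : ℕ)] e := fun i => Module.Basis.mk_apply _ _ i
  have hu : ∀ i : Fin n, IsUnit (sp ((i : ℕ) * m₃)) := fun i => (d2_sp_ne H _).isUnit
  let f : Module.Basis (Fin n) F V := B.isUnitSMul hu
  have hf : ∀ i, f i = sp ((i : ℕ) * m₃) • T2^[(i : ℕ)] e := by
    intro i
    rw [Module.Basis.isUnitSMul_apply, hB]
  have hfinv : ∀ i : Fin n, T2^[(i : ℕ)] e = sp (-((i : ℕ) * m₃)) • f i := by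
    intro i
    rw [hf, smul_smul, ← H.sp_add, neg_add_cancel, H.sp_zero, one_smul]
  refine ⟨f, fun i => ?_⟩
  have hstep : sp m₃ • T2 (f i) = sp (((i : ℕ) + 1 : ℕ) * m₃) • T2^[(i : ℕ) + 1] e := by
    rw [hf, h2.smul, H.dd_sp, zero_smul, zero_add, smul_smul, ← H.sp_add,
      Function.iterate_succ_apply']
    congr 2
    push_cast
    ring
  rw [hstep]
  rcases lt_or_eq_of_le (Nat.succ_le_of_lt i.isLt) with hi | hi
  · have h3 : sp (((i : ℕ) + 1 : ℕ) * m₃) • T2^[(i : ℕ) + 1] e = f ⟨(i : ℕ) + 1, hi⟩ :=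
      (hf ⟨(i : ℕ) + 1, hi⟩).symm
    rw [h3]
    exact GE.self _
  · have hn : (i : ℕ) + 1 = n := hi
    rw [hn, hcyc.eq, Finset.smul_sum]
    refine GE.sum _ _ fun j _ => ?_
    rw [hfinv j, smul_smul, smul_smul, mul_assoc]
    have h3 := (d2_Ge_sp H ((n : ℕ) * m₃)).mul ((ha j).mul (d2_Ge_sp H (-((j : ℕ) * m₃))))
    have h4 : Ge v 0 (sp ((n : ℕ) * m₃) * (a j * sp (-((j : ℕ) * m₃)))) :=
      h3.mono (le_of_eq (by ring))
    exact GE.smul0 h4 (GE.self j)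

theorem dom_lattice [FiniteDimensional F V] (H : DomHyp v sp D dd) (b₀ : Module.Basis ι F V)
    (h1 : IsConn D T1) (h2 : IsConn dd T2) (hc : ∀ x, T1 (T2 x) = T2 (T1 x)) {m₁ m₂ m₃ : ℚ}
    (hm₁ : 0 ≤ m₁) (h12 : m₁ < m₂) (hm₃ : 0 ≤ m₃) (hm : MBdd v b₀ m₁ T1) {n : ℕ} {e : V}
    {a : Fin n → F} (hcyc : IsCyc T2 n e a)
    (ha : ∀ i : Fin n, Ge v (-(m₃ * ((n : ℚ) - (i : ℕ)))) (a i)) :
    ∃ b : Module.Basis (Fin (Module.finrank F V)) F V,
      (∀ k, GE v b (-m₂) (T1 (b k))) ∧ (∀ k, GE v b (-m₃) (T2 (b k))) := by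
  obtain ⟨f, hf2⟩ := d2_basis H h2 hcyc ha
  obtain ⟨C, hC⟩ := dom_pow H f h1 (m₂ := m₂) hm₁ (MBdd_change b₀ f hm)
  obtain ⟨M, hM1, hM⟩ : ∃ M : ℕ, 1 ≤ M ∧ C ≤ (m₂ - m₁) * M := by
    have hpos : 0 < m₂ - m₁ := by linarith
    obtain ⟨M, hM⟩ := exists_nat_ge (C / (m₂ - m₁))
    refine ⟨M + 1, by omega, ?_⟩
    have h3 : C ≤ M * (m₂ - m₁) := (div_le_iff₀ hpos).1 hM
    push_cast
    nlinarith
  have hpow : ∀ i, GE v f 0 ((fun y => sp m₂ • T1 y)^[M] (f i)) := fun i =>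
    (hC M (f i) 0 (GE.self i)).mono (by linarith)
  let w : Fin M × Fin n → V := fun q => (fun y => sp m₂ • T1 y)^[(q.1 : ℕ)] (f q.2)
  have hw : Submodule.span F (Set.range w) = ⊤ := by
    rw [eq_top_iff, ← f.span_eq]
    refine Submodule.span_mono ?_
    rintro _ ⟨i, rfl⟩
    exact ⟨(⟨0, hM1⟩, i), rfl⟩
  obtain ⟨b, hb1, hb2⟩ := exists_lattice_basis v w hw
  have hbf : ∀ i, GE v b 0 (f i) := fun i => hb2 (⟨0, hM1⟩, i)
  have hS1 : ∀ q, GE v b 0 (sp m₂ • T1 (w q)) := by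
    rintro ⟨j, i⟩
    have e1 : sp m₂ • T1 (w (j, i)) = (fun y => sp m₂ • T1 y)^[(j : ℕ) + 1] (f i) := by
      rw [Function.iterate_succ_apply']
    rw [e1]
    rcases lt_or_eq_of_le (Nat.succ_le_of_lt j.isLt) with hj | hj
    · exact hb2 (⟨(j : ℕ) + 1, hj⟩, i)
    · have hj' : (j : ℕ) + 1 = M := hj
      rw [hj']
      exact d2_transfer b f hbf (hpow i)
  have hS1b : ∀ k, GE v b 0 (sp m₂ • T1 (b k)) := by
    intro k
    obtain ⟨q, hq⟩ := hb1 k
    rw [hq]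
    exact hS1 q
  have hst1 : ∀ x, GE v b 0 x → GE v b 0 (sp m₂ • T1 x) := fun x hx =>
    d2_stable H b h1 H.D_ge (by linarith) hS1b hx
  have hcomm : ∀ y, sp m₃ • T2 (sp m₂ • T1 y) =
      sp m₂ • T1 (sp m₃ • T2 y) - ((m₃ : F) * sp m₂) • (sp m₃ • T2 y) := by
    intro y
    rw [h2.smul, H.dd_sp, zero_smul, zero_add, h1.smul, H.D_sp, hc, smul_add, smul_smul, smul_smul,
      smul_smul, smul_smul]
    rw [show sp m₂ * ((m₃ : F) * sp m₃) = (m₃ : F) * sp m₂ * sp m₃ by ring,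
      mul_comm (sp m₃) (sp m₂)]
    abel
  have hS2 : ∀ (j : ℕ) (i : Fin n),
      GE v b 0 (sp m₃ • T2 ((fun y => sp m₂ • T1 y)^[j] (f i))) := by
    intro j i
    induction j with
    | zero => exact d2_transfer b f hbf (hf2 i)
    | succ j ih =>
      rw [Function.iterate_succ_apply']
      have e1 := hcomm ((fun y => sp m₂ • T1 y)^[j] (f i))
      rw [e1]
      refine GE.sub (hst1 _ ih) (GE.smul0 ?_ ih)
      exact ((d2_Ge_ratCast H m₃).mul (d2_Ge_sp H m₂)).mono (by linarith)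
  refine ⟨b, fun k => d2_unscale H b (hS1b k), fun k => d2_unscale H b ?_⟩
  obtain ⟨q, hq⟩ := hb1 k
  rw [hq]
  exact hS2 _ _

end Pool.Agent.CVG
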