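import Pool.Agent.CVG.ChB
import Pool.Agent.CVG.NS

/-!
# CVG: hypotheses of the domination lemma (no sorry)
-/

open scoped BigOperators

namespace Pool.Agent.CVG

/-- A valued field of equal characteristic zero with a section `sp` of the valuation, an Euler type
derivation `D` and a commuting derivation `dd` killing the section. -/
structure DomHyp {F : Type*} [Field F] (v : AddValuation F (WithTop ℚ)) (sp : ℚ → F)
    (D dd : Derivation ℤ F F) : Prop where
  v_sp : ∀ q, v (sp q) = (q : WithTop ℚ)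
  sp_add : ∀ p q, sp (p + q) = sp p * sp q
  sp_zero : sp 0 = 1
  D_sp : ∀ q, D (sp q) = (q : F) * sp q
  dd_sp : ∀ q, dd (sp q) = 0
  D_ge : DerGe v D
  dd_ge : DerGe v dd
  D_eq : ∀ f, v f ≠ ((0 : ℚ) : WithTop ℚ) → v (D f) = v f
  v_nat : ∀ k : ℕ, k ≠ 0 → v (k : F) = ((0 : ℚ) : WithTop ℚ)
  comm : ∀ f, D (dd f) = dd (D f)
  dd_ne : dd ≠ 0

end Pool.Agent.CVG
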