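import Pool.Agent.CVG.Hahn

/-!
# CVG: the derivation `d/dy` of `ℂ(y)` (no sorry)
-/

namespace Pool.Agent.CVG

/-- `d/dy` -/
noncomputable def dy : RatFunc ℂ → RatFunc ℂ := exists_dy.choose

theorem dy_add (f g : RatFunc ℂ) : dy (f + g) = dy f + dy g := exists_dy.choose_spec.1 f g

theorem dy_mul (f g : RatFunc ℂ) : dy (f * g) = dy f * g + f * dy g :=
  exists_dy.choose_spec.2.1 f g

theorem dy_C (z : ℂ) : dy (RatFunc.C z) = 0 := exists_dy.choose_spec.2.2.1 z

theorem dy_X : dy RatFunc.X = 1 := exists_dy.choose_spec.2.2.2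

end Pool.Agent.CVG
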