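import Pool.Agent.CVG.CV
import Pool.Agent.CVG.NS2

/-!
# CVG-End: regular connections have integral matrices; the connection on endomorphisms

PLAN.
* `integral_basis`: take a cyclic vector (`exists_cyc`), the basis `b'_i = T^i e`; by `ns_ge` (with
  `m = 0`) the coefficients `a_i` have valuation `≥ 0`; `T b'_i = b'_{i+1}`, `T b'_{n-1} = ∑ a_i b'_i`.
* `mbdd_end`: `T x = D x + A x` on `κ → F`. Let `P` be the matrix of the basis from `integral_basis`
  (columns `b'_i`; invertible); `A' = P⁻¹ (D P + A P)` has entries of valuation `≥ 0`. With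
  `X = P Y P⁻¹`: `D X + A X - X A = P (D Y + A' Y - Y A') P⁻¹`, so the basis
  `X_{kl} = P E_{kl} P⁻¹` of the space of matrices satisfies `TE X_{kl} = P (A' E_{kl} - E_{kl} A') P⁻¹`,
  coordinates of valuation `≥ 0`: `mbdd_of_step` with `m = 0`, then `MBdd_change`.
-/

open scoped BigOperators

namespace Pool.Agent.CVG

variable {F : Type*} [Field F] [CharZero F] {V : Type*} [AddCommGroup V] [Module F V]
variable {v : AddValuation F (WithTop ℚ)} {D : Derivation ℤ F F} {T : V → V}
variable {ι : Type*} [Fintype ι]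

theorem integral_basis (hv : ∀ q : ℚ, ∃ x : F, v x = (q : WithTop ℚ)) (hD : DerGe v D)
    (hD0 : D ≠ 0) (hT : IsConn D T) (b : Module.Basis ι F V) (h : MBdd v b 0 T) :
    ∃ b' : Module.Basis ι F V, ∀ i, GE v b' 0 (T (b' i)) := by
  classical
  have hfin : FiniteDimensional F V := Module.Finite.of_basis b
  obtain ⟨e, a, hcyc⟩ := exists_cyc hD0 hT
  have hns := ns_ge hv hD hT b hcyc le_rfl h
  let b₁ := Module.Basis.mk hcyc.li hcyc.top.ge
  have hb₁ : ∀ i : Fin (Module.finrank F V), b₁ i = T^[(i : ℕ)] e := fun i => by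
    rw [Module.Basis.mk_apply]
  let E := b₁.indexEquiv b
  have key : ∀ i, GE v b₁ 0 (T (b₁ i)) := by
    intro i
    rw [hb₁, ← Function.iterate_succ_apply' (f := T)]
    by_cases hi : (i : ℕ) + 1 < Module.finrank F V
    · have := hb₁ ⟨(i : ℕ) + 1, hi⟩
      rw [← this]
      exact GE.self _
    · have hi' : (i : ℕ) + 1 = Module.finrank F V := le_antisymm i.2 (not_lt.1 hi)
      show GE v b₁ 0 (T^[(i : ℕ) + 1] e)
      rw [hi', hcyc.eq]
      refine GE.sum _ _ fun j _ => ?_
      refine GE.smul0 ?_ ?_
      · have := hns j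
        rw [zero_mul, neg_zero] at this
        exact this
      · rw [← hb₁]
        exact GE.self _
  refine ⟨b₁.reindex E, fun i j => ?_⟩
  rw [Module.Basis.reindex_apply, Module.Basis.repr_reindex_apply]
  exact key _ _

omit [CharZero F] in
private theorem isConn_vec {κ : Type*} [Fintype κ] (D : Derivation ℤ F F) (A : Matrix κ κ F) :
    IsConn D (fun x : κ → F => (fun i => D (x i)) + A.mulVec x) where
  add x y := by
    funext i
    simp only [Pi.add_apply, map_add, Matrix.mulVec_add]
    ring
  smul f x := by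
    funext i
    simp only [Pi.add_apply, Pi.smul_apply, smul_eq_mul, Derivation.leibniz, Matrix.mulVec_smul]
    ring

omit [CharZero F] in
private theorem map_D_mul {κ : Type*} [Fintype κ] (D : Derivation ℤ F F) (X Y : Matrix κ κ F) :
    (X * Y).map D = X.map D * Y + X * Y.map D := by
  ext i j
  simp only [Matrix.map_apply, Matrix.mul_apply, Matrix.add_apply, map_sum, Derivation.leibniz,
    smul_eq_mul, Finset.sum_add_distrib]
  rw [add_comm]
  congr 1
  exact Finset.sum_congr rfl fun k _ => mul_comm _ _

omit [CharZero F] in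
private theorem isConn_mat {κ : Type*} [Fintype κ] (D : Derivation ℤ F F) (A : Matrix κ κ F) :
    IsConn D (fun X : Matrix κ κ F => X.map D + (A * X - X * A)) where
  add X Y := by
    have h1 : (X + Y).map D = X.map D + Y.map D := by
      ext i j
      simp only [Matrix.map_apply, Matrix.add_apply, map_add]
    simp only [h1, mul_add, add_mul]
    abel
  smul f X := by
    have h1 : (f • X).map D = D f • X + f • X.map D := by
      ext i j
      simp only [Matrix.map_apply, Matrix.add_apply, Matrix.smul_apply, smul_eq_mul,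
        Derivation.leibniz]
      ring
    simp only [h1, Matrix.mul_smul, Matrix.smul_mul, smul_add, smul_sub]
    abel

theorem mbdd_end {κ : Type*} [Fintype κ] [DecidableEq κ]
    (hv : ∀ q : ℚ, ∃ x : F, v x = (q : WithTop ℚ)) (hD : DerGe v D) (hD0 : D ≠ 0)
    (A : Matrix κ κ F)
    (h : MBdd v (Pi.basisFun F κ) 0 (fun x : κ → F => (fun i => D (x i)) + A.mulVec x)) :
    MBdd v (Matrix.stdBasis F κ κ) 0
      (fun X : Matrix κ κ F => X.map D + (A * X - X * A)) := by
  obtain ⟨b', hb'⟩ := integral_basis hv hD hD0 (isConn_vec D A) (Pi.basisFun F κ) h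
  let P : Matrix κ κ F := (Pi.basisFun F κ).toMatrix b'
  let Q : Matrix κ κ F := b'.toMatrix (Pi.basisFun F κ)
  have hPQ : P * Q = 1 := by
    rw [Module.Basis.toMatrix_mul_toMatrix, Module.Basis.toMatrix_self]
  have hQP : Q * P = 1 := by
    rw [Module.Basis.toMatrix_mul_toMatrix, Module.Basis.toMatrix_self]
  have hP : ∀ i k, P i k = b' k i := fun i k => rfl
  let B : Matrix κ κ F := Matrix.of fun k l =>
    b'.repr ((fun i => D (b' l i)) + A.mulVec (b' l)) k
  have hB : ∀ k l, Ge v 0 (B k l) := fun k l => hb' l k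
  have hPB : P.map D + A * P = P * B := by
    ext i l
    have h1 : (((fun i => D (b' l i)) + A.mulVec (b' l)) : κ → F) =
        ∑ k, B k l • b' k := (b'.sum_repr _).symm
    have h2 := congrFun h1 i
    simp only [Pi.add_apply, Finset.sum_apply, Pi.smul_apply, smul_eq_mul] at h2
    simp only [Matrix.add_apply, Matrix.map_apply, Matrix.mul_apply, hP]
    have h3 : A.mulVec (b' l) i = ∑ j, A i j * b' l j := rfl
    rw [h3] at h2
    rw [h2]
    exact Finset.sum_congr rfl fun k _ => mul_comm _ _
  have h1map : (1 : Matrix κ κ F).map D = 0 := by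
    ext i j
    rw [Matrix.map_apply, Matrix.one_apply, Matrix.zero_apply]
    split_ifs
    · exact D.map_one_eq_zero
    · exact map_zero D
  have hDQ : Q.map D = -(Q * P.map D * Q) := by
    have h2 := map_D_mul D P Q
    rw [hPQ, h1map] at h2
    have h3 : P * Q.map D = -(P.map D * Q) := by
      rw [eq_neg_iff_add_eq_zero, add_comm]
      exact h2.symm
    have h4 : Q * (P * Q.map D) = Q.map D := by
      rw [← mul_assoc, hQP, one_mul]
    rw [← h4, h3, mul_neg, mul_assoc]
  let L : Matrix κ κ F ≃ₗ[F] Matrix κ κ F :=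
    { toFun := fun X => P * X * Q
      invFun := fun X => Q * X * P
      map_add' := fun X Y => by rw [mul_add, add_mul]
      map_smul' := fun c X => by
        rw [Matrix.mul_smul, Matrix.smul_mul]
        rfl
      left_inv := fun X => by
        show Q * (P * X * Q) * P = X
        rw [mul_assoc P X Q, ← mul_assoc Q P, hQP, one_mul, mul_assoc, hQP, mul_one]
      right_inv := fun X => by
        show P * (Q * X * P) * Q = X
        rw [mul_assoc Q X P, ← mul_assoc P Q, hPQ, one_mul, mul_assoc, hPQ, mul_one] }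
  let bM := (Matrix.stdBasis F κ κ).map L
  refine MBdd_change bM _ ?_
  refine mbdd_of_step bM hD (isConn_mat D A) le_rfl ?_
  rintro ⟨k, l⟩ ⟨i, j⟩
  have hbM : bM (k, l) = P * Matrix.single k l 1 * Q := by
    show L (Matrix.stdBasis F κ κ (k, l)) = _
    rw [Matrix.stdBasis_eq_single]
    rfl
  have hEmap : (Matrix.single k l (1 : F)).map D = 0 := by
    ext i j
    rw [Matrix.map_apply, Matrix.single_apply, Matrix.zero_apply]
    split_ifs
    · exact D.map_one_eq_zero
    · exact map_zero D
  have hTE : (bM (k, l)).map D + (A * bM (k, l) - bM (k, l) * A) =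
      L (B * Matrix.single k l 1 - Matrix.single k l 1 * B) := by
    show _ = P * (B * Matrix.single k l 1 - Matrix.single k l 1 * B) * Q
    rw [hbM, map_D_mul, map_D_mul, hEmap, hDQ]
    have e1 : P * (B * Matrix.single k l 1 - Matrix.single k l 1 * B) * Q =
        (P * B) * Matrix.single k l 1 * Q - P * Matrix.single k l 1 * (Q * (P * B)) * Q := by
      rw [← mul_assoc Q P, hQP, one_mul]
      noncomm_ring
    rw [e1, ← hPB]
    have e2 : P * Matrix.single k l 1 * (Q * (P.map D + A * P)) * Q =
        P * Matrix.single k l 1 * (Q * P.map D * Q) + P * Matrix.single k l 1 * Q * A * (P * Q) := by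
      noncomm_ring
    rw [e2, hPQ]
    noncomm_ring
  have hrepr : bM.repr (L (B * Matrix.single k l 1 - Matrix.single k l 1 * B)) (i, j) =
      ((B * Matrix.single k l 1 - Matrix.single k l 1 * B : Matrix κ κ F) i j) := by
    show (Matrix.stdBasis F κ κ).repr (L.symm (L _)) (i, j) = _
    rw [L.symm_apply_apply]
    simp [Matrix.stdBasis]
  rw [hTE, hrepr, neg_zero, Matrix.sub_apply, Matrix.mul_apply, Matrix.mul_apply]
  have hE : ∀ i j, Ge v 0 (Matrix.single k l (1 : F) i j) := by
    intro i j
    rw [Matrix.single_apply]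
    split_ifs
    · exact Ge.one
    · exact Ge.zero
  refine Ge.sub (Ge.sum _ _ fun m _ => ?_) (Ge.sum _ _ fun m _ => ?_)
  · simpa using (hB i m).mul (hE m j)
  · simpa using (hE i m).mul (hB m j)

end Pool.Agent.CVG
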