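import Mathlib

/-!
# CVG-EvM: evaluation of absolutely convergent power series in several variables

PLAN. `AbsC ρ f`: `∑_m ‖f_m‖ ρ^{|m|} < ∞`. Closed under sums; under products: `f g` has coefficients
`∑_{p + q = m} f_p g_q`, the double series `‖f_p‖ ρ^|p| ‖g_q‖ ρ^|q|` is summable on `(κ →₀ ℕ) × (κ →₀ ℕ)`, and
`(p, q) ↦ p + q` has finite fibres `Finset.HasAntidiagonal.antidiagonal m` (Mathlib: `summable_sum_mul_antidiagonal_of_summable_norm`,
`tsum_mul_tsum_eq_tsum_sum_antidiagonal_of_summable_norm`, valid for `Finset.HasAntidiagonal`). For `t` with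
`‖t i‖ ≤ ρ` the terms `f_m t^m` are bounded by `‖f_m‖ ρ^|m|` and `t^(p+q) = t^p t^q`, so `ev t` is additive and
multiplicative on `AbsC ρ`. `absC_of_bound`: `∑_m (A ρ)^{|m|}` is a product of geometric series
(`Summable` over `κ →₀ ℕ`; or count: at most `(k+1)^|κ|` exponents of degree `k`).
`ev_line`: `ev (z • v) f = ∑_k coeff k (line v f) z^k` (group by degree; `Finset.finsuppAntidiag`).
-/

open scoped BigOperators

namespace Pool.Agent.CVG

variable {κ : Type} [Fintype κ] [DecidableEq κ]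

/-- absolute convergence on the closed polydisc of radius `ρ` -/
def AbsC (ρ : ℝ) (f : MvPowerSeries κ ℂ) : Prop :=
  Summable fun m : κ →₀ ℕ => ‖MvPowerSeries.coeff m f‖ * ρ ^ m.degree

/-- value at `t` -/
noncomputable def ev (t : κ → ℂ) (f : MvPowerSeries κ ℂ) : ℂ :=
  ∑' m : κ →₀ ℕ, MvPowerSeries.coeff m f * ∏ i, t i ^ m i

private theorem evm_deg (m : κ →₀ ℕ) (r : ℝ) : r ^ m.degree = ∏ i, r ^ m i := by
  rw [Finsupp.degree_eq_sum, Finset.prod_pow_eq_pow_sum]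

private theorem evm_geom {r : ℝ} (h0 : 0 ≤ r) (h1 : r < 1) :
    Summable fun m : κ →₀ ℕ => r ^ m.degree := by
  refine summable_of_sum_le (c := ∏ _i : κ, (1 - r)⁻¹) (fun m => pow_nonneg h0 _) fun u => ?_
  obtain ⟨N, hN⟩ : ∃ N : ℕ, ∀ m ∈ u, ∀ i, m i < N := by
    refine ⟨(u.sup fun m => Finset.univ.sup fun i => m i) + 1, fun m hm i => ?_⟩
    refine Nat.lt_succ_of_le ?_
    exact (Finset.le_sup (f := fun i => m i) (Finset.mem_univ i)).trans
      (Finset.le_sup (f := fun m : κ →₀ ℕ => Finset.univ.sup fun i => m i) hm)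
  have h2 : ∑ m ∈ u, r ^ m.degree ≤
      ∑ x ∈ Fintype.piFinset (fun _ : κ => Finset.range N), ∏ i, r ^ x i := by
    have h3 : ∑ m ∈ u, r ^ m.degree =
        ∑ x ∈ u.image (fun m : κ →₀ ℕ => (m : κ → ℕ)), ∏ i, r ^ x i := by
      rw [Finset.sum_image (fun a _ b _ hab => DFunLike.coe_injective hab)]
      exact Finset.sum_congr rfl fun m _ => evm_deg m r
    rw [h3]
    refine Finset.sum_le_sum_of_subset_of_nonneg ?_ fun x _ _ =>
      Finset.prod_nonneg fun i _ => pow_nonneg h0 _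
    intro x hx
    rw [Finset.mem_image] at hx
    obtain ⟨m, hm, rfl⟩ := hx
    rw [Fintype.mem_piFinset]
    exact fun i => Finset.mem_range.2 (hN m hm i)
  refine h2.trans ?_
  rw [← Finset.prod_univ_sum (fun _ : κ => Finset.range N) (fun _ j => r ^ j)]
  refine Finset.prod_le_prod (fun i _ => Finset.sum_nonneg fun j _ => pow_nonneg h0 _)
    fun i _ => ?_
  rw [← tsum_geometric_of_lt_one h0 h1]
  exact (summable_geometric_of_lt_one h0 h1).sum_le_tsum _ fun j _ => pow_nonneg h0 _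

theorem absC_of_bound (f : MvPowerSeries κ ℂ) (C A ρ : ℝ) (hC : 0 ≤ C) (hA : 0 ≤ A) (hρ : 0 ≤ ρ)
    (hAρ : A * ρ < 1) (h : ∀ m, ‖MvPowerSeries.coeff m f‖ ≤ C * A ^ m.degree) : AbsC ρ f := by
  have _ := hC
  refine Summable.of_nonneg_of_le (fun m => mul_nonneg (norm_nonneg _) (pow_nonneg hρ _))
    (fun m => ?_) ((evm_geom (κ := κ) (mul_nonneg hA hρ) hAρ).mul_left C)
  rw [mul_pow, ← mul_assoc]
  exact mul_le_mul_of_nonneg_right (h m) (pow_nonneg hρ _)

theorem AbsC.C {ρ : ℝ} (z : ℂ) : AbsC ρ (MvPowerSeries.C z : MvPowerSeries κ ℂ) := by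
  refine summable_of_ne_finset_zero (s := {0}) fun m hm => ?_
  rw [Finset.mem_singleton] at hm
  rw [MvPowerSeries.coeff_C, if_neg hm, norm_zero, zero_mul]

theorem AbsC.X {ρ : ℝ} (i : κ) : AbsC ρ (MvPowerSeries.X i : MvPowerSeries κ ℂ) := by
  refine summable_of_ne_finset_zero (s := {Finsupp.single i 1}) fun m hm => ?_
  rw [Finset.mem_singleton] at hm
  rw [MvPowerSeries.coeff_X, if_neg hm, norm_zero, zero_mul]

theorem AbsC.add {ρ : ℝ} (hρ : 0 ≤ ρ) {f g : MvPowerSeries κ ℂ} (hf : AbsC ρ f) (hg : AbsC ρ g) :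
    AbsC ρ (f + g) := by
  refine Summable.of_nonneg_of_le (fun m => mul_nonneg (norm_nonneg _) (pow_nonneg hρ _))
    (fun m => ?_) (Summable.add hf hg)
  rw [map_add, ← add_mul]
  exact mul_le_mul_of_nonneg_right (norm_add_le _ _) (pow_nonneg hρ _)

private theorem evm_pow_anti {ρ : ℝ} {m : κ →₀ ℕ} {p : (κ →₀ ℕ) × (κ →₀ ℕ)}
    (hp : p ∈ Finset.HasAntidiagonal.antidiagonal m) : ρ ^ m.degree = ρ ^ p.1.degree * ρ ^ p.2.degree := by
  rw [Finset.HasAntidiagonal.mem_antidiagonal] at hp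
  rw [← hp, map_add, pow_add]

theorem AbsC.mul {ρ : ℝ} (hρ : 0 ≤ ρ) {f g : MvPowerSeries κ ℂ} (hf : AbsC ρ f) (hg : AbsC ρ g) :
    AbsC ρ (f * g) := by
  have h1 := summable_sum_mul_antidiagonal_of_summable_mul
    (Summable.mul_of_nonneg hf hg
      (fun m => mul_nonneg (norm_nonneg _) (pow_nonneg hρ _))
      (fun m => mul_nonneg (norm_nonneg _) (pow_nonneg hρ _)))
  refine Summable.of_nonneg_of_le (fun m => mul_nonneg (norm_nonneg _) (pow_nonneg hρ _))
    (fun m => ?_) h1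
  rw [MvPowerSeries.coeff_mul]
  calc ‖∑ p ∈ Finset.HasAntidiagonal.antidiagonal m, MvPowerSeries.coeff p.1 f * MvPowerSeries.coeff p.2 g‖ *
        ρ ^ m.degree
      ≤ (∑ p ∈ Finset.HasAntidiagonal.antidiagonal m,
          ‖MvPowerSeries.coeff p.1 f * MvPowerSeries.coeff p.2 g‖) * ρ ^ m.degree :=
        mul_le_mul_of_nonneg_right (norm_sum_le _ _) (pow_nonneg hρ _)
    _ = ∑ p ∈ Finset.HasAntidiagonal.antidiagonal m, (‖MvPowerSeries.coeff p.1 f‖ * ρ ^ p.1.degree) *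
          (‖MvPowerSeries.coeff p.2 g‖ * ρ ^ p.2.degree) := by
        rw [Finset.sum_mul]
        refine Finset.sum_congr rfl fun p hp => ?_
        rw [evm_pow_anti hp, norm_mul]
        ring

private theorem evm_norm_le {ρ : ℝ} (f : MvPowerSeries κ ℂ) {t : κ → ℂ} (ht : ∀ i, ‖t i‖ ≤ ρ)
    (m : κ →₀ ℕ) : ‖MvPowerSeries.coeff m f * ∏ i, t i ^ m i‖ ≤
      ‖MvPowerSeries.coeff m f‖ * ρ ^ m.degree := by
  rw [norm_mul, norm_prod, evm_deg]
  refine mul_le_mul_of_nonneg_left ?_ (norm_nonneg _)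
  refine Finset.prod_le_prod (fun i _ => norm_nonneg _) fun i _ => ?_
  rw [norm_pow]
  exact pow_le_pow_left₀ (norm_nonneg _) (ht i) _

private theorem AbsC.summable_norm {ρ : ℝ} {f : MvPowerSeries κ ℂ} (hf : AbsC ρ f) {t : κ → ℂ}
    (ht : ∀ i, ‖t i‖ ≤ ρ) :
    Summable fun m : κ →₀ ℕ => ‖MvPowerSeries.coeff m f * ∏ i, t i ^ m i‖ :=
  Summable.of_nonneg_of_le (fun _ => norm_nonneg _) (evm_norm_le f ht) hf

theorem AbsC.summable {ρ : ℝ} {f : MvPowerSeries κ ℂ} (hf : AbsC ρ f) {t : κ → ℂ}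
    (ht : ∀ i, ‖t i‖ ≤ ρ) :
    Summable fun m : κ →₀ ℕ => MvPowerSeries.coeff m f * ∏ i, t i ^ m i :=
  (hf.summable_norm ht).of_norm

theorem ev_C (t : κ → ℂ) (z : ℂ) : ev t (MvPowerSeries.C z) = z := by
  unfold ev
  rw [tsum_eq_single (0 : κ →₀ ℕ)]
  · rw [MvPowerSeries.coeff_zero_C]
    simp
  · intro m hm
    rw [MvPowerSeries.coeff_C, if_neg hm, zero_mul]

theorem ev_X (t : κ → ℂ) (i : κ) : ev t (MvPowerSeries.X i) = t i := by
  unfold ev
  rw [tsum_eq_single (Finsupp.single i 1)]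
  · rw [MvPowerSeries.coeff_index_single_self_X, one_mul, Finset.prod_eq_single i]
    · rw [Finsupp.single_eq_same, pow_one]
    · intro j _ hj
      rw [Finsupp.single_eq_of_ne hj, pow_zero]
    · intro h
      exact absurd (Finset.mem_univ i) h
  · intro m hm
    rw [MvPowerSeries.coeff_X, if_neg hm, zero_mul]

theorem ev_add {ρ : ℝ} {f g : MvPowerSeries κ ℂ} (hf : AbsC ρ f) (hg : AbsC ρ g) {t : κ → ℂ}
    (ht : ∀ i, ‖t i‖ ≤ ρ) : ev t (f + g) = ev t f + ev t g := by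
  unfold ev
  rw [← (hf.summable ht).tsum_add (hg.summable ht)]
  refine tsum_congr fun m => ?_
  rw [map_add, add_mul]

omit [Fintype κ] in
private theorem evm_prod {F G : (κ →₀ ℕ) → ℂ} (hF : Summable fun x => ‖F x‖)
    (hG : Summable fun x => ‖G x‖) : (∑' n, F n) * ∑' n, G n =
      ∑' n, ∑ p ∈ Finset.HasAntidiagonal.antidiagonal n, F p.1 * G p.2 :=
  hF.of_norm.tsum_mul_tsum_eq_tsum_sum_antidiagonal hG.of_norm
    (summable_mul_of_summable_norm hF hG)

theorem ev_mul {ρ : ℝ} (hρ : 0 ≤ ρ) {f g : MvPowerSeries κ ℂ} (hf : AbsC ρ f) (hg : AbsC ρ g)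
    {t : κ → ℂ} (ht : ∀ i, ‖t i‖ ≤ ρ) : ev t (f * g) = ev t f * ev t g := by
  have _ := hρ
  have h0 := evm_prod (hf.summable_norm ht) (hg.summable_norm ht)
  unfold ev
  rw [h0]
  refine tsum_congr fun m => ?_
  rw [MvPowerSeries.coeff_mul, Finset.sum_mul]
  refine Finset.sum_congr rfl fun p hp => ?_
  have h1 : ∏ i, t i ^ m i = (∏ i, t i ^ p.1 i) * ∏ i, t i ^ p.2 i := by
    rw [Finset.HasAntidiagonal.mem_antidiagonal] at hp
    rw [← hp, ← Finset.prod_mul_distrib]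
    refine Finset.prod_congr rfl fun i _ => ?_
    rw [Finsupp.add_apply, pow_add]
  rw [h1]
  ring

/-- the value is continuous on the closed polydisc -/
theorem ev_continuousOn {ρ : ℝ} {f : MvPowerSeries κ ℂ} (hf : AbsC ρ f) :
    ContinuousOn (fun t => ev t f) {t | ∀ i, ‖t i‖ ≤ ρ} := by
  refine continuousOn_tsum (fun m => ?_) hf (fun m t ht => evm_norm_le f ht m)
  exact (continuous_const.mul (continuous_finsetProd _ fun i _ =>
    (continuous_apply i).pow _)).continuousOn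

end Pool.Agent.CVG
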