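import Pool.Agent.Helper17.Sign.Traces

/-!
# CVG-Gram: the discriminant of a matrix

PLAN. `gramDet M = det (tr (M^(i+j)))_{i,j < N}`. Over an algebraic closure with eigenvalues `u_k` (with
multiplicity; `Matrix.trace` of powers = sums of powers of the roots of the characteristic polynomial,
see `Pool/Agent/Helper17/Sign/Traces.lean` or Mathlib), the matrix is `Vᵀ V` with the Vandermonde matrix
`V_{ki} = u_k^i`, so `gramDet M = ∏_{i<j} (u_j - u_i)^2`, nonzero iff the characteristic polynomial has no multiple
roots, iff it is separable.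
-/

open scoped BigOperators

namespace Pool.Agent.CVG

/-- the discriminant of the characteristic polynomial, as a determinant of traces -/
def gramDet {R : Type*} [CommRing R] {ι : Type*} [Fintype ι] [DecidableEq ι] (M : Matrix ι ι R) :
    R := (Matrix.of fun i j : Fin (Fintype.card ι) => (M ^ ((i : ℕ) + (j : ℕ))).trace).det

theorem gramDet_map {R S : Type*} [CommRing R] [CommRing S] {ι : Type*} [Fintype ι]
    [DecidableEq ι] (φ : R →+* S) (M : Matrix ι ι R) : gramDet (M.map φ) = φ (gramDet M) := by
  unfold gramDet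
  rw [RingHom.map_det]
  congr 1
  ext i j
  rw [RingHom.mapMatrix_apply, Matrix.map_apply, Matrix.of_apply, Matrix.of_apply]
  have h1 : (M.map φ) ^ ((i : ℕ) + (j : ℕ)) = (M ^ ((i : ℕ) + (j : ℕ))).map φ := by
    have h2 := map_pow φ.mapMatrix M ((i : ℕ) + (j : ℕ))
    rw [RingHom.mapMatrix_apply, RingHom.mapMatrix_apply] at h2
    exact h2.symm
  rw [h1, Matrix.trace, Matrix.trace, map_sum]
  rfl

private theorem Gram_tr {L : Type*} [Field L] [IsAlgClosed L] {ι : Type*} [Fintype ι]
    [DecidableEq ι] (M : Matrix ι ι L) (k : ℕ) :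
    (M ^ k).trace = (M.charpoly.roots.map (· ^ k)).sum := by
  have h1 := Pool.Agent.Helper17.Sign.trace_pow_closed (Matrix.toLin' M) k
  rw [← Matrix.toLin'_pow, Matrix.trace_toLin'_eq, Matrix.charpoly_toLin'] at h1
  exact h1

private theorem Gram_sum {L : Type*} [Field L] (l : List L) (k : ℕ) :
    (l.map (· ^ k)).sum = ∑ i : Fin l.length, l.get i ^ k := by
  conv_lhs => rw [← List.ofFn_get l, List.map_ofFn, List.sum_ofFn]
  rfl

private theorem Gram_closed {L : Type*} [Field L] [IsAlgClosed L] {ι : Type*} [Fintype ι]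
    [DecidableEq ι] (M : Matrix ι ι L) : gramDet M ≠ 0 ↔ M.charpoly.Separable := by
  have hne : M.charpoly ≠ 0 := (Matrix.charpoly_monic M).ne_zero
  have hsp : M.charpoly.Splits := IsAlgClosed.splits _
  have hcard : M.charpoly.roots.card = Fintype.card ι := by
    rw [← Matrix.charpoly_natDegree_eq_dim M]
    exact (Polynomial.splits_iff_card_roots.mp hsp)
  rw [← Polynomial.nodup_roots_iff_of_splits hne hsp]
  obtain ⟨l, hl⟩ := Quotient.exists_rep M.charpoly.roots
  have hl' : (l : Multiset L) = M.charpoly.roots := hl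
  have hlen : l.length = Fintype.card ι := by
    rw [← hcard, ← hl', Multiset.coe_card]
  have hG : gramDet M = (Matrix.of fun i j : Fin (Fintype.card ι) =>
      (l.map (· ^ ((i : ℕ) + (j : ℕ)))).sum).det := by
    unfold gramDet
    congr 1
    ext i j
    rw [Matrix.of_apply, Matrix.of_apply, Gram_tr, ← hl', Multiset.map_coe, Multiset.sum_coe]
  rw [hG, ← hl', Multiset.coe_nodup, ← hlen]
  have hV : (Matrix.of fun i j : Fin l.length => (l.map (· ^ ((i : ℕ) + (j : ℕ)))).sum) =
      (Matrix.vandermonde l.get).transpose * Matrix.vandermonde l.get := by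
    ext i j
    rw [Matrix.vandermonde_transpose_mul_vandermonde, Matrix.of_apply]
    exact Gram_sum l ((i : ℕ) + (j : ℕ))
  rw [hV, Matrix.det_mul, Matrix.det_transpose, mul_self_ne_zero,
    Matrix.det_vandermonde_ne_zero_iff, List.nodup_iff_injective_get]

theorem gramDet_ne_zero_iff {K : Type*} [Field K] {ι : Type*} [Fintype ι] [DecidableEq ι]
    (M : Matrix ι ι K) : gramDet M ≠ 0 ↔ M.charpoly.Separable := by
  have h1 := Gram_closed (M.map (algebraMap K (AlgebraicClosure K)))
  rw [gramDet_map, Matrix.charpoly_map, Polynomial.separable_map, map_ne_zero] at h1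
  exact h1

end Pool.Agent.CVG
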