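import Pool.Agent.CVG.EvM
import Pool.Agent.CVG.Gram

/-!
# CVG-EvR: evaluation of discriminants

PLAN. The series `f` with `AbsC ρ f` form a subring `A` of `MvPowerSeries κ ℂ` (`AbsC.C`, `add`, `mul`; negatives
`C (-1) * f`) and `ev t : A →+* ℂ` is a ring homomorphism for `‖t i‖ ≤ ρ`. The matrix `M` comes from a matrix `M'` over
`A`; apply `gramDet_map` to the inclusion `A → MvPowerSeries` and to `ev t`.
-/

open scoped BigOperators

namespace Pool.Agent.CVG

variable {κ : Type} [Fintype κ] [DecidableEq κ]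

/-- the subring of absolutely convergent series -/
private def convSub {ρ : ℝ} (hρ : 0 ≤ ρ) : Subring (MvPowerSeries κ ℂ) where
  carrier := {f | AbsC ρ f}
  mul_mem' := fun hf hg => AbsC.mul hρ hf hg
  one_mem' := by
    have := AbsC.C (κ := κ) (ρ := ρ) 1
    rwa [map_one] at this
  add_mem' := fun hf hg => AbsC.add hρ hf hg
  zero_mem' := by
    have := AbsC.C (κ := κ) (ρ := ρ) 0
    rwa [map_zero] at this
  neg_mem' := by
    intro f hf
    have h1 := AbsC.mul hρ (AbsC.C (κ := κ) (ρ := ρ) (-1)) hf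
    rwa [map_neg, map_one, neg_one_mul] at h1

/-- evaluation as a ring homomorphism -/
private noncomputable def evHom {ρ : ℝ} (hρ : 0 ≤ ρ) {t : κ → ℂ} (ht : ∀ i, ‖t i‖ ≤ ρ) :
    (convSub hρ : Subring (MvPowerSeries κ ℂ)) →+* ℂ where
  toFun f := ev t f.1
  map_one' := by
    have := ev_C (κ := κ) t 1
    rwa [map_one] at this
  map_mul' f g := ev_mul hρ f.2 g.2 ht
  map_zero' := by
    have := ev_C (κ := κ) t 0
    rwa [map_zero] at this
  map_add' f g := ev_add f.2 g.2 ht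

theorem absC_gramDet {ρ : ℝ} (hρ : 0 ≤ ρ) {ι : Type} [Fintype ι] [DecidableEq ι]
    (M : Matrix ι ι (MvPowerSeries κ ℂ)) (hM : ∀ i j, AbsC ρ (M i j)) : AbsC ρ (gramDet M) := by
  let M' : Matrix ι ι (convSub hρ : Subring (MvPowerSeries κ ℂ)) := fun i j => ⟨M i j, hM i j⟩
  have h1 := gramDet_map (convSub (κ := κ) hρ).subtype M'
  have h2 : M'.map (convSub (κ := κ) hρ).subtype = M := rfl
  rw [h2] at h1
  rw [h1]
  exact (gramDet M').2

theorem ev_gramDet {ρ : ℝ} (hρ : 0 ≤ ρ) {ι : Type} [Fintype ι] [DecidableEq ι]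
    (M : Matrix ι ι (MvPowerSeries κ ℂ)) (hM : ∀ i j, AbsC ρ (M i j)) {t : κ → ℂ}
    (ht : ∀ i, ‖t i‖ ≤ ρ) : ev t (gramDet M) = gramDet (M.map (ev t)) := by
  let M' : Matrix ι ι (convSub hρ : Subring (MvPowerSeries κ ℂ)) := fun i j => ⟨M i j, hM i j⟩
  have h1 := gramDet_map (convSub (κ := κ) hρ).subtype M'
  have h2 : M'.map (convSub (κ := κ) hρ).subtype = M := rfl
  rw [h2] at h1
  have h3 := gramDet_map (evHom (κ := κ) hρ ht) M'
  have h4 : M'.map (evHom (κ := κ) hρ ht) = M.map (ev t) := rfl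
  rw [h4] at h3
  rw [h3, h1]
  rfl

end Pool.Agent.CVG
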