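import Pool.Agent.CVG.Defs

/-!
# CVG: the fields `KK`, `LL`, `FK` (no sorry)

`KK` and `LL` are the Hahn series fields `HahnSeries ℚ ℂ`, `HahnSeries ℚ (RatFunc ℂ)` and
`FK = RatFunc KK`, as type synonyms carrying only a field structure (to avoid instance diamonds).
-/

open scoped BigOperators

namespace Pool.Agent.CVG

/-- Hahn series in `s` with rational exponents and complex coefficients. -/
def KK : Type := HahnSeries ℚ ℂ

noncomputable instance instFieldKK : Field KK := inferInstanceAs (Field (HahnSeries ℚ ℂ))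

/-- Hahn series in `s` with coefficients in `ℂ(y)`. -/
def LL : Type := HahnSeries ℚ (RatFunc ℂ)

noncomputable instance instFieldLL : Field LL :=
  inferInstanceAs (Field (HahnSeries ℚ (RatFunc ℂ)))

/-- Rational functions in `λ` over `KK`. -/
def FK : Type := RatFunc KK

noncomputable instance instFieldFK : Field FK := inferInstanceAs (Field (RatFunc KK))

/-- coefficient of `s^q` -/
def cofK (x : KK) (q : ℚ) : ℂ := HahnSeries.coeff x q

/-- coefficient of `s^q` -/
def cofL (x : LL) (q : ℚ) : RatFunc ℂ := HahnSeries.coeff x q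

/-- the valuation of `KK` -/
noncomputable def vK : AddValuation KK (WithTop ℚ) := HahnSeries.addVal ℚ ℂ

/-- the valuation of `LL` -/
noncomputable def vL : AddValuation LL (WithTop ℚ) := HahnSeries.addVal ℚ (RatFunc ℂ)

/-- the power `s^q` -/
noncomputable def sp (q : ℚ) : KK := HahnSeries.single q (1 : ℂ)

/-- the monomial `f s^q` of `LL` -/
noncomputable def sL (q : ℚ) (f : RatFunc ℂ) : LL := HahnSeries.single q f

/-- constants -/
noncomputable def cK : ℂ →+* KK := HahnSeries.C

/-- constants of `LL` -/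
noncomputable def cL : RatFunc ℂ →+* LL := HahnSeries.C

/-- constants of `FK` -/
noncomputable def CF : KK →+* FK := (RatFunc.C : KK →+* RatFunc KK)

/-- the variable `λ` -/
noncomputable def lam : FK := (RatFunc.X : RatFunc KK)

/-- polynomials in `λ` -/
noncomputable def pF : Polynomial KK →+* FK := algebraMap (Polynomial KK) (RatFunc KK)

theorem pF_C (x : KK) : pF (Polynomial.C x) = CF x := RatFunc.algebraMap_C x

theorem pF_X : pF Polynomial.X = lam := RatFunc.algebraMap_X

theorem pF_injective : Function.Injective pF := RatFunc.algebraMap_injective KK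

theorem FK_surj (f : FK) : ∃ P Q : Polynomial KK, Q ≠ 0 ∧ f = pF P / pF Q := by
  obtain ⟨P, Q, hQ, h⟩ := IsFractionRing.div_surjective (A := Polynomial KK) (K := RatFunc KK) f
  exact ⟨P, Q, nonZeroDivisors.ne_zero hQ, h.symm⟩

theorem CF_injective : Function.Injective CF := CF.injective

instance instCharZeroKK : CharZero KK :=
  charZero_of_injective_ringHom (f := cK) cK.injective

instance instCharZeroFK : CharZero FK :=
  charZero_of_injective_ringHom (f := CF) CF.injective

instance instCharZeroLL : CharZero LL :=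
  charZero_of_injective_ringHom (f := cL) cL.injective

theorem KK_ext {x y : KK} (h : ∀ q, cofK x q = cofK y q) : x = y := by
  apply HahnSeries.ext
  funext q
  exact h q

theorem LL_ext {x y : LL} (h : ∀ q, cofL x q = cofL y q) : x = y := by
  apply HahnSeries.ext
  funext q
  exact h q

theorem cofK_add (x y : KK) (q : ℚ) : cofK (x + y) q = cofK x q + cofK y q :=
  HahnSeries.coeff_add

theorem cofL_add (x y : LL) (q : ℚ) : cofL (x + y) q = cofL x q + cofL y q :=
  HahnSeries.coeff_add

theorem cofK_cK_mul (z : ℂ) (x : KK) (q : ℚ) : cofK (cK z * x) q = z * cofK x q :=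
  HahnSeries.coeff_single_zero_mul

theorem cofL_cL_mul (z : RatFunc ℂ) (x : LL) (q : ℚ) : cofL (cL z * x) q = z * cofL x q :=
  HahnSeries.coeff_single_zero_mul

theorem cofK_sp_mul (p : ℚ) (x : KK) (q : ℚ) : cofK (sp p * x) q = cofK x (q - p) := by
  have h := HahnSeries.coeff_single_mul (R := ℂ) (Γ' := ℚ) (r := 1) (x := x) (a := q)
    (b := p)
  rw [one_mul] at h
  exact h

theorem cofL_sL_mul (p : ℚ) (f : RatFunc ℂ) (x : LL) (q : ℚ) :
    cofL (sL p f * x) q = f * cofL x (q - p) :=
  HahnSeries.coeff_single_mul (R := RatFunc ℂ) (Γ' := ℚ) (r := f) (x := x) (a := q)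
    (b := p)

theorem cofK_sp (p q : ℚ) : cofK (sp p) q = if q = p then 1 else 0 := by
  show HahnSeries.coeff (HahnSeries.single p (1 : ℂ)) q = _
  by_cases h : q = p
  · rw [if_pos h, h, HahnSeries.coeff_single_same]
  · rw [if_neg h, HahnSeries.coeff_single_of_ne h]

theorem cofL_sL (p : ℚ) (f : RatFunc ℂ) (q : ℚ) : cofL (sL p f) q = if q = p then f else 0 := by
  show HahnSeries.coeff (HahnSeries.single p f) q = _
  by_cases h : q = p
  · rw [if_pos h, h, HahnSeries.coeff_single_same]
  · rw [if_neg h, HahnSeries.coeff_single_of_ne h]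

/-- `Ge vK c x`: the coefficients with index below `c` vanish. -/
theorem Ge_vK_iff {c : ℚ} {x : KK} : Ge vK c x ↔ ∀ q < c, cofK x q = 0 := by
  show (c : WithTop ℚ) ≤ HahnSeries.addVal ℚ ℂ x ↔ _
  rw [HahnSeries.addVal_apply]
  constructor
  · intro h q hq
    exact HahnSeries.coeff_eq_zero_of_lt_orderTop (lt_of_lt_of_le (WithTop.coe_lt_coe.2 hq) h)
  · intro h
    by_contra hc
    rw [not_le] at hc
    have hx : HahnSeries.orderTop (Γ := ℚ) (R := ℂ) x ≠ ⊤ := hc.ne_top
    obtain ⟨q, hq⟩ := WithTop.ne_top_iff_exists.1 hx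
    rw [← hq] at hc
    exact HahnSeries.coeff_orderTop_ne hq.symm (h q (WithTop.coe_lt_coe.1 hc))

theorem Ge_vL_iff {c : ℚ} {x : LL} : Ge vL c x ↔ ∀ q < c, cofL x q = 0 := by
  show (c : WithTop ℚ) ≤ HahnSeries.addVal ℚ (RatFunc ℂ) x ↔ _
  rw [HahnSeries.addVal_apply]
  constructor
  · intro h q hq
    exact HahnSeries.coeff_eq_zero_of_lt_orderTop (lt_of_lt_of_le (WithTop.coe_lt_coe.2 hq) h)
  · intro h
    by_contra hc
    rw [not_le] at hc
    have hx : HahnSeries.orderTop (Γ := ℚ) (R := RatFunc ℂ) x ≠ ⊤ := hc.ne_top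
    obtain ⟨q, hq⟩ := WithTop.ne_top_iff_exists.1 hx
    rw [← hq] at hc
    exact HahnSeries.coeff_orderTop_ne hq.symm (h q (WithTop.coe_lt_coe.1 hc))

end Pool.Agent.CVG
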