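import Pool.Agent.CVG.FlatC
import Pool.Agent.Helper18.Dub.Bridge

/-!
# CVG-Fin: convergence of the genus-zero potential

PLAN. `isGenericallySemisimple_iff`, `genericallySemisimple_iff` and `flat_conv` for `X.flatAlg` (`A = X.QH`, `m = X.sc`): all
`X.sc a b k` converge. `X.ser {a, b, c} = ∑_k C (X.pair c k) * X.sc a b k` (`sc a b k = ∑_l C (pair⁻¹ k l) ser {a, b, l}`,
`pair_mul_inv`), so converges: constants `C_{abc}, A_{abc}`; take the maxima over the finitely many `a, b, c`. A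
multiset `s` with at least three elements is `{a, b, c} + t`, `t = toMultiset m`, `|m| = card s - 3`, and
`coeff m (X.ser {a,b,c}) = X.corr s / ∏ (m i)!` (`coeff_ser`), `∏ (m i)! ≤ |m|! ≤ (card s)!`
(`Nat.prod_factorial_dvd_factorial_sum`).
-/

open scoped BigOperators

namespace Pool.Agent.CVG

open Pool.Agent.Helper18.Dub

private theorem conv_zero {κ : Type} : ConvMv (0 : MvPowerSeries κ ℂ) :=
  ⟨1, 1, one_pos, le_refl _, fun m => by
    rw [map_zero, norm_zero, one_pow, mul_one]; exact zero_le_one⟩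

private theorem conv_add {κ : Type} {f g : MvPowerSeries κ ℂ} (hf : ConvMv f) (hg : ConvMv g) :
    ConvMv (f + g) := by
  obtain ⟨C1, A1, hC1, hA1, h1⟩ := hf
  obtain ⟨C2, A2, hC2, hA2, h2⟩ := hg
  refine ⟨C1 + C2, max A1 A2, add_pos hC1 hC2, hA1.trans (le_max_left _ _), fun m => ?_⟩
  rw [map_add, add_mul]
  refine (norm_add_le _ _).trans (add_le_add ((h1 m).trans ?_) ((h2 m).trans ?_))
  · exact mul_le_mul_of_nonneg_left
      (pow_le_pow_left₀ (by linarith) (le_max_left _ _) _) hC1.le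
  · exact mul_le_mul_of_nonneg_left
      (pow_le_pow_left₀ (by linarith) (le_max_right _ _) _) hC2.le

private theorem conv_C_mul {κ : Type} {f : MvPowerSeries κ ℂ} (z : ℂ) (hf : ConvMv f) :
    ConvMv (MvPowerSeries.C z * f) := by
  obtain ⟨C1, A1, hC1, hA1, h1⟩ := hf
  refine ⟨(‖z‖ + 1) * C1, A1, mul_pos (by positivity) hC1, hA1, fun m => ?_⟩
  rw [MvPowerSeries.coeff_C_mul, norm_mul, mul_assoc]
  have h2 : 0 ≤ C1 * A1 ^ m.degree := mul_nonneg hC1.le (pow_nonneg (by linarith) _)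
  calc ‖z‖ * ‖MvPowerSeries.coeff m f‖ ≤ ‖z‖ * (C1 * A1 ^ m.degree) :=
        mul_le_mul_of_nonneg_left (h1 m) (norm_nonneg z)
    _ ≤ (‖z‖ + 1) * (C1 * A1 ^ m.degree) := by
        apply mul_le_mul_of_nonneg_right _ h2
        linarith

private theorem conv_sum {κ α : Type} (s : Finset α) (f : α → MvPowerSeries κ ℂ)
    (h : ∀ i ∈ s, ConvMv (f i)) : ConvMv (∑ i ∈ s, f i) := by
  classical
  induction s using Finset.induction_on with
  | empty => rw [Finset.sum_empty]; exact conv_zero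
  | insert a s ha ih =>
    rw [Finset.sum_insert ha]
    exact conv_add (h a (Finset.mem_insert_self a s))
      (ih fun i hi => h i (Finset.mem_insert_of_mem hi))

theorem sc_conv {ι : Type} [Fintype ι] [DecidableEq ι] (X : FanoGW ι)
    (h : X.IsGenericallySemisimple) (a b k : ι) : ConvMv (X.sc a b k) := by
  have h1 : X.QH.GenericallySemisimple := X.isGenericallySemisimple_iff.1 h
  have h2 : X.QH.disc ≠ 0 := X.QH.genericallySemisimple_iff.1 h1
  exact flat_conv X.flatAlg h2 a b k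

private theorem ser_eq {ι : Type} [Fintype ι] [DecidableEq ι] (X : FanoGW ι) (a b c : ι) :
    X.ser {a, b, c} = ∑ k, MvPowerSeries.C (X.pair c k) * X.sc a b k := by
  have h1 : ∀ k, MvPowerSeries.C (X.pair c k) * X.sc a b k =
      ∑ l, MvPowerSeries.C (X.pair c k * X.pair⁻¹ k l) * X.ser {a, b, l} := by
    intro k
    rw [FanoGW.sc, Finset.mul_sum]
    refine Finset.sum_congr rfl fun l _ => ?_
    rw [map_mul, mul_assoc]
  rw [Finset.sum_congr rfl fun k _ => h1 k, Finset.sum_comm]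
  have h2 : ∀ l, ∑ k, MvPowerSeries.C (X.pair c k * X.pair⁻¹ k l) * X.ser {a, b, l} =
      if c = l then X.ser {a, b, l} else 0 := by
    intro l
    rw [← Finset.sum_mul, ← map_sum]
    have h3 := congrFun (congrFun X.pair_mul_inv c) l
    rw [Matrix.mul_apply, Matrix.one_apply] at h3
    rw [h3]
    split_ifs <;> simp
  rw [Finset.sum_congr rfl fun l _ => h2 l, Finset.sum_ite_eq, if_pos (Finset.mem_univ c)]

private theorem ser_conv {ι : Type} [Fintype ι] [DecidableEq ι] (X : FanoGW ι)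
    (h : X.IsGenericallySemisimple) (a b c : ι) : ConvMv (X.ser {a, b, c}) := by
  rw [ser_eq]
  exact conv_sum _ _ fun k _ => conv_C_mul _ (sc_conv X h a b k)

private theorem mset_three {ι : Type} (s : Multiset ι) (hs : 3 ≤ Multiset.card s) :
    ∃ a b c t, s = ({a, b, c} : Multiset ι) + t := by
  obtain ⟨a, ha⟩ := Multiset.card_pos_iff_exists_mem.1 (by omega : 0 < Multiset.card s)
  obtain ⟨s1, rfl⟩ := Multiset.exists_cons_of_mem ha
  rw [Multiset.card_cons] at hs
  obtain ⟨b, hb⟩ := Multiset.card_pos_iff_exists_mem.1 (by omega : 0 < Multiset.card s1)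
  obtain ⟨s2, rfl⟩ := Multiset.exists_cons_of_mem hb
  rw [Multiset.card_cons] at hs
  obtain ⟨c, hc⟩ := Multiset.card_pos_iff_exists_mem.1 (by omega : 0 < Multiset.card s2)
  obtain ⟨s3, rfl⟩ := Multiset.exists_cons_of_mem hc
  refine ⟨a, b, c, s3, ?_⟩
  show a ::ₘ b ::ₘ c ::ₘ s3 = (a ::ₘ b ::ₘ {c}) + s3
  rw [Multiset.cons_add, Multiset.cons_add, Multiset.singleton_add]

theorem corr_bound {ι : Type} [Fintype ι] [DecidableEq ι] (X : FanoGW ι)
    (h : X.IsGenericallySemisimple) : ∃ C A : ℝ, ∀ s : Multiset ι, 3 ≤ Multiset.card s →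
      ‖X.corr s‖ ≤ C * A ^ Multiset.card s * ((Multiset.card s).factorial : ℝ) := by
  have hc : ∀ p : ι × ι × ι, ∃ C A : ℝ, 0 < C ∧ 1 ≤ A ∧ ∀ m : ι →₀ ℕ,
      ‖MvPowerSeries.coeff m (X.ser {p.1, p.2.1, p.2.2})‖ ≤ C * A ^ m.degree :=
    fun p => ser_conv X h p.1 p.2.1 p.2.2
  choose Cf Af hCf hAf hb using hc
  refine ⟨∑ p, Cf p, ∑ p, Af p, fun s hs => ?_⟩
  obtain ⟨a, b, c, t, rfl⟩ := mset_three s hs
  have hC : Cf (a, b, c) ≤ ∑ p, Cf p :=
    Finset.single_le_sum (f := Cf) (fun p _ => (hCf p).le) (Finset.mem_univ (a, b, c))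
  have hA : Af (a, b, c) ≤ ∑ p, Af p :=
    Finset.single_le_sum (f := Af) (fun p _ => zero_le_one.trans (hAf p)) (Finset.mem_univ (a, b, c))
  have hA1 : 1 ≤ ∑ p, Af p := (hAf (a, b, c)).trans hA
  obtain ⟨m, hm⟩ : ∃ m : ι →₀ ℕ, Finsupp.toMultiset m = t :=
    ⟨Multiset.toFinsupp t, Multiset.toFinsupp_toMultiset t⟩
  have hdeg : m.degree = Multiset.card t := by
    rw [← hm, Finsupp.card_toMultiset, Finsupp.degree_eq_sum, Finsupp.sum_fintype]
    · rfl
    · intro i; rfl
  have hcard : Multiset.card (({a, b, c} : Multiset ι) + t) = m.degree + 3 := by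
    rw [Multiset.card_add, hdeg]
    have : Multiset.card ({a, b, c} : Multiset ι) = 3 := rfl
    omega
  have h1 := hb (a, b, c) m
  rw [X.coeff_ser, hm, norm_div] at h1
  have hpos : (0 : ℝ) < ‖(∏ i, ((m i).factorial : ℂ))‖ := by
    rw [norm_pos_iff, Finset.prod_ne_zero_iff]
    intro j _
    exact_mod_cast (m j).factorial_ne_zero
  rw [div_le_iff₀ hpos] at h1
  have hfac : ‖(∏ i, ((m i).factorial : ℂ))‖ ≤ ((m.degree + 3).factorial : ℝ) := by
    have e1 : (∏ i, ((m i).factorial : ℂ)) = ((∏ i, (m i).factorial : ℕ) : ℂ) := by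
      rw [Nat.cast_prod]
    rw [e1, Complex.norm_natCast]
    have e2 : ∏ i, (m i).factorial ≤ (m.degree).factorial := by
      rw [Finsupp.degree_eq_sum]
      exact Nat.le_of_dvd (Nat.factorial_pos _) (Nat.prod_factorial_dvd_factorial_sum _ _)
    exact_mod_cast e2.trans (Nat.factorial_le (by omega))
  rw [hcard]
  have hC0 : 0 < Cf (a, b, c) := hCf _
  have hA0 : 1 ≤ Af (a, b, c) := hAf _
  have h2 : Cf (a, b, c) * Af (a, b, c) ^ m.degree ≤
      (∑ p, Cf p) * (∑ p, Af p) ^ (m.degree + 3) := by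
    apply mul_le_mul hC _ (pow_nonneg (by linarith) _) (hC0.le.trans hC)
    exact (pow_le_pow_left₀ (by linarith) hA _).trans (pow_le_pow_right₀ hA1 (by omega))
  refine h1.trans ?_
  apply mul_le_mul h2 hfac hpos.le
  exact mul_nonneg (hC0.le.trans hC) (pow_nonneg (by linarith) _)

end Pool.Agent.CVG
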