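import Pool.Agent.CVG.Distinct
import Pool.Agent.Helper18.Dub.Bridge
import Pool.Agent.CVG.EvM
import Pool.Agent.CVG.Gram
import Pool.Agent.Helper7.DubStokes.Defs

/-!
# CVG-FinA: the Euler matrix on the domain of convergence

PLAN. `U_eq`: `X.flatAlg.U k b = X.umat k b = ∑_c X.euler c * X.sc c b k` (`Algebra.leftMulMatrix_eq_repr_mul`,
`AlgStr.basis_repr` and the computation `(X.eulerElt * X.QH.basis b) k = X.umat k b` in the definition of `flatAlg` in
`Helper18/Dub/Small.lean`). `X.euler a = C (chern a) + C (1 - deg a) * X a` up to order (see `Helper18/Dub/GW.lean`).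
`ev_sc`: `ev t (X.sc a b k) = ∑_l pair⁻¹ k l * ev t (X.ser {a, b, l})` (finite sums, `ev_add`, `ev_mul`, `ev_C`), and
`ev t (X.ser s) = ∑' m, term X t s m` by definition. So `eulerMat X t = X.flatAlg.U.map (ev t)`.
`gram_ne`: `exists_bezout` shows that the image of `X.flatAlg.U.charpoly` over the field of fractions is
separable; `Matrix.charpoly_map`, `gramDet_ne_zero_iff`, `gramDet_map`.
-/

open scoped BigOperators

namespace Pool.Agent.CVG

open Pool.Agent.Helper18.Dub Pool.Agent.Helper7.DubStokes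

private theorem U_eq {ι : Type} [Fintype ι] [DecidableEq ι] (X : FanoGW ι) (k b : ι) :
    X.flatAlg.U k b = ∑ c, X.euler c * X.sc c b k := by
  rw [FlatAlg.U, Algebra.leftMulMatrix_eq_repr_mul, AlgStr.basis_repr]
  show (X.eulerElt * X.QH.basis b) k = _
  rw [AlgStr.mul_apply]
  refine Finset.sum_congr rfl fun c _ => ?_
  rw [Finset.sum_eq_single b]
  · rw [AlgStr.basis_apply, if_pos rfl, mul_one]
    rfl
  · intro j _ hj
    rw [AlgStr.basis_apply, if_neg (Ne.symm hj), mul_zero, zero_mul]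
  · intro h'
    exact absurd (Finset.mem_univ _) h'

private theorem absC_sum {κ : Type} [Fintype κ] [DecidableEq κ] {ρ : ℝ} (hρ : 0 ≤ ρ) {α : Type}
    (s : Finset α) (f : α → MvPowerSeries κ ℂ) (hf : ∀ i ∈ s, AbsC ρ (f i)) :
    AbsC ρ (∑ i ∈ s, f i) := by
  classical
  induction s using Finset.induction_on with
  | empty =>
    rw [Finset.sum_empty]
    have h := AbsC.C (κ := κ) (ρ := ρ) 0
    rwa [map_zero] at h
  | insert a s ha ih =>
    rw [Finset.sum_insert ha]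
    exact AbsC.add hρ (hf a (Finset.mem_insert_self _ _))
      (ih fun i hi => hf i (Finset.mem_insert_of_mem hi))

private theorem ev_sum {κ : Type} [Fintype κ] [DecidableEq κ] {ρ : ℝ} (hρ : 0 ≤ ρ) {α : Type}
    (s : Finset α) (f : α → MvPowerSeries κ ℂ) (hf : ∀ i ∈ s, AbsC ρ (f i)) {t : κ → ℂ}
    (ht : ∀ i, ‖t i‖ ≤ ρ) : ev t (∑ i ∈ s, f i) = ∑ i ∈ s, ev t (f i) := by
  classical
  induction s using Finset.induction_on with
  | empty =>
    rw [Finset.sum_empty, Finset.sum_empty]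
    have h := ev_C (κ := κ) t 0
    rwa [map_zero] at h
  | insert a s ha ih =>
    rw [Finset.sum_insert ha, Finset.sum_insert ha, ev_add (hf a (Finset.mem_insert_self _ _))
      (absC_sum hρ s f fun i hi => hf i (Finset.mem_insert_of_mem hi)) ht,
      ih fun i hi => hf i (Finset.mem_insert_of_mem hi)]

private theorem absC_euler {ι : Type} [Fintype ι] [DecidableEq ι] (X : FanoGW ι) {ρ : ℝ}
    (hρ : 0 ≤ ρ) (c : ι) : AbsC ρ (X.euler c) := by
  rw [FanoGW.euler]
  exact AbsC.add hρ (AbsC.mul hρ (AbsC.C _) (AbsC.X c)) (AbsC.C _)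

private theorem absC_sc {ι : Type} [Fintype ι] [DecidableEq ι] (X : FanoGW ι) {ρ : ℝ}
    (hρ : 0 ≤ ρ) (h : ∀ a b c, AbsC ρ (X.ser {a, b, c})) (a b k : ι) : AbsC ρ (X.sc a b k) := by
  rw [FanoGW.sc]
  exact absC_sum hρ _ _ fun l _ => AbsC.mul hρ (AbsC.C _) (h a b l)

theorem absC_U {ι : Type} [Fintype ι] [DecidableEq ι] (X : FanoGW ι) {ρ : ℝ} (hρ : 0 ≤ ρ)
    (h : ∀ a b c, AbsC ρ (X.ser {a, b, c})) (k b : ι) : AbsC ρ (X.flatAlg.U k b) := by
  rw [U_eq]
  exact absC_sum hρ _ _ fun c _ => AbsC.mul hρ (absC_euler X hρ c) (absC_sc X hρ h c b k)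

theorem eulerMat_eq {ι : Type} [Fintype ι] [DecidableEq ι] (X : FanoGW ι) {ρ : ℝ} (hρ : 0 ≤ ρ)
    (h : ∀ a b c, AbsC ρ (X.ser {a, b, c})) {t : ι → ℂ} (ht : ∀ i, ‖t i‖ ≤ ρ) :
    eulerMat X t = X.flatAlg.U.map (ev t) := by
  ext1 k b
  rw [Matrix.map_apply, U_eq, ev_sum hρ _ _ (fun c _ => AbsC.mul hρ (absC_euler X hρ c)
    (absC_sc X hρ h c b k)) ht, eulerMat, Matrix.of_apply]
  refine Finset.sum_congr rfl fun a _ => ?_
  rw [ev_mul hρ (absC_euler X hρ a) (absC_sc X hρ h a b k) ht]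
  congr 1
  · rw [FanoGW.euler, ev_add (AbsC.mul hρ (AbsC.C _) (AbsC.X a)) (AbsC.C _) ht,
      ev_mul hρ (AbsC.C _) (AbsC.X a) ht, ev_C, ev_C, ev_X]
    ring
  · rw [FanoGW.sc, ev_sum hρ _ _ (fun l _ => AbsC.mul hρ (AbsC.C _) (h a b l)) ht]
    refine Finset.sum_congr rfl fun l _ => ?_
    rw [ev_mul hρ (AbsC.C _) (h a b l) ht, ev_C]
    rfl

theorem gram_ne {ι : Type} [Fintype ι] [DecidableEq ι] (X : FanoGW ι)
    (h : X.IsGenericallySemisimple) : gramDet X.flatAlg.U ≠ 0 := by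
  have hd : X.flatAlg.A.disc ≠ 0 :=
    X.QH.genericallySemisimple_iff.1 (X.isGenericallySemisimple_iff.1 h)
  obtain ⟨d, a, b, hd0, hab⟩ := exists_bezout X.flatAlg hd
  have hinj : Function.Injective (algebraMap (MvPowerSeries ι ℂ)
      (FractionRing (MvPowerSeries ι ℂ))) := IsFractionRing.injective _ _
  have hd1 : algebraMap (MvPowerSeries ι ℂ) (FractionRing (MvPowerSeries ι ℂ)) d ≠ 0 := by
    rw [Ne, map_eq_zero_iff _ hinj]
    exact hd0
  have hsep : ((X.flatAlg.U.map (algebraMap (MvPowerSeries ι ℂ)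
      (FractionRing (MvPowerSeries ι ℂ)))).charpoly).Separable := by
    rw [Matrix.charpoly_map, Polynomial.separable_def']
    refine ⟨Polynomial.C (algebraMap (MvPowerSeries ι ℂ)
      (FractionRing (MvPowerSeries ι ℂ)) d)⁻¹ * a.map (algebraMap _ _),
      Polynomial.C (algebraMap (MvPowerSeries ι ℂ)
      (FractionRing (MvPowerSeries ι ℂ)) d)⁻¹ * b.map (algebraMap _ _), ?_⟩
    have h2 := congrArg (Polynomial.map (algebraMap (MvPowerSeries ι ℂ)
      (FractionRing (MvPowerSeries ι ℂ)))) hab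
    rw [Polynomial.map_add, Polynomial.map_mul, Polynomial.map_mul, Polynomial.map_C] at h2
    rw [Polynomial.derivative_map, mul_assoc, mul_assoc, ← mul_add, h2, ← Polynomial.C_mul,
      inv_mul_cancel₀ hd1, Polynomial.C_1]
  intro h0
  have h3 := (gramDet_ne_zero_iff _).2 hsep
  rw [gramDet_map, h0, map_zero] at h3
  exact h3 rfl

end Pool.Agent.CVG
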