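import Pool.Agent.CVG.Fin
import Pool.Agent.CVG.Dens
import Pool.Agent.CVG.EvR
import Pool.Agent.CVG.FinA
import Pool.Agent.Helper7.DubStokes.Defs

/-!
# CVG-FinB: domain of convergence and semisimple points

PLAN. `sc_conv` gives constants for all `X.sc a b k`, hence (finite sums with constants, see `Fin`) for all
`X.ser {a, b, c}`; take common `C`, `A ≥ 1` and `r = 1/(2 A)`: `AbsC r (X.ser {a, b, c})` (`absC_of_bound`), so
`ConvergesAt X t` for `|t_i| < r` (`AbsC.summable`; `term X t s m = coeff m (X.ser s) * ∏ t_i^m_i`). By `eulerMat_eq`,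
`absC_gramDet`, `ev_gramDet`: `gramDet (eulerMat X t) = ev t Δ`, `Δ = gramDet X.flatAlg.U ≠ 0` (`gram_ne`). Then
`gramDet_ne_zero_iff` over `ℂ`, `ev_dense` and `ev_continuousOn` (the open polydisc is open; the set in question is the
intersection of the open polydisc with `{ev t Δ ≠ 0}`).
-/

open scoped BigOperators

namespace Pool.Agent.CVG

open Pool.Agent.Helper18.Dub Pool.Agent.Helper7.DubStokes

/-- absolute convergence of a series with geometrically bounded coefficients, on smaller discs -/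
private theorem finb_abs {κ : Type} [Fintype κ] [DecidableEq κ] {ρ C A : ℝ} {f : MvPowerSeries κ ℂ}
    (hC : 0 ≤ C) (hA : 0 ≤ A) (hρ : 0 ≤ ρ) (hAρ : A * ρ < 1)
    (h : ∀ m, ‖MvPowerSeries.coeff m f‖ ≤ C * A ^ m.degree) : AbsC ρ f :=
  absC_of_bound f C A ρ hC hA hρ hAρ h

private theorem finb_zero {κ : Type} [Fintype κ] [DecidableEq κ] {ρ : ℝ} :
    AbsC ρ (0 : MvPowerSeries κ ℂ) := by
  have h := AbsC.C (κ := κ) (ρ := ρ) 0
  rwa [map_zero] at h

private theorem finb_sum {κ α : Type} [Fintype κ] [DecidableEq κ] {ρ : ℝ} (hρ : 0 ≤ ρ)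
    (s : Finset α) (f : α → MvPowerSeries κ ℂ) (h : ∀ i ∈ s, AbsC ρ (f i)) :
    AbsC ρ (∑ i ∈ s, f i) := by
  classical
  induction s using Finset.induction_on with
  | empty => rw [Finset.sum_empty]; exact finb_zero
  | insert a s ha ih =>
    rw [Finset.sum_insert ha]
    exact AbsC.add hρ (h a (Finset.mem_insert_self a s))
      (ih fun i hi => h i (Finset.mem_insert_of_mem hi))

private theorem finb_ser {ι : Type} [Fintype ι] [DecidableEq ι] (X : FanoGW ι) (a b c : ι) :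
    X.ser {a, b, c} = ∑ k, MvPowerSeries.C (X.pair c k) * X.sc a b k := by
  have h1 : ∀ k, MvPowerSeries.C (X.pair c k) * X.sc a b k =
      ∑ l, MvPowerSeries.C (X.pair c k * X.pair⁻¹ k l) * X.ser {a, b, l} := by
    intro k
    rw [FanoGW.sc, Finset.mul_sum]
    refine Finset.sum_congr rfl fun l _ => ?_
    rw [map_mul, mul_assoc]
  rw [Finset.sum_congr rfl fun k _ => h1 k, Finset.sum_comm]
  have h2 : ∀ l, ∑ k, MvPowerSeries.C (X.pair c k * X.pair⁻¹ k l) * X.ser {a, b, l} =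
      if c = l then X.ser {a, b, l} else 0 := by
    intro l
    rw [← Finset.sum_mul, ← map_sum]
    have h3 := congrFun (congrFun X.pair_mul_inv c) l
    rw [Matrix.mul_apply, Matrix.one_apply] at h3
    rw [h3]
    split_ifs <;> simp
  rw [Finset.sum_congr rfl fun l _ => h2 l, Finset.sum_ite_eq, if_pos (Finset.mem_univ c)]

private theorem finb_radius {ι : Type} [Fintype ι] [DecidableEq ι] (X : FanoGW ι)
    (h : X.IsGenericallySemisimple) :
    ∃ r : ℝ, 0 < r ∧ ∀ a b c, AbsC r (X.ser {a, b, c}) := by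
  have hc : ∀ p : ι × ι × ι, ∃ C A : ℝ, 0 < C ∧ 1 ≤ A ∧ ∀ m : ι →₀ ℕ,
      ‖MvPowerSeries.coeff m (X.sc p.1 p.2.1 p.2.2)‖ ≤ C * A ^ m.degree :=
    fun p => sc_conv X h p.1 p.2.1 p.2.2
  choose Cf Af hCf hAf hb using hc
  have hA0 : 0 ≤ ∑ p, Af p := Finset.sum_nonneg fun p _ => zero_le_one.trans (hAf p)
  refine ⟨1 / (2 * (∑ p, Af p + 1)), by positivity, fun a b c => ?_⟩
  have hr : (0 : ℝ) ≤ 1 / (2 * (∑ p, Af p + 1)) := by positivity
  rw [finb_ser]
  refine finb_sum hr _ _ fun k _ => AbsC.mul hr (AbsC.C _) ?_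
  have hAk : Af (a, b, k) ≤ ∑ p, Af p :=
    Finset.single_le_sum (f := Af) (fun p _ => zero_le_one.trans (hAf p))
      (Finset.mem_univ (a, b, k))
  refine finb_abs (C := Cf (a, b, k)) (A := Af (a, b, k)) (hCf _).le
    (zero_le_one.trans (hAf _)) hr ?_ (hb (a, b, k))
  have h2 : (0 : ℝ) < 2 * (∑ p, Af p + 1) := by positivity
  rw [mul_one_div, div_lt_one h2]
  linarith

theorem exists_domain {ι : Type} [Fintype ι] [DecidableEq ι] (X : FanoGW ι)
    (h : X.IsGenericallySemisimple) : ∃ r : ℝ, 0 < r ∧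
      (∀ t : ι → ℂ, (∀ i, ‖t i‖ < r) → ConvergesAt X t) ∧
      IsOpen {t : ι → ℂ | (∀ i, ‖t i‖ < r) ∧ (eulerMat X t).charpoly.Separable} ∧
      ∀ t : ι → ℂ, (∀ i, ‖t i‖ < r) →
        t ∈ closure {t : ι → ℂ | (∀ i, ‖t i‖ < r) ∧ (eulerMat X t).charpoly.Separable} := by
  obtain ⟨r, hr, habs⟩ := finb_radius X h
  have hU : ∀ k b, AbsC r (X.flatAlg.U k b) := absC_U X hr.le habs
  have hΔ : AbsC r (gramDet X.flatAlg.U) := absC_gramDet hr.le _ hU
  have hset : {t : ι → ℂ | (∀ i, ‖t i‖ < r) ∧ (eulerMat X t).charpoly.Separable} =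
      {t : ι → ℂ | (∀ i, ‖t i‖ < r) ∧ ev t (gramDet X.flatAlg.U) ≠ 0} := by
    ext t
    rw [Set.mem_ofPred_eq, Set.mem_ofPred_eq]
    refine and_congr_right fun ht => ?_
    have ht' : ∀ i, ‖t i‖ ≤ r := fun i => (ht i).le
    rw [← gramDet_ne_zero_iff, eulerMat_eq X hr.le habs ht', ← ev_gramDet hr.le _ hU ht']
  have hopen : IsOpen {t : ι → ℂ | ∀ i, ‖t i‖ < r} := by
    rw [Set.ofPred_forall]
    exact isOpen_iInter_of_finite fun i =>
      isOpen_lt (continuous_norm.comp (continuous_apply i)) continuous_const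
  refine ⟨r, hr, fun t ht a b c => ?_, ?_, fun t ht => ?_⟩
  · exact (habs a b c).summable fun i => (ht i).le
  · rw [hset]
    have h1 : ContinuousOn (fun t => ev t (gramDet X.flatAlg.U)) {t : ι → ℂ | ∀ i, ‖t i‖ < r} :=
      (ev_continuousOn hΔ).mono fun t ht i => (ht i).le
    have h2 := h1.isOpen_inter_preimage hopen (isOpen_compl_singleton (x := (0 : ℂ)))
    exact h2
  · rw [hset]
    exact ev_dense hr hΔ (gram_ne X h) t ht

end Pool.Agent.CVG
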