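import Pool.Agent.CVG.LineEx
import Pool.Agent.CVG.ConvDefs

/-!
# CVG-Lines: a power series convergent on an open set of lines converges

PLAN. `F_k(v) = ∑_{|m|=k} f_m v^m`. For `N ≥ 1` the sets `X_N = {v ∈ closed ball in Ω : ‖F_k(v)‖ ≤ N^(k+1) ∀ k}`
are closed and cover (each `v ∈ Ω` has a bound `C A^k ≤ N^(k+1)`). Baire
(`nonempty_interior_of_iUnion_of_closed` on the complete space: a closed ball `B ⊆ Ω`, a nonempty compact
set, as a subtype; or apply Baire in `κ → ℂ` to the closed sets `X_N ∪ (complement of the open ball)`...)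
gives a polydisc `{v : |v_i - v⁰_i| ≤ r}` inside some `X_N`. For `w` with `|w_i| ≤ r`, the polynomial
`ζ ↦ F_k(v⁰ + ζ w)` of degree `≤ k` is bounded by `N^(k+1)` on `|ζ| ≤ 1` and its coefficient of `ζ^k` is
`F_k(w)` (homogeneity), so `‖F_k(w)‖ ≤ N^(k+1)` (Cauchy estimate; e.g. average over the `(k+1)`-st roots of
unity, or circle integrals). Then the coefficient `f_m`, `|m| = k`, is the coefficient of the monomial
`w^m` of `F_k`: by iterated averages over roots of unity in each variable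
`‖f_m‖ r^k ≤ sup_{|w_i| = r} ‖F_k(w)‖ ≤ N^(k+1)`.
-/

open scoped BigOperators PowerSeries

namespace Pool.Agent.CVG

private theorem geo {n : ℕ} {ω : ℂ} (hω : IsPrimitiveRoot ω n) (s : ℕ) (h : ¬ n ∣ s) :
    ∑ j ∈ Finset.range n, (ω ^ s) ^ j = 0 := by
  have h1 : ω ^ s ≠ 1 := fun h2 => h ((hω.pow_eq_one_iff_dvd s).mp h2)
  have h2 : (ω ^ s) ^ n = 1 := by
    rw [← pow_mul, mul_comm, pow_mul, hω.pow_eq_one, one_pow]
  rw [geom_sum_eq h1, h2, sub_self, zero_div]

private theorem one_dim {n : ℕ} {ω : ℂ} (hω : IsPrimitiveRoot ω n) (a b : ℕ) (ha : a < n)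
    (hb : b < n) (v r : ℂ) :
    ∑ j ∈ Finset.range n, (ω ^ j) ^ (n - a) * (v + r * ω ^ j) ^ b =
      ∑ t ∈ Finset.range (b + 1), if t = a then
        (n : ℂ) * (r ^ t * v ^ (b - t) * (b.choose t : ℂ)) else 0 := by
  have h1 : ∀ j, (ω ^ j) ^ (n - a) * (v + r * ω ^ j) ^ b =
      ∑ t ∈ Finset.range (b + 1), (r ^ t * v ^ (b - t) * (b.choose t : ℂ)) *
        (ω ^ (n - a + t)) ^ j := by
    intro j
    rw [add_comm v, add_pow, Finset.mul_sum]
    refine Finset.sum_congr rfl fun t _ => ?_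
    have h2 : (ω ^ (n - a + t)) ^ j = (ω ^ j) ^ (n - a) * (ω ^ j) ^ t := by
      rw [← pow_add, ← pow_mul, ← pow_mul, mul_comm]
    rw [h2, mul_pow]
    ring
  simp only [h1]
  rw [Finset.sum_comm]
  refine Finset.sum_congr rfl fun t ht => ?_
  rw [← Finset.mul_sum]
  have htb : t < b + 1 := Finset.mem_range.mp ht
  by_cases hta : t = a
  · rw [if_pos hta]
    have h3 : n - a + t = n := by omega
    rw [h3, hω.pow_eq_one]
    simp only [one_pow]
    rw [Finset.sum_const, Finset.card_range, nsmul_eq_mul, mul_one]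
    ring
  · rw [if_neg hta, geo hω, mul_zero]
    rintro ⟨c, hc⟩
    have h4 : c = 1 := by
      rcases Nat.lt_or_ge c 1 with h5 | h5
      · have h6 : c = 0 := by omega
        rw [h6, mul_zero] at hc
        omega
      · rcases Nat.lt_or_ge 1 c with h7 | h7
        · have h8 : n * 2 ≤ n * c := Nat.mul_le_mul_left n h7
          omega
        · omega
    rw [h4, mul_one] at hc
    omega

private theorem one_dim_gt {n : ℕ} {ω : ℂ} (hω : IsPrimitiveRoot ω n) (a b : ℕ) (ha : a < n)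
    (hb : b < n) (hab : b < a) (v r : ℂ) :
    ∑ j ∈ Finset.range n, (ω ^ j) ^ (n - a) * (v + r * ω ^ j) ^ b = 0 := by
  rw [one_dim hω a b ha hb]
  refine Finset.sum_eq_zero fun t ht => ?_
  have htb : t < b + 1 := Finset.mem_range.mp ht
  rw [if_neg (by omega)]

private theorem one_dim_eq {n : ℕ} {ω : ℂ} (hω : IsPrimitiveRoot ω n) (a : ℕ) (ha : a < n)
    (v r : ℂ) :
    ∑ j ∈ Finset.range n, (ω ^ j) ^ (n - a) * (v + r * ω ^ j) ^ a = (n : ℂ) * r ^ a := by
  rw [one_dim hω a a ha ha, Finset.sum_ite_eq' (Finset.range (a + 1)) a,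
    if_pos (Finset.mem_range.mpr (by omega)), Nat.sub_self, pow_zero, Nat.choose_self]
  simp

private theorem mem_fa' {κ : Type} [Fintype κ] [DecidableEq κ] (m : κ →₀ ℕ) (k : ℕ) :
    m ∈ Finset.finsuppAntidiag Finset.univ k ↔ ∑ i, m i = k := by
  rw [Finset.mem_finsuppAntidiag]
  exact ⟨fun h => h.1, fun h => ⟨h, Finset.subset_univ _⟩⟩

/-- Cauchy formula for the coefficients of the homogeneous parts -/
private theorem cauchy {κ : Type} [Fintype κ] [DecidableEq κ] (f : MvPowerSeries κ ℂ)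
    (v : κ → ℂ) (r : ℂ) (m : κ →₀ ℕ) (k : ℕ) (hk : ∑ i, m i = k) {ω : ℂ}
    (hω : IsPrimitiveRoot ω (k + 1)) :
    ∑ j ∈ Fintype.piFinset (fun _ : κ => Finset.range (k + 1)),
      (∏ i, (ω ^ (j i)) ^ (k + 1 - m i)) *
        PowerSeries.coeff k (line (fun i => v i + r * ω ^ (j i)) f) =
      ((k + 1 : ℕ) : ℂ) ^ Fintype.card κ * r ^ k * MvPowerSeries.coeff m f := by
  have hle : ∀ m' : κ →₀ ℕ, ∑ i, m' i = k → ∀ i, m' i < k + 1 := by
    intro m' hm' i
    have h1 : m' i ≤ ∑ i, m' i := Finset.single_le_sum (f := fun i => m' i)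
      (fun i _ => Nat.zero_le _) (Finset.mem_univ i)
    omega
  have h1 : ∀ j : κ → ℕ, (∏ i, (ω ^ (j i)) ^ (k + 1 - m i)) *
      PowerSeries.coeff k (line (fun i => v i + r * ω ^ (j i)) f) =
      ∑ m' ∈ Finset.finsuppAntidiag Finset.univ k, MvPowerSeries.coeff m' f *
        ∏ i, ((ω ^ (j i)) ^ (k + 1 - m i) * (v i + r * ω ^ (j i)) ^ m' i) := by
    intro j
    rw [coeff_line, Finset.mul_sum]
    refine Finset.sum_congr rfl fun m' _ => ?_
    rw [Finset.prod_mul_distrib]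
    ring
  simp only [h1]
  rw [Finset.sum_comm]
  have h2 : ∀ m' : κ →₀ ℕ, ∑ j ∈ Fintype.piFinset (fun _ : κ => Finset.range (k + 1)),
      MvPowerSeries.coeff m' f *
        ∏ i, ((ω ^ (j i)) ^ (k + 1 - m i) * (v i + r * ω ^ (j i)) ^ m' i) =
      MvPowerSeries.coeff m' f * ∏ i, ∑ j ∈ Finset.range (k + 1),
        ((ω ^ j) ^ (k + 1 - m i) * (v i + r * ω ^ j) ^ m' i) := by
    intro m'
    rw [← Finset.mul_sum, Finset.prod_univ_sum]
  rw [Finset.sum_congr rfl fun m' _ => h2 m', Finset.sum_eq_single m]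
  · have h3 : ∀ i, ∑ j ∈ Finset.range (k + 1),
        ((ω ^ j) ^ (k + 1 - m i) * (v i + r * ω ^ j) ^ m i) = ((k + 1 : ℕ) : ℂ) * r ^ m i :=
      fun i => one_dim_eq hω (m i) (hle m hk i) (v i) r
    rw [Finset.prod_congr rfl fun i _ => h3 i, Finset.prod_mul_distrib, Finset.prod_const,
      Finset.card_univ, Finset.prod_pow_eq_pow_sum, hk]
    ring
  · intro m' hm' hne
    rw [mem_fa'] at hm'
    have h4 : ∃ i, m' i < m i := by
      by_contra hcon
      push Not at hcon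
      apply hne
      ext i
      by_contra h5
      have h6 : ∑ i, m i < ∑ i, m' i := Finset.sum_lt_sum (fun i _ => hcon i)
        ⟨i, Finset.mem_univ i, lt_of_le_of_ne (hcon i) (Ne.symm h5)⟩
      omega
    obtain ⟨i, hi⟩ := h4
    rw [Finset.prod_eq_zero (Finset.mem_univ i)
      (one_dim_gt hω (m i) (m' i) (hle m hk i) (hle m' hm' i) hi (v i) r), mul_zero]
  · intro h
    exact absurd ((mem_fa' m k).mpr hk) h

theorem conv_of_lines {κ : Type} [Fintype κ] [DecidableEq κ] (f : MvPowerSeries κ ℂ)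
    (Ω : Set (κ → ℂ)) (hΩ : IsOpen Ω) (hne : Ω.Nonempty) (h : ∀ v ∈ Ω, ConvPS (line v f)) :
    ConvMv f := by
  have hcont : ∀ k, Continuous fun v : κ → ℂ => PowerSeries.coeff k (line v f) := by
    intro k
    simp only [coeff_line]
    refine continuous_finsetSum _ fun m _ => continuous_const.mul ?_
    exact continuous_finsetProd _ fun i _ => (continuous_apply i).pow _
  have hclosed : ∀ N : ℕ, IsClosed ({v : κ → ℂ | ∀ k,
      ‖PowerSeries.coeff k (line v f)‖ ≤ (N : ℝ) ^ (k + 1)} ∪ Ωᶜ) := by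
    intro N
    refine IsClosed.union ?_ hΩ.isClosed_compl
    have h1 : {v : κ → ℂ | ∀ k, ‖PowerSeries.coeff k (line v f)‖ ≤ (N : ℝ) ^ (k + 1)} =
        ⋂ k, {v : κ → ℂ | ‖PowerSeries.coeff k (line v f)‖ ≤ (N : ℝ) ^ (k + 1)} := by
      ext v
      simp
    rw [h1]
    exact isClosed_iInter fun k => isClosed_le (hcont k).norm continuous_const
  have hcover : ⋃ N : ℕ, ({v : κ → ℂ | ∀ k,
      ‖PowerSeries.coeff k (line v f)‖ ≤ (N : ℝ) ^ (k + 1)} ∪ Ωᶜ) = Set.univ := by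
    rw [Set.eq_univ_iff_forall]
    intro v
    by_cases hv : v ∈ Ω
    · obtain ⟨C, A, hC, hA, hb⟩ := h v hv
      obtain ⟨N, hN⟩ := exists_nat_ge (max C A)
      refine Set.mem_iUnion.mpr ⟨N, Or.inl fun k => ?_⟩
      refine (hb k).trans ?_
      rw [pow_succ']
      exact mul_le_mul ((le_max_left _ _).trans hN)
        (pow_le_pow_left₀ (by linarith) ((le_max_right _ _).trans hN) k)
        (pow_nonneg (by linarith) k) (Nat.cast_nonneg N)
    · exact Set.mem_iUnion.mpr ⟨0, Or.inr hv⟩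
  obtain ⟨v, hv1, hv2⟩ := (dense_iUnion_interior_of_closed hclosed hcover).exists_mem_open hΩ hne
  obtain ⟨N, hN⟩ := Set.mem_iUnion.mp hv1
  have hopen : IsOpen (interior ({v : κ → ℂ | ∀ k,
      ‖PowerSeries.coeff k (line v f)‖ ≤ (N : ℝ) ^ (k + 1)} ∪ Ωᶜ) ∩ Ω) :=
    isOpen_interior.inter hΩ
  obtain ⟨ε, hε, hball⟩ := Metric.isOpen_iff.mp hopen v ⟨hN, hv2⟩
  obtain ⟨r, hr0, hr1, hrε⟩ : ∃ r : ℝ, 0 < r ∧ r ≤ 1 ∧ r < ε :=
    ⟨min 1 (ε / 2), lt_min one_pos (by linarith), min_le_left _ _,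
      lt_of_le_of_lt (min_le_right _ _) (by linarith)⟩
  have hbd : ∀ w : κ → ℂ, ‖w - v‖ ≤ r → ∀ k,
      ‖PowerSeries.coeff k (line w f)‖ ≤ ((N + 1 : ℕ) : ℝ) ^ (k + 1) := by
    intro w hw k
    have h1 : w ∈ Metric.ball v ε := by
      rw [Metric.mem_ball, dist_eq_norm]
      linarith
    have h2 := hball h1
    rcases interior_subset h2.1 with h3 | h3
    · refine (h3 k).trans (pow_le_pow_left₀ (Nat.cast_nonneg N) ?_ _)
      push_cast
      linarith
    · exact absurd h2.2 h3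
  have hN1 : (1 : ℝ) ≤ ((N + 1 : ℕ) : ℝ) := by
    push_cast
    have : (0 : ℝ) ≤ N := Nat.cast_nonneg N
    linarith
  refine ⟨((N + 1 : ℕ) : ℝ), ((N + 1 : ℕ) : ℝ) / r, by linarith, ?_, ?_⟩
  · rw [le_div_iff₀ hr0]
    linarith
  · intro m
    obtain ⟨k, hk⟩ : ∃ k, ∑ i, m i = k := ⟨_, rfl⟩
    have hdeg : m.degree = k := by
      rw [← hk, Finsupp.degree_eq_sum]
    rw [hdeg]
    have hω := Complex.isPrimitiveRoot_exp (k + 1) (Nat.succ_ne_zero k)
    obtain ⟨ω, hωe⟩ : ∃ ω : ℂ, ω = Complex.exp (2 * Real.pi * Complex.I / ((k + 1 : ℕ) : ℂ)) :=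
      ⟨_, rfl⟩
    rw [← hωe] at hω
    have hω1 : ‖ω‖ = 1 := hω.norm'_eq_one (Nat.succ_ne_zero k)
    have h1 := cauchy f v (r : ℂ) m k hk hω
    have h2 := congrArg norm h1
    rw [norm_mul, norm_mul, norm_pow, norm_pow, Complex.norm_natCast, Complex.norm_real,
      Real.norm_eq_abs, abs_of_pos hr0] at h2
    have h3 : ‖∑ j ∈ Fintype.piFinset (fun _ : κ => Finset.range (k + 1)),
        (∏ i, (ω ^ (j i)) ^ (k + 1 - m i)) *
        PowerSeries.coeff k (line (fun i => v i + (r : ℂ) * ω ^ (j i)) f)‖ ≤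
        ((k + 1 : ℕ) : ℝ) ^ Fintype.card κ * ((N + 1 : ℕ) : ℝ) ^ (k + 1) := by
      refine (norm_sum_le _ _).trans ?_
      have h4 : ∀ j ∈ Fintype.piFinset (fun _ : κ => Finset.range (k + 1)),
          ‖(∏ i, (ω ^ (j i)) ^ (k + 1 - m i)) *
          PowerSeries.coeff k (line (fun i => v i + (r : ℂ) * ω ^ (j i)) f)‖ ≤
          ((N + 1 : ℕ) : ℝ) ^ (k + 1) := by
        intro j _
        rw [norm_mul, norm_prod]
        have h5 : ∏ i, ‖(ω ^ (j i)) ^ (k + 1 - m i)‖ = 1 := by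
          refine Finset.prod_eq_one fun i _ => ?_
          rw [norm_pow, norm_pow, hω1, one_pow, one_pow]
        rw [h5, one_mul]
        refine hbd _ ?_ k
        rw [pi_norm_le_iff_of_nonneg hr0.le]
        intro i
        rw [Pi.sub_apply, add_sub_cancel_left, norm_mul, norm_pow, hω1, one_pow, mul_one,
          Complex.norm_real, Real.norm_eq_abs, abs_of_pos hr0]
      refine (Finset.sum_le_sum h4).trans ?_
      rw [Finset.sum_const, Fintype.card_piFinset, Finset.prod_const, Finset.card_range,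
        Finset.card_univ, nsmul_eq_mul, Nat.cast_pow]
    rw [h2] at h3
    have hkpos : (0 : ℝ) < ((k + 1 : ℕ) : ℝ) ^ Fintype.card κ :=
      pow_pos (by exact_mod_cast Nat.succ_pos k) _
    have h6 : r ^ k * ‖MvPowerSeries.coeff m f‖ ≤ ((N + 1 : ℕ) : ℝ) ^ (k + 1) := by
      rw [mul_assoc] at h3
      exact le_of_mul_le_mul_left h3 hkpos
    rw [div_pow, mul_div_assoc', le_div_iff₀ (pow_pos hr0 k), mul_comm]
    rw [pow_succ'] at h6
    exact h6

end Pool.Agent.CVG
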