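import Pool.Agent.CVG.GlueL
import Pool.Agent.CVG.DGauge
import Pool.Agent.CVG.Lines

/-!
# CVG-FlatC: the structure constants of a generically semisimple flat algebra converge

PLAN. `exists_bezout`, `exists_open_lines` for `d` give an open nonempty `Ω`. For `v ∈ Ω`: `exists_curveData`; the matrix
`M = reindex ((F.Cm a).map (line v))` commutes with `D.U` (`U_comm`) and maps `1` to the constant vector `e_a`
(`(F.Cm a) e_one = e_a`): `comm_conv`. So `line v (F.A.m a b k)` converges (`leftMulMatrix_basis`:
`F.Cm a k b = F.A.m a b k`). Conclude with `conv_of_lines`.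
-/

open scoped BigOperators PowerSeries

namespace Pool.Agent.CVG

open Pool.Agent.Helper18.Dub

theorem flat_conv {κ : Type} [Fintype κ] [DecidableEq κ] (F : FlatAlg κ) (h : F.A.disc ≠ 0)
    (a b k : κ) : ConvMv (F.A.m a b k) := by
  obtain ⟨d, pa, pb, hd, hbez⟩ := exists_bezout F h
  obtain ⟨Ω, hΩ, hne, hline⟩ := exists_open_lines d hd
  refine conv_of_lines (F.A.m a b k) Ω hΩ hne fun v hv => ?_
  obtain ⟨D, hDU, hDone⟩ := exists_curveData F d pa pb hbez v (hline v hv)
  let e := Fintype.equivFin κ
  let M : Matrix (Fin (Fintype.card κ)) (Fin (Fintype.card κ)) ℂ⟦X⟧ :=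
    ((F.Cm a).map (line v)).reindex e e
  have hM : ∀ i j, M i j = line v (F.A.m a (e.symm j) (e.symm i)) := by
    intro i j
    have : M i j = line v (F.Cm a (e.symm i) (e.symm j)) := rfl
    rw [this, FlatAlg.Cm, AlgStr.leftMulMatrix_basis]
  have h1 : D.U * M = M * D.U := by
    rw [hDU]
    show ((F.U.map (line v)).submatrix e.symm e.symm) * (((F.Cm a).map (line v)).submatrix e.symm e.symm)
      = (((F.Cm a).map (line v)).submatrix e.symm e.symm) * ((F.U.map (line v)).submatrix e.symm e.symm)
    rw [Matrix.submatrix_mul_equiv, Matrix.submatrix_mul_equiv, ← Matrix.map_mul, ← Matrix.map_mul,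
      F.U_comm]
  have h2 : M.mulVec (fun k => PowerSeries.C (D.one k)) =
      fun i => PowerSeries.C (if a = e.symm i then (1 : ℂ) else 0) := by
    funext i
    rw [Matrix.mulVec, dotProduct, Finset.sum_eq_single (e F.A.one)]
    · rw [hM, hDone]
      show line v (F.A.m a (e.symm (e F.A.one)) (e.symm i)) *
        PowerSeries.C (if e.symm (e F.A.one) = F.A.one then (1 : ℂ) else 0) = _
      rw [Equiv.symm_apply_apply, if_pos rfl, map_one, mul_one, F.A.comm, F.A.one_mul]
      split_ifs <;> simp
    · intro j _ hj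
      rw [hDone]
      show M i j * PowerSeries.C (if e.symm j = F.A.one then (1 : ℂ) else 0) = 0
      rw [if_neg, map_zero, mul_zero]
      intro hj'
      exact hj (by rw [← hj', Equiv.apply_symm_apply])
    · intro h'
      exact absurd (Finset.mem_univ _) h'
  have h3 := D.comm_conv M h1 _ h2 (e k) (e b)
  rw [hM, Equiv.symm_apply_apply, Equiv.symm_apply_apply] at h3
  exact h3

end Pool.Agent.CVG
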