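import Pool.Agent.CVG.HahnDer

/-!
# CVG-GP: the Gauss embeddings

PLAN. The evaluation `KK[X] → LL`, `X ↦ hm a + s^q y` (`y = RatFunc.X`) is injective: write
`P = ∑ p_n (X - a)^n` (`Polynomial.taylor a P`), then the image is `∑_n hm (p_n) * sL (n q) (y^n)`, whose
coefficient at `r` is the polynomial `∑_n cofK p_n (r - n q) * y^n`; it vanishes for all `r` only if all
`p_n = 0`. So it extends to the field of fractions `FK` (`IsFractionRing.lift` for
`Polynomial KK`, `RatFunc KK`, or `RatFunc.liftRingHom`; `FK` is a synonym of `RatFunc KK`).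
-/

open scoped BigOperators

namespace Pool.Agent.CVG

private theorem cofL_zero (r : ℚ) : cofL 0 r = 0 := by
  have h := cofL_add 0 0 r
  rw [add_zero] at h
  have h2 : cofL 0 r + cofL 0 r - cofL 0 r = cofL 0 r - cofL 0 r := by rw [← h]
  simpa using h2

private theorem cofK_zero (r : ℚ) : cofK 0 r = 0 := by
  have h := cofK_add 0 0 r
  rw [add_zero] at h
  have h2 : cofK 0 r + cofK 0 r - cofK 0 r = cofK 0 r - cofK 0 r := by rw [← h]
  simpa using h2

private theorem cofL_sum {α : Type*} (s : Finset α) (f : α → LL) (r : ℚ) :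
    cofL (∑ i ∈ s, f i) r = ∑ i ∈ s, cofL (f i) r := by
  classical
  induction s using Finset.induction_on with
  | empty => rw [Finset.sum_empty, Finset.sum_empty, cofL_zero]
  | insert a s ha ih => rw [Finset.sum_insert ha, Finset.sum_insert ha, cofL_add, ih]

private theorem sL_mul (p q : ℚ) (f g : RatFunc ℂ) : sL p f * sL q g = sL (p + q) (f * g) := by
  apply LL_ext
  intro r
  rw [cofL_sL_mul, cofL_sL, cofL_sL]
  by_cases h : r - p = q
  · rw [if_pos h, if_pos (by linarith)]
  · rw [if_neg h, if_neg (by intro h2; exact h (by linarith)), mul_zero]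

private theorem sL_pow (q : ℚ) (f : RatFunc ℂ) (n : ℕ) : sL q f ^ n = sL (n * q) (f ^ n) := by
  induction n with
  | zero =>
    rw [pow_zero, pow_zero, Nat.cast_zero, zero_mul]
    rfl
  | succ n ih =>
    rw [pow_succ, ih, sL_mul, pow_succ]
    congr 1
    push_cast
    ring

private theorem eval_zero (hm : KK →+* LL)
    (hhm : ∀ (x : KK) (q : ℚ), cofL (hm x) q = RatFunc.C (cofK x q)) (q : ℚ)
    (R : Polynomial KK) (h : Polynomial.eval₂ hm (sL q RatFunc.X) R = 0) : R = 0 := by
  have key : ∀ r : ℚ, ∀ n ∈ Finset.range (R.natDegree + 1), cofK (R.coeff n) (r - n * q) = 0 := by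
    intro r
    have h1 : cofL (Polynomial.eval₂ hm (sL q RatFunc.X) R) r = 0 := by
      rw [h, cofL_zero]
    rw [Polynomial.eval₂_eq_sum_range, cofL_sum] at h1
    have h2 : ∀ n ∈ Finset.range (R.natDegree + 1),
        cofL (hm (R.coeff n) * sL q RatFunc.X ^ n) r =
          algebraMap (Polynomial ℂ) (RatFunc ℂ)
            (Polynomial.monomial n (cofK (R.coeff n) (r - n * q))) := by
      intro n _
      rw [sL_pow, mul_comm, cofL_sL_mul, hhm, ← Polynomial.C_mul_X_pow_eq_monomial, map_mul,
        map_pow, RatFunc.algebraMap_X, RatFunc.algebraMap_C, mul_comm]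
    rw [Finset.sum_congr rfl h2, ← map_sum] at h1
    have h3 : ∑ n ∈ Finset.range (R.natDegree + 1),
        Polynomial.monomial n (cofK (R.coeff n) (r - n * q)) = 0 := by
      apply RatFunc.algebraMap_injective ℂ
      rw [h1, map_zero]
    intro n hn
    have h4 := congrArg (fun p => Polynomial.coeff p n) h3
    simp only [Polynomial.finset_sum_coeff, Polynomial.coeff_monomial, Polynomial.coeff_zero] at h4
    rw [Finset.sum_ite_eq' (Finset.range (R.natDegree + 1)) n
      (fun n => cofK (R.coeff n) (r - n * q)), if_pos hn] at h4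
    exact h4
  ext n
  rw [Polynomial.coeff_zero]
  by_cases hn : n ∈ Finset.range (R.natDegree + 1)
  · apply KK_ext
    intro p
    rw [cofK_zero]
    have h5 := key (p + n * q) n hn
    rwa [add_sub_cancel_right] at h5
  · apply Polynomial.coeff_eq_zero_of_natDegree_lt
    rw [Finset.mem_range] at hn
    omega

theorem exists_gp (hm : KK →+* LL)
    (hhm : ∀ (x : KK) (q : ℚ), cofL (hm x) q = RatFunc.C (cofK x q)) (a : KK) (q : ℚ) :
    ∃ φ : FK →+* LL, (∀ x, φ (CF x) = hm x) ∧ φ lam = hm a + sL q RatFunc.X := by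

  set ev : Polynomial KK →+* LL := Polynomial.eval₂RingHom hm (hm a + sL q RatFunc.X) with hev
  have hinj : Function.Injective ev := by
    rw [injective_iff_map_eq_zero]
    intro P hP
    have h1 : Polynomial.eval₂ hm (sL q RatFunc.X) (Polynomial.taylor a P) = 0 := by
      rw [Polynomial.taylor_apply, Polynomial.eval₂_comp, Polynomial.eval₂_add,
        Polynomial.eval₂_X, Polynomial.eval₂_C, add_comm]
      exact hP
    have h2 := eval_zero hm hhm q _ h1
    apply Polynomial.taylor_injective a
    rw [h2, map_zero]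
  have hX : ev Polynomial.X = hm a + sL q RatFunc.X := by
    rw [hev, Polynomial.coe_eval₂RingHom, Polynomial.eval₂_X]
  have hC : ∀ x, ev (Polynomial.C x) = hm x := by
    intro x
    rw [hev, Polynomial.coe_eval₂RingHom, Polynomial.eval₂_C]
  let φ : RatFunc KK →+* LL := IsFractionRing.lift hinj
  have hφ : ∀ P : Polynomial KK, φ (algebraMap (Polynomial KK) (RatFunc KK) P) = ev P :=
    fun P => IsFractionRing.lift_algebraMap hinj P
  refine ⟨φ, fun x => ?_, ?_⟩
  · rw [← hC x, ← hφ, ← pF_C]
    rfl
  · rw [← hX, ← hφ, ← pF_X]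
    rfl


end Pool.Agent.CVG
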