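import Pool.Agent.CVG.DyDefs

/-!
# CVG-GPD: Gauss embeddings and derivations

PLAN. Let `dLs` (`exists_dLs`) be the exponent derivation of `LL` and `dLy` (`exists_dLy` applied to `dy`) the
coefficientwise `d/dy`. The two sides of each identity are derivations of `FK` with values in `LL` (along
`gp a q`); they agree on constants and on `lam`, hence on polynomials, hence on quotients (`FK_surj`).
* on `CF x`: `gp (CF (dK x)) = hmC (dK x) = dLs (hmC x)`, on `lam`: `hmC (dK a) + q s^q y = dLs (hmC a + s^q y)`.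
* on constants both `0`; on `lam`: `s^q = dLy (hmC a + s^q y)`.
-/

open scoped BigOperators

namespace Pool.Agent.CVG

private theorem cofL_zero' (r : ℚ) : cofL 0 r = 0 := by
  have h := cofL_add 0 0 r
  rw [add_zero] at h
  exact left_eq_add.1 h

/-- a derivation of `FK` and a derivation of `LL` which agree along `φ` on constants and on `λ` agree
along `φ` -/
private theorem phi_ext (φ : FK →+* LL) (D : Derivation ℤ FK FK) (E : Derivation ℤ LL LL)
    (h1 : ∀ x : KK, φ (D (CF x)) = E (φ (CF x))) (h2 : φ (D lam) = E (φ lam)) (f : FK) :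
    φ (D f) = E (φ f) := by
  have hP : ∀ P : Polynomial KK, φ (D (pF P)) = E (φ (pF P)) := by
    intro P
    induction P using Polynomial.induction_on' with
    | add p q hp hq => rw [map_add, map_add, map_add, map_add, map_add, hp, hq]
    | monomial n a =>
      have e : pF (Polynomial.monomial n a) = CF a * lam ^ n := by
        rw [← Polynomial.C_mul_X_pow_eq_monomial, map_mul, map_pow, pF_C, pF_X]
      rw [e, D.leibniz, map_mul φ, E.leibniz, map_pow φ, D.leibniz_pow, E.leibniz_pow, ← h1, ← h2]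
      simp only [smul_eq_mul, map_add, map_mul, map_pow, nsmul_eq_mul, map_natCast]
  obtain ⟨P, Q, hQ, rfl⟩ := FK_surj f
  have hQ0 : pF Q ≠ 0 := by
    intro h
    apply hQ
    apply pF_injective
    rw [h, map_zero]
  have hQ1 : φ (pF Q) ≠ 0 := by
    rw [map_ne_zero]
    exact hQ0
  have e : pF P = (pF P / pF Q) * pF Q := by rw [div_mul_cancel₀ _ hQ0]
  have e1 : φ (D (pF P)) = φ (pF P / pF Q) * φ (D (pF Q)) + φ (pF Q) * φ (D (pF P / pF Q)) := by
    conv_lhs => rw [e]
    rw [D.leibniz, smul_eq_mul, smul_eq_mul, map_add, map_mul, map_mul]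
  have e2 : E (φ (pF P)) = φ (pF P / pF Q) * E (φ (pF Q)) + φ (pF Q) * E (φ (pF P / pF Q)) := by
    conv_lhs => rw [e]
    rw [map_mul, E.leibniz, smul_eq_mul, smul_eq_mul]
  have e3 : φ (pF Q) * φ (D (pF P / pF Q)) = φ (pF Q) * E (φ (pF P / pF Q)) := by
    rw [hP P, e2, hP Q] at e1
    exact (add_left_cancel e1).symm
  exact mul_left_cancel₀ hQ1 e3

theorem gp_DD_g0 (a : KK) (q : ℚ) (f : FK) (p : ℚ) :
    cofL (gp a q (DD (CF (dK a) + (q : FK) * (lam - CF a)) f)) p =
      (p : RatFunc ℂ) * cofL (gp a q f) p := by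
  obtain ⟨E, hE⟩ := exists_dLs
  have hC : ∀ x : KK, hmC (dK x) = E (hmC x) := by
    intro x
    apply LL_ext
    intro r
    rw [hE, cofL_hmC, cofL_hmC, cofK_dK, map_mul, map_ratCast]
  rw [← hE]
  congr 1
  refine phi_ext (gp a q) _ E ?_ ?_ f
  · intro x
    rw [DD_CF, gp_CF, gp_CF, hC]
  · rw [DD_lam, gp_lam, map_add, map_mul, map_sub, gp_CF, gp_CF, gp_lam, add_sub_cancel_left,
      map_ratCast, map_add, hC]
    congr 1
    apply LL_ext
    intro r
    have h1 : ((q : ℚ) : LL) = cL (q : RatFunc ℂ) := (map_ratCast cL q).symm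
    rw [h1, cofL_cL_mul, hE, cofL_sL]
    by_cases h : r = q
    · rw [h]
    · rw [if_neg h, mul_zero, mul_zero]

theorem gp_dlam (a : KK) (q : ℚ) (f : FK) (p : ℚ) :
    cofL (gp a q (CF (sp q) * dlam f)) p = dy (cofL (gp a q f) p) := by
  obtain ⟨E, hE⟩ := exists_dLy dy dy_add dy_mul
  have dy0 : dy 0 = 0 := by
    have h := dy_add 0 0
    rw [add_zero] at h
    exact left_eq_add.1 h
  rw [← hE]
  congr 1
  refine phi_ext (gp a q) (CF (sp q) • dlam) E ?_ ?_ f
  · intro x
    rw [Derivation.smul_apply, dlam_CF, smul_zero, map_zero, gp_CF]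
    apply LL_ext
    intro r
    rw [hE, cofL_hmC, dy_C, cofL_zero']
  · rw [Derivation.smul_apply, dlam_lam, smul_eq_mul, mul_one, gp_CF, gp_lam]
    apply LL_ext
    intro r
    rw [hE, cofL_add, dy_add, cofL_hmC, cofL_hmC, dy_C, zero_add, cofK_sp, cofL_sL]
    by_cases h : r = q
    · rw [if_pos h, if_pos h, dy_X, map_one]
    · rw [if_neg h, if_neg h, dy0, map_zero]

end Pool.Agent.CVG
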