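import Pool.Agent.CVG.GaussA
import Pool.Agent.CVG.DomDefs

/-!
# CVG-GaussD: derivations and Gauss valuations

PLAN. Let `dLs` (`exists_dLs`) be the exponent derivation of `LL` and `dLy` (`exists_dLy` with `exists_dy`) the
coefficientwise `d/dy`. Two derivations of `FK` with values in `LL` (along `gp a q`) agree if they
agree on constants and `lam` (write `f = pF P / pF Q`, or apply the argument of `ratDer_ext`):
* `gp a q (DD g₀ f) = dLs (gp a q f)` for `g₀ = CF (dK a) + q (lam - CF a)`: on `CF x`: both are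
  `hmC (dK x)`; on `lam`: `gp (g₀) = hmC (dK a) + q s^q y = dLs (hmC a + s^q y)`.
* `gp a q (CF (sp q) * dlam f) = dLy (gp a q f)`: on constants both are `0`; on `lam`:
  `s^q = dLy (hmC a + s^q y)`.
`dLs` and `dLy` do not decrease `vL`; `vL (dLs x) = vL x` if `vL x ≠ 0`. For general `g = g₀ + h`,
`Ge (gv a q) q h`: `DD g = DD g₀ + (h / s^q) (s^q dlam)`.
-/

open scoped BigOperators

namespace Pool.Agent.CVG

/-- the polynomial vector field adapted to the disc with centre `a` and radius exponent `q` -/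
noncomputable def g0 (a : KK) (q : ℚ) : FK := CF (dK a) + (q : FK) * (lam - CF a)

/-- two derivations which agree along a ring homomorphism on constants and on `lam` agree -/
private theorem along (φ : FK →+* LL) (D1 : Derivation ℤ FK FK) (D2 : Derivation ℤ LL LL)
    (h1 : ∀ x : KK, φ (D1 (CF x)) = D2 (φ (CF x))) (h2 : φ (D1 lam) = D2 (φ lam)) (f : FK) :
    φ (D1 f) = D2 (φ f) := by
  have hmul : ∀ x y : FK, φ (D1 x) = D2 (φ x) → φ (D1 y) = D2 (φ y) →
      φ (D1 (x * y)) = D2 (φ (x * y)) := by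
    intro x y hx hy
    rw [Derivation.leibniz, map_mul, Derivation.leibniz, map_add, smul_eq_mul, smul_eq_mul,
      map_mul, map_mul, hx, hy, smul_eq_mul, smul_eq_mul]
  have hadd : ∀ x y : FK, φ (D1 x) = D2 (φ x) → φ (D1 y) = D2 (φ y) →
      φ (D1 (x + y)) = D2 (φ (x + y)) := by
    intro x y hx hy
    rw [map_add, map_add, map_add, map_add, hx, hy]
  have hP : ∀ P : Polynomial KK, φ (D1 (pF P)) = D2 (φ (pF P)) := by
    intro P
    induction P using Polynomial.induction_on with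
    | C x => rw [pF_C]; exact h1 x
    | add P Q hP hQ => rw [map_add pF]; exact hadd _ _ hP hQ
    | monomial n x ih =>
      rw [pow_succ, ← mul_assoc, map_mul pF, pF_X]
      exact hmul _ _ ih h2
  obtain ⟨P, Q, hQ, hf⟩ := FK_surj f
  have hQ0 : pF Q ≠ 0 := by
    intro h
    apply hQ
    apply pF_injective
    rw [h, map_zero]
  have hfQ : f * pF Q = pF P := by rw [hf, div_mul_cancel₀ _ hQ0]
  have e1 : φ (D1 (f * pF Q)) = D2 (φ (f * pF Q)) := by rw [hfQ]; exact hP P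
  rw [Derivation.leibniz, map_mul, Derivation.leibniz, map_add, smul_eq_mul, smul_eq_mul,
      map_mul, map_mul, hP Q, smul_eq_mul, smul_eq_mul] at e1
  have hφQ : φ (pF Q) ≠ 0 := by
    intro h
    apply hQ0
    apply φ.injective
    rw [h, map_zero]
  exact mul_left_cancel₀ hφQ (add_left_cancel e1)

private theorem LLrat (r : ℚ) (x : LL) (t : ℚ) :
    cofL ((r : LL) * x) t = (r : RatFunc ℂ) * cofL x t := by
  rw [← map_ratCast cL r, cofL_cL_mul]

private theorem exists_A (a : KK) (q : ℚ) : ∃ δ : Derivation ℤ LL LL,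
    (∀ (x : LL) (t : ℚ), cofL (δ x) t = (t : RatFunc ℂ) * cofL x t) ∧
    ∀ f, gp a q (DD (g0 a q) f) = δ (gp a q f) := by
  obtain ⟨δ, hδ⟩ := exists_dLs
  have hhm : ∀ x : KK, δ (hmC x) = hmC (dK x) := by
    intro x
    apply LL_ext
    intro t
    rw [hδ, cofL_hmC, cofL_hmC, cofK_dK, map_mul]
    congr 1
    exact (map_ratCast (RatFunc.C : ℂ →+* RatFunc ℂ) t).symm
  refine ⟨δ, hδ, along _ _ _ (fun x => ?_) ?_⟩
  · rw [DD_CF, gp_CF, gp_CF, hhm]
  · rw [DD_lam, g0, map_add, gp_CF, map_mul, map_ratCast, map_sub, gp_CF, gp_lam, map_add, hhm]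
    congr 1
    apply LL_ext
    intro t
    rw [add_sub_cancel_left, LLrat, hδ, cofL_sL]
    by_cases h : t = q
    · rw [h]
    · rw [if_neg h, mul_zero, mul_zero]

private theorem exists_B (a : KK) (q : ℚ) : ∃ (d : RatFunc ℂ → RatFunc ℂ) (δ : Derivation ℤ LL LL),
    d 0 = 0 ∧ (∀ (r : ℚ) (f : RatFunc ℂ), d ((r : RatFunc ℂ) * f) = (r : RatFunc ℂ) * d f) ∧
    (∀ (x : LL) (t : ℚ), cofL (δ x) t = d (cofL x t)) ∧
    ∀ f, gp a q ((CF (sp q) • dlam) f) = δ (gp a q f) := by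
  obtain ⟨d, h1, h2, h3, h4⟩ := exists_dy
  obtain ⟨δ, hδ⟩ := exists_dLy d h1 h2
  have h0 : d 0 = 0 := by
    have h := h3 0
    rwa [map_zero] at h
  have hhm : ∀ x : KK, δ (hmC x) = 0 := by
    intro x
    apply LL_ext
    intro t
    rw [hδ, cofL_hmC, h3]
    exact (HahnSeries.coeff_zero).symm
  refine ⟨d, δ, h0, fun r f => ?_, hδ, along _ _ _ (fun x => ?_) ?_⟩
  · rw [h2, ← map_ratCast (RatFunc.C : ℂ →+* RatFunc ℂ) r, h3, zero_mul, zero_add]
  · rw [Derivation.smul_apply, dlam_CF, smul_zero, map_zero, gp_CF, hhm]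
  · rw [Derivation.smul_apply, dlam_lam, smul_eq_mul, mul_one, gp_CF, gp_lam, map_add, hhm,
      zero_add]
    apply LL_ext
    intro t
    rw [hδ, cofL_hmC, cofL_sL, cofK_sp]
    by_cases h : t = q
    · rw [if_pos h, if_pos h, h4, map_one]
    · rw [if_neg h, if_neg h, h0, map_zero]

private theorem gv_CF_sp (a : KK) (q r : ℚ) : gv a q (CF (sp r)) = (r : WithTop ℚ) := by
  rw [gv_CF, vK_sp]

private theorem derGe_B (a : KK) (q : ℚ) : DerGe (gv a q) (CF (sp q) • dlam) := by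
  obtain ⟨d, δ, h0, _, hδ, hφ⟩ := exists_B a q
  intro c f hf
  have hf' : Ge vL c (gp a q f) := hf
  show Ge vL c (gp a q ((CF (sp q) • dlam) f))
  rw [hφ, Ge_vL_iff]
  intro t ht
  rw [hδ, Ge_vL_iff.1 hf' t ht, h0]

private theorem derGe_A (a : KK) (q : ℚ) : DerGe (gv a q) (DD (g0 a q)) := by
  obtain ⟨δ, hδ, hφ⟩ := exists_A a q
  intro c f hf
  have hf' : Ge vL c (gp a q f) := hf
  show Ge vL c (gp a q (DD (g0 a q) f))
  rw [hφ, Ge_vL_iff]
  intro t ht
  rw [hδ, Ge_vL_iff.1 hf' t ht, mul_zero]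

theorem derGe_dlam (a : KK) (q : ℚ) (h : FK) (hh : Ge (gv a q) q h) :
    DerGe (gv a q) (h • dlam) := by
  intro c f hf
  have hs0 : CF (sp q) ≠ 0 := by
    intro h0
    have h1 := gv_CF_sp a q q
    rw [h0, (gv a q).map_zero] at h1
    exact WithTop.coe_ne_top h1.symm
  have hu : Ge (gv a q) 0 (h / CF (sp q)) := by
    have h1 : h = h / CF (sp q) * CF (sp q) := (div_mul_cancel₀ _ hs0).symm
    rw [Ge, h1, (gv a q).map_mul, gv_CF_sp] at hh
    have h2 : (q : WithTop ℚ) + ((0 : ℚ) : WithTop ℚ) ≤ (q : WithTop ℚ) + gv a q (h / CF (sp q)) := by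
      rw [← WithTop.coe_add, add_zero, add_comm]
      exact hh
    exact (WithTop.add_le_add_iff_left WithTop.coe_ne_top).1 h2
  have h3 := hu.mul (derGe_B a q c f hf)
  rw [zero_add] at h3
  have h4 : h / CF (sp q) * (CF (sp q) • dlam) f = (h • dlam) f := by
    rw [Derivation.smul_apply, Derivation.smul_apply, smul_eq_mul, smul_eq_mul, ← mul_assoc,
      div_mul_cancel₀ _ hs0]
  rw [← h4]
  exact h3

theorem derGe_DD (a : KK) (q : ℚ) (g : FK) (hg : Ge (gv a q) q (g - g0 a q)) :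
    DerGe (gv a q) (DD g) := by
  intro c f hf
  have h1 : DD g f = DD (g0 a q) f + ((g - g0 a q) • dlam) f := by
    rw [DD_apply, DD_apply, Derivation.smul_apply, smul_eq_mul]
    ring
  rw [h1]
  exact (derGe_A a q c f hf).add (derGe_dlam a q _ hg c f hf)

private theorem vL_ne (x : LL) (r : ℚ) (h : vL x = (r : WithTop ℚ)) : cofL x r ≠ 0 := by
  have h1 : HahnSeries.addVal ℚ (RatFunc ℂ) x = (r : WithTop ℚ) := h
  rw [HahnSeries.addVal_apply] at h1
  exact HahnSeries.coeff_orderTop_ne h1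

private theorem vL_eq (x : LL) (r : ℚ) (h : Ge vL r x) (h' : cofL x r ≠ 0) :
    vL x = (r : WithTop ℚ) := by
  refine le_antisymm ?_ h
  by_contra hc
  rw [not_le] at hc
  have h1 : (r : WithTop ℚ) < HahnSeries.orderTop (Γ := ℚ) (R := RatFunc ℂ) x := by
    have h2 : (r : WithTop ℚ) < HahnSeries.addVal ℚ (RatFunc ℂ) x := hc
    rwa [HahnSeries.addVal_apply] at h2
  exact h' (HahnSeries.coeff_eq_zero_of_lt_orderTop h1)

theorem gv_DD_eq (a : KK) (q : ℚ) (f : FK) (h : gv a q f ≠ ((0 : ℚ) : WithTop ℚ)) :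
    gv a q (DD (g0 a q) f) = gv a q f := by
  obtain ⟨δ, hδ, hφ⟩ := exists_A a q
  rw [gv_apply, gv_apply, hφ]
  rw [gv_apply] at h
  by_cases hx : gp a q f = 0
  · rw [hx, map_zero]
  have h1 : vL (gp a q f) ≠ ⊤ := fun h2 => hx ((AddValuation.top_iff vL).1 h2)
  obtain ⟨r, hr⟩ := WithTop.ne_top_iff_exists.1 h1
  have hr0 : r ≠ 0 := by
    intro h0
    apply h
    rw [← hr, h0]
  have hne := vL_ne _ r hr.symm
  have hge : Ge vL r (gp a q f) := le_of_eq hr
  rw [← hr]
  refine vL_eq _ r ?_ ?_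
  · rw [Ge_vL_iff]
    intro t ht
    rw [hδ, Ge_vL_iff.1 hge t ht, mul_zero]
  · rw [hδ]
    exact mul_ne_zero (by exact_mod_cast hr0) hne

/-- the hypotheses of the domination lemma -/
theorem domHyp_gv (a : KK) (q : ℚ) :
    DomHyp (gv a q) (fun r => CF (sp r)) (DD (g0 a q)) (CF (sp q) • dlam) where
  v_sp r := gv_CF_sp a q r
  sp_add p r := by
    show CF (sp (p + r)) = CF (sp p) * CF (sp r)
    rw [sp_add, map_mul]
  sp_zero := by
    show CF (sp 0) = 1
    rw [sp_zero, map_one]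
  D_sp r := by
    show DD (g0 a q) (CF (sp r)) = (r : FK) * CF (sp r)
    rw [DD_CF, dK_sp, map_mul, CF_ratCast]
  dd_sp r := by
    show (CF (sp q) • dlam) (CF (sp r)) = 0
    rw [Derivation.smul_apply, dlam_CF, smul_zero]
  D_ge := derGe_A a q
  dd_ge := derGe_B a q
  D_eq f h := gv_DD_eq a q f h
  v_nat k hk := gv_natCast a q k hk
  comm f := by
    obtain ⟨δ, hδ, hφ⟩ := exists_A a q
    obtain ⟨d, δ', h0, hr, hδ', hφ'⟩ := exists_B a q
    apply (gp a q).injective
    rw [hφ, hφ', hφ', hφ]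
    apply LL_ext
    intro t
    rw [hδ, hδ', hδ', hδ, hr]
  dd_ne := by
    intro h0
    have h1 : (CF (sp q) • dlam) lam = 0 := by rw [h0]; rfl
    rw [Derivation.smul_apply, dlam_lam, smul_eq_mul, mul_one] at h1
    have h2 := gv_CF_sp a q q
    rw [h1, (gv a q).map_zero] at h2
    exact WithTop.coe_ne_top h2.symm

end Pool.Agent.CVG
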