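import Pool.Agent.CVG.Distinct
import Pool.Agent.CVG.LineEx
import Pool.Agent.CVG.Curve

/-!
# CVG-GlueL: restriction of a flat algebra to a line

PLAN. Let `φ = line v`, `e = Fintype.equivFin κ`, `U = reindex (F.U.map φ)`, `Cv = ∑_a v_a • reindex ((F.Cm a).map φ)`,
`th = reindex (diagonal F.p)`, `one` = indicator of `F.A.one`, `v' = v ∘ e.symm`. `hU`: `line_pderiv` entrywise and
`F.map_pderiv_U` (`F.P = diagonal (C ∘ p)`, `line_C`). `hc`: `F.U_comm`. `h1`: `(F.Cm a) e_one = e_a`
(`leftMulMatrix`, `basis_one`: `(F.Cm a k one) = (e_a * 1)_k`). `hsep`: apply `φ` to the Bezout relation,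
`Matrix.charpoly_map`, `Matrix.charpoly_reindex`, `φ d ≠ 0`. `hcyc`: over the fraction field `Q` of `ℂ⟦X⟧` the matrix `U`
has separable characteristic polynomial, so its minimal polynomial is its characteristic polynomial and
`1, U, .., U^(N-1)` are linearly independent over `Q`. If `∑ c_k U^k 1 = 0` then, since `U` is the matrix of
multiplication by `E` in the commutative algebra `A' = F.A.map φ` (over `Q`), `∑ c_k E^k = 0` in the algebra, so
`∑ c_k U^k = 0`, `c = 0`. (`U^k e_one` is the coordinate vector of `E^k`.) So the determinant is nonzero.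
-/

open scoped BigOperators PowerSeries

namespace Pool.Agent.CVG

open Pool.Agent.Helper18.Dub

/-- a polynomial of degree `< N` vanishing on a matrix with `N` different eigenvalues is zero -/
private theorem poly_zero_of_sep {κ : Type} [Fintype κ] [DecidableEq κ] {R : Type} [CommRing R]
    [IsDomain R] (M : Matrix κ κ R) (d : R) (a b : Polynomial R) (hd : d ≠ 0)
    (h : a * M.charpoly + b * Polynomial.derivative M.charpoly = Polynomial.C d)
    (q : Polynomial R) (hq : Polynomial.aeval M q = 0) (hdeg : q.degree < Fintype.card κ) :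
    q = 0 := by
  set Ω := AlgebraicClosure (FractionRing R) with hΩ
  set ψ : R →+* Ω := (algebraMap (FractionRing R) Ω).comp (algebraMap R (FractionRing R)) with hψ
  have hψi : Function.Injective ψ :=
    (algebraMap (FractionRing R) Ω).injective.comp (IsFractionRing.injective R (FractionRing R))
  by_contra hq0
  have hq0' : q.map ψ ≠ 0 := (Polynomial.map_ne_zero_iff hψi).2 hq0
  have hsep : (M.charpoly.map ψ).Separable := by
    rw [Polynomial.separable_def']
    refine ⟨Polynomial.C (ψ d)⁻¹ * a.map ψ, Polynomial.C (ψ d)⁻¹ * b.map ψ, ?_⟩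
    have h1 := congrArg (Polynomial.map ψ) h
    rw [Polynomial.map_add, Polynomial.map_mul, Polynomial.map_mul, Polynomial.map_C,
      ← Polynomial.derivative_map] at h1
    have h2 : ψ d ≠ 0 := fun h0 => hd ((map_eq_zero_iff ψ hψi).1 h0)
    rw [mul_assoc, mul_assoc, ← mul_add, h1, ← Polynomial.C_mul, inv_mul_cancel₀ h2,
      Polynomial.C_1]
  have hcard : Multiset.card (M.charpoly.map ψ).roots = Fintype.card κ := by
    rw [Polynomial.splits_iff_card_roots.1 (IsAlgClosed.splits _),
      Polynomial.natDegree_map_eq_of_injective hψi, M.charpoly_natDegree_eq_dim]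
  have hsub : (M.charpoly.map ψ).roots ≤ (q.map ψ).roots := by
    rw [Multiset.le_iff_subset (Polynomial.nodup_roots hsep)]
    intro z hz
    rw [Polynomial.mem_roots hq0']
    have h1 : (M.charpoly.map ψ).IsRoot z := Polynomial.isRoot_of_mem_roots hz
    rw [← Matrix.charpoly_map, Polynomial.IsRoot.def, Matrix.eval_charpoly] at h1
    obtain ⟨w, hw0, hw⟩ := Matrix.exists_mulVec_eq_zero_iff.2 h1
    have h2 : (M.map ψ).mulVec w = z • w := by
      rw [Matrix.sub_mulVec, sub_eq_zero] at hw
      rw [← hw]
      funext i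
      rw [Matrix.scalar_apply, Matrix.mulVec_diagonal]
      rfl
    have h3 : Polynomial.aeval (M.map ψ) (q.map ψ) = 0 := by
      have h4 := Polynomial.map_aeval_eq_aeval_map (R := R) (S := Matrix κ κ R) (T := Ω)
        (U := Matrix κ κ Ω) (φ := ψ) (ψ := ψ.mapMatrix) (by
          ext1 r
          show algebraMap Ω (Matrix κ κ Ω) (ψ r) = (algebraMap R (Matrix κ κ R) r).map ψ
          funext i j
          rw [Matrix.map_apply, Matrix.algebraMap_matrix_apply, Matrix.algebraMap_matrix_apply]
          split_ifs
          · rfl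
          · exact (map_zero ψ).symm) q M
      rw [hq, map_zero] at h4
      exact h4.symm
    have h5 : ∀ p : Polynomial Ω, (Polynomial.aeval (M.map ψ) p).mulVec w = p.eval z • w := by
      intro p
      induction p using Polynomial.induction_on' with
      | add p1 p2 ih1 ih2 =>
        rw [map_add, Matrix.add_mulVec, ih1, ih2, Polynomial.eval_add, add_smul]
      | monomial m c =>
        rw [Polynomial.aeval_monomial, Algebra.algebraMap_eq_smul_one, smul_mul_assoc, one_mul,
          Matrix.smul_mulVec, Polynomial.eval_monomial, mul_smul]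
        congr 1
        induction m with
        | zero => rw [pow_zero, pow_zero, Matrix.one_mulVec, one_smul]
        | succ m ih =>
          rw [pow_succ, ← Matrix.mulVec_mulVec, h2, Matrix.mulVec_smul, ih, smul_smul, pow_succ,
            mul_comm]
    have h6 := h5 (q.map ψ)
    rw [h3, Matrix.zero_mulVec] at h6
    rcases smul_eq_zero.1 h6.symm with h7 | h7
    · exact h7
    · exact absurd h7 hw0
  have h1 := Multiset.card_le_card hsub
  rw [hcard] at h1
  have h2 := Polynomial.card_roots' (q.map ψ)
  rw [Polynomial.natDegree_map_eq_of_injective hψi] at h2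
  have h3 := (Polynomial.natDegree_lt_iff_degree_lt hq0).2 hdeg
  omega

/-- the matrix of `E` over the line -/
private theorem line_U_apply {κ : Type} [Fintype κ] [DecidableEq κ] (F : FlatAlg κ)
    {K : Type} [CommRing K] (φ : MvPowerSeries κ ℂ →+* K) :
    F.U.map φ = Algebra.leftMulMatrix (F.A.map φ).basis (F.A.mapHom φ F.E) := by
  have hb : ∀ b, F.A.mapHom φ (F.A.basis b) = (F.A.map φ).basis b := by
    intro b
    funext k
    rw [AlgStr.mapHom_apply, AlgStr.basis_apply, AlgStr.basis_apply]
    split_ifs
    · exact map_one φ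
    · exact map_zero φ
  ext1 k b
  rw [Matrix.map_apply, FlatAlg.U, Algebra.leftMulMatrix_eq_repr_mul, AlgStr.basis_repr,
    Algebra.leftMulMatrix_eq_repr_mul, AlgStr.basis_repr, ← hb, ← map_mul,
    AlgStr.mapHom_apply]

/-- the powers of `U` applied to the unit vector -/
private theorem pow_one_apply {κ : Type} [Fintype κ] [DecidableEq κ] (F : FlatAlg κ)
    {K : Type} [CommRing K] (φ : MvPowerSeries κ ℂ →+* K) (k : ℕ)
    (i : Fin (Fintype.card κ)) :
    ((((F.U.map φ).reindex (Fintype.equivFin κ) (Fintype.equivFin κ)) ^ k).mulVec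
      (fun l => if (Fintype.equivFin κ).symm l = F.A.one then (1 : K) else 0)) i =
      ((F.A.mapHom φ F.E) ^ k) ((Fintype.equivFin κ).symm i) := by
  induction k generalizing i with
  | zero =>
    rw [pow_zero, pow_zero, Matrix.one_mulVec, AlgStr.one_apply]
    by_cases h : (Fintype.equivFin κ).symm i = F.A.one
    · rw [if_pos h, if_pos (show (F.A.map φ).one = (Fintype.equivFin κ).symm i from h.symm)]
    · rw [if_neg h, if_neg (show ¬ (F.A.map φ).one = (Fintype.equivFin κ).symm i from
        fun h' => h h'.symm)]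
  | succ k ih =>
    rw [pow_succ', ← Matrix.mulVec_mulVec, pow_succ']
    have h1 := congrFun (Algebra.leftMulMatrix_mulVec_repr (F.A.map φ).basis (F.A.mapHom φ F.E)
      ((F.A.mapHom φ F.E) ^ k)) ((Fintype.equivFin κ).symm i)
    rw [AlgStr.basis_repr, ← line_U_apply] at h1
    rw [← h1, Matrix.mulVec, Matrix.mulVec, dotProduct, dotProduct]
    refine Fintype.sum_equiv (Fintype.equivFin κ).symm _ _ fun j => ?_
    rw [ih, AlgStr.basis_repr]
    rfl

theorem exists_curveData {κ : Type} [Fintype κ] [DecidableEq κ] (F : FlatAlg κ)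
    (d : MvPowerSeries κ ℂ) (a b : Polynomial (MvPowerSeries κ ℂ))
    (h : a * F.U.charpoly + b * Polynomial.derivative F.U.charpoly = Polynomial.C d)
    (v : κ → ℂ) (hv : line v d ≠ 0) :
    ∃ D : CurveData (Fintype.card κ),
      D.U = (F.U.map (line v)).reindex (Fintype.equivFin κ) (Fintype.equivFin κ) ∧
      D.one = fun i => if (Fintype.equivFin κ).symm i = F.A.one then 1 else 0 := by
  set φ := line v with hφ
  set σ := Fintype.equivFin κ with hσ
  -- the matrix `Cv` over `κ`
  set Ck : Matrix κ κ ℂ⟦X⟧ := ∑ c, (PowerSeries.C (v c)) • (F.Cm c).map φ with hCk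
  have hCk_apply : ∀ k b, Ck k b = ∑ c, PowerSeries.C (v c) * φ (F.Cm c k b) := by
    intro k b
    rw [hCk, Matrix.sum_apply]
    rfl
  have hder : ∀ k b, PowerSeries.derivative ℂ (φ (F.U k b)) =
      Ck k b + (Ck k b * PowerSeries.C (F.p b) - PowerSeries.C (F.p k) * Ck k b) := by
    intro k b
    have h1 : ∀ c, MvPowerSeries.pderiv ℂ c (F.U k b) = F.Cm c k b +
        (F.Cm c k b * MvPowerSeries.C (F.p b) - MvPowerSeries.C (F.p k) * F.Cm c k b) := by
      intro c
      have h2 := congrFun (congrFun (F.map_pderiv_U c) k) b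
      rw [Matrix.map_apply, Matrix.sub_apply, Matrix.add_apply, FlatAlg.P, Matrix.mul_diagonal,
        Matrix.diagonal_mul] at h2
      rw [h2]
      ring
    rw [hφ, line_pderiv, hCk_apply, Finset.sum_mul, Finset.mul_sum, ← Finset.sum_sub_distrib,
      ← Finset.sum_add_distrib]
    refine Finset.sum_congr rfl fun c _ => ?_
    rw [h1, map_add, map_sub, map_mul, map_mul, line_C, line_C]
    ring
  have hcomm : (F.U.map φ) * Ck = Ck * (F.U.map φ) := by
    rw [hCk, Matrix.mul_sum, Matrix.sum_mul]
    refine Finset.sum_congr rfl fun c _ => ?_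
    rw [Matrix.mul_smul, Matrix.smul_mul, ← Matrix.map_mul, ← Matrix.map_mul, F.U_comm]
  have hCone : ∀ k, Ck k F.A.one = PowerSeries.C (v k) := by
    intro k
    rw [hCk_apply, Finset.sum_eq_single k]
    · rw [FlatAlg.Cm, AlgStr.leftMulMatrix_basis, F.A.comm, F.A.one_mul, if_pos rfl, map_one,
        mul_one]
    · intro c _ hc
      rw [FlatAlg.Cm, AlgStr.leftMulMatrix_basis, F.A.comm, F.A.one_mul, if_neg hc, map_zero,
        mul_zero]
    · intro hk
      exact absurd (Finset.mem_univ k) hk
  have hbez : a.map φ * (F.U.map φ).charpoly + b.map φ *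
      Polynomial.derivative (F.U.map φ).charpoly = Polynomial.C (φ d) := by
    have h1 := congrArg (Polynomial.map φ) h
    rw [Polynomial.map_add, Polynomial.map_mul, Polynomial.map_mul, Polynomial.map_C,
      ← Polynomial.derivative_map, ← Matrix.charpoly_map] at h1
    exact h1
  have hone : ∀ l, PowerSeries.C (if σ.symm l = F.A.one then (1 : ℂ) else 0) =
      if σ.symm l = F.A.one then (1 : ℂ⟦X⟧) else 0 := by
    intro l
    split_ifs
    · exact map_one _
    · exact map_zero _
  refine ⟨{ U := (F.U.map φ).reindex σ σ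
            Cv := Ck.reindex σ σ
            th := Matrix.diagonal fun i => F.p (σ.symm i)
            one := fun i => if σ.symm i = F.A.one then 1 else 0
            v := fun i => v (σ.symm i)
            hU := ?_
            hc := ?_
            h1 := ?_
            hsep := ⟨φ d, a.map φ, b.map φ, hv, ?_⟩
            hcyc := ?_ }, rfl, rfl⟩
  · rw [Matrix.diagonal_map (map_zero _)]
    ext1 i j
    rw [Matrix.add_apply, Matrix.sub_apply, Matrix.mul_diagonal, Matrix.diagonal_mul]
    exact hder (σ.symm i) (σ.symm j)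
  · rw [Matrix.reindex_apply, Matrix.reindex_apply, Matrix.submatrix_mul_equiv,
      Matrix.submatrix_mul_equiv, hcomm]
  · funext i
    rw [Matrix.mulVec, dotProduct, Finset.sum_eq_single (σ F.A.one)]
    · rw [hone, if_pos (σ.symm_apply_apply _), mul_one, Matrix.reindex_apply,
        Matrix.submatrix_apply, σ.symm_apply_apply, hCone]
    · intro j _ hj
      rw [hone, if_neg (fun h' => hj (by rw [← h', σ.apply_symm_apply])), mul_zero]
    · intro hk
      exact absurd (Finset.mem_univ _) hk
  · rw [Matrix.charpoly_reindex]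
    exact hbez
  · intro hdet
    obtain ⟨c, hc0, hc⟩ := Matrix.exists_mulVec_eq_zero_iff.2 hdet
    set x := F.A.mapHom φ F.E with hx
    set q : Polynomial ℂ⟦X⟧ := ∑ k : Fin (Fintype.card κ), Polynomial.C (c k) *
      Polynomial.X ^ (k : ℕ) with hq
    have h1 : Polynomial.aeval x q = 0 := by
      rw [hq, map_sum]
      funext k
      have h2 := congrFun hc (σ k)
      rw [Matrix.mulVec, dotProduct, Pi.zero_apply] at h2
      rw [AlgStr.zero_apply, ← h2]
      have h3 : ∀ (s : Finset (Fin (Fintype.card κ)))
          (f : Fin (Fintype.card κ) → (F.A.map φ).Carrier), (∑ l ∈ s, f l) k = ∑ l ∈ s, f l k := by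
        intro s f
        exact Finset.sum_apply k s f
      rw [h3]
      refine Finset.sum_congr rfl fun l _ => ?_
      rw [map_mul, Polynomial.aeval_C, map_pow, Polynomial.aeval_X,
        Algebra.algebraMap_eq_smul_one, smul_mul_assoc, one_mul, AlgStr.smul_apply,
        Matrix.of_apply]
      have h4 := pow_one_apply F φ (l : ℕ) (σ k)
      rw [σ.symm_apply_apply] at h4
      simp only [hone]
      rw [mul_comm, h4]
    have h2 : Polynomial.aeval (F.U.map φ) q = 0 := by
      rw [line_U_apply, Polynomial.aeval_algHom_apply, h1, map_zero]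
    have h3 : q.degree < Fintype.card κ := by
      rw [hq]
      refine lt_of_le_of_lt (Polynomial.degree_sum_le _ _) ?_
      rw [Finset.sup_lt_iff (by exact WithBot.bot_lt_coe _)]
      intro l _
      exact lt_of_le_of_lt (Polynomial.degree_C_mul_X_pow_le _ _) (by exact_mod_cast l.2)
    have h4 := poly_zero_of_sep (F.U.map φ) (φ d) (a.map φ) (b.map φ) hv hbez q h2 h3
    refine hc0 ?_
    funext l
    have h5 := congrArg (fun p => Polynomial.coeff p (l : ℕ)) h4
    simp only [hq, Polynomial.finsetSum_coeff, Polynomial.coeff_C_mul, Polynomial.coeff_X_pow,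
      Polynomial.coeff_zero] at h5
    rw [Finset.sum_eq_single l] at h5
    · rw [if_pos rfl, mul_one] at h5
      exact h5
    · intro m _ hm
      rw [if_neg (fun h' => hm (Fin.ext h'.symm)), mul_zero]
    · intro hl
      exact absurd (Finset.mem_univ l) hl

end Pool.Agent.CVG
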