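import Pool.Agent.CVG.Fields

/-!
# CVG-RatDer: derivations of `FK = KK(λ)` extending a derivation of `KK`

PLAN. `exists_ratDer`: general for a field `K` and `RatFunc K`: the ring homomorphism
`K[X] → TrivSqZeroExt (RatFunc K) (RatFunc K)`, `P ↦ inl P + inr (P^d + P' g)` (`eval₂` of
`a ↦ inl (C a) + inr (C (d a))`, `X ↦ inl X + inr g`) sends nonzero polynomials to units
(`TrivSqZeroExt.isUnit_iff_isUnit_fst`), so it extends to `RatFunc K` (`IsLocalization.lift` for
`nonZeroDivisors K[X]`); its second component is the derivation (the first is the identity). Or define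
`D f = (D num * den - num * D den) / den^2` by hand.
`ratDer_ext`: agree on `CF a`, `lam`, hence on polynomials, hence on quotients (`FK_surj`;
`D (f/g) = (D f - (f/g) D g)/g`).
`exists_dy`: the derivation `d/dy` of `RatFunc ℂ`.
-/

open scoped BigOperators

namespace Pool.Agent.CVG

open TrivSqZeroExt in
/-- the homomorphism `a ↦ p (C a) + ε p (C (d a))` on the constants -/
private noncomputable def psi {K F : Type} [Field K] [Field F] [Algebra (Polynomial K) F]
    (d : K → K) (ha : ∀ x y, d (x + y) = d x + d y) (hm : ∀ x y, d (x * y) = x * d y + y * d x) :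
    K →+* TrivSqZeroExt F F where
  toFun a := inl (algebraMap (Polynomial K) F (Polynomial.C a)) +
    inr (algebraMap (Polynomial K) F (Polynomial.C (d a)))
  map_one' := by
    have h1 : d 1 = 0 := by
      have := hm 1 1
      rw [mul_one, one_mul] at this
      exact left_eq_add.1 this
    rw [h1, Polynomial.C_0, Polynomial.C_1, map_one, map_zero, inr_zero, add_zero, inl_one]
  map_zero' := by
    have h0 : d 0 = 0 := by
      have := ha 0 0
      rw [add_zero] at this
      exact left_eq_add.1 this
    rw [h0, Polynomial.C_0, map_zero, inr_zero, add_zero, inl_zero]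
  map_add' x y := by
    rw [ha, Polynomial.C_add, Polynomial.C_add, map_add, map_add, inl_add, inr_add]
    abel
  map_mul' x y := by
    refine TrivSqZeroExt.ext ?_ ?_
    · simp only [fst_add, fst_inl, fst_inr, add_zero, fst_mul, Polynomial.C_mul, map_mul]
    · simp only [snd_add, snd_inl, snd_inr, zero_add, snd_mul, fst_add, fst_inl, fst_inr, add_zero,
        smul_eq_mul, MulOpposite.smul_eq_mul_unop, MulOpposite.unop_op, hm, Polynomial.C_mul,
        Polynomial.C_add, map_mul, map_add]
      ring

open TrivSqZeroExt in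
private theorem gen_der {K F : Type} [Field K] [Field F] [Algebra (Polynomial K) F]
    [IsFractionRing (Polynomial K) F] (d : K → K) (ha : ∀ x y, d (x + y) = d x + d y)
    (hm : ∀ x y, d (x * y) = x * d y + y * d x) (g : F) :
    ∃ D : F → F, (∀ f h, D (f + h) = D f + D h) ∧ (∀ f h, D (f * h) = f * D h + h * D f) ∧
      (∀ a : K, D (algebraMap (Polynomial K) F (Polynomial.C a)) =
        algebraMap (Polynomial K) F (Polynomial.C (d a))) ∧
      D (algebraMap (Polynomial K) F Polynomial.X) = g := by
  set φ : Polynomial K →+* TrivSqZeroExt F F :=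
    Polynomial.eval₂RingHom (psi d ha hm) (inl (algebraMap (Polynomial K) F Polynomial.X) + inr g)
    with hφ
  have hfst : ∀ P : Polynomial K, (φ P).fst = algebraMap (Polynomial K) F P := by
    have h1 : ((fstHom F F F : TrivSqZeroExt F F →ₐ[F] F) : TrivSqZeroExt F F →+* F).comp φ =
        algebraMap (Polynomial K) F := by
      refine Polynomial.ringHom_ext ?_ ?_
      · intro a
        show (φ (Polynomial.C a)).fst = _
        rw [hφ, Polynomial.coe_eval₂RingHom, Polynomial.eval₂_C]
        show (inl (algebraMap (Polynomial K) F (Polynomial.C a)) +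
          inr (algebraMap (Polynomial K) F (Polynomial.C (d a))) : TrivSqZeroExt F F).fst = _
        rw [fst_add, fst_inl, fst_inr, add_zero]
      · show (φ Polynomial.X).fst = _
        rw [hφ, Polynomial.coe_eval₂RingHom, Polynomial.eval₂_X, fst_add, fst_inl, fst_inr,
          add_zero]
    intro P
    exact RingHom.congr_fun h1 P
  have hunit : ∀ y : nonZeroDivisors (Polynomial K), IsUnit (φ y) := by
    intro y
    rw [isUnit_iff_isUnit_fst, hfst]
    exact IsLocalization.map_units F y
  set Φ : F →+* TrivSqZeroExt F F := IsLocalization.lift hunit with hΦ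
  have hΦP : ∀ P : Polynomial K, Φ (algebraMap (Polynomial K) F P) = φ P :=
    fun P => IsLocalization.lift_eq hunit P
  have hΦfst : ∀ f : F, (Φ f).fst = f := by
    have h1 : ((fstHom F F F : TrivSqZeroExt F F →ₐ[F] F) : TrivSqZeroExt F F →+* F).comp Φ =
        RingHom.id F := by
      refine IsLocalization.ringHom_ext (nonZeroDivisors (Polynomial K)) ?_
      refine RingHom.ext fun P => ?_
      show (Φ (algebraMap (Polynomial K) F P)).fst = algebraMap (Polynomial K) F P
      rw [hΦP, hfst]
    intro f
    exact RingHom.congr_fun h1 f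
  refine ⟨fun f => (Φ f).snd, ?_, ?_, ?_, ?_⟩
  · intro f h
    show (Φ (f + h)).snd = (Φ f).snd + (Φ h).snd
    rw [map_add, snd_add]
  · intro f h
    show (Φ (f * h)).snd = f * (Φ h).snd + h * (Φ f).snd
    rw [map_mul, snd_mul, hΦfst, hΦfst, smul_eq_mul, MulOpposite.smul_eq_mul_unop,
      MulOpposite.unop_op, mul_comm h]
  · intro a
    show (Φ (algebraMap (Polynomial K) F (Polynomial.C a))).snd = _
    rw [hΦP, hφ, Polynomial.coe_eval₂RingHom, Polynomial.eval₂_C]
    show (inl (algebraMap (Polynomial K) F (Polynomial.C a)) +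
      inr (algebraMap (Polynomial K) F (Polynomial.C (d a))) : TrivSqZeroExt F F).snd = _
    rw [snd_add, snd_inl, snd_inr, zero_add]
  · show (Φ (algebraMap (Polynomial K) F Polynomial.X)).snd = g
    rw [hΦP, hφ, Polynomial.coe_eval₂RingHom, Polynomial.eval₂_X, snd_add, snd_inl, snd_inr,
      zero_add]

@[reducible] private noncomputable def algFK : Algebra (Polynomial KK) FK :=
  inferInstanceAs (Algebra (Polynomial KK) (RatFunc KK))

theorem exists_ratDer (d : Derivation ℤ KK KK) (g : FK) :
    ∃ D : Derivation ℤ FK FK, (∀ a : KK, D (CF a) = CF (d a)) ∧ D lam = g := by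
  letI : Algebra (Polynomial KK) FK := algFK
  have : IsFractionRing (Polynomial KK) FK :=
    inferInstanceAs (IsFractionRing (Polynomial KK) (RatFunc KK))
  have algMap_eq : ∀ P : Polynomial KK, algebraMap (Polynomial KK) FK P = pF P := fun _ => rfl
  obtain ⟨D, h1, h2, h3, h4⟩ := gen_der (K := KK) (F := FK) d (fun x y => map_add d x y)
    (fun x y => by rw [d.leibniz, smul_eq_mul, smul_eq_mul]) g
  refine ⟨Derivation.mk' (AddMonoidHom.toIntLinearMap (AddMonoidHom.mk' D h1)) ?_, ?_, ?_⟩
  · intro a b
    show D (a * b) = a • D b + b • D a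
    rw [h2, smul_eq_mul, smul_eq_mul]
  · intro a
    show D (CF a) = CF (d a)
    rw [← pF_C, ← pF_C, ← algMap_eq, h3]
    rfl
  · show D lam = g
    rw [← pF_X, ← algMap_eq, h4]

theorem ratDer_ext {D D' : Derivation ℤ FK FK} (h1 : ∀ a : KK, D (CF a) = D' (CF a))
    (h2 : D lam = D' lam) : D = D' := by
  have hP : ∀ P : Polynomial KK, D (pF P) = D' (pF P) := by
    intro P
    induction P using Polynomial.induction_on' with
    | add p q hp hq => rw [map_add, map_add, map_add, hp, hq]
    | monomial n a =>
      have e : pF (Polynomial.monomial n a) = CF a * lam ^ n := by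
        rw [← Polynomial.C_mul_X_pow_eq_monomial, map_mul, map_pow, pF_C, pF_X]
      rw [e, D.leibniz, D'.leibniz, h1, D.leibniz_pow, D'.leibniz_pow, h2]
  ext f
  obtain ⟨P, Q, hQ, rfl⟩ := FK_surj f
  have hQ0 : pF Q ≠ 0 := by
    intro h
    apply hQ
    apply pF_injective
    rw [h, map_zero]
  have e : pF P = (pF P / pF Q) * pF Q := by rw [div_mul_cancel₀ _ hQ0]
  have e1 : D (pF P) = (pF P / pF Q) * D (pF Q) + pF Q * D (pF P / pF Q) := by
    conv_lhs => rw [e]
    rw [D.leibniz, smul_eq_mul, smul_eq_mul]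
  have e2 : D' (pF P) = (pF P / pF Q) * D' (pF Q) + pF Q * D' (pF P / pF Q) := by
    conv_lhs => rw [e]
    rw [D'.leibniz, smul_eq_mul, smul_eq_mul]
  have e3 : pF Q * D (pF P / pF Q) = pF Q * D' (pF P / pF Q) := by
    rw [hP P, e2, hP Q] at e1
    exact (add_left_cancel e1).symm
  exact mul_left_cancel₀ hQ0 e3

theorem exists_dy : ∃ d : RatFunc ℂ → RatFunc ℂ, (∀ f g, d (f + g) = d f + d g) ∧
    (∀ f g, d (f * g) = d f * g + f * d g) ∧ (∀ z : ℂ, d (RatFunc.C z) = 0) ∧
    d RatFunc.X = 1 := by
  obtain ⟨D, h1, h2, h3, h4⟩ := gen_der (K := ℂ) (F := RatFunc ℂ) (fun _ => 0)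
    (fun x y => by rw [add_zero]) (fun x y => by rw [mul_zero, mul_zero, add_zero]) 1
  refine ⟨D, h1, ?_, ?_, ?_⟩
  · intro f g
    rw [h2]
    ring
  · intro z
    rw [← RatFunc.algebraMap_C, h3, Polynomial.C_0, map_zero]
  · rw [← RatFunc.algebraMap_X, h4]

end Pool.Agent.CVG
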