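import Pool.Agent.CVG.HahnDer
import Pool.Agent.CVG.RatDer
import Pool.Agent.CVG.GP

/-!
# CVG: derivations and Gauss valuations (no sorry)
-/

open scoped BigOperators

namespace Pool.Agent.CVG

/-- the derivation `δ = s d/ds` of `KK` -/
noncomputable def dK : Derivation ℤ KK KK := exists_dK.choose

theorem cofK_dK (x : KK) (q : ℚ) : cofK (dK x) q = (q : ℂ) * cofK x q :=
  exists_dK.choose_spec x q

/-- coefficientwise embedding -/
noncomputable def hmC : KK →+* LL := exists_hmC.choose

theorem cofL_hmC (x : KK) (q : ℚ) : cofL (hmC x) q = RatFunc.C (cofK x q) :=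
  exists_hmC.choose_spec x q

/-- the derivation `δ` of `FK` with `δ λ = 0` -/
noncomputable def dl : Derivation ℤ FK FK := (exists_ratDer dK 0).choose

/-- the derivation `∂/∂λ` of `FK` -/
noncomputable def dlam : Derivation ℤ FK FK := (exists_ratDer 0 1).choose

theorem dl_CF (x : KK) : dl (CF x) = CF (dK x) := (exists_ratDer dK 0).choose_spec.1 x

theorem dl_lam : dl lam = 0 := (exists_ratDer dK 0).choose_spec.2

theorem dlam_CF (x : KK) : dlam (CF x) = 0 := by
  have h := (exists_ratDer 0 1).choose_spec.1 x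
  rw [Derivation.zero_apply, map_zero] at h
  exact h

theorem dlam_lam : dlam lam = 1 := (exists_ratDer 0 1).choose_spec.2

/-- The Gauss embedding with centre `a` and radius exponent `q`: `λ ↦ a + s^q y`. -/
noncomputable def gp (a : KK) (q : ℚ) : FK →+* LL := (exists_gp hmC cofL_hmC a q).choose

theorem gp_CF (a : KK) (q : ℚ) (x : KK) : gp a q (CF x) = hmC x :=
  (exists_gp hmC cofL_hmC a q).choose_spec.1 x

theorem gp_lam (a : KK) (q : ℚ) : gp a q lam = hmC a + sL q RatFunc.X :=
  (exists_gp hmC cofL_hmC a q).choose_spec.2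

/-- The Gauss valuation with centre `a` and radius exponent `q`. -/
noncomputable def gv (a : KK) (q : ℚ) : AddValuation FK (WithTop ℚ) := vL.comap (gp a q)

theorem gv_apply (a : KK) (q : ℚ) (f : FK) : gv a q f = vL (gp a q f) := rfl

/-- The derivation `δ + g ∂/∂λ`. -/
noncomputable def DD (g : FK) : Derivation ℤ FK FK := dl + g • dlam

theorem DD_apply (g f : FK) : DD g f = dl f + g * dlam f := rfl

theorem DD_CF (g : FK) (x : KK) : DD g (CF x) = CF (dK x) := by
  rw [DD_apply, dlam_CF, mul_zero, add_zero, dl_CF]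

theorem DD_lam (g : FK) : DD g lam = g := by
  rw [DD_apply, dlam_lam, mul_one, dl_lam, zero_add]

end Pool.Agent.CVG
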