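import Pool.Agent.CVG.Fields

/-!
# CVG-HahnDer: derivations of `KK`, `LL` and the coefficient embedding

PLAN. `exists_dK`: `(D x).coeff q = q * x.coeff q`, the support is contained in that of `x`
(`HahnSeries` with `isPWO_support' := x.isPWO_support.mono ..`). Leibniz: `HahnSeries.coeff_mul` (sum over
`addAntidiagonal`), enlarging the index sets by `HahnSeries.coeff_mul_left'`, `coeff_mul_right'`.
`exists_dLy`: the same with a derivation of `RatFunc ℂ` applied to the coefficients (here given as an
additive map `d` satisfying the Leibniz rule). `exists_hmC`: `HahnSeries.map`, multiplicativity by the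
same lemmas. `Derivation.mk'` is convenient; additivity gives `ℤ`-linearity
(`AddMonoidHom.toIntLinearMap`). It may be best to prove general private lemmas for
`HahnSeries ℚ k` (with functions instead of `Derivation`) first.
-/

open scoped BigOperators

namespace Pool.Agent.CVG

/-- coefficientwise map with an index dependent function -/
private noncomputable def hdMap {k l : Type} [Zero k] [Zero l] (φ : ℚ → k → l)
    (h0 : ∀ q, φ q 0 = 0) (x : HahnSeries ℚ k) : HahnSeries ℚ l where
  coeff q := φ q (x.coeff q)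
  isPWO_support' := x.isPWO_support.mono (fun q hq => by
    intro h
    apply hq
    show φ q (x.coeff q) = 0
    rw [h, h0])

private theorem hdMap_coeff {k l : Type} [Zero k] [Zero l] (φ : ℚ → k → l)
    (h0 : ∀ q, φ q 0 = 0) (x : HahnSeries ℚ k) (q : ℚ) :
    (hdMap φ h0 x).coeff q = φ q (x.coeff q) := rfl

private theorem hdMap_support {k l : Type} [Zero k] [Zero l] (φ : ℚ → k → l)
    (h0 : ∀ q, φ q 0 = 0) (x : HahnSeries ℚ k) : (hdMap φ h0 x).support ⊆ x.support := by
  intro q hq h
  apply hq
  show φ q (x.coeff q) = 0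
  rw [h, h0]

private theorem hdMap_leibniz {k : Type} [CommRing k] (φ : ℚ → k → k)
    (h0 : ∀ q, φ q 0 = 0) (h1 : ∀ q a b, φ q (a + b) = φ q a + φ q b)
    (h2 : ∀ p q a b, φ (p + q) (a * b) = φ p a * b + a * φ q b) (x y : HahnSeries ℚ k) :
    hdMap φ h0 (x * y) = hdMap φ h0 x * y + x * hdMap φ h0 y := by
  ext q
  rw [hdMap_coeff, HahnSeries.coeff_add,
    HahnSeries.coeff_mul_left' x.isPWO_support (hdMap_support φ h0 x),
    HahnSeries.coeff_mul_right' y.isPWO_support (hdMap_support φ h0 y), HahnSeries.coeff_mul,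
    ← Finset.sum_add_distrib]
  have hs : ∀ (s : Finset (ℚ × ℚ)) (f : ℚ × ℚ → k), φ q (∑ i ∈ s, f i) = ∑ i ∈ s, φ q (f i) := by
    classical
    intro s f
    induction s using Finset.induction_on with
    | empty => rw [Finset.sum_empty, Finset.sum_empty, h0]
    | insert a s ha ih => rw [Finset.sum_insert ha, Finset.sum_insert ha, h1, ih]
  rw [hs]
  apply Finset.sum_congr rfl
  intro ij hij
  have hq : ij.1 + ij.2 = q := (Finset.mem_antidiagonal.1 hij).2.2
  rw [hdMap_coeff, hdMap_coeff, ← h2, hq]

theorem exists_dK : ∃ D : Derivation ℤ KK KK, ∀ (x : KK) (q : ℚ),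
    cofK (D x) q = (q : ℂ) * cofK x q := by
  have h0 : ∀ q : ℚ, (fun (q : ℚ) (a : ℂ) => (q : ℂ) * a) q 0 = 0 := fun q => mul_zero _
  let f : KK →+ KK :=
    { toFun := fun x => (hdMap (fun (q : ℚ) (a : ℂ) => (q : ℂ) * a) h0 x : HahnSeries ℚ ℂ)
      map_zero' := by
        apply KK_ext
        intro q
        show (q : ℂ) * HahnSeries.coeff (0 : HahnSeries ℚ ℂ) q
          = HahnSeries.coeff (0 : HahnSeries ℚ ℂ) q
        rw [HahnSeries.coeff_zero, mul_zero]
      map_add' := by
        intro x y
        apply KK_ext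
        intro q
        rw [cofK_add]
        show (q : ℂ) * cofK (x + y) q = (q : ℂ) * cofK x q + (q : ℂ) * cofK y q
        rw [cofK_add, mul_add] }
  refine ⟨Derivation.mk' f.toIntLinearMap ?_, ?_⟩
  · intro x y
    show f (x * y) = x * f y + y * f x
    have h := hdMap_leibniz (fun (q : ℚ) (a : ℂ) => (q : ℂ) * a) h0
      (fun q a b => mul_add _ _ _) (fun p q a b => by
        show ((p + q : ℚ) : ℂ) * (a * b) = (p : ℂ) * a * b + a * ((q : ℂ) * b)
        push_cast
        ring) x y
    have h' : x * f y + y * f x = f x * y + x * f y := by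
      rw [add_comm, mul_comm y]
    rw [h']
    exact h
  · intro x q
    rfl

private theorem dL_aux (φ : ℚ → RatFunc ℂ → RatFunc ℂ)
    (h1 : ∀ q a b, φ q (a + b) = φ q a + φ q b)
    (h2 : ∀ p q a b, φ (p + q) (a * b) = φ p a * b + a * φ q b) :
    ∃ D : Derivation ℤ LL LL, ∀ (x : LL) (q : ℚ), cofL (D x) q = φ q (cofL x q) := by
  have h0 : ∀ q : ℚ, φ q 0 = 0 := by
    intro q
    have h := h1 q 0 0
    rw [add_zero] at h
    exact left_eq_add.1 h
  let f : LL →+ LL :=
    { toFun := fun x => (hdMap φ h0 x : HahnSeries ℚ (RatFunc ℂ))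
      map_zero' := by
        apply LL_ext
        intro q
        show φ q (HahnSeries.coeff (0 : HahnSeries ℚ (RatFunc ℂ)) q)
          = HahnSeries.coeff (0 : HahnSeries ℚ (RatFunc ℂ)) q
        rw [HahnSeries.coeff_zero, h0]
      map_add' := by
        intro x y
        apply LL_ext
        intro q
        rw [cofL_add]
        show φ q (cofL (x + y) q) = φ q (cofL x q) + φ q (cofL y q)
        rw [cofL_add, h1] }
  refine ⟨Derivation.mk' f.toIntLinearMap ?_, ?_⟩
  · intro x y
    show f (x * y) = x * f y + y * f x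
    have h := hdMap_leibniz φ h0 h1 h2 x y
    have h' : x * f y + y * f x = f x * y + x * f y := by
      rw [add_comm, mul_comm y]
    rw [h']
    exact h
  · intro x q
    rfl

theorem exists_dLs : ∃ D : Derivation ℤ LL LL, ∀ (x : LL) (q : ℚ),
    cofL (D x) q = (q : RatFunc ℂ) * cofL x q := by
  exact dL_aux (fun q a => (q : RatFunc ℂ) * a) (fun q a b => mul_add _ _ _)
    (fun p q a b => by
      show ((p + q : ℚ) : RatFunc ℂ) * (a * b)
        = (p : RatFunc ℂ) * a * b + a * ((q : RatFunc ℂ) * b)
      push_cast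
      ring)

theorem exists_dLy (d : RatFunc ℂ → RatFunc ℂ) (h1 : ∀ f g, d (f + g) = d f + d g)
    (h2 : ∀ f g, d (f * g) = d f * g + f * d g) : ∃ D : Derivation ℤ LL LL,
    ∀ (x : LL) (q : ℚ), cofL (D x) q = d (cofL x q) := by
  exact dL_aux (fun _ a => d a) (fun _ a b => h1 a b) (fun _ _ a b => h2 a b)

theorem exists_hmC : ∃ f : KK →+* LL, ∀ (x : KK) (q : ℚ), cofL (f x) q = RatFunc.C (cofK x q) := by
  let f : KK →+* LL :=
    { toFun := fun x => (HahnSeries.map (x : HahnSeries ℚ ℂ) (RatFunc.C : ℂ →+* RatFunc ℂ) :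
        HahnSeries ℚ (RatFunc ℂ))
      map_zero' := by
        apply LL_ext
        intro q
        show RatFunc.C (HahnSeries.coeff (0 : HahnSeries ℚ ℂ) q)
          = HahnSeries.coeff (0 : HahnSeries ℚ (RatFunc ℂ)) q
        rw [HahnSeries.coeff_zero, HahnSeries.coeff_zero, map_zero]
      map_one' := by
        apply LL_ext
        intro q
        show RatFunc.C (HahnSeries.coeff (1 : HahnSeries ℚ ℂ) q)
          = HahnSeries.coeff (1 : HahnSeries ℚ (RatFunc ℂ)) q
        rw [HahnSeries.coeff_one, HahnSeries.coeff_one]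
        split_ifs
        · exact map_one _
        · exact map_zero _
      map_add' := by
        intro x y
        apply LL_ext
        intro q
        rw [cofL_add]
        show RatFunc.C (cofK (x + y) q) = RatFunc.C (cofK x q) + RatFunc.C (cofK y q)
        rw [cofK_add, map_add]
      map_mul' := by
        intro x y
        exact HahnSeries.map_mul (R := ℂ) (S := RatFunc ℂ) (Γ := ℚ)
          ((RatFunc.C : ℂ →+* RatFunc ℂ) : ℂ →ₙ+* RatFunc ℂ) (x := x) (y := y) }
  exact ⟨f, fun x q => rfl⟩

end Pool.Agent.CVG
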