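import Pool.Agent.CVG.Lau

/-!
# CVG-LauI: API for Laurent coefficients at infinity

PLAN. As in `LauA`, with `x = 1/λ`: `lauI (dlam f) = - x^2 d/dx (lauI f)` (coefficient of `x^k`:
`-(k-1) c_{k-1}`), `lauI (dl f)` = coefficientwise `dK`; check on `CF x`, `lam`, then polynomials and
quotients. `(lam - CF b)⁻¹ = x (1 - b x)⁻¹`.
-/

open scoped BigOperators

namespace Pool.Agent.CVG

variable {k l : ℤ} {f g : FK}

/-- products of Hahn series over `ℤ`: the lowest coefficients -/
private theorem liI_mul_coeff {x y : HahnSeries ℤ KK} {k l : ℤ} (hx : ∀ j < k, x.coeff j = 0)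
    (hy : ∀ j < l, y.coeff j = 0) : (x * y).coeff (k + l) = x.coeff k * y.coeff l := by
  rw [HahnSeries.coeff_mul]
  have h1 : ∀ p ∈ Finset.antidiagonal x.isPWO_support y.isPWO_support (k + l),
      p = (k, l) := by
    intro p hp
    obtain ⟨h2, h3, h4⟩ := Finset.mem_antidiagonal.1 hp
    have h5 : k ≤ p.1 := by
      by_contra h
      exact h2 (hx _ (not_le.1 h))
    have h6 : l ≤ p.2 := by
      by_contra h
      exact h3 (hy _ (not_le.1 h))
    exact Prod.ext (by simp only; omega) (by simp only; omega)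
  by_cases h0 : x.coeff k * y.coeff l = 0
  · rw [h0]
    refine Finset.sum_eq_zero fun p hp => ?_
    rw [h1 p hp]
    exact h0
  · have hmem : (k, l) ∈ Finset.antidiagonal x.isPWO_support y.isPWO_support (k + l) :=
      Finset.mem_antidiagonal.2 ⟨left_ne_zero_of_mul h0, right_ne_zero_of_mul h0, rfl⟩
    rw [Finset.sum_eq_single_of_mem (k, l) hmem]
    intro p hp hne
    exact absurd (h1 p hp) hne

private theorem liI_mul_zero {x y : HahnSeries ℤ KK} {k l : ℤ} (hx : ∀ j < k, x.coeff j = 0)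
    (hy : ∀ j < l, y.coeff j = 0) : ∀ j < k + l, (x * y).coeff j = 0 := by
  intro j hj
  rw [HahnSeries.coeff_mul]
  refine Finset.sum_eq_zero fun p hp => ?_
  obtain ⟨h2, h3, h4⟩ := Finset.mem_antidiagonal.1 hp
  have h5 : k ≤ p.1 := by
    by_contra h
    exact h2 (hx _ (not_le.1 h))
  have h6 : l ≤ p.2 := by
    by_contra h
    exact h3 (hy _ (not_le.1 h))
  omega

/-- coefficientwise map with an index dependent function -/
private noncomputable def liMap (φ : ℤ → KK → KK) (h0 : ∀ q, φ q 0 = 0) (x : HahnSeries ℤ KK) :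
    HahnSeries ℤ KK where
  coeff q := φ q (x.coeff q)
  isPWO_support' := x.isPWO_support.mono (fun q hq => by
    intro h
    apply hq
    show φ q (x.coeff q) = 0
    rw [h, h0])

private theorem liMap_coeff (φ : ℤ → KK → KK) (h0 : ∀ q, φ q 0 = 0) (x : HahnSeries ℤ KK)
    (q : ℤ) : (liMap φ h0 x).coeff q = φ q (x.coeff q) := rfl

private theorem liMap_support (φ : ℤ → KK → KK) (h0 : ∀ q, φ q 0 = 0) (x : HahnSeries ℤ KK) :
    (liMap φ h0 x).support ⊆ x.support := by
  intro q hq h
  apply hq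
  show φ q (x.coeff q) = 0
  rw [h, h0]

private theorem liMap_add (φ : ℤ → KK → KK) (h0 : ∀ q, φ q 0 = 0)
    (h1 : ∀ q a b, φ q (a + b) = φ q a + φ q b) (x y : HahnSeries ℤ KK) :
    liMap φ h0 (x + y) = liMap φ h0 x + liMap φ h0 y := by
  ext q
  rw [liMap_coeff, HahnSeries.coeff_add, HahnSeries.coeff_add, liMap_coeff, liMap_coeff, h1]

private theorem liMap_leibniz (φ : ℤ → KK → KK) (h0 : ∀ q, φ q 0 = 0)
    (h1 : ∀ q a b, φ q (a + b) = φ q a + φ q b)
    (h2 : ∀ p q a b, φ (p + q) (a * b) = φ p a * b + a * φ q b) (x y : HahnSeries ℤ KK) :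
    liMap φ h0 (x * y) = x * liMap φ h0 y + y * liMap φ h0 x := by
  rw [mul_comm y, add_comm]
  ext q
  rw [liMap_coeff, HahnSeries.coeff_add,
    HahnSeries.coeff_mul_left' x.isPWO_support (liMap_support φ h0 x),
    HahnSeries.coeff_mul_right' y.isPWO_support (liMap_support φ h0 y), HahnSeries.coeff_mul,
    ← Finset.sum_add_distrib]
  have hs : ∀ (s : Finset (ℤ × ℤ)) (f : ℤ × ℤ → KK), φ q (∑ i ∈ s, f i) = ∑ i ∈ s, φ q (f i) := by
    classical
    intro s f
    induction s using Finset.induction_on with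
    | empty => rw [Finset.sum_empty, Finset.sum_empty, h0]
    | insert a s ha ih => rw [Finset.sum_insert ha, Finset.sum_insert ha, h1, ih]
  rw [hs]
  apply Finset.sum_congr rfl
  intro ij hij
  have hq : ij.1 + ij.2 = q := (Finset.mem_antidiagonal.1 hij).2.2
  rw [liMap_coeff, liMap_coeff, ← h2, hq]

/-- a derivation of `FK` and a derivation of Laurent series which agree on `CF x` and `lam` -/
private theorem liI_der (D : Derivation ℤ FK FK) (E : HahnSeries ℤ KK → HahnSeries ℤ KK)
    (ha : ∀ x y, E (x + y) = E x + E y) (hm : ∀ x y, E (x * y) = x * E y + y * E x)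
    (h1 : ∀ a : KK, lauI (D (CF a)) = E (lauI (CF a))) (h2 : lauI (D lam) = E (lauI lam))
    (f : FK) : lauI (D f) = E (lauI f) := by
  have hE1 : E 1 = 0 := by
    have h := hm 1 1
    rw [mul_one, one_mul] at h
    exact left_eq_add.1 h
  have hpow : ∀ n : ℕ, lauI (D (lam ^ n)) = E (lauI (lam ^ n)) := by
    intro n
    induction n with
    | zero => rw [pow_zero, D.map_one_eq_zero, map_zero, map_one, hE1]
    | succ n ih =>
      rw [pow_succ, D.leibniz, smul_eq_mul, smul_eq_mul, map_add, map_mul, map_mul, ih, h2,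
        map_mul, hm]
  have hP : ∀ P : Polynomial KK, lauI (D (pF P)) = E (lauI (pF P)) := by
    intro P
    induction P using Polynomial.induction_on' with
    | add p q hp hq => rw [map_add, map_add, map_add, map_add, ha, hp, hq]
    | monomial n a =>
      have e : pF (Polynomial.monomial n a) = CF a * lam ^ n := by
        rw [← Polynomial.C_mul_X_pow_eq_monomial, map_mul, map_pow, pF_C, pF_X]
      rw [e, D.leibniz, smul_eq_mul, smul_eq_mul, map_add, map_mul, map_mul, hpow, h1, map_mul, hm]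
  obtain ⟨P, Q, hQ, rfl⟩ := FK_surj f
  have hQ0 : pF Q ≠ 0 := by
    intro h
    apply hQ
    apply pF_injective
    rw [h, map_zero]
  have hQ1 : lauI (pF Q) ≠ 0 := by
    intro h
    exact hQ0 (lauI.injective (by rw [h, map_zero]))
  set u := pF P / pF Q with hu
  have e : pF P = u * pF Q := by rw [hu, div_mul_cancel₀ _ hQ0]
  have e1 : lauI (D (pF P)) = lauI u * lauI (D (pF Q)) + lauI (pF Q) * lauI (D u) := by
    rw [e, D.leibniz, smul_eq_mul, smul_eq_mul, map_add, map_mul, map_mul]
  have e2 : E (lauI (pF P)) = lauI u * E (lauI (pF Q)) + lauI (pF Q) * E (lauI u) := by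
    rw [e, map_mul, hm]
  have e3 : lauI (pF Q) * lauI (D u) = lauI (pF Q) * E (lauI u) := by
    rw [hP P, e2, hP Q] at e1
    exact (add_left_cancel e1).symm
  exact mul_left_cancel₀ hQ1 e3

theorem lcI_add : lcI k (f + g) = lcI k f + lcI k g := by
  rw [lcI, lcI, lcI, map_add, HahnSeries.coeff_add]

theorem lcI_neg : lcI k (-f) = -lcI k f := by
  rw [lcI, lcI, map_neg, HahnSeries.coeff_neg]

theorem lcI_sub : lcI k (f - g) = lcI k f - lcI k g := by
  rw [lcI, lcI, lcI, map_sub, HahnSeries.coeff_sub]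

private theorem lcI_zero' : lcI k 0 = 0 := by
  rw [lcI, map_zero, HahnSeries.coeff_zero]

theorem lcI_sum {ι : Type*} (s : Finset ι) (F : ι → FK) :
    lcI k (∑ i ∈ s, F i) = ∑ i ∈ s, lcI k (F i) := by
  classical
  induction s using Finset.induction_on with
  | empty => rw [Finset.sum_empty, Finset.sum_empty, lcI_zero']
  | insert a s ha ih => rw [Finset.sum_insert ha, Finset.sum_insert ha, lcI_add, ih]

theorem lcI_CF_mul (x : KK) : lcI k (CF x * f) = x * lcI k f := by
  rw [lcI, lcI, map_mul, lauI_CF]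
  exact HahnSeries.coeff_single_zero_mul

theorem lcI_CF (x : KK) : lcI k (CF x) = if k = 0 then x else 0 := by
  rw [lcI, lauI_CF]
  by_cases h : k = 0
  · rw [if_pos h, h]
    exact HahnSeries.coeff_single_same _ _
  · rw [if_neg h]
    exact HahnSeries.coeff_single_of_ne h

theorem lcI_mul (hf : OrdGeI k f) (hg : OrdGeI l g) :
    lcI (k + l) (f * g) = lcI k f * lcI l g := by
  rw [lcI, map_mul]
  exact liI_mul_coeff hf hg

theorem OrdGeI.mul (hf : OrdGeI k f) (hg : OrdGeI l g) : OrdGeI (k + l) (f * g) := by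
  intro j hj
  rw [lcI, map_mul]
  exact liI_mul_zero hf hg j hj

theorem OrdGeI.add (hf : OrdGeI k f) (hg : OrdGeI k g) : OrdGeI k (f + g) := by
  intro j hj
  rw [lcI_add, hf j hj, hg j hj, add_zero]

theorem OrdGeI.neg (hf : OrdGeI k f) : OrdGeI k (-f) := by
  intro j hj
  rw [lcI_neg, hf j hj, neg_zero]

theorem OrdGeI.mono (hf : OrdGeI k f) (h : l ≤ k) : OrdGeI l f := by
  intro j hj
  exact hf j (lt_of_lt_of_le hj h)

theorem OrdGeI.CF (x : KK) : OrdGeI 0 (CF x) := by
  intro j hj
  rw [lcI_CF, if_neg hj.ne]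

theorem OrdGeI.zero : OrdGeI k 0 := by
  intro j _
  exact lcI_zero'

/-- the recursion for the coefficients of `1 / (λ - b)` -/
private theorem liI_inv_rec (b : KK) (k : ℤ) : lcI k (lam - Pool.Agent.CVG.CF b)⁻¹ =
    (if k = 1 then 1 else 0) + b * lcI (k - 1) (lam - Pool.Agent.CVG.CF b)⁻¹ := by
  set y := (lam - Pool.Agent.CVG.CF b)⁻¹ with hy
  have h0 : lam - Pool.Agent.CVG.CF b ≠ 0 := by
    intro h
    have h1 : lauI (lam - Pool.Agent.CVG.CF b) = 0 := by rw [h, map_zero]
    rw [map_sub, lauI_lam, lauI_CF] at h1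
    have h2 := congrArg (fun z : HahnSeries ℤ KK => z.coeff (-1)) h1
    simp only [HahnSeries.coeff_sub, HahnSeries.coeff_single_same, HahnSeries.coeff_zero] at h2
    have h3 : (HahnSeries.C b : HahnSeries ℤ KK).coeff (-1) = 0 :=
      HahnSeries.coeff_single_of_ne (by norm_num)
    rw [h3, sub_zero] at h2
    exact one_ne_zero h2
  have h1 : lam * y = 1 + Pool.Agent.CVG.CF b * y := by
    have h2 : (lam - Pool.Agent.CVG.CF b) * y = 1 := mul_inv_cancel₀ h0
    rw [sub_mul] at h2
    rw [← h2]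
    ring
  have h3 : lcI (k - 1) (lam * y) = lcI k y := by
    rw [lcI, lcI, map_mul, lauI_lam]
    have h := HahnSeries.coeff_single_mul (R := KK) (Γ' := ℤ) (r := 1) (x := lauI y) (a := k - 1)
      (b := -1)
    rw [one_mul] at h
    rw [h]
    congr 1
    ring
  have h4 : lcI (k - 1) (lam * y) = (if k = 1 then 1 else 0) + b * lcI (k - 1) y := by
    rw [h1, lcI_add, lcI_CF_mul]
    congr 1
    have h5 : (1 : FK) = Pool.Agent.CVG.CF 1 := (map_one _).symm
    rw [h5, lcI_CF]
    by_cases hk : k = 1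
    · rw [if_pos hk, if_pos (by omega)]
    · rw [if_neg hk, if_neg (by omega)]
  rw [← h3, h4]

theorem OrdGeI.inv_sub (b : KK) : OrdGeI 1 (lam - Pool.Agent.CVG.CF b)⁻¹ := by
  intro j hj
  by_contra hne
  set y := lauI (lam - Pool.Agent.CVG.CF b)⁻¹ with hy
  have hne' : y.coeff j ≠ 0 := hne
  have hy0 : y ≠ 0 := HahnSeries.ne_zero_of_coeff_ne_zero hne'
  have h1 : y.order ≤ j := HahnSeries.order_le_of_coeff_ne_zero hne'
  have h2 : y.coeff y.order ≠ 0 := (HahnSeries.coeff_order_eq_zero (x := y)).not.2 hy0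
  apply h2
  have h3 := liI_inv_rec b y.order
  have h4 : lcI (y.order - 1) (lam - Pool.Agent.CVG.CF b)⁻¹ = 0 :=
    HahnSeries.coeff_eq_zero_of_lt_order (x := y) (by omega)
  rw [h4, mul_zero, if_neg (by omega), add_zero] at h3
  exact h3

theorem lcI_inv_sub (b : KK) : lcI 1 (lam - Pool.Agent.CVG.CF b)⁻¹ = 1 := by
  rw [liI_inv_rec, if_pos rfl, OrdGeI.inv_sub b (1 - 1) (by norm_num), mul_zero, add_zero]

theorem lcI_dlam : lcI k (dlam f) = -((k : KK) - 1) * lcI (k - 1) f := by
  have hφ0 : ∀ q : ℤ, (fun (q : ℤ) (a : KK) => (q : KK) * a) q 0 = 0 := fun q => mul_zero _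
  set E : HahnSeries ℤ KK → HahnSeries ℤ KK := fun x =>
    -(HahnSeries.single (1 : ℤ) (1 : KK) * liMap (fun (q : ℤ) (a : KK) => (q : KK) * a) hφ0 x)
    with hE
  have hmain : lauI (dlam f) = E (lauI f) := by
    refine liI_der dlam E ?_ ?_ ?_ ?_ f
    · intro x y
      simp only [hE]
      rw [liMap_add _ hφ0 (fun q a b => mul_add _ _ _)]
      ring
    · intro x y
      simp only [hE]
      rw [liMap_leibniz _ hφ0 (fun q a b => mul_add _ _ _) (fun p q a b => by
        push_cast
        ring)]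
      ring
    · intro a
      rw [dlam_CF, map_zero, lauI_CF]
      simp only [hE]
      have h1 : liMap (fun (q : ℤ) (a : KK) => (q : KK) * a) hφ0 (HahnSeries.C a) = 0 := by
        ext q
        rw [liMap_coeff, HahnSeries.coeff_zero]
        by_cases hq : q = 0
        · rw [hq, Int.cast_zero, zero_mul]
        · have h2 : (HahnSeries.C a : HahnSeries ℤ KK).coeff q = 0 :=
            HahnSeries.coeff_single_of_ne hq
          rw [h2, mul_zero]
      rw [h1, mul_zero, neg_zero]
    · rw [dlam_lam, map_one, lauI_lam]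
      simp only [hE]
      have h1 : liMap (fun (q : ℤ) (a : KK) => (q : KK) * a) hφ0 (HahnSeries.single (-1) 1) =
          -HahnSeries.single (-1) 1 := by
        ext q
        rw [liMap_coeff, HahnSeries.coeff_neg]
        by_cases hq : q = -1
        · rw [hq, HahnSeries.coeff_single_same]
          push_cast
          ring
        · rw [HahnSeries.coeff_single_of_ne hq, mul_zero, neg_zero]
      rw [h1, mul_neg, neg_neg, HahnSeries.single_mul_single, mul_one]
      norm_num
  rw [lcI, hmain]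
  simp only [hE]
  rw [HahnSeries.coeff_neg]
  have h := HahnSeries.coeff_single_mul (R := KK) (Γ' := ℤ) (r := 1)
    (x := liMap (fun (q : ℤ) (a : KK) => (q : KK) * a) hφ0 (lauI f)) (a := k) (b := 1)
  rw [h, one_mul, liMap_coeff]
  show -(((k - 1 : ℤ) : KK) * (lauI f).coeff (k - 1)) = -((k : KK) - 1) * (lauI f).coeff (k - 1)
  push_cast
  ring

theorem lcI_dl : lcI k (dl f) = dK (lcI k f) := by
  have hφ0 : ∀ q : ℤ, (fun (_ : ℤ) (a : KK) => dK a) q 0 = 0 := fun q => map_zero _
  have hmain : lauI (dl f) = liMap (fun (_ : ℤ) (a : KK) => dK a) hφ0 (lauI f) := by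
    refine liI_der dl (liMap (fun (_ : ℤ) (a : KK) => dK a) hφ0) ?_ ?_ ?_ ?_ f
    · exact liMap_add _ hφ0 (fun q a b => map_add _ _ _)
    · exact liMap_leibniz _ hφ0 (fun q a b => map_add _ _ _) (fun p q a b => by
        show dK (a * b) = dK a * b + a * dK b
        rw [dK.leibniz, smul_eq_mul, smul_eq_mul]
        ring)
    · intro a
      rw [dl_CF, lauI_CF, lauI_CF]
      ext q
      rw [liMap_coeff]
      by_cases hq : q = 0
      · rw [hq]
        show (HahnSeries.single (0 : ℤ) (dK a)).coeff 0 =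
          dK ((HahnSeries.single (0 : ℤ) a).coeff 0)
        rw [HahnSeries.coeff_single_same, HahnSeries.coeff_single_same]
      · show (HahnSeries.single (0 : ℤ) (dK a)).coeff q =
          dK ((HahnSeries.single (0 : ℤ) a).coeff q)
        rw [HahnSeries.coeff_single_of_ne hq, HahnSeries.coeff_single_of_ne hq, map_zero]
    · rw [dl_lam, map_zero, lauI_lam]
      ext q
      rw [liMap_coeff, HahnSeries.coeff_zero]
      by_cases hq : q = -1
      · rw [hq, HahnSeries.coeff_single_same]
        exact (dK.map_one_eq_zero).symm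
      · rw [HahnSeries.coeff_single_of_ne hq, map_zero]
  rw [lcI, hmain, liMap_coeff]
  rfl

theorem OrdGeI.dl (hf : OrdGeI k f) : OrdGeI k (dl f) := by
  intro j hj
  rw [lcI_dl, hf j hj, map_zero]

theorem OrdGeI.dlam (hf : OrdGeI k f) : OrdGeI (k + 1) (dlam f) := by
  intro j hj
  rw [lcI_dlam, hf (j - 1) (by omega), mul_zero]

end Pool.Agent.CVG
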