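import Pool.Agent.CVG.LauA
import Pool.Agent.CVG.LauI
import Pool.Agent.CVG.Rg

/-!
# CVG-ResT: the residue theorem

PLAN. `Rg_induction` with the property `∑_j lc (u j) (-1) f = lcI 1 f`. `lam^k`: no coefficient of
index `< 0` at `u j`; at infinity `single (-k) 1`, coefficient at `1` is zero. `((lam - u_j)⁻¹)^(k+1)`: at
`u_j` it is `single (-(k+1)) 1`, at the other points it has order `≥ 0`; at infinity
`x^(k+1) (1 - u_j x)^(-k-1)`, coefficient at `1`: `1` if `k = 0`, else `0` (`OrdGeI.mul`, `lcI_mul`).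
-/

open scoped BigOperators

namespace Pool.Agent.CVG

private theorem lc_one (a : KK) (k : ℤ) : lc a k 1 = if k = 0 then 1 else 0 := by
  rw [← map_one CF, lc_CF]

private theorem ordGe_one (a : KK) : OrdGe a 0 1 := by
  rw [← map_one CF]
  exact OrdGe.CF 1

private theorem ordGe_lam (a : KK) : OrdGe a 0 lam := by
  have h1 : OrdGe a 0 (lam - CF a) := by
    intro j hj
    have h2 := lc_lam_sub_mul (a := a) (k := j) (f := 1)
    rw [mul_one, lc_one, if_neg (by omega)] at h2
    exact h2
  have h3 : lam = (lam - CF a) + CF a := by ring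
  rw [h3]
  exact h1.add (OrdGe.CF a)

private theorem ordGe_pow {a : KK} {f : FK} (hf : OrdGe a 0 f) (k : ℕ) : OrdGe a 0 (f ^ k) := by
  induction k with
  | zero =>
    rw [pow_zero]
    exact ordGe_one a
  | succ k ih =>
    rw [pow_succ]
    have h := ih.mul hf
    rwa [add_zero] at h

private theorem sub_ne (a : KK) : lam - CF a ≠ 0 := by
  intro h
  have h1 := lc_inv_self (a := a)
  rw [h, inv_zero] at h1
  have h2 : lc a (-1) 0 = 0 := by
    unfold lc
    rw [map_zero, HahnSeries.coeff_zero]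
  rw [h2] at h1
  exact zero_ne_one h1

private theorem lc_inv_pow (a : KK) (k : ℕ) (m : ℤ) :
    lc a m ((lam - CF a)⁻¹ ^ k) = if m + k = 0 then 1 else 0 := by
  induction k generalizing m with
  | zero =>
    rw [pow_zero, lc_one]
    simp
  | succ k ih =>
    have h1 : (lam - CF a) * (lam - CF a)⁻¹ ^ (k + 1) = (lam - CF a)⁻¹ ^ k := by
      rw [pow_succ', ← mul_assoc, mul_inv_cancel₀ (sub_ne a), one_mul]
    have h2 := lc_lam_sub_mul (a := a) (k := m + 1) (f := (lam - CF a)⁻¹ ^ (k + 1))
    rw [h1, ih, add_sub_cancel_right] at h2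
    rw [← h2]
    refine if_congr ?_ rfl rfl
    push_cast
    constructor
    · intro h; omega
    · intro h; omega

private theorem ordGeI_inv_pow (b : KK) (k : ℕ) : OrdGeI (k : ℤ) ((lam - CF b)⁻¹ ^ k) := by
  induction k with
  | zero =>
    rw [pow_zero, ← map_one CF]
    exact OrdGeI.CF 1
  | succ k ih =>
    rw [pow_succ]
    have h := ih.mul (OrdGeI.inv_sub b)
    push_cast
    exact h

private theorem lcI_inv_pow (b : KK) (k : ℕ) :
    lcI 1 ((lam - CF b)⁻¹ ^ (k + 1)) = if k = 0 then 1 else 0 := by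
  rcases Nat.eq_zero_or_pos k with h | h
  · subst h
    rw [zero_add, pow_one, if_pos rfl, lcI_inv_sub]
  · rw [if_neg (by omega)]
    exact ordGeI_inv_pow b (k + 1) 1 (by push_cast; omega)

private theorem lcI_lam_pow (k : ℕ) : lcI 1 (lam ^ k) = 0 := by
  unfold lcI
  rw [map_pow, lauI_lam, HahnSeries.single_pow]
  refine HahnSeries.coeff_single_of_ne ?_
  rw [nsmul_eq_mul]
  omega

theorem res_sum {n : ℕ} {u : Fin n → KK} (hu : Function.Injective u) {f : FK}
    (hf : Rg u Finset.univ f) : ∑ j, lc (u j) (-1) f = lcI 1 f := by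
  refine Rg_induction hu hf (fun f => ∑ j, lc (u j) (-1) f = lcI 1 f) ?_ ?_ ?_ ?_
  · intro f g h1 h2
    rw [lcI_add, ← h1, ← h2, ← Finset.sum_add_distrib]
    exact Finset.sum_congr rfl fun j _ => lc_add
  · intro x f h1
    rw [lcI_CF_mul, ← h1, Finset.mul_sum]
    exact Finset.sum_congr rfl fun j _ => lc_CF_mul x
  · intro k
    rw [lcI_lam_pow]
    refine Finset.sum_eq_zero fun j _ => ?_
    exact ordGe_pow (ordGe_lam (u j)) k (-1) (by norm_num)
  · intro j _ k
    rw [lcI_inv_pow, Finset.sum_eq_single j]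
    · rw [lc_inv_pow]
      refine if_congr ?_ rfl rfl
      push_cast
      omega
    · intro i _ hij
      exact ordGe_pow (OrdGe.inv_ne fun h => hij (hu h)) (k + 1) (-1) (by norm_num)
    · intro h
      exact absurd (Finset.mem_univ j) h

end Pool.Agent.CVG
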