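import Pool.Agent.CVG.Iter
import Pool.Agent.CVG.GamRg
import Pool.Agent.CVG.ResT

/-!
# CVG-InfL: expansion at infinity

PLAN. Matrix versions of `OrdGeI`, `lcI` for products (as in `Leaf1`). `R = ∑ E_j/(lam - u_j)`: order `≥ 1` at
infinity, coefficient `∑ E_j = 1` (`lcI_inv_sub`, `E_sum`). `RB`: order `≥ 1`, coefficient `B`; `RSB`: order `≥ 1`.
`bl W`: order `≥ 2`, coefficient `W B`. `b0 W`: order `≥ 1`. `TE 0 X = TE0 X` preserves orders `≥ k`, `k ≥ 1`, and
the `k`-th coefficient of `TE0 X` is `dK` of that of `X` (`[RSB, X]` has order `≥ k + 1`; `lcI_dl`). So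
`gam 0 W k` has order `≥ 1`; `(TEk 0 0)^[k] (bl W)` has order `≥ 2` and coefficient `(dK^k W) B` (`B` constant).
For `X` of order `≥ 1` with first coefficient `g₁`: `TEd X` has order `≥ 2`, coefficient `- g₁ + [B, g₁]`
(`lcI_dlam` with `k = 2`). The second coefficient of `iter` (`g = 0`, `κ = 0`) gives `inf_eq`, with
`g₁ = resS univ (gam 0 W k)` by `res_sum` entrywise (`gam_Rg`).
-/

open scoped BigOperators

namespace Pool.Agent.CVG

/-- order at infinity at least `k`, entrywise -/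
private def OM {n : ℕ} (k : ℤ) (X : Matrix (Fin n) (Fin n) FK) : Prop := ∀ i j, OrdGeI k (X i j)

/-- coefficient at infinity, entrywise -/
private noncomputable def cM {n : ℕ} (k : ℤ) (X : Matrix (Fin n) (Fin n) FK) :
    Matrix (Fin n) (Fin n) KK := X.map (lcI k)

section

variable {n : ℕ} {k l : ℤ} {X Y : Matrix (Fin n) (Fin n) FK}

private theorem ord_sum {ι : Type*} (s : Finset ι) (f : ι → FK) (h : ∀ i ∈ s, OrdGeI k (f i)) :
    OrdGeI k (∑ i ∈ s, f i) := by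
  intro j hj
  rw [lcI_sum]
  exact Finset.sum_eq_zero fun i hi => h i hi j hj

private theorem OM_mul (hX : OM k X) (hY : OM l Y) : OM (k + l) (X * Y) := by
  intro i j
  rw [Matrix.mul_apply]
  exact ord_sum _ _ fun a _ => (hX i a).mul (hY a j)

private theorem cM_mul (hX : OM k X) (hY : OM l Y) : cM (k + l) (X * Y) = cM k X * cM l Y := by
  ext i j
  show lcI (k + l) ((X * Y) i j) = _
  rw [Matrix.mul_apply, Matrix.mul_apply, lcI_sum]
  exact Finset.sum_congr rfl fun a _ => lcI_mul (hX i a) (hY a j)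

private theorem OM_add (hX : OM k X) (hY : OM k Y) : OM k (X + Y) := fun i j => (hX i j).add (hY i j)

private theorem OM_neg (hX : OM k X) : OM k (-X) := fun i j => (hX i j).neg

private theorem OM_sub (hX : OM k X) (hY : OM k Y) : OM k (X - Y) := by
  rw [sub_eq_add_neg]
  exact OM_add hX (OM_neg hY)

private theorem OM_mono (hX : OM k X) (h : l ≤ k) : OM l X := fun i j => (hX i j).mono h

private theorem cM_add : cM k (X + Y) = cM k X + cM k Y := by
  ext i j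
  exact lcI_add

private theorem cM_sub : cM k (X - Y) = cM k X - cM k Y := by
  ext i j
  exact lcI_sub

private theorem cM_zero_of (hX : OM l X) (h : k < l) : cM k X = 0 := by
  ext i j
  exact hX i j k h

private theorem OM_CF (M : Matrix (Fin n) (Fin n) KK) : OM 0 (M.map CF) := fun _ _ =>
  OrdGeI.CF _

private theorem cM_CF (M : Matrix (Fin n) (Fin n) KK) : cM 0 (M.map CF) = M := by
  ext i j
  show lcI 0 (CF (M i j)) = M i j
  rw [lcI_CF, if_pos rfl]

private theorem OM_dl (hX : OM k X) : OM k (X.map dl) := fun i j => (hX i j).dl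

private theorem cM_dl : cM k (X.map dl) = (cM k X).map dK := by
  ext i j
  exact lcI_dl

private theorem OM_zero : OM k (0 : Matrix (Fin n) (Fin n) FK) := fun _ _ => OrdGeI.zero

end

namespace Dat

variable {n : ℕ} (Δ : Dat n)

private theorem OM_R : OM 1 Δ.R := by
  intro i j
  rw [R_sum, Matrix.sum_apply]
  refine ord_sum _ _ fun a _ => ?_
  rw [Matrix.smul_apply, smul_eq_mul, Matrix.map_apply]
  exact (OrdGeI.inv_sub (Δ.u a)).mul (OrdGeI.CF _)

private theorem cM_R : cM 1 Δ.R = 1 := by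
  ext i j
  show lcI 1 (Δ.R i j) = _
  rw [R_sum, Matrix.sum_apply, lcI_sum]
  have h : ∀ a, lcI 1 (((lam - CF (Δ.u a))⁻¹ • (Δ.E a).map CF) i j) = Δ.E a i j := by
    intro a
    rw [Matrix.smul_apply, smul_eq_mul, Matrix.map_apply]
    have h1 := lcI_mul (OrdGeI.inv_sub (Δ.u a)) (OrdGeI.CF (Δ.E a i j))
    rw [add_zero, lcI_inv_sub, one_mul, lcI_CF, if_pos rfl] at h1
    exact h1
  rw [Finset.sum_congr rfl fun a _ => h a, ← Matrix.sum_apply, E_sum]

private theorem OM_RB : OM 1 Δ.RB := OM_mul (OM_R Δ) (OM_CF _)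

private theorem cM_RB : cM 1 Δ.RB = Δ.B := by
  have h := cM_mul (OM_R Δ) (OM_CF Δ.B)
  rw [cM_R, cM_CF, Matrix.one_mul, add_zero] at h
  exact h

private theorem OM_RSB : OM 1 Δ.RSB := OM_mul (OM_mul (OM_R Δ) (OM_CF _)) (OM_CF _)

private theorem OM_bl (W : Matrix (Fin n) (Fin n) KK) : OM 2 (Δ.bl W) :=
  OM_mul (OM_mul (OM_R Δ) (OM_CF W)) (OM_RB Δ)

private theorem cM_bl (W : Matrix (Fin n) (Fin n) KK) : cM 2 (Δ.bl W) = W * Δ.B := by
  have h1 := cM_mul (OM_R Δ) (OM_CF W)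
  rw [cM_R, cM_CF, Matrix.one_mul] at h1
  have h2 := cM_mul (OM_mul (OM_R Δ) (OM_CF W)) (OM_RB Δ)
  rw [h1, cM_RB] at h2
  exact h2

private theorem OM_b0 (W : Matrix (Fin n) (Fin n) KK) : OM 1 (Δ.b0 W) := by
  unfold b0
  refine OM_sub (OM_neg ?_) (OM_mul (OM_mul (OM_R Δ) (OM_CF _)) (OM_CF _))
  exact OM_mono (OM_mul (OM_mul (OM_R Δ) (OM_CF W)) (OM_RSB Δ)) (by norm_num)

private theorem TE_zero (X : Matrix (Fin n) (Fin n) FK) : Δ.TE 0 X = Δ.TE0 X := by
  unfold TE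
  rw [zero_smul, add_zero]

private theorem TEk_zero (X : Matrix (Fin n) (Fin n) FK) : Δ.TEk 0 0 X = Δ.TE0 X := by
  unfold TEk
  rw [TE_zero, Rat.cast_zero, zero_smul, add_zero]

private theorem OM_TE0 {k : ℤ} {X : Matrix (Fin n) (Fin n) FK} (hX : OM k X) :
    OM k (Δ.TE0 X) := by
  unfold TE0
  refine OM_sub (OM_dl hX) (OM_sub ?_ ?_)
  · exact OM_mono (OM_mul (OM_RSB Δ) hX) (by omega)
  · exact OM_mono (OM_mul hX (OM_RSB Δ)) (by omega)

private theorem cM_TE0 {k : ℤ} {X : Matrix (Fin n) (Fin n) FK} (hX : OM k X) :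
    cM k (Δ.TE0 X) = (cM k X).map dK := by
  unfold TE0
  rw [cM_sub, cM_sub, cM_dl, cM_zero_of (OM_mul (OM_RSB Δ) hX) (by omega),
    cM_zero_of (OM_mul hX (OM_RSB Δ)) (by omega), sub_zero, sub_zero]

private theorem OM_gam (W : Matrix (Fin n) (Fin n) KK) (k : ℕ) : OM 1 (Δ.gam 0 W k) := by
  induction k with
  | zero => exact OM_zero
  | succ k ih =>
    show OM 1 (Δ.TE 0 (Δ.gam 0 W k) - Δ.bD 0 (Δ.na^[k] W))
    rw [TE_zero]
    refine OM_sub (OM_TE0 Δ ih) ?_
    unfold bD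
    rw [zero_smul, add_zero]
    exact OM_b0 Δ _

private theorem map_B_mul (M : Matrix (Fin n) (Fin n) KK) :
    (M * Δ.B).map dK = M.map dK * Δ.B := by
  ext i j
  rw [Matrix.map_apply, Matrix.mul_apply, Matrix.mul_apply, map_sum]
  refine Finset.sum_congr rfl fun a _ => ?_
  rw [Derivation.leibniz, Matrix.map_apply, smul_eq_mul, smul_eq_mul]
  have h : dK (Δ.B a j) = 0 := dK_cK _
  rw [h, mul_zero, zero_add, mul_comm]

private theorem TEk_iter (W : Matrix (Fin n) (Fin n) KK) (k : ℕ) :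
    OM 2 ((Δ.TEk 0 0)^[k] (Δ.bl W)) ∧
      cM 2 ((Δ.TEk 0 0)^[k] (Δ.bl W)) = W.map (dK^[k]) * Δ.B := by
  induction k with
  | zero =>
    refine ⟨OM_bl Δ W, ?_⟩
    rw [Function.iterate_zero, Function.iterate_zero]
    show cM 2 (Δ.bl W) = _
    rw [cM_bl]
    congr 1
  | succ k ih =>
    rw [Function.iterate_succ_apply', TEk_zero]
    refine ⟨OM_TE0 Δ ih.1, ?_⟩
    rw [cM_TE0 Δ ih.1, ih.2, map_B_mul]
    congr 1
    ext i j
    rw [Matrix.map_apply, Matrix.map_apply, Matrix.map_apply, Function.iterate_succ_apply']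

private theorem cM_TEd {X : Matrix (Fin n) (Fin n) FK} (hX : OM 1 X) :
    cM 2 (Δ.TEd X) = -cM 1 X + (Δ.B * cM 1 X - cM 1 X * Δ.B) := by
  unfold TEd
  have h1 := cM_mul (OM_RB Δ) hX
  have h2 := cM_mul hX (OM_RB Δ)
  have h3 : cM 2 (X.map dlam) = -cM 1 X := by
    ext i j
    show lcI 2 (dlam (X i j)) = -lcI 1 (X i j)
    rw [lcI_dlam]
    norm_num
  rw [cM_RB] at h1 h2
  rw [cM_add, cM_sub, h3]
  congr 1
  congr 1

theorem inf_eq (W : Matrix (Fin n) (Fin n) KK) (k : ℕ) :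
    Δ.na^[k] W * Δ.B = W.map (dK^[k]) * Δ.B - Δ.resS Finset.univ (Δ.gam 0 W k) +
      (Δ.B * Δ.resS Finset.univ (Δ.gam 0 W k) - Δ.resS Finset.univ (Δ.gam 0 W k) * Δ.B) := by
  have hres : Δ.resS Finset.univ (Δ.gam 0 W k) = cM 1 (Δ.gam 0 W k) := by
    ext i j
    unfold resS
    rw [Matrix.sum_apply]
    have h0 : Rg Δ.u Finset.univ 0 := Rg.zero
    exact res_sum Δ.inj (Δ.gam_Rg h0 W k i j)
  have h1 := Δ.iter 0 0 (by rw [map_zero, Rat.cast_zero]) W k
  have h2 := congrArg (cM 2) h1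
  rw [cM_bl, cM_add, (TEk_iter Δ W k).2, cM_TEd Δ (OM_gam Δ W k)] at h2
  rw [hres, h2]
  abel

end Dat

end Pool.Agent.CVG
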