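import Pool.Agent.CVG.Hahn

/-!
# CVG-KApi: basic facts on `KK`, its valuation and its derivation

PLAN. Everything through coefficients: `Ge_vK_iff`, `cofK_dK`, `cofK_sp`, `cofK_sp_mul`, `cofK_cK_mul`,
`KK_ext`. `vK x = q` iff `Ge vK q x` and `cofK x q ≠ 0` (`HahnSeries.addVal_apply`, `orderTop`).
`lead`: `z = cofK x q`; the difference has no coefficient of index `≤ q`; its order is `> q` (or it is
zero). `dK_sub_smul`: with `w = x - z s^q` one has `dK x - q x = dK w - q w`.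
-/

open scoped BigOperators

namespace Pool.Agent.CVG

private theorem vK_eq_iff {q : ℚ} {x : KK} :
    vK x = (q : WithTop ℚ) ↔ Ge vK q x ∧ cofK x q ≠ 0 := by
  constructor
  · intro h
    refine ⟨h.ge, ?_⟩
    have h1 : HahnSeries.addVal ℚ ℂ x = (q : WithTop ℚ) := h
    rw [HahnSeries.addVal_apply] at h1
    exact HahnSeries.coeff_orderTop_ne h1
  · rintro ⟨h1, h2⟩
    refine le_antisymm ?_ h1
    show HahnSeries.addVal ℚ ℂ x ≤ (q : WithTop ℚ)
    rw [HahnSeries.addVal_apply]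
    exact HahnSeries.orderTop_le_of_coeff_ne_zero h2

private theorem cofK_zero (q : ℚ) : cofK 0 q = 0 := rfl

private theorem cofK_sub (x y : KK) (q : ℚ) : cofK (x - y) q = cofK x q - cofK y q :=
  HahnSeries.coeff_sub

theorem vK_sp (q : ℚ) : vK (sp q) = (q : WithTop ℚ) := by
  rw [vK_eq_iff, Ge_vK_iff]
  refine ⟨fun r hr => ?_, ?_⟩
  · rw [cofK_sp, if_neg hr.ne]
  · rw [cofK_sp, if_pos rfl]
    exact one_ne_zero

theorem sp_add (p q : ℚ) : sp (p + q) = sp p * sp q := by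
  refine KK_ext fun r => ?_
  rw [cofK_sp_mul, cofK_sp, cofK_sp]
  by_cases h : r = p + q
  · rw [if_pos h, if_pos (by rw [h]; ring)]
  · rw [if_neg h, if_neg fun e => h (by rw [← e]; ring)]

theorem sp_zero : sp 0 = 1 := by
  show (HahnSeries.single (0 : ℚ) (1 : ℂ) : HahnSeries ℚ ℂ) = 1
  rfl

private theorem cofK_cK (z : ℂ) (q : ℚ) : cofK (cK z) q = if q = 0 then z else 0 := by
  have h := cofK_cK_mul z (sp 0) q
  rw [sp_zero, mul_one, ← sp_zero, cofK_sp] at h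
  rw [h]
  by_cases hq : q = 0
  · rw [if_pos hq, if_pos hq, mul_one]
  · rw [if_neg hq, if_neg hq, mul_zero]

private theorem ratCast_eq (q : ℚ) : (q : KK) = cK (q : ℂ) := (map_ratCast cK q).symm

theorem dK_sp (q : ℚ) : dK (sp q) = (q : KK) * sp q := by
  refine KK_ext fun r => ?_
  rw [cofK_dK, ratCast_eq, cofK_cK_mul, cofK_sp]
  by_cases h : r = q
  · rw [h]
  · rw [if_neg h, mul_zero, mul_zero]

theorem dK_cK (z : ℂ) : dK (cK z) = 0 := by
  refine KK_ext fun r => ?_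
  rw [cofK_dK, cofK_cK, cofK_zero]
  by_cases h : r = 0
  · rw [h, Rat.cast_zero, zero_mul]
  · rw [if_neg h, mul_zero]

theorem dK_ge : DerGe vK dK := by
  intro c f hf
  rw [Ge_vK_iff] at hf ⊢
  intro q hq
  rw [cofK_dK, hf q hq, mul_zero]

private theorem exists_vK' {x : KK} (hx : x ≠ 0) : ∃ q : ℚ, vK x = (q : WithTop ℚ) := by
  have h1 : vK x ≠ ⊤ := by
    intro h
    exact hx ((AddValuation.top_iff vK).1 h)
  obtain ⟨q, hq⟩ := WithTop.ne_top_iff_exists.1 h1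
  exact ⟨q, hq.symm⟩

theorem dK_eq (f : KK) (h : vK f ≠ ((0 : ℚ) : WithTop ℚ)) : vK (dK f) = vK f := by
  by_cases hf : f = 0
  · rw [hf, map_zero]
  · obtain ⟨q, hq⟩ := exists_vK' hf
    rw [hq] at h ⊢
    obtain ⟨h1, h2⟩ := vK_eq_iff.1 hq
    refine vK_eq_iff.2 ⟨dK_ge q f h1, ?_⟩
    rw [cofK_dK]
    refine mul_ne_zero ?_ h2
    intro h0
    apply h
    have h3 : q = 0 := by exact_mod_cast h0
    rw [h3]

theorem vK_cK (z : ℂ) (hz : z ≠ 0) : vK (cK z) = ((0 : ℚ) : WithTop ℚ) := by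
  rw [vK_eq_iff, Ge_vK_iff]
  refine ⟨fun r hr => ?_, ?_⟩
  · rw [cofK_cK, if_neg hr.ne]
  · rw [cofK_cK, if_pos rfl]
    exact hz

theorem vK_natCast (k : ℕ) (hk : k ≠ 0) : vK (k : KK) = ((0 : ℚ) : WithTop ℚ) := by
  rw [← map_natCast cK k]
  exact vK_cK _ (Nat.cast_ne_zero.2 hk)

theorem Ge_cK (z : ℂ) : Ge vK 0 (cK z) := by
  rw [Ge_vK_iff]
  intro r hr
  rw [cofK_cK, if_neg hr.ne]

theorem Ge_ratCast (q : ℚ) : Ge vK 0 (q : KK) := by
  rw [ratCast_eq]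
  exact Ge_cK _

theorem lead {q : ℚ} {x : KK} (h : Ge vK q x) :
    ∃ (z : ℂ) (q' : ℚ), q < q' ∧ Ge vK q' (x - cK z * sp q) := by
  have hle : ∀ r ≤ q, cofK (x - cK (cofK x q) * sp q) r = 0 := by
    intro r hr
    rw [cofK_sub, cofK_cK_mul, cofK_sp]
    rcases lt_or_eq_of_le hr with h1 | h1
    · rw [if_neg h1.ne, mul_zero, sub_zero]
      exact Ge_vK_iff.1 h r h1
    · rw [if_pos h1, mul_one, h1, sub_self]
  by_cases h0 : x - cK (cofK x q) * sp q = 0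
  · refine ⟨cofK x q, q + 1, by linarith, ?_⟩
    rw [h0]
    exact Ge.zero
  · obtain ⟨q', hq'⟩ := exists_vK' h0
    obtain ⟨h1, h2⟩ := vK_eq_iff.1 hq'
    refine ⟨cofK x q, q', ?_, h1⟩
    by_contra hcon
    exact h2 (hle q' (not_lt.1 hcon))

theorem dK_sub_smul {q q' : ℚ} {x : KK} {z : ℂ} (h : Ge vK q' (x - cK z * sp q)) :
    Ge vK q' (dK x - (q : KK) * x) := by
  rw [Ge_vK_iff] at h ⊢
  intro r hr
  have h1 := h r hr
  rw [cofK_sub, cofK_cK_mul, cofK_sp] at h1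
  rw [cofK_sub, cofK_dK, ratCast_eq, cofK_cK_mul, ← sub_mul]
  by_cases h2 : r = q
  · rw [h2, sub_self, zero_mul]
  · rw [if_neg h2, mul_zero, sub_zero] at h1
    rw [h1, mul_zero]

/-- a nonzero element has a rational valuation -/
theorem exists_vK {x : KK} (hx : x ≠ 0) : ∃ q : ℚ, vK x = (q : WithTop ℚ) := exists_vK' hx

end Pool.Agent.CVG
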