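import Pool.Agent.CVG.LauEx

/-!
# CVG: Laurent coefficients (definitions, no sorry)
-/

open scoped BigOperators

namespace Pool.Agent.CVG

/-- Laurent expansion at `a` -/
noncomputable def lau (a : KK) : FK →+* HahnSeries ℤ KK := (exists_lau a).choose

theorem lau_CF (a x : KK) : lau a (CF x) = HahnSeries.C x := (exists_lau a).choose_spec.1 x

theorem lau_lam (a : KK) : lau a lam = HahnSeries.C a + HahnSeries.single 1 1 :=
  (exists_lau a).choose_spec.2

/-- Laurent expansion at `∞` in the variable `1/λ` -/
noncomputable def lauI : FK →+* HahnSeries ℤ KK := exists_lauI.choose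

theorem lauI_CF (x : KK) : lauI (CF x) = HahnSeries.C x := exists_lauI.choose_spec.1 x

theorem lauI_lam : lauI lam = HahnSeries.single (-1) 1 := exists_lauI.choose_spec.2

/-- coefficient of `(λ - a)^k` -/
noncomputable def lc (a : KK) (k : ℤ) (f : FK) : KK := (lau a f).coeff k

/-- coefficient of `λ^(-k)` at infinity -/
noncomputable def lcI (k : ℤ) (f : FK) : KK := (lauI f).coeff k

/-- order at `a` at least `k` -/
def OrdGe (a : KK) (k : ℤ) (f : FK) : Prop := ∀ j < k, lc a j f = 0

/-- order at infinity at least `k` -/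
def OrdGeI (k : ℤ) (f : FK) : Prop := ∀ j < k, lcI j f = 0

end Pool.Agent.CVG
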