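import Pool.Agent.CVG.Lau

/-!
# CVG-LauA: API for Laurent coefficients at finite points

PLAN. `lau a` is a ring homomorphism into `HahnSeries ℤ KK`. `OrdGe a k f` means
`k ≤ orderTop (lau a f)`; products: `HahnSeries.coeff_mul`/`orderTop_mul`/
`HahnSeries.coeff_mul_order_add_order`; or prove general private lemmas for Hahn series over `ℤ`.
`lc_dlam`, `lc_dl`: the maps `f ↦ (d/dx) (lau a f)` (coefficientwise `(k+1) c_{k+1}`) and
`f ↦ (coefficientwise dK) (lau a f) - dK a * d/dx (lau a f)` are derivations of `FK` with values in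
`HahnSeries ℤ KK` (along `lau a`) agreeing with `lau a ∘ dlam`, `lau a ∘ dl` on `CF x` and `lam`, hence
everywhere (polynomials, then quotients, `FK_surj`).
-/

open scoped BigOperators

namespace Pool.Agent.CVG

private noncomputable def hm (φ : ℤ → KK → KK) (h0 : ∀ q, φ q 0 = 0) (x : HahnSeries ℤ KK) :
    HahnSeries ℤ KK where
  coeff q := φ q (x.coeff q)
  isPWO_support' := x.isPWO_support.mono (fun q hq => by
    intro h
    apply hq
    show φ q (x.coeff q) = 0
    rw [h, h0])

private theorem hm_coeff (φ : ℤ → KK → KK) (h0 : ∀ q, φ q 0 = 0) (x : HahnSeries ℤ KK) (q : ℤ) :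
    (hm φ h0 x).coeff q = φ q (x.coeff q) := rfl

private theorem hm_support (φ : ℤ → KK → KK) (h0 : ∀ q, φ q 0 = 0) (x : HahnSeries ℤ KK) :
    (hm φ h0 x).support ⊆ x.support := by
  intro q hq h
  apply hq
  show φ q (x.coeff q) = 0
  rw [h, h0]

private theorem hm_add (φ : ℤ → KK → KK)
    (h0 : ∀ q, φ q 0 = 0) (h1 : ∀ q a b, φ q (a + b) = φ q a + φ q b) (x y : HahnSeries ℤ KK) :
    hm φ h0 (x + y) = hm φ h0 x + hm φ h0 y := by
  ext q
  rw [HahnSeries.coeff_add, hm_coeff, hm_coeff, hm_coeff, HahnSeries.coeff_add, h1]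

private theorem hm_leibniz (φ : ℤ → KK → KK)
    (h0 : ∀ q, φ q 0 = 0) (h1 : ∀ q a b, φ q (a + b) = φ q a + φ q b)
    (h2 : ∀ p q a b, φ (p + q) (a * b) = φ p a * b + a * φ q b) (x y : HahnSeries ℤ KK) :
    hm φ h0 (x * y) = hm φ h0 x * y + x * hm φ h0 y := by
  ext q
  rw [hm_coeff, HahnSeries.coeff_add,
    HahnSeries.coeff_mul_left' x.isPWO_support (hm_support φ h0 x),
    HahnSeries.coeff_mul_right' y.isPWO_support (hm_support φ h0 y), HahnSeries.coeff_mul,
    ← Finset.sum_add_distrib]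
  have hs : ∀ (s : Finset (ℤ × ℤ)) (f : ℤ × ℤ → KK), φ q (∑ i ∈ s, f i) = ∑ i ∈ s, φ q (f i) := by
    classical
    intro s f
    induction s using Finset.induction_on with
    | empty => rw [Finset.sum_empty, Finset.sum_empty, h0]
    | insert a s ha ih => rw [Finset.sum_insert ha, Finset.sum_insert ha, h1, ih]
  rw [hs]
  apply Finset.sum_congr rfl
  intro ij hij
  have hq : ij.1 + ij.2 = q := (Finset.mem_antidiagonal.1 hij).2.2
  rw [hm_coeff, hm_coeff, ← h2, hq]

private theorem ext_der (φ : FK →+* HahnSeries ℤ KK) (E : FK → HahnSeries ℤ KK)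
    (hadd : ∀ f g, E (f + g) = E f + E g) (hmul : ∀ f g, E (f * g) = φ f * E g + φ g * E f)
    (hC : ∀ x, E (CF x) = 0) (hl : E lam = 0) (f : FK) : E f = 0 := by
  have hpow : ∀ n : ℕ, E (lam ^ n) = 0 := by
    intro n
    induction n with
    | zero => rw [pow_zero, ← map_one CF, hC]
    | succ n ih => rw [pow_succ, hmul, hl, ih, mul_zero, mul_zero, add_zero]
  have hP : ∀ P : Polynomial KK, E (pF P) = 0 := by
    intro P
    induction P using Polynomial.induction_on' with
    | add p q hp hq => rw [map_add, hadd, hp, hq, add_zero]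
    | monomial n a =>
      have e : pF (Polynomial.monomial n a) = CF a * lam ^ n := by
        rw [← Polynomial.C_mul_X_pow_eq_monomial, map_mul, map_pow, pF_C, pF_X]
      rw [e, hmul, hC, hpow, mul_zero, mul_zero, add_zero]
  obtain ⟨P, Q, hQ, rfl⟩ := FK_surj f
  have hQ0 : pF Q ≠ 0 := by
    intro h
    apply hQ
    apply pF_injective
    rw [h, map_zero]
  have e1 : E (pF P) = φ (pF P / pF Q) * E (pF Q) + φ (pF Q) * E (pF P / pF Q) := by
    rw [← hmul, div_mul_cancel₀ _ hQ0]
  rw [hP, hP, mul_zero, zero_add] at e1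
  rcases mul_eq_zero.1 e1.symm with h | h
  · exact absurd ((map_eq_zero φ).1 h) hQ0
  · exact h

private theorem cmul_low {x y : HahnSeries ℤ KK} {k l : ℤ} (hx : ∀ j < k, x.coeff j = 0)
    (hy : ∀ j < l, y.coeff j = 0) : (x * y).coeff (k + l) = x.coeff k * y.coeff l := by
  rw [HahnSeries.coeff_mul, Finset.sum_eq_single (k, l)]
  · intro ij hij hne
    have hq : ij.1 + ij.2 = k + l := (Finset.mem_antidiagonal.1 hij).2.2
    rcases lt_trichotomy ij.1 k with h | h | h
    · rw [hx _ h, zero_mul]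
    · exact absurd (Prod.ext h (by omega)) hne
    · rw [hy ij.2 (by omega), mul_zero]
  · intro hn
    by_contra hc
    refine hn (Finset.mem_antidiagonal.2 ⟨?_, ?_, rfl⟩)
    · intro h0
      apply hc
      show x.coeff k * y.coeff l = 0
      rw [h0, zero_mul]
    · intro h0
      apply hc
      show x.coeff k * y.coeff l = 0
      rw [h0, mul_zero]

private theorem cmul_zero {x y : HahnSeries ℤ KK} {k l : ℤ} (hx : ∀ j < k, x.coeff j = 0)
    (hy : ∀ j < l, y.coeff j = 0) : ∀ j < k + l, (x * y).coeff j = 0 := by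
  intro j hj
  rw [HahnSeries.coeff_mul]
  refine Finset.sum_eq_zero fun ij hij => ?_
  have hq : ij.1 + ij.2 = j := (Finset.mem_antidiagonal.1 hij).2.2
  rcases lt_or_ge ij.1 k with h | h
  · rw [hx _ h, zero_mul]
  · rw [hy ij.2 (by omega), mul_zero]

private theorem inv_low {z : HahnSeries ℤ KK} (hz : ∀ j < (0 : ℤ), z.coeff j = 0)
    (h0 : z.coeff 0 ≠ 0) : ∀ j < (0 : ℤ), (z⁻¹).coeff j = 0 := by
  have hz0 : z ≠ 0 := by
    rintro rfl
    exact h0 rfl
  have hw : z⁻¹ ≠ 0 := inv_ne_zero hz0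
  have h1 : (z⁻¹).coeff (z⁻¹).order ≠ 0 := fun h => hw (HahnSeries.coeff_order_eq_zero.1 h)
  have h2 : (z * z⁻¹).coeff (0 + (z⁻¹).order) = z.coeff 0 * (z⁻¹).coeff (z⁻¹).order :=
    cmul_low hz fun j hj => HahnSeries.coeff_eq_zero_of_lt_order hj
  have h3 : (z⁻¹).order = 0 := by
    by_contra hne
    rw [mul_inv_cancel₀ hz0, zero_add, HahnSeries.coeff_one, if_neg hne] at h2
    exact (mul_ne_zero h0 h1) h2.symm
  intro j hj
  exact HahnSeries.coeff_eq_zero_of_lt_order (by rw [h3]; exact hj)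

private theorem coeff_C' (x : KK) (k : ℤ) :
    (HahnSeries.C x : HahnSeries ℤ KK).coeff k = if k = 0 then x else 0 := by
  show (HahnSeries.single (0 : ℤ) x).coeff k = _
  by_cases h : k = 0
  · rw [if_pos h, h, HahnSeries.coeff_single_same]
  · rw [if_neg h, HahnSeries.coeff_single_of_ne h]

private theorem coeff_C_mul' (x : KK) (y : HahnSeries ℤ KK) (k : ℤ) :
    (HahnSeries.C x * y).coeff k = x * y.coeff k :=
  HahnSeries.coeff_single_zero_mul

private theorem coeff_single_mul' (p : ℤ) (y : HahnSeries ℤ KK) (k : ℤ) :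
    (HahnSeries.single p (1 : KK) * y).coeff k = y.coeff (k - p) := by
  have h := HahnSeries.coeff_single_mul (R := KK) (Γ' := ℤ) (r := 1) (x := y) (a := k) (b := p)
  rw [one_mul] at h
  exact h

private theorem lau_lam_sub (a : KK) : lau a (lam - CF a) = HahnSeries.single 1 1 := by
  rw [map_sub, lau_lam, lau_CF, add_sub_cancel_left]

private theorem single_inv : (HahnSeries.single (1 : ℤ) (1 : KK))⁻¹ = HahnSeries.single (-1) 1 := by
  symm
  apply eq_inv_of_mul_eq_one_left
  rw [HahnSeries.single_mul_single, mul_one]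
  rfl

private theorem thz (q : ℤ) : (fun (q : ℤ) (c : KK) => (q : KK) * c) q 0 = 0 := mul_zero _

private theorem dkz (q : ℤ) : (fun (_ : ℤ) (c : KK) => dK c) q 0 = 0 := map_zero dK

/-- the Euler operator -/
private noncomputable def thH : HahnSeries ℤ KK → HahnSeries ℤ KK :=
  hm (fun (q : ℤ) (c : KK) => (q : KK) * c) thz

private noncomputable def dkH : HahnSeries ℤ KK → HahnSeries ℤ KK :=
  hm (fun (_ : ℤ) (c : KK) => dK c) dkz

private theorem thH_coeff (x : HahnSeries ℤ KK) (q : ℤ) : (thH x).coeff q = (q : KK) * x.coeff q :=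
  rfl

private theorem dkH_coeff (x : HahnSeries ℤ KK) (q : ℤ) : (dkH x).coeff q = dK (x.coeff q) := rfl

private theorem thH_add (x y : HahnSeries ℤ KK) : thH (x + y) = thH x + thH y :=
  hm_add _ thz (fun _ _ _ => mul_add _ _ _) x y

private theorem dkH_add (x y : HahnSeries ℤ KK) : dkH (x + y) = dkH x + dkH y :=
  hm_add _ dkz (fun _ _ _ => map_add dK _ _) x y

private theorem thH_mul (x y : HahnSeries ℤ KK) : thH (x * y) = thH x * y + x * thH y :=
  hm_leibniz _ thz (fun _ _ _ => mul_add _ _ _) (fun p q a b => by push_cast; ring) x y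

private theorem dkH_mul (x y : HahnSeries ℤ KK) : dkH (x * y) = dkH x * y + x * dkH y :=
  hm_leibniz _ dkz (fun _ _ _ => map_add dK _ _) (fun p q a b => by
    show dK (a * b) = dK a * b + a * dK b
    rw [dK.leibniz, smul_eq_mul, smul_eq_mul]
    ring) x y

private theorem thH_C (x : KK) : thH (HahnSeries.C x) = 0 := by
  ext q
  rw [thH_coeff, coeff_C', HahnSeries.coeff_zero]
  by_cases h : q = 0
  · rw [h, Int.cast_zero, zero_mul]
  · rw [if_neg h, mul_zero]

private theorem thH_one : thH (HahnSeries.single 1 1) = HahnSeries.single 1 1 := by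
  ext q
  rw [thH_coeff]
  by_cases h : q = 1
  · rw [h, Int.cast_one, one_mul]
  · rw [HahnSeries.coeff_single_of_ne h, mul_zero]

private theorem dkH_C (x : KK) : dkH (HahnSeries.C x) = HahnSeries.C (dK x) := by
  ext q
  rw [dkH_coeff, coeff_C', coeff_C']
  by_cases h : q = 0
  · rw [if_pos h, if_pos h]
  · rw [if_neg h, if_neg h, map_zero]

private theorem dkH_one : dkH (HahnSeries.single 1 1) = 0 := by
  ext q
  rw [dkH_coeff, HahnSeries.coeff_zero]
  by_cases h : q = 1
  · rw [h, HahnSeries.coeff_single_same, dK.map_one_eq_zero]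
  · rw [HahnSeries.coeff_single_of_ne h, map_zero]

private theorem s1s1 : HahnSeries.single (-1 : ℤ) (1 : KK) * HahnSeries.single 1 1 = 1 := by
  rw [HahnSeries.single_mul_single, mul_one]
  rfl

private theorem lau_dlam (a : KK) (f : FK) :
    lau a (dlam f) = HahnSeries.single (-1) 1 * thH (lau a f) := by
  have h := ext_der (lau a)
    (fun f => lau a (dlam f) - HahnSeries.single (-1) 1 * thH (lau a f))
    (fun f g => by
      show lau a (dlam (f + g)) - _ = _
      rw [map_add, map_add, map_add, thH_add]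
      ring)
    (fun f g => by
      show lau a (dlam (f * g)) - _ = _
      rw [dlam.leibniz, smul_eq_mul, smul_eq_mul, map_add, map_mul, map_mul, map_mul, thH_mul]
      ring)
    (fun x => by
      show lau a (dlam (CF x)) - HahnSeries.single (-1) 1 * thH (lau a (CF x)) = 0
      rw [dlam_CF, map_zero, lau_CF, thH_C, mul_zero, sub_zero])
    (by
      show lau a (dlam lam) - HahnSeries.single (-1) 1 * thH (lau a lam) = 0
      rw [dlam_lam, map_one, lau_lam, thH_add, thH_C, thH_one, zero_add, s1s1, sub_self]) f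
  exact sub_eq_zero.1 h

private theorem lau_dl (a : KK) (f : FK) :
    lau a (dl f) = dkH (lau a f) -
      HahnSeries.C (dK a) * (HahnSeries.single (-1) 1 * thH (lau a f)) := by
  have h := ext_der (lau a)
    (fun f => lau a (dl f) - (dkH (lau a f) -
      HahnSeries.C (dK a) * (HahnSeries.single (-1) 1 * thH (lau a f))))
    (fun f g => by
      show lau a (dl (f + g)) - _ = _
      rw [map_add, map_add, map_add, thH_add, dkH_add]
      ring)
    (fun f g => by
      show lau a (dl (f * g)) - _ = _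
      rw [dl.leibniz, smul_eq_mul, smul_eq_mul, map_add, map_mul, map_mul, map_mul, thH_mul,
        dkH_mul]
      ring)
    (fun x => by
      show lau a (dl (CF x)) - (dkH (lau a (CF x)) -
        HahnSeries.C (dK a) * (HahnSeries.single (-1) 1 * thH (lau a (CF x)))) = 0
      rw [dl_CF, lau_CF, lau_CF, thH_C, dkH_C, mul_zero, mul_zero, sub_zero, sub_self])
    (by
      show lau a (dl lam) - (dkH (lau a lam) -
        HahnSeries.C (dK a) * (HahnSeries.single (-1) 1 * thH (lau a lam))) = 0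
      rw [dl_lam, map_zero, lau_lam, thH_add, thH_C, thH_one, zero_add, s1s1, dkH_add, dkH_C,
        dkH_one, mul_one, add_zero, sub_self, sub_self]) f
  exact sub_eq_zero.1 h

variable {a : KK} {k l : ℤ} {f g : FK}

theorem lc_add : lc a k (f + g) = lc a k f + lc a k g := by
  rw [lc, map_add, HahnSeries.coeff_add]; rfl

theorem lc_neg : lc a k (-f) = -lc a k f := by
  rw [lc, map_neg, HahnSeries.coeff_neg]; rfl

theorem lc_sub : lc a k (f - g) = lc a k f - lc a k g := by
  rw [lc, map_sub, HahnSeries.coeff_sub]; rfl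

private theorem lc_zero : lc a k 0 = 0 := by
  rw [lc, map_zero, HahnSeries.coeff_zero]

theorem lc_sum {ι : Type*} (s : Finset ι) (F : ι → FK) :
    lc a k (∑ i ∈ s, F i) = ∑ i ∈ s, lc a k (F i) := by
  classical
  induction s using Finset.induction_on with
  | empty => rw [Finset.sum_empty, Finset.sum_empty, lc_zero]
  | insert i s hi ih => rw [Finset.sum_insert hi, Finset.sum_insert hi, lc_add, ih]

theorem lc_CF_mul (x : KK) : lc a k (CF x * f) = x * lc a k f := by
  rw [lc, map_mul, lau_CF, coeff_C_mul']; rfl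

theorem lc_CF (x : KK) : lc a k (CF x) = if k = 0 then x else 0 := by
  rw [lc, lau_CF, coeff_C']

theorem lc_lam_sub_mul : lc a k ((lam - CF a) * f) = lc a (k - 1) f := by
  rw [lc, map_mul, lau_lam_sub, coeff_single_mul']; rfl

theorem lc_mul (hf : OrdGe a k f) (hg : OrdGe a l g) :
    lc a (k + l) (f * g) = lc a k f * lc a l g := by
  rw [lc, map_mul]
  exact cmul_low hf hg

theorem OrdGe.mul (hf : OrdGe a k f) (hg : OrdGe a l g) : OrdGe a (k + l) (f * g) := by
  intro j hj
  rw [lc, map_mul]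
  exact cmul_zero hf hg j hj

theorem OrdGe.add (hf : OrdGe a k f) (hg : OrdGe a k g) : OrdGe a k (f + g) := by
  intro j hj
  rw [lc_add, hf j hj, hg j hj, add_zero]

theorem OrdGe.mono (hf : OrdGe a k f) (h : l ≤ k) : OrdGe a l f :=
  fun j hj => hf j (lt_of_lt_of_le hj h)

theorem OrdGe.CF (x : KK) : OrdGe a 0 (CF x) := by
  intro j hj
  rw [lc_CF, if_neg hj.ne]

theorem OrdGe.zero : OrdGe a k 0 := fun _ _ => lc_zero

theorem OrdGe.inv_self : OrdGe a (-1) (lam - Pool.Agent.CVG.CF a)⁻¹ := by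
  intro j hj
  rw [lc, map_inv₀, lau_lam_sub, single_inv, HahnSeries.coeff_single_of_ne hj.ne]

theorem lc_inv_self : lc a (-1) (lam - Pool.Agent.CVG.CF a)⁻¹ = 1 := by
  rw [lc, map_inv₀, lau_lam_sub, single_inv, HahnSeries.coeff_single_same]

theorem OrdGe.inv_ne {b : KK} (h : a ≠ b) : OrdGe a 0 (lam - Pool.Agent.CVG.CF b)⁻¹ := by
  intro j hj
  rw [lc, map_inv₀, map_sub, lau_lam, lau_CF]
  refine inv_low ?_ ?_ j hj
  · intro i hi
    rw [HahnSeries.coeff_sub, HahnSeries.coeff_add, coeff_C', coeff_C', if_neg hi.ne, if_neg hi.ne,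
      HahnSeries.coeff_single_of_ne (by omega), add_zero, sub_zero]
  · rw [HahnSeries.coeff_sub, HahnSeries.coeff_add, coeff_C', coeff_C', if_pos rfl, if_pos rfl,
      HahnSeries.coeff_single_of_ne (by omega), add_zero]
    exact sub_ne_zero.2 h

theorem lc_dlam : lc a k (dlam f) = ((k : KK) + 1) * lc a (k + 1) f := by
  rw [lc, lau_dlam, coeff_single_mul', thH_coeff, sub_neg_eq_add]
  push_cast
  rfl

theorem lc_dl : lc a k (dl f) = dK (lc a k f) - dK a * (((k : KK) + 1) * lc a (k + 1) f) := by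
  rw [lc, lau_dl, HahnSeries.coeff_sub, coeff_C_mul', coeff_single_mul', thH_coeff, dkH_coeff,
    sub_neg_eq_add]
  push_cast
  rfl

/-- A vector field tangent to the section `a` preserves the order at `a`. -/
theorem OrdGe.DD {g : FK} (hg : OrdGe a 1 (g - Pool.Agent.CVG.CF (dK a))) (hf : OrdGe a k f) :
    OrdGe a k (DD g f) := by
  have h1 : OrdGe a (k - 1) (dlam f) := by
    intro j hj
    rw [lc_dlam, hf (j + 1) (by omega), mul_zero]
  have h2 : OrdGe a k ((g - Pool.Agent.CVG.CF (dK a)) * dlam f) := by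
    have h3 := hg.mul h1
    rwa [add_sub_cancel] at h3
  have e : Pool.Agent.CVG.DD g f = (dl f + Pool.Agent.CVG.CF (dK a) * dlam f) +
      (g - Pool.Agent.CVG.CF (dK a)) * dlam f := by
    rw [DD_apply]; ring
  rw [e]
  refine OrdGe.add ?_ h2
  intro j hj
  rw [lc_add, lc_dl, lc_CF_mul, lc_dlam, sub_add_cancel, hf j hj, map_zero]

end Pool.Agent.CVG
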