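import Pool.Agent.CVG.Hahn

/-!
# CVG-LauEx: Laurent expansions of rational functions

PLAN. `exists_lau`: `KK[X] → LaurentSeries KK` (`= HahnSeries ℤ KK`), `X ↦ C a + single 1 1`, is injective
(it is the Taylor expansion at `a`), so it extends to the field of fractions `FK` (synonym of
`RatFunc KK`): `IsFractionRing.lift` / `RatFunc.liftRingHom`. `exists_lauI`: the same with
`X ↦ single (-1) 1` (injective: `∑ p_n single (-n) 1 = 0` iff all `p_n = 0`).
-/

open scoped BigOperators

namespace Pool.Agent.CVG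

private theorem coeff_ev (ε : ℤ) (hε : ε ≠ 0) (Q : Polynomial KK) (n : ℕ) :
    (Q.eval₂ (HahnSeries.C : KK →+* HahnSeries ℤ KK) (HahnSeries.single ε 1)).coeff (n * ε) =
      Q.coeff n := by
  induction Q using Polynomial.induction_on' with
  | add P Q hP hQ =>
    rw [Polynomial.eval₂_add, HahnSeries.coeff_add, hP, hQ, Polynomial.coeff_add]
  | monomial m c =>
    rw [Polynomial.eval₂_monomial, HahnSeries.single_pow, HahnSeries.C_apply,
      HahnSeries.single_mul_single, one_pow, mul_one, zero_add, Polynomial.coeff_monomial,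
      HahnSeries.coeff_single]
    by_cases h : m = n
    · rw [if_pos h, if_pos]
      rw [h, nsmul_eq_mul]
    · rw [if_neg h, if_neg]
      intro h2
      apply h
      rw [nsmul_eq_mul] at h2
      have h3 := mul_right_cancel₀ hε h2
      exact_mod_cast h3.symm

private theorem inj_ev (ε : ℤ) (hε : ε ≠ 0) : Function.Injective
    (Polynomial.eval₂RingHom (HahnSeries.C : KK →+* HahnSeries ℤ KK) (HahnSeries.single ε 1)) := by
  rw [injective_iff_map_eq_zero]
  intro P hP
  ext n
  have h := coeff_ev ε hε P n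
  have h0 : P.eval₂ (HahnSeries.C : KK →+* HahnSeries ℤ KK) (HahnSeries.single ε 1) = 0 := hP
  rw [h0, HahnSeries.coeff_zero] at h
  rw [← h, Polynomial.coeff_zero]

private theorem ext_of_inj (z : HahnSeries ℤ KK) (h : Function.Injective
    (Polynomial.eval₂RingHom (HahnSeries.C : KK →+* HahnSeries ℤ KK) z)) :
    ∃ φ : FK →+* HahnSeries ℤ KK, (∀ x, φ (CF x) = HahnSeries.C x) ∧ φ lam = z := by
  refine ⟨(IsFractionRing.lift (A := Polynomial KK) (K := RatFunc KK) h :
    RatFunc KK →+* HahnSeries ℤ KK), fun x => ?_, ?_⟩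
  · rw [← pF_C]
    refine (IsFractionRing.lift_algebraMap (A := Polynomial KK) (K := RatFunc KK) h
      (Polynomial.C x)).trans ?_
    rw [Polynomial.coe_eval₂RingHom, Polynomial.eval₂_C]
  · rw [← pF_X]
    refine (IsFractionRing.lift_algebraMap (A := Polynomial KK) (K := RatFunc KK) h
      Polynomial.X).trans ?_
    rw [Polynomial.coe_eval₂RingHom, Polynomial.eval₂_X]

theorem exists_lau (a : KK) : ∃ φ : FK →+* HahnSeries ℤ KK,
    (∀ x, φ (CF x) = HahnSeries.C x) ∧ φ lam = HahnSeries.C a + HahnSeries.single 1 1 := by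
  refine ext_of_inj _ ?_
  rw [injective_iff_map_eq_zero]
  intro P hP
  have h1 : (Polynomial.taylor a P).eval₂ (HahnSeries.C : KK →+* HahnSeries ℤ KK)
      (HahnSeries.single 1 1) = 0 := by
    rw [Polynomial.taylor_apply, Polynomial.eval₂_comp, Polynomial.eval₂_add, Polynomial.eval₂_X,
      Polynomial.eval₂_C, add_comm]
    exact hP
  have h2 : Polynomial.taylor a P = 0 := by
    apply (injective_iff_map_eq_zero _).1 (inj_ev 1 one_ne_zero)
    exact h1
  exact Polynomial.taylor_injective a (by rw [h2, map_zero])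

theorem exists_lauI : ∃ φ : FK →+* HahnSeries ℤ KK,
    (∀ x, φ (CF x) = HahnSeries.C x) ∧ φ lam = HahnSeries.single (-1) 1 :=
  ext_of_inj _ (inj_ev (-1) (by norm_num))

end Pool.Agent.CVG
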