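import Pool.Agent.CVG.Iter
import Pool.Agent.CVG.GamRg
import Pool.Agent.CVG.LauA

/-!
# CVG-Leaf1: local expansions at a root

PLAN. At `a = u i` write orders and leading coefficients of entries (`OrdGe`, `lc`; a matrix product of entries of
orders `≥ k`, `≥ l` has entries of order `≥ k + l` and the `(k+l)`-coefficient matrix is the product of the
coefficient matrices). `R = ∑_j E_j/(lam - u_j)`: order `≥ -1`, coefficient `E_i` (`R_sum`, `lc_inv_self`,
`OrdGe.inv_ne`). `RB`: order `≥ -1`, coefficient `A_i`. `bl W = R W R B`: order `≥ -2`, coefficient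
`E_i W E_i B = w_i A_i` (`E_W_E`). In a chart `g` with `g - CF (dK (u i))` of order `≥ 1`: the matrix
`g RB - RSB = ∑_j (g - CF (dK u_j))/(lam - u_j) E_j B` has order `≥ 0`, and
`bD g W = R W (g RB - RSB) - R (Sd W) B` has order `≥ -1`; `DD g` preserves orders (`OrdGe.DD`). So
`gam g W k` has order `≥ -1` (induction; `TE g X = X.map (DD g) + [g RB - RSB, X]`). For `X` of order `≥ -1`
with coefficient `Γ`: `TEd X = X.map dlam + [RB, X]` has `(-2)`-coefficient `-Γ + [A_i, Γ]` (`lc_dlam` with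
`k = -2`). `leaf_eq`: the `(-2)`-coefficient of `iter`.
-/

open scoped BigOperators

namespace Pool.Agent.CVG

/-- all entries have order at least `k` -/
private def OM {n : ℕ} (a : KK) (k : ℤ) (X : Matrix (Fin n) (Fin n) FK) : Prop :=
  ∀ i j, OrdGe a k (X i j)

variable {n : ℕ} {a : KK} {k l : ℤ}

private theorem OM.add {X Y : Matrix (Fin n) (Fin n) FK} (hX : OM a k X) (hY : OM a k Y) :
    OM a k (X + Y) := fun i j => by
  rw [Matrix.add_apply]
  exact (hX i j).add (hY i j)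

private theorem ordGe_neg {f : FK} (hf : OrdGe a k f) : OrdGe a k (-f) := fun j hj => by
  rw [lc_neg, hf j hj, neg_zero]

private theorem OM.neg {X : Matrix (Fin n) (Fin n) FK} (hX : OM a k X) : OM a k (-X) :=
  fun i j => by
  rw [Matrix.neg_apply]
  exact ordGe_neg (hX i j)

private theorem OM.sub {X Y : Matrix (Fin n) (Fin n) FK} (hX : OM a k X) (hY : OM a k Y) :
    OM a k (X - Y) := by
  rw [sub_eq_add_neg]
  exact hX.add hY.neg

private theorem ordGe_sum {ι : Type*} (s : Finset ι) (F : ι → FK)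
    (h : ∀ i ∈ s, OrdGe a k (F i)) : OrdGe a k (∑ i ∈ s, F i) := fun j hj => by
  rw [lc_sum]
  exact Finset.sum_eq_zero fun i hi => h i hi j hj

private theorem OM.sum {ι : Type*} (s : Finset ι) (F : ι → Matrix (Fin n) (Fin n) FK)
    (h : ∀ i ∈ s, OM a k (F i)) : OM a k (∑ i ∈ s, F i) := fun p q => by
  rw [Matrix.sum_apply]
  exact ordGe_sum s _ fun i hi => h i hi p q

private theorem OM.mul {X Y : Matrix (Fin n) (Fin n) FK} (hX : OM a k X) (hY : OM a l Y) :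
    OM a (k + l) (X * Y) := fun i j => by
  rw [Matrix.mul_apply]
  exact ordGe_sum _ _ fun m _ => (hX i m).mul (hY m j)

private theorem OM.mul' {X Y : Matrix (Fin n) (Fin n) FK} {m : ℤ} (hX : OM a k X)
    (hY : OM a l Y) (h : k + l = m) : OM a m (X * Y) := h ▸ hX.mul hY

private theorem OM.mono {X : Matrix (Fin n) (Fin n) FK} (hX : OM a k X) (h : l ≤ k) :
    OM a l X := fun i j => (hX i j).mono h

private theorem OM.smul {X : Matrix (Fin n) (Fin n) FK} {f : FK} {m : ℤ} (hf : OrdGe a k f)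
    (hX : OM a l X) (h : k + l = m) : OM a m (f • X) := fun i j => by
  rw [Matrix.smul_apply, smul_eq_mul, ← h]
  exact hf.mul (hX i j)

private theorem OM.CF (X : Matrix (Fin n) (Fin n) KK) : OM a 0 (X.map CF) := fun i j => by
  rw [Matrix.map_apply]
  exact OrdGe.CF _

private theorem lcM_mul {X Y : Matrix (Fin n) (Fin n) FK} {m : ℤ} (hX : OM a k X)
    (hY : OM a l Y) (h : k + l = m) :
    (X * Y).map (lc a m) = X.map (lc a k) * Y.map (lc a l) := by
  subst h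
  ext i j
  rw [Matrix.map_apply, Matrix.mul_apply, Matrix.mul_apply, lc_sum]
  refine Finset.sum_congr rfl fun p _ => ?_
  rw [lc_mul (hX i p) (hY p j), Matrix.map_apply, Matrix.map_apply]

private theorem lcM_add (X Y : Matrix (Fin n) (Fin n) FK) :
    (X + Y).map (lc a k) = X.map (lc a k) + Y.map (lc a k) := by
  ext i j
  rw [Matrix.map_apply, Matrix.add_apply, lc_add, Matrix.add_apply, Matrix.map_apply,
    Matrix.map_apply]

private theorem lcM_sub (X Y : Matrix (Fin n) (Fin n) FK) :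
    (X - Y).map (lc a k) = X.map (lc a k) - Y.map (lc a k) := by
  ext i j
  rw [Matrix.map_apply, Matrix.sub_apply, lc_sub, Matrix.sub_apply, Matrix.map_apply,
    Matrix.map_apply]

private theorem lcM_CF (X : Matrix (Fin n) (Fin n) KK) : (X.map CF).map (lc a 0) = X := by
  ext i j
  rw [Matrix.map_apply, Matrix.map_apply, lc_CF, if_pos rfl]

namespace Dat

variable (Δ : Dat n)

private theorem R_OM (i : Fin n) : OM (Δ.u i) (-1) Δ.R := by
  rw [Δ.R_sum]
  refine OM.sum _ _ fun j _ => ?_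
  by_cases h : j = i
  · subst h
    exact OM.smul OrdGe.inv_self (OM.CF _) (by ring)
  · have h1 : OrdGe (Δ.u i) 0 (lam - CF (Δ.u j))⁻¹ :=
      OrdGe.inv_ne fun h2 => h (Δ.inj h2.symm)
    exact (OM.smul h1 (OM.CF _) (by ring : (0 : ℤ) + 0 = 0)).mono (by norm_num)

private theorem R_lc (i : Fin n) : Δ.R.map (lc (Δ.u i) (-1)) = Δ.E i := by
  ext p q
  rw [Δ.R_sum, Matrix.map_apply, Matrix.sum_apply, lc_sum, Finset.sum_eq_single i]
  · rw [Matrix.smul_apply, smul_eq_mul, Matrix.map_apply, mul_comm, lc_CF_mul, lc_inv_self,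
      mul_one]
  · intro j _ hj
    have h1 : OrdGe (Δ.u i) 0 (lam - CF (Δ.u j))⁻¹ :=
      OrdGe.inv_ne fun h2 => hj (Δ.inj h2.symm)
    rw [Matrix.smul_apply, smul_eq_mul, Matrix.map_apply, mul_comm, lc_CF_mul, h1 (-1) (by norm_num),
      mul_zero]
  · intro h
    exact absurd (Finset.mem_univ i) h

private theorem RB_OM (i : Fin n) : OM (Δ.u i) (-1) Δ.RB :=
  (Δ.R_OM i).mul' (OM.CF _) (by ring)

private theorem RB_lc (i : Fin n) : Δ.RB.map (lc (Δ.u i) (-1)) = Δ.A i := by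
  rw [RB, lcM_mul (Δ.R_OM i) (OM.CF Δ.B) (by ring), R_lc, lcM_CF, A]

private theorem bl_OM (i : Fin n) (W : Matrix (Fin n) (Fin n) KK) :
    OM (Δ.u i) (-2) (Δ.bl W) :=
  ((Δ.R_OM i).mul' (OM.CF W) (by ring : (-1 : ℤ) + 0 = -1)).mul' (Δ.RB_OM i) (by ring)

private theorem bl_lc (i : Fin n) (W : Matrix (Fin n) (Fin n) KK) :
    (Δ.bl W).map (lc (Δ.u i) (-2)) = Δ.w i W • Δ.A i := by
  rw [bl, lcM_mul ((Δ.R_OM i).mul' (OM.CF W) (by ring : (-1 : ℤ) + 0 = -1)) (Δ.RB_OM i)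
    (by ring), lcM_mul (Δ.R_OM i) (OM.CF W) (by ring : (-1 : ℤ) + 0 = -1), R_lc, lcM_CF, RB_lc, A,
    ← Matrix.mul_assoc, E_W_E, Matrix.smul_mul]

/-- `g RB - RSB` -/
private noncomputable def NN (g : FK) : Matrix (Fin n) (Fin n) FK := g • Δ.RB - Δ.RSB

private theorem NN_sum (g : FK) : Δ.NN g =
    ∑ j, ((g - CF (dK (Δ.u j))) * (lam - CF (Δ.u j))⁻¹) • (Δ.E j * Δ.B).map CF := by
  have hRS : Δ.R * Δ.S.map CF = ∑ j, (CF (dK (Δ.u j)) * (lam - CF (Δ.u j))⁻¹) • (Δ.E j).map CF := by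
    have hS : Δ.S.map CF = ∑ j, CF (dK (Δ.u j)) • (Δ.E j).map CF := by
      ext p q
      rw [Δ.S_sum, Matrix.map_apply, Matrix.sum_apply, Matrix.sum_apply, map_sum]
      refine Finset.sum_congr rfl fun j _ => ?_
      rw [Matrix.smul_apply, Matrix.smul_apply, Matrix.map_apply, smul_eq_mul, smul_eq_mul,
        map_mul]
    rw [hS, Δ.R_sum, Finset.sum_mul]
    refine Finset.sum_congr rfl fun j _ => ?_
    rw [Finset.mul_sum, Finset.sum_eq_single j]
    · rw [Matrix.smul_mul, Matrix.mul_smul, ← Matrix.map_mul, E_mul, if_pos rfl, smul_smul,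
        mul_comm]
    · intro l _ hl
      rw [Matrix.smul_mul, Matrix.mul_smul, ← Matrix.map_mul, E_mul, if_neg (Ne.symm hl),
        Matrix.map_zero _ (map_zero CF), smul_zero, smul_zero]
    · intro h
      exact absurd (Finset.mem_univ j) h
  rw [NN, RB, RSB, hRS, Δ.R_sum, Finset.sum_mul, Finset.sum_mul, Finset.smul_sum,
    ← Finset.sum_sub_distrib]
  refine Finset.sum_congr rfl fun j _ => ?_
  rw [Matrix.smul_mul, Matrix.smul_mul, smul_smul, ← Matrix.map_mul, ← sub_smul, sub_mul]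

private theorem NN_OM (i : Fin n) (g : FK) (hg : OrdGe (Δ.u i) 1 (g - CF (dK (Δ.u i)))) :
    OM (Δ.u i) 0 (Δ.NN g) := by
  rw [NN_sum]
  refine OM.sum _ _ fun j _ => ?_
  by_cases h : j = i
  · subst h
    exact OM.smul (hg.mul OrdGe.inv_self) (OM.CF _) (by ring)
  · have h1 : OrdGe (Δ.u i) 0 (lam - CF (Δ.u j))⁻¹ :=
      OrdGe.inv_ne fun h2 => h (Δ.inj h2.symm)
    have h2 : OrdGe (Δ.u i) 0 (g - CF (dK (Δ.u j))) := by
      have e : g - CF (dK (Δ.u j)) = (g - CF (dK (Δ.u i))) +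
          (CF (dK (Δ.u i)) + -CF (dK (Δ.u j))) := by ring
      rw [e]
      exact (hg.mono (by norm_num)).add ((OrdGe.CF _).add (ordGe_neg (OrdGe.CF _)))
    exact OM.smul (h2.mul h1) (OM.CF _) (by ring)

private theorem TE_NN (g : FK) (X : Matrix (Fin n) (Fin n) FK) :
    Δ.TE g X = X.map (DD g) + (Δ.NN g * X - X * Δ.NN g) := by
  have h : X.map (DD g) = X.map dl + g • X.map dlam := by
    ext p q
    simp [DD]
  rw [TE, TE0, TEd, NN, h, sub_mul, mul_sub, Matrix.smul_mul, Matrix.mul_smul, smul_add, smul_sub]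
  abel

private theorem bD_NN (g : FK) (W : Matrix (Fin n) (Fin n) KK) :
    Δ.bD g W = Δ.R * W.map CF * Δ.NN g - Δ.R * (Δ.Sd W).map CF * Δ.B.map CF := by
  rw [bD, b0, bl, NN, mul_sub, Matrix.mul_smul]
  abel

private theorem bD_OM (i : Fin n) (g : FK) (hg : OrdGe (Δ.u i) 1 (g - CF (dK (Δ.u i))))
    (W : Matrix (Fin n) (Fin n) KK) : OM (Δ.u i) (-1) (Δ.bD g W) := by
  rw [bD_NN]
  exact (((Δ.R_OM i).mul' (OM.CF W) (by ring : (-1 : ℤ) + 0 = -1)).mul' (Δ.NN_OM i g hg)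
    (by ring)).sub (((Δ.R_OM i).mul' (OM.CF _) (by ring : (-1 : ℤ) + 0 = -1)).mul' (OM.CF _)
    (by ring))

private theorem TE_OM (i : Fin n) (g : FK) (hg : OrdGe (Δ.u i) 1 (g - CF (dK (Δ.u i))))
    {X : Matrix (Fin n) (Fin n) FK} {k : ℤ} (hX : OM (Δ.u i) k X) :
    OM (Δ.u i) k (Δ.TE g X) := by
  rw [TE_NN]
  refine OM.add (fun p q => ?_) (((Δ.NN_OM i g hg).mul' hX (by ring)).sub
    (hX.mul' (Δ.NN_OM i g hg) (by ring)))
  rw [Matrix.map_apply]
  exact OrdGe.DD hg (hX p q)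

private theorem gam_OM (i : Fin n) (g : FK) (hg : OrdGe (Δ.u i) 1 (g - CF (dK (Δ.u i))))
    (W : Matrix (Fin n) (Fin n) KK) (k : ℕ) : OM (Δ.u i) (-1) (Δ.gam g W k) := by
  induction k with
  | zero =>
    intro p q
    exact OrdGe.zero
  | succ k ih =>
    rw [gam]
    exact (Δ.TE_OM i g hg ih).sub (Δ.bD_OM i g hg _)

theorem gam_ord (i : Fin n) (g : FK) (hg : OrdGe (Δ.u i) 1 (g - CF (dK (Δ.u i))))
    (W : Matrix (Fin n) (Fin n) KK) (k : ℕ) (a b : Fin n) :
    OrdGe (Δ.u i) (-1) (Δ.gam g W k a b) := Δ.gam_OM i g hg W k a b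

theorem leaf_eq (i : Fin n) (g : FK) (κ : ℚ) (hκ : dlam g = (κ : FK))
    (hg : OrdGe (Δ.u i) 1 (g - CF (dK (Δ.u i)))) (W : Matrix (Fin n) (Fin n) KK) (k : ℕ) :
    Δ.w i (Δ.na^[k] W) • Δ.A i =
      ((Δ.TEk g κ)^[k] (Δ.bl W)).map (lc (Δ.u i) (-2)) -
        (Δ.gam g W k).map (lc (Δ.u i) (-1)) +
        (Δ.A i * (Δ.gam g W k).map (lc (Δ.u i) (-1)) -
          (Δ.gam g W k).map (lc (Δ.u i) (-1)) * Δ.A i) := by
  have hγ := Δ.gam_OM i g hg W k
  have hd : ((Δ.gam g W k).map dlam).map (lc (Δ.u i) (-2)) =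
      -(Δ.gam g W k).map (lc (Δ.u i) (-1)) := by
    ext p q
    rw [Matrix.map_apply, Matrix.map_apply, lc_dlam, Matrix.neg_apply, Matrix.map_apply]
    norm_num
  rw [← bl_lc, Δ.iter g κ hκ W k, lcM_add, TEd, lcM_add, lcM_sub,
    lcM_mul (Δ.RB_OM i) hγ (by ring), lcM_mul hγ (Δ.RB_OM i) (by ring), RB_lc, hd]
  abel

theorem g0_ord (i : Fin n) (q : ℚ) :
    OrdGe (Δ.u i) 1 (g0 (Δ.u i) q - CF (dK (Δ.u i))) := by
  intro j hj
  have h : g0 (Δ.u i) q - CF (dK (Δ.u i)) = (lam - CF (Δ.u i)) * CF (q : KK) := by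
    rw [g0, map_ratCast]
    ring
  rw [h, lc_lam_sub_mul, lc_CF, if_neg (by omega)]

end Dat

end Pool.Agent.CVG
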