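import Pool.Agent.CVG.Dat
import Pool.Agent.CVG.ChB

/-!
# CVG-MStd: entrywise bounds for matrices

PLAN. `Matrix.stdBasis` coordinates are the entries. `GM` closure properties from `Ge`. `gm_mul_bdd`: for fixed
matrices `P`, `Q`, `GM v c X → GM v (c - C) (P * X * Q)`.
-/

open scoped BigOperators

namespace Pool.Agent.CVG

variable {F : Type*} [Field F] {v : AddValuation F (WithTop ℚ)} {n : ℕ}

private theorem std_repr (X : Matrix (Fin n) (Fin n) F) (i j : Fin n) :
    (Matrix.stdBasis F (Fin n) (Fin n)).repr X (i, j) = X i j := by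
  simp [Matrix.stdBasis, Pi.basis_repr]

theorem GE_std {c : ℚ} {X : Matrix (Fin n) (Fin n) F} :
    GE v (Matrix.stdBasis F (Fin n) (Fin n)) c X ↔ GM v c X := by
  constructor
  · intro h i j
    have h1 := h (i, j)
    rwa [std_repr] at h1
  · rintro h ⟨i, j⟩
    rw [std_repr]
    exact h i j

theorem GE_pi {c : ℚ} {x : Fin n → F} : GE v (Pi.basisFun F (Fin n)) c x ↔ ∀ i, Ge v c (x i) := by
  constructor
  · intro h i
    have h1 := h i
    rwa [Pi.basisFun_repr] at h1
  · intro h i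
    rw [Pi.basisFun_repr]
    exact h i

theorem GM.add {c : ℚ} {X Y : Matrix (Fin n) (Fin n) F} (hX : GM v c X) (hY : GM v c Y) :
    GM v c (X + Y) := fun i j => by
  rw [Matrix.add_apply]
  exact (hX i j).add (hY i j)

theorem GM.sub {c : ℚ} {X Y : Matrix (Fin n) (Fin n) F} (hX : GM v c X) (hY : GM v c Y) :
    GM v c (X - Y) := fun i j => by
  rw [Matrix.sub_apply]
  exact (hX i j).sub (hY i j)

theorem GM.neg {c : ℚ} {X : Matrix (Fin n) (Fin n) F} (hX : GM v c X) : GM v c (-X) :=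
  fun i j => by
  rw [Matrix.neg_apply]
  exact (hX i j).neg

theorem GM.mono {c c' : ℚ} {X : Matrix (Fin n) (Fin n) F} (hX : GM v c X) (h : c' ≤ c) :
    GM v c' X := fun i j => Ge.mono (hX i j) h

theorem GM.zero {c : ℚ} : GM v c (0 : Matrix (Fin n) (Fin n) F) := fun i j => by
  rw [Matrix.zero_apply]
  exact Ge.zero

theorem GM.mul {c d : ℚ} {X Y : Matrix (Fin n) (Fin n) F} (hX : GM v c X) (hY : GM v d Y) :
    GM v (c + d) (X * Y) := fun i j => by
  rw [Matrix.mul_apply]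
  exact Ge.sum _ _ fun k _ => (hX i k).mul (hY k j)

theorem GM.smul {c d : ℚ} {f : F} {X : Matrix (Fin n) (Fin n) F} (hf : Ge v c f) (hX : GM v d X) :
    GM v (c + d) (f • X) := fun i j => by
  rw [Matrix.smul_apply, smul_eq_mul]
  exact hf.mul (hX i j)

theorem GM.sum {c : ℚ} {κ : Type*} (s : Finset κ) (X : κ → Matrix (Fin n) (Fin n) F)
    (h : ∀ i ∈ s, GM v c (X i)) : GM v c (∑ i ∈ s, X i) := fun i j => by
  rw [Matrix.sum_apply]
  exact Ge.sum _ _ fun k hk => h k hk i j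

theorem exists_GM (v : AddValuation F (WithTop ℚ)) (X : Matrix (Fin n) (Fin n) F) :
    ∃ C : ℚ, GM v C X := by
  obtain ⟨C, hC⟩ := exists_Ge_finite v (fun q : Fin n × Fin n => X q.1 q.2)
  exact ⟨C, fun i j => hC (i, j)⟩

theorem gm_mul_bdd (v : AddValuation F (WithTop ℚ)) (P Q : Matrix (Fin n) (Fin n) F) :
    ∃ C : ℚ, ∀ (c : ℚ) (X : Matrix (Fin n) (Fin n) F), GM v c X → GM v (c - C) (P * X * Q) := by
  obtain ⟨a, ha⟩ := exists_GM v P
  obtain ⟨b, hb⟩ := exists_GM v Q
  refine ⟨-(a + b), fun c X hX => ?_⟩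
  exact ((ha.mul hX).mul hb).mono (by linarith)

end Pool.Agent.CVG
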