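import Mathlib

/-!
# CVG-MalA: replacing a gauge matrix by a polynomial one

PLAN. Notation `δ = X d/dX`. Let `w` be the order of `det P`, `adj(P) P = det P = X^w ε`, `ε` a unit. Let
`P₁` be the truncation of `P` at order `T = w + 1` (entries `trunc T`): `P - P₁ = X^T E`. Then
`P⁻¹ (P - P₁) = X^(T-w) ε⁻¹ adj(P) E =: X E'`, i.e. `P₁ = P Q`, `Q = 1 - X E'` (check `P X E' = X^T E` by
cancelling `det P`), `Q` invertible over `ℂ⟦X⟧` (`det Q` has constant term `1`). Hence `det P₁ ≠ 0`, and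
`D δP₁ - L P₁ = D P M Q + D P δQ = D P₁ (Q⁻¹ M Q + Q⁻¹ δQ)`.
-/

open scoped BigOperators PowerSeries

namespace Pool.Agent.CVG

private theorem map_delta_mul {ι : Type} [Fintype ι] (P Q : Matrix ι ι ℂ⟦X⟧) :
    (P * Q).map (fun f => PowerSeries.X * PowerSeries.derivative ℂ f) =
      P.map (fun f => PowerSeries.X * PowerSeries.derivative ℂ f) * Q +
        P * Q.map (fun f => PowerSeries.X * PowerSeries.derivative ℂ f) := by
  ext1 i j
  simp only [Matrix.map_apply, Matrix.mul_apply, Matrix.add_apply, map_sum, Derivation.leibniz,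
    smul_eq_mul, Finset.mul_sum]
  rw [← Finset.sum_add_distrib]
  refine Finset.sum_congr rfl fun k _ => ?_
  ring

private theorem exists_dvd_pow (d : ℂ⟦X⟧) (hd : d ≠ 0) :
    ∃ (w : ℕ) (c : ℂ⟦X⟧), d * c = PowerSeries.X ^ w := by
  obtain ⟨n, u, hu⟩ := IsDiscreteValuationRing.associated_pow_irreducible hd
    PowerSeries.X_irreducible
  exact ⟨n, u, hu⟩

theorem exists_poly_gauge {ι : Type} [Fintype ι] [DecidableEq ι] (D : ℂ⟦X⟧)
    (L P M : Matrix ι ι ℂ⟦X⟧) (hP : P.det ≠ 0)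
    (hM : D • P.map (fun f => PowerSeries.X * PowerSeries.derivative ℂ f) - L * P = D • (P * M)) :
    ∃ (P₁ : Matrix ι ι (Polynomial ℂ)) (M₁ : Matrix ι ι ℂ⟦X⟧),
      (P₁.map (fun p => (p : ℂ⟦X⟧))).det ≠ 0 ∧
      D • (P₁.map (fun p => (p : ℂ⟦X⟧))).map (fun f => PowerSeries.X * PowerSeries.derivative ℂ f) -
        L * P₁.map (fun p => (p : ℂ⟦X⟧)) = D • (P₁.map (fun p => (p : ℂ⟦X⟧)) * M₁) := by
  classical
  obtain ⟨w, c, hc⟩ := exists_dvd_pow P.det hP
  have hE : ∀ i j, ∃ e : ℂ⟦X⟧, P i j - ((PowerSeries.trunc (w + 1) (P i j) : Polynomial ℂ) : ℂ⟦X⟧) =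
      PowerSeries.X ^ (w + 1) * e := by
    intro i j
    have h1 : (PowerSeries.X : ℂ⟦X⟧) ^ (w + 1) ∣
        P i j - ((PowerSeries.trunc (w + 1) (P i j) : Polynomial ℂ) : ℂ⟦X⟧) := by
      rw [PowerSeries.X_pow_dvd_iff]
      intro m hm
      rw [map_sub, Polynomial.coeff_coe, PowerSeries.coeff_trunc, if_pos hm, sub_self]
    exact h1
  choose E hE using hE
  set P₁ : Matrix ι ι (Polynomial ℂ) := P.map (fun f => PowerSeries.trunc (w + 1) f) with hP₁
  set R : Matrix ι ι ℂ⟦X⟧ := P₁.map (fun p => (p : ℂ⟦X⟧)) with hR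
  set E' : Matrix ι ι ℂ⟦X⟧ := c • (P.adjugate * Matrix.of E) with hE'
  set Q : Matrix ι ι ℂ⟦X⟧ := 1 - (PowerSeries.X : ℂ⟦X⟧) • E' with hQ
  have h1 : P - R = (PowerSeries.X : ℂ⟦X⟧) ^ (w + 1) • Matrix.of E := by
    ext1 i j
    rw [Matrix.sub_apply, Matrix.smul_apply, Matrix.of_apply, smul_eq_mul, ← hE i j]
    rfl
  have h2 : P * ((PowerSeries.X : ℂ⟦X⟧) • E') = P - R := by
    rw [h1, hE', Matrix.mul_smul, Matrix.mul_smul, ← Matrix.mul_assoc, Matrix.mul_adjugate,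
      Matrix.smul_mul, Matrix.one_mul, smul_smul, smul_smul, mul_assoc, mul_comm c P.det, hc,
      ← pow_succ']
  have h3 : R = P * Q := by
    rw [hQ, Matrix.mul_sub, Matrix.mul_one, h2, sub_sub_cancel]
  have h4 : IsUnit Q.det := by
    rw [PowerSeries.isUnit_iff_constantCoeff, RingHom.map_det]
    have h5 : (PowerSeries.constantCoeff : ℂ⟦X⟧ →+* ℂ).mapMatrix Q = 1 := by
      rw [hQ, map_sub, map_one]
      have h6 : (PowerSeries.constantCoeff : ℂ⟦X⟧ →+* ℂ).mapMatrix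
          ((PowerSeries.X : ℂ⟦X⟧) • E') = 0 := by
        ext1 i j
        rw [RingHom.mapMatrix_apply, Matrix.map_apply, Matrix.smul_apply, smul_eq_mul, map_mul,
          PowerSeries.constantCoeff_X, zero_mul, Matrix.zero_apply]
      rw [h6, sub_zero]
    rw [h5, Matrix.det_one]
    exact isUnit_one
  refine ⟨P₁, Q⁻¹ * (M * Q + Q.map (fun f => PowerSeries.X * PowerSeries.derivative ℂ f)),
    ?_, ?_⟩
  · rw [← hR, h3, Matrix.det_mul]
    exact mul_ne_zero hP h4.ne_zero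
  · rw [← hR]
    have h7 : R * (Q⁻¹ * (M * Q + Q.map (fun f => PowerSeries.X * PowerSeries.derivative ℂ f))) =
        P * M * Q + P * Q.map (fun f => PowerSeries.X * PowerSeries.derivative ℂ f) := by
      rw [h3, Matrix.mul_assoc P Q, ← Matrix.mul_assoc Q Q⁻¹, Matrix.mul_nonsing_inv Q h4,
        Matrix.one_mul, Matrix.mul_add, Matrix.mul_assoc P M Q]
    rw [h7, h3, map_delta_mul, smul_add, smul_add, ← Matrix.smul_mul D (P * M) Q, ← hM,
      Matrix.sub_mul, Matrix.smul_mul, Matrix.mul_assoc L P Q]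
    abel

end Pool.Agent.CVG
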