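import Mathlib

/-!
# CVG-MalS: affine substitutions in polynomials

PLAN. `affSub Y0 Q m i = Y0_i + X^m ∑_j Q_{ij} Z_j`, as a polynomial in the `Z_j` over `ℂ⟦X⟧`. All three
statements are proved by induction on `g` (`MvPolynomial.induction_on`): constants, sums, products by a
variable. For `coeff_sub_dvd` note that multiplication by `C (Y0 i) + ∑ C (X^m Q_ij) X_j` sends
a polynomial with `X^(m |α|) ∣ coeff α` to one with the same property (`MvPolynomial.coeff_mul_X'`).
`pderiv` of a product by `MvPolynomial.pderiv_mul`/`Derivation.leibniz`.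
-/

open scoped BigOperators PowerSeries

namespace Pool.Agent.CVG

/-- The affine substitution `Y_i = Y0_i + X^m ∑_j Q_{ij} Z_j`. -/
noncomputable def affSub {ι : Type} [Fintype ι] (Y0 : ι → ℂ⟦X⟧) (Q : Matrix ι ι ℂ⟦X⟧) (m : ℕ)
    (i : ι) : MvPolynomial ι ℂ⟦X⟧ :=
  MvPolynomial.C (Y0 i) + ∑ j, MvPolynomial.C (PowerSeries.X ^ m * Q i j) * MvPolynomial.X j

variable {ι : Type} [Fintype ι] [DecidableEq ι] (Y0 : ι → ℂ⟦X⟧) (Q : Matrix ι ι ℂ⟦X⟧) (m : ℕ)

private theorem coeff_C_mul_X (c : ℂ⟦X⟧) (j : ι) (α : ι →₀ ℕ) :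
    MvPolynomial.coeff α (MvPolynomial.C c * MvPolynomial.X j : MvPolynomial ι ℂ⟦X⟧) =
      if Finsupp.single j 1 = α then c else 0 := by
  rw [MvPolynomial.coeff_C_mul, MvPolynomial.coeff_X']
  split_ifs <;> simp

private theorem dvd_affSub (i : ι) (α : ι →₀ ℕ) :
    PowerSeries.X ^ (m * α.degree) ∣ MvPolynomial.coeff α (affSub Y0 Q m i) := by
  unfold affSub
  rw [MvPolynomial.coeff_add, MvPolynomial.coeff_sum, MvPolynomial.coeff_C]
  refine dvd_add ?_ (Finset.dvd_sum fun j _ => ?_)
  · split_ifs with h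
    · rw [← h]
      simp
    · exact dvd_zero _
  · rw [coeff_C_mul_X]
    split_ifs with h
    · rw [← h, Finsupp.degree_single, mul_one]
      exact dvd_mul_right _ _
    · exact dvd_zero _

private theorem coeff_zero_affSub (i : ι) :
    MvPolynomial.coeff 0 (affSub Y0 Q m i) = Y0 i := by
  unfold affSub
  rw [MvPolynomial.coeff_add, MvPolynomial.coeff_sum, MvPolynomial.coeff_C, if_pos rfl,
    Finset.sum_eq_zero, add_zero]
  intro j _
  rw [coeff_C_mul_X, if_neg]
  intro h
  have h1 := congrArg (fun f => f j) h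
  simp at h1

private theorem coeff_single_affSub (i k : ι) :
    MvPolynomial.coeff (Finsupp.single k 1) (affSub Y0 Q m i) = PowerSeries.X ^ m * Q i k := by
  unfold affSub
  rw [MvPolynomial.coeff_add, MvPolynomial.coeff_sum, MvPolynomial.coeff_C, if_neg, zero_add,
    Finset.sum_eq_single k]
  · rw [coeff_C_mul_X, if_pos rfl]
  · intro j _ hj
    rw [coeff_C_mul_X, if_neg]
    intro h
    exact hj (Finsupp.single_left_injective one_ne_zero h)
  · intro h
    exact absurd (Finset.mem_univ k) h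
  · intro h
    have h1 := congrArg (fun f => f k) h
    simp at h1

private theorem coeff_single_mul (f g : MvPolynomial ι ℂ⟦X⟧) (k : ι) :
    MvPolynomial.coeff (Finsupp.single k 1) (f * g) =
      MvPolynomial.coeff 0 f * MvPolynomial.coeff (Finsupp.single k 1) g +
        MvPolynomial.coeff (Finsupp.single k 1) f * MvPolynomial.coeff 0 g := by
  rw [MvPolynomial.coeff_mul, Finsupp.antidiagonal_single, Finset.sum_map]
  have h1 : Finset.HasAntidiagonal.antidiagonal (1 : ℕ) = {((0 : ℕ), (1 : ℕ)), (1, 0)} := rfl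
  rw [h1, Finset.sum_pair (by simp)]
  simp

theorem coeff_sub_dvd (g : MvPolynomial ι ℂ) (α : ι →₀ ℕ) :
    PowerSeries.X ^ (m * α.degree) ∣
      MvPolynomial.coeff α (MvPolynomial.aeval (affSub Y0 Q m) g) := by
  induction g using MvPolynomial.induction_on generalizing α with
  | C a =>
    rw [MvPolynomial.aeval_C]
    change _ ∣ MvPolynomial.coeff α (MvPolynomial.C (algebraMap ℂ ℂ⟦X⟧ a))
    rw [MvPolynomial.coeff_C]
    split_ifs with h
    · rw [← h]
      simp
    · exact dvd_zero _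
  | add p q hp hq =>
    rw [map_add, MvPolynomial.coeff_add]
    exact dvd_add (hp α) (hq α)
  | mul_X p i hp =>
    rw [map_mul, MvPolynomial.aeval_X, MvPolynomial.coeff_mul]
    refine Finset.dvd_sum fun x hx => ?_
    have h1 : x.1 + x.2 = α := Finset.HasAntidiagonal.mem_antidiagonal.1 hx
    rw [← h1, map_add, mul_add, pow_add]
    exact mul_dvd_mul (hp x.1) (dvd_affSub Y0 Q m i x.2)

theorem coeff_sub_zero (g : MvPolynomial ι ℂ) :
    MvPolynomial.coeff 0 (MvPolynomial.aeval (affSub Y0 Q m) g) = MvPolynomial.aeval Y0 g := by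
  induction g using MvPolynomial.induction_on with
  | C a =>
    rw [MvPolynomial.aeval_C, MvPolynomial.aeval_C]
    change MvPolynomial.coeff 0 (MvPolynomial.C (algebraMap ℂ ℂ⟦X⟧ a)) = _
    rw [MvPolynomial.coeff_C, if_pos rfl]
  | add p q hp hq =>
    rw [map_add, map_add, MvPolynomial.coeff_add, hp, hq]
  | mul_X p i hp =>
    rw [map_mul, map_mul, MvPolynomial.aeval_X, MvPolynomial.aeval_X]
    have h1 : ∀ f g : MvPolynomial ι ℂ⟦X⟧, MvPolynomial.coeff 0 (f * g) =
        MvPolynomial.coeff 0 f * MvPolynomial.coeff 0 g := by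
      intro f g
      exact map_mul MvPolynomial.constantCoeff f g
    rw [h1, hp, coeff_zero_affSub]

theorem coeff_sub_single (g : MvPolynomial ι ℂ) (k : ι) :
    MvPolynomial.coeff (Finsupp.single k 1) (MvPolynomial.aeval (affSub Y0 Q m) g) =
      PowerSeries.X ^ m * ∑ l, MvPolynomial.aeval Y0 (MvPolynomial.pderiv l g) * Q l k := by
  induction g using MvPolynomial.induction_on with
  | C a =>
    rw [MvPolynomial.aeval_C]
    change MvPolynomial.coeff _ (MvPolynomial.C (algebraMap ℂ ℂ⟦X⟧ a)) = _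
    rw [MvPolynomial.coeff_C, if_neg]
    · rw [Finset.sum_eq_zero, mul_zero]
      intro l _
      rw [MvPolynomial.pderiv_C, map_zero, zero_mul]
    · intro h
      have h1 := congrArg (fun f => f k) h
      simp at h1
  | add p q hp hq =>
    rw [map_add, MvPolynomial.coeff_add, hp, hq, ← mul_add, ← Finset.sum_add_distrib]
    congr 1
    refine Finset.sum_congr rfl fun l _ => ?_
    rw [map_add, map_add, add_mul]
  | mul_X p i hp =>
    rw [map_mul, MvPolynomial.aeval_X, coeff_single_mul, hp, coeff_sub_zero, coeff_zero_affSub,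
      coeff_single_affSub]
    have h1 : ∀ l, MvPolynomial.aeval Y0 (MvPolynomial.pderiv l (p * MvPolynomial.X i)) * Q l k =
        MvPolynomial.aeval Y0 (MvPolynomial.pderiv l p) * Q l k * Y0 i +
          (if l = i then MvPolynomial.aeval Y0 p * Q i k else 0) := by
      intro l
      rw [MvPolynomial.pderiv_mul, map_add, map_mul, map_mul, MvPolynomial.aeval_X,
        MvPolynomial.pderiv_X]
      by_cases h : l = i
      · subst h
        rw [if_pos rfl, Pi.single_eq_same, map_one]
        ring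
      · rw [if_neg h, Pi.single_eq_of_ne (Ne.symm h), map_zero]
        ring
    simp only [h1]
    rw [Finset.sum_add_distrib, ← Finset.sum_mul, Finset.sum_ite_eq' Finset.univ i,
      if_pos (Finset.mem_univ i)]
    ring

theorem eval_sub (g : MvPolynomial ι ℂ) (Z : ι → ℂ⟦X⟧) :
    MvPolynomial.eval Z (MvPolynomial.aeval (affSub Y0 Q m) g) =
      MvPolynomial.aeval (fun i => Y0 i + PowerSeries.X ^ m * ∑ j, Q i j * Z j) g := by
  induction g using MvPolynomial.induction_on with
  | C a =>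
    rw [MvPolynomial.aeval_C, MvPolynomial.aeval_C]
    change MvPolynomial.eval Z (MvPolynomial.C (algebraMap ℂ ℂ⟦X⟧ a)) = _
    rw [MvPolynomial.eval_C]
  | add p q hp hq =>
    rw [map_add, map_add, map_add, hp, hq]
  | mul_X p i hp =>
    rw [map_mul, map_mul, map_mul, hp, MvPolynomial.aeval_X, MvPolynomial.aeval_X]
    congr 1
    unfold affSub
    rw [map_add, map_sum, MvPolynomial.eval_C, Finset.mul_sum]
    congr 1
    refine Finset.sum_congr rfl fun j _ => ?_
    rw [map_mul, MvPolynomial.eval_C, MvPolynomial.eval_X, mul_assoc]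

/-- coefficients are polynomials in `X` if the data are -/
theorem coeff_sub_poly (hY : ∀ i, ∃ p : Polynomial ℂ, Y0 i = (p : ℂ⟦X⟧))
    (hQ : ∀ i j, ∃ p : Polynomial ℂ, Q i j = (p : ℂ⟦X⟧)) (g : MvPolynomial ι ℂ) (α : ι →₀ ℕ) :
    ∃ p : Polynomial ℂ, MvPolynomial.coeff α (MvPolynomial.aeval (affSub Y0 Q m) g) =
      (p : ℂ⟦X⟧) := by
  obtain ⟨S, hS⟩ : ∃ S : Subring ℂ⟦X⟧, ∀ f, f ∈ S ↔ ∃ p : Polynomial ℂ, f = (p : ℂ⟦X⟧) := by
    refine ⟨(Polynomial.coeToPowerSeries.ringHom (R := ℂ)).range, fun f => ?_⟩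
    rw [RingHom.mem_range]
    constructor
    · rintro ⟨p, hp⟩
      exact ⟨p, hp.symm⟩
    · rintro ⟨p, hp⟩
      exact ⟨p, hp.symm⟩
  have hC : ∀ a : ℂ, algebraMap ℂ ℂ⟦X⟧ a ∈ S := by
    intro a
    rw [hS]
    exact ⟨Polynomial.C a, by rw [Polynomial.coe_C]; rfl⟩
  have hX : (PowerSeries.X : ℂ⟦X⟧) ∈ S := by
    rw [hS]
    exact ⟨Polynomial.X, by rw [Polynomial.coe_X]⟩
  have hA : ∀ i α, MvPolynomial.coeff α (affSub Y0 Q m i) ∈ S := by
    intro i α
    unfold affSub
    rw [MvPolynomial.coeff_add, MvPolynomial.coeff_sum, MvPolynomial.coeff_C]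
    refine add_mem ?_ (sum_mem fun j _ => ?_)
    · split_ifs
      · exact (hS _).2 (hY i)
      · exact zero_mem S
    · rw [coeff_C_mul_X]
      split_ifs
      · exact mul_mem (pow_mem hX m) ((hS _).2 (hQ i j))
      · exact zero_mem S
  rw [← hS]
  induction g using MvPolynomial.induction_on generalizing α with
  | C a =>
    rw [MvPolynomial.aeval_C]
    change MvPolynomial.coeff _ (MvPolynomial.C (algebraMap ℂ ℂ⟦X⟧ a)) ∈ S
    rw [MvPolynomial.coeff_C]
    split_ifs
    · exact hC a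
    · exact zero_mem S
  | add p q hp hq =>
    rw [map_add, MvPolynomial.coeff_add]
    exact add_mem (hp α) (hq α)
  | mul_X p i hp =>
    rw [map_mul, MvPolynomial.aeval_X, MvPolynomial.coeff_mul]
    exact sum_mem fun x _ => mul_mem (hp x.1) (hA i x.2)

end Pool.Agent.CVG
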