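import Mathlib

/-!
# CVG: piecewise linear functions on `ℚ` (no sorry)
-/

open scoped BigOperators

namespace Pool.Agent.CVG

/-- `φ : ℚ → ℚ` is piecewise affine with finitely many rational breakpoints. -/
def IsPL (φ : ℚ → ℚ) : Prop :=
  ∃ B : Finset ℚ, ∀ a b : ℚ, a ≤ b → (∀ x ∈ B, x ≤ a ∨ b ≤ x) →
    ∃ α β : ℚ, ∀ x, a ≤ x → x ≤ b → φ x = α * x + β

end Pool.Agent.CVG
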