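import Pool.Agent.CVG.KApi

/-!
# CVG: power series and Laurent series inside `KK` (no sorry)
-/

open scoped BigOperators PowerSeries

namespace Pool.Agent.CVG

/-- the embedding `ℂ⟦X⟧ → KK`, `X ↦ s` -/
noncomputable def psK : ℂ⟦X⟧ →+* KK := HahnSeries.ofPowerSeries ℚ ℂ

/-- Laurent series (a synonym carrying only a field structure) -/
def QL : Type := HahnSeries ℤ ℂ

noncomputable instance instFieldQL : Field QL := inferInstanceAs (Field (HahnSeries ℤ ℂ))

/-- the embedding `ℂ⟦X⟧ → QL` -/
noncomputable def psL : ℂ⟦X⟧ →+* QL := HahnSeries.ofPowerSeries ℤ ℂ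

/-- the embedding `QL → KK` -/
noncomputable def LK : QL →+* KK :=
  HahnSeries.embDomainRingHom (R := ℂ) (Int.castAddHom ℚ) Int.cast_injective
    (fun _ _ => Int.cast_le)

instance instCharZeroQL : CharZero QL :=
  charZero_of_injective_ringHom (f := (HahnSeries.C : ℂ →+* HahnSeries ℤ ℂ))
    HahnSeries.C_injective

end Pool.Agent.CVG
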