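import Pool.Agent.CVG.DyDefs
import Pool.Agent.CVG.KApi

/-!
# CVG: auxiliary lemmas for the residue functionals (used in ResR0, ResR1)
-/

open scoped BigOperators

namespace Pool.Agent.CVG.ResAux

/-- coefficientwise ring homomorphism -/
noncomputable def mp {A B : Type} [CommRing A] [CommRing B] (φ : A →+* B) :
    HahnSeries ℚ A →+* HahnSeries ℚ B where
  toFun x := x.map φ
  map_one' := by
    ext q
    rw [HahnSeries.map_coeff, HahnSeries.coeff_one, HahnSeries.coeff_one]
    split_ifs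
    · exact map_one φ
    · exact map_zero φ
  map_mul' _ _ := HahnSeries.map_mul (φ : A →ₙ+* B)
  map_zero' := by
    ext q
    simp
  map_add' x y := by
    ext q
    simp

theorem mp_coeff {A B : Type} [CommRing A] [CommRing B] (φ : A →+* B) (x : HahnSeries ℚ A)
    (q : ℚ) : (mp φ x).coeff q = φ (x.coeff q) := rfl

/-- the homomorphism on `LL` -/
noncomputable def mL {L : Type} [CommRing L] (ρ : RatFunc ℂ →+* L) : LL →+* HahnSeries ℚ L :=
  (mp ρ : HahnSeries ℚ (RatFunc ℂ) →+* HahnSeries ℚ L)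

/-- the homomorphism on `KK` -/
noncomputable def mK {L : Type} [CommRing L] (c : ℂ →+* L) : KK →+* HahnSeries ℚ L :=
  (mp c : HahnSeries ℚ ℂ →+* HahnSeries ℚ L)

theorem mL_coeff {L : Type} [CommRing L] (ρ : RatFunc ℂ →+* L) (x : LL) (q : ℚ) :
    (mL ρ x).coeff q = ρ (cofL x q) := rfl

theorem mK_coeff {L : Type} [CommRing L] (c : ℂ →+* L) (x : KK) (q : ℚ) :
    (mK c x).coeff q = c (cofK x q) := rfl

theorem mL_sL {L : Type} [CommRing L] (ρ : RatFunc ℂ →+* L) (q : ℚ) (f : RatFunc ℂ) :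
    mL ρ (sL q f) = HahnSeries.single q (ρ f) := by
  ext p
  rw [mL_coeff, cofL_sL]
  split_ifs with h
  · rw [h, HahnSeries.coeff_single_same]
  · rw [HahnSeries.coeff_single_of_ne h, map_zero]

theorem mL_hmC {L : Type} [CommRing L] (ρ : RatFunc ℂ →+* L) (z : KK) :
    mL ρ (hmC z) = mK (ρ.comp (RatFunc.C : ℂ →+* RatFunc ℂ)) z := by
  ext p
  rw [mL_coeff, cofL_hmC]
  rfl

theorem mp_mK {A B : Type} [CommRing A] [CommRing B] (φ : A →+* B) (c : ℂ →+* A) (z : KK) :
    mp φ (mK c z) = mK (φ.comp c) z := rfl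

theorem mp_single {A B : Type} [CommRing A] [CommRing B] (φ : A →+* B) (q : ℚ) (x : A) :
    mp φ (HahnSeries.single q x) = HahnSeries.single q (φ x) := by
  ext p
  rw [mp_coeff]
  by_cases h : p = q
  · rw [h, HahnSeries.coeff_single_same, HahnSeries.coeff_single_same]
  · rw [HahnSeries.coeff_single_of_ne h, HahnSeries.coeff_single_of_ne h, map_zero]

theorem u_ne (q : ℚ) (z : KK) : sL q RatFunc.X - hmC z ≠ 0 := by
  intro h
  have h1 : cofL (sL q RatFunc.X) q = cofL (hmC z) q := by rw [sub_eq_zero.1 h]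
  rw [cofL_sL, if_pos rfl, cofL_hmC, ← RatFunc.algebraMap_X, ← RatFunc.algebraMap_C] at h1
  have h2 := RatFunc.algebraMap_injective ℂ h1
  exact Polynomial.X_ne_C _ h2

theorem hs_unit {A : Type} [CommRing A] [IsDomain A] {u : HahnSeries ℚ A} {w : ℚ}
    (h1 : IsUnit (u.coeff w)) (h2 : ∀ r < w, u.coeff r = 0) : IsUnit u := by
  have h3 : u.coeff w ≠ 0 := h1.ne_zero
  have hu : u ≠ 0 := fun h => h3 (by rw [h, HahnSeries.coeff_zero])
  have h4 : u.order = w := by
    refine le_antisymm (HahnSeries.order_le_of_coeff_ne_zero h3) (not_lt.1 fun h => ?_)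
    exact hu (HahnSeries.coeff_order_eq_zero.1 (h2 _ h))
  rw [HahnSeries.isUnit_iff, HahnSeries.leadingCoeff_eq, h4]
  exact h1

theorem inv_regular {A L : Type} [CommRing A] [CommRing L] (φ : A →+* L) {u : HahnSeries ℚ A}
    (hu : IsUnit u) {E : HahnSeries ℚ L} (hE : E * mp φ u = 1) : ∃ G, E = mp φ G := by
  obtain ⟨G, hG⟩ := hu.exists_right_inv
  refine ⟨G, ?_⟩
  calc E = E * mp φ (u * G) := by rw [hG, map_one, mul_one]
    _ = (E * mp φ u) * mp φ G := by rw [map_mul, mul_assoc]
    _ = mp φ G := by rw [hE, one_mul]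

/-- the polar case -/
theorem inv_polar {B L : Type} [CommRing B] [CommRing L] (ψ : B →+* L) (ev : B →+* ℂ) (c : ℂ →+* B)
    (T : B) (X' : L) (hT : ψ T * X' = 1) (hev : ev T = 0) (_hc : ∀ z, ev (c z) = z) (q : ℚ) (z : KK)
    (hu : IsUnit (1 - mK c (sp (-q) * z) * HahnSeries.C T)) {E : HahnSeries ℚ L}
    (hE : E * (HahnSeries.single q X' - mK (ψ.comp c) z) = 1) (p : ℚ) :
    ∃ g : B, E.coeff p = ψ (T * g) ∧ ev g = if p = -q then 1 else 0 := by
  obtain ⟨G, hG⟩ := hu.exists_right_inv
  have h1 : HahnSeries.single q X' - mK (ψ.comp c) z =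
      HahnSeries.single q X' * mp ψ (1 - mK c (sp (-q) * z) * HahnSeries.C T) := by
    rw [map_sub, map_one, map_mul, mp_mK, map_mul (mK (ψ.comp c))]
    have h2 : mK (ψ.comp c) (sp (-q)) = HahnSeries.single (-q) 1 := by
      ext p
      rw [mK_coeff, cofK_sp]
      split_ifs with h
      · rw [h, HahnSeries.coeff_single_same, map_one]
      · rw [HahnSeries.coeff_single_of_ne h, map_zero]
    have h3 : mp ψ (HahnSeries.C T) = HahnSeries.C (ψ T) := mp_single ψ 0 T
    rw [h2, h3]
    have h4 : HahnSeries.single q X' * (HahnSeries.single (-q) 1 * mK (ψ.comp c) z *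
        HahnSeries.C (ψ T)) = mK (ψ.comp c) z := by
      have h5 : HahnSeries.single q X' * (HahnSeries.single (-q) (1 : L)) *
          HahnSeries.C (ψ T) = 1 := by
        rw [HahnSeries.single_mul_single, HahnSeries.C_apply, HahnSeries.single_mul_single,
          mul_one, add_neg_cancel, add_zero, mul_comm, hT]
        rfl
      calc _ = (HahnSeries.single q X' * (HahnSeries.single (-q) (1 : L)) *
          HahnSeries.C (ψ T)) * mK (ψ.comp c) z := by ring
        _ = _ := by rw [h5, one_mul]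
    rw [mul_sub, mul_one, h4]
  have h2 : E * HahnSeries.single q X' = mp ψ G := by
    have h3 : E * HahnSeries.single q X' * mp ψ ((1 - mK c (sp (-q) * z) * HahnSeries.C T) * G)
        = mp ψ G := by
      rw [map_mul, ← mul_assoc, mul_assoc E, ← h1, hE, one_mul]
    rw [hG, map_one, mul_one] at h3
    exact h3
  have h3 : E = HahnSeries.single (-q) (ψ T) * mp ψ G := by
    have h4 : HahnSeries.single q X' * HahnSeries.single (-q) (ψ T) = 1 := by
      rw [HahnSeries.single_mul_single, add_neg_cancel, mul_comm, hT]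
      rfl
    calc E = E * (HahnSeries.single q X' * HahnSeries.single (-q) (ψ T)) := by rw [h4, mul_one]
      _ = HahnSeries.single (-q) (ψ T) * (E * HahnSeries.single q X') := by ring
      _ = _ := by rw [h2]
  refine ⟨G.coeff (p + q), ?_, ?_⟩
  · rw [h3, HahnSeries.coeff_single_mul, mp_coeff, map_mul, sub_neg_eq_add]
  · have h4 : mp ev ((1 - mK c (sp (-q) * z) * HahnSeries.C T) * G) = 1 := by rw [hG, map_one]
    have h5 : mp ev (HahnSeries.C T) = 0 := by
      have h6 : mp ev (HahnSeries.C T) = HahnSeries.C (ev T) := mp_single ev 0 T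
      rw [h6, hev, map_zero]
    rw [map_mul, map_sub, map_one, map_mul, h5, mul_zero, sub_zero, one_mul] at h4
    have h6 : ev (G.coeff (p + q)) = (mp ev G).coeff (p + q) := rfl
    rw [h6, h4, HahnSeries.coeff_one]
    by_cases h : p = -q
    · rw [if_pos h, if_pos (by rw [h]; ring)]
    · rw [if_neg h, if_neg (fun h' => h (by linarith))]

/-- the derivation `T d/dT` of Laurent series -/
theorem exists_theta : ∃ D : HahnSeries ℤ ℂ → HahnSeries ℤ ℂ,
    (∀ x y, D (x + y) = D x + D y) ∧ (∀ x y, D (x * y) = D x * y + x * D y) ∧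
    ∀ x k, (D x).coeff k = (k : ℂ) * x.coeff k := by
  have hs0 : ∀ x : HahnSeries ℤ ℂ, Function.support (fun k : ℤ => (k : ℂ) * x.coeff k) ⊆
      x.support := by
    intro x k hk
    rw [HahnSeries.mem_support]
    intro h
    rw [Function.mem_support, h, mul_zero] at hk
    exact hk rfl
  let D : HahnSeries ℤ ℂ → HahnSeries ℤ ℂ := fun x =>
    ⟨fun k => (k : ℂ) * x.coeff k, x.isPWO_support.mono (hs0 x)⟩
  have hs : ∀ x, (D x).support ⊆ x.support := hs0
  refine ⟨D, ?_, ?_, fun x k => rfl⟩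
  · intro x y
    ext k
    show (k : ℂ) * (x + y).coeff k = (k : ℂ) * x.coeff k + (k : ℂ) * y.coeff k
    rw [HahnSeries.coeff_add, mul_add]
  · intro x y
    ext k
    rw [HahnSeries.coeff_add, HahnSeries.coeff_mul_left' x.isPWO_support (hs x),
      HahnSeries.coeff_mul_right' y.isPWO_support (hs y)]
    show (k : ℂ) * (x * y).coeff k = _
    rw [HahnSeries.coeff_mul, Finset.mul_sum, ← Finset.sum_add_distrib]
    refine Finset.sum_congr rfl fun ij hij => ?_
    have h1 : ij.1 + ij.2 = k := (Finset.mem_antidiagonal.1 hij).2.2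
    show (k : ℂ) * (x.coeff ij.1 * y.coeff ij.2) =
      ((ij.1 : ℤ) : ℂ) * x.coeff ij.1 * y.coeff ij.2 +
        x.coeff ij.1 * (((ij.2 : ℤ) : ℂ) * y.coeff ij.2)
    rw [← h1]
    push_cast
    ring

theorem ev_coeff (e : ℤ) (P : Polynomial ℂ) (k : ℤ) :
    (P.eval₂ (HahnSeries.C : ℂ →+* HahnSeries ℤ ℂ) (HahnSeries.single e 1)).coeff k =
      ∑ n ∈ Finset.range (P.natDegree + 1), if k = n * e then P.coeff n else 0 := by
  rw [Polynomial.eval₂_eq_sum_range, HahnSeries.coeff_sum]
  refine Finset.sum_congr rfl fun n _ => ?_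
  rw [HahnSeries.single_pow, HahnSeries.C_apply, HahnSeries.single_mul_single, one_pow, mul_one,
    zero_add]
  split_ifs with h
  · rw [h, nsmul_eq_mul, HahnSeries.coeff_single_same]
  · rw [HahnSeries.coeff_single_of_ne]
    rwa [nsmul_eq_mul]

theorem exists_rho (e : ℤ) (he : e ≠ 0) : ∃ ρ : RatFunc ℂ →+* HahnSeries ℤ ℂ,
    ∀ P : Polynomial ℂ, ρ (algebraMap (Polynomial ℂ) (RatFunc ℂ) P) =
      P.eval₂ (HahnSeries.C : ℂ →+* HahnSeries ℤ ℂ) (HahnSeries.single e 1) := by
  have h1 : Function.Injective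
      (Polynomial.eval₂RingHom (HahnSeries.C : ℂ →+* HahnSeries ℤ ℂ) (HahnSeries.single e 1)) := by
    rw [injective_iff_map_eq_zero]
    intro P hP
    rw [Polynomial.coe_eval₂RingHom] at hP
    ext n
    have h2 := ev_coeff e P (n * e)
    rw [hP, HahnSeries.coeff_zero] at h2
    have h3 : ∀ k : ℕ, ((n : ℤ) * e = k * e ↔ n = k) := by
      intro k
      constructor
      · intro h
        have := mul_right_cancel₀ he h
        exact_mod_cast this
      · rintro rfl
        rfl
    simp only [h3] at h2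
    rw [Finset.sum_ite_eq] at h2
    rw [Polynomial.coeff_zero]
    split_ifs at h2 with h4
    · exact h2.symm
    · rw [Finset.mem_range, not_lt] at h4
      exact Polynomial.coeff_eq_zero_of_natDegree_lt (by omega)
  exact ⟨IsFractionRing.lift h1, fun P => IsFractionRing.lift_algebraMap h1 P⟩

/-- expansions and derivatives -/
theorem rho_dy {e : ℤ} (D : HahnSeries ℤ ℂ → HahnSeries ℤ ℂ)
    (hadd : ∀ x y, D (x + y) = D x + D y) (hmul : ∀ x y, D (x * y) = D x * y + x * D y)
    (hD : ∀ x k, (D x).coeff k = (k : ℂ) * x.coeff k) (ρ : RatFunc ℂ →+* HahnSeries ℤ ℂ)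
    (hC : ∀ z, ρ (RatFunc.C z) = HahnSeries.C z) (hX : ρ RatFunc.X = HahnSeries.single e 1)
    (f : RatFunc ℂ) : HahnSeries.C (e : ℂ) * ρ (RatFunc.X * dy f) = D (ρ f) := by
  have hDC : ∀ z : ℂ, D (HahnSeries.C z) = 0 := by
    intro z
    ext k
    rw [hD, HahnSeries.coeff_zero, HahnSeries.C_apply]
    by_cases h : k = 0
    · rw [h, Int.cast_zero, zero_mul]
    · rw [HahnSeries.coeff_single_of_ne h, mul_zero]
  have hDX : D (HahnSeries.single e 1) = HahnSeries.C (e : ℂ) * HahnSeries.single e 1 := by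
    ext k
    rw [hD, HahnSeries.C_apply, HahnSeries.single_mul_single, zero_add, mul_one]
    by_cases h : k = e
    · rw [h, HahnSeries.coeff_single_same, HahnSeries.coeff_single_same, mul_one]
    · rw [HahnSeries.coeff_single_of_ne h, HahnSeries.coeff_single_of_ne h, mul_zero]
  set Q : RatFunc ℂ → Prop := fun f => HahnSeries.C (e : ℂ) * ρ (RatFunc.X * dy f) = D (ρ f)
    with hQ
  have qC : ∀ z, Q (RatFunc.C z) := by
    intro z
    show HahnSeries.C (e : ℂ) * ρ (RatFunc.X * dy (RatFunc.C z)) = D (ρ (RatFunc.C z))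
    rw [dy_C, mul_zero, map_zero, mul_zero, hC, hDC]
  have qX : Q RatFunc.X := by
    show HahnSeries.C (e : ℂ) * ρ (RatFunc.X * dy RatFunc.X) = D (ρ RatFunc.X)
    rw [dy_X, mul_one, hX, hDX]
  have qadd : ∀ f g, Q f → Q g → Q (f + g) := by
    intro f g hf hg
    show HahnSeries.C (e : ℂ) * ρ (RatFunc.X * dy (f + g)) = D (ρ (f + g))
    rw [dy_add, map_add, hadd, ← hf, ← hg, mul_add, map_add, mul_add]
  have qmul : ∀ f g, Q f → Q g → Q (f * g) := by
    intro f g hf hg
    show HahnSeries.C (e : ℂ) * ρ (RatFunc.X * dy (f * g)) = D (ρ (f * g))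
    rw [dy_mul, map_mul ρ f g, hmul, ← hf, ← hg]
    simp only [map_mul, map_add]
    ring
  have qpol : ∀ P : Polynomial ℂ, Q (algebraMap (Polynomial ℂ) (RatFunc ℂ) P) := by
    intro P
    induction P using Polynomial.induction_on' with
    | add P P' h h' => rw [map_add]; exact qadd _ _ h h'
    | monomial n z =>
      rw [← Polynomial.C_mul_X_pow_eq_monomial, map_mul, map_pow, RatFunc.algebraMap_C,
        RatFunc.algebraMap_X]
      refine qmul _ _ (qC z) ?_
      induction n with
      | zero =>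
        rw [pow_zero]
        have := qC 1
        rwa [map_one] at this
      | succ n ih =>
        rw [pow_succ]
        exact qmul _ _ ih qX
  obtain ⟨P, P', hP', rfl⟩ := IsFractionRing.div_surjective (A := Polynomial ℂ) f
  have hne : algebraMap (Polynomial ℂ) (RatFunc ℂ) P' ≠ 0 := by
    intro h
    exact nonZeroDivisors.ne_zero hP' (RatFunc.algebraMap_injective ℂ (h.trans (map_zero _).symm))
  set a := algebraMap (Polynomial ℂ) (RatFunc ℂ) P with ha
  set b := algebraMap (Polynomial ℂ) (RatFunc ℂ) P' with hb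
  have h1 : a / b * b = a := div_mul_cancel₀ _ hne
  have h2 : Q (a / b * b) := by rw [h1]; exact qpol P
  have h3 : Q b := qpol P'
  have h4 : HahnSeries.C (e : ℂ) * ρ (RatFunc.X * dy (a / b * b)) = D (ρ (a / b * b)) := h2
  have h5 : HahnSeries.C (e : ℂ) * ρ (RatFunc.X * dy b) = D (ρ b) := h3
  rw [dy_mul, map_mul ρ (a / b) b, hmul, ← h5] at h4
  have h6 : ρ b ≠ 0 := (map_ne_zero ρ).2 hne
  refine mul_right_cancel₀ h6 ?_
  simp only [map_mul, map_add] at h4 ⊢
  linear_combination h4

end Pool.Agent.CVG.ResAux
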