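import Pool.Agent.CVG.DyDefs
import Pool.Agent.CVG.KApi
import Pool.Agent.CVG.ResAux

/-!
# CVG-ResR0: the residue functional at `y = 0`

PLAN. `r f` = coefficient `-1` of the Laurent expansion of `f` at `0` (`RatFunc ℂ → LaurentSeries ℂ`,
coercion / `algebraMap`, or `RatFunc.coe...`). It kills derivatives (`d/dX` of a Laurent series has no
coefficient `-1`; two derivations `RatFunc ℂ → LaurentSeries ℂ` agreeing on `X` and constants agree).
Values: let `E = (s^q y - z)⁻¹ ∈ LL` (`z` = `hmC z`).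
 - `v z > q`: `E = s^(-q) y⁻¹ (1 - w/y)⁻¹`, `w = z s^(-q)`, `v w > 0`. The coefficients of `(1 - w/y)⁻¹` are
   polynomials in `1/y`, the constant term (`1/y ↦ 0`) is `1` for the coefficient at `0` and `0` for the
   others; `r (y⁻¹ y^(-k)) = [k = 0]`.
 - `v z = q`: `z = c s^q + ..`, `c ≠ 0`: `E = s^(-q) (y - c)⁻¹ (1 - w'/(y-c))⁻¹`, coefficients polynomials in
   `(y-c)⁻¹`, regular at `y = 0`: `r = 0`.
 - `v z < q`: `E = -z⁻¹ (1 - y s^q/z)⁻¹`, coefficients polynomials in `y`: `r = 0`.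
(To avoid infinite sums: an element `1 - m` with `v m > 0` whose coefficients lie in a subring `A` of
`RatFunc ℂ` is invertible in the Hahn series over `A`; a ring homomorphism of coefficient rings maps the
inverse to the inverse.)
-/

open scoped BigOperators

namespace Pool.Agent.CVG

open ResAux in
private theorem r0_regular (ρ : RatFunc ℂ →+* HahnSeries ℤ ℂ)
    (hC : ∀ z, ρ (RatFunc.C z) = HahnSeries.C z) (hX : ρ RatFunc.X = HahnSeries.single 1 1)
    {z : KK} {q w : ℚ} (hz : vK z = (w : WithTop ℚ)) (hw : w ≤ q) (p : ℚ) :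
    (ρ (cofL ((sL q RatFunc.X - hmC z)⁻¹) p)).coeff (-1) = 0 := by
  have hE : mL ρ ((sL q RatFunc.X - hmC z)⁻¹) * mL ρ (sL q RatFunc.X - hmC z) = 1 := by
    rw [← map_mul, inv_mul_cancel₀ (u_ne q z), map_one]
  set φ : PowerSeries ℂ →+* HahnSeries ℤ ℂ := HahnSeries.ofPowerSeries ℤ ℂ with hφ
  have hc : ρ.comp (RatFunc.C : ℂ →+* RatFunc ℂ) = φ.comp (PowerSeries.C : ℂ →+* PowerSeries ℂ) := by
    refine RingHom.ext fun y => ?_
    rw [RingHom.comp_apply, RingHom.comp_apply, hC, hφ, HahnSeries.ofPowerSeries_C]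
  have h0 : mL ρ (sL q RatFunc.X - hmC z) =
      mp φ (HahnSeries.single q PowerSeries.X - mK PowerSeries.C z) := by
    rw [map_sub, mL_sL, mL_hmC, hX, map_sub, mp_single, mp_mK, hc, hφ, HahnSeries.ofPowerSeries_X]
  have hzw : cofK z w ≠ 0 := by
    have h' : HahnSeries.orderTop (Γ := ℚ) (R := ℂ) z = (w : WithTop ℚ) := by
      rw [← hz]
      exact (HahnSeries.addVal_apply (Γ := ℚ) (R := ℂ) (x := z)).symm
    exact HahnSeries.coeff_orderTop_ne h'
  have hz0 : ∀ r < w, cofK z r = 0 := Ge_vK_iff.1 (le_of_eq hz.symm)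
  have hu : IsUnit (HahnSeries.single q (PowerSeries.X : PowerSeries ℂ) -
      mK (PowerSeries.C : ℂ →+* PowerSeries ℂ) z) := by
    refine hs_unit (w := w) ?_ fun r hr => ?_
    · rw [HahnSeries.coeff_sub, mK_coeff, PowerSeries.isUnit_iff_constantCoeff, map_sub,
        PowerSeries.constantCoeff_C]
      have h1 : PowerSeries.constantCoeff
          ((HahnSeries.single q (PowerSeries.X : PowerSeries ℂ)).coeff w) = 0 := by
        by_cases h : w = q
        · rw [h, HahnSeries.coeff_single_same, PowerSeries.constantCoeff_X]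
        · rw [HahnSeries.coeff_single_of_ne h, map_zero]
      rw [h1, zero_sub]
      exact (isUnit_iff_ne_zero.2 hzw).neg
    · rw [HahnSeries.coeff_sub, mK_coeff, hz0 r hr, map_zero, sub_zero,
        HahnSeries.coeff_single_of_ne (ne_of_lt (lt_of_lt_of_le hr hw))]
  rw [h0] at hE
  obtain ⟨G, hG⟩ := inv_regular φ hu hE
  rw [← mL_coeff, hG, mp_coeff, hφ]
  have h1 := PowerSeries.coeff_coe (G.coeff p) (-1)
  rw [if_pos (by norm_num)] at h1
  exact h1

open ResAux in
private theorem r0_polar (ρ : RatFunc ℂ →+* HahnSeries ℤ ℂ)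
    (hC : ∀ z, ρ (RatFunc.C z) = HahnSeries.C z) (hX : ρ RatFunc.X = HahnSeries.single 1 1)
    {z : KK} {q : ℚ} (hz : (q : WithTop ℚ) < vK z) (p : ℚ) :
    (ρ (cofL ((sL q RatFunc.X - hmC z)⁻¹) p)).coeff (-1) = if p = -q then 1 else 0 := by
  have hE : mL ρ ((sL q RatFunc.X - hmC z)⁻¹) * mL ρ (sL q RatFunc.X - hmC z) = 1 := by
    rw [← map_mul, inv_mul_cancel₀ (u_ne q z), map_one]
  set ψ : Polynomial ℂ →+* HahnSeries ℤ ℂ :=
    Polynomial.eval₂RingHom (HahnSeries.C : ℂ →+* HahnSeries ℤ ℂ) (HahnSeries.single (-1) 1)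
    with hψ
  have hψX : ψ Polynomial.X = HahnSeries.single (-1) 1 := by
    rw [hψ, Polynomial.coe_eval₂RingHom, Polynomial.eval₂_X]
  have hc : ρ.comp (RatFunc.C : ℂ →+* RatFunc ℂ) = ψ.comp (Polynomial.C : ℂ →+* Polynomial ℂ) := by
    refine RingHom.ext fun y => ?_
    rw [RingHom.comp_apply, RingHom.comp_apply, hC, hψ, Polynomial.coe_eval₂RingHom,
      Polynomial.eval₂_C]
  rw [map_sub, mL_sL, mL_hmC, hX, hc] at hE
  have hw : ∀ r ≤ 0, cofK (sp (-q) * z) r = 0 := by
    intro r hr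
    rw [cofK_sp_mul]
    by_contra hcon
    have h1 : vK z ≤ ((r - -q : ℚ) : WithTop ℚ) := by
      by_contra h2
      rw [not_le] at h2
      have h3 : HahnSeries.coeff (Γ := ℚ) (R := ℂ) z (r - -q) = 0 :=
        HahnSeries.coeff_eq_zero_of_lt_orderTop (by
          rw [← HahnSeries.addVal_apply (Γ := ℚ) (R := ℂ) (x := z)]
          exact h2)
      exact hcon h3
    have h2 := lt_of_lt_of_le hz h1
    rw [WithTop.coe_lt_coe] at h2
    linarith
  have hu : IsUnit (1 - mK (Polynomial.C : ℂ →+* Polynomial ℂ) (sp (-q) * z) *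
      HahnSeries.C Polynomial.X) := by
    refine hs_unit (w := 0) ?_ fun r hr => ?_
    · rw [HahnSeries.coeff_sub, HahnSeries.coeff_one, if_pos rfl, mul_comm,
        HahnSeries.C_mul_eq_smul, HahnSeries.coeff_smul, mK_coeff, hw 0 le_rfl, map_zero,
        smul_zero, sub_zero]
      exact isUnit_one
    · rw [HahnSeries.coeff_sub, HahnSeries.coeff_one, if_neg hr.ne, mul_comm,
        HahnSeries.C_mul_eq_smul, HahnSeries.coeff_smul, mK_coeff, hw r hr.le, map_zero,
        smul_zero, sub_zero]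
  obtain ⟨g, hg1, hg2⟩ := inv_polar ψ (Polynomial.evalRingHom (0 : ℂ)) Polynomial.C Polynomial.X
    (HahnSeries.single 1 1) (by
      rw [hψX, HahnSeries.single_mul_single, mul_one, neg_add_cancel]
      rfl) (by simp) (by simp) q z hu hE p
  rw [← mL_coeff, hg1, map_mul, hψX, HahnSeries.coeff_single_mul, one_mul, sub_neg_eq_add,
    neg_add_cancel, ← hg2, hψ, Polynomial.coe_eval₂RingHom, ev_coeff,
    Finset.sum_eq_single 0]
  · rw [if_pos (by simp), Polynomial.coe_evalRingHom, Polynomial.coeff_zero_eq_eval_zero]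
  · intro n _ hn
    rw [if_neg]
    intro h
    apply hn
    omega
  · intro h
    simp at h

open Classical in
theorem exists_r0 : ∃ r : RatFunc ℂ → ℂ, (∀ f g, r (f + g) = r f + r g) ∧
    (∀ (z : ℂ) f, r (RatFunc.C z * f) = z * r f) ∧ (∀ f, r (dy f) = 0) ∧
    (∀ P : Polynomial ℂ, r (algebraMap (Polynomial ℂ) (RatFunc ℂ) P) = 0) ∧
    ∀ (z : KK) (q p : ℚ), r (cofL ((sL q RatFunc.X - hmC z)⁻¹) p) =
      if (q : WithTop ℚ) < vK z ∧ p = -q then 1 else 0 := by
  obtain ⟨ρ, hρ⟩ := ResAux.exists_rho 1 one_ne_zero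
  obtain ⟨D, hD1, hD2, hD3⟩ := ResAux.exists_theta
  have hC : ∀ z, ρ (RatFunc.C z) = HahnSeries.C z := by
    intro z
    rw [← RatFunc.algebraMap_C, hρ, Polynomial.eval₂_C]
  have hX : ρ RatFunc.X = HahnSeries.single 1 1 := by
    rw [← RatFunc.algebraMap_X, hρ, Polynomial.eval₂_X]
  refine ⟨fun f => (ρ f).coeff (-1), ?_, ?_, ?_, ?_, ?_⟩
  · intro f g
    beta_reduce
    rw [map_add, HahnSeries.coeff_add]
  · intro z f
    beta_reduce
    rw [map_mul, hC, HahnSeries.C_mul_eq_smul, HahnSeries.coeff_smul, smul_eq_mul]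
  · intro f
    have h1 := ResAux.rho_dy D hD1 hD2 hD3 ρ hC hX f
    have h2 : (D (ρ f)).coeff 0 = 0 := by rw [hD3, Int.cast_zero, zero_mul]
    rw [← h1, map_mul, hX, Int.cast_one, map_one, one_mul, HahnSeries.coeff_single_mul, one_mul,
      zero_sub] at h2
    exact h2
  · intro P
    beta_reduce
    rw [hρ, ResAux.ev_coeff]
    refine Finset.sum_eq_zero fun n _ => ?_
    rw [if_neg (by omega)]
  · intro z q p
    beta_reduce
    by_cases h : (q : WithTop ℚ) < vK z
    · rw [r0_polar ρ hC hX h p]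
      by_cases h' : p = -q
      · rw [if_pos h', if_pos ⟨h, h'⟩]
      · rw [if_neg h', if_neg (fun h'' => h' h''.2)]
    · rw [if_neg (fun h'' => h h''.1)]
      rw [not_lt] at h
      obtain ⟨w, hw⟩ := WithTop.ne_top_iff_exists.1 (lt_of_le_of_lt h (WithTop.coe_lt_top q)).ne
      refine r0_regular ρ hC hX hw.symm ?_ p
      rw [← hw] at h
      exact WithTop.coe_le_coe.1 h

end Pool.Agent.CVG
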