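import Pool.Agent.CVG.ResG
import Pool.Agent.CVG.ResR0
import Pool.Agent.CVG.ResR1

/-!
# CVG-ResB: residues are bounded by Gauss valuations

PLAN. `res_general` with the functionals from `exists_r1` and `exists_r0`.
-/

open scoped BigOperators

namespace Pool.Agent.CVG

open Classical in
theorem res_ge {n : ℕ} {u : Fin n → KK} (hu : Function.Injective u) {f : FK}
    (hf : Rg u Finset.univ f) (a : KK) (q c : ℚ) (h : Ge (gv a q) c f) :
    Ge vK (c + q) (∑ j ∈ Finset.univ.filter (fun j => (q : WithTop ℚ) ≤ vK (u j - a)),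
      lc (u j) (-1) f) := by
  obtain ⟨r, hadd, hsmul, hder, hpol, hval⟩ := exists_r1
  have h1 := res_general hu a q (fun j => (q : WithTop ℚ) ≤ vK (u j - a)) r hadd hsmul hder hpol
    (fun j p => by
      rw [hval (u j - a) q p]
      by_cases h2 : (q : WithTop ℚ) ≤ vK (u j - a) ∧ p = -q
      · rw [if_pos h2, if_pos h2]
      · rw [if_neg h2, if_neg h2]) hf h
  have h3 : ∀ (d₁ d₂ : DecidablePred fun j : Fin n => (q : WithTop ℚ) ≤ vK (u j - a)),
      ∑ j ∈ @Finset.filter _ (fun j : Fin n => (q : WithTop ℚ) ≤ vK (u j - a)) d₁ Finset.univ,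
        lc (u j) (-1) f =
      ∑ j ∈ @Finset.filter _ (fun j : Fin n => (q : WithTop ℚ) ≤ vK (u j - a)) d₂ Finset.univ,
        lc (u j) (-1) f := fun d₁ d₂ => by rw [Subsingleton.elim d₁ d₂]
  rw [h3 _ _]
  exact h1

open Classical in
theorem res_gt {n : ℕ} {u : Fin n → KK} (hu : Function.Injective u) {f : FK}
    (hf : Rg u Finset.univ f) (a : KK) (q c : ℚ) (h : Ge (gv a q) c f) :
    Ge vK (c + q) (∑ j ∈ Finset.univ.filter (fun j => (q : WithTop ℚ) < vK (u j - a)),
      lc (u j) (-1) f) := by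
  obtain ⟨r, hadd, hsmul, hder, hpol, hval⟩ := exists_r0
  have h1 := res_general hu a q (fun j => (q : WithTop ℚ) < vK (u j - a)) r hadd hsmul hder hpol
    (fun j p => by
      rw [hval (u j - a) q p]
      by_cases h2 : (q : WithTop ℚ) < vK (u j - a) ∧ p = -q
      · rw [if_pos h2, if_pos h2]
      · rw [if_neg h2, if_neg h2]) hf h
  have h3 : ∀ (d₁ d₂ : DecidablePred fun j : Fin n => (q : WithTop ℚ) < vK (u j - a)),
      ∑ j ∈ @Finset.filter _ (fun j : Fin n => (q : WithTop ℚ) < vK (u j - a)) d₁ Finset.univ,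
        lc (u j) (-1) f =
      ∑ j ∈ @Finset.filter _ (fun j : Fin n => (q : WithTop ℚ) < vK (u j - a)) d₂ Finset.univ,
        lc (u j) (-1) f := fun d₁ d₂ => by rw [Subsingleton.elim d₁ d₂]
  rw [h3 _ _]
  exact h1

end Pool.Agent.CVG
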