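import Pool.Agent.CVG.GPD
import Pool.Agent.CVG.LauA
import Pool.Agent.CVG.Rg
import Pool.Agent.CVG.GaussA

/-!
# CVG-ResG: residues through a functional on `ℂ(y)`

PLAN. Define `ρ : LL → KK` coefficientwise, `cofK (ρ x) p = r (cofL x p)` (support contained in the
support); `ρ` is additive and `ρ (hmC x * y) = x * ρ y` (coefficients of a product are finite sums;
`r` is `ℂ`-linear). Claim: `sp q * ρ (gp a q f) = ∑_{j, S j} lc (u j) (-1) f` for `Rg u univ f`. By
`Rg_induction` it is enough to treat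
 - `lam^k`: right side `0` (no polar part); `gp a q (lam^k)` has coefficients polynomials in `y`, `hpol`;
 - `f = ((lam - u_j)⁻¹)^(k+1)`, `k ≥ 1`: `f = dlam h` with `h = -(1/k) ((lam - u_j)⁻¹)^k`, so
   `gp f = s^(-q) dLy (gp h)` (`gp_dlam`), `ρ = 0` by `hder`; and `lc (u i) (-1) f = 0` for all `i`;
 - `f = (lam - u_j)⁻¹`: `gp f = (s^q y - hmC (u_j - a))⁻¹`, use `hval`; the right side is `1` if `S j`,
   else `0` (`lc_inv_self`, `OrdGe.inv_ne`).
The bound: `Ge (gv a q) c f` means that the coefficients of `gp a q f` with index `< c` vanish.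
-/

open scoped BigOperators

namespace Pool.Agent.CVG

/-- the functional `r` applied to all coefficients -/
private theorem rg_exists_rho (r : RatFunc ℂ → ℂ) (hadd : ∀ f g, r (f + g) = r f + r g)
    (hsmul : ∀ (z : ℂ) f, r (RatFunc.C z * f) = z * r f) :
    ∃ ρ : LL → KK, (∀ x p, cofK (ρ x) p = r (cofL x p)) ∧ ∀ x y, ρ (hmC x * y) = x * ρ y := by
  let rA : RatFunc ℂ →+ ℂ := AddMonoidHom.mk' r hadd
  let ρ : HahnSeries ℚ (RatFunc ℂ) → HahnSeries ℚ ℂ := fun x => HahnSeries.map x rA
  have hρ : ∀ (x : HahnSeries ℚ (RatFunc ℂ)) (p : ℚ), (ρ x).coeff p = rA (x.coeff p) :=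
    fun x p => rfl
  have hcoe : ∀ f, rA f = r f := fun f => rfl
  refine ⟨ρ, fun x p => rfl, fun x y => KK_ext fun p => ?_⟩
  let x' : HahnSeries ℚ ℂ := x
  let y' : HahnSeries ℚ (RatFunc ℂ) := y
  let h' : HahnSeries ℚ (RatFunc ℂ) := hmC x
  have hh : ∀ i, h'.coeff i = RatFunc.C (x'.coeff i) := fun i => cofL_hmC x i
  have hsub : h'.support ⊆ x'.support := by
    intro i hi
    rw [HahnSeries.mem_support] at hi ⊢
    intro h0
    exact hi (by rw [hh, h0, map_zero])
  have hsub2 : (ρ y').support ⊆ y'.support := by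
    intro i hi
    rw [HahnSeries.mem_support] at hi ⊢
    intro h0
    exact hi (by rw [hρ, h0, map_zero])
  have e1 : (h' * y').coeff p = ∑ ij ∈ Finset.antidiagonal x'.isPWO_support y'.isPWO_support p,
      h'.coeff ij.1 * y'.coeff ij.2 := HahnSeries.coeff_mul_left' _ hsub
  have e2 : (x' * ρ y').coeff p =
      ∑ ij ∈ Finset.antidiagonal x'.isPWO_support y'.isPWO_support p,
      x'.coeff ij.1 * (ρ y').coeff ij.2 := HahnSeries.coeff_mul_right' _ hsub2
  show (ρ (h' * y')).coeff p = (x' * ρ y').coeff p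
  rw [hρ, e1, e2, map_sum]
  refine Finset.sum_congr rfl fun ij _ => ?_
  rw [hh, hρ, hcoe, hcoe, hsmul]

private theorem rg_poly_mul {x y : LL}
    (hx : ∀ p, cofL x p ∈ (algebraMap (Polynomial ℂ) (RatFunc ℂ)).range)
    (hy : ∀ p, cofL y p ∈ (algebraMap (Polynomial ℂ) (RatFunc ℂ)).range) (p : ℚ) :
    cofL (x * y) p ∈ (algebraMap (Polynomial ℂ) (RatFunc ℂ)).range := by
  let x' : HahnSeries ℚ (RatFunc ℂ) := x
  let y' : HahnSeries ℚ (RatFunc ℂ) := y
  show (x' * y').coeff p ∈ _
  rw [HahnSeries.coeff_mul]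
  exact sum_mem fun ij _ => mul_mem (hx ij.1) (hy ij.2)

private theorem rg_poly_lam (a : KK) (q : ℚ) (k : ℕ) (p : ℚ) :
    cofL (gp a q (lam ^ k)) p ∈ (algebraMap (Polynomial ℂ) (RatFunc ℂ)).range := by
  induction k generalizing p with
  | zero =>
    rw [pow_zero, ← map_one CF, gp_CF, cofL_hmC]
    exact ⟨Polynomial.C (cofK 1 p), RatFunc.algebraMap_C _⟩
  | succ k ih =>
    rw [pow_succ, map_mul]
    refine rg_poly_mul ih (fun p => ?_) p
    rw [gp_lam, cofL_add, cofL_hmC, cofL_sL]
    refine add_mem ⟨Polynomial.C (cofK a p), RatFunc.algebraMap_C _⟩ ?_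
    by_cases h : p = q
    · rw [if_pos h]
      exact ⟨Polynomial.X, RatFunc.algebraMap_X⟩
    · rw [if_neg h]
      exact zero_mem _

private theorem rg_ord_lam (b : KK) (k : ℕ) : OrdGe b 0 (lam ^ k) := by
  have h1 : OrdGe b 0 lam := by
    have h2 : OrdGe b 0 (lam - CF b) := by
      intro j hj
      rw [← mul_one (lam - CF b), lc_lam_sub_mul, ← map_one CF, lc_CF, if_neg (by omega)]
    have h3 := h2.add (OrdGe.CF (a := b) b)
    rwa [sub_add_cancel] at h3
  induction k with
  | zero =>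
    rw [pow_zero, ← map_one CF]
    exact OrdGe.CF 1
  | succ k ih =>
    rw [pow_succ]
    have := ih.mul h1
    rwa [add_zero] at this

open Classical in
theorem res_general {n : ℕ} {u : Fin n → KK} (hu : Function.Injective u) (a : KK) (q : ℚ)
    (S : Fin n → Prop) (r : RatFunc ℂ → ℂ) (hadd : ∀ f g, r (f + g) = r f + r g)
    (hsmul : ∀ (z : ℂ) f, r (RatFunc.C z * f) = z * r f) (hder : ∀ f, r (dy f) = 0)
    (hpol : ∀ P : Polynomial ℂ, r (algebraMap (Polynomial ℂ) (RatFunc ℂ) P) = 0)
    (hval : ∀ (j : Fin n) (p : ℚ), r (cofL ((sL q RatFunc.X - hmC (u j - a))⁻¹) p) =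
      if S j ∧ p = -q then 1 else 0) {f : FK} (hf : Rg u Finset.univ f) {c : ℚ}
    (h : Ge (gv a q) c f) :
    Ge vK (c + q) (∑ j ∈ Finset.univ.filter S, lc (u j) (-1) f) := by
  obtain ⟨ρ, hρ, hρm⟩ := rg_exists_rho r hadd hsmul
  have hr0 : r 0 = 0 := by
    have := hadd 0 0
    rw [add_zero] at this
    exact left_eq_add.1 this
  have hρa : ∀ x y, ρ (x + y) = ρ x + ρ y := by
    intro x y
    refine KK_ext fun p => ?_
    rw [cofK_add, hρ, hρ, hρ, cofL_add, hadd]
  have hK0 : ∀ p, cofK 0 p = 0 := fun p => rfl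
  have key : ∀ g : FK, Rg u Finset.univ g →
      sp q * ρ (gp a q g) = ∑ j ∈ Finset.univ.filter S, lc (u j) (-1) g := by
    intro g hg
    have hsm : ∀ (x : KK) (g : FK),
        sp q * ρ (gp a q g) = ∑ j ∈ Finset.univ.filter S, lc (u j) (-1) g →
        sp q * ρ (gp a q (CF x * g)) = ∑ j ∈ Finset.univ.filter S, lc (u j) (-1) (CF x * g) := by
      intro x g h1
      rw [map_mul, gp_CF, hρm, mul_left_comm, h1, Finset.mul_sum]
      exact Finset.sum_congr rfl fun j _ => (lc_CF_mul x).symm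
    refine Rg_induction hu hg _ ?_ hsm ?_ ?_
    · intro g1 g2 h1 h2
      rw [map_add, hρa, mul_add, h1, h2, ← Finset.sum_add_distrib]
      exact Finset.sum_congr rfl fun j _ => lc_add.symm
    · intro k
      have h1 : ρ (gp a q (lam ^ k)) = 0 := by
        refine KK_ext fun p => ?_
        rw [hρ, hK0]
        obtain ⟨P, hP⟩ := rg_poly_lam a q k p
        rw [← hP]
        exact hpol P
      rw [h1, mul_zero]
      refine (Finset.sum_eq_zero fun j _ => ?_).symm
      exact rg_ord_lam (u j) k (-1) (by norm_num)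
    · intro j _ k
      rcases Nat.eq_zero_or_pos k with hk | hk
      · subst hk
        rw [zero_add, pow_one]
        have h1 : gp a q (lam - CF (u j))⁻¹ = (sL q RatFunc.X - hmC (u j - a))⁻¹ := by
          rw [map_inv₀, map_sub, gp_lam, gp_CF, map_sub]
          congr 1
          ring
        rw [h1]
        have h2 : ∀ i : Fin n, lc (u i) (-1) (lam - CF (u j))⁻¹ = if i = j then 1 else 0 := by
          intro i
          by_cases hij : i = j
          · rw [if_pos hij, hij, lc_inv_self]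
          · rw [if_neg hij]
            exact OrdGe.inv_ne (fun h => hij (hu h)) (-1) (by norm_num)
        rw [Finset.sum_congr rfl fun i _ => h2 i, Finset.sum_ite_eq']
        refine KK_ext fun p => ?_
        rw [cofK_sp_mul, hρ, hval]
        by_cases hS : S j
        · have h3 : j ∈ Finset.univ.filter S := Finset.mem_filter.2 ⟨Finset.mem_univ _, hS⟩
          rw [if_pos h3, ← sp_zero, cofK_sp]
          by_cases hp : p = 0
          · rw [if_pos hp, if_pos ⟨hS, by rw [hp]; ring⟩]
          · rw [if_neg hp, if_neg (fun h => hp (by linarith [h.2]))]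
        · have h3 : j ∉ Finset.univ.filter S := fun h => hS (Finset.mem_filter.1 h).2
          rw [if_neg h3, if_neg (fun h => hS h.1), hK0]
      · set g' : FK := (lam - CF (u j))⁻¹ with hg'
        have hd : dlam g' = -g' ^ 2 := by
          rw [hg', Derivation.leibniz_inv, map_sub, dlam_lam, dlam_CF, sub_zero, smul_eq_mul,
            mul_one]
        have hk0 : (k : FK) ≠ 0 := Nat.cast_ne_zero.2 hk.ne'
        have hd2 : dlam (g' ^ k) = -((k : FK) * g' ^ (k + 1)) := by
          rw [Derivation.leibniz_pow, hd]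
          obtain ⟨m, rfl⟩ : ∃ m, k = m + 1 := ⟨k - 1, by omega⟩
          rw [Nat.add_sub_cancel, nsmul_eq_mul, smul_eq_mul]
          ring
        have hf2 : g' ^ (k + 1) = CF (-((k : KK)⁻¹)) * dlam (g' ^ k) := by
          rw [hd2, map_neg, map_inv₀, map_natCast, neg_mul_neg, ← mul_assoc,
            inv_mul_cancel₀ hk0, one_mul]
        rw [hf2]
        apply hsm
        have h1 : ∀ i : Fin n, lc (u i) (-1) (dlam (g' ^ k)) = 0 := by
          intro i
          rw [lc_dlam]
          push_cast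
          ring
        rw [Finset.sum_congr rfl fun i _ => h1 i, Finset.sum_const_zero, ← hρm, ← gp_CF a q,
          ← map_mul]
        refine KK_ext fun p => ?_
        rw [hρ, gp_dlam, hder, hK0]
  rw [← key f hf, Ge_vK_iff]
  intro p hp
  rw [cofK_sp_mul, hρ]
  have h1 : Ge vL c (gp a q f) := h
  rw [Ge_vL_iff.1 h1 (p - q) (by linarith)]
  exact hr0

end Pool.Agent.CVG
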