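import Pool.Agent.CVG.Hahn

/-!
# CVG: rational functions with prescribed poles (no sorry)
-/

open scoped BigOperators

namespace Pool.Agent.CVG

/-- `f` has no poles outside the points `u j`, `j ∈ J` (and `∞`). -/
def Rg {n : ℕ} (u : Fin n → KK) (J : Finset (Fin n)) (f : FK) : Prop :=
  ∃ (M : ℕ) (P : Polynomial KK), f * (∏ j ∈ J, (lam - CF (u j))) ^ M = pF P

end Pool.Agent.CVG
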