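import Pool.Agent.CVG.MStd

/-!
# CVG-SdA: the variation `Sd` and the linearised operator `na`

PLAN. In the eigenbasis (conjugate by `G`): `[W, S] + [U, X] = 0` reads
`w_{ij} (σ_j - σ_i) + (u_i - u_j) x_{ij} = 0`, `σ_i = dK (u_i)`, so `x_{ij} = (σ_i - σ_j)/(u_i - u_j) w_{ij}` for
`i ≠ j`, no condition on the diagonal (diagonal entries of the commutators vanish). `X 1 = 0` reads
`∑_j x_{ij} o_j = 0` and determines `x_{ii}` (`hone`, `o_i ≠ 0`). Linearity is clear. `isConn_na`: `W.map dK` is a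
connection. Bounds: finitely many constants (`gm_mul_bdd`, `exists_Ge_finite`, valuations of
`(σ_i - σ_j)/(u_i - u_j)`, `o_i`, `o_i⁻¹`).
-/

open scoped BigOperators

namespace Pool.Agent.CVG

namespace Dat

variable {n : ℕ} (Δ : Dat n)

private theorem sdA_GGi : Δ.G * Δ.G⁻¹ = 1 := Matrix.mul_nonsing_inv _ Δ.hG

private theorem sdA_GiG : Δ.G⁻¹ * Δ.G = 1 := Matrix.nonsing_inv_mul _ Δ.hG

/-- the matrix of `Sd W` in the eigenbasis -/
private noncomputable def sdY (W : Matrix (Fin n) (Fin n) KK) : Matrix (Fin n) (Fin n) KK :=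
  Δ.sdOff W - Matrix.diagonal (fun i => (Δ.sdOff W).mulVec Δ.o i / Δ.o i)

private theorem sdA_Sd (W : Matrix (Fin n) (Fin n) KK) : Δ.Sd W = Δ.G * Δ.sdY W * Δ.G⁻¹ := rfl

private theorem sdA_o_ne (i : Fin n) : Δ.o i ≠ 0 := Δ.hone i

private theorem sdA_u_ne {i j : Fin n} (h : i ≠ j) : Δ.u i - Δ.u j ≠ 0 :=
  sub_ne_zero.2 fun h' => h (Δ.inj h')

/-- conjugation of the commutator identity -/
private theorem sdA_conj (W X : Matrix (Fin n) (Fin n) KK) :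
    Δ.G⁻¹ * ((W * Δ.S - Δ.S * W) + (Δ.U * X - X * Δ.U)) * Δ.G =
      (Δ.cj W * Matrix.diagonal (fun i => dK (Δ.u i)) -
        Matrix.diagonal (fun i => dK (Δ.u i)) * Δ.cj W) +
      (Matrix.diagonal Δ.u * Δ.cj X - Δ.cj X * Matrix.diagonal Δ.u) := by
  have h1 := Δ.sdA_GGi
  have h2 := Δ.sdA_GiG
  have a1 : Δ.G⁻¹ * (W * Δ.S) * Δ.G = Δ.cj W * Matrix.diagonal (fun i => dK (Δ.u i)) := by
    rw [Δ.hS, cj]
    calc Δ.G⁻¹ * (W * (Δ.G * Matrix.diagonal (fun i => dK (Δ.u i)) * Δ.G⁻¹)) * Δ.G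
        = Δ.G⁻¹ * W * Δ.G * Matrix.diagonal (fun i => dK (Δ.u i)) * (Δ.G⁻¹ * Δ.G) := by
          noncomm_ring
      _ = _ := by rw [h2, mul_one]
  have a2 : Δ.G⁻¹ * (Δ.S * W) * Δ.G = Matrix.diagonal (fun i => dK (Δ.u i)) * Δ.cj W := by
    rw [Δ.hS, cj]
    calc Δ.G⁻¹ * (Δ.G * Matrix.diagonal (fun i => dK (Δ.u i)) * Δ.G⁻¹ * W) * Δ.G
        = (Δ.G⁻¹ * Δ.G) * Matrix.diagonal (fun i => dK (Δ.u i)) * (Δ.G⁻¹ * W * Δ.G) := by
          noncomm_ring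
      _ = _ := by rw [h2, one_mul]
  have a3 : Δ.G⁻¹ * (Δ.U * X) * Δ.G = Matrix.diagonal Δ.u * Δ.cj X := by
    rw [Δ.hU, cj]
    calc Δ.G⁻¹ * (Δ.G * Matrix.diagonal Δ.u * Δ.G⁻¹ * X) * Δ.G
        = (Δ.G⁻¹ * Δ.G) * Matrix.diagonal Δ.u * (Δ.G⁻¹ * X * Δ.G) := by
          noncomm_ring
      _ = _ := by rw [h2, one_mul]
  have a4 : Δ.G⁻¹ * (X * Δ.U) * Δ.G = Δ.cj X * Matrix.diagonal Δ.u := by
    rw [Δ.hU, cj]
    calc Δ.G⁻¹ * (X * (Δ.G * Matrix.diagonal Δ.u * Δ.G⁻¹)) * Δ.G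
        = Δ.G⁻¹ * X * Δ.G * Matrix.diagonal Δ.u * (Δ.G⁻¹ * Δ.G) := by
          noncomm_ring
      _ = _ := by rw [h2, mul_one]
  rw [← a1, ← a2, ← a3, ← a4]
  noncomm_ring

private theorem sdA_cj_Sd (W : Matrix (Fin n) (Fin n) KK) : Δ.cj (Δ.Sd W) = Δ.sdY W := by
  rw [sdA_Sd, cj]
  calc Δ.G⁻¹ * (Δ.G * Δ.sdY W * Δ.G⁻¹) * Δ.G
      = (Δ.G⁻¹ * Δ.G) * Δ.sdY W * (Δ.G⁻¹ * Δ.G) := by noncomm_ring
    _ = Δ.sdY W := by rw [Δ.sdA_GiG, one_mul, mul_one]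

private theorem sdA_of_cj {X Y : Matrix (Fin n) (Fin n) KK} (h : Δ.cj X = Δ.cj Y) : X = Y := by
  have key : ∀ Z : Matrix (Fin n) (Fin n) KK, Δ.G * Δ.cj Z * Δ.G⁻¹ = Z := by
    intro Z
    rw [cj]
    calc Δ.G * (Δ.G⁻¹ * Z * Δ.G) * Δ.G⁻¹ = (Δ.G * Δ.G⁻¹) * Z * (Δ.G * Δ.G⁻¹) := by noncomm_ring
      _ = Z := by rw [Δ.sdA_GGi, one_mul, mul_one]
  rw [← key X, h, key Y]

private theorem sdA_of_conj_zero {Z : Matrix (Fin n) (Fin n) KK} (h : Δ.G⁻¹ * Z * Δ.G = 0) :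
    Z = 0 := by
  apply Δ.sdA_of_cj
  rw [cj, cj, h, mul_zero, zero_mul]

private theorem sdA_entry (W Y : Matrix (Fin n) (Fin n) KK) (i j : Fin n) :
    ((Δ.cj W * Matrix.diagonal (fun i => dK (Δ.u i)) -
        Matrix.diagonal (fun i => dK (Δ.u i)) * Δ.cj W) +
      (Matrix.diagonal Δ.u * Y - Y * Matrix.diagonal Δ.u)) i j =
    Δ.cj W i j * (dK (Δ.u j) - dK (Δ.u i)) + (Δ.u i - Δ.u j) * Y i j := by
  rw [Matrix.add_apply, Matrix.sub_apply, Matrix.sub_apply, Matrix.mul_diagonal,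
    Matrix.diagonal_mul, Matrix.diagonal_mul, Matrix.mul_diagonal]
  ring

private theorem sdA_sdY_off (W : Matrix (Fin n) (Fin n) KK) {i j : Fin n} (h : i ≠ j) :
    Δ.sdY W i j = (dK (Δ.u i) - dK (Δ.u j)) / (Δ.u i - Δ.u j) * Δ.cj W i j := by
  rw [sdY, Matrix.sub_apply, Matrix.diagonal_apply_ne _ h, sub_zero, sdOff, Matrix.of_apply,
    if_neg h]

theorem Sd_spec (W : Matrix (Fin n) (Fin n) KK) :
    (W * Δ.S - Δ.S * W) + (Δ.U * Δ.Sd W - Δ.Sd W * Δ.U) = 0 := by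
  apply Δ.sdA_of_conj_zero
  rw [sdA_conj, sdA_cj_Sd]
  ext i j
  rw [sdA_entry, Matrix.zero_apply]
  by_cases h : i = j
  · subst h; ring
  · rw [Δ.sdA_sdY_off W h]
    have := Δ.sdA_u_ne h
    field_simp
    ring

private theorem sdA_cj_mulVec (X : Matrix (Fin n) (Fin n) KK) :
    (Δ.cj X).mulVec Δ.o = Δ.G⁻¹.mulVec (X.mulVec Δ.oneK) := by
  rw [cj, o, Matrix.mulVec_mulVec, Matrix.mulVec_mulVec]
  congr 1
  calc Δ.G⁻¹ * X * Δ.G * Δ.G⁻¹ = Δ.G⁻¹ * X * (Δ.G * Δ.G⁻¹) := by noncomm_ring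
    _ = Δ.G⁻¹ * X := by rw [Δ.sdA_GGi, mul_one]

private theorem sdA_sdY_o (W : Matrix (Fin n) (Fin n) KK) : (Δ.sdY W).mulVec Δ.o = 0 := by
  rw [sdY, Matrix.sub_mulVec]
  ext i
  rw [Pi.sub_apply, Matrix.mulVec_diagonal, div_mul_cancel₀ _ (Δ.sdA_o_ne i), sub_self,
    Pi.zero_apply]

theorem Sd_one (W : Matrix (Fin n) (Fin n) KK) : (Δ.Sd W).mulVec Δ.oneK = 0 := by
  have h := Δ.sdA_cj_mulVec (Δ.Sd W)
  rw [sdA_cj_Sd, sdA_sdY_o] at h
  have h2 : Δ.G.mulVec (Δ.G⁻¹.mulVec ((Δ.Sd W).mulVec Δ.oneK)) = 0 := by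
    rw [← h, Matrix.mulVec_zero]
  rwa [Matrix.mulVec_mulVec, Δ.sdA_GGi, Matrix.one_mulVec] at h2

theorem Sd_unique (W X : Matrix (Fin n) (Fin n) KK)
    (h1 : (W * Δ.S - Δ.S * W) + (Δ.U * X - X * Δ.U) = 0) (h2 : X.mulVec Δ.oneK = 0) :
    X = Δ.Sd W := by
  apply Δ.sdA_of_cj
  rw [sdA_cj_Sd]
  have e1 : ∀ i j, Δ.cj W i j * (dK (Δ.u j) - dK (Δ.u i)) + (Δ.u i - Δ.u j) * Δ.cj X i j = 0 := by
    intro i j
    rw [← sdA_entry, ← sdA_conj, h1, mul_zero, zero_mul, Matrix.zero_apply]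
  have e2 : ∀ i j, i ≠ j → Δ.cj X i j = Δ.sdY W i j := by
    intro i j h
    rw [Δ.sdA_sdY_off W h]
    have hu := Δ.sdA_u_ne h
    have := e1 i j
    rw [div_mul_eq_mul_div, eq_div_iff hu]
    linear_combination this
  have e3 : (Δ.cj X).mulVec Δ.o = 0 := by
    rw [sdA_cj_mulVec, h2, Matrix.mulVec_zero]
  have e4 := Δ.sdA_sdY_o W
  ext i j
  by_cases h : i = j
  · subst h
    have f1 : ∑ k, Δ.cj X i k * Δ.o k = 0 := congrFun e3 i
    have f2 : ∑ k, Δ.sdY W i k * Δ.o k = 0 := congrFun e4 i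
    rw [← Finset.add_sum_erase _ _ (Finset.mem_univ i)] at f1 f2
    have f3 : ∑ k ∈ Finset.univ.erase i, Δ.cj X i k * Δ.o k =
        ∑ k ∈ Finset.univ.erase i, Δ.sdY W i k * Δ.o k := by
      apply Finset.sum_congr rfl
      intro k hk
      rw [e2 i k (Finset.ne_of_mem_erase hk).symm]
    rw [f3] at f1
    have f4 : Δ.cj X i i * Δ.o i = Δ.sdY W i i * Δ.o i := by linear_combination f1 - f2
    exact mul_right_cancel₀ (Δ.sdA_o_ne i) f4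
  · exact e2 i j h

theorem Sd_add (W W' : Matrix (Fin n) (Fin n) KK) : Δ.Sd (W + W') = Δ.Sd W + Δ.Sd W' := by
  symm
  apply Δ.Sd_unique
  · have h1 := Δ.Sd_spec W
    have h2 := Δ.Sd_spec W'
    calc ((W + W') * Δ.S - Δ.S * (W + W')) +
          (Δ.U * (Δ.Sd W + Δ.Sd W') - (Δ.Sd W + Δ.Sd W') * Δ.U)
        = ((W * Δ.S - Δ.S * W) + (Δ.U * Δ.Sd W - Δ.Sd W * Δ.U)) +
          ((W' * Δ.S - Δ.S * W') + (Δ.U * Δ.Sd W' - Δ.Sd W' * Δ.U)) := by noncomm_ring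
      _ = 0 := by rw [h1, h2, add_zero]
  · rw [Matrix.add_mulVec, Δ.Sd_one, Δ.Sd_one, add_zero]

theorem Sd_smul (x : KK) (W : Matrix (Fin n) (Fin n) KK) : Δ.Sd (x • W) = x • Δ.Sd W := by
  symm
  apply Δ.Sd_unique
  · have h1 := Δ.Sd_spec W
    calc ((x • W) * Δ.S - Δ.S * (x • W)) + (Δ.U * (x • Δ.Sd W) - (x • Δ.Sd W) * Δ.U)
        = x • ((W * Δ.S - Δ.S * W) + (Δ.U * Δ.Sd W - Δ.Sd W * Δ.U)) := by
          rw [smul_mul_assoc, mul_smul_comm, mul_smul_comm, smul_mul_assoc, smul_add, smul_sub,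
            smul_sub]
      _ = 0 := by rw [h1, smul_zero]
  · rw [Matrix.smul_mulVec, Δ.Sd_one, smul_zero]

private theorem sdA_map_add (W W' : Matrix (Fin n) (Fin n) KK) :
    (W + W').map dK = W.map dK + W'.map dK := by
  ext i j
  simp only [Matrix.map_apply, Matrix.add_apply, map_add]

private theorem sdA_map_smul (f : KK) (W : Matrix (Fin n) (Fin n) KK) :
    (f • W).map dK = dK f • W + f • W.map dK := by
  ext i j
  simp only [Matrix.map_apply, Matrix.add_apply, Matrix.smul_apply, smul_eq_mul,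
    Derivation.leibniz]
  ring

theorem isConn_na : IsConn dK Δ.na where
  add W W' := by
    rw [na, na, na, Sd_add, sdA_map_add]
    noncomm_ring
  smul f W := by
    rw [na, na, Sd_smul, sdA_map_smul, smul_mul_assoc, mul_smul_comm]
    simp only [smul_sub]
    abel

theorem Sd_bdd : ∃ C : ℚ, ∀ (c : ℚ) (W : Matrix (Fin n) (Fin n) KK), GM vK c W →
    GM vK (c - C) (Δ.Sd W) := by
  obtain ⟨C1, h1⟩ := gm_mul_bdd vK Δ.G⁻¹ Δ.G
  obtain ⟨C2, h2⟩ := gm_mul_bdd vK Δ.G Δ.G⁻¹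
  obtain ⟨C3, h3⟩ := exists_Ge_finite vK
    (fun p : Fin n × Fin n => (dK (Δ.u p.1) - dK (Δ.u p.2)) / (Δ.u p.1 - Δ.u p.2))
  obtain ⟨C4, h4⟩ := exists_Ge_finite vK (fun i : Fin n => Δ.o i)
  obtain ⟨C5, h5⟩ := exists_Ge_finite vK (fun i : Fin n => (Δ.o i)⁻¹)
  have hoff : ∀ (c : ℚ) (W : Matrix (Fin n) (Fin n) KK), GM vK c W →
      GM vK (C3 + (c - C1)) (Δ.sdOff W) := by
    intro c W hW i j
    rw [sdOff, Matrix.of_apply]
    split_ifs with h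
    · exact Ge.zero
    · exact (h3 (i, j)).mul (h1 c W hW i j)
  set m : ℚ := min 0 (C4 + C5) with hm
  have hY : ∀ (c : ℚ) (W : Matrix (Fin n) (Fin n) KK), GM vK c W →
      GM vK (C3 + (c - C1) + m) (Δ.sdY W) := by
    intro c W hW
    have hO := hoff c W hW
    rw [sdY]
    apply GM.sub
    · refine hO.mono ?_
      have : m ≤ 0 := min_le_left _ _
      linarith
    · intro i j
      by_cases h : i = j
      · subst h
        rw [Matrix.diagonal_apply_eq, div_eq_mul_inv]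
        have hs : Ge vK (C3 + (c - C1) + C4) ((Δ.sdOff W).mulVec Δ.o i) := by
          rw [Matrix.mulVec, dotProduct]
          exact Ge.sum _ _ fun k _ => (hO i k).mul (h4 k)
        refine (hs.mul (h5 i)).mono ?_
        have : m ≤ C4 + C5 := min_le_right _ _
        linarith
      · rw [Matrix.diagonal_apply_ne _ h]
        exact Ge.zero
  refine ⟨C1 + C2 - C3 - m, fun c W hW => ?_⟩
  rw [sdA_Sd]
  refine (h2 _ _ (hY c W hW)).mono ?_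
  linarith

theorem na_bdd : ∃ C : ℚ, ∀ (c : ℚ) (W : Matrix (Fin n) (Fin n) KK), GM vK c W →
    GM vK (c - C) (Δ.na W) := by
  obtain ⟨C, hC⟩ := Δ.Sd_bdd
  obtain ⟨C', hC'⟩ := exists_GM vK Δ.thK
  set m : ℚ := min 0 (min (-C) (-C + C')) with hm
  have m1 : m ≤ 0 := min_le_left _ _
  have m2 : m ≤ -C := (min_le_right _ _).trans (min_le_left _ _)
  have m3 : m ≤ -C + C' := (min_le_right _ _).trans (min_le_right _ _)
  refine ⟨-m, fun c W hW => ?_⟩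
  rw [na]
  have hS := hC c W hW
  apply GM.sub
  · apply GM.sub
    · intro i j
      rw [Matrix.map_apply]
      exact (dK_ge c _ (hW i j)).mono (by linarith)
    · exact hS.mono (by linarith)
  · apply GM.sub
    · exact (hS.mul hC').mono (by linarith)
    · exact (hC'.mul hS).mono (by linarith)

end Dat

end Pool.Agent.CVG
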