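import Pool.Agent.CVG.DatC
import Pool.Agent.CVG.SdA

/-!
# CVG-Star: the key identity

PLAN. `star`: write `R` for the resolvent, `B`, `S`, `W`, `S' = Sd W` for the matrices over `FK`.
`TE0 (R W R B) = dl(R W R B) - [R S B, R W R B]`, with `dl R = R (δU) R`, `δU = S + [S, B]` (scalars commute),
`dl W = (δW)`: sum of `R (δU) R W R B + R (δW) R B + R W R (δU) R B - R S B R W R B + R W R B R S B`.
`TEd (b0 W) = dlam (b0 W) + [R B, b0 W]`, `b0 W = - R W R S B - R S' B`, `dlam R = - R R`.
Claim: `TE0 (bl W) - TEd (b0 W) = R (δW - S' - [S', B]) R B`. Expand everything; use that `R` commutes with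
`S` and `U`, and `[W, S] + [U, S'] = 0` in the form `R (W S - S W) R = -(R U S' R - R S' U R) = - (S' R - R S')`
... (`R U = lam R - 1`). The identity was checked numerically. It is a finite computation in a noncommutative
ring: replace `U` by `lam - R⁻¹`.
`star_g`: `TE g = TE0 + g TEd`, `bD g W = b0 W + g • bl W`, `TEd (g • X) = dlam g • X + g • TEd X`.
-/

open scoped BigOperators

namespace Pool.Agent.CVG

private theorem Star_mul (D : Derivation ℤ FK FK) {n : ℕ} (M N : Matrix (Fin n) (Fin n) FK) :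
    (M * N).map D = M.map D * N + M * N.map D := by
  ext i j
  simp only [Matrix.map_apply, Matrix.mul_apply, Matrix.add_apply, map_sum, Derivation.leibniz,
    smul_eq_mul, ← Finset.sum_add_distrib]
  refine Finset.sum_congr rfl fun a _ => ?_
  ring

private theorem Star_neg (D : Derivation ℤ FK FK) {n : ℕ} (M : Matrix (Fin n) (Fin n) FK) :
    (-M).map D = -M.map D := by
  ext i j
  simp only [Matrix.map_apply, Matrix.neg_apply, map_neg]

private theorem Star_sub (D : Derivation ℤ FK FK) {n : ℕ} (M N : Matrix (Fin n) (Fin n) FK) :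
    (M - N).map D = M.map D - N.map D := by
  ext i j
  simp only [Matrix.map_apply, Matrix.sub_apply, map_sub]

private theorem Star_CFadd {n : ℕ} (M N : Matrix (Fin n) (Fin n) KK) :
    (M + N).map CF = M.map CF + N.map CF := by
  ext i j
  simp only [Matrix.map_apply, Matrix.add_apply, map_add]

private theorem Star_CFsub {n : ℕ} (M N : Matrix (Fin n) (Fin n) KK) :
    (M - N).map CF = M.map CF - N.map CF := by
  ext i j
  simp only [Matrix.map_apply, Matrix.sub_apply, map_sub]

private theorem Star_ring {A : Type*} [Ring A] (R S B W W' S' : A) (hc : R * S - S * R = 0)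
    (hk : R * (W * S - S * W) * R - (S' * R - R * S') = 0) :
    R * (W' - S' - (S' * B - B * S')) * (R * B) =
      R * (S + (S * B - B * S)) * R * W * (R * B) + R * W' * (R * B) +
        R * W * (R * (S + (S * B - B * S)) * R * B) -
        (R * S * B * (R * W * (R * B)) - R * W * (R * B) * (R * S * B)) -
      (R * R * W * (R * S * B) + R * W * (R * R * S * B) + R * R * S' * B +
        (R * B * (-(R * W * (R * S * B)) - R * S' * B) -
          (-(R * W * (R * S * B)) - R * S' * B) * (R * B))) := by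
  rw [← sub_eq_zero]
  have e : R * (W' - S' - (S' * B - B * S')) * (R * B) -
      (R * (S + (S * B - B * S)) * R * W * (R * B) + R * W' * (R * B) +
        R * W * (R * (S + (S * B - B * S)) * R * B) -
        (R * S * B * (R * W * (R * B)) - R * W * (R * B) * (R * S * B)) -
      (R * R * W * (R * S * B) + R * W * (R * R * S * B) + R * R * S' * B +
        (R * B * (-(R * W * (R * S * B)) - R * S' * B) -
          (-(R * W * (R * S * B)) - R * S' * B) * (R * B)))) =
      -(-(R * (R * S - S * R) * W * R * B) + R * B * (R * S - S * R) * W * R * B -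
        R * W * R * (R * S - S * R) * B + R * W * R * B * (R * S - S * R) * B -
        R * R * W * (R * S - S * R) * B + R * B * R * W * (R * S - S * R) * B -
        R * (R * (W * S - S * W) * R - (S' * R - R * S')) * B +
        R * B * (R * (W * S - S * W) * R - (S' * R - R * S')) * B) := by
    noncomm_ring
  rw [e, hc, hk]
  simp only [mul_zero, zero_mul, neg_zero, add_zero, sub_zero]

private theorem Star_key {A : Type*} [Ring A] (R S W S' T : A) (h1 : R * T = 1) (h2 : T * R = 1)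
    (h : W * S - S * W = T * S' - S' * T) :
    R * (W * S - S * W) * R - (S' * R - R * S') = 0 := by
  rw [h]
  have e : R * (T * S' - S' * T) * R = (R * T) * S' * R - R * S' * (T * R) := by noncomm_ring
  rw [e, h1, h2, one_mul, mul_one, sub_self]

namespace Dat

variable {n : ℕ} (Δ : Dat n)

private theorem Star_B : Δ.B.map CF =
    Δ.thK.map CF + Matrix.scalar (Fin n) (CF (cK Δ.mu)) := by
  ext i j
  by_cases hij : i = j
  · subst hij
    simp [B, thK]
  · simp [B, thK, hij]

private theorem Star_comm (M : Matrix (Fin n) (Fin n) FK) :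
    M * Matrix.scalar (Fin n) (CF (cK Δ.mu)) = Matrix.scalar (Fin n) (CF (cK Δ.mu)) * M :=
  (Matrix.scalar_commute _ (fun r => Commute.all _ r) _).symm

private theorem Star_U : (Δ.U.map dK).map CF = Δ.S.map CF +
    (Δ.S.map CF * Δ.B.map CF - Δ.B.map CF * Δ.S.map CF) := by
  rw [Δ.Star_B, mul_add, add_mul, Δ.Star_comm, Δ.flat, Star_CFadd, Star_CFsub, Matrix.map_mul,
    Matrix.map_mul]
  show _ = Δ.S.map CF + (Δ.S.map CF * (Δ.th.map cK).map CF + _ -
    ((Δ.th.map cK).map CF * Δ.S.map CF + _))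
  abel

private theorem Star_na (W : Matrix (Fin n) (Fin n) KK) : (Δ.na W).map CF =
    (W.map dK).map CF - (Δ.Sd W).map CF - ((Δ.Sd W).map CF * Δ.B.map CF -
      Δ.B.map CF * (Δ.Sd W).map CF) := by
  rw [Δ.Star_B, mul_add, add_mul, Δ.Star_comm, na, Star_CFsub, Star_CFsub, Star_CFsub,
    Matrix.map_mul, Matrix.map_mul]
  abel

theorem star (W : Matrix (Fin n) (Fin n) KK) :
    Δ.bl (Δ.na W) = Δ.TE0 (Δ.bl W) - Δ.TEd (Δ.b0 W) := by
  have hc : Δ.R * Δ.S.map CF - Δ.S.map CF * Δ.R = 0 := by rw [Δ.R_S, sub_self]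
  have hk : Δ.R * (W.map CF * Δ.S.map CF - Δ.S.map CF * W.map CF) * Δ.R -
      ((Δ.Sd W).map CF * Δ.R - Δ.R * (Δ.Sd W).map CF) = 0 := by
    refine Star_key _ _ _ _ _ Δ.mul_res Δ.res_mul ?_
    have h1 := congrArg (fun M => M.map CF) (Δ.Sd_spec W)
    simp only [Star_CFadd, Star_CFsub, Matrix.map_mul] at h1
    have h2 : (0 : Matrix (Fin n) (Fin n) KK).map CF = 0 := by
      ext i j
      simp
    rw [h2] at h1
    have h3 : (lam • (1 : Matrix (Fin n) (Fin n) FK) - Δ.U.map CF) * (Δ.Sd W).map CF -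
        (Δ.Sd W).map CF * (lam • (1 : Matrix (Fin n) (Fin n) FK) - Δ.U.map CF) =
        -(Δ.U.map CF * (Δ.Sd W).map CF - (Δ.Sd W).map CF * Δ.U.map CF) := by
      rw [sub_mul, mul_sub, smul_mul_assoc, one_mul, mul_smul_comm, mul_one]
      abel
    rw [h3]
    exact eq_neg_of_add_eq_zero_left h1
  have hbl : (Δ.bl W).map dl = Δ.R * (Δ.U.map dK).map CF * Δ.R * W.map CF * (Δ.R * Δ.B.map CF) +
      Δ.R * (W.map dK).map CF * (Δ.R * Δ.B.map CF) +
      Δ.R * W.map CF * (Δ.R * (Δ.U.map dK).map CF * Δ.R * Δ.B.map CF) := by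
    rw [bl, RB, Star_mul, Star_mul, Star_mul, Δ.R_dl, map_dl, Δ.B_dl, mul_zero, add_zero, add_mul]
  have hb0 : (Δ.b0 W).map dlam = Δ.R * Δ.R * W.map CF * (Δ.R * Δ.S.map CF * Δ.B.map CF) +
      Δ.R * W.map CF * (Δ.R * Δ.R * Δ.S.map CF * Δ.B.map CF) +
      Δ.R * Δ.R * (Δ.Sd W).map CF * Δ.B.map CF := by
    rw [b0, RSB, Star_sub, Star_neg, Star_mul, Star_mul, Star_mul, Star_mul, Star_mul, Star_mul,
      Δ.R_dlam, map_dlam, map_dlam, map_dlam, map_dlam]
    noncomm_ring
  have h := Star_ring Δ.R (Δ.S.map CF) (Δ.B.map CF) (W.map CF) ((W.map dK).map CF)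
    ((Δ.Sd W).map CF) hc hk
  rw [TE0, TEd, hbl, hb0, Δ.Star_U, bl, Δ.Star_na, RB]
  rw [h]
  rfl

theorem star_g (g : FK) (κ : ℚ) (hg : dlam g = (κ : FK)) (W : Matrix (Fin n) (Fin n) KK) :
    Δ.bl (Δ.na W) = Δ.TE g (Δ.bl W) + (κ : FK) • Δ.bl W - Δ.TEd (Δ.bD g W) := by
  rw [Δ.star, TE, bD, Δ.isConn_TEd.add, Δ.isConn_TEd.smul, hg]
  abel

end Dat

end Pool.Agent.CVG
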