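import Pool.Agent.CVG.Leaf

/-!
# CVG-Step: from one branching radius to the next

PLAN. Fix `i`; let `J = clus i q`. For `j ∈ J` put `x_j = (gam (g0 (u i) q) W k).map (lc (u j) (-1)) + w_j • A_j`
(`w_j` of `na^[k] W`); we want `∑_{j ∈ J} x_j ≥ c - C`. Let `C_j = {j' : v (u j' - u j) > q} = clus j q'` (by `hgap`);
for `j ∈ J`, `C_j ⊆ J`, and these sets are the classes of an equivalence relation on `J`. It suffices
that `∑_{j' ∈ C_j} x_{j'} ≥ c - C` for each `j ∈ J`, since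
`∑_{j ∈ J} x_j = ∑_{j ∈ J} (1/|C_j|) ∑_{j' ∈ C_j} x_{j'}` (double counting; rational numbers have valuation `≥ 0`).
For `j ∈ J`:
1. `g0 (u i) q = g0 (u j) q + CF h`, `h = dK z - q z`, `z = u i - u j`, `v z ≥ q`, so `v h ≥ q` (`dK_ge`); in the
   format of `te_reg` at `gv (u j) q`: both charts are regular; `gam_diff_bdd` and `res_gt` (applied to the
   entries of the difference, `gam_Rg`, with `a = u j`): the difference of the residue sums over `C_j` of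
   `gam (g0 (u i) q)` and `gam (g0 (u j) q)` is bounded.
2. `g0 (u j) q = g0 (u j) q' + h`, `h = (q - q') (lam - u j)`; at `gv (u j) q'` both charts are regular
   (`te_reg` with `r = q'`, `c = q` resp. `q'`, `h = 0`); `gam_diff_bdd` and `res_ge` at radius `q'`.
3. `Claim q'` for `j`.
-/

open scoped BigOperators

namespace Pool.Agent.CVG

namespace Dat

variable {n : ℕ} (Δ : Dat n)

private theorem step_mem (i j : Fin n) (q : ℚ) :
    j ∈ Δ.clus i q ↔ (q : WithTop ℚ) ≤ vK (Δ.u j - Δ.u i) := by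
  simp [clus]

private theorem step_resS_apply (J : Finset (Fin n)) (X : Matrix (Fin n) (Fin n) FK)
    (a b : Fin n) : Δ.resS J X a b = ∑ j ∈ J, lc (Δ.u j) (-1) (X a b) := by
  rw [resS, Matrix.sum_apply]
  rfl

private theorem step_resS_sub (J : Finset (Fin n)) (X Y : Matrix (Fin n) (Fin n) FK) :
    Δ.resS J (X - Y) = Δ.resS J X - Δ.resS J Y := by
  ext a b
  rw [Matrix.sub_apply, step_resS_apply, step_resS_apply, step_resS_apply,
    ← Finset.sum_sub_distrib]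
  refine Finset.sum_congr rfl fun j _ => ?_
  rw [Matrix.sub_apply, lc_sub]

open Classical in
private theorem step_ge (j : Fin n) (q c : ℚ) (h0 : 0 ≤ q) {X : Matrix (Fin n) (Fin n) FK}
    (hX : RgM Δ.u X) (h : GM (gv (Δ.u j) q) c X) : GM vK c (Δ.resS (Δ.clus j q) X) := by
  intro a b
  rw [step_resS_apply]
  have h1 := res_ge Δ.inj (hX a b) (Δ.u j) q c (h a b)
  have h2 : Finset.univ.filter (fun j' => (q : WithTop ℚ) ≤ vK (Δ.u j' - Δ.u j)) =
      Δ.clus j q := by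
    ext j'
    rw [step_mem]
    simp
  rw [h2] at h1
  exact h1.mono (by linarith)

open Classical in
private theorem step_gt (j : Fin n) (q q' c : ℚ) (h0 : 0 ≤ q)
    (hC : ∀ j' : Fin n, j' ∈ Δ.clus j q' ↔ (q : WithTop ℚ) < vK (Δ.u j' - Δ.u j))
    {X : Matrix (Fin n) (Fin n) FK}
    (hX : RgM Δ.u X) (h : GM (gv (Δ.u j) q) c X) : GM vK c (Δ.resS (Δ.clus j q') X) := by
  intro a b
  rw [step_resS_apply]
  have h1 := res_gt Δ.inj (hX a b) (Δ.u j) q c (h a b)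
  have h2 : Finset.univ.filter (fun j' => (q : WithTop ℚ) < vK (Δ.u j' - Δ.u j)) =
      Δ.clus j q' := by
    ext j'
    rw [hC]
    simp
  rw [h2] at h1
  exact h1.mono (by linarith)

private theorem step_g0 (j : Fin n) (q : ℚ) : g0 (Δ.u j) q =
    CF (dK (Δ.u j)) + (q : FK) * (lam - CF (Δ.u j)) + CF 0 := by
  rw [g0, map_zero, add_zero]

private theorem step_Rg_sub {X Y : Matrix (Fin n) (Fin n) FK} (hX : RgM Δ.u X)
    (hY : RgM Δ.u Y) : RgM Δ.u (X - Y) := fun a b => (hX a b).sub (hY a b)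

private theorem step_ratCast (q : ℚ) : CF (q : KK) = (q : FK) := map_ratCast CF q

/-- change of the centre at radius `q` -/
private theorem step_first (i j : Fin n) (q q' : ℚ) (h0 : 0 ≤ q)
    (hC : ∀ j' : Fin n, j' ∈ Δ.clus j q' ↔ (q : WithTop ℚ) < vK (Δ.u j' - Δ.u j))
    (hj : j ∈ Δ.clus i q) :
    ∃ C : ℚ, ∀ (k : ℕ) (W : Matrix (Fin n) (Fin n) KK) (c : ℚ), GM vK c W → GM vK (c - C)
      (Δ.resS (Δ.clus j q') (Δ.gam (g0 (Δ.u i) q) W k) -
        Δ.resS (Δ.clus j q') (Δ.gam (g0 (Δ.u j) q) W k)) := by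
  have hz0 : Ge vK q (Δ.u i - Δ.u j) := by
    have h1 := (Δ.step_mem i j q).1 hj
    have e : Δ.u i - Δ.u j = -(Δ.u j - Δ.u i) := by ring
    rw [Ge, e, AddValuation.map_neg]
    exact h1
  have hz : Ge vK q (dK (Δ.u i - Δ.u j) - (q : KK) * (Δ.u i - Δ.u j)) := by
    refine (dK_ge _ _ hz0).sub ?_
    have h1 := (Ge_ratCast q).mul hz0
    rwa [zero_add] at h1
  have e : g0 (Δ.u i) q = g0 (Δ.u j) q +
      CF (dK (Δ.u i - Δ.u j) - (q : KK) * (Δ.u i - Δ.u j)) := by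
    rw [g0, g0, map_sub, map_sub, map_mul, map_sub, map_sub, step_ratCast]
    ring
  have hd : DerGe (gv (Δ.u j) q) (DD (g0 (Δ.u j) q)) := by
    rw [step_g0]
    exact Δ.derGe_gen j q q 0 Ge.zero
  have h1 : MBdd (gv (Δ.u j) q) (Matrix.stdBasis FK (Fin n) (Fin n)) 0
      (Δ.TE (g0 (Δ.u j) q)) := by
    rw [step_g0]
    exact Δ.te_reg j q q h0 0 Ge.zero
  have h2 : MBdd (gv (Δ.u j) q) (Matrix.stdBasis FK (Fin n) (Fin n)) 0
      (Δ.TE (g0 (Δ.u j) q + CF (dK (Δ.u i - Δ.u j) - (q : KK) * (Δ.u i - Δ.u j)))) :=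
    Δ.te_reg j q q h0 _ hz
  obtain ⟨C, hCC⟩ := Δ.gam_diff_bdd (Δ.u j) q (g0 (Δ.u j) q) _ q (dlam_g0 _ _) hd h1 h2
  refine ⟨C, fun k W c hW => ?_⟩
  rw [← step_resS_sub]
  have h3 := hCC k W c hW
  rw [← e] at h3
  exact Δ.step_gt j q q' _ h0 hC
    (Δ.step_Rg_sub (Δ.gam_Rg (Δ.g0_Rg _ _) W k) (Δ.gam_Rg (Δ.g0_Rg _ _) W k)) h3

/-- change of the exponent at radius `q'` -/
private theorem step_second (j : Fin n) (q q' : ℚ) (h0' : 0 ≤ q') :
    ∃ C : ℚ, ∀ (k : ℕ) (W : Matrix (Fin n) (Fin n) KK) (c : ℚ), GM vK c W → GM vK (c - C)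
      (Δ.resS (Δ.clus j q') (Δ.gam (g0 (Δ.u j) q) W k) -
        Δ.resS (Δ.clus j q') (Δ.gam (g0 (Δ.u j) q') W k)) := by
  have e : g0 (Δ.u j) q = g0 (Δ.u j) q' + ((q : FK) - (q' : FK)) * (lam - CF (Δ.u j)) := by
    rw [g0, g0]
    ring
  have hd : DerGe (gv (Δ.u j) q') (DD (g0 (Δ.u j) q')) := by
    rw [step_g0]
    exact Δ.derGe_gen j q' q' 0 Ge.zero
  have h1 : MBdd (gv (Δ.u j) q') (Matrix.stdBasis FK (Fin n) (Fin n)) 0
      (Δ.TE (g0 (Δ.u j) q')) := by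
    rw [step_g0]
    exact Δ.te_reg j q' q' h0' 0 Ge.zero
  have h2 : MBdd (gv (Δ.u j) q') (Matrix.stdBasis FK (Fin n) (Fin n)) 0
      (Δ.TE (g0 (Δ.u j) q' + ((q : FK) - (q' : FK)) * (lam - CF (Δ.u j)))) := by
    rw [← e, step_g0]
    exact Δ.te_reg j q' q h0' 0 Ge.zero
  obtain ⟨C, hCC⟩ := Δ.gam_diff_bdd (Δ.u j) q' (g0 (Δ.u j) q') _ q' (dlam_g0 _ _) hd h1 h2
  refine ⟨C, fun k W c hW => ?_⟩
  rw [← step_resS_sub]
  have h3 := hCC k W c hW
  rw [← e] at h3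
  exact Δ.step_ge j q' _ h0'
    (Δ.step_Rg_sub (Δ.gam_Rg (Δ.g0_Rg _ _) W k) (Δ.gam_Rg (Δ.g0_Rg _ _) W k)) h3

theorem claim_step (q q' : ℚ) (h0 : 0 ≤ q) (hlt : q < q')
    (hgap : ∀ i j : Fin n, (q : WithTop ℚ) < vK (Δ.u j - Δ.u i) →
      (q' : WithTop ℚ) ≤ vK (Δ.u j - Δ.u i)) (h : Δ.Claim q') : Δ.Claim q := by
  classical
  have hltW : (q : WithTop ℚ) < (q' : WithTop ℚ) := WithTop.coe_lt_coe.2 hlt
  have hC : ∀ j j' : Fin n, j' ∈ Δ.clus j q' ↔ (q : WithTop ℚ) < vK (Δ.u j' - Δ.u j) := by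
    intro j j'
    rw [step_mem]
    exact ⟨fun h => lt_of_lt_of_le hltW h, fun h => hgap j j' h⟩
  intro i
  -- the bound for one class
  have key : ∀ j : Fin n, ∃ C : ℚ, j ∈ Δ.clus i q → ∀ (k : ℕ) (W : Matrix (Fin n) (Fin n) KK)
      (c : ℚ), GM vK c W → GM vK (c - C)
        (Δ.resS (Δ.clus j q') (Δ.gam (g0 (Δ.u i) q) W k) + Δ.pS (Δ.clus j q') (Δ.na^[k] W)) := by
    intro j
    by_cases hj : j ∈ Δ.clus i q
    swap
    · exact ⟨0, fun h => absurd h hj⟩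
    have h0' : 0 ≤ q' := h0.trans hlt.le
    -- change of chart at radius `q`
    obtain ⟨C1, hC1⟩ := Δ.step_first i j q q' h0 (hC j) hj
    obtain ⟨C2, hC2⟩ := Δ.step_second j q q' h0'
    obtain ⟨C3, hC3⟩ := h j
    refine ⟨max (max C1 C2) C3, fun _ k W c hW => ?_⟩
    have e : Δ.resS (Δ.clus j q') (Δ.gam (g0 (Δ.u i) q) W k) + Δ.pS (Δ.clus j q') (Δ.na^[k] W) =
        (Δ.resS (Δ.clus j q') (Δ.gam (g0 (Δ.u i) q) W k) -
          Δ.resS (Δ.clus j q') (Δ.gam (g0 (Δ.u j) q) W k)) +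
        (Δ.resS (Δ.clus j q') (Δ.gam (g0 (Δ.u j) q) W k) -
          Δ.resS (Δ.clus j q') (Δ.gam (g0 (Δ.u j) q') W k)) +
        (Δ.resS (Δ.clus j q') (Δ.gam (g0 (Δ.u j) q') W k) +
          Δ.pS (Δ.clus j q') (Δ.na^[k] W)) := by abel
    rw [e]
    refine ((GM.mono (hC1 k W c hW) ?_).add (GM.mono (hC2 k W c hW) ?_)).add
      (GM.mono (hC3 k W c hW) ?_)
    · exact sub_le_sub_left ((le_max_left _ _).trans (le_max_left _ _)) c
    · exact sub_le_sub_left ((le_max_right _ _).trans (le_max_left _ _)) c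
    · exact sub_le_sub_left (le_max_right _ _) c
  choose C hCk using key
  obtain ⟨M, hM⟩ := (Set.finite_range C).bddAbove
  refine ⟨M, fun k W c hW => ?_⟩
  set X := Δ.gam (g0 (Δ.u i) q) W k with hX
  set V := Δ.na^[k] W with hV
  have hsplit : ∀ J : Finset (Fin n), Δ.resS J X + Δ.pS J V =
      ∑ j ∈ J, (X.map (lc (Δ.u j) (-1)) + Δ.w j V • Δ.A j) := by
    intro J
    rw [resS, pS, Finset.sum_add_distrib]
  rw [hsplit, ← Finset.sum_fiberwise_of_maps_to (t := (Δ.clus i q).image fun j => Δ.clus j q')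
    (g := fun j => Δ.clus j q') (fun j hj => Finset.mem_image_of_mem _ hj)]
  refine GM.sum _ _ fun S hS => ?_
  obtain ⟨j0, hj0, rfl⟩ := Finset.mem_image.1 hS
  have hfib : (Δ.clus i q).filter (fun j => Δ.clus j q' = Δ.clus j0 q') = Δ.clus j0 q' := by
    ext j
    rw [Finset.mem_filter]
    constructor
    · rintro ⟨_, h2⟩
      rw [← h2, step_mem, sub_self, AddValuation.map_zero]
      exact le_top
    · intro hj
      have hj' := (Δ.step_mem j0 j q').1 hj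
      have hj0' := (Δ.step_mem i j0 q).1 hj0
      constructor
      · rw [step_mem]
        have e : Δ.u j - Δ.u i = (Δ.u j - Δ.u j0) + (Δ.u j0 - Δ.u i) := by ring
        rw [e]
        exact vK.map_le_add (hltW.le.trans hj') hj0'
      · ext j'
        rw [step_mem, step_mem]
        constructor
        · intro h3
          have e : Δ.u j' - Δ.u j0 = (Δ.u j' - Δ.u j) + (Δ.u j - Δ.u j0) := by ring
          rw [e]
          exact vK.map_le_add h3 hj'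
        · intro h3
          have e : Δ.u j' - Δ.u j = (Δ.u j' - Δ.u j0) - (Δ.u j - Δ.u j0) := by ring
          rw [e]
          exact vK.map_le_sub h3 hj'
  rw [hfib, ← hsplit]
  exact GM.mono (hCk j0 hj0 k W c hW) (sub_le_sub_left (hM ⟨j0, rfl⟩) c)

end Dat

end Pool.Agent.CVG
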