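import Pool.Agent.CVG.SdA

/-!
# CVG-Triv: the trivial part of the linearised flow

PLAN. `dg p = G diag(p) G⁻¹`. In the eigenbasis, with `ψ = G⁻¹ (δG)` up to sign: from `flat`, comparing off-diagonal
entries of `G⁻¹ (δU) G`: let `Ψ = (δG) G⁻¹`, `δ(dg p) = dg (δp) + [Ψ, dg p]` for every `p`. For `p = u`:
`[Ψ, U] = [S, θ]` (`δU = S + [S,θ]`, `S = dg (δu)`), so in the eigenbasis `ψ_{ij} (u_j - u_i) = (σ_i - σ_j) θ_{ij}`.
For `W = P + [P, θ]`, `P = dg p`: `cj W_{ij} = (p_i - p_j) θ_{ij}` off the diagonal, so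
`(Sd W)_{ij} = (σ_i - σ_j)(p_i - p_j)/(u_i - u_j) θ_{ij}`, equal to `[Ψ, P]_{ij} = ψ_{ij} (p_j - p_i)`. Hence
`P.map dK - Sd W` is diagonal in the eigenbasis: `= dg p'`. And
`na W = (P + [P, θ]).map dK - Sd W - [Sd W, θ] = dg p' + [dg p', θ]` as `θ` is constant.
`(dg p') 1 = (P.map dK) 1 - (Sd W) 1 = dK (P 1)` (`Sd_one`, `1` constant).
-/

open scoped BigOperators

namespace Pool.Agent.CVG

private theorem mdK_mul {a b c : ℕ} (M : Matrix (Fin a) (Fin b) KK) (N : Matrix (Fin b) (Fin c) KK) :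
    (M * N).map dK = M.map dK * N + M * N.map dK := by
  ext i j
  rw [Matrix.map_apply, Matrix.mul_apply, map_sum, Matrix.add_apply, Matrix.mul_apply,
    Matrix.mul_apply, ← Finset.sum_add_distrib]
  refine Finset.sum_congr rfl fun k _ => ?_
  rw [Derivation.leibniz, Matrix.map_apply, Matrix.map_apply, smul_eq_mul, smul_eq_mul]
  ring

private theorem mdK_add {a b : ℕ} (M N : Matrix (Fin a) (Fin b) KK) :
    (M + N).map dK = M.map dK + N.map dK := by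
  ext i j
  rw [Matrix.map_apply, Matrix.add_apply, map_add]
  rfl

private theorem mdK_sub {a b : ℕ} (M N : Matrix (Fin a) (Fin b) KK) :
    (M - N).map dK = M.map dK - N.map dK := by
  ext i j
  rw [Matrix.map_apply, Matrix.sub_apply, map_sub]
  rfl

private theorem mdK_one {a : ℕ} : (1 : Matrix (Fin a) (Fin a) KK).map dK = 0 := by
  ext i j
  rw [Matrix.map_apply, Matrix.one_apply, Matrix.zero_apply]
  split_ifs
  · exact dK.map_one_eq_zero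
  · exact map_zero dK

private theorem mdK_diag {a : ℕ} (p : Fin a → KK) :
    (Matrix.diagonal p).map dK = Matrix.diagonal fun i => dK (p i) := by
  ext i j
  rw [Matrix.map_apply, Matrix.diagonal_apply, Matrix.diagonal_apply]
  split_ifs
  · rfl
  · exact map_zero dK

namespace Dat

variable {n : ℕ} (Δ : Dat n)

/-- matrices diagonal in the eigenbasis -/
noncomputable def dg (p : Fin n → KK) : Matrix (Fin n) (Fin n) KK :=
  Δ.G * Matrix.diagonal p * Δ.G⁻¹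

private theorem tr_GG : Δ.G * Δ.G⁻¹ = 1 := Matrix.mul_nonsing_inv _ Δ.hG

private theorem tr_GG' : Δ.G⁻¹ * Δ.G = 1 := Matrix.nonsing_inv_mul _ Δ.hG

private theorem cj_mul (X Y : Matrix (Fin n) (Fin n) KK) : Δ.cj (X * Y) = Δ.cj X * Δ.cj Y := by
  unfold cj
  have h := tr_GG Δ
  calc Δ.G⁻¹ * (X * Y) * Δ.G = Δ.G⁻¹ * X * (Y * Δ.G) := by simp only [Matrix.mul_assoc]
    _ = Δ.G⁻¹ * X * ((Δ.G * Δ.G⁻¹) * (Y * Δ.G)) := by rw [h, Matrix.one_mul]
    _ = Δ.G⁻¹ * X * Δ.G * (Δ.G⁻¹ * Y * Δ.G) := by simp only [Matrix.mul_assoc]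

private theorem cj_add (X Y : Matrix (Fin n) (Fin n) KK) : Δ.cj (X + Y) = Δ.cj X + Δ.cj Y := by
  unfold cj
  rw [Matrix.mul_add, Matrix.add_mul]

private theorem cj_sub (X Y : Matrix (Fin n) (Fin n) KK) : Δ.cj (X - Y) = Δ.cj X - Δ.cj Y := by
  unfold cj
  rw [Matrix.mul_sub, Matrix.sub_mul]

private theorem cj_conj (X : Matrix (Fin n) (Fin n) KK) : Δ.cj (Δ.G * X * Δ.G⁻¹) = X := by
  unfold cj
  have h := tr_GG' Δ
  calc Δ.G⁻¹ * (Δ.G * X * Δ.G⁻¹) * Δ.G = (Δ.G⁻¹ * Δ.G) * X * (Δ.G⁻¹ * Δ.G) := by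
        simp only [Matrix.mul_assoc]
    _ = X := by rw [h, Matrix.one_mul, Matrix.mul_one]

private theorem conj_cj (X : Matrix (Fin n) (Fin n) KK) : Δ.G * Δ.cj X * Δ.G⁻¹ = X := by
  unfold cj
  have h := tr_GG Δ
  calc Δ.G * (Δ.G⁻¹ * X * Δ.G) * Δ.G⁻¹ = (Δ.G * Δ.G⁻¹) * X * (Δ.G * Δ.G⁻¹) := by
        simp only [Matrix.mul_assoc]
    _ = X := by rw [h, Matrix.one_mul, Matrix.mul_one]

private theorem cj_dg (p : Fin n → KK) : Δ.cj (Δ.dg p) = Matrix.diagonal p := cj_conj Δ _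

theorem PP_eq (W : Matrix (Fin n) (Fin n) KK) : Δ.PP W = Δ.dg (fun j => Δ.w j W) := by
  classical
  unfold PP dg E
  have h : Matrix.diagonal (fun j => Δ.w j W) =
      ∑ j, Δ.w j W • Matrix.diagonal (Pi.single j (1 : KK)) := by
    ext a b
    rw [Matrix.sum_apply, Matrix.diagonal_apply]
    simp only [Matrix.smul_apply, Matrix.diagonal_apply, smul_eq_mul]
    split_ifs with hab
    · rw [Finset.sum_eq_single a]
      · rw [Pi.single_eq_same, mul_one]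
      · intro j _ hj
        rw [Pi.single_eq_of_ne hj.symm, mul_zero]
      · intro ha
        exact absurd (Finset.mem_univ a) ha
    · simp
  rw [h, Matrix.mul_sum, Matrix.sum_mul]
  refine Finset.sum_congr rfl fun j _ => ?_
  rw [Matrix.mul_smul, Matrix.smul_mul]

theorem w_dg (p : Fin n → KK) (i : Fin n) :
    Δ.w i (Δ.dg p + (Δ.dg p * Δ.thK - Δ.thK * Δ.dg p)) = p i := by
  unfold w
  rw [cj_add, cj_sub, cj_mul, cj_mul, cj_dg, Matrix.add_apply, Matrix.sub_apply,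
    Matrix.diagonal_mul, Matrix.mul_diagonal, Matrix.diagonal_apply_eq]
  ring

private theorem map_inv : Δ.G⁻¹.map dK = -(Δ.G⁻¹ * Δ.G.map dK * Δ.G⁻¹) := by
  have h1 := mdK_mul Δ.G Δ.G⁻¹
  rw [tr_GG, mdK_one] at h1
  have h2 : Δ.G⁻¹ * (Δ.G.map dK * Δ.G⁻¹ + Δ.G * Δ.G⁻¹.map dK) = 0 := by
    rw [← h1, Matrix.mul_zero]
  rw [Matrix.mul_add, ← Matrix.mul_assoc Δ.G⁻¹ Δ.G, tr_GG', Matrix.one_mul,
    ← Matrix.mul_assoc] at h2
  exact (neg_eq_of_add_eq_zero_right h2).symm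

private theorem cj_map_dg (p : Fin n → KK) : Δ.cj ((Δ.dg p).map dK) =
    Matrix.diagonal (fun i => dK (p i)) + (Δ.G⁻¹ * Δ.G.map dK) * Matrix.diagonal p -
      Matrix.diagonal p * (Δ.G⁻¹ * Δ.G.map dK) := by
  unfold dg
  rw [mdK_mul, mdK_mul, mdK_diag, map_inv]
  unfold cj
  have h := tr_GG' Δ
  set D := Matrix.diagonal p
  set D' := Matrix.diagonal fun i => dK (p i)
  set M := Δ.G.map dK
  have e : Δ.G⁻¹ * ((M * D + Δ.G * D') * Δ.G⁻¹ + Δ.G * D * -(Δ.G⁻¹ * M * Δ.G⁻¹)) * Δ.G =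
      Δ.G⁻¹ * M * D * (Δ.G⁻¹ * Δ.G) + (Δ.G⁻¹ * Δ.G) * D' * (Δ.G⁻¹ * Δ.G) -
        (Δ.G⁻¹ * Δ.G) * D * (Δ.G⁻¹ * M) * (Δ.G⁻¹ * Δ.G) := by
    noncomm_ring
  rw [e, h]
  simp only [Matrix.one_mul, Matrix.mul_one]
  abel

private theorem gamma_off {i j : Fin n} (hij : i ≠ j) :
    (Δ.G⁻¹ * Δ.G.map dK) i j * (Δ.u j - Δ.u i) =
      (dK (Δ.u i) - dK (Δ.u j)) * Δ.cj Δ.thK i j := by
  have h1 : Δ.U = Δ.dg Δ.u := Δ.hU
  have h2 : Δ.S = Δ.dg (fun i => dK (Δ.u i)) := Δ.hS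
  have h3 := congrArg Δ.cj Δ.flat
  have h4 : Δ.th.map cK = Δ.thK := rfl
  rw [h4, h1, h2, cj_map_dg, cj_add, cj_sub, cj_mul, cj_mul, cj_dg] at h3
  have h5 := congrFun (congrFun h3 i) j
  simp only [Matrix.add_apply, Matrix.sub_apply, Matrix.diagonal_mul, Matrix.mul_diagonal,
    Matrix.diagonal_apply_ne _ hij] at h5
  linear_combination h5

private theorem cj_map_off (p : Fin n → KK) {i j : Fin n} (hij : i ≠ j) :
    Δ.cj ((Δ.dg p).map dK) i j =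
      Δ.sdOff (Δ.dg p + (Δ.dg p * Δ.thK - Δ.thK * Δ.dg p)) i j := by
  have hu : Δ.u i - Δ.u j ≠ 0 := sub_ne_zero.2 fun h => hij (Δ.inj h)
  have h1 := gamma_off Δ hij
  rw [cj_map_dg]
  unfold sdOff
  rw [Matrix.of_apply, if_neg hij, cj_add, cj_sub, cj_mul, cj_mul, cj_dg]
  simp only [Matrix.add_apply, Matrix.sub_apply, Matrix.diagonal_mul, Matrix.mul_diagonal,
    Matrix.diagonal_apply_ne _ hij]
  rw [div_mul_eq_mul_div, eq_div_iff hu]
  linear_combination (p i - p j) * h1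

private theorem cj_Sd (W : Matrix (Fin n) (Fin n) KK) {i j : Fin n} (hij : i ≠ j) :
    Δ.cj (Δ.Sd W) i j = Δ.sdOff W i j := by
  unfold Sd
  rw [cj_conj, Matrix.sub_apply, Matrix.diagonal_apply_ne _ hij, sub_zero]

private theorem map_oneK (X : Matrix (Fin n) (Fin n) KK) (i : Fin n) :
    (X.map dK).mulVec Δ.oneK i = dK (X.mulVec Δ.oneK i) := by
  rw [Matrix.mulVec, Matrix.mulVec, dotProduct, dotProduct, map_sum]
  refine Finset.sum_congr rfl fun k _ => ?_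
  rw [Derivation.leibniz, Matrix.map_apply, smul_eq_mul, smul_eq_mul]
  have h : dK (Δ.oneK k) = 0 := dK_cK _
  rw [h, mul_zero, zero_add, mul_comm]

private theorem map_thK : Δ.thK.map dK = 0 := by
  ext i j
  exact dK_cK _

theorem triv (p : Fin n → KK) : ∃ p' : Fin n → KK,
    Δ.na (Δ.dg p + (Δ.dg p * Δ.thK - Δ.thK * Δ.dg p)) =
      Δ.dg p' + (Δ.dg p' * Δ.thK - Δ.thK * Δ.dg p') ∧
    (Δ.dg p').mulVec Δ.oneK = fun i => dK ((Δ.dg p).mulVec Δ.oneK i) := by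
  set W := Δ.dg p + (Δ.dg p * Δ.thK - Δ.thK * Δ.dg p) with hW
  set p' : Fin n → KK := fun i => Δ.cj ((Δ.dg p).map dK - Δ.Sd W) i i with hp'
  have h1 : Δ.dg p' = (Δ.dg p).map dK - Δ.Sd W := by
    have h2 : Matrix.diagonal p' = Δ.cj ((Δ.dg p).map dK - Δ.Sd W) := by
      ext i j
      by_cases hij : i = j
      · subst hij
        rw [Matrix.diagonal_apply_eq]
      · rw [Matrix.diagonal_apply_ne _ hij, cj_sub, Matrix.sub_apply, cj_Sd Δ W hij,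
          cj_map_off Δ p hij, ← hW, sub_self]
    unfold dg
    rw [h2, conj_cj]
    rfl
  refine ⟨p', ?_, ?_⟩
  · rw [h1]
    unfold na
    have h3 : W.map dK = (Δ.dg p).map dK + ((Δ.dg p).map dK * Δ.thK - Δ.thK * (Δ.dg p).map dK) := by
      rw [hW, mdK_add, mdK_sub, mdK_mul, mdK_mul, map_thK, Matrix.mul_zero, Matrix.zero_mul,
        add_zero, zero_add]
    rw [h3]
    noncomm_ring
  · rw [h1, Matrix.sub_mulVec, Sd_one, sub_zero]
    funext i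
    exact map_oneK Δ _ i

private theorem gm_diag {c : ℚ} {p : Fin n → KK} (h : ∀ i, Ge vK c (p i)) :
    GM vK c (Matrix.diagonal p) := by
  intro i j
  rw [Matrix.diagonal_apply]
  split_ifs
  · exact h i
  · exact Ge.zero

theorem dg_bdd : ∃ C : ℚ, ∀ (c : ℚ) (p : Fin n → KK), (∀ i, Ge vK c (p i)) →
    GM vK (c - C) (Δ.dg p) := by
  obtain ⟨C, hC⟩ := gm_mul_bdd vK Δ.G Δ.G⁻¹
  exact ⟨C, fun c p h => hC c _ (gm_diag h)⟩

theorem w_bdd : ∃ C : ℚ, ∀ (c : ℚ) (W : Matrix (Fin n) (Fin n) KK), GM vK c W →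
    ∀ i, Ge vK (c - C) (Δ.w i W) := by
  obtain ⟨C, hC⟩ := gm_mul_bdd vK Δ.G⁻¹ Δ.G
  exact ⟨C, fun c W h i => hC c W h i i⟩

/-- `dg p` is controlled by `(dg p) 1` -/
theorem dg_one_bdd : ∃ C : ℚ, ∀ (c : ℚ) (p : Fin n → KK),
    (∀ i, Ge vK c ((Δ.dg p).mulVec Δ.oneK i)) → GM vK (c - C) (Δ.dg p) := by
  obtain ⟨C₁, h1⟩ := Δ.dg_bdd
  obtain ⟨C₂, h2⟩ := exists_GM vK Δ.G⁻¹
  obtain ⟨C₃, h3⟩ := exists_GM vK (Matrix.diagonal fun i => (Δ.o i)⁻¹)
  refine ⟨C₁ - C₂ - C₃, fun c p hp => ?_⟩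
  have h4 : ∀ i, Ge vK (C₃ + (C₂ + c)) (p i) := by
    intro i
    have h5 : p i = (Δ.o i)⁻¹ * (Δ.G⁻¹.mulVec ((Δ.dg p).mulVec Δ.oneK)) i := by
      have h6 : Δ.G⁻¹.mulVec ((Δ.dg p).mulVec Δ.oneK) = (Matrix.diagonal p).mulVec Δ.o := by
        unfold dg o
        rw [Matrix.mulVec_mulVec, Matrix.mulVec_mulVec, ← Matrix.mul_assoc, ← Matrix.mul_assoc,
          tr_GG', Matrix.one_mul]
      rw [h6, Matrix.mulVec_diagonal]
      have h7 : Δ.o i ≠ 0 := Δ.hone i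
      field_simp
    rw [h5]
    refine Ge.mul ?_ ?_
    · have h8 := h3 i i
      rwa [Matrix.diagonal_apply_eq] at h8
    · rw [Matrix.mulVec, dotProduct]
      exact Ge.sum _ _ fun k _ => (h2 i k).mul (hp k)
  have h9 := h1 _ p h4
  intro i j
  refine (h9 i j).mono (le_of_eq ?_)
  ring

end Dat

end Pool.Agent.CVG
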