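import Pool.Agent.CVG.ConvDefs

/-!
# CVG-WBMul: products and the weights `A^k/(k+1)^2`

PLAN. `∑_{i+j=k} 1/((i+1)^2 (j+1)^2) ≤ c₀/(k+1)^2`: one of `i + 1`, `j + 1` is `≥ (k+2)/2`, so the sum is
`≤ 2 * (4/(k+2)^2) * ∑_i 1/(i+1)^2 ≤ 16/(k+1)^2` (`∑_{i<N} 1/(i+1)^2 ≤ 2`, elementary telescoping). Take
`c₀ = 16`.
`wb_small`: a convergent series without constant term has small weighted norm for large `A`:
`‖f_k‖ ≤ C B^k` for `k ≥ 1`, and `C B^k ≤ η A^k/(k+1)^2` once `A ≥ 16 B (1 + C/η)`, because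
`(k+1)^2 ≤ 4 * 4^k ..`, `(B/A)^k (k+1)^2 C ≤ η` for all `k ≥ 1` if `A/B` is large. `wb_conv`: any
convergent series has weighted norm at most `K₀` independent of large `A`: `K₀ = 2 C + ..`.
-/

open scoped BigOperators PowerSeries

namespace Pool.Agent.CVG

private theorem sum_sq_le (k : ℕ) :
    ∑ i ∈ Finset.range (k + 1), 1 / ((i : ℝ) + 1) ^ 2 ≤ 2 - 1 / ((k : ℝ) + 1) := by
  induction k with
  | zero => norm_num
  | succ k ih =>
    rw [Finset.sum_range_succ]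
    have hk : (0 : ℝ) ≤ k := Nat.cast_nonneg k
    have h1 : (1 : ℝ) / (((k + 1 : ℕ) : ℝ) + 1) ^ 2 ≤
        1 / ((k : ℝ) + 1) - 1 / (((k + 1 : ℕ) : ℝ) + 1) := by
      push_cast
      rw [div_sub_div _ _ (by positivity) (by positivity), div_le_div_iff₀ (by positivity)
        (by positivity)]
      nlinarith
    linarith

private theorem conv_sum_le (k : ℕ) :
    ∑ p ∈ Finset.HasAntidiagonal.antidiagonal k,
      1 / (((p.1 : ℝ) + 1) ^ 2 * ((p.2 : ℝ) + 1) ^ 2) ≤ 8 / ((k : ℝ) + 1) ^ 2 := by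
  have hk : (0 : ℝ) ≤ k := Nat.cast_nonneg k
  have h1 : ∀ p ∈ Finset.HasAntidiagonal.antidiagonal k,
      1 / (((p.1 : ℝ) + 1) ^ 2 * ((p.2 : ℝ) + 1) ^ 2) ≤
        2 / ((k : ℝ) + 1) ^ 2 * (1 / ((p.1 : ℝ) + 1) ^ 2) +
        2 / ((k : ℝ) + 1) ^ 2 * (1 / ((p.2 : ℝ) + 1) ^ 2) := by
    intro p hp
    rw [Finset.HasAntidiagonal.mem_antidiagonal] at hp
    have hx : (0 : ℝ) ≤ p.1 := Nat.cast_nonneg _
    have hy : (0 : ℝ) ≤ p.2 := Nat.cast_nonneg _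
    have hs : (k : ℝ) = p.1 + p.2 := by
      rw [← hp]
      push_cast
      rfl
    rw [hs]
    have e1 : 2 / ((p.1 : ℝ) + p.2 + 1) ^ 2 * (1 / ((p.1 : ℝ) + 1) ^ 2) +
        2 / ((p.1 : ℝ) + p.2 + 1) ^ 2 * (1 / ((p.2 : ℝ) + 1) ^ 2) =
        2 * (((p.1 : ℝ) + 1) ^ 2 + ((p.2 : ℝ) + 1) ^ 2) /
          (((p.1 : ℝ) + p.2 + 1) ^ 2 * (((p.1 : ℝ) + 1) ^ 2 * ((p.2 : ℝ) + 1) ^ 2)) := by
      field_simp
      ring
    rw [e1, div_le_div_iff₀ (by positivity) (by positivity)]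
    have e2 : ((p.1 : ℝ) + p.2 + 1) ^ 2 ≤
        2 * (((p.1 : ℝ) + 1) ^ 2 + ((p.2 : ℝ) + 1) ^ 2) := by
      nlinarith [sq_nonneg ((p.1 : ℝ) - p.2)]
    have e3 : 0 ≤ ((p.1 : ℝ) + 1) ^ 2 * ((p.2 : ℝ) + 1) ^ 2 := by positivity
    nlinarith [mul_le_mul_of_nonneg_right e2 e3]
  refine (Finset.sum_le_sum h1).trans ?_
  rw [Finset.sum_add_distrib, ← Finset.mul_sum, ← Finset.mul_sum]
  have h2 : ∑ p ∈ Finset.HasAntidiagonal.antidiagonal k, 1 / ((p.1 : ℝ) + 1) ^ 2 ≤ 2 := by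
    have h3 : ∑ p ∈ Finset.HasAntidiagonal.antidiagonal k, 1 / ((p.1 : ℝ) + 1) ^ 2 =
        ∑ i ∈ Finset.range (k + 1), 1 / ((i : ℝ) + 1) ^ 2 :=
      Finset.Nat.sum_antidiagonal_eq_sum_range_succ_mk
        (fun p : ℕ × ℕ => 1 / ((p.1 : ℝ) + 1) ^ 2) k
    rw [h3]
    have h4 := sum_sq_le k
    have h5 : (0 : ℝ) < 1 / ((k : ℝ) + 1) := by positivity
    linarith
  have h2' : ∑ p ∈ Finset.HasAntidiagonal.antidiagonal k, 1 / ((p.2 : ℝ) + 1) ^ 2 ≤ 2 := by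
    have h3 : ∑ p ∈ Finset.HasAntidiagonal.antidiagonal k, 1 / ((p.2 : ℝ) + 1) ^ 2 =
        ∑ p ∈ Finset.HasAntidiagonal.antidiagonal k, 1 / ((p.1 : ℝ) + 1) ^ 2 :=
      Finset.Nat.sum_antidiagonal_swap (f := fun p : ℕ × ℕ => 1 / ((p.1 : ℝ) + 1) ^ 2)
    rw [h3]
    exact h2
  have h6 : (0 : ℝ) ≤ 2 / ((k : ℝ) + 1) ^ 2 := by positivity
  have h7 := mul_le_mul_of_nonneg_left h2 h6
  have h8 := mul_le_mul_of_nonneg_left h2' h6
  have h9 : 8 / ((k : ℝ) + 1) ^ 2 = 2 / ((k : ℝ) + 1) ^ 2 * 2 + 2 / ((k : ℝ) + 1) ^ 2 * 2 := by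
    ring
  rw [h9]
  linarith

theorem wb_mul : ∃ c₀ : ℝ, 1 ≤ c₀ ∧ ∀ (K K' A : ℝ) (n : ℕ) (f g : ℂ⟦X⟧), 0 ≤ K → 0 ≤ K' → 0 ≤ A →
    WB K A n f → WB K' A n g → WB (c₀ * (K * K')) A n (f * g) := by
  refine ⟨8, by norm_num, ?_⟩
  intro K K' A n f g hK hK' hA hf hg k hk
  rw [PowerSeries.coeff_mul]
  refine (norm_sum_le _ _).trans ?_
  have h1 : ∀ p ∈ Finset.HasAntidiagonal.antidiagonal k,
      ‖PowerSeries.coeff p.1 f * PowerSeries.coeff p.2 g‖ ≤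
        K * K' * A ^ k * (1 / (((p.1 : ℝ) + 1) ^ 2 * ((p.2 : ℝ) + 1) ^ 2)) := by
    intro p hp
    rw [Finset.HasAntidiagonal.mem_antidiagonal] at hp
    rw [norm_mul]
    have h2 := hf p.1 (by omega)
    have h3 := hg p.2 (by omega)
    refine (mul_le_mul h2 h3 (norm_nonneg _) (by positivity)).trans ?_
    apply le_of_eq
    rw [← hp, pow_add]
    field_simp
  refine (Finset.sum_le_sum h1).trans ?_
  rw [← Finset.mul_sum]
  refine (mul_le_mul_of_nonneg_left (conv_sum_le k) (by positivity)).trans ?_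
  apply le_of_eq
  ring

private theorem sq_le_four_pow (k : ℕ) : ((k : ℝ) + 1) ^ 2 ≤ 4 ^ k := by
  have h1 : k + 1 ≤ 2 ^ k := Nat.lt_two_pow_self
  have h2 : ((k : ℝ) + 1) ≤ 2 ^ k := by exact_mod_cast h1
  have h3 : (0 : ℝ) ≤ (k : ℝ) + 1 := by positivity
  calc ((k : ℝ) + 1) ^ 2 ≤ (2 ^ k) ^ 2 := pow_le_pow_left₀ h3 h2 2
    _ = 4 ^ k := by
        rw [← pow_mul, mul_comm k 2, pow_mul]
        norm_num

theorem wb_small (f : ℂ⟦X⟧) (hf : ConvPS f) (h0 : PowerSeries.constantCoeff f = 0) (η : ℝ)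
    (hη : 0 < η) : ∃ A₀ : ℝ, 1 ≤ A₀ ∧ ∀ A, A₀ ≤ A → ∀ n, WB η A n f := by
  obtain ⟨C, B, hC, hB, h⟩ := hf
  have hM1 : 1 ≤ max 1 (C / η) := le_max_left _ _
  have hM2 : C / η ≤ max 1 (C / η) := le_max_right _ _
  set M := max 1 (C / η) with hM
  refine ⟨4 * M * B, ?_, ?_⟩
  · nlinarith [mul_le_mul hM1 hB zero_le_one (by linarith : (0 : ℝ) ≤ M)]
  intro A hA n k _
  have hk1 : (0 : ℝ) < ((k : ℝ) + 1) ^ 2 := by positivity
  have hMB : (0 : ℝ) ≤ 4 * M * B := by positivity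
  have hA0 : 0 ≤ A := hMB.trans hA
  rcases Nat.eq_zero_or_pos k with hk | hk
  · subst hk
    have h2 : PowerSeries.coeff 0 f = 0 := by
      rw [PowerSeries.coeff_zero_eq_constantCoeff_apply]
      exact h0
    rw [h2, norm_zero]
    positivity
  · rw [le_div_iff₀ hk1]
    have h2 := h k
    have h3 : C ≤ η * M := by
      rw [div_le_iff₀ hη] at hM2
      linarith
    have h4 : M ≤ M ^ k := by
      calc M = M ^ 1 := (pow_one M).symm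
        _ ≤ M ^ k := pow_le_pow_right₀ hM1 hk
    have h5 : 0 ≤ B ^ k := by positivity
    calc ‖PowerSeries.coeff k f‖ * ((k : ℝ) + 1) ^ 2
        ≤ C * B ^ k * 4 ^ k := by
          apply mul_le_mul h2 (sq_le_four_pow k) hk1.le (by positivity)
      _ ≤ η * M ^ k * B ^ k * 4 ^ k := by
          have h6 : C ≤ η * M ^ k := h3.trans (mul_le_mul_of_nonneg_left h4 hη.le)
          have h7 : (0 : ℝ) ≤ B ^ k * 4 ^ k := by positivity
          nlinarith [mul_le_mul_of_nonneg_right h6 h7]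
      _ = η * (4 * M * B) ^ k := by
          rw [mul_pow, mul_pow]
          ring
      _ ≤ η * A ^ k := by
          apply mul_le_mul_of_nonneg_left _ hη.le
          exact pow_le_pow_left₀ hMB hA k

theorem wb_conv (f : ℂ⟦X⟧) (hf : ConvPS f) :
    ∃ K₀ A₀ : ℝ, 0 < K₀ ∧ 1 ≤ A₀ ∧ ∀ A, A₀ ≤ A → ∀ n, WB K₀ A n f := by
  obtain ⟨C, B, hC, hB, h⟩ := hf
  refine ⟨C, 4 * B, hC, by linarith, ?_⟩
  intro A hA n k _
  have hk1 : (0 : ℝ) < ((k : ℝ) + 1) ^ 2 := by positivity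
  rw [le_div_iff₀ hk1]
  calc ‖PowerSeries.coeff k f‖ * ((k : ℝ) + 1) ^ 2
      ≤ C * B ^ k * 4 ^ k := by
        apply mul_le_mul (h k) (sq_le_four_pow k) hk1.le (by positivity)
    _ = C * (4 * B) ^ k := by
        rw [mul_pow]
        ring
    _ ≤ C * A ^ k := by
        apply mul_le_mul_of_nonneg_left _ hC.le
        exact pow_le_pow_left₀ (by positivity) hA k

theorem convPS_of_wb (f : ℂ⟦X⟧) (K A : ℝ) (hK : 0 < K) (hA : 1 ≤ A) (h : ∀ n, WB K A n f) :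
    ConvPS f := by
  refine ⟨K, A, hK, hA, fun k => ?_⟩
  refine (h k k le_rfl).trans ?_
  have hk : (0 : ℝ) ≤ k := Nat.cast_nonneg k
  apply div_le_self (by positivity)
  nlinarith

end Pool.Agent.CVG
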